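import Pool.Agent.Helper965_Rud.ASDefs

/-! # Cup-`i` products of Alexander-Spanier cochains mod 2

`F r x y` is the cup-`(r-1)` product (`F 0 x y l = x l * y []`). -/

set_option autoImplicit false

namespace Pool.Agent.Helper965_Rud.AS

variable {Ω : Type*}

/-- value of the product on a list -/
def Fv : List Ω → ℕ → (List Ω → ZMod 2) → (List Ω → ZMod 2) → ZMod 2
  | [], 0, x, y => x [] * y []
  | [], _ + 1, _, _ => 0
  | p :: l, 0, x, y => Fv l 0 (fun m => x (p :: m)) y
  | p :: l, r + 1, x, y => Fv l (r + 1) (fun m => x (p :: m)) y +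
      Fv l r (fun m => y (p :: m)) (fun m => x (p :: m))

/-- the product of cochains -/
def F (r : ℕ) (x y : List Ω → ZMod 2) : List Ω → ZMod 2 := fun l => Fv l r x y

theorem F_nil_zero (x y : List Ω → ZMod 2) : F 0 x y [] = x [] * y [] := rfl
theorem F_nil_succ (r : ℕ) (x y : List Ω → ZMod 2) : F (r + 1) x y [] = 0 := rfl
theorem F_cons_zero (x y : List Ω → ZMod 2) (p : Ω) (l : List Ω) :
    F 0 x y (p :: l) = F 0 (fun m => x (p :: m)) y l := rfl
theorem F_cons_succ (r : ℕ) (x y : List Ω → ZMod 2) (p : Ω) (l : List Ω) :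
    F (r + 1) x y (p :: l) = F (r + 1) (fun m => x (p :: m)) y l +
      F r (fun m => y (p :: m)) (fun m => x (p :: m)) l := rfl

theorem F_zero (x y : List Ω → ZMod 2) (l : List Ω) : F 0 x y l = x l * y [] := by
  induction l generalizing x with
  | nil => rfl
  | cons p l ih => rw [F_cons_zero, ih]

theorem d_cons' (c : List Ω → ZMod 2) (x : Ω) (l : List Ω) :
    d c (x :: l) = c l + d (fun l' => c (x :: l')) l := by
  rw [d_cons, CharTwo.sub_eq_add]

theorem F_add_left (r : ℕ) (x x' y : List Ω → ZMod 2) : F r (x + x') y = F r x y + F r x' y ∧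
    F r y (x + x') = F r y x + F r y x' := by
  suffices h : ∀ l r (x x' y : List Ω → ZMod 2), F r (x + x') y l = F r x y l + F r x' y l ∧
      F r y (x + x') l = F r y x l + F r y x' l from
    ⟨funext fun l => (h l r x x' y).1, funext fun l => (h l r x x' y).2⟩
  intro l
  induction l with
  | nil =>
    intro r x x' y
    cases r with
    | zero => simp only [F_nil_zero, Pi.add_apply]; constructor <;> ring
    | succ r => simp [F_nil_succ]
  | cons p l ih =>
    intro r x x' y
    have e : (fun m => (x + x') (p :: m)) = (fun m => x (p :: m)) + (fun m => x' (p :: m)) := rfl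
    cases r with
    | zero =>
      rw [F_cons_zero, F_cons_zero, F_cons_zero, F_cons_zero, F_cons_zero, F_cons_zero, e]
      exact ⟨(ih 0 _ _ _).1, (ih 0 _ _ _).2⟩
    | succ r =>
      rw [F_cons_succ, F_cons_succ, F_cons_succ, F_cons_succ, F_cons_succ, F_cons_succ, e,
        (ih (r + 1) _ _ _).1, (ih r _ _ _).2, (ih r _ _ _).1, (ih (r + 1) x x' _).2]
      constructor <;> ring

theorem F_add_l (r : ℕ) (x x' y : List Ω → ZMod 2) : F r (x + x') y = F r x y + F r x' y :=
  (F_add_left r x x' y).1

theorem F_add_r (r : ℕ) (x x' y : List Ω → ZMod 2) : F r y (x + x') = F r y x + F r y x' :=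
  (F_add_left r x x' y).2

theorem F_zero_l (r : ℕ) (y : List Ω → ZMod 2) : F r 0 y = 0 := by
  have := F_add_l r 0 0 y
  simpa using this

theorem F_zero_r (r : ℕ) (y : List Ω → ZMod 2) : F r y 0 = 0 := by
  have := F_add_r r 0 0 y
  simpa using this

/-- naturality -/
theorem F_pb {Ω' : Type*} (f : Ω → Ω') (r : ℕ) (x y : List Ω' → ZMod 2) :
    F r (pb f x) (pb f y) = pb f (F r x y) := by
  funext l
  suffices h : ∀ l r (x y : List Ω' → ZMod 2), F r (pb f x) (pb f y) l = F r x y (l.map f) from
    h l r x y
  intro l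
  induction l with
  | nil => intro r x y; cases r <;> rfl
  | cons p l ih =>
    intro r x y
    have e : ∀ z : List Ω' → ZMod 2, (fun m => pb f z (p :: m)) = pb f (fun m => z (f p :: m)) :=
      fun z => rfl
    cases r with
    | zero => rw [List.map_cons, F_cons_zero, F_cons_zero, e, ih]
    | succ r => rw [List.map_cons, F_cons_succ, F_cons_succ, e, e, ih, ih]

/-- the coboundary formula in degree zero -/
theorem d_F_zero (x y : List Ω → ZMod 2) : d (F 0 x y) = F 0 (d x) y := by
  funext l
  induction l generalizing x with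
  | nil => simp [F_nil_zero]
  | cons p l ih =>
    have e : (fun m => F 0 x y (p :: m)) = F 0 (fun m => x (p :: m)) y := rfl
    have e2 : (fun m => d x (p :: m)) = x + d (fun m => x (p :: m)) := by
      funext m; rw [d_cons', Pi.add_apply]
    rw [d_cons', e, ih, F_cons_zero, e2, F_add_l, Pi.add_apply]

/-- the coboundary formula -/
theorem d_F_succ (r : ℕ) (x y : List Ω → ZMod 2) :
    d (F (r + 1) x y) = F (r + 1) (d x) y + F (r + 1) x (d y) + F r x y + F r y x := by
  funext l
  suffices h : ∀ l r (x y : List Ω → ZMod 2), d (F (r + 1) x y) l =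
      F (r + 1) (d x) y l + F (r + 1) x (d y) l + F r x y l + F r y x l from h l r x y
  intro l
  induction l with
  | nil =>
    intro r x y
    cases r with
    | zero =>
      simp only [d_nil, F_nil_succ, F_nil_zero, zero_add]
      rw [mul_comm (y []), CharTwo.add_self_eq_zero]
    | succ r => simp [F_nil_succ]
  | cons p l ih =>
    intro r x y
    have e2 : ∀ x : List Ω → ZMod 2, (fun m => d x (p :: m)) = x + d (fun m => x (p :: m)) := by
      intro x; funext m; rw [d_cons', Pi.add_apply]
    have e : (fun m => F (r + 1) x y (p :: m)) = F (r + 1) (fun m => x (p :: m)) y +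
        F r (fun m => y (p :: m)) (fun m => x (p :: m)) := by
      funext m; rw [F_cons_succ, Pi.add_apply]
    set a : List Ω → ZMod 2 := fun m => x (p :: m) with ha
    set b : List Ω → ZMod 2 := fun m => y (p :: m) with hb
    rw [d_cons', e, d_add, Pi.add_apply, ih r a y, F_cons_succ, F_cons_succ, e2, e2, F_add_l,
      F_add_r, F_add_l]
    cases r with
    | zero =>
      rw [d_F_zero, F_cons_zero, F_cons_zero]
      simp only [Pi.add_apply, F_zero, d_nil, mul_zero]
      have h2 : (2 : ZMod 2) = 0 := rfl
      linear_combination (- y (p :: l) * x []) * h2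
    | succ r =>
      rw [ih r b a, F_cons_succ, F_cons_succ]
      simp only [Pi.add_apply]
      have h2 : (2 : ZMod 2) = 0 := rfl
      linear_combination (- F (r + 1) (fun m => y (p :: m)) x l) * h2

/-- the product on a list only depends on the values on lists of entries of that list -/
theorem F_congr {x x' y y' : List Ω → ZMod 2} (l : List Ω) (r : ℕ) (hx : ∀ m, m ⊆ l → x m = x' m)
    (hy : ∀ m, m ⊆ l → y m = y' m) : F r x y l = F r x' y' l := by
  induction l generalizing r x x' y y' with
  | nil =>
    cases r with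
    | zero => rw [F_nil_zero, F_nil_zero, hx [] (List.nil_subset _), hy [] (List.nil_subset _)]
    | succ r => rfl
  | cons p l ih =>
    have hs : ∀ m, m ⊆ l → m ⊆ p :: l := fun m hm => List.subset_cons_of_subset p hm
    have hc : ∀ m, m ⊆ l → p :: m ⊆ p :: l := fun m hm => List.cons_subset_cons p hm
    cases r with
    | zero =>
      rw [F_cons_zero, F_cons_zero]
      exact ih 0 (fun m hm => hx _ (hc m hm)) (fun m hm => hy _ (hs m hm))
    | succ r =>
      rw [F_cons_succ, F_cons_succ]
      congr 1
      · exact ih (r + 1) (fun m hm => hx _ (hc m hm)) (fun m hm => hy _ (hs m hm))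
      · exact ih r (fun m hm => hy _ (hc m hm)) (fun m hm => hx _ (hc m hm))

/-- the part of a cochain on lists of length `q` -/
def res (q : ℕ) (c : List Ω → ZMod 2) : List Ω → ZMod 2 := fun l => if l.length = q then c l else 0

theorem res_of {q : ℕ} (c : List Ω → ZMod 2) {l : List Ω} (h : l.length = q) : res q c l = c l :=
  if_pos h

theorem res_ne {q : ℕ} (c : List Ω → ZMod 2) {l : List Ω} (h : l.length ≠ q) : res q c l = 0 :=
  if_neg h

theorem res_add (q : ℕ) (b c : List Ω → ZMod 2) : res q (b + c) = res q b + res q c := by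
  funext l
  by_cases h : l.length = q
  · rw [Pi.add_apply, res_of _ h, res_of _ h, res_of _ h, Pi.add_apply]
  · rw [Pi.add_apply, res_ne _ h, res_ne _ h, res_ne _ h, add_zero]

theorem res_pb {Ω' : Type*} (f : Ω → Ω') (q : ℕ) (c : List Ω' → ZMod 2) :
    res q (pb f c) = pb f (res q c) := by
  funext l
  show (if l.length = q then c (l.map f) else 0) = if (l.map f).length = q then c (l.map f) else 0
  rw [List.length_map]

theorem d_res (q : ℕ) (c : List Ω → ZMod 2) : d (res q c) = res (q + 1) (d c) := by
  funext l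
  by_cases h : l.length = q + 1
  · rw [res_of _ h]
    exact d_congr l fun l' hl' _ => res_of _ (by omega)
  · rw [res_ne _ h]
    exact d_eq_zero l fun l' hl' _ => res_ne _ (by omega)

/-- the product of a cochain of length `p` and a cochain of length `q` -/
def cup (r p q : ℕ) (x y : List Ω → ZMod 2) : List Ω → ZMod 2 := F r (res p x) (res q y)

theorem cup_add_l (r p q : ℕ) (x x' y : List Ω → ZMod 2) :
    cup r p q (x + x') y = cup r p q x y + cup r p q x' y := by
  unfold cup; rw [res_add, F_add_l]

theorem cup_add_r (r p q : ℕ) (x y y' : List Ω → ZMod 2) :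
    cup r p q x (y + y') = cup r p q x y + cup r p q x y' := by
  unfold cup; rw [res_add, F_add_r]

theorem cup_pb {Ω' : Type*} (f : Ω → Ω') (r p q : ℕ) (x y : List Ω' → ZMod 2) :
    cup r p q (pb f x) (pb f y) = pb f (cup r p q x y) := by
  unfold cup; rw [res_pb, res_pb, F_pb]

/-- the coboundary formula -/
theorem d_cup (r p q : ℕ) (x y : List Ω → ZMod 2) :
    d (cup (r + 1) p q x y) = cup (r + 1) (p + 1) q (d x) y + cup (r + 1) p (q + 1) x (d y) +
      cup r p q x y + cup r q p y x := by
  unfold cup
  rw [d_F_succ, d_res, d_res]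

section small

variable [MetricSpace Ω] {X : Set Ω}

theorem Nl.cup_left {p : ℕ} {x : List Ω → ZMod 2} (h : Nl X p x) (r q n : ℕ)
    (y : List Ω → ZMod 2) : Nl X n (cup r p q x y) := by
  obtain ⟨ε, hε, h⟩ := h
  refine ⟨ε, hε, fun l _ hs => ?_⟩
  have : cup r p q x y l = F r 0 (res q y) l := by
    refine F_congr l r (fun m hm => ?_) (fun m _ => rfl)
    by_cases hp : m.length = p
    · rw [res_of _ hp, h m hp (hs.sub hm)]; rfl
    · rw [res_ne _ hp]; rfl
  rw [this, F_zero_l]; rfl

theorem Nl.cup_right {q : ℕ} {y : List Ω → ZMod 2} (h : Nl X q y) (r p n : ℕ)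
    (x : List Ω → ZMod 2) : Nl X n (cup r p q x y) := by
  obtain ⟨ε, hε, h⟩ := h
  refine ⟨ε, hε, fun l _ hs => ?_⟩
  have : cup r p q x y l = F r (res p x) 0 l := by
    refine F_congr l r (fun m _ => rfl) (fun m hm => ?_)
    by_cases hp : m.length = q
    · rw [res_of _ hp, h m hp (hs.sub hm)]; rfl
    · rw [res_ne _ hp]; rfl
  rw [this, F_zero_r]; rfl

end small

end Pool.Agent.Helper965_Rud.AS
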