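import Pool.Agent.Helper965_Rud.ASDefs

set_option autoImplicit false

namespace Pool.Agent.Helper965_Rud.AS.Homot

open Set


section
variable {Ω : Type*} [MetricSpace Ω]

omit [MetricSpace Ω] in
theorem job1027_pr_zero (f g : Ω → Ω) (V : Set Ω) : ∀ (l : List Ω) (F : List Ω → ZMod 2),
    (∀ x ∈ l, f x ∈ V ∧ g x ∈ V) →
    (∀ l' : List Ω, l'.length = l.length + 1 → (∀ y ∈ l', y ∈ V) → F l' = 0) →
    pr f g F l = 0 := by
  intro l
  induction l with
  | nil => intro F _ _; rfl
  | cons x l ih =>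
    intro F hV hF
    rw [pr_cons, hF (f x :: g x :: l.map g) (by simp), ih (fun l' => F (f x :: l')), sub_zero]
    · intro y hy
      exact hV y (List.mem_cons_of_mem _ hy)
    · intro l' hl' hV'
      apply hF
      · simp [hl']
      · intro y hy
        rcases List.mem_cons.1 hy with h | h
        · rw [h]; exact (hV x (by simp)).1
        · exact hV' y h
    · intro y hy
      rcases List.mem_cons.1 hy with h | h
      · rw [h]; exact (hV x (by simp)).1
      rcases List.mem_cons.1 h with h | h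
      · rw [h]; exact (hV x (by simp)).2
      obtain ⟨z, hz, h⟩ := List.mem_map.1 h
      rw [← h]
      exact (hV z (List.mem_cons_of_mem _ hz)).2

/-- L1: contractible closed sets are acyclic. -/
theorem acyclic_of_contract (X : Set Ω) (hX : IsCompact X) (p : Ω) (H : ℝ → Ω → Ω)
    (hH : ContinuousOn (fun z : ℝ × Ω => H z.1 z.2) (Icc 0 1 ×ˢ X))
    (hmap : ∀ t ∈ Icc (0 : ℝ) 1, ∀ x ∈ X, H t x ∈ X) (h0 : ∀ x ∈ X, H 0 x = x)
    (h1 : ∀ x ∈ X, H 1 x = p) (hp : p ∈ X) (q : ℕ) : HV X q := by
  intro c hc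
  obtain ⟨ε, hε, hcε⟩ := hc
  have hK : IsCompact (Icc (0 : ℝ) 1 ×ˢ X) := isCompact_Icc.prod hX
  have huc := hK.uniformContinuousOn_of_continuous hH
  rw [Metric.uniformContinuousOn_iff] at huc
  obtain ⟨δ, hδ, hd⟩ := huc ε hε
  have hd' : ∀ t ∈ Icc (0 : ℝ) 1, ∀ s ∈ Icc (0 : ℝ) 1, |t - s| < δ → ∀ x ∈ X, ∀ y ∈ X,
      dist x y < δ → dist (H t x) (H s y) < ε := by
    intro t ht s hs hts x hx y hy hxy
    have := hd (t, x) ⟨ht, hx⟩ (s, y) ⟨hs, hy⟩ (by
      rw [Prod.dist_eq]
      exact max_lt (by rw [Real.dist_eq]; exact hts) hxy)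
    exact this
  have hstep : ∀ t ∈ Icc (0 : ℝ) 1, ∀ s ∈ Icc (0 : ℝ) 1, |t - s| < δ →
      Cob X q (pb (H s) c - pb (H t) c) := by
    intro t ht s hs hts
    refine ⟨pr (H t) (H s) c, δ, hδ, fun l hl hSm => ?_⟩
    rw [← prism, add_sub_cancel_left]
    apply job1027_pr_zero (H t) (H s) {y | ∃ x ∈ l, y = H t x ∨ y = H s x}
    · intro x hx
      exact ⟨⟨x, hx, Or.inl rfl⟩, ⟨x, hx, Or.inr rfl⟩⟩
    · intro l' hl' hV
      apply hcε l' (by rw [hl', hl])
      refine ⟨fun y hy => ?_, fun y hy z hz => ?_⟩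
      · obtain ⟨x, hx, h | h⟩ := hV y hy
        · rw [h]; exact hmap t ht x (hSm.1 x hx)
        · rw [h]; exact hmap s hs x (hSm.1 x hx)
      · obtain ⟨x, hx, h⟩ := hV y hy
        obtain ⟨x', hx', h'⟩ := hV z hz
        have hxx := hSm.2 x hx x' hx'
        have hxX := hSm.1 x hx
        have hxX' := hSm.1 x' hx'
        rcases h with h | h <;> rcases h' with h' | h' <;> rw [h, h']
        · exact hd' t ht t ht (by simpa using hδ) x hxX x' hxX' hxx
        · exact hd' t ht s hs hts x hxX x' hxX' hxx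
        · exact hd' s hs t ht (by rw [abs_sub_comm]; exact hts) x hxX x' hxX' hxx
        · exact hd' s hs s hs (by simpa using hδ) x hxX x' hxX' hxx
  obtain ⟨k, hk⟩ := exists_nat_gt (1 / δ)
  have hk0 : (0 : ℝ) < k := lt_trans (by positivity) hk
  have hkδ : 1 / (k : ℝ) < δ := by
    rw [div_lt_iff₀ hδ] at hk
    rw [div_lt_iff₀ hk0]
    linarith
  have hchain : ∀ i : ℕ, i ≤ k → Cob X q (pb (H ((i : ℝ) / k)) c - pb (H 0) c) := by
    intro i
    induction i with
    | zero =>
      intro _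
      simp only [Nat.cast_zero, zero_div, sub_self]
      exact Nl.zero.cob
    | succ i ih =>
      intro hi
      have h2 := ih (by omega)
      have hik : ((i : ℝ) + 1) / k ≤ 1 := by
        rw [div_le_one hk0]
        exact_mod_cast hi
      have hik' : (i : ℝ) / k ≤ 1 := by
        rw [div_le_one hk0]
        exact_mod_cast (by omega : i ≤ k)
      have h3 := hstep ((i : ℝ) / k) ⟨by positivity, hik'⟩ (((i : ℝ) + 1) / k)
        ⟨by positivity, hik⟩ (by
          rw [← sub_div, abs_div, abs_of_pos hk0, show (i : ℝ) - (i + 1) = -1 by ring]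
          simpa using hkδ)
      have h4 := h3.add h2
      rw [sub_add_sub_cancel] at h4
      push_cast
      exact h4
  have hA : Cob X q (pb (H 1) c - pb (H 0) c) := by
    have := hchain k le_rfl
    rwa [div_self hk0.ne'] at this
  have hB : Cob X q (pb (H 0) c - c) := by
    apply Nl.cob
    refine ⟨1, one_pos, fun l _ hl => ?_⟩
    have : l.map (H 0) = l := by
      have h2 : l.map (H 0) = l.map id := List.map_congr_left (fun x hx => h0 x (hl.1 x hx))
      rw [h2, List.map_id]
    simp only [Pi.sub_apply, pb, this, sub_self]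
  have hC : Cob X q (pb (H 1) c) := by
    refine ⟨pb (fun _ => p) (fun l' => c (p :: l')), 1, one_pos, fun l hl hSm => ?_⟩
    have h2 : l.map (H 1) = l.map (fun _ => p) :=
      List.map_congr_left (fun x hx => h1 x (hSm.1 x hx))
    rw [d_pb]
    simp only [Pi.sub_apply, pb, h2]
    rw [← d_cons]
    apply hcε
    · simp [hl]
    · have hmem : ∀ x ∈ p :: l.map (fun _ => p), x = p := by
        intro x hx
        rcases List.mem_cons.1 hx with h | h
        · exact h
        · obtain ⟨_, _, h⟩ := List.mem_map.1 h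
          exact h.symm
      refine ⟨fun x hx => ?_, fun x hx y hy => ?_⟩
      · rw [hmem x hx]; exact hp
      · rw [hmem x hx, hmem y hy, dist_self]; exact hε
  have hfin := (hC.sub hA).sub hB
  have heq : pb (H 1) c - (pb (H 1) c - pb (H 0) c) - (pb (H 0) c - c) = c := by abel
  rwa [heq] at hfin

end

end Pool.Agent.Helper965_Rud.AS.Homot
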