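import Pool.Agent.Helper965_Rud.ASDefs

set_option autoImplicit false

namespace Pool.Agent.Helper965_Rud.AS.MVc

open Set


section aux1030

theorem aux1030_pr {Ω Ω' : Type*} (V : Set Ω') (f g : Ω → Ω') : ∀ (l : List Ω) (F : List Ω' → ZMod 2),
    (∀ l' : List Ω', l'.length = l.length + 1 → (∀ x ∈ l', x ∈ V) → F l' = 0) →
    (∀ x ∈ l, f x ∈ V) → (∀ x ∈ l, g x ∈ V) → pr f g F l = 0
  | [], F, _, _, _ => rfl
  | x :: l, F, hF, hf, hg => by
    rw [pr_cons]
    have h1 : F (f x :: g x :: l.map g) = 0 := by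
      apply hF
      · simp
      · intro y hy
        rcases List.mem_cons.1 hy with rfl | hy
        · exact hf x (by simp)
        rcases List.mem_cons.1 hy with rfl | hy
        · exact hg x (by simp)
        · obtain ⟨z, hz, rfl⟩ := List.mem_map.1 hy
          exact hg z (List.mem_cons_of_mem _ hz)
    have h2 : pr f g (fun l' => F (f x :: l')) l = 0 := by
      apply aux1030_pr V f g l
      · intro l' hl' hV
        apply hF
        · simp [hl']
        · intro y hy
          rcases List.mem_cons.1 hy with rfl | hy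
          · exact hf x (by simp)
          · exact hV y hy
      · exact fun y hy => hf y (List.mem_cons_of_mem _ hy)
      · exact fun y hy => hg y (List.mem_cons_of_mem _ hy)
    rw [h1, h2, sub_zero]

theorem aux1030_sep {Ω : Type*} [MetricSpace Ω] (A B : Set Ω) (hA : IsCompact A)
    (hB : IsClosed B) (η : ℝ) (hη : 0 < η) :
    ∃ δ, 0 < δ ∧ δ ≤ η ∧ ∀ x ∈ A, ∀ y ∈ B, dist x y < δ → ∃ z ∈ A ∩ B, dist x z < η := by
  let K : Set Ω := A ∩ {x | ∀ z ∈ A ∩ B, η ≤ dist x z}
  have hK : IsCompact K := by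
    apply hA.inter_right
    have : {x : Ω | ∀ z ∈ A ∩ B, η ≤ dist x z} = ⋂ z ∈ A ∩ B, {x | η ≤ dist x z} := by
      ext x; simp
    rw [this]
    refine isClosed_biInter fun z _ => ?_
    exact isClosed_le continuous_const (continuous_id.dist continuous_const)
  have hdis : Disjoint K B := by
    rw [Set.disjoint_left]
    rintro x ⟨hxA, hx⟩ hxB
    have := hx x ⟨hxA, hxB⟩
    rw [dist_self] at this
    linarith
  obtain ⟨r, hr, h⟩ := Metric.exists_pos_forall_lt_edist hK hB hdis
  refine ⟨min r η, lt_min (by exact_mod_cast hr) hη, min_le_right _ _, ?_⟩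
  intro x hx y hy hxy
  by_contra hc
  push Not at hc
  have h1 := h x ⟨hx, hc⟩ y hy
  rw [edist_dist, ← ENNReal.ofReal_coe_nnreal, ENNReal.ofReal_lt_ofReal_iff_of_nonneg (by positivity)] at h1
  have := min_le_left (r : ℝ) η
  linarith

end aux1030

section
variable {Ω : Type*} [MetricSpace Ω]

/-- L3b: gluing, the surjectivity part of Mayer-Vietoris: the connecting homomorphism. -/
theorem mv_connect (A B : Set Ω) (hA : IsCompact A) (hB : IsClosed B) (q : ℕ)
    (c : List Ω → ZMod 2) (hc : Coc (A ∩ B) q c) :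
    ∃ u a b : List Ω → ZMod 2, Coc (A ∪ B) (q + 1) u ∧ Nl A (q + 1) (u - d a) ∧
      Nl B (q + 1) (u - d b) ∧ Nl (A ∩ B) q (a - b - c) := by
  classical
  obtain ⟨ε, hε, hc⟩ := hc
  obtain ⟨δ, hδ, hδη, hsep⟩ := aux1030_sep A B hA hB (ε / 8) (by positivity)
  let φ : Ω → Ω := fun x => if h : ∃ z ∈ A ∩ B, dist x z < 2 * (ε / 8) then h.choose else x
  have hφ : ∀ x, (φ x ∈ A ∩ B ∧ dist x (φ x) < 2 * (ε / 8)) ∨
      (φ x = x ∧ ¬ ∃ z ∈ A ∩ B, dist x z < 2 * (ε / 8)) := by
    intro x
    by_cases h : ∃ z ∈ A ∩ B, dist x z < 2 * (ε / 8)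
    · left
      have e : φ x = h.choose := by simp only [φ, dif_pos h]
      rw [e]
      exact h.choose_spec
    · right
      have e : φ x = x := by simp only [φ, dif_neg h]
      exact ⟨e, h⟩
  have hφd : ∀ x, dist x (φ x) < 2 * (ε / 8) := by
    intro x
    rcases hφ x with h | h
    · exact h.2
    · rw [h.1, dist_self]; positivity
  have hφA : ∀ x ∈ A, φ x ∈ A := by
    intro x hx
    rcases hφ x with h | h
    · exact h.1.1
    · rw [h.1]; exact hx
  have hφB : ∀ x ∈ B, φ x ∈ B := by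
    intro x hx
    rcases hφ x with h | h
    · exact h.1.2
    · rw [h.1]; exact hx
  have hφ4 : ∀ l : List Ω, Sm (A ∪ B) δ l → (∀ x ∈ l.map φ, x ∈ A) ∨ (∀ x ∈ l.map φ, x ∈ B) := by
    intro l hl
    by_cases h1 : ∀ x ∈ l, x ∈ A
    · left
      intro x hx
      obtain ⟨y, hy, rfl⟩ := List.mem_map.1 hx
      exact hφA y (h1 y hy)
    by_cases h2 : ∀ x ∈ l, x ∈ B
    · right
      intro x hx
      obtain ⟨y, hy, rfl⟩ := List.mem_map.1 hx
      exact hφB y (h2 y hy)
    push Not at h1 h2
    obtain ⟨y, hy, hyA⟩ := h1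
    obtain ⟨x, hx, hxB⟩ := h2
    have hyB : y ∈ B := (hl.1 y hy).resolve_left hyA
    have hxA : x ∈ A := (hl.1 x hx).resolve_right hxB
    obtain ⟨z, hz, hxz⟩ := hsep x hxA y hyB (hl.2 x hx y hy)
    left
    intro w hw
    obtain ⟨v, hv, rfl⟩ := List.mem_map.1 hw
    rcases hφ v with h | h
    · exact h.1.1
    · exfalso
      apply h.2
      refine ⟨z, hz, ?_⟩
      have h3 := hl.2 v hv x hx
      have h4 := dist_triangle v x z
      linarith
  have hφ5 : ∀ l : List Ω, (∀ x ∈ l, ∀ y ∈ l, dist x y < δ) →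
      ∀ x ∈ l.map φ, ∀ y ∈ l.map φ, dist x y < ε := by
    intro l hl x hx y hy
    obtain ⟨x', hx', rfl⟩ := List.mem_map.1 hx
    obtain ⟨y', hy', rfl⟩ := List.mem_map.1 hy
    have h1 := hl x' hx' y' hy'
    have h2 := hφd x'
    have h3 := hφd y'
    have h4 := dist_triangle4 (φ x') x' y' (φ y')
    rw [dist_comm (φ x') x'] at h4
    linarith
  let w : List Ω → ZMod 2 := fun l => if ∀ x ∈ l, x ∈ A ∩ B then c l else 0
  let U : List Ω → ZMod 2 := fun l => if ∀ x ∈ l, x ∈ A then d w l else 0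
  have hw : ∀ l : List Ω, (∀ x ∈ l, x ∈ A ∩ B) → w l = c l := fun l h => if_pos h
  have hU : ∀ l : List Ω, (∀ x ∈ l, x ∈ A) → U l = d w l := fun l h => if_pos h
  have hU0 : ∀ l : List Ω, (¬ ∀ x ∈ l, x ∈ A) → U l = 0 := fun l h => if_neg h
  have hdw : ∀ l : List Ω, (∀ x ∈ l, x ∈ A ∩ B) → d w l = d c l := by
    intro l hl
    exact d_congr l fun l' _ hs => hw l' fun x hx => hl x (hs hx)
  -- U vanishes on small lists of length q+1 in B
  have hUB : ∀ l : List Ω, l.length = q + 1 → (∀ x ∈ l, x ∈ B) → (∀ x ∈ l, ∀ y ∈ l, dist x y < ε) →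
      U l = 0 := by
    intro l hl hB' hs
    by_cases h : ∀ x ∈ l, x ∈ A
    · have h2 : ∀ x ∈ l, x ∈ A ∩ B := fun x hx => ⟨h x hx, hB' x hx⟩
      rw [hU l h, hdw l h2]
      exact hc l hl ⟨h2, hs⟩
    · exact hU0 l h
  refine ⟨pb φ U, pb φ w - d (pr id φ c), 0, ?_, ?_, ?_, ?_⟩
  · refine ⟨δ, hδ, fun l hl hs => ?_⟩
    rw [d_pb]
    show d U (l.map φ) = 0
    have hs' := hφ5 l hs.2
    rcases hφ4 l hs with h | h
    · have e : d U (l.map φ) = d (d w) (l.map φ) :=
        d_congr _ fun l' _ hsub => hU l' fun x hx => h x (hsub hx)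
      rw [e, d_d]; rfl
    · apply d_eq_zero
      intro l' hl' hsub
      apply hUB l'
      · rw [List.length_map] at hl'
        omega
      · exact fun x hx => h x (hsub hx)
      · exact fun x hx y hy => hs' x (hsub hx) y (hsub hy)
  · refine ⟨1, one_pos, fun l hl hs => ?_⟩
    rw [d_sub, d_d, sub_zero, d_pb]
    show U (l.map φ) - d w (l.map φ) = 0
    rw [hU, sub_self]
    intro x hx
    obtain ⟨y, hy, rfl⟩ := List.mem_map.1 hx
    exact hφA y (hs.1 y hy)
  · refine ⟨δ, hδ, fun l hl hs => ?_⟩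
    rw [d_zero, sub_zero]
    show U (l.map φ) = 0
    apply hUB
    · rw [List.length_map]; exact hl
    · intro x hx
      obtain ⟨y, hy, rfl⟩ := List.mem_map.1 hx
      exact hφB y (hs.1 y hy)
    · exact hφ5 l hs.2
  · refine ⟨δ, hδ, fun l hl hs => ?_⟩
    have hp := congrFun (prism (id : Ω → Ω) φ c) l
    simp only [Pi.add_apply, Pi.sub_apply] at hp ⊢
    have e1 : pb φ w l = pb φ c l := by
      show w (l.map φ) = c (l.map φ)
      apply hw
      intro x hx
      obtain ⟨y, hy, rfl⟩ := List.mem_map.1 hx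
      exact ⟨hφA y (hs.1 y hy).1, hφB y (hs.1 y hy).2⟩
    have e2 : pb (id : Ω → Ω) c l = c l := by
      show c (l.map id) = c l
      rw [List.map_id]
    have e3 : pr (id : Ω → Ω) φ (d c) l = 0 := by
      apply aux1030_pr ({x | x ∈ l} ∪ {x | x ∈ l.map φ})
      · intro l' hl' hV
        apply hc l' (by omega)
        have hdd : ∀ x ∈ l, ∀ y ∈ l, dist x y < ε := fun x hx y hy => by
          have := hs.2 x hx y hy
          linarith
        refine ⟨?_, ?_⟩
        · intro x hx
          rcases hV x hx with h | h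
          · exact hs.1 x h
          · obtain ⟨y, hy, rfl⟩ := List.mem_map.1 h
            exact ⟨hφA y (hs.1 y hy).1, hφB y (hs.1 y hy).2⟩
        · intro x hx y hy
          rcases hV x hx with h | h <;> rcases hV y hy with h' | h'
          · exact hdd x h y h'
          · obtain ⟨y', hy', rfl⟩ := List.mem_map.1 h'
            have h1 := hs.2 x h y' hy'
            have h2 := hφd y'
            have h3 := dist_triangle x y' (φ y')
            linarith
          · obtain ⟨x', hx', rfl⟩ := List.mem_map.1 h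
            have h1 := hs.2 x' hx' y h'
            have h2 := hφd x'
            have h3 := dist_triangle (φ x') x' y
            rw [dist_comm (φ x') x'] at h3
            linarith
          · exact hφ5 l hs.2 x h y h'
      · intro x hx
        exact Or.inl hx
      · intro x hx
        exact Or.inr (List.mem_map_of_mem hx)
    rw [e1, Pi.zero_apply]
    rw [e2, e3] at hp
    linear_combination -hp

end

end Pool.Agent.Helper965_Rud.AS.MVc

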