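import Pool.Agent.Helper965_Rud.ASHomot

/-! # Pullbacks of Alexander-Spanier cochains and homotopy invariance -/

set_option autoImplicit false

namespace Pool.Agent.Helper965_Rud.AS

open Set

section

variable {Ω Ω' : Type*} [MetricSpace Ω] [MetricSpace Ω'] {X : Set Ω} {Y : Set Ω'} {q : ℕ}
  {c : List Ω → ZMod 2}

/-- pullback of a null cochain along a continuous map of a compact set -/
theorem nl_pb (hY : IsCompact Y) (f : Ω' → Ω) (hf : ContinuousOn f Y) (hm : ∀ y ∈ Y, f y ∈ X)
    (hc : Nl X q c) : Nl Y q (pb f c) := by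
  obtain ⟨ε, hε, hc⟩ := hc
  have huc := hY.uniformContinuousOn_of_continuous hf
  rw [Metric.uniformContinuousOn_iff] at huc
  obtain ⟨δ, hδ, hd⟩ := huc ε hε
  refine ⟨δ, hδ, fun l hl hs => hc (l.map f) (by simpa using hl) ⟨?_, ?_⟩⟩
  · intro x hx
    obtain ⟨y, hy, rfl⟩ := List.mem_map.1 hx
    exact hm y (hs.1 y hy)
  · intro x hx x' hx'
    obtain ⟨y, hy, rfl⟩ := List.mem_map.1 hx
    obtain ⟨y', hy', rfl⟩ := List.mem_map.1 hx'
    exact hd y (hs.1 y hy) y' (hs.1 y' hy') (hs.2 y hy y' hy')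

theorem pb_sub (f : Ω' → Ω) (b c : List Ω → ZMod 2) : pb f (b - c) = pb f b - pb f c := rfl

theorem pb_add (f : Ω' → Ω) (b c : List Ω → ZMod 2) : pb f (b + c) = pb f b + pb f c := rfl

theorem pb_smul (f : Ω' → Ω) (a : ZMod 2) (c : List Ω → ZMod 2) : pb f (a • c) = a • pb f c := rfl

theorem pb_pb {Ω'' : Type*} (f : Ω' → Ω) (g : Ω'' → Ω') (c : List Ω → ZMod 2) :
    pb g (pb f c) = pb (fun x => f (g x)) c := by
  funext l
  show c ((l.map g).map f) = c (l.map fun x => f (g x))
  rw [List.map_map]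
  rfl

theorem coc_pb (hY : IsCompact Y) (f : Ω' → Ω) (hf : ContinuousOn f Y) (hm : ∀ y ∈ Y, f y ∈ X)
    (hc : Coc X q c) : Coc Y q (pb f c) := by
  unfold Coc
  rw [d_pb]
  exact nl_pb hY f hf hm hc

theorem cob_pb (hY : IsCompact Y) (f : Ω' → Ω) (hf : ContinuousOn f Y) (hm : ∀ y ∈ Y, f y ∈ X)
    (hc : Cob X q c) : Cob Y q (pb f c) := by
  obtain ⟨b, hb⟩ := hc
  refine ⟨pb f b, ?_⟩
  rw [d_pb, ← pb_sub]
  exact nl_pb hY f hf hm hb

/-- homotopy invariance -/
theorem homot (hY : IsCompact Y) (H : ℝ → Ω' → Ω)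
    (hH : ContinuousOn (fun z : ℝ × Ω' => H z.1 z.2) (Icc 0 1 ×ˢ Y))
    (hmap : ∀ t ∈ Icc (0 : ℝ) 1, ∀ x ∈ Y, H t x ∈ X) (hc : Coc X q c) :
    Cob Y q (pb (H 1) c - pb (H 0) c) := by
  obtain ⟨ε, hε, hcε⟩ := hc
  have hK : IsCompact (Icc (0 : ℝ) 1 ×ˢ Y) := isCompact_Icc.prod hY
  have huc := hK.uniformContinuousOn_of_continuous hH
  rw [Metric.uniformContinuousOn_iff] at huc
  obtain ⟨δ, hδ, hd⟩ := huc ε hε
  have hd' : ∀ t ∈ Icc (0 : ℝ) 1, ∀ s ∈ Icc (0 : ℝ) 1, |t - s| < δ → ∀ x ∈ Y, ∀ y ∈ Y,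
      dist x y < δ → dist (H t x) (H s y) < ε := by
    intro t ht s hs hts x hx y hy hxy
    have := hd (t, x) ⟨ht, hx⟩ (s, y) ⟨hs, hy⟩ (by
      rw [Prod.dist_eq]
      exact max_lt (by rw [Real.dist_eq]; exact hts) hxy)
    exact this
  have hstep : ∀ t ∈ Icc (0 : ℝ) 1, ∀ s ∈ Icc (0 : ℝ) 1, |t - s| < δ →
      Cob Y q (pb (H s) c - pb (H t) c) := by
    intro t ht s hs hts
    refine ⟨pr (H t) (H s) c, δ, hδ, fun l hl hSm => ?_⟩
    rw [← prism, add_sub_cancel_left]
    suffices h : ∀ (l : List Ω') (F : List Ω → ZMod 2), (∀ l' : List Ω, l'.length = l.length + 1 →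
        (∀ p ∈ l', p ∈ {y | ∃ x ∈ l, y = H t x ∨ y = H s x}) → F l' = 0) →
        pr (H t) (H s) F l = 0 by
      apply h
      intro l' hl' hV
      apply hcε l' (by rw [hl', hl])
      refine ⟨fun y hy => ?_, fun y hy z hz => ?_⟩
      · obtain ⟨x, hx, h | h⟩ := hV y hy
        · rw [h]; exact hmap t ht x (hSm.1 x hx)
        · rw [h]; exact hmap s hs x (hSm.1 x hx)
      · obtain ⟨x, hx, h⟩ := hV y hy
        obtain ⟨x', hx', h'⟩ := hV z hz
        have hxx := hSm.2 x hx x' hx'
        have hxX := hSm.1 x hx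
        have hxX' := hSm.1 x' hx'
        rcases h with h | h <;> rcases h' with h' | h' <;> rw [h, h']
        · exact hd' t ht t ht (by simpa using hδ) x hxX x' hxX' hxx
        · exact hd' t ht s hs hts x hxX x' hxX' hxx
        · exact hd' s hs t ht (by rw [abs_sub_comm]; exact hts) x hxX x' hxX' hxx
        · exact hd' s hs s hs (by simpa using hδ) x hxX x' hxX' hxx
    intro l
    induction l with
    | nil => intro F _; rfl
    | cons x l ih =>
      intro F hF
      rw [pr_cons, ih (fun l' => F (H t x :: l')), sub_zero]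
      · apply hF
        · simp
        · intro p hp
          rcases List.mem_cons.1 hp with rfl | hp
          · exact ⟨x, by simp, Or.inl rfl⟩
          rcases List.mem_cons.1 hp with rfl | hp
          · exact ⟨x, by simp, Or.inr rfl⟩
          obtain ⟨y, hy, rfl⟩ := List.mem_map.1 hp
          exact ⟨y, List.mem_cons_of_mem _ hy, Or.inr rfl⟩
      · intro l' hl' hV'
        apply hF
        · simp [hl']
        · intro p hp
          rcases List.mem_cons.1 hp with rfl | hp
          · exact ⟨x, by simp, Or.inl rfl⟩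
          · obtain ⟨y, hy, h⟩ := hV' p hp
            exact ⟨y, List.mem_cons_of_mem _ hy, h⟩
  obtain ⟨k, hk⟩ := exists_nat_gt (1 / δ)
  have hk0 : (0 : ℝ) < k := lt_trans (by positivity) hk
  have hkδ : 1 / (k : ℝ) < δ := by
    rw [div_lt_iff₀ hδ] at hk
    rw [div_lt_iff₀ hk0]
    linarith
  have hchain : ∀ i : ℕ, i ≤ k → Cob Y q (pb (H ((i : ℝ) / k)) c - pb (H 0) c) := by
    intro i
    induction i with
    | zero =>
      intro _
      simp only [Nat.cast_zero, zero_div, sub_self]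
      exact Nl.zero.cob
    | succ i ih =>
      intro hi
      have h2 := ih (by omega)
      have hik : ((i : ℝ) + 1) / k ≤ 1 := by
        rw [div_le_one hk0]
        exact_mod_cast hi
      have hik' : (i : ℝ) / k ≤ 1 := by
        rw [div_le_one hk0]
        exact_mod_cast (by omega : i ≤ k)
      have h3 := hstep ((i : ℝ) / k) ⟨by positivity, hik'⟩ (((i : ℝ) + 1) / k)
        ⟨by positivity, hik⟩ (by
          rw [← sub_div, abs_div, abs_of_pos hk0, show (i : ℝ) - (i + 1) = -1 by ring]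
          simpa using hkδ)
      have h4 := h3.add h2
      rw [sub_add_sub_cancel] at h4
      push_cast
      exact h4
  have := hchain k le_rfl
  rwa [div_self hk0.ne'] at this

/-- a retract of a set with vanishing cohomology -/
theorem HV.of_retract {q : ℕ} (hX : IsCompact X) (hY : IsCompact Y) (f : Ω' → Ω) (g : Ω → Ω')
    (hf : ContinuousOn f Y) (hfm : ∀ y ∈ Y, f y ∈ X) (hg : ContinuousOn g X)
    (hgm : ∀ x ∈ X, g x ∈ Y) (hgf : ∀ y ∈ Y, g (f y) = y) (h : HV X q) : HV Y q := by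
  intro c hc
  have h1 := cob_pb hY f hf hfm (h _ (coc_pb hX g hg hgm hc))
  rw [pb_pb] at h1
  have h2 : Cob Y q (c - pb (fun x => g (f x)) c) := by
    apply Nl.cob
    refine ⟨1, one_pos, fun l _ hs => ?_⟩
    have : l.map (fun x => g (f x)) = l := by
      have e : l.map (fun x => g (f x)) = l.map id :=
        List.map_congr_left fun x hx => hgf x (hs.1 x hx)
      rw [e, List.map_id]
    show c l - c (l.map fun x => g (f x)) = 0
    rw [this, sub_self]
  have := h1.add h2
  rwa [add_sub_cancel] at this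

/-- pullback along a map with a left inverse is injective on cohomology -/
theorem cob_of_pb {q : ℕ} {c : List Ω' → ZMod 2} (hY : IsCompact Y) (f : Ω' → Ω) (g : Ω → Ω')
    (hf : ContinuousOn f Y) (hfm : ∀ y ∈ Y, f y ∈ X) (hgf : ∀ y ∈ Y, g (f y) = y)
    (h : Cob X q (pb g c)) : Cob Y q c := by
  have h1 := cob_pb hY f hf hfm h
  rw [pb_pb] at h1
  have h2 : Cob Y q (c - pb (fun x => g (f x)) c) := by
    apply Nl.cob
    refine ⟨1, one_pos, fun l _ hs => ?_⟩
    have : l.map (fun x => g (f x)) = l := by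
      have e : l.map (fun x => g (f x)) = l.map id :=
        List.map_congr_left fun x hx => hgf x (hs.1 x hx)
      rw [e, List.map_id]
    show c l - c (l.map fun x => g (f x)) = 0
    rw [this, sub_self]
  have := h1.add h2
  rwa [add_sub_cancel] at this

/-- a nonempty set has no reduced cohomology in length zero -/
theorem hv_zero {X : Set Ω} (h : X.Nonempty) : HV X 0 := by
  intro c hc
  obtain ⟨x, hx⟩ := h
  obtain ⟨ε, hε, hc⟩ := hc
  have := hc [x] rfl ⟨by simpa using hx, by simpa using hε⟩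
  rw [d_cons, d_nil, sub_zero] at this
  apply Nl.cob
  rw [nl_zero_iff]
  exact this

theorem empty_h1 : H1 (∅ : Set Ω) 0 := by
  refine ⟨fun _ => 1, ?_, ?_, ?_⟩
  · refine ⟨1, one_pos, fun l hl hs => ?_⟩
    cases l with
    | nil => simp at hl
    | cons x l => exact absurd (hs.1 x (by simp)) (by simp)
  · rintro ⟨b, hb⟩
    rw [nl_zero_iff] at hb
    simp at hb
  · intro c _
    refine ⟨c [], ?_⟩
    apply Nl.cob
    rw [nl_zero_iff]
    simp

theorem empty_hv {q : ℕ} (hq : q ≠ 0) : HV (∅ : Set Ω) q := by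
  intro c _
  apply Nl.cob
  refine ⟨1, one_pos, fun l hl hs => ?_⟩
  cases l with
  | nil => simp at hl; omega
  | cons x l => exact absurd (hs.1 x (by simp)) (by simp)

end

end Pool.Agent.Helper965_Rud.AS
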