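import Pool.Agent.Helper965_Rud.ASDefs
import Pool.Agent.Helper965_Rud.ASMV
import Pool.Agent.Helper965_Rud.ASMVc

set_option autoImplicit false

namespace Pool.Agent.Helper965_Rud.AS

open Set


section
variable {Ω : Type*} [MetricSpace Ω]

/-- two primitives of (nearly) the same cochain differ by a cocycle. -/
theorem coc_of_two {Ω : Type*} [MetricSpace Ω] {X : Set Ω} {q : ℕ} {c a b : List Ω → ZMod 2}
    (ha : Nl X (q + 1) (c - d a)) (hb : Nl X (q + 1) (c - d b)) : Coc X q (a - b) := by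
  unfold Coc
  rw [d_sub]
  have : d a - d b = (c - d b) - (c - d a) := by abel
  rw [this]
  exact hb.sub ha

/-- TARGET 1: Mayer-Vietoris vanishing. -/
theorem mv (A B : Set Ω) (hA : IsCompact A) (hB : IsClosed B) (q : ℕ) (hAB : HV (A ∩ B) q)
    (c : List Ω → ZMod 2) (hc : Coc (A ∪ B) (q + 1) c) (hcA : Cob A (q + 1) c)
    (hcB : Cob B (q + 1) c) : Cob (A ∪ B) (q + 1) c := by
  obtain ⟨a, ha⟩ := hcA
  obtain ⟨b, hb⟩ := hcB
  exact MV.mv_glue A B hA hB q c a b hc ha hb
    (hAB _ (coc_of_two (ha.mono inter_subset_left) (hb.mono inter_subset_right)))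

/-- TARGET 2: suspension. -/
theorem susp (A B : Set Ω) (hA : IsCompact A) (hB : IsClosed B) (hAa : ∀ q, HV A q)
    (hBa : ∀ q, HV B q) (q : ℕ) (h : H1 (A ∩ B) q) : H1 (A ∪ B) (q + 1) := by
  obtain ⟨c0, hc0, hnc0, hgen⟩ := h
  obtain ⟨u, a, b, hu, hua, hub, huab⟩ := MVc.mv_connect A B hA hB q c0 hc0
  refine ⟨u, hu, ?_, ?_⟩
  · rintro ⟨w, hw⟩
    have h1 : Coc A q (a - w) := coc_of_two hua (hw.mono subset_union_left)
    have h2 : Coc B q (b - w) := coc_of_two hub (hw.mono subset_union_right)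
    obtain ⟨a', ha'⟩ := hAa q _ h1
    obtain ⟨b', hb'⟩ := hBa q _ h2
    apply hnc0
    refine ⟨a' - b', ?_⟩
    have e : c0 - d (a' - b') = ((a - w - d a') - (b - w - d b')) - (a - b - c0) := by
      rw [d_sub]; abel
    rw [e]
    exact ((ha'.mono inter_subset_left).sub (hb'.mono inter_subset_right)).sub huab
  · intro c hc
    obtain ⟨a1, ha1⟩ := hAa (q + 1) c (hc.mono subset_union_left)
    obtain ⟨b1, hb1⟩ := hBa (q + 1) c (hc.mono subset_union_right)
    obtain ⟨α, hα⟩ := hgen _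
      (coc_of_two (ha1.mono inter_subset_left) (hb1.mono inter_subset_right))
    refine ⟨α, MV.mv_glue A B hA hB q (c - α • u) (a1 - α • a) (b1 - α • b) (hc.sub (hu.smul α))
      ?_ ?_ ?_⟩
    · have e : c - α • u - d (a1 - α • a) = (c - d a1) - α • (u - d a) := by
        rw [d_sub, d_smul, smul_sub]; abel
      rw [e]
      exact ha1.sub (hua.smul α)
    · have e : c - α • u - d (b1 - α • b) = (c - d b1) - α • (u - d b) := by
        rw [d_sub, d_smul, smul_sub]; abel
      rw [e]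
      exact hb1.sub (hub.smul α)
    · have e : a1 - α • a - (b1 - α • b) = (a1 - b1 - α • c0) - α • (a - b - c0) := by
        rw [smul_sub, smul_sub]; abel
      rw [e]
      exact hα.sub (huab.smul α).cob

end

end Pool.Agent.Helper965_Rud.AS
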