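import Pool.Agent.Helper965_Rud.Basic

/-! # Statements of the parts of the lower bound `cat N ≥ 5`, and of the upper bound `cat M ≤ 4`

Each `S_...` is a proposition to be proved in its own file. -/

set_option autoImplicit false

namespace Pool.Agent.Helper965_Rud

open scoped ComplexConjugate unitInterval

noncomputable section

/-- the set `U` is contractible in `X`: the inclusion is null-homotopic -/
def CtrIn {X : Type} [TopologicalSpace X] (U : Set X) : Prop :=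
  (⟨Subtype.val, continuous_subtype_val⟩ : C(U, X)).Nullhomotopic

/-- `cat X ≤ k` (normalised): `X` is covered by `k + 1` open sets contractible in `X` -/
def CatLE (k : ℕ) (X : Type) [TopologicalSpace X] : Prop :=
  ∃ U : Fin (k + 1) → Set X, (∀ i, IsOpen (U i)) ∧ (∀ x, ∃ i, x ∈ U i) ∧ ∀ i, CtrIn (U i)

/-- every point has an open neighbourhood homeomorphic to an open subset of `ℝ^n` -/
def LocEuc (n : ℕ) (X : Type) [TopologicalSpace X] : Prop :=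
  ∀ x : X, ∃ U : Set X, IsOpen U ∧ x ∈ U ∧
    ∃ V : Set (EuclideanSpace ℝ (Fin n)), IsOpen V ∧ Nonempty (U ≃ₜ V)

/-! ## Upper bound -/

/-- `cat M ≤ 4` -/
def S_catM : Prop := CatLE 4 MM

/-! ## Lower bound, part 1: from a cover to an equivariant map -/

/-- Parallel transport: over a closed set contractible in the orbit space there is an equivariant
map to the nonzero quaternions. -/
def S_par : Prop := ∀ (X : Type) [TopologicalSpace X] [CompactSpace X] [T2Space X] [GSp X] (m : ℕ)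
  (E : X → Fin m → Hq), Continuous E → Eqv E → (∀ x, E x ≠ 0) →
  ∀ K : Set (Orb X), IsClosed K → CtrIn K →
  ∃ φ : ↥((mk : X → Orb X) ⁻¹' K) → Hq, Continuous φ ∧ (∀ x, φ x ≠ 0) ∧
    ∀ (x y : ↥((mk : X → Orb X) ⁻¹' K)) (g : Sp1), y.1 = act x.1 g → φ y = φ x * (g : Hq)

/-- Equivariant Tietze extension. -/
def S_tietze : Prop := ∀ (X : Type) [TopologicalSpace X] [CompactSpace X] [T2Space X] [GSp X]
  (m : ℕ) (E : X → Fin m → Hq), Continuous E → Eqv E → (∀ x, E x ≠ 0) →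
  ∀ K : Set (Orb X), IsClosed K → ∀ φ : ↥((mk : X → Orb X) ⁻¹' K) → Hq, Continuous φ →
    (∀ (x y : ↥((mk : X → Orb X) ⁻¹' K)) (g : Sp1), y.1 = act x.1 g → φ y = φ x * (g : Hq)) →
  ∃ Φ : X → Hq, Continuous Φ ∧ (∀ x g, Φ (act x g) = Φ x * (g : Hq)) ∧
    ∀ x : ↥((mk : X → Orb X) ⁻¹' K), Φ x.1 = φ x

/-- If `cat (X / G) ≤ k` then there is an equivariant map `X → ℍ^{k+1} ∖ 0`. -/
def S_F1 : Prop := ∀ (X : Type) [TopologicalSpace X] [CompactSpace X] [T2Space X] [GSp X] (m : ℕ)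
  (E : X → Fin m → Hq), Continuous E → Eqv E → (∀ x, E x ≠ 0) → ∀ k : ℕ, CatLE k (Orb X) →
  ∃ Φ : X → Fin (k + 1) → Hq, Continuous Φ ∧ Eqv Φ ∧ ∀ x, Φ x ≠ 0

/-! ## Lower bound, part 2: general position -/

/-- Any equivariant map `XN → ℍ⁵ ∖ 0` is homotopic to `E5` over `ZZ`. -/
def S_GP : Prop := ∀ Φ : XN → Fin 5 → Hq, Continuous Φ → Eqv Φ → (∀ x, Φ x ≠ 0) →
  ∃ h : ↥ZZ × I → Fin 5 → Hq, Continuous h ∧ (∀ x, h (x, 0) = Φ x.1) ∧ (∀ x, h (x, 1) = E5 x.1) ∧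
    ∀ p, h p ≠ 0

/-! ## Lower bound, part 3: reduction to a family of self maps of a sphere -/

/-- the unit sphere of `ℂ ⊕ (ℂ ⊕ ℍ²)`; coordinates `(β, ζ, q₂, q₃)` -/
def S11 : Type := {x : ℂ × ℂ × Hq × Hq // ‖x.1‖ ^ 2 + ‖x.2.1‖ ^ 2 + ‖x.2.2.1‖ ^ 2 +
  ‖x.2.2.2‖ ^ 2 = 1}

instance : TopologicalSpace S11 := instTopologicalSpaceSubtype

/-- the unit ball of `ℂ ⊕ ℍ²`; coordinates `(z, c₂, c₃)` -/
def D10 : Type := {x : ℂ × Hq × Hq // ‖x.1‖ ^ 2 + ‖x.2.1‖ ^ 2 + ‖x.2.2‖ ^ 2 ≤ 1}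

instance : TopologicalSpace D10 := instTopologicalSpaceSubtype

/-- The map `(β, ζ, q₂, q₃), (z, c₂, c₃) ↦ (z β, ζ, q₂, q₃, c₂, c₃)` from `S¹¹ × S⁹` to
`ℝ²⁰ ∖ 0` extends to `S¹¹ × D¹⁰`. -/
def HasH : Prop := ∃ H : S11 × D10 → ℂ × ℂ × Hq × Hq × Hq × Hq, Continuous H ∧ (∀ p, H p ≠ 0) ∧
  ∀ p : S11 × D10, ‖p.2.1.1‖ ^ 2 + ‖p.2.1.2.1‖ ^ 2 + ‖p.2.1.2.2‖ ^ 2 = 1 →
    H p = (p.2.1.1 * p.1.1.1, p.1.1.2.1, p.1.1.2.2.1, p.1.1.2.2.2, p.2.1.2.1, p.2.1.2.2)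

/-- from an equivariant map to `H` -/
def S_toH : Prop := S_GP → (∃ Φ : XN → Fin 5 → Hq, Continuous Φ ∧ Eqv Φ ∧ ∀ x, Φ x ≠ 0) → HasH

/-- the unit sphere of `ℂ ⊕ ℝ^k ⊕ ℝ` -/
def Sph (k : ℕ) : Type := {x : ℂ × (Fin k → ℝ) × ℝ // ‖x.1‖ ^ 2 + ∑ i, x.2.1 i ^ 2 + x.2.2 ^ 2 = 1}

instance (k : ℕ) : TopologicalSpace (Sph k) := instTopologicalSpaceSubtype

/-- the pole of the sphere -/
def pole (k : ℕ) : Sph k := ⟨(0, 0, 1), by simp⟩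

/-- The loop of the rotations `(β, y, t) ↦ (z β, y, t)` of the sphere is null-homotopic in the
space of self maps fixing the pole. -/
def HasNull (k : ℕ) : Prop := ∃ h : Metric.closedBall (0 : ℂ) 1 × Sph k → Sph k, Continuous h ∧
  (∀ (z : Metric.closedBall (0 : ℂ) 1) (x : Sph k), ‖(z : ℂ)‖ = 1 →
    (h (z, x)).1 = ((z : ℂ) * x.1.1, x.1.2)) ∧
  ∀ z, h (z, pole k) = pole k

/-- from `H` to a null-homotopy -/
def S_toNull : Prop := HasH → HasNull 17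

/-- the unit sphere of `ℝ³ ⊕ ℂ ⊕ ℝ^k` -/
def Sig (k : ℕ) : Type :=
  {x : (Fin 3 → ℝ) × ℂ × (Fin k → ℝ) // ∑ i, x.1 i ^ 2 + ‖x.2.1‖ ^ 2 + ∑ i, x.2.2 i ^ 2 = 1}

instance (k : ℕ) : TopologicalSpace (Sig k) := instTopologicalSpaceSubtype

/-- There is a map `F` with `F (- v, - b, y) = F (v, b, y)` which is
`(s, b, y) ↦ (2 s b, 2 |s| y, |b|² + |y|² - s²)` for `v = (s, 0, 0)`. -/
def HasF (k : ℕ) : Prop := ∃ F : Sig k → Sph k, Continuous F ∧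
  (∀ x y : Sig k, y.1 = (-x.1.1, -x.1.2.1, x.1.2.2) → F y = F x) ∧
  ∀ x : Sig k, x.1.1 1 = 0 → x.1.1 2 = 0 →
    (F x).1 = (2 * (x.1.1 0 : ℂ) * x.1.2.1, fun i => 2 * |x.1.1 0| * x.1.2.2 i,
      ‖x.1.2.1‖ ^ 2 + ∑ i, x.1.2.2 i ^ 2 - x.1.1 0 ^ 2)

/-- from a null-homotopy to `F` -/
def S_toF : Prop := ∀ k, HasNull k → HasF k

/-- there is no such `F` (Alexander-Spanier cohomology and cup-`i` products) -/
def S_noF : Prop := ∀ k, ¬ HasF k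

/-- `cat N ≥ 5` -/
theorem not_catLE_N (h1 : S_F1) (h2 : S_GP) (h3 : S_toH) (h4 : S_toNull) (h5 : S_toF)
    (h6 : S_noF) : ¬ CatLE 4 NN := by
  intro h
  obtain ⟨Φ, hc, he, hn⟩ := h1 XN 6 E6 continuous_E6 E6_eqv E6_ne_zero 4 h
  exact h6 17 (h5 17 (h4 (h3 h2 ⟨Φ, hc, he, hn⟩)))

end

end Pool.Agent.Helper965_Rud
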