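import Pool.Agent.Helper965_Rud.ASPull
import Pool.Agent.Helper965_Rud.ASSusp
import Pool.Agent.Helper965_Rud.ASCup
import Pool.Agent.Helper965_Rud.Stmts

/-! # Statements of the Alexander-Spanier part: there is no `F` as in `HasF`

Each `S_...` is a proposition to be proved in its own file. -/

set_option autoImplicit false

namespace Pool.Agent.Helper965_Rud.AS

open scoped ComplexConjugate
open Set

noncomputable section

/-! ## Model spheres -/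

/-- the unit sphere of `ℝ^n` in `ℝ^K` -/
def MS (K n : ℕ) : Set (Fin K → ℝ) := {x | ∑ i, x i ^ 2 = 1 ∧ ∀ i : Fin K, n ≤ (i : ℕ) → x i = 0}

/-- cohomology of spheres -/
def S_MS : Prop := ∀ K n : ℕ, n ≤ K → IsCompact (MS K n) ∧ (∀ q, q ≠ n → HV (MS K n) q) ∧
  H1 (MS K n) n

/-! ## The spaces -/

/-- the ambient space of `X_k` -/
abbrev EX (K : ℕ) : Type := (Fin 5 → Fin 5 → ℝ) × (Fin K → ℝ)

/-- the ambient space of the spheres -/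
abbrev ES (K : ℕ) : Type := ℂ × (Fin K → ℝ) × ℝ

/-- `(w, y) ↦ (w wᵀ, y)` -/
def rho {K : ℕ} (w : Fin 5 → ℝ) (y : Fin K → ℝ) : EX K := (fun i j => w i * w j, y)

/-- the quotient of the unit sphere of `ℝ⁵ ⊕ ℝ^k` by `(w, y) ↦ (- w, y)` -/
def XX (K k : ℕ) : Set (EX K) := {x | ∃ (w : Fin 5 → ℝ) (y : Fin K → ℝ), x = rho w y ∧
  ∑ i, w i ^ 2 + ∑ i, y i ^ 2 = 1 ∧ ∀ i : Fin K, k ≤ (i : ℕ) → y i = 0}

/-- the part `w₁ = w₂ = 0` -/
def XP (K k : ℕ) : Set (EX K) := {x | ∃ (w : Fin 5 → ℝ) (y : Fin K → ℝ), x = rho w y ∧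
  ∑ i, w i ^ 2 + ∑ i, y i ^ 2 = 1 ∧ (∀ i : Fin K, k ≤ (i : ℕ) → y i = 0) ∧ w 1 = 0 ∧ w 2 = 0}

/-- the unit sphere of `ℂ ⊕ ℝ^k ⊕ ℝ` -/
def SS (K k : ℕ) : Set (ES K) := {x | ‖x.1‖ ^ 2 + ∑ i, x.2.1 i ^ 2 + x.2.2 ^ 2 = 1 ∧
  ∀ i : Fin K, k ≤ (i : ℕ) → x.2.1 i = 0}

/-- on `X'` this is `(s, b, y) ↦ (2 s b, 2 |s| y, |b|² + |y|² - s²)` -/
def QQ (K : ℕ) (x : EX K) : ES K :=
  (⟨2 * x.1 0 3, 2 * x.1 0 4⟩, fun i => 2 * Real.sqrt (x.1 0 0) * x.2 i,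
    x.1 3 3 + x.1 4 4 + ∑ i, x.2 i ^ 2 - x.1 0 0)

/-- the main inductive statement -/
def PP (K k : ℕ) : Prop := ∃ (u : List (EX K) → ZMod 2) (i : List (ES K) → ZMod 2),
  Coc (XX K k) (k + 3) u ∧ Cob (XX K k) (k + 5) (cup (k + 1) (k + 3) (k + 3) u u) ∧
  Coc (SS K k) (k + 3) i ∧ ¬ Cob (SS K k) (k + 3) i ∧ Cob (XP K k) (k + 3) (u - pb (QQ K) i)

/-- the half of `X_{k+1}` where the last coordinate has sign `ε` -/
def XA (K k : ℕ) (ε : ℝ) : Set (EX K) := {x | x ∈ XX K (k + 1) ∧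
  ∀ i : Fin K, (i : ℕ) = k → 0 ≤ ε * x.2 i}

/-- the half of `X'_{k+1}` -/
def XPA (K k : ℕ) (ε : ℝ) : Set (EX K) := {x | x ∈ XP K (k + 1) ∧
  ∀ i : Fin K, (i : ℕ) = k → 0 ≤ ε * x.2 i}

/-- the half of the sphere -/
def SA (K k : ℕ) (ε : ℝ) : Set (ES K) := {x | x ∈ SS K (k + 1) ∧
  ∀ i : Fin K, (i : ℕ) = k → 0 ≤ ε * x.2.1 i}

/-- cohomology of the sphere `SS K K` of dimension `K + 2` -/
def S_SSK : Prop := ∀ K : ℕ, HV (SS K K) (K + 5) ∧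
  ∃ i, Coc (SS K K) (K + 3) i ∧ ¬ Cob (SS K K) (K + 3) i

/-- compactness -/
def S_comp : Prop := ∀ K k : ℕ, IsCompact (XX K k) ∧ IsCompact (XP K k) ∧ IsCompact (SS K k)

/-- the halves are acyclic -/
def S_half : Prop := ∀ K k : ℕ, k + 1 ≤ K → ∀ ε : ℝ, ε = 1 ∨ ε = -1 → ∀ q,
  HV (XA K k ε) q ∧ HV (XPA K k ε) q ∧ HV (SA K k ε) q

/-- the inductive step -/
def S_desc : Prop := ∀ K k : ℕ, k + 1 ≤ K → PP K (k + 1) → PP K k

/-- the start of the induction -/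
def S_top : Prop := ∀ K : ℕ, HasF K → PP K K

/-! ## The end of the induction -/

/-- an invariant cocycle of the four-sphere with square zero is the coboundary of an invariant
cochain -/
def S_baseA : Prop := ∀ U : List (Fin 5 → ℝ) → ZMod 2, Coc (MS 5 5) 3 U →
  (∀ l, U (l.map fun w => -w) = U l) →
  (∃ e : List (Fin 5 → ℝ) → ZMod 2, (∀ l, e (l.map fun w => -w) = e l) ∧
    Nl (MS 5 5) 5 (cup 1 3 3 U U - d e)) →
  ∃ b : List (Fin 5 → ℝ) → ZMod 2, Nl (MS 5 5) 2 (b - pb (fun w => -w) b) ∧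
    Nl (MS 5 5) 3 (U - d b)

/-- the two-sphere, source -/
def R2 : Set (ℝ × ℂ) := {x | x.1 ^ 2 + ‖x.2‖ ^ 2 = 1}
/-- the two-sphere, target -/
def T2 : Set (ℂ × ℝ) := {x | ‖x.1‖ ^ 2 + x.2 ^ 2 = 1}
/-- the map -/
def q2 (x : ℝ × ℂ) : ℂ × ℝ := (2 * (x.1 : ℂ) * x.2, ‖x.2‖ ^ 2 - x.1 ^ 2)
/-- the unit circle -/
def C1 : Set ℂ := {z | ‖z‖ = 1}
/-- one cap -/
def Cap : Set (ℝ × ℂ) := {x | x ∈ R2 ∧ ‖x.2‖ ≤ x.1}
/-- the other cap -/
def Cap' : Set (ℝ × ℂ) := {x | x ∈ R2 ∧ ‖x.2‖ ≤ -x.1}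
/-- the band -/
def Band : Set (ℝ × ℂ) := {x | x ∈ R2 ∧ |x.1| ≤ ‖x.2‖}
/-- the boundary circle of the cap -/
def Rim : Set (ℝ × ℂ) := {x | x ∈ R2 ∧ x.1 = ‖x.2‖}
/-- the lower hemisphere -/
def T2m : Set (ℂ × ℝ) := {x | x ∈ T2 ∧ x.2 ≤ 0}
/-- the upper hemisphere -/
def T2p : Set (ℂ × ℝ) := {x | x ∈ T2 ∧ 0 ≤ x.2}

/-- an antipodally invariant cocycle on the circle is a coboundary -/
def S_circ : Prop := ∀ γ : List ℂ → ZMod 2, Coc C1 2 γ → Nl C1 2 (γ - pb (fun z => -z) γ) →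
  Cob C1 2 γ

/-- caps are acyclic -/
def S_caps : Prop := ∀ q, HV Cap q ∧ HV Cap' q ∧ HV T2m q ∧ HV T2p q

/-- an invariant cocycle of the band is a coboundary on the rim -/
def S_band : Prop := ∀ γ : List (ℝ × ℂ) → ZMod 2, Coc Band 2 γ →
  Nl Band 2 (γ - pb (fun x => -x) γ) → Cob Rim 2 γ

/-- the final contradiction -/
def S_baseB : Prop := ∀ (i : List (ℂ × ℝ) → ZMod 2) (a : List (ℝ × ℂ) → ZMod 2), Coc T2 3 i →
  Nl R2 2 (a - pb (fun x => -x) a) → Nl R2 3 (pb q2 i - d a) → Cob T2 3 i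

/-- the end of the induction -/
def S_base : Prop := ∀ K : ℕ, ¬ PP K 0

/-- assembly -/
theorem noF (h1 : S_top) (h2 : S_desc) (h3 : S_base) : S_noF := by
  intro K hF
  have h : ∀ j, j ≤ K → PP K (K - j) := by
    intro j
    induction j with
    | zero => intro _; exact h1 K hF
    | succ j ih =>
      intro hj
      apply h2 K (K - (j + 1)) (by omega)
      rw [show K - (j + 1) + 1 = K - j by omega]
      exact ih (by omega)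
  have h0 := h K le_rfl
  rw [Nat.sub_self] at h0
  exact h3 K h0

end

end Pool.Agent.Helper965_Rud.AS
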