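import Pool.Agent.Helper965_Rud.Defs

/-! # Algebra of the hermitian product -/

set_option autoImplicit false

namespace Pool.Agent.Helper965_Rud

open scoped ComplexConjugate

@[simp] theorem cp_re (q : Hq) : (cp q).re = q.re := rfl
@[simp] theorem cp_im (q : Hq) : (cp q).im = q.imI := rfl
@[simp] theorem lc_re (z : ℂ) : (lc z).re = z.re := rfl
@[simp] theorem lc_imI (z : ℂ) : (lc z).imI = z.im := rfl
@[simp] theorem lc_imJ (z : ℂ) : (lc z).imJ = 0 := rfl
@[simp] theorem lc_imK (z : ℂ) : (lc z).imK = 0 := rfl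
@[simp] theorem jj_re : jj.re = 0 := rfl
@[simp] theorem jj_imI : jj.imI = 0 := rfl
@[simp] theorem jj_imJ : jj.imJ = 1 := rfl
@[simp] theorem jj_imK : jj.imK = 0 := rfl

theorem norm_sq_eq (q : Hq) : ‖q‖ ^ 2 = q.re ^ 2 + q.imI ^ 2 + q.imJ ^ 2 + q.imK ^ 2 := by
  rw [pow_two, ← Quaternion.normSq_eq_norm_mul_self, Quaternion.normSq_def']

theorem cp_add (p q : Hq) : cp (p + q) = cp p + cp q := by
  apply Complex.ext <;> simp

@[simp] theorem cp_zero : cp 0 = 0 := by apply Complex.ext <;> rfl
@[simp] theorem cp_one : cp 1 = 1 := by apply Complex.ext <;> rfl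

theorem cp_neg (q : Hq) : cp (-q) = - cp q := by
  apply Complex.ext <;> simp

theorem cp_sub (p q : Hq) : cp (p - q) = cp p - cp q := by
  apply Complex.ext <;> simp

theorem cp_sum {ι : Type} (s : Finset ι) (f : ι → Hq) : cp (∑ i ∈ s, f i) = ∑ i ∈ s, cp (f i) := by
  classical
  induction s using Finset.induction_on with
  | empty => simp
  | insert a s ha ih => rw [Finset.sum_insert ha, Finset.sum_insert ha, cp_add, ih]

theorem cp_lc_mul (z : ℂ) (q : Hq) : cp (lc z * q) = z * cp q := by
  apply Complex.ext <;> simp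

theorem cp_mul_star_lc (z : ℂ) (q : Hq) : cp (q * star (lc z)) = cp q * conj z := by
  apply Complex.ext <;> simp

theorem cp_mul_lc (z : ℂ) (q : Hq) : cp (q * lc z) = cp q * z := by
  apply Complex.ext <;> simp

theorem cp_star (q : Hq) : cp (star q) = conj (cp q) := by
  apply Complex.ext <;> simp

theorem cp_coe (r : ℝ) : cp (r : Hq) = (r : ℂ) := by
  apply Complex.ext <;> simp

@[simp] theorem cp_lc (z : ℂ) : cp (lc z) = z := by
  apply Complex.ext <;> simp

@[simp] theorem lc_zero : lc 0 = 0 := by ext <;> rfl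
@[simp] theorem lc_one : lc 1 = 1 := by ext <;> rfl
theorem lc_add (z w : ℂ) : lc (z + w) = lc z + lc w := by ext <;> simp
theorem lc_sub (z w : ℂ) : lc (z - w) = lc z - lc w := by ext <;> simp
theorem lc_mul (z w : ℂ) : lc (z * w) = lc z * lc w := by ext <;> simp
theorem lc_neg (z : ℂ) : lc (-z) = - lc z := by ext <;> simp
theorem lc_ofReal (r : ℝ) : lc (r : ℂ) = (r : Hq) := by ext <;> simp

theorem norm_lc (z : ℂ) : ‖lc z‖ = ‖z‖ := by
  have h : ‖lc z‖ ^ 2 = ‖z‖ ^ 2 := by
    rw [norm_sq_eq, Complex.sq_norm, Complex.normSq_apply]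
    simp
    ring
  exact (sq_eq_sq₀ (norm_nonneg _) (norm_nonneg _)).1 h

theorem norm_jj : ‖jj‖ = 1 := by
  have h : ‖jj‖ ^ 2 = 1 ^ 2 := by
    rw [norm_sq_eq]
    simp
  exact (sq_eq_sq₀ (norm_nonneg _) zero_le_one).1 h

/-- the quaternion `i` -/
noncomputable def ii : Hq := lc Complex.I

theorem continuous_lc : Continuous lc := by
  have : lc = fun z : ℂ => (z.re : Hq) + (z.im : Hq) * ii := by
    funext z
    ext <;> simp [ii]
  rw [this]
  have hr : Continuous fun r : ℝ => (r : Hq) := Quaternion.continuous_coe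
  exact (hr.comp Complex.continuous_re).add ((hr.comp Complex.continuous_im).mul continuous_const)

theorem continuous_cp : Continuous cp := by
  have : cp = fun q : Hq => (q.re : ℂ) + (q.imI : ℂ) * Complex.I := by
    funext q
    apply Complex.ext <;> simp
  rw [this]
  exact (Complex.continuous_ofReal.comp Quaternion.continuous_re).add
    ((Complex.continuous_ofReal.comp Quaternion.continuous_imI).mul continuous_const)

/-- every quaternion is `α + β j` -/
theorem eq_lc_add (q : Hq) : q = lc (cp q) + lc ⟨q.imJ, q.imK⟩ * jj := by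
  ext <;> simp

section vec

variable {n : ℕ}

@[simp] theorem rm_apply (r : ℝ) (v : Fin n → Hq) (i : Fin n) : rm r v i = (r : Hq) * v i := rfl
@[simp] theorem cm_apply (r : ℂ) (v : Fin n → Hq) (i : Fin n) : cm r v i = lc r * v i := rfl
@[simp] theorem jm_apply (v : Fin n → Hq) (i : Fin n) : jm v i = jj * v i := rfl

theorem rm_eq_cm (r : ℝ) (v : Fin n → Hq) : rm r v = cm (r : ℂ) v := by
  funext i; simp [lc_ofReal]

theorem rm_zero (v : Fin n → Hq) : rm 0 v = 0 := by funext i; simp
theorem rm_one (v : Fin n → Hq) : rm 1 v = v := by funext i; simp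
theorem cm_zero (v : Fin n → Hq) : cm 0 v = 0 := by funext i; simp
theorem cm_one (v : Fin n → Hq) : cm 1 v = v := by funext i; simp
theorem cm_vec_zero (r : ℂ) : cm r (0 : Fin n → Hq) = 0 := by funext i; simp
theorem rm_vec_zero (r : ℝ) : rm r (0 : Fin n → Hq) = 0 := by funext i; simp
theorem cm_cm (r s : ℂ) (v : Fin n → Hq) : cm r (cm s v) = cm (r * s) v := by
  funext i; simp [lc_mul, mul_assoc]
theorem rm_rm (r s : ℝ) (v : Fin n → Hq) : rm r (rm s v) = rm (r * s) v := by
  funext i; simp [mul_assoc]
theorem cm_add (r s : ℂ) (v : Fin n → Hq) : cm (r + s) v = cm r v + cm s v := by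
  funext i; simp [lc_add, add_mul]
theorem cm_vec_add (r : ℂ) (v w : Fin n → Hq) : cm r (v + w) = cm r v + cm r w := by
  funext i; simp [mul_add]
theorem cm_vec_sub (r : ℂ) (v w : Fin n → Hq) : cm r (v - w) = cm r v - cm r w := by
  funext i; simp [mul_sub]
theorem cm_neg (r : ℂ) (v : Fin n → Hq) : cm (-r) v = - cm r v := by
  funext i; simp [lc_neg]

theorem vm_rm (r : ℝ) (v : Fin n → Hq) (g : Sp1) : vm (rm r v) g = rm r (vm v g) := by
  funext i; simp [mul_assoc]
theorem vm_cm (r : ℂ) (v : Fin n → Hq) (g : Sp1) : vm (cm r v) g = cm r (vm v g) := by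
  funext i; simp [mul_assoc]
theorem vm_jm (v : Fin n → Hq) (g : Sp1) : vm (jm v) g = jm (vm v g) := by
  funext i; simp [mul_assoc]
theorem vm_add (v w : Fin n → Hq) (g : Sp1) : vm (v + w) g = vm v g + vm w g := by
  funext i; simp [add_mul]
theorem vm_sub (v w : Fin n → Hq) (g : Sp1) : vm (v - w) g = vm v g - vm w g := by
  funext i; simp [sub_mul]

theorem herm_add_left (u v w : Fin n → Hq) : herm (u + v) w = herm u w + herm v w := by
  simp only [herm, Pi.add_apply, add_mul, Finset.sum_add_distrib, cp_add]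

theorem herm_add_right (u v w : Fin n → Hq) : herm u (v + w) = herm u v + herm u w := by
  simp only [herm, Pi.add_apply, star_add, mul_add, Finset.sum_add_distrib, cp_add]

theorem herm_sub_left (u v w : Fin n → Hq) : herm (u - v) w = herm u w - herm v w := by
  simp only [herm, Pi.sub_apply, sub_mul, Finset.sum_sub_distrib, cp_sub]

theorem herm_sub_right (u v w : Fin n → Hq) : herm u (v - w) = herm u v - herm u w := by
  simp only [herm, Pi.sub_apply, star_sub, mul_sub, Finset.sum_sub_distrib, cp_sub]

theorem herm_cm_left (z : ℂ) (v w : Fin n → Hq) : herm (cm z v) w = z * herm v w := by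
  simp only [herm, cm_apply, mul_assoc, ← Finset.mul_sum, cp_lc_mul]

theorem herm_cm_right (z : ℂ) (v w : Fin n → Hq) : herm v (cm z w) = conj z * herm v w := by
  simp only [herm, cm_apply, star_mul, ← mul_assoc, ← Finset.sum_mul, cp_mul_star_lc]
  ring

theorem herm_rm_left (r : ℝ) (v w : Fin n → Hq) : herm (rm r v) w = r * herm v w := by
  rw [rm_eq_cm, herm_cm_left]

theorem herm_rm_right (r : ℝ) (v w : Fin n → Hq) : herm v (rm r w) = r * herm v w := by
  rw [rm_eq_cm, herm_cm_right, Complex.conj_ofReal]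

@[simp] theorem herm_zero_left (w : Fin n → Hq) : herm 0 w = 0 := by simp [herm]
@[simp] theorem herm_zero_right (w : Fin n → Hq) : herm w 0 = 0 := by simp [herm]

theorem herm_neg_right (u v : Fin n → Hq) : herm u (-v) = - herm u v := by
  have := herm_sub_right u 0 v
  simpa using this

theorem herm_neg_left (u v : Fin n → Hq) : herm (-u) v = - herm u v := by
  have := herm_sub_left 0 u v
  simpa using this

theorem herm_conj (v w : Fin n → Hq) : herm w v = conj (herm v w) := by
  unfold herm
  rw [← cp_star, star_sum]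
  congr 1
  refine Finset.sum_congr rfl fun i _ => ?_
  rw [star_mul, star_star]

theorem herm_self (v : Fin n → Hq) : herm v v = (sq v : ℂ) := by
  unfold herm sq
  rw [cp_sum, Complex.ofReal_sum]
  refine Finset.sum_congr rfl fun i _ => ?_
  rw [Quaternion.self_mul_star, Quaternion.normSq_eq_norm_mul_self, cp_coe, pow_two]

theorem herm_jm_self (v : Fin n → Hq) : herm v (jm v) = 0 := by
  unfold herm
  rw [cp_sum]
  refine Finset.sum_eq_zero fun i _ => ?_
  rw [jm_apply, star_mul, ← mul_assoc, Quaternion.self_mul_star]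
  apply Complex.ext <;> simp

theorem sq_nonneg' (v : Fin n → Hq) : 0 ≤ sq v := Finset.sum_nonneg fun i _ => by positivity

theorem sq_eq_zero_iff {v : Fin n → Hq} : sq v = 0 ↔ v = 0 := by
  unfold sq
  rw [Finset.sum_eq_zero_iff_of_nonneg (fun i _ => by positivity)]
  constructor
  · intro h
    funext i
    have := h i (Finset.mem_univ i)
    simpa using this
  · rintro rfl i _
    simp

theorem sq_pos {v : Fin n → Hq} (h : v ≠ 0) : 0 < sq v :=
  lt_of_le_of_ne (sq_nonneg' v) (fun h' => h (sq_eq_zero_iff.1 h'.symm))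

@[simp] theorem sq_zero : sq (0 : Fin n → Hq) = 0 := sq_eq_zero_iff.2 rfl

theorem sq_cm (z : ℂ) (v : Fin n → Hq) : sq (cm z v) = ‖z‖ ^ 2 * sq v := by
  unfold sq
  rw [Finset.mul_sum]
  refine Finset.sum_congr rfl fun i _ => ?_
  rw [cm_apply, norm_mul, norm_lc, mul_pow]

theorem sq_rm (r : ℝ) (v : Fin n → Hq) : sq (rm r v) = r ^ 2 * sq v := by
  rw [rm_eq_cm, sq_cm, Complex.norm_real, Real.norm_eq_abs, sq_abs]

theorem sq_jm (v : Fin n → Hq) : sq (jm v) = sq v := by
  unfold sq
  refine Finset.sum_congr rfl fun i _ => ?_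
  rw [jm_apply, norm_mul, norm_jj, one_mul]

theorem sq_neg (v : Fin n → Hq) : sq (-v) = sq v := by
  unfold sq
  refine Finset.sum_congr rfl fun i _ => ?_
  rw [Pi.neg_apply, norm_neg]

theorem sq_add (v w : Fin n → Hq) : sq (v + w) = sq v + 2 * (herm v w).re + sq w := by
  have h := herm_self (v + w)
  rw [herm_add_left, herm_add_right, herm_add_right, herm_self, herm_self, herm_conj v w] at h
  have := congrArg Complex.re h
  simp at this
  linarith

theorem continuous_sq : Continuous (sq : (Fin n → Hq) → ℝ) := by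
  unfold sq
  fun_prop

theorem continuous_herm {X : Type} [TopologicalSpace X] {v w : X → Fin n → Hq}
    (hv : Continuous v) (hw : Continuous w) : Continuous fun x => herm (v x) (w x) := by
  unfold herm
  refine continuous_cp.comp (continuous_finsetSum _ fun i _ => ?_)
  exact ((continuous_apply i).comp hv).mul (((continuous_apply i).comp hw).star)

theorem continuous_rm {X : Type} [TopologicalSpace X] {v : X → Fin n → Hq} {r : X → ℝ}
    (hr : Continuous r) (hv : Continuous v) : Continuous fun x => rm (r x) (v x) := by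
  refine continuous_pi fun i => ?_
  exact (Quaternion.continuous_coe.comp hr).mul ((continuous_apply i).comp hv)

theorem continuous_cm {X : Type} [TopologicalSpace X] {v : X → Fin n → Hq} {r : X → ℂ}
    (hr : Continuous r) (hv : Continuous v) : Continuous fun x => cm (r x) (v x) := by
  refine continuous_pi fun i => ?_
  exact (continuous_lc.comp hr).mul ((continuous_apply i).comp hv)

theorem continuous_jm {X : Type} [TopologicalSpace X] {v : X → Fin n → Hq}
    (hv : Continuous v) : Continuous fun x => jm (v x) := by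
  refine continuous_pi fun i => ?_
  exact continuous_const.mul ((continuous_apply i).comp hv)

end vec

end Pool.Agent.Helper965_Rud
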