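import Pool.Agent.Helper965_Rud.Alg

/-! # The map `fX`, coordinates, compactness -/

set_option autoImplicit false

namespace Pool.Agent.Helper965_Rud

open scoped ComplexConjugate

noncomputable section

theorem isFrame_fA {x : AM} (h : IsMpt x) : IsFrame (fA x) := by
  obtain ⟨w, ⟨z, s⟩, a, b⟩ := x
  obtain ⟨h1, h2, h3, h4, h5⟩ := h
  simp only at h1 h2 h3 h4 h5
  rcases le_total 0 s with hs | hs
  · have e1 : max s 0 = s := max_eq_left hs
    have e2 : max (-s) 0 = 0 := max_eq_right (by linarith)
    refine ⟨h3, ?_, ?_⟩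
    · simp only [fA, e1, e2, rm_zero, add_zero, sq_rm, h1]
      linarith
    · simp only [fA, e1, e2, rm_zero, add_zero, herm_rm_right]
      rw [mul_comm]
      exact h4 hs
  · have e1 : max s 0 = 0 := max_eq_right hs
    have e2 : max (-s) 0 = -s := max_eq_left (by linarith)
    have hb : b = 0 := h5 hs
    have ha : sq a = 1 := by rw [hb] at h3; simpa using h3
    refine ⟨h3, ?_, ?_⟩
    · simp only [fA, e1, e2, rm_zero, zero_add, sq_rm, sq_jm, ha]
      linarith
    · simp only [fA, e1, e2, rm_zero, zero_add, herm_rm_right, herm_jm_self, mul_zero, hb, zero_mul,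
        add_zero]

/-- the map `XM → XN` covering the map of degree one -/
def fX (x : XM) : XN := ⟨fA x.1, isFrame_fA x.2⟩

theorem continuous_fX : Continuous fX := by
  refine Continuous.subtype_mk ?_ _
  have h : Continuous fun p : XM => p.1 := continuous_subtype_val
  have hw : Continuous fun p : XM => p.1.1 := continuous_fst.comp h
  have hy : Continuous fun p : XM => p.1.2.1 := continuous_fst.comp (continuous_snd.comp h)
  have hv : Continuous fun p : XM => p.1.2.2 := continuous_snd.comp (continuous_snd.comp h)
  refine hv.prodMk (Continuous.prodMk ?_ (continuous_fst.comp hy))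
  exact (continuous_rm ((continuous_snd.comp hy).max continuous_const) hw).add
    (continuous_rm ((continuous_snd.comp hy).neg.max continuous_const)
      (continuous_jm (continuous_fst.comp hv)))

theorem fX_act (x : XM) (g : Sp1) : fX (act x g) = act (fX x) g := by
  apply Subtype.ext
  show fA (vm x.1.1 g, x.1.2.1, (vm x.1.2.2.1 g, x.1.2.2.2)) =
    ((vm (fA x.1).1.1 g, (fA x.1).1.2), (vm (fA x.1).2.1 g, (fA x.1).2.2))
  simp only [fA, vm_add, vm_rm, vm_jm]

section Induced

variable {X Y : Type} [TopologicalSpace X] [TopologicalSpace Y] [GSp X] [GSp Y]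

/-- the map of orbit spaces induced by an equivariant map -/
def omap (f : C(X, Y)) (hf : ∀ x g, f (act x g) = act (f x) g) : C(Orb X, Orb Y) where
  toFun := Quotient.lift (fun x => mk (f x)) (by
    rintro x _ ⟨g, rfl⟩
    show mk (f x) = mk (f (act x g))
    rw [hf, mk_act])
  continuous_toFun := (continuous_mk.comp f.continuous).quotient_lift _

@[simp] theorem omap_mk (f : C(X, Y)) (hf : ∀ x g, f (act x g) = act (f x) g) (x : X) :
    omap f hf (mk x) = mk (f x) := rfl

end Induced

/-- the closed manifold `M` -/
abbrev MM : Type := Orb XM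

/-- the closed manifold `N` -/
abbrev NN : Type := Orb XN

/-- the map of degree one -/
def fM : C(MM, NN) := omap ⟨fX, continuous_fX⟩ fX_act

/-- equivariance of a vector valued map -/
def Eqv {X : Type} [TopologicalSpace X] [GSp X] {n : ℕ} (E : X → Fin n → Hq) : Prop :=
  ∀ x g, E (act x g) = vm (E x) g

/-- the six quaternionic coordinates of a frame -/
def E6 (x : XN) : Fin 6 → Hq :=
  ![x.1.1.1 0, x.1.1.1 1, x.1.1.1 2, x.1.2.1 0, x.1.2.1 1, x.1.2.1 2]

/-- all quaternionic coordinates of a frame but one, `(a₀, a₁, a₂, c₁, c₂)` -/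
def E5 (x : XN) : Fin 5 → Hq :=
  ![x.1.1.1 0, x.1.1.1 1, x.1.1.1 2, x.1.2.1 1, x.1.2.1 2]

/-- the frames with `c₀ = 0` -/
def ZZ : Set XN := {x | x.1.2.1 0 = 0}

instance compact_SH (n : ℕ) : CompactSpace (SH n) := by
  have hc : IsClosed {v : Fin n → Hq | sq v = 1} := isClosed_eq continuous_sq continuous_const
  have hb : Bornology.IsBounded {v : Fin n → Hq | sq v = 1} := by
    rw [isBounded_iff_forall_norm_le]
    refine ⟨1, fun v hv => (pi_norm_le_iff_of_nonneg zero_le_one).2 fun i => ?_⟩
    have h1 : ‖v i‖ ^ 2 ≤ sq v := Finset.single_le_sum (f := fun i => ‖v i‖ ^ 2)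
      (fun j _ => by positivity) (Finset.mem_univ i)
    have hv' : sq v = 1 := hv
    rw [hv'] at h1
    exact (sq_le_one_iff₀ (norm_nonneg _)).1 h1
  exact isCompact_iff_compactSpace.1 (Metric.isCompact_of_isClosed_isBounded hc hb)

theorem norm_le_of_sq {n : ℕ} {v : Fin n → Hq} (h : sq v ≤ 1) : ‖v‖ ≤ 1 := by
  refine (pi_norm_le_iff_of_nonneg zero_le_one).2 fun i => ?_
  have h1 : ‖v i‖ ^ 2 ≤ sq v := Finset.single_le_sum (f := fun i => ‖v i‖ ^ 2)
    (fun j _ => by positivity) (Finset.mem_univ i)
  exact (sq_le_one_iff₀ (norm_nonneg _)).1 (h1.trans h)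

instance compact_XN : CompactSpace XN := by
  have hc : IsClosed {x : AN | IsFrame x} := by
    refine (isClosed_eq ?_ continuous_const).inter ((isClosed_eq ?_ continuous_const).inter
      (isClosed_eq ?_ continuous_const))
    · exact (continuous_sq.comp (continuous_fst.comp continuous_fst)).add (by fun_prop)
    · exact (continuous_sq.comp (continuous_fst.comp continuous_snd)).add (by fun_prop)
    · exact (continuous_herm (continuous_fst.comp continuous_fst)
        (continuous_fst.comp continuous_snd)).add ((continuous_snd.comp continuous_fst).mul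
        (Complex.continuous_conj.comp (continuous_snd.comp continuous_snd)))
  have hb : Bornology.IsBounded {x : AN | IsFrame x} := by
    rw [isBounded_iff_forall_norm_le]
    refine ⟨1, fun x hx => ?_⟩
    obtain ⟨h1, h2, -⟩ := hx
    refine max_le (max_le ?_ ?_) (max_le ?_ ?_)
    · exact norm_le_of_sq (by nlinarith [norm_nonneg x.1.2])
    · exact (sq_le_one_iff₀ (norm_nonneg _)).1 (by linarith [sq_nonneg' x.1.1])
    · exact norm_le_of_sq (by nlinarith [norm_nonneg x.2.2])
    · exact (sq_le_one_iff₀ (norm_nonneg _)).1 (by linarith [sq_nonneg' x.2.1])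
  exact isCompact_iff_compactSpace.1 (Metric.isCompact_of_isClosed_isBounded hc hb)

instance compact_XM : CompactSpace XM := by
  have hw : Continuous fun x : AM => x.1 := continuous_fst
  have hz : Continuous fun x : AM => x.2.1.1 := by fun_prop
  have hs : Continuous fun x : AM => x.2.1.2 := by fun_prop
  have ha : Continuous fun x : AM => x.2.2.1 := by fun_prop
  have hbb : Continuous fun x : AM => x.2.2.2 := by fun_prop
  have hc : IsClosed {x : AM | IsMpt x} := by
    have e2 : {x : AM | IsMpt x} = {x | sq x.1 = 1} ∩ ({x | ‖x.2.1.1‖ ^ 2 + x.2.1.2 ^ 2 = 1} ∩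
        ({x | sq x.2.2.1 + ‖x.2.2.2‖ ^ 2 = 1} ∩
        (({x | 0 ≤ x.2.1.2} ∩ {x | herm x.2.2.1 x.1 * (x.2.1.2 : ℂ) + x.2.2.2 * conj x.2.1.1 = 0}) ∪
          ({x | x.2.1.2 ≤ 0} ∩ {x | x.2.2.2 = 0})))) := by
      ext x
      simp only [IsMpt, Set.mem_ofPred_eq, Set.mem_inter_iff, Set.mem_union]
      constructor
      · rintro ⟨h1, h2, h3, h4, h5⟩
        refine ⟨h1, h2, h3, ?_⟩
        rcases le_total 0 x.2.1.2 with h | h
        · exact Or.inl ⟨h, h4 h⟩
        · exact Or.inr ⟨h, h5 h⟩
      · rintro ⟨h1, h2, h3, (⟨h4, h5⟩ | ⟨h4, h5⟩)⟩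
        · refine ⟨h1, h2, h3, fun _ => h5, fun h => ?_⟩
          have h0 : x.2.1.2 = 0 := le_antisymm h h4
          rw [h0] at h5 h2
          have hz1 : ‖x.2.1.1‖ = 1 := by
            have : ‖x.2.1.1‖ ^ 2 = 1 ^ 2 := by linarith
            exact (sq_eq_sq₀ (norm_nonneg _) zero_le_one).1 this
          have hz0 : conj x.2.1.1 ≠ 0 := by
            intro hh
            rw [map_eq_zero] at hh
            rw [hh, norm_zero] at hz1
            exact zero_ne_one hz1
          simpa [hz0] using h5
        · refine ⟨h1, h2, h3, fun h => ?_, fun _ => h5⟩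
          have : x.2.1.2 = 0 := le_antisymm h4 h
          rw [this, h5]; simp
    rw [e2]
    refine (isClosed_eq (continuous_sq.comp hw) continuous_const).inter
      ((isClosed_eq (by fun_prop) continuous_const).inter
      ((isClosed_eq ((continuous_sq.comp ha).add (by fun_prop)) continuous_const).inter
      (((isClosed_le continuous_const hs).inter (isClosed_eq ?_ continuous_const)).union
      ((isClosed_le hs continuous_const).inter (isClosed_eq hbb continuous_const)))))
    exact ((continuous_herm ha hw).mul (Complex.continuous_ofReal.comp hs)).add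
      (hbb.mul (Complex.continuous_conj.comp hz))
  have hb : Bornology.IsBounded {x : AM | IsMpt x} := by
    rw [isBounded_iff_forall_norm_le]
    refine ⟨1, fun x hx => ?_⟩
    obtain ⟨h1, h2, h3, -⟩ := hx
    refine max_le ?_ (max_le (max_le ?_ ?_) (max_le ?_ ?_))
    · exact norm_le_of_sq h1.le
    · exact (sq_le_one_iff₀ (norm_nonneg _)).1 (by nlinarith [sq_nonneg x.2.1.2])
    · rw [Real.norm_eq_abs]
      exact (sq_le_one_iff_abs_le_one _).1 (by nlinarith [norm_nonneg x.2.1.1])
    · exact norm_le_of_sq (by nlinarith [norm_nonneg x.2.2.2])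
    · exact (sq_le_one_iff₀ (norm_nonneg _)).1 (by linarith [sq_nonneg' x.2.2.1])
  exact isCompact_iff_compactSpace.1 (Metric.isCompact_of_isClosed_isBounded hc hb)

instance (n : ℕ) : T2Space (SH n) := inferInstanceAs (T2Space {v : Fin n → Hq // sq v = 1})
instance : T2Space XN := inferInstanceAs (T2Space {x : AN // IsFrame x})
instance : T2Space XM := inferInstanceAs (T2Space {x : AM // IsMpt x})
instance (n : ℕ) : MetricSpace (SH n) := inferInstanceAs (MetricSpace {v : Fin n → Hq // sq v = 1})
instance : MetricSpace XN := inferInstanceAs (MetricSpace {x : AN // IsFrame x})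
instance : MetricSpace XM := inferInstanceAs (MetricSpace {x : AM // IsMpt x})

theorem continuous_frame_a : Continuous fun x : XN => x.1.1.1 :=
  continuous_fst.comp (continuous_fst.comp continuous_subtype_val)

theorem continuous_frame_c : Continuous fun x : XN => x.1.2.1 :=
  continuous_fst.comp (continuous_snd.comp continuous_subtype_val)

theorem continuous_frame_ai (i : Fin 3) : Continuous fun x : XN => x.1.1.1 i :=
  (continuous_apply i).comp continuous_frame_a

theorem continuous_frame_ci (i : Fin 3) : Continuous fun x : XN => x.1.2.1 i :=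
  (continuous_apply i).comp continuous_frame_c

/-- not both quaternionic vectors of a frame vanish -/
theorem frame_ne_zero (x : XN) (ha : x.1.1.1 = 0) (hc : x.1.2.1 = 0) : False := by
  obtain ⟨h1, h2, h3⟩ := x.2
  rw [ha, sq_zero, zero_add] at h1
  rw [hc, sq_zero, zero_add] at h2
  rw [ha, herm_zero_left, zero_add] at h3
  have h4 := congrArg norm h3
  rw [norm_mul, norm_zero, RCLike.norm_conj] at h4
  rcases mul_eq_zero.1 h4 with h5 | h5
  · rw [h5] at h1; norm_num at h1
  · rw [h5] at h2; norm_num at h2

theorem E6_ne_zero (x : XN) : E6 x ≠ 0 := by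
  intro h
  apply frame_ne_zero x
  · funext i
    fin_cases i
    · exact congrFun h 0
    · exact congrFun h 1
    · exact congrFun h 2
  · funext i
    fin_cases i
    · exact congrFun h 3
    · exact congrFun h 4
    · exact congrFun h 5

theorem E5_ne_zero (x : XN) (hx : x ∈ ZZ) : E5 x ≠ 0 := by
  intro h
  apply frame_ne_zero x
  · funext i
    fin_cases i
    · exact congrFun h 0
    · exact congrFun h 1
    · exact congrFun h 2
  · funext i
    fin_cases i
    · exact hx
    · exact congrFun h 3
    · exact congrFun h 4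

theorem continuous_E6 : Continuous E6 := by
  refine continuous_pi fun i => ?_
  fin_cases i
  · exact continuous_frame_ai 0
  · exact continuous_frame_ai 1
  · exact continuous_frame_ai 2
  · exact continuous_frame_ci 0
  · exact continuous_frame_ci 1
  · exact continuous_frame_ci 2

theorem continuous_E5 : Continuous E5 := by
  refine continuous_pi fun i => ?_
  fin_cases i
  · exact continuous_frame_ai 0
  · exact continuous_frame_ai 1
  · exact continuous_frame_ai 2
  · exact continuous_frame_ci 1
  · exact continuous_frame_ci 2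

theorem E6_eqv : Eqv E6 := by
  intro x g
  funext i
  fin_cases i <;> rfl

theorem E5_eqv : Eqv E5 := by
  intro x g
  funext i
  fin_cases i <;> rfl

end

end Pool.Agent.Helper965_Rud
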