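import Mathlib

/-! # Basic definitions: unit quaternions, spaces with a right action, orbit spaces,
the two total spaces `XM`, `XN` and the map `fX : XM → XN`. -/

set_option autoImplicit false

namespace Pool.Agent.Helper965_Rud

noncomputable section

open scoped ComplexConjugate

/-- the quaternions -/
abbrev Hq : Type := Quaternion ℝ

/-- the unit quaternions -/
abbrev Sp1 : Type := Metric.sphere (0 : Hq) 1

/-- a space with a continuous right action of the unit quaternions -/
class GSp (X : Type) [TopologicalSpace X] where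
  /-- the action -/
  act : X → Sp1 → X
  act_one : ∀ x, act x 1 = x
  act_mul : ∀ x g h, act x (g * h) = act (act x g) h
  cont : Continuous fun p : X × Sp1 => act p.1 p.2

export GSp (act)

section Orb

variable (X : Type) [TopologicalSpace X] [GSp X]

/-- the orbit relation -/
def rel : Setoid X where
  r x y := ∃ g : Sp1, y = act x g
  iseqv :=
    { refl := fun x => ⟨1, (GSp.act_one x).symm⟩
      symm := by
        rintro x y ⟨g, rfl⟩
        exact ⟨g⁻¹, by rw [← GSp.act_mul, mul_inv_cancel, GSp.act_one]⟩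
      trans := by
        rintro x y z ⟨g, rfl⟩ ⟨h, rfl⟩
        exact ⟨g * h, (GSp.act_mul x g h).symm⟩ }

/-- the orbit space -/
def Orb : Type := Quotient (rel X)

instance : TopologicalSpace (Orb X) := inferInstanceAs (TopologicalSpace (Quotient (rel X)))

variable {X}

/-- the projection to the orbit space -/
def mk (x : X) : Orb X := Quotient.mk (rel X) x

theorem mk_surj : Function.Surjective (mk : X → Orb X) := Quotient.mk_surjective

theorem mk_eq_iff {x y : X} : mk x = mk y ↔ ∃ g : Sp1, y = act x g := Quotient.eq (r := rel X)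

theorem mk_act (x : X) (g : Sp1) : mk (act x g) = mk x := (mk_eq_iff.2 ⟨g, rfl⟩).symm

theorem continuous_mk : Continuous (mk : X → Orb X) := continuous_quotient_mk'

theorem isQuotientMap_mk : Topology.IsQuotientMap (mk : X → Orb X) := isQuotientMap_quotient_mk'

theorem continuous_act_left (g : Sp1) : Continuous fun x : X => act x g :=
  GSp.cont.comp (continuous_id.prodMk continuous_const)

theorem isOpenMap_mk : IsOpenMap (mk : X → Orb X) := by
  intro U hU
  rw [← isQuotientMap_mk.isOpen_preimage]
  have : mk ⁻¹' (mk '' U) = ⋃ g : Sp1, (fun x : X => act x g) ⁻¹' U := by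
    ext x
    simp only [Set.mem_preimage, Set.mem_image, Set.mem_iUnion]
    constructor
    · rintro ⟨y, hy, h⟩
      obtain ⟨g, rfl⟩ := mk_eq_iff.1 h.symm
      exact ⟨g, hy⟩
    · rintro ⟨g, hg⟩
      exact ⟨act x g, hg, mk_act x g⟩
  rw [this]
  exact isOpen_iUnion fun g => hU.preimage (continuous_act_left g)

theorem isOpenQuotientMap_mk : IsOpenQuotientMap (mk : X → Orb X) :=
  ⟨mk_surj, continuous_mk, isOpenMap_mk⟩

instance [CompactSpace X] : CompactSpace (Orb X) := inferInstanceAs (CompactSpace (Quotient (rel X)))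

instance [CompactSpace X] [T2Space X] : T2Space (Orb X) := by
  have hcl : IsClosed {p : X × X | mk p.1 = mk p.2} := by
    have h1 : {p : X × X | mk p.1 = mk p.2} =
        (Prod.fst : (X × X) × Sp1 → X × X) '' {q | q.1.2 = act q.1.1 q.2} := by
      ext p
      simp only [Set.mem_ofPred_eq, Set.mem_image, mk_eq_iff]
      constructor
      · rintro ⟨g, hg⟩
        exact ⟨(p, g), hg, rfl⟩
      · rintro ⟨⟨p', g⟩, h, rfl⟩
        exact ⟨g, h⟩
    rw [h1]
    apply (isClosedMap_fst_of_compactSpace : IsClosedMap (Prod.fst : (X × X) × Sp1 → X × X))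
    exact isClosed_eq (by fun_prop)
      (GSp.cont.comp ((continuous_fst.comp continuous_fst).prodMk continuous_snd))
  rw [t2Space_iff_of_isOpenQuotientMap isOpenQuotientMap_mk]
  exact hcl

end Orb

/-! ## Quaternionic and hermitian structures -/

/-- complex numbers as quaternions -/
def lc (z : ℂ) : Hq := ⟨z.re, z.im, 0, 0⟩

/-- the complex part of a quaternion -/
def cp (q : Hq) : ℂ := ⟨q.re, q.imI⟩

/-- the quaternion `j` -/
def jj : Hq := ⟨0, 0, 1, 0⟩

/-- the squared norm of a vector -/
def sq {n : ℕ} (v : Fin n → Hq) : ℝ := ∑ i, ‖v i‖ ^ 2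

/-- the hermitian product -/
def herm {n : ℕ} (v w : Fin n → Hq) : ℂ := cp (∑ i, v i * star (w i))

/-- the unit sphere of `ℍ^n` -/
def SH (n : ℕ) : Type := {v : Fin n → Hq // sq v = 1}

instance (n : ℕ) : TopologicalSpace (SH n) := instTopologicalSpaceSubtype

/-- the ambient space of `XN` -/
abbrev AN : Type := ((Fin 3 → Hq) × ℂ) × ((Fin 3 → Hq) × ℂ)

/-- the conditions defining `XN`: unitary `2`-frames of `ℍ³ ⊕ ℂ` -/
def IsFrame (x : AN) : Prop :=
  sq x.1.1 + ‖x.1.2‖ ^ 2 = 1 ∧ sq x.2.1 + ‖x.2.2‖ ^ 2 = 1 ∧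
    herm x.1.1 x.2.1 + x.1.2 * conj x.2.2 = 0

/-- unitary `2`-frames of `ℍ³ ⊕ ℂ` -/
def XN : Type := {x : AN // IsFrame x}

instance : TopologicalSpace XN := instTopologicalSpaceSubtype

/-- the ambient space of `XM` -/
abbrev AM : Type := (Fin 3 → Hq) × (ℂ × ℝ) × ((Fin 3 → Hq) × ℂ)

/-- the conditions defining `XM` -/
def IsMpt (x : AM) : Prop :=
  sq x.1 = 1 ∧ ‖x.2.1.1‖ ^ 2 + x.2.1.2 ^ 2 = 1 ∧ sq x.2.2.1 + ‖x.2.2.2‖ ^ 2 = 1 ∧
    (0 ≤ x.2.1.2 → herm x.2.2.1 x.1 * (x.2.1.2 : ℂ) + x.2.2.2 * conj x.2.1.1 = 0) ∧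
    (x.2.1.2 ≤ 0 → x.2.2.2 = 0)

/-- the total space over `M` -/
def XM : Type := {x : AM // IsMpt x}

instance : TopologicalSpace XM := instTopologicalSpaceSubtype

/-! ## The actions -/

/-- right multiplication of a vector by a unit quaternion -/
def vm {n : ℕ} (v : Fin n → Hq) (g : Sp1) : Fin n → Hq := fun i => v i * (g : Hq)

@[simp] theorem vm_apply {n : ℕ} (v : Fin n → Hq) (g : Sp1) (i : Fin n) : vm v g i = v i * (g : Hq) := rfl

theorem vm_one {n : ℕ} (v : Fin n → Hq) : vm v 1 = v := by
  funext i; simp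

theorem vm_mul {n : ℕ} (v : Fin n → Hq) (g h : Sp1) : vm v (g * h) = vm (vm v g) h := by
  funext i; simp [mul_assoc]

theorem norm_sp1 (g : Sp1) : ‖(g : Hq)‖ = 1 := norm_eq_of_mem_sphere g

theorem sp1_mul_star (g : Sp1) : (g : Hq) * star (g : Hq) = 1 := by
  rw [Quaternion.self_mul_star, Quaternion.normSq_eq_norm_mul_self, norm_sp1]
  simp

theorem sq_vm {n : ℕ} (v : Fin n → Hq) (g : Sp1) : sq (vm v g) = sq v := by
  unfold sq
  refine Finset.sum_congr rfl fun i _ => ?_
  rw [vm_apply, norm_mul, norm_sp1, mul_one]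

theorem herm_vm {n : ℕ} (v w : Fin n → Hq) (g : Sp1) : herm (vm v g) (vm w g) = herm v w := by
  unfold herm
  congr 1
  refine Finset.sum_congr rfl fun i _ => ?_
  rw [vm_apply, vm_apply, star_mul, mul_assoc, ← mul_assoc (g : Hq), sp1_mul_star, one_mul]

theorem continuous_vm {n : ℕ} {X : Type} [TopologicalSpace X] {v : X → Fin n → Hq} {g : X → Sp1}
    (hv : Continuous v) (hg : Continuous g) : Continuous fun x => vm (v x) (g x) := by
  refine continuous_pi fun i => ?_
  exact ((continuous_apply i).comp hv).mul (continuous_subtype_val.comp hg)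

instance (n : ℕ) : GSp (SH n) where
  act x g := ⟨vm x.1 g, (sq_vm x.1 g).trans x.2⟩
  act_one x := Subtype.ext (vm_one x.1)
  act_mul x g h := Subtype.ext (vm_mul x.1 g h)
  cont := Continuous.subtype_mk (continuous_vm (continuous_subtype_val.comp continuous_fst)
    continuous_snd) _

instance (X Y : Type) [TopologicalSpace X] [TopologicalSpace Y] [GSp X] [GSp Y] : GSp (X × Y) where
  act x g := (act x.1 g, act x.2 g)
  act_one x := by rw [GSp.act_one, GSp.act_one]
  act_mul x g h := by rw [GSp.act_mul, GSp.act_mul]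
  cont := (GSp.cont.comp ((continuous_fst.comp continuous_fst).prodMk continuous_snd)).prodMk
    (GSp.cont.comp ((continuous_snd.comp continuous_fst).prodMk continuous_snd))

instance : GSp XN where
  act x g := ⟨((vm x.1.1.1 g, x.1.1.2), (vm x.1.2.1 g, x.1.2.2)), by
    obtain ⟨h1, h2, h3⟩ := x.2
    exact ⟨by simpa only [sq_vm] using h1, by simpa only [sq_vm] using h2,
      by simpa only [herm_vm] using h3⟩⟩
  act_one x := Subtype.ext (by simp only [vm_one])
  act_mul x g h := Subtype.ext (by simp only [vm_mul])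
  cont := Continuous.subtype_mk (by
    have h : Continuous fun p : XN × Sp1 => p.1.1 := continuous_subtype_val.comp continuous_fst
    exact (((continuous_vm (continuous_fst.comp (continuous_fst.comp h)) continuous_snd).prodMk
      (continuous_snd.comp (continuous_fst.comp h)))).prodMk
      (((continuous_vm (continuous_fst.comp (continuous_snd.comp h)) continuous_snd).prodMk
      (continuous_snd.comp (continuous_snd.comp h))))) _

instance : GSp XM where
  act x g := ⟨(vm x.1.1 g, x.1.2.1, (vm x.1.2.2.1 g, x.1.2.2.2)), by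
    obtain ⟨h1, h2, h3, h4, h5⟩ := x.2
    exact ⟨by simpa only [sq_vm] using h1, h2, by simpa only [sq_vm] using h3,
      by simpa only [herm_vm] using h4, h5⟩⟩
  act_one x := Subtype.ext (by simp only [vm_one])
  act_mul x g h := Subtype.ext (by simp only [vm_mul])
  cont := Continuous.subtype_mk (by
    have h : Continuous fun p : XM × Sp1 => p.1.1 := continuous_subtype_val.comp continuous_fst
    exact (continuous_vm (continuous_fst.comp h) continuous_snd).prodMk
      ((continuous_fst.comp (continuous_snd.comp h)).prodMk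
      ((continuous_vm (continuous_fst.comp (continuous_snd.comp (continuous_snd.comp h)))
        continuous_snd).prodMk
      (continuous_snd.comp (continuous_snd.comp (continuous_snd.comp h)))))) _

/-- left multiplication by `j` -/
def jm {n : ℕ} (v : Fin n → Hq) : Fin n → Hq := fun i => jj * v i

/-- left multiplication by a real number -/
def rm {n : ℕ} (r : ℝ) (v : Fin n → Hq) : Fin n → Hq := fun i => (r : Hq) * v i

/-- left multiplication by a complex number -/
def cm {n : ℕ} (z : ℂ) (v : Fin n → Hq) : Fin n → Hq := fun i => lc z * v i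

/-- the vectors `(a, b)` and `(s⁺ w + s⁻ j a, z)` of `f (w, (z, s), (a, b))` -/
def fA (x : AM) : AN :=
  (x.2.2, (rm (max x.2.1.2 0) x.1 + rm (max (-x.2.1.2) 0) (jm x.2.2.1), x.2.1.1))

end

end Pool.Agent.Helper965_Rud
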