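import Pool.Agent.Helper965_Rud.Stmts2

/-!
JOB AMh (MP_89fcdb_gt, owner helper965; disproof of a conjecture of Rudyak).
Setup: git fetch in outputs/live, copy Pool/Agent/Helper965_Rud/*.lean from origin/main (and Pool/Agent/Helper534/LS/*.lean)
to the same paths under /workdir/pool/Pool/Agent/, then `lake build` the modules imported here. Check with `lake env lean <file>`.
Helper965_Rud: Defs, Alg (algebra lemmas: herm_*, sq_*, rm, cm, jm, cp, lc), Basic (XN, XM, compactness), Stmts, StmtsTop, Stmts2 (the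
propositions S_...). The hypotheses S_... of the target are proved by other jobs: just use them.
Return the WHOLE file with the target proved (no sorry, no axiom, no native_decide; keep the name and the statement of the target).
Auxiliary lemmas: before the target, in the namespace AMh_aux (open it before the target) or with names starting with AMh_ .
Avoid straight double quotes and the words forbidden by RULES.md. If the statement is false or something is missing, say so in the note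
(status 'problem') with the reason. The final path of the file is Pool/Agent/Helper965_Rud/P_AMh.lean .

PROOF. Notation: VV = Orb (SH 3 × SH 3), points [u,w]. A point of AMs is [w,(z,s),(a,b)] with (z,s) ≠ (0,1). Put l(y) = (bb, al) in ℂ × ℝ, al ≥ 0: for s ≤ 0 (bb,al) = (0,1); for s ≥ 0 (then z ≠ 0) (bb,al) = (-s z/|z|, |z|). They agree at s = 0 (|z| = 1), l is
continuous on Y2 minus (0,1), |bb|^2 + al^2 = 1 and al * s + bb * conj z = 0 for s ≥ 0, bb = 0 for s ≤ 0. (Single formula for continuity: bb = -max(s,0) z/|z| with value 0 near z = 0, s < 0; al = |z| if s ≥ 0, 1 if s ≤ 0.)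
The complex line L(y) = {(b,α) : (s ≥ 0 → α s + b conj z = 0), (s ≤ 0 → b = 0)} is spanned by l(y) (over ℂ), so for (b,α) in L(y): (b,α) = ζ (bb,al) with ζ = b conj bb + α al.
Forward map e [w,y,(a,b)] = ([u,w], y) with α = herm a w, ζ = b * conj bb + α * al, u = a + (ζ - α) w (i.e. a + cm (ζ - α) w). The condition on (a,b) says exactly (b,α) in L(y). u is a unit vector: with a = α w + a'', a'' orthogonal to w, u = ζ w + a'',
|u|^2 = |ζ|^2 + |a''|^2 = |b|^2 + |α|^2 + |a''|^2 = |b|^2 + |a|^2 = 1.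
Backward map ([u,w],y) ↦ [w, y, (a,b)] with ζ = herm u w, a = u + (ζ al - ζ) w, b = ζ bb. Both are equivariant upstairs (herm_vm, sq_vm), continuous, and inverse to each other.
To get the homeomorphism: first build the G-equivariant homeomorphism upstairs between {x : XM // x.1.2.1 ≠ (0,1)} and (SH 3 × SH 3) × {y : Y2 // ...}, then pass to the quotient on both sides: mk restricted to the preimage of the open set AMs is an open quotient
map onto AMs, and mk × id is an open quotient map (IsOpenQuotientMap.prodMap). The last clause is the formula for the second component.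
-/

set_option autoImplicit false

namespace Pool.Agent.Helper965_Rud

open scoped ComplexConjugate unitInterval
open Pool.Agent.Helper534.LS (HH hmap sub inl inr delta)

noncomputable section

namespace AMh_aux

/-- the real coordinate of the unit vector spanning the line -/
def alf (y : ℂ × ℝ) : ℝ := Real.sqrt (1 - max y.2 0 ^ 2)

/-- the complex coordinate of the unit vector spanning the line -/
def bbf (y : ℂ × ℝ) : ℂ := -((max y.2 0 / alf y : ℝ) : ℂ) * y.1

theorem alf_sq {y : ℂ × ℝ} (h : ‖y.1‖ ^ 2 + y.2 ^ 2 = 1) : alf y ^ 2 = 1 - max y.2 0 ^ 2 := by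
  unfold alf
  rw [Real.sq_sqrt]
  have h1 : y.2 ^ 2 ≤ 1 := by nlinarith [sq_nonneg ‖y.1‖]
  rcases le_total 0 y.2 with hs | hs
  · rw [max_eq_left hs]; linarith
  · rw [max_eq_right hs]; norm_num

theorem alf_pos {y : ℂ × ℝ} (h : ‖y.1‖ ^ 2 + y.2 ^ 2 = 1) (hy : y ≠ (0, 1)) : 0 < alf y := by
  unfold alf
  apply Real.sqrt_pos.2
  have h1 : y.2 < 1 := by
    by_contra hc
    have h2 : 1 ≤ y.2 := not_lt.1 hc
    have h3 : y.2 = 1 := by nlinarith [sq_nonneg ‖y.1‖]
    rw [h3] at h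
    have h4 : ‖y.1‖ ^ 2 = 0 := by linarith
    have h5 : y.1 = 0 := by
      have := pow_eq_zero_iff (two_ne_zero) |>.1 h4
      exact norm_eq_zero.1 this
    exact hy (Prod.ext h5 h3)
  have h2 : max y.2 0 < 1 := max_lt h1 one_pos
  have h3 : 0 ≤ max y.2 0 := le_max_right _ _
  nlinarith

theorem norm_bbf_sq {y : ℂ × ℝ} (h : ‖y.1‖ ^ 2 + y.2 ^ 2 = 1) (hy : y ≠ (0, 1)) :
    ‖bbf y‖ ^ 2 = max y.2 0 ^ 2 := by
  have hp := alf_pos h hy
  unfold bbf
  rw [norm_mul, norm_neg, Complex.norm_real, mul_pow, Real.norm_eq_abs, sq_abs, div_pow]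
  rcases le_total 0 y.2 with hs | hs
  · have h2 : ‖y.1‖ ^ 2 = alf y ^ 2 := by
      rw [alf_sq h, max_eq_left hs]; linarith
    rw [h2]
    field_simp
  · rw [max_eq_right hs]
    simp

theorem bb_al {y : ℂ × ℝ} (h : ‖y.1‖ ^ 2 + y.2 ^ 2 = 1) (hy : y ≠ (0, 1)) :
    ‖bbf y‖ ^ 2 + alf y ^ 2 = 1 := by
  rw [norm_bbf_sq h hy, alf_sq h]; ring

theorem bb_al' {y : ℂ × ℝ} (h : ‖y.1‖ ^ 2 + y.2 ^ 2 = 1) (hy : y ≠ (0, 1)) :
    bbf y * conj (bbf y) + (alf y : ℂ) * (alf y : ℂ) = 1 := by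
  rw [Complex.mul_conj', ← pow_two]
  exact_mod_cast bb_al h hy

theorem bbf_zero {y : ℂ × ℝ} (hs : y.2 ≤ 0) : bbf y = 0 := by
  unfold bbf
  rw [max_eq_right hs]
  simp

theorem al_bb {y : ℂ × ℝ} (h : ‖y.1‖ ^ 2 + y.2 ^ 2 = 1) (hy : y ≠ (0, 1)) (hs : 0 ≤ y.2) :
    (alf y : ℂ) * bbf y = - ((y.2 : ℂ) * y.1) := by
  have hp := alf_pos h hy
  have hp' : (alf y : ℂ) ≠ 0 := by exact_mod_cast hp.ne'
  unfold bbf
  rw [max_eq_left hs, Complex.ofReal_div]
  field_simp

theorem zz_al {y : ℂ × ℝ} (h : ‖y.1‖ ^ 2 + y.2 ^ 2 = 1) (hs : 0 ≤ y.2) :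
    y.1 * conj y.1 = (alf y : ℂ) ^ 2 := by
  have h2 : ‖y.1‖ ^ 2 = alf y ^ 2 := by
    rw [alf_sq h, max_eq_left hs]; linarith
  rw [Complex.mul_conj']
  exact_mod_cast h2

theorem bb_line {y : ℂ × ℝ} (h : ‖y.1‖ ^ 2 + y.2 ^ 2 = 1) (hy : y ≠ (0, 1)) (hs : 0 ≤ y.2) :
    (alf y : ℂ) * (y.2 : ℂ) + bbf y * conj y.1 = 0 := by
  have hp := alf_pos h hy
  have hp' : (alf y : ℂ) ≠ 0 := by exact_mod_cast hp.ne'
  apply mul_left_cancel₀ hp'
  have h1 := al_bb h hy hs
  have h2 := zz_al h hs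
  calc (alf y : ℂ) * ((alf y : ℂ) * (y.2 : ℂ) + bbf y * conj y.1)
      = (alf y : ℂ) ^ 2 * (y.2 : ℂ) + ((alf y : ℂ) * bbf y) * conj y.1 := by ring
    _ = (alf y : ℂ) ^ 2 * (y.2 : ℂ) - (y.2 : ℂ) * (y.1 * conj y.1) := by rw [h1]; ring
    _ = (alf y : ℂ) * 0 := by rw [h2]; ring

theorem bb_key {y : ℂ × ℝ} (h : ‖y.1‖ ^ 2 + y.2 ^ 2 = 1) (hy : y ≠ (0, 1)) {α b : ℂ}
    (h1 : 0 ≤ y.2 → α * (y.2 : ℂ) + b * conj y.1 = 0) (h2 : y.2 ≤ 0 → b = 0) :
    b * (alf y : ℂ) = α * bbf y := by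
  have hp := alf_pos h hy
  have hp' : (alf y : ℂ) ≠ 0 := by exact_mod_cast hp.ne'
  rcases le_total 0 y.2 with hs | hs
  · apply mul_left_cancel₀ hp'
    have h3 := al_bb h hy hs
    have h4 := zz_al h hs
    have h5 := h1 hs
    calc (alf y : ℂ) * (b * (alf y : ℂ)) = b * (alf y : ℂ) ^ 2 := by ring
      _ = (b * conj y.1) * y.1 := by rw [← h4]; ring
      _ = (- (α * (y.2 : ℂ))) * y.1 := by
          rw [eq_neg_of_add_eq_zero_right h5]
      _ = α * (- ((y.2 : ℂ) * y.1)) := by ring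
      _ = (alf y : ℂ) * (α * bbf y) := by rw [← h3]; ring
  · rw [h2 hs, bbf_zero hs]; simp

theorem bb_b {y : ℂ × ℝ} (h : ‖y.1‖ ^ 2 + y.2 ^ 2 = 1) (hy : y ≠ (0, 1)) {α b : ℂ}
    (h1 : 0 ≤ y.2 → α * (y.2 : ℂ) + b * conj y.1 = 0) (h2 : y.2 ≤ 0 → b = 0) :
    (b * conj (bbf y) + α * (alf y : ℂ)) * bbf y = b := by
  have h3 := bb_key h hy h1 h2
  have h4 := bb_al' h hy
  calc (b * conj (bbf y) + α * (alf y : ℂ)) * bbf y
      = b * (bbf y * conj (bbf y)) + (α * bbf y) * (alf y : ℂ) := by ring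
    _ = b * (bbf y * conj (bbf y)) + (b * (alf y : ℂ)) * (alf y : ℂ) := by rw [h3]
    _ = b * (bbf y * conj (bbf y) + (alf y : ℂ) * (alf y : ℂ)) := by ring
    _ = b := by rw [h4, mul_one]

theorem bb_a {y : ℂ × ℝ} (h : ‖y.1‖ ^ 2 + y.2 ^ 2 = 1) (hy : y ≠ (0, 1)) {α b : ℂ}
    (h1 : 0 ≤ y.2 → α * (y.2 : ℂ) + b * conj y.1 = 0) (h2 : y.2 ≤ 0 → b = 0) :
    (b * conj (bbf y) + α * (alf y : ℂ)) * (alf y : ℂ) = α := by
  have h3 := bb_key h hy h1 h2
  have h4 := bb_al' h hy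
  calc (b * conj (bbf y) + α * (alf y : ℂ)) * (alf y : ℂ)
      = (b * (alf y : ℂ)) * conj (bbf y) + α * ((alf y : ℂ) * (alf y : ℂ)) := by ring
    _ = (α * bbf y) * conj (bbf y) + α * ((alf y : ℂ) * (alf y : ℂ)) := by rw [h3]
    _ = α * (bbf y * conj (bbf y) + (alf y : ℂ) * (alf y : ℂ)) := by ring
    _ = α := by rw [h4, mul_one]

theorem sq_add_cm {n : ℕ} (a w : Fin n → Hq) (hw : sq w = 1) (c : ℂ) :
    sq (a + cm c w) = sq a + ‖herm a w + c‖ ^ 2 - ‖herm a w‖ ^ 2 := by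
  rw [sq_add, sq_cm, hw, herm_cm_right, Complex.sq_norm, Complex.sq_norm, Complex.sq_norm,
    Complex.normSq_apply, Complex.normSq_apply, Complex.normSq_apply]
  simp only [Complex.mul_re, Complex.conj_re, Complex.conj_im, Complex.add_re, Complex.add_im]
  ring

theorem herm_add_cm {n : ℕ} (a w : Fin n → Hq) (hw : sq w = 1) (c : ℂ) :
    herm (a + cm c w) w = herm a w + c := by
  rw [herm_add_left, herm_cm_left, herm_self, hw]
  simp

/-- the coefficient -/
def zt (x : AM) : ℂ := x.2.2.2 * conj (bbf x.2.1) + herm x.2.2.1 x.1 * (alf x.2.1 : ℂ)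

/-- the unit vector `u` -/
def uu (x : AM) : Fin 3 → Hq := x.2.2.1 + cm (zt x - herm x.2.2.1 x.1) x.1

theorem herm_uu {x : AM} (hx : IsMpt x) : herm (uu x) x.1 = zt x := by
  unfold uu
  rw [herm_add_cm _ _ hx.1]
  ring

theorem zt_al {x : AM} (hx : IsMpt x) (hy : x.2.1 ≠ (0, 1)) :
    zt x * (alf x.2.1 : ℂ) = herm x.2.2.1 x.1 := by
  obtain ⟨h1, h2, h3, h4, h5⟩ := hx
  exact bb_a h2 hy h4 h5

theorem zt_bb {x : AM} (hx : IsMpt x) (hy : x.2.1 ≠ (0, 1)) :
    zt x * bbf x.2.1 = x.2.2.2 := by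
  obtain ⟨h1, h2, h3, h4, h5⟩ := hx
  exact bb_b h2 hy h4 h5

theorem sq_uu {x : AM} (hx : IsMpt x) (hy : x.2.1 ≠ (0, 1)) : sq (uu x) = 1 := by
  have e1 := zt_al hx hy
  have e2 := zt_bb hx hy
  obtain ⟨h1, h2, h3, h4, h5⟩ := hx
  unfold uu
  rw [sq_add_cm _ _ h1]
  have e3 : herm x.2.2.1 x.1 + (zt x - herm x.2.2.1 x.1) = zt x := by ring
  rw [e3, ← e1, norm_mul, Complex.norm_real, Real.norm_eq_abs, mul_pow, sq_abs]
  have e4 : ‖x.2.2.2‖ ^ 2 = ‖zt x‖ ^ 2 * ‖bbf x.2.1‖ ^ 2 := by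
    rw [← mul_pow, ← norm_mul, e2]
  have e5 := bb_al h2 hy
  have e6 : ‖bbf x.2.1‖ ^ 2 = 1 - alf x.2.1 ^ 2 := by linarith
  rw [e4, e6] at h3
  linarith

/-- the inverse map -/
def back (u w : Fin 3 → Hq) (y : ℂ × ℝ) : AM :=
  (w, y, (u + cm (herm u w * (alf y : ℂ) - herm u w) w, herm u w * bbf y))

theorem herm_back (u w : Fin 3 → Hq) (y : ℂ × ℝ) (hw : sq w = 1) :
    herm (back u w y).2.2.1 w = herm u w * (alf y : ℂ) := by
  show herm (u + cm (herm u w * (alf y : ℂ) - herm u w) w) w = _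
  rw [herm_add_cm _ _ hw]
  ring

theorem isMpt_back {u w : Fin 3 → Hq} {y : ℂ × ℝ} (hu : sq u = 1) (hw : sq w = 1)
    (h : ‖y.1‖ ^ 2 + y.2 ^ 2 = 1) (hy : y ≠ (0, 1)) : IsMpt (back u w y) := by
  refine ⟨hw, h, ?_, ?_, ?_⟩
  · show sq (u + cm (herm u w * (alf y : ℂ) - herm u w) w) + ‖herm u w * bbf y‖ ^ 2 = 1
    rw [sq_add_cm _ _ hw]
    have e3 : herm u w + (herm u w * (alf y : ℂ) - herm u w) = herm u w * (alf y : ℂ) := by ring
    rw [e3, norm_mul, norm_mul, Complex.norm_real, Real.norm_eq_abs, mul_pow, mul_pow, sq_abs, hu]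
    have e5 := bb_al h hy
    have e6 : ‖bbf y‖ ^ 2 = 1 - alf y ^ 2 := by linarith
    rw [e6]
    ring
  · intro hs
    show herm (back u w y).2.2.1 w * (y.2 : ℂ) + (herm u w * bbf y) * conj y.1 = 0
    rw [herm_back _ _ _ hw]
    have := bb_line h hy hs
    calc herm u w * (alf y : ℂ) * (y.2 : ℂ) + (herm u w * bbf y) * conj y.1
        = herm u w * ((alf y : ℂ) * (y.2 : ℂ) + bbf y * conj y.1) := by ring
      _ = 0 := by rw [this, mul_zero]
  · intro hs
    have hs' : y.2 ≤ 0 := hs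
    show herm u w * bbf y = 0
    rw [bbf_zero hs', mul_zero]

theorem zt_back {u w : Fin 3 → Hq} {y : ℂ × ℝ} (hw : sq w = 1)
    (h : ‖y.1‖ ^ 2 + y.2 ^ 2 = 1) (hy : y ≠ (0, 1)) : zt (back u w y) = herm u w := by
  show (herm u w * bbf y) * conj (bbf y) + herm (back u w y).2.2.1 w * (alf y : ℂ) = herm u w
  rw [herm_back _ _ _ hw]
  have := bb_al' h hy
  calc (herm u w * bbf y) * conj (bbf y) + herm u w * (alf y : ℂ) * (alf y : ℂ)
      = herm u w * (bbf y * conj (bbf y) + (alf y : ℂ) * (alf y : ℂ)) := by ring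
    _ = herm u w := by rw [this, mul_one]

theorem uu_back {u w : Fin 3 → Hq} {y : ℂ × ℝ} (hw : sq w = 1)
    (h : ‖y.1‖ ^ 2 + y.2 ^ 2 = 1) (hy : y ≠ (0, 1)) : uu (back u w y) = u := by
  show (back u w y).2.2.1 + cm (zt (back u w y) - herm (back u w y).2.2.1 w) w = u
  rw [zt_back hw h hy, herm_back _ _ _ hw]
  show u + cm (herm u w * (alf y : ℂ) - herm u w) w +
    cm (herm u w - herm u w * (alf y : ℂ)) w = u
  rw [add_assoc, ← cm_add]
  have : herm u w * (alf y : ℂ) - herm u w + (herm u w - herm u w * (alf y : ℂ)) = 0 := by ring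
  rw [this, cm_zero, add_zero]

theorem back_uu {x : AM} (hx : IsMpt x) (hy : x.2.1 ≠ (0, 1)) :
    back (uu x) x.1 x.2.1 = x := by
  have e1 := zt_al hx hy
  have e2 := zt_bb hx hy
  unfold back
  rw [herm_uu hx, e1, e2]
  have e3 : uu x + cm (herm x.2.2.1 x.1 - zt x) x.1 = x.2.2.1 := by
    unfold uu
    rw [add_assoc, ← cm_add]
    have : zt x - herm x.2.2.1 x.1 + (herm x.2.2.1 x.1 - zt x) = 0 := by ring
    rw [this, cm_zero, add_zero]
  rw [e3]

theorem mem_AMs (x : XM) : mk x ∈ AMs ↔ x.1.2.1 ≠ (0, 1) := by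
  constructor
  · rintro ⟨y, hy, hy2⟩
    obtain ⟨g, rfl⟩ := mk_eq_iff.1 hy
    exact hy2
  · intro h
    exact ⟨x, rfl, h⟩

theorem isOpen_AMs : IsOpen AMs := by
  have h : AMs = mk '' {x : XM | x.1.2.1 ≠ (0, 1)} := by
    ext p
    constructor
    · rintro ⟨x, rfl, hx⟩
      exact ⟨x, hx, rfl⟩
    · rintro ⟨x, hx, rfl⟩
      exact ⟨x, rfl, hx⟩
  rw [h]
  apply isOpenMap_mk
  have hc : Continuous fun x : XM => x.1.2.1 :=
    continuous_fst.comp (continuous_snd.comp continuous_subtype_val)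
  exact isOpen_ne_fun hc continuous_const

/-- the punctured sphere -/
abbrev Yp : Type := {y : Y2 // y.1 ≠ (0, 1)}

/-- the preimage of `AMs` -/
abbrev PP : Type := ↥((mk : XM → MM) ⁻¹' AMs)

theorem PP_ne (x : PP) : x.1.1.2.1 ≠ (0, 1) := (mem_AMs x.1).1 x.2

theorem continuous_alf : Continuous alf := by
  unfold alf
  fun_prop

theorem continuous_bbf {X : Type} [TopologicalSpace X] {f : X → ℂ × ℝ} (hf : Continuous f)
    (h : ∀ x, 0 < alf (f x)) : Continuous fun x => bbf (f x) := by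
  unfold bbf
  refine Continuous.mul ?_ (continuous_fst.comp hf)
  refine Continuous.neg (Complex.continuous_ofReal.comp ?_)
  exact ((continuous_snd.comp hf).max continuous_const).div (continuous_alf.comp hf)
    fun x => (h x).ne'

/-- upstairs, forward -/
def fw (x : PP) : (SH 3 × SH 3) × Yp :=
  ((⟨uu x.1.1, sq_uu x.1.2 (PP_ne x)⟩, ⟨x.1.1.1, x.1.2.1⟩), ⟨⟨x.1.1.2.1, x.1.2.2.1⟩, PP_ne x⟩)

theorem continuous_fw : Continuous fw := by
  have h0 : Continuous fun x : PP => x.1.1 := continuous_subtype_val.comp continuous_subtype_val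
  have hw : Continuous fun x : PP => x.1.1.1 := continuous_fst.comp h0
  have hy : Continuous fun x : PP => x.1.1.2.1 := continuous_fst.comp (continuous_snd.comp h0)
  have ha : Continuous fun x : PP => x.1.1.2.2.1 :=
    continuous_fst.comp (continuous_snd.comp (continuous_snd.comp h0))
  have hb : Continuous fun x : PP => x.1.1.2.2.2 :=
    continuous_snd.comp (continuous_snd.comp (continuous_snd.comp h0))
  have hbb : Continuous fun x : PP => bbf x.1.1.2.1 :=
    continuous_bbf hy fun x => alf_pos x.1.2.2.1 (PP_ne x)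
  have hal : Continuous fun x : PP => (alf x.1.1.2.1 : ℂ) :=
    Complex.continuous_ofReal.comp (continuous_alf.comp hy)
  have hz : Continuous fun x : PP => zt x.1.1 :=
    (hb.mul (Complex.continuous_conj.comp hbb)).add ((continuous_herm ha hw).mul hal)
  have hu : Continuous fun x : PP => uu x.1.1 :=
    ha.add (continuous_cm (hz.sub (continuous_herm ha hw)) hw)
  exact ((Continuous.subtype_mk hu _).prodMk (Continuous.subtype_mk hw _)).prodMk
    (Continuous.subtype_mk (Continuous.subtype_mk hy _) _)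

/-- upstairs, backward -/
def bk (q : (SH 3 × SH 3) × Yp) : XM :=
  ⟨back q.1.1.1 q.1.2.1 q.2.1.1, isMpt_back q.1.1.2 q.1.2.2 q.2.1.2 q.2.2⟩

theorem bk_mem (q : (SH 3 × SH 3) × Yp) : mk (bk q) ∈ AMs := (mem_AMs _).2 q.2.2

theorem continuous_bk : Continuous bk := by
  have hu : Continuous fun q : (SH 3 × SH 3) × Yp => q.1.1.1 :=
    continuous_subtype_val.comp (continuous_fst.comp continuous_fst)
  have hw : Continuous fun q : (SH 3 × SH 3) × Yp => q.1.2.1 :=
    continuous_subtype_val.comp (continuous_snd.comp continuous_fst)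
  have hy0 : Continuous fun y : Y2 => y.1 := continuous_subtype_val
  have hy1 : Continuous fun q : (SH 3 × SH 3) × Yp => q.2.1 :=
    continuous_subtype_val.comp continuous_snd
  have hy : Continuous fun q : (SH 3 × SH 3) × Yp => q.2.1.1 := hy0.comp hy1
  have hbb : Continuous fun q : (SH 3 × SH 3) × Yp => bbf q.2.1.1 :=
    continuous_bbf hy fun q => alf_pos q.2.1.2 q.2.2
  have hal : Continuous fun q : (SH 3 × SH 3) × Yp => (alf q.2.1.1 : ℂ) :=
    Complex.continuous_ofReal.comp (continuous_alf.comp hy)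
  have hh := continuous_herm hu hw
  refine Continuous.subtype_mk ?_ _
  exact hw.prodMk (hy.prodMk ((hu.add (continuous_cm ((hh.mul hal).sub hh) hw)).prodMk
    (hh.mul hbb)))

theorem uu_act (x : XM) (g : Sp1) : uu (act x g).1 = vm (uu x.1) g := by
  have h1 : herm (vm x.1.2.2.1 g) (vm x.1.1 g) = herm x.1.2.2.1 x.1.1 := herm_vm _ _ g
  show vm x.1.2.2.1 g + cm (x.1.2.2.2 * conj (bbf x.1.2.1) +
    herm (vm x.1.2.2.1 g) (vm x.1.1 g) * (alf x.1.2.1 : ℂ) -
    herm (vm x.1.2.2.1 g) (vm x.1.1 g)) (vm x.1.1 g) = vm (uu x.1) g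
  rw [h1]
  unfold uu
  rw [vm_add, vm_cm]
  rfl

theorem bk_act (u w : SH 3) (y : Yp) (g : Sp1) :
    bk ((act u g, act w g), y) = act (bk ((u, w), y)) g := by
  have h1 : herm (vm u.1 g) (vm w.1 g) = herm u.1 w.1 := herm_vm _ _ g
  apply Subtype.ext
  show (vm w.1 g, y.1.1, (vm u.1 g + cm (herm (vm u.1 g) (vm w.1 g) * (alf y.1.1 : ℂ) -
      herm (vm u.1 g) (vm w.1 g)) (vm w.1 g), herm (vm u.1 g) (vm w.1 g) * bbf y.1.1)) =
    (vm w.1 g, y.1.1, (vm (u.1 + cm (herm u.1 w.1 * (alf y.1.1 : ℂ) - herm u.1 w.1) w.1) g,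
      herm u.1 w.1 * bbf y.1.1))
  rw [h1, vm_add, vm_cm]

/-- the projection upstairs, first space -/
def pr1 : C(PP, ↥AMs) := ⟨Set.restrictPreimage AMs mk, continuous_mk.restrictPreimage⟩

/-- the projection upstairs, second space -/
def pr2 : C((SH 3 × SH 3) × Yp, VV × Yp) :=
  ⟨Prod.map mk id, continuous_mk.prodMap continuous_id⟩

theorem isQ1 : Topology.IsQuotientMap pr1 := isQuotientMap_mk.restrictPreimage_isOpen isOpen_AMs

theorem isQ2 : Topology.IsQuotientMap pr2 :=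
  (isOpenQuotientMap_mk.prodMap IsOpenQuotientMap.id).isQuotientMap

/-- forward, composed with the projection -/
def F1 : C(PP, VV × Yp) := pr2.comp ⟨fw, continuous_fw⟩

/-- backward, composed with the projection -/
def F2 : C((SH 3 × SH 3) × Yp, ↥AMs) :=
  ⟨fun q => ⟨mk (bk q), bk_mem q⟩, Continuous.subtype_mk (continuous_mk.comp continuous_bk) _⟩

theorem F1_fac : Function.FactorsThrough F1 pr1 := by
  intro x x' hxx
  have h1 : mk x.1 = mk x'.1 := congrArg Subtype.val hxx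
  obtain ⟨g, hg⟩ := mk_eq_iff.1 h1
  have hy : x'.1.1.2.1 = x.1.1.2.1 := by rw [hg]; rfl
  have hw : x'.1.1.1 = vm x.1.1.1 g := by rw [hg]; rfl
  have hu : uu x'.1.1 = vm (uu x.1.1) g := by rw [hg]; exact uu_act x.1 g
  refine Prod.ext ?_ (Subtype.ext (Subtype.ext hy.symm))
  refine mk_eq_iff.2 ⟨g, ?_⟩
  exact Prod.ext (Subtype.ext hu) (Subtype.ext hw)

theorem F2_fac : Function.FactorsThrough F2 pr2 := by
  rintro ⟨⟨u, w⟩, y⟩ ⟨⟨u', w'⟩, y'⟩ h
  have h1 : mk (u, w) = mk (u', w') := congrArg Prod.fst h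
  have h2 : y = y' := congrArg Prod.snd h
  subst h2
  obtain ⟨g, hg⟩ := mk_eq_iff.1 h1
  have hu : u' = act u g := congrArg Prod.fst hg
  have hw : w' = act w g := congrArg Prod.snd hg
  subst hu
  subst hw
  apply Subtype.ext
  show mk (bk ((u, w), y)) = mk (bk ((act u g, act w g), y))
  rw [bk_act, mk_act]

/-- forward -/
def G1 : C(↥AMs, VV × Yp) := isQ1.lift F1 F1_fac

/-- backward -/
def G2 : C(VV × Yp, ↥AMs) := isQ2.lift F2 F2_fac

theorem G1_pr (x : PP) : G1 (pr1 x) = F1 x := DFunLike.congr_fun (isQ1.lift_comp F1 F1_fac) x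

theorem G2_pr (q : (SH 3 × SH 3) × Yp) : G2 (pr2 q) = F2 q :=
  DFunLike.congr_fun (isQ2.lift_comp F2 F2_fac) q

theorem bk_fw (x : PP) : bk (fw x) = x.1 := Subtype.ext (back_uu x.1.2 (PP_ne x))

theorem fw_bk (q : (SH 3 × SH 3) × Yp) : fw ⟨bk q, bk_mem q⟩ = q :=
  Prod.ext (Prod.ext (Subtype.ext (uu_back q.1.2.2 q.2.1.2 q.2.2)) rfl) rfl

/-- the homeomorphism -/
def EE : ↥AMs ≃ₜ VV × Yp where
  toFun := G1
  invFun := G2
  left_inv := by
    intro p
    obtain ⟨x, rfl⟩ := isQ1.surjective p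
    rw [G1_pr]
    show G2 (pr2 (fw x)) = pr1 x
    rw [G2_pr]
    apply Subtype.ext
    show mk (bk (fw x)) = mk x.1
    rw [bk_fw]
  right_inv := by
    intro p
    obtain ⟨q, rfl⟩ := isQ2.surjective p
    rw [G2_pr]
    have h : F2 q = pr1 ⟨bk q, bk_mem q⟩ := rfl
    rw [h, G1_pr]
    show pr2 (fw ⟨bk q, bk_mem q⟩) = pr2 q
    rw [fw_bk]
  continuous_toFun := G1.continuous
  continuous_invFun := G2.continuous

end AMh_aux

open AMh_aux in
/-- TARGET -/
theorem AMh : S_AM := by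
  refine ⟨EE, fun x h => ?_⟩
  have h1 : EE ⟨mk x, h⟩ = F1 ⟨x, h⟩ := G1_pr ⟨x, h⟩
  rw [h1]
  rfl

end

end Pool.Agent.Helper965_Rud

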