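import Pool.Agent.Helper965_Rud.Stmts2

/-!
JOB ANhS (MP_89fcdb_gt, owner helper965; disproof of a conjecture of Rudyak).
Setup: git fetch in outputs/live, copy Pool/Agent/Helper965_Rud/*.lean from origin/main (and Pool/Agent/Helper534/LS/*.lean)
to the same paths under /workdir/pool/Pool/Agent/, then `lake build` the modules imported here. Check with `lake env lean <file>`.
Helper965_Rud: Defs, Alg (algebra lemmas: herm_*, sq_*, rm, cm, jm, cp, lc), Basic (XN, XM, compactness), Stmts, StmtsTop, Stmts2 (the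
propositions S_...). The hypotheses S_... of the target are proved by other jobs: just use them.
Return the WHOLE file with the target proved (no sorry, no axiom, no native_decide; keep the name and the statement of the target).
Auxiliary lemmas: before the target, in the namespace ANhS_aux (open it before the target) or with names starting with ANhS_ .
Avoid straight double quotes and the words forbidden by RULES.md. If the statement is false or something is missing, say so in the note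
(status 'problem') with the reason. The final path of the file is Pool/Agent/Helper965_Rud/P_ANhS.lean .

PROOF. UU = Orb (DH × SH 3), points [c,u] with c in the open unit ball of ℍ³ and u in the unit sphere. A point of ANs is [(a,b),(c,z)] with z ≠ 0. Put ρ = |z| > 0, e = z/|z| in Circle; sq c + ρ^2 = 1. The vectors p = (0,e) and w = (c,z) of ℍ³ ⊕ ℂ are unit vectors
with hermitian product <w,p> = z conj e = ρ. For v = (a,b) orthogonal to w put q = v - (<v,p>/(1+ρ)) (p + w), <v,p> = b conj e =: κ; q = (u, 0) with u = a - (κ/(1+ρ)) c (cm) (the ℂ component of q is b - κ/(1+ρ) (e + z) = b - κ e = 0 since e + z = (1+ρ) e, κ e = b).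
So u = a - (b conj e/(1+ρ)) c, a unit vector: |q|^2 = |v|^2 - 2 Re(conj λ <v,p+w>) + |λ|^2 |p+w|^2 with λ = κ/(1+ρ), <v,p+w> = κ, |p+w|^2 = 2(1+ρ), gives 1. Forward map: [(a,b),(c,z)] ↦ ([c,u], e).
Backward: ([c,u],e) ↦ [(a,b),(c,z)], ρ = sqrt(1 - sq c) > 0, z = ρ e, with q = (u,0), η = <q,w> = herm u c, v = q - (η/(1+ρ))(p+w): a = u - (η/(1+ρ)) c, b = -(η/(1+ρ)) (e + ρ e) = -η e. Check: <v,w> = η - η/(1+ρ) (ρ + 1) = 0, |v| = 1, and the maps are inverse:
from (u,c,e): κ = b conj e = -η, a - (κ/(1+ρ)) c = u. From (a,b,c,z): η = herm u c = herm a c - κ/(1+ρ) sq c = -b conj z - κ(1-ρ) = -κ ρ - κ (1-ρ) = -κ (as b conj z = κ ρ, sq c = 1-ρ^2), so u - η/(1+ρ) c = a and -η e = κ e = b.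
Everything is equivariant upstairs (herm_vm, sq_vm, the ℂ components are not moved): build an equivariant homeomorphism upstairs and pass to quotients: mk restricted to the preimage of the open set ANs is an open quotient map onto ANs, and
mk × id is an open quotient map (IsOpenQuotientMap.prodMap).
-/

set_option autoImplicit false

namespace Pool.Agent.Helper965_Rud

open scoped ComplexConjugate unitInterval
open Pool.Agent.Helper534.LS (HH hmap sub inl inr delta)

noncomputable section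

namespace ANhS_aux

/-- the frames with nonzero last coordinate -/
abbrev XA : Type := {x : XN // x.1.2.2 ≠ 0}

/-- the product upstairs -/
abbrev PB : Type := (DH × SH 3) × Circle

theorem cont_coe : Continuous fun e : Circle => (e : ℂ) :=
  (continuous_subtype_val : Continuous (Subtype.val : ↥(Submonoid.unitSphere ℂ) → ℂ))

theorem circle_mul_conj (e : Circle) : (e : ℂ) * conj (e : ℂ) = 1 := by
  rw [Complex.mul_conj, Complex.normSq_eq_norm_sq, Circle.norm_coe]; simp

theorem sq_sub_cm (a c : Fin 3 → Hq) (l : ℂ) :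
    sq (a - cm l c) = sq a - 2 * (conj l * herm a c).re + ‖l‖ ^ 2 * sq c := by
  have h : a - cm l c = a + cm (-l) c := by rw [cm_neg]; abel
  rw [h, sq_add, sq_cm, herm_cm_right, norm_neg]
  simp only [map_neg, neg_mul, Complex.neg_re]
  ring

/-! ### Forward -/

theorem norm_pos_of (x : XA) : 0 < ‖x.1.1.2.2‖ := norm_pos_iff.2 x.2

/-- the unit complex number -/
def fe (x : XA) : Circle := ⟨x.1.1.2.2 / (‖x.1.1.2.2‖ : ℂ), by
  refine mem_sphere_zero_iff_norm.2 ?_
  rw [norm_div, Complex.norm_real, norm_norm]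
  exact div_self (norm_pos_of x).ne'⟩

theorem fe_coe (x : XA) : (fe x : ℂ) = x.1.1.2.2 / (‖x.1.1.2.2‖ : ℂ) := rfl

theorem norm_mul_fe (x : XA) : (‖x.1.1.2.2‖ : ℂ) * (fe x : ℂ) = x.1.1.2.2 := by
  rw [fe_coe]
  have h : (‖x.1.1.2.2‖ : ℂ) ≠ 0 := by exact_mod_cast (norm_pos_of x).ne'
  field_simp

/-- the complex number `κ` -/
def fk (x : XA) : ℂ := x.1.1.1.2 * conj (fe x : ℂ)

theorem norm_fk (x : XA) : ‖fk x‖ = ‖x.1.1.1.2‖ := by
  rw [fk, norm_mul, RCLike.norm_conj, Circle.norm_coe, mul_one]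

theorem fk_mul_fe (x : XA) : fk x * (fe x : ℂ) = x.1.1.1.2 := by
  rw [fk, mul_assoc, mul_comm (conj _) _, circle_mul_conj, mul_one]

theorem herm_eq (x : XA) : herm x.1.1.1.1 x.1.1.2.1 = - fk x * (‖x.1.1.2.2‖ : ℂ) := by
  obtain ⟨-, -, h3⟩ := x.1.2
  have h : conj x.1.1.2.2 = (‖x.1.1.2.2‖ : ℂ) * conj (fe x : ℂ) := by
    conv_lhs => rw [← norm_mul_fe x]
    rw [map_mul, Complex.conj_ofReal]
  rw [h] at h3
  rw [fk]
  linear_combination h3

/-- the coefficient -/
def fl (x : XA) : ℂ := fk x / (1 + (‖x.1.1.2.2‖ : ℂ))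

theorem one_add_ne {r : ℝ} (h : 0 ≤ r) : (1 + (r : ℂ)) ≠ 0 := by
  have : ((1 + r : ℝ) : ℂ) ≠ 0 := Complex.ofReal_ne_zero.2 (by positivity)
  simpa using this

/-- the vector `u` -/
def fu (x : XA) : Fin 3 → Hq := x.1.1.1.1 - cm (fl x) x.1.1.2.1

theorem sq_c_of (x : XA) : sq x.1.1.2.1 = 1 - ‖x.1.1.2.2‖ ^ 2 := by
  obtain ⟨-, h2, -⟩ := x.1.2
  linarith

theorem coef_id (k : ℂ) (r : ℝ) (hr : 0 ≤ r) :
    conj (k / (1 + (r : ℂ))) * k = ((‖k‖ ^ 2 / (1 + r) : ℝ) : ℂ) := by
  have h1 := one_add_ne hr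
  rw [map_div₀, map_add, map_one, Complex.conj_ofReal]
  have h2 : conj k * k = ((‖k‖ ^ 2 : ℝ) : ℂ) := by
    rw [mul_comm, Complex.mul_conj, Complex.normSq_eq_norm_sq]
  rw [div_mul_eq_mul_div, h2]
  push_cast
  ring

theorem coef_norm (k : ℂ) (r : ℝ) :
    ‖k / (1 + (r : ℂ))‖ ^ 2 = ‖k‖ ^ 2 / (1 + r) ^ 2 := by
  have h : (1 + (r : ℂ)) = ((1 + r : ℝ) : ℂ) := by push_cast; ring
  rw [h, norm_div, Complex.norm_real, Real.norm_eq_abs, div_pow, sq_abs]

theorem sq_fu (x : XA) : sq (fu x) = 1 := by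
  have hr := (norm_pos_of x).le
  rw [fu, sq_sub_cm, herm_eq, sq_c_of]
  have h1 : conj (fl x) * (- fk x * (‖x.1.1.2.2‖ : ℂ)) =
      ((- (‖fk x‖ ^ 2 / (1 + ‖x.1.1.2.2‖) * ‖x.1.1.2.2‖) : ℝ) : ℂ) := by
    have := coef_id (fk x) ‖x.1.1.2.2‖ hr
    rw [← fl] at this
    push_cast at this ⊢
    linear_combination (-(‖x.1.1.2.2‖ : ℂ)) * this
  rw [h1, Complex.ofReal_re, fl, coef_norm, norm_fk]
  obtain ⟨h2, -, -⟩ := x.1.2
  have hp : (1 + ‖x.1.1.2.2‖) ≠ 0 := by positivity
  have h3 : sq x.1.1.1.1 = 1 - ‖x.1.1.1.2‖ ^ 2 := by linarith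
  rw [h3]
  field_simp
  ring

theorem sq_c_lt (x : XA) : sq x.1.1.2.1 < 1 := by
  have := sq_c_of x
  have h := norm_pos_of x
  nlinarith

/-- forward map -/
def FF (x : XA) : PB := ((⟨x.1.1.2.1, sq_c_lt x⟩, ⟨fu x, sq_fu x⟩), fe x)

theorem cont_c : Continuous fun x : XA => x.1.1.2.1 := continuous_frame_c.comp continuous_subtype_val
theorem cont_a : Continuous fun x : XA => x.1.1.1.1 := continuous_frame_a.comp continuous_subtype_val
theorem cont_z : Continuous fun x : XA => x.1.1.2.2 :=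
  continuous_snd.comp (continuous_snd.comp (continuous_subtype_val.comp continuous_subtype_val))
theorem cont_b : Continuous fun x : XA => x.1.1.1.2 :=
  continuous_snd.comp (continuous_fst.comp (continuous_subtype_val.comp continuous_subtype_val))

theorem cont_nz : Continuous fun x : XA => (‖x.1.1.2.2‖ : ℂ) :=
  Complex.continuous_ofReal.comp cont_z.norm

theorem cont_fe : Continuous fe := by
  refine Continuous.subtype_mk ?_ _
  refine cont_z.div cont_nz fun x => ?_
  exact_mod_cast (norm_pos_of x).ne'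

theorem cont_fk : Continuous fk :=
  cont_b.mul (Complex.continuous_conj.comp (cont_coe.comp cont_fe))

theorem cont_fl : Continuous fl :=
  cont_fk.div (continuous_const.add cont_nz) fun x => one_add_ne (norm_pos_of x).le

theorem cont_fu : Continuous fu := cont_a.sub (continuous_cm cont_fl cont_c)

theorem cont_FF : Continuous FF :=
  ((Continuous.subtype_mk cont_c _).prodMk (Continuous.subtype_mk cont_fu _)).prodMk cont_fe

/-! ### Backward -/

/-- the radius -/
def br (p : PB) : ℝ := Real.sqrt (1 - sq p.1.1.1)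

theorem br_pos (p : PB) : 0 < br p := Real.sqrt_pos.2 (by have := p.1.1.2; linarith)

theorem br_sq (p : PB) : br p ^ 2 = 1 - sq p.1.1.1 :=
  Real.sq_sqrt (by have := p.1.1.2; linarith)

/-- the number `η` -/
def bh (p : PB) : ℂ := herm p.1.2.1 p.1.1.1

/-- the coefficient -/
def bl (p : PB) : ℂ := bh p / (1 + (br p : ℂ))

/-- the backward map to the ambient space -/
def b0 (p : PB) : AN :=
  ((p.1.2.1 - cm (bl p) p.1.1.1, - bh p * (p.2 : ℂ)), (p.1.1.1, (br p : ℂ) * (p.2 : ℂ)))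

theorem norm_bz (p : PB) : ‖(br p : ℂ) * (p.2 : ℂ)‖ = br p := by
  rw [norm_mul, Complex.norm_real, Circle.norm_coe, mul_one, Real.norm_eq_abs,
    abs_of_pos (br_pos p)]

theorem b0_frame (p : PB) : IsFrame (b0 p) := by
  have hr := (br_pos p).le
  have hs := br_sq p
  have hu : sq p.1.2.1 = 1 := p.1.2.2
  have hp : (1 + br p) ≠ 0 := by positivity
  have hc : sq p.1.1.1 = 1 - br p ^ 2 := by linarith
  refine ⟨?_, ?_, ?_⟩
  · show sq (p.1.2.1 - cm (bl p) p.1.1.1) + ‖- bh p * (p.2 : ℂ)‖ ^ 2 = 1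
    rw [sq_sub_cm, norm_mul, Circle.norm_coe, norm_neg, mul_one, ← bh]
    have h1 : conj (bl p) * bh p = ((‖bh p‖ ^ 2 / (1 + br p) : ℝ) : ℂ) := coef_id (bh p) (br p) hr
    rw [h1, Complex.ofReal_re, bl, coef_norm, hu, hc]
    field_simp
    ring
  · show sq p.1.1.1 + ‖(br p : ℂ) * (p.2 : ℂ)‖ ^ 2 = 1
    rw [norm_bz, hc]; ring
  · show herm (p.1.2.1 - cm (bl p) p.1.1.1) p.1.1.1 +
      - bh p * (p.2 : ℂ) * conj ((br p : ℂ) * (p.2 : ℂ)) = 0
    rw [herm_sub_left, herm_cm_left, herm_self, hc, ← bh, bl, map_mul, Complex.conj_ofReal]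
    have h1 := circle_mul_conj p.2
    have h2 := one_add_ne hr
    push_cast
    have h3 : - bh p * (p.2 : ℂ) * ((br p : ℂ) * conj (p.2 : ℂ)) = - bh p * (br p : ℂ) := by
      linear_combination (- bh p * (br p : ℂ)) * h1
    rw [h3]
    field_simp
    ring

/-- backward map -/
def GG (p : PB) : XA := ⟨⟨b0 p, b0_frame p⟩, by
  show (br p : ℂ) * (p.2 : ℂ) ≠ 0
  rw [← norm_pos_iff, norm_bz]
  exact br_pos p⟩

theorem cont_pc : Continuous fun p : PB => p.1.1.1 :=
  continuous_subtype_val.comp (continuous_fst.comp continuous_fst)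
theorem cont_pu : Continuous fun p : PB => p.1.2.1 :=
  continuous_subtype_val.comp (continuous_snd.comp continuous_fst)
theorem cont_pe : Continuous fun p : PB => (p.2 : ℂ) := cont_coe.comp continuous_snd
theorem cont_br : Continuous br :=
  Real.continuous_sqrt.comp (continuous_const.sub (continuous_sq.comp cont_pc))
theorem cont_bh : Continuous bh := continuous_herm cont_pu cont_pc
theorem cont_bl : Continuous bl :=
  cont_bh.div (continuous_const.add (Complex.continuous_ofReal.comp cont_br))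
    fun p => one_add_ne (br_pos p).le

theorem cont_GG : Continuous GG := by
  refine Continuous.subtype_mk (Continuous.subtype_mk ?_ _) _
  exact ((cont_pu.sub (continuous_cm cont_bl cont_pc)).prodMk (cont_bh.neg.mul cont_pe)).prodMk
    (cont_pc.prodMk ((Complex.continuous_ofReal.comp cont_br).mul cont_pe))

/-! ### Inverse maps -/

theorem fe_GG (p : PB) : fe (GG p) = p.2 := by
  apply Circle.ext
  rw [fe_coe]
  show (br p : ℂ) * (p.2 : ℂ) / (‖(br p : ℂ) * (p.2 : ℂ)‖ : ℂ) = (p.2 : ℂ)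
  rw [norm_bz]
  have h : (br p : ℂ) ≠ 0 := by exact_mod_cast (br_pos p).ne'
  field_simp

theorem fk_GG (p : PB) : fk (GG p) = - bh p := by
  rw [fk, fe_GG]
  show - bh p * (p.2 : ℂ) * conj (p.2 : ℂ) = - bh p
  rw [mul_assoc, circle_mul_conj, mul_one]

theorem fl_GG (p : PB) : fl (GG p) = - bl p := by
  rw [fl, fk_GG, bl]
  show - bh p / (1 + (‖(br p : ℂ) * (p.2 : ℂ)‖ : ℂ)) = _
  rw [norm_bz, neg_div]

theorem FF_GG (p : PB) : FF (GG p) = p := by
  refine Prod.ext (Prod.ext (Subtype.ext rfl) (Subtype.ext ?_)) (fe_GG p)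
  show fu (GG p) = p.1.2.1
  rw [fu, fl_GG, cm_neg]
  show p.1.2.1 - cm (bl p) p.1.1.1 - - cm (bl p) p.1.1.1 = p.1.2.1
  abel

theorem br_FF (x : XA) : br (FF x) = ‖x.1.1.2.2‖ := by
  show Real.sqrt (1 - sq x.1.1.2.1) = _
  rw [sq_c_of]
  have : (1 : ℝ) - (1 - ‖x.1.1.2.2‖ ^ 2) = ‖x.1.1.2.2‖ ^ 2 := by ring
  rw [this, Real.sqrt_sq (norm_nonneg _)]

theorem bh_FF (x : XA) : bh (FF x) = - fk x := by
  show herm (fu x) x.1.1.2.1 = _
  rw [fu, herm_sub_left, herm_cm_left, herm_self, herm_eq, sq_c_of, fl]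
  have h := one_add_ne (norm_pos_of x).le
  push_cast
  field_simp
  ring

theorem bl_FF (x : XA) : bl (FF x) = - fl x := by
  rw [bl, bh_FF, br_FF, fl, neg_div]

theorem GG_FF (x : XA) : GG (FF x) = x := by
  refine Subtype.ext (Subtype.ext (Prod.ext (Prod.ext ?_ ?_) (Prod.ext rfl ?_)))
  · show fu x - cm (bl (FF x)) x.1.1.2.1 = x.1.1.1.1
    rw [bl_FF, cm_neg, fu]
    abel
  · show - bh (FF x) * (fe x : ℂ) = x.1.1.1.2
    rw [bh_FF, neg_neg, fk_mul_fe]
  · show (br (FF x) : ℂ) * (fe x : ℂ) = x.1.1.2.2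
    rw [br_FF, norm_mul_fe]

/-! ### Equivariance -/

/-- the action on the part upstairs -/
def actA (x : XA) (g : Sp1) : XA := ⟨act x.1 g, x.2⟩

theorem FF_act (x : XA) (g : Sp1) : FF (actA x g) = (act (FF x).1 g, (FF x).2) := by
  refine Prod.ext (Prod.ext (Subtype.ext rfl) (Subtype.ext ?_)) rfl
  show fu (actA x g) = vm (fu x) g
  rw [fu, fu, vm_sub, vm_cm]
  rfl

theorem GG_act (p : PB) (g : Sp1) : GG (act p.1 g, p.2) = actA (GG p) g := by
  have h := FF_act (GG p) g
  rw [FF_GG] at h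
  rw [← h, GG_FF]

/-! ### Quotients -/

/-- the quotient map to `A_N` -/
def qA (x : XA) : ↥ANs := ⟨mk x.1, x.1, rfl, x.2⟩

theorem qA_cont : Continuous qA := Continuous.subtype_mk (continuous_mk.comp continuous_subtype_val) _

theorem qA_surj : Function.Surjective qA := by
  rintro ⟨p, x, rfl, hx⟩
  exact ⟨⟨x, hx⟩, rfl⟩

theorem qA_open : IsOpenMap qA := by
  intro V hV
  have hX : IsOpen {x : XN | x.1.2.2 ≠ 0} := by
    have hc : Continuous fun x : XN => x.1.2.2 :=
      continuous_snd.comp (continuous_snd.comp continuous_subtype_val)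
    exact isOpen_ne_fun hc continuous_const
  have h1 : IsOpen ((Subtype.val : XA → XN) '' V) := hX.isOpenMap_subtype_val V hV
  have h2 : qA '' V = Subtype.val ⁻¹' (mk '' ((Subtype.val : XA → XN) '' V)) := by
    ext p
    constructor
    · rintro ⟨x, hx, rfl⟩
      exact ⟨x.1, ⟨x, hx, rfl⟩, rfl⟩
    · rintro ⟨_, ⟨x, hx, rfl⟩, h⟩
      exact ⟨x, hx, Subtype.ext h⟩
  rw [h2]
  exact (isOpenMap_mk _ h1).preimage continuous_subtype_val

theorem qA_quot : IsOpenQuotientMap qA := ⟨qA_surj, qA_cont, qA_open⟩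

/-- the quotient map to the product -/
def qB (p : PB) : UU × Circle := ((mk p.1 : UU), p.2)

theorem qB_quot : IsOpenQuotientMap qB :=
  (isOpenQuotientMap_mk (X := DH × SH 3)).prodMap (IsOpenQuotientMap.id (X := Circle))

theorem qA_eq {x y : XA} (h : qA x = qA y) : ∃ g : Sp1, y = actA x g := by
  have h1 : mk x.1 = mk y.1 := congrArg Subtype.val h
  obtain ⟨g, hg⟩ := mk_eq_iff.1 h1
  exact ⟨g, Subtype.ext hg⟩

theorem qB_eq {p q : PB} (h : qB p = qB q) : ∃ g : Sp1, q = (act p.1 g, p.2) := by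
  have h1 : mk p.1 = mk q.1 := congrArg (fun t : UU × Circle => t.1) h
  have h2 : p.2 = q.2 := congrArg (fun t : UU × Circle => t.2) h
  obtain ⟨g, hg⟩ := mk_eq_iff.1 h1
  exact ⟨g, Prod.ext hg h2.symm⟩

theorem qA_act (x : XA) (g : Sp1) : qA (actA x g) = qA x := Subtype.ext (mk_act x.1 g)

theorem qB_act (p : PB) (g : Sp1) : qB (act p.1 g, p.2) = qB p := Prod.ext (mk_act p.1 g) rfl

theorem facF : Function.FactorsThrough (fun x => qB (FF x)) qA := by
  intro x y h
  obtain ⟨g, rfl⟩ := qA_eq h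
  show qB (FF x) = qB (FF (actA x g))
  rw [FF_act, qB_act]

theorem facG : Function.FactorsThrough (fun x => qA (GG x)) qB := by
  intro x y h
  obtain ⟨g, rfl⟩ := qB_eq h
  show qA (GG x) = qA (GG (act x.1 g, x.2))
  rw [GG_act, qA_act]

/-- forward on the quotients -/
def dF : C(↥ANs, UU × Circle) :=
  Topology.IsQuotientMap.lift (f := ⟨qA, qA_cont⟩) qA_quot.isQuotientMap
    ⟨fun x => qB (FF x), qB_quot.continuous.comp cont_FF⟩ facF

/-- backward on the quotients -/
def dG : C(UU × Circle, ↥ANs) :=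
  Topology.IsQuotientMap.lift (f := ⟨qB, qB_quot.continuous⟩) qB_quot.isQuotientMap
    ⟨fun x => qA (GG x), qA_cont.comp cont_GG⟩ facG

theorem dF_qA (x : XA) : dF (qA x) = qB (FF x) :=
  DFunLike.congr_fun (Topology.IsQuotientMap.lift_comp (f := ⟨qA, qA_cont⟩)
    qA_quot.isQuotientMap ⟨fun x => qB (FF x), qB_quot.continuous.comp cont_FF⟩ facF) x

theorem dG_qB (x : PB) : dG (qB x) = qA (GG x) :=
  DFunLike.congr_fun (Topology.IsQuotientMap.lift_comp (f := ⟨qB, qB_quot.continuous⟩)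
    qB_quot.isQuotientMap ⟨fun x => qA (GG x), qA_cont.comp cont_GG⟩ facG) x

end ANhS_aux

open ANhS_aux in
/-- TARGET -/
theorem ANhS : S_ANh := by
  refine ⟨{ toFun := dF, invFun := dG, left_inv := ?_, right_inv := ?_,
            continuous_toFun := dF.continuous, continuous_invFun := dG.continuous }⟩
  · intro p
    obtain ⟨x, rfl⟩ := qA_surj p
    rw [dF_qA, dG_qB, GG_FF]
  · intro p
    obtain ⟨x, rfl⟩ := qB_quot.surjective p
    rw [dG_qB, dF_qA, FF_GG]

end

end Pool.Agent.Helper965_Rud
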