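import Pool.Agent.Helper965_Rud.Stmts2

/-! The pieces `B_M` and `B_N` are products of `V` with the open disc. -/

set_option autoImplicit false

namespace Pool.Agent.Helper965_Rud

open scoped ComplexConjugate unitInterval
open Pool.Agent.Helper534.LS (HH hmap sub inl inr delta)

noncomputable section

namespace BMNh_aux

/-- equivariant homeomorphisms induce homeomorphisms of orbit spaces -/
theorem quot {X Y Z : Type} [TopologicalSpace X] [TopologicalSpace Y] [TopologicalSpace Z]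
    [GSp X] [GSp Y] (P : X → Prop) (hP : IsOpen {x | P x}) (hPa : ∀ x g, P x → P (act x g))
    (F : {x // P x} → Y × Z) (hF : Continuous F)
    (hFe : ∀ (x x' : {x // P x}) (g : Sp1), x'.1 = act x.1 g → F x' = (act (F x).1 g, (F x).2))
    (G : Y × Z → {x // P x}) (hG : Continuous G)
    (hGe : ∀ y z g, (G (act y g, z)).1 = act (G (y, z)).1 g)
    (hGF : ∀ x, G (F x) = x) (hFG : ∀ w, F (G w) = w)
    (B : Set (Orb X)) (hB : B = {p | ∃ x, p = mk x ∧ P x}) :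
    ∃ e : ↥B ≃ₜ Orb Y × Z, ∀ (x : X) (h : P x) (h' : mk x ∈ B),
      e ⟨mk x, h'⟩ = (mk (F ⟨x, h⟩).1, (F ⟨x, h⟩).2) := by
  subst hB
  have hmem : ∀ x : {x // P x}, mk x.1 ∈ {p : Orb X | ∃ x, p = mk x ∧ P x} :=
    fun x => ⟨x.1, rfl, x.2⟩
  have hmem' : ∀ x : X, mk x ∈ {p : Orb X | ∃ x, p = mk x ∧ P x} → P x := by
    rintro x ⟨x', h1, h2⟩
    obtain ⟨g, rfl⟩ := mk_eq_iff.1 h1.symm
    exact hPa x' g h2
  let pr : {x // P x} → ↥{p : Orb X | ∃ x, p = mk x ∧ P x} := fun x => ⟨mk x.1, hmem x⟩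
  have prc : Continuous pr := (continuous_mk.comp continuous_subtype_val).subtype_mk _
  have pro : IsOpenMap pr := by
    apply IsOpenMap.subtype_mk
    exact isOpenMap_mk.comp hP.isOpenMap_subtype_val
  have prs : Function.Surjective pr := by
    rintro ⟨_, x, rfl, hx⟩
    exact ⟨⟨x, hx⟩, rfl⟩
  have prq : Topology.IsQuotientMap pr := pro.isQuotientMap prc prs
  have q2 : IsOpenQuotientMap (Prod.map (mk : Y → Orb Y) (id : Z → Z)) :=
    isOpenQuotientMap_mk.prodMap IsOpenQuotientMap.id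
  let f : {x // P x} → Orb Y × Z := fun x => (mk (F x).1, (F x).2)
  have fc : Continuous f := (continuous_mk.comp (continuous_fst.comp hF)).prodMk
    (continuous_snd.comp hF)
  let h : Y × Z → ↥{p : Orb X | ∃ x, p = mk x ∧ P x} := fun w => pr (G w)
  have hc : Continuous h := prc.comp hG
  have f_eq : ∀ x x' : {x // P x}, pr x = pr x' → f x = f x' := by
    intro x x' hx
    have hx' : mk x.1 = mk x'.1 := congrArg Subtype.val hx
    obtain ⟨g, hg⟩ := mk_eq_iff.1 hx'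
    simp only [f]
    rw [hFe x x' g hg]
    simp only [mk_act]
  have h_eq : ∀ w w' : Y × Z, Prod.map (mk : Y → Orb Y) (id : Z → Z) w =
      Prod.map (mk : Y → Orb Y) (id : Z → Z) w' → h w = h w' := by
    rintro ⟨y, z⟩ ⟨y', z'⟩ hw
    simp only [Prod.map_apply, id, Prod.mk.injEq] at hw
    obtain ⟨h1, rfl⟩ := hw
    obtain ⟨g, rfl⟩ := mk_eq_iff.1 h1
    apply Subtype.ext
    show mk (G (y, z)).1 = mk (G (act y g, z)).1
    rw [hGe, mk_act]
  let e1 : ↥{p : Orb X | ∃ x, p = mk x ∧ P x} → Orb Y × Z := fun b => f (prs b).choose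
  let e2 : Orb Y × Z → ↥{p : Orb X | ∃ x, p = mk x ∧ P x} := fun w => h (q2.surjective w).choose
  have e1_pr : ∀ x, e1 (pr x) = f x := fun x => f_eq _ _ (prs (pr x)).choose_spec
  have e2_q : ∀ w, e2 (Prod.map mk id w) = h w := fun w =>
    h_eq _ _ (q2.surjective (Prod.map mk id w)).choose_spec
  have e1c : Continuous e1 := by
    rw [prq.continuous_iff]
    have : e1 ∘ pr = f := funext e1_pr
    rw [this]
    exact fc
  have e2c : Continuous e2 := by
    rw [q2.isQuotientMap.continuous_iff]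
    have : e2 ∘ Prod.map mk id = h := funext e2_q
    rw [this]
    exact hc
  refine ⟨⟨⟨e1, e2, ?_, ?_⟩, e1c, e2c⟩, ?_⟩
  · intro b
    obtain ⟨x, rfl⟩ := prs b
    rw [e1_pr]
    have : f x = Prod.map mk id (F x) := rfl
    rw [this, e2_q]
    simp only [h, hGF]
  · intro w
    obtain ⟨w, rfl⟩ := q2.surjective w
    rw [e2_q]
    simp only [h]
    rw [e1_pr]
    simp only [f, hFG]
    rfl
  · intro x hx h'
    exact e1_pr ⟨x, hx⟩

/-- the coordinate -/
def ze (s : ℝ) (z al b : ℂ) : ℂ := s * b - z * al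

/-- the first vector -/
def uu (w : Fin 3 → Hq) (z : ℂ) (s : ℝ) (a : Fin 3 → Hq) (b : ℂ) : Fin 3 → Hq :=
  a + cm (ze s z (herm a w) b - herm a w) w

/-- the inverse -/
def aa (u w : Fin 3 → Hq) (z : ℂ) : Fin 3 → Hq := u + cm (-(conj z) * herm u w - herm u w) w

theorem conj_mul_self' (z : ℂ) : z * conj z = ((‖z‖ ^ 2 : ℝ) : ℂ) := by
  rw [Complex.mul_conj, Complex.normSq_eq_norm_sq]

theorem sum_one {z : ℂ} {s : ℝ} (h2 : ‖z‖ ^ 2 + s ^ 2 = 1) : z * conj z + (s : ℂ) ^ 2 = 1 := by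
  rw [conj_mul_self']
  exact_mod_cast h2

theorem b_eq {z al b : ℂ} {s : ℝ} (h2 : ‖z‖ ^ 2 + s ^ 2 = 1) (h4 : al * s + b * conj z = 0) :
    s * ze s z al b = b := by
  have h := sum_one h2
  unfold ze
  linear_combination b * h - z * h4

theorem al_eq {z al b : ℂ} {s : ℝ} (h2 : ‖z‖ ^ 2 + s ^ 2 = 1) (h4 : al * s + b * conj z = 0) :
    -(conj z) * ze s z al b = al := by
  have h := sum_one h2
  unfold ze
  linear_combination al * h - s * h4

theorem sq_shift (a w : Fin 3 → Hq) (h1 : sq w = 1) (t : ℂ) :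
    sq (a + cm (t - herm a w) w) = sq a - ‖herm a w‖ ^ 2 + ‖t‖ ^ 2 := by
  rw [sq_add, sq_cm, herm_cm_right, h1]
  rw [Complex.sq_norm, Complex.sq_norm, Complex.sq_norm, Complex.normSq_apply,
    Complex.normSq_apply, Complex.normSq_apply]
  simp
  ring

theorem herm_shift (a w : Fin 3 → Hq) (h1 : sq w = 1) (t : ℂ) :
    herm (a + cm (t - herm a w) w) w = t := by
  rw [herm_add_left, herm_cm_left, herm_self, h1]
  simp

theorem sq_uu {w : Fin 3 → Hq} {z : ℂ} {s : ℝ} {a : Fin 3 → Hq} {b : ℂ} (h1 : sq w = 1)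
    (h2 : ‖z‖ ^ 2 + s ^ 2 = 1) (h3 : sq a + ‖b‖ ^ 2 = 1)
    (h4 : herm a w * s + b * conj z = 0) : sq (uu w z s a b) = 1 := by
  unfold uu
  rw [sq_shift _ _ h1]
  have e1 := congrArg norm (b_eq h2 h4)
  have e2 := congrArg norm (al_eq h2 h4)
  rw [norm_mul, Complex.norm_real, Real.norm_eq_abs] at e1
  rw [norm_mul, norm_neg, RCLike.norm_conj] at e2
  rw [← e2]
  rw [← e1] at h3
  have h5 : |s| ^ 2 = s ^ 2 := sq_abs s
  nlinarith [h2, h3, h5]

theorem herm_uu {w : Fin 3 → Hq} {z : ℂ} {s : ℝ} {a : Fin 3 → Hq} {b : ℂ} (h1 : sq w = 1) :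
    herm (uu w z s a b) w = ze s z (herm a w) b := herm_shift _ _ h1 _

theorem aa_uu {w : Fin 3 → Hq} {z : ℂ} {s : ℝ} {a : Fin 3 → Hq} {b : ℂ} (h1 : sq w = 1)
    (h2 : ‖z‖ ^ 2 + s ^ 2 = 1) (h4 : herm a w * s + b * conj z = 0) :
    aa (uu w z s a b) w z = a := by
  unfold aa
  rw [herm_uu h1, al_eq h2 h4]
  unfold uu
  rw [add_assoc, ← cm_add]
  simp [cm_zero]

theorem herm_aa {u w : Fin 3 → Hq} {z : ℂ} (h1 : sq w = 1) :
    herm (aa u w z) w = -(conj z) * herm u w := herm_shift _ _ h1 _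

theorem sq_aa {u w : Fin 3 → Hq} {z : ℂ} {s : ℝ} (h0 : sq u = 1) (h1 : sq w = 1)
    (h2 : ‖z‖ ^ 2 + s ^ 2 = 1) : sq (aa u w z) + ‖(s : ℂ) * herm u w‖ ^ 2 = 1 := by
  unfold aa
  rw [sq_shift _ _ h1, h0, norm_mul, norm_mul, norm_neg, RCLike.norm_conj, Complex.norm_real,
    Real.norm_eq_abs, mul_pow, mul_pow, sq_abs]
  linear_combination ‖herm u w‖ ^ 2 * h2

theorem uu_aa {u w : Fin 3 → Hq} {z : ℂ} {s : ℝ} (h1 : sq w = 1)
    (h2 : ‖z‖ ^ 2 + s ^ 2 = 1) : uu w z s (aa u w z) (s * herm u w) = u := by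
  unfold uu
  rw [herm_aa h1]
  have e : ze s z (-(conj z) * herm u w) (s * herm u w) = herm u w := by
    have h := sum_one h2
    unfold ze
    linear_combination herm u w * h
  rw [e]
  unfold aa
  have e2 : (-(conj z) * herm u w - herm u w) + (herm u w - -(conj z) * herm u w) = 0 := by ring
  rw [add_assoc, ← cm_add, e2, cm_zero, add_zero]

theorem vm_uu (w : Fin 3 → Hq) (z : ℂ) (s : ℝ) (a : Fin 3 → Hq) (b : ℂ) (g : Sp1) :
    uu (vm w g) z s (vm a g) b = vm (uu w z s a b) g := by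
  unfold uu
  rw [vm_add, vm_cm, herm_vm]

theorem vm_aa (u w : Fin 3 → Hq) (z : ℂ) (g : Sp1) :
    aa (vm u g) (vm w g) z = vm (aa u w z) g := by
  unfold aa
  rw [vm_add, vm_cm, herm_vm]

theorem continuous_uu {X : Type} [TopologicalSpace X] {w a : X → Fin 3 → Hq} {z b : X → ℂ}
    {s : X → ℝ} (hw : Continuous w) (ha : Continuous a) (hz : Continuous z) (hb : Continuous b)
    (hs : Continuous s) : Continuous fun x => uu (w x) (z x) (s x) (a x) (b x) := by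
  unfold uu ze
  have hh := continuous_herm ha hw
  exact ha.add (continuous_cm ((((Complex.continuous_ofReal.comp hs).mul hb).sub
    (hz.mul hh)).sub hh) hw)

theorem continuous_aa {X : Type} [TopologicalSpace X] {u w : X → Fin 3 → Hq} {z : X → ℂ}
    (hu : Continuous u) (hw : Continuous w) (hz : Continuous z) :
    Continuous fun x => aa (u x) (w x) (z x) := by
  unfold aa
  have hh := continuous_herm hu hw
  exact hu.add (continuous_cm (((Complex.continuous_conj.comp hz).neg.mul hh).sub hh) hw)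

theorem norm_lt_of {z : ℂ} {s : ℝ} (h2 : ‖z‖ ^ 2 + s ^ 2 = 1) (hs : 0 < s) :
    z ∈ Metric.ball (0 : ℂ) 1 := by
  rw [mem_ball_zero_iff]
  have : ‖z‖ ^ 2 < 1 := by nlinarith
  exact (sq_lt_one_iff₀ (norm_nonneg z)).1 this

/-- the height -/
def hgt (z : ℂ) : ℝ := Real.sqrt (1 - ‖z‖ ^ 2)

theorem hgt_pos (z : Bd) : 0 < hgt z := by
  have h : ‖(z : ℂ)‖ < 1 := mem_ball_zero_iff.1 z.2
  apply Real.sqrt_pos.2
  have := (sq_lt_one_iff₀ (norm_nonneg (z : ℂ))).2 h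
  linarith

theorem hgt_sq (z : Bd) : ‖(z : ℂ)‖ ^ 2 + hgt z ^ 2 = 1 := by
  have h : ‖(z : ℂ)‖ < 1 := mem_ball_zero_iff.1 z.2
  have := (sq_lt_one_iff₀ (norm_nonneg (z : ℂ))).2 h
  unfold hgt
  rw [Real.sq_sqrt (by linarith)]
  ring

theorem hgt_eq {z : ℂ} {s : ℝ} (h2 : ‖z‖ ^ 2 + s ^ 2 = 1) (hs : 0 < s) : hgt z = s := by
  unfold hgt
  have : 1 - ‖z‖ ^ 2 = s ^ 2 := by linarith
  rw [this, Real.sqrt_sq hs.le]

theorem continuous_hgt : Continuous hgt := by
  unfold hgt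
  fun_prop

/-- the model -/
abbrev WW : Type := (SH 3 × SH 3) × Bd

/-! ### the space `M` -/

/-- coordinates -/
def FM (x : {x : XM // 0 < x.1.2.1.2}) : WW :=
  ((⟨uu x.1.1.1 x.1.1.2.1.1 x.1.1.2.1.2 x.1.1.2.2.1 x.1.1.2.2.2,
    sq_uu x.1.2.1 x.1.2.2.1 x.1.2.2.2.1 (x.1.2.2.2.2.1 x.2.le)⟩, ⟨x.1.1.1, x.1.2.1⟩),
    ⟨x.1.1.2.1.1, norm_lt_of x.1.2.2.1 x.2⟩)

/-- the inverse -/
def GM (y : WW) : {x : XM // 0 < x.1.2.1.2} :=
  ⟨⟨(y.1.2.1, ((y.2 : ℂ), hgt y.2), (aa y.1.1.1 y.1.2.1 y.2, (hgt y.2 : ℂ) * herm y.1.1.1 y.1.2.1)),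
    by
      refine ⟨y.1.2.2, hgt_sq y.2, sq_aa y.1.1.2 y.1.2.2 (hgt_sq y.2), ?_, ?_⟩
      · intro _
        simp only
        rw [herm_aa y.1.2.2]
        ring
      · intro h
        exact absurd h (not_le.2 (hgt_pos y.2))⟩, hgt_pos y.2⟩

theorem continuous_FM : Continuous FM := by
  have h : Continuous fun x : {x : XM // 0 < x.1.2.1.2} => x.1.1 :=
    continuous_subtype_val.comp continuous_subtype_val
  have hw := continuous_fst.comp h
  have hy := continuous_fst.comp (continuous_snd.comp h)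
  have hv := continuous_snd.comp (continuous_snd.comp h)
  refine ((Continuous.subtype_mk ?_ _).prodMk (Continuous.subtype_mk hw _)).prodMk
    (Continuous.subtype_mk (continuous_fst.comp hy) _)
  exact continuous_uu hw (continuous_fst.comp hv) (continuous_fst.comp hy) (continuous_snd.comp hv)
    (continuous_snd.comp hy)

theorem continuous_GM : Continuous GM := by
  have hu : Continuous fun y : WW => y.1.1.1 :=
    continuous_subtype_val.comp (continuous_fst.comp continuous_fst)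
  have hw : Continuous fun y : WW => y.1.2.1 :=
    continuous_subtype_val.comp (continuous_snd.comp continuous_fst)
  have hz : Continuous fun y : WW => (y.2 : ℂ) := continuous_subtype_val.comp continuous_snd
  refine Continuous.subtype_mk (Continuous.subtype_mk ?_ _) _
  exact hw.prodMk ((hz.prodMk (continuous_hgt.comp hz)).prodMk ((continuous_aa hu hw hz).prodMk
    ((Complex.continuous_ofReal.comp (continuous_hgt.comp hz)).mul (continuous_herm hu hw))))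

theorem GM_FM (x : {x : XM // 0 < x.1.2.1.2}) : GM (FM x) = x := by
  obtain ⟨⟨⟨w, ⟨z, s⟩, a, b⟩, h1, h2, h3, h4, h5⟩, hs⟩ := x
  apply Subtype.ext
  apply Subtype.ext
  simp only at h1 h2 h3 h4 h5 hs
  simp only [GM, FM]
  rw [hgt_eq h2 hs, herm_uu h1, b_eq h2 (h4 hs.le), aa_uu h1 h2 (h4 hs.le)]

theorem FM_GM (y : WW) : FM (GM y) = y := by
  obtain ⟨⟨⟨u, hu⟩, ⟨w, hw⟩⟩, ⟨z, hz⟩⟩ := y
  simp only [GM, FM]
  congr 2
  apply Subtype.ext
  exact uu_aa hw (hgt_sq ⟨z, hz⟩)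

/-! ### the space `N` -/

theorem sqrt_sq_pos {c : Fin 3 → Hq} (hc : c ≠ 0) : 0 < Real.sqrt (sq c) :=
  Real.sqrt_pos.2 (sq_pos hc)

/-- the unit vector -/
def nw (c : Fin 3 → Hq) : Fin 3 → Hq := rm (Real.sqrt (sq c))⁻¹ c

theorem sq_nw {c : Fin 3 → Hq} (hc : c ≠ 0) : sq (nw c) = 1 := by
  unfold nw
  rw [sq_rm, inv_pow, Real.sq_sqrt (sq_nonneg' c)]
  exact inv_mul_cancel₀ (sq_pos hc).ne'

theorem rm_nw {c : Fin 3 → Hq} (hc : c ≠ 0) : rm (Real.sqrt (sq c)) (nw c) = c := by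
  unfold nw
  rw [rm_rm, mul_inv_cancel₀ (sqrt_sq_pos hc).ne', rm_one]

theorem N2 {x : XN} (_ : x.1.2.1 ≠ 0) :
    ‖x.1.2.2‖ ^ 2 + Real.sqrt (sq x.1.2.1) ^ 2 = 1 := by
  rw [Real.sq_sqrt (sq_nonneg' _)]
  have := x.2.2.1
  linarith

theorem N4 {x : XN} (hc : x.1.2.1 ≠ 0) :
    herm x.1.1.1 (nw x.1.2.1) * (Real.sqrt (sq x.1.2.1) : ℂ) + x.1.1.2 * conj x.1.2.2 = 0 := by
  have h := x.2.2.2
  have e : herm x.1.1.1 x.1.2.1 =
      herm x.1.1.1 (nw x.1.2.1) * (Real.sqrt (sq x.1.2.1) : ℂ) := by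
    conv_lhs => rw [← rm_nw hc]
    rw [herm_rm_right]
    ring
  rw [← e]
  exact h

/-- coordinates -/
def FN (x : {x : XN // x.1.2.1 ≠ 0}) : WW :=
  ((⟨uu (nw x.1.1.2.1) x.1.1.2.2 (Real.sqrt (sq x.1.1.2.1)) x.1.1.1.1 x.1.1.1.2,
    sq_uu (sq_nw x.2) (N2 x.2) x.1.2.1 (N4 x.2)⟩, ⟨nw x.1.1.2.1, sq_nw x.2⟩),
    ⟨x.1.1.2.2, norm_lt_of (N2 x.2) (sqrt_sq_pos x.2)⟩)

theorem rm_ne {w : Fin 3 → Hq} {s : ℝ} (hw : sq w = 1) (hs : 0 < s) : rm s w ≠ 0 := by
  intro h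
  have := congrArg sq h
  rw [sq_rm, hw, sq_zero] at this
  nlinarith

theorem sqrt_rm {w : Fin 3 → Hq} {s : ℝ} (hw : sq w = 1) (hs : 0 < s) :
    Real.sqrt (sq (rm s w)) = s := by
  rw [sq_rm, hw, mul_one, Real.sqrt_sq hs.le]

theorem nw_rm {w : Fin 3 → Hq} {s : ℝ} (hw : sq w = 1) (hs : 0 < s) : nw (rm s w) = w := by
  unfold nw
  rw [sqrt_rm hw hs, rm_rm, inv_mul_cancel₀ hs.ne', rm_one]

/-- the inverse -/
def GN (y : WW) : {x : XN // x.1.2.1 ≠ 0} :=
  ⟨⟨((aa y.1.1.1 y.1.2.1 y.2, (hgt y.2 : ℂ) * herm y.1.1.1 y.1.2.1), (rm (hgt y.2) y.1.2.1, (y.2 : ℂ))),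
    by
      refine ⟨sq_aa y.1.1.2 y.1.2.2 (hgt_sq y.2), ?_, ?_⟩
      · simp only
        rw [sq_rm, y.1.2.2]
        have := hgt_sq y.2
        linarith
      · simp only
        rw [herm_rm_right, herm_aa y.1.2.2]
        ring⟩, rm_ne y.1.2.2 (hgt_pos y.2)⟩

theorem continuous_FN : Continuous FN := by
  have h : Continuous fun x : {x : XN // x.1.2.1 ≠ 0} => x.1.1 :=
    continuous_subtype_val.comp continuous_subtype_val
  have ha := continuous_fst.comp (continuous_fst.comp h)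
  have hb := continuous_snd.comp (continuous_fst.comp h)
  have hc := continuous_fst.comp (continuous_snd.comp h)
  have hz := continuous_snd.comp (continuous_snd.comp h)
  have hs : Continuous fun x : {x : XN // x.1.2.1 ≠ 0} => Real.sqrt (sq x.1.1.2.1) :=
    (continuous_sq.comp hc).sqrt
  have hw : Continuous fun x : {x : XN // x.1.2.1 ≠ 0} => nw x.1.1.2.1 :=
    continuous_rm (hs.inv₀ fun x => (sqrt_sq_pos x.2).ne') hc
  refine ((Continuous.subtype_mk ?_ _).prodMk (Continuous.subtype_mk hw _)).prodMk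
    (Continuous.subtype_mk hz _)
  exact continuous_uu hw ha hz hb hs

theorem continuous_GN : Continuous GN := by
  have hu : Continuous fun y : WW => y.1.1.1 :=
    continuous_subtype_val.comp (continuous_fst.comp continuous_fst)
  have hw : Continuous fun y : WW => y.1.2.1 :=
    continuous_subtype_val.comp (continuous_snd.comp continuous_fst)
  have hz : Continuous fun y : WW => (y.2 : ℂ) := continuous_subtype_val.comp continuous_snd
  refine Continuous.subtype_mk (Continuous.subtype_mk ?_ _) _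
  exact ((continuous_aa hu hw hz).prodMk ((Complex.continuous_ofReal.comp
    (continuous_hgt.comp hz)).mul (continuous_herm hu hw))).prodMk
    ((continuous_rm (continuous_hgt.comp hz) hw).prodMk hz)

theorem GN_FN (x : {x : XN // x.1.2.1 ≠ 0}) : GN (FN x) = x := by
  apply Subtype.ext
  apply Subtype.ext
  have h2 := N2 x.2
  have h4 := N4 x.2
  have h1 := sq_nw x.2
  simp only [GN, FN]
  rw [hgt_eq h2 (sqrt_sq_pos x.2), herm_uu h1, b_eq h2 h4, aa_uu h1 h2 h4, rm_nw x.2]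

theorem FN_GN (y : WW) : FN (GN y) = y := by
  obtain ⟨⟨⟨u, hu⟩, ⟨w, hw⟩⟩, ⟨z, hz⟩⟩ := y
  have hp := hgt_pos ⟨z, hz⟩
  have hw' : sq w = 1 := hw
  have e1 : nw (rm (hgt z) w) = w := nw_rm hw' hp
  have e2 : Real.sqrt (sq (rm (hgt z) w)) = hgt z := sqrt_rm hw' hp
  simp only [GN, FN]
  congr 2
  · apply Subtype.ext
    simp only [e1, e2]
    exact uu_aa hw (hgt_sq ⟨z, hz⟩)
  · apply Subtype.ext
    exact e1

theorem isOpen_M : IsOpen {x : XM | 0 < x.1.2.1.2} := by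
  apply isOpen_lt continuous_const
  exact continuous_snd.comp (continuous_fst.comp (continuous_snd.comp continuous_subtype_val))

theorem isOpen_N : IsOpen {x : XN | x.1.2.1 ≠ 0} :=
  isOpen_ne_fun (continuous_fst.comp (continuous_snd.comp continuous_subtype_val)) continuous_const

theorem vm_ne {c : Fin 3 → Hq} (hc : c ≠ 0) (g : Sp1) : vm c g ≠ 0 := by
  intro h
  have := congrArg sq h
  rw [sq_vm, sq_zero, sq_eq_zero_iff] at this
  exact hc this

theorem vm_nw (c : Fin 3 → Hq) (g : Sp1) : nw (vm c g) = vm (nw c) g := by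
  unfold nw
  rw [sq_vm, vm_rm]

end BMNh_aux

open BMNh_aux

/-- TARGET -/
theorem BMNh : S_BMN := by
  obtain ⟨eM, hM⟩ := BMNh_aux.quot (X := XM) (Y := SH 3 × SH 3) (Z := Bd) (fun x => 0 < x.1.2.1.2)
    isOpen_M (fun x g h => h) FM continuous_FM
    (by
      rintro ⟨x, hx⟩ ⟨x', hx'⟩ g hg
      simp only at hg
      subst hg
      refine Prod.ext (Prod.ext ?_ ?_) ?_
      · apply Subtype.ext
        exact vm_uu _ _ _ _ _ g
      · rfl
      · rfl)
    GM continuous_GM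
    (by
      rintro ⟨u, w⟩ z g
      apply Subtype.ext
      show (vm w.1 g, ((z : ℂ), hgt z), (aa (vm u.1 g) (vm w.1 g) z,
        (hgt z : ℂ) * herm (vm u.1 g) (vm w.1 g))) =
        (vm w.1 g, ((z : ℂ), hgt z), (vm (aa u.1 w.1 z) g, (hgt z : ℂ) * herm u.1 w.1))
      rw [vm_aa, herm_vm])
    GM_FM FM_GM BMs rfl
  obtain ⟨eN, hN⟩ := BMNh_aux.quot (X := XN) (Y := SH 3 × SH 3) (Z := Bd) (fun x => x.1.2.1 ≠ 0)
    isOpen_N (fun x g h => vm_ne h g) FN continuous_FN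
    (by
      rintro ⟨x, hx⟩ ⟨x', hx'⟩ g hg
      simp only at hg
      subst hg
      refine Prod.ext (Prod.ext ?_ ?_) ?_
      · apply Subtype.ext
        show uu (nw (vm x.1.2.1 g)) x.1.2.2 (Real.sqrt (sq (vm x.1.2.1 g))) (vm x.1.1.1 g) x.1.1.2 =
          vm (uu (nw x.1.2.1) x.1.2.2 (Real.sqrt (sq x.1.2.1)) x.1.1.1 x.1.1.2) g
        rw [vm_nw, sq_vm, vm_uu]
      · apply Subtype.ext
        exact vm_nw _ g
      · rfl)
    GN continuous_GN
    (by
      rintro ⟨u, w⟩ z g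
      apply Subtype.ext
      show ((aa (vm u.1 g) (vm w.1 g) z, (hgt z : ℂ) * herm (vm u.1 g) (vm w.1 g)),
        (rm (hgt z) (vm w.1 g), (z : ℂ))) =
        ((vm (aa u.1 w.1 z) g, (hgt z : ℂ) * herm u.1 w.1), (vm (rm (hgt z) w.1) g, (z : ℂ)))
      rw [vm_aa, herm_vm, vm_rm])
    GN_FN FN_GN BNs rfl
  refine ⟨eM, eN, ?_, ?_, ?_⟩
  · intro x h
    have hx : 0 < x.1.2.1.2 := by
      obtain ⟨x', h1, h2⟩ := h
      obtain ⟨g, rfl⟩ := mk_eq_iff.1 h1.symm
      exact h2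
    rw [hM x hx h]
    rfl
  · intro x h
    have hx : x.1.2.1 ≠ 0 := by
      obtain ⟨x', h1, h2⟩ := h
      obtain ⟨g, rfl⟩ := mk_eq_iff.1 h1.symm
      exact vm_ne h2 g
    rw [hN x hx h]
    rfl
  · rintro ⟨p, hp⟩
    obtain ⟨x, hx1, hx2⟩ := id hp
    subst hx1
    have hs : 0 < x.1.2.1.2 := hx2
    have e1 : (fX x).1 = (x.1.2.2, (rm x.1.2.1.2 x.1.1, x.1.2.1.1)) := by
      show fA x.1 = _
      unfold fA
      rw [max_eq_left hs.le, max_eq_right (by linarith : -x.1.2.1.2 ≤ 0), rm_zero, add_zero]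
    have hne : (fX x).1.2.1 ≠ 0 := by
      rw [e1]
      exact rm_ne x.2.1 hs
    have h : fM (mk x) ∈ BNs := ⟨fX x, rfl, hne⟩
    refine ⟨h, ?_⟩
    have e2 : fM (mk x) = mk (fX x) := rfl
    have e3 : eN ⟨fM (mk x), h⟩ = (mk (FN ⟨fX x, hne⟩).1, (FN ⟨fX x, hne⟩).2) := hN (fX x) hne h
    rw [e3, hM x hs hp]
    have e4 : FN ⟨fX x, hne⟩ = FM ⟨x, hs⟩ := by
      have e5 : nw (fX x).1.2.1 = x.1.1 := by
        rw [e1]
        exact nw_rm x.2.1 hs
      have e6 : Real.sqrt (sq (fX x).1.2.1) = x.1.2.1.2 := by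
        rw [e1]
        exact sqrt_rm x.2.1 hs
      have e7 : (fX x).1.1 = x.1.2.2 := by rw [e1]
      have e8 : (fX x).1.2.2 = x.1.2.1.1 := by rw [e1]
      refine Prod.ext (Prod.ext ?_ ?_) ?_
      · apply Subtype.ext
        show uu (nw (fX x).1.2.1) (fX x).1.2.2 (Real.sqrt (sq (fX x).1.2.1)) (fX x).1.1.1
          (fX x).1.1.2 = uu x.1.1 x.1.2.1.1 x.1.2.1.2 x.1.2.2.1 x.1.2.2.2
        rw [e5, e6, e7, e8]
      · apply Subtype.ext
        exact e5
      · apply Subtype.ext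
        exact e8
    rw [e4]

end

end Pool.Agent.Helper965_Rud
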