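import Pool.Agent.Helper965_Rud.StmtsTop

/-! # More statements, refining those of `Stmts` and `StmtsTop`

Each `S_...` is a proposition to be proved in its own file. -/

set_option autoImplicit false

namespace Pool.Agent.Helper965_Rud

open scoped ComplexConjugate unitInterval
open Pool.Agent.Helper534.LS (HH hmap sub inl inr)

noncomputable section

/-- homotopy equivalent spaces -/
def HE (X Y : Type) [TopologicalSpace X] [TopologicalSpace Y] : Prop :=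
  Nonempty (ContinuousMap.HomotopyEquiv X Y)

theorem HE.of_homeo {X Y : Type} [TopologicalSpace X] [TopologicalSpace Y] (e : X ≃ₜ Y) : HE X Y :=
  ⟨e.toHomotopyEquiv⟩

theorem HE.symm {X Y : Type} [TopologicalSpace X] [TopologicalSpace Y] (h : HE X Y) : HE Y X := by
  obtain ⟨e⟩ := h
  exact ⟨e.symm⟩

theorem HE.trans {X Y Z : Type} [TopologicalSpace X] [TopologicalSpace Y] [TopologicalSpace Z]
    (h : HE X Y) (h' : HE Y Z) : HE X Z := by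
  obtain ⟨e⟩ := h
  obtain ⟨e'⟩ := h'
  exact ⟨e.trans e'⟩

/-! ## Spheres -/

/-- geometry of `Y × S^{n+1}` -/
def S_sphGeo : Prop := ∀ (Y : Type) [TopologicalSpace Y] (n : ℕ),
  ∃ U V : Set (Y × Sp (n + 1)), IsOpen U ∧ IsOpen V ∧ (∀ x, x ∈ U ∨ x ∈ V) ∧ HE ↥U Y ∧ HE ↥V Y ∧
    HE ↥(U ∩ V) (Y × Sp n)

/-- `Y × S^0` -/
def S_sph0 : Prop := ∀ (Y : Type) [TopologicalSpace Y] (d : ℕ), Van Y d → Van (Y × Sp 0) d

/-- `Y × S^1` -/
def S_sph1 : Prop := ∀ (Y : Type) [TopologicalSpace Y] (d : ℕ), Top Y d → Top (Y × Sp 1) (d + 1)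

/-! ## Orbit spaces -/

/-- the affine charts, with a formula -/
def S_triv2 : Prop := ∀ (Y : Type) [TopologicalSpace Y] [GSp Y] (n : ℕ) (l : Fin (n + 1)),
  IsOpen (BB Y n l) ∧ ∃ e : ↥(BB Y n l) ≃ₜ Y × (Fin n → Hq),
    ∀ (x : Y × SH (n + 1)) (h : mk x ∈ BB Y n l) (i : Fin n),
      (e ⟨mk x, h⟩).2 i = x.2.1 (l.succAbove i) * (x.2.1 l)⁻¹

/-- the part of `(Y × S(ℍ^{n+2})) / G` where some coordinate but the last does not vanish -/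
def VB (Y : Type) [TopologicalSpace Y] [GSp Y] (n : ℕ) : Set (Orb (Y × SH (n + 2))) :=
  {p | ∃ x : Y × SH (n + 2), p = mk x ∧ ∃ i : Fin (n + 1), x.2.1 i.castSucc ≠ 0}

/-- it deforms to `(Y × S(ℍ^{n+1})) / G` -/
def S_orbV : Prop := ∀ (Y : Type) [TopologicalSpace Y] [GSp Y] (n : ℕ),
  IsOpen (VB Y n) ∧ HE ↥(VB Y n) (Orb (Y × SH (n + 1)))

/-- the intersection -/
def S_orbUV : Prop := ∀ (Y : Type) [TopologicalSpace Y] [GSp Y] (n : ℕ),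
  HE ↥(BB Y (n + 1) (Fin.last (n + 1)) ∩ VB Y n) (Y × SH (n + 1))

/-! ## Locally Euclidean spaces -/

/-- calculus of locally Euclidean spaces -/
def S_leCalc : Prop :=
  (∀ (n : ℕ) (X Y : Type) [TopologicalSpace X] [TopologicalSpace Y],
    Nonempty (X ≃ₜ Y) → LocEuc n X → LocEuc n Y) ∧
  (∀ (n : ℕ) (X : Type) [TopologicalSpace X] (U : Set X), IsOpen U → LocEuc n X → LocEuc n ↥U) ∧
  (∀ (n : ℕ) (X : Type) [TopologicalSpace X],
    (∀ x : X, ∃ U : Set X, IsOpen U ∧ x ∈ U ∧ LocEuc n ↥U) → LocEuc n X) ∧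
  ∀ (m n : ℕ) (X Y : Type) [TopologicalSpace X] [TopologicalSpace Y],
    LocEuc m X → LocEuc n Y → LocEuc (m + n) (X × Y)

/-- models -/
def S_leMod : Prop := (∀ n : ℕ, LocEuc (4 * n) (Fin n → Hq)) ∧ LocEuc 2 ℂ ∧
  (∀ n : ℕ, LocEuc n (Sp n)) ∧ LocEuc 1 Circle

/-- `(Y × S(ℍ^{n+1})) / G` is locally Euclidean if `Y` is -/
def S_leOrb : Prop := ∀ (Y : Type) [TopologicalSpace Y] [GSp Y] (m n : ℕ), LocEuc m Y →
  LocEuc (m + 4 * n) (Orb (Y × SH (n + 1)))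

/-! ## Pieces of `M` and `N` -/

/-- the open unit ball of `ℍ³` -/
def DH : Type := {v : Fin 3 → Hq // sq v < 1}

instance : TopologicalSpace DH := instTopologicalSpaceSubtype

instance : GSp DH where
  act x g := ⟨vm x.1 g, by rw [sq_vm]; exact x.2⟩
  act_one x := Subtype.ext (vm_one x.1)
  act_mul x g h := Subtype.ext (vm_mul x.1 g h)
  cont := Continuous.subtype_mk (continuous_vm (continuous_subtype_val.comp continuous_fst)
    continuous_snd) _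

/-- `(int D(ℍ³) × S(ℍ³)) / G` -/
abbrev UU : Type := Orb (DH × SH 3)

/-- `A_N` is a product with the circle -/
def S_ANh : Prop := Nonempty (↥ANs ≃ₜ UU × Circle)

/-- `C_N` deforms to `ℍP²` -/
def S_CN : Prop := HE ↥CNs (Orb (Unit × SH 3))

/-- stereographic projection -/
def S_Y2 : Prop := Nonempty ({y : Y2 // y.1 ≠ (0, 1)} ≃ₜ ℂ)

/-- `A_M ≃ V ≃ B_M`, `A_M ∩ B_M ≃ V × S¹` -/
def S_heM : Prop := HE ↥AMs VV ∧ HE ↥BMs VV ∧ HE ↥(AMs ∩ BMs) (VV × Sp 1)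

/-- `B_N ≃ V`, `A_N ∩ B_N ≃ V × S¹` -/
def S_heN : Prop := HE ↥BNs VV ∧ HE ↥(ANs ∩ BNs) (VV × Sp 1)

/-- the topology of `V` -/
def S_topV : Prop := Top VV 19

/-- path connectedness -/
def S_pc : Prop := PathConnectedSpace MM ∧ PathConnectedSpace NN

/-- locally Euclidean -/
def S_le : Prop := LocEuc 21 MM ∧ LocEuc 21 NN

/-! ## Category of `M` -/

/-- a stratification whose strata of the same level are separated gives a bound of the category -/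
def S_levels : Prop := ∀ (X : Type) [TopologicalSpace X] [CompletelyNormalSpace X]
  [PathConnectedSpace X] (k : ℕ) (ι : Type) [Fintype ι] (lev : ι → Fin (k + 1)) (S O : ι → Set X),
  (∀ x, ∃ i, x ∈ S i) → (∀ i, S i ⊆ O i) → (∀ i, IsOpen (O i)) → (∀ i, CtrIn (O i)) →
  (∀ i j, i ≠ j → lev i = lev j → Disjoint (closure (S i)) (S j)) → CatLE k X

/-- the open sets of `M` used for the bound of its category -/
def OM (k : Fin 3) (e d : Bool) : Set MM := {p | ∃ x : XM, p = mk x ∧ x.1.1 k ≠ 0 ∧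
  (e = true → x.1.2.1 ≠ (0, 1)) ∧ (e = false → x.1.2.1 ≠ (0, -1)) ∧
  (d = true → x.1.2.2 ≠ (jm x.1.1, 0)) ∧ (d = false → x.1.2.2 ≠ (-jm x.1.1, 0))}

/-- the strata of `M` used for the bound of its category -/
def SM (k : Fin 3) (e d : Bool) : Set MM := {p | ∃ x : XM, p = mk x ∧ x.1.1 k ≠ 0 ∧
  (∀ l, k < l → x.1.1 l = 0) ∧
  (e = true → x.1.2.1 ≠ (0, 1)) ∧ (e = false → x.1.2.1 = (0, 1)) ∧
  (d = true → x.1.2.2 ≠ (jm x.1.1, 0)) ∧ (d = false → x.1.2.2 = (jm x.1.1, 0))}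

/-- the open sets are open and contractible in `M` -/
def S_OM : Prop := ∀ k e d, IsOpen (OM k e d) ∧ CtrIn (OM k e d)

/-- `M` and `N` are metrizable, hence completely normal -/
def S_cn : Prop := CompletelyNormalSpace MM ∧ CompletelyNormalSpace NN

/-! ## Parallel transport -/

/-- the transport -/
def S_tr : Prop := ∀ (X : Type) [TopologicalSpace X] [CompactSpace X] [T2Space X] [GSp X] (m : ℕ)
  (E : X → Fin m → Hq), Continuous E → Eqv E →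
  ∃ (T : X → Orb X → X) (b : X → Orb X → ℝ), Continuous (Function.uncurry b) ∧
    (∀ x g p, b (act x g) p = b x p) ∧ (∀ x, E x ≠ 0 → 0 < b x (mk x)) ∧
    (∀ x g p, T (act x g) p = act (T x p) g) ∧ (∀ x p, 0 < b x p → mk (T x p) = p) ∧
    ContinuousOn (Function.uncurry T) {q | 0 < b q.1 q.2}

/-! ## General position -/

/-- the action on the ambient space of `XN` -/
def aN (x : AN) (g : Sp1) : AN := ((vm x.1.1 g, x.1.2), (vm x.2.1 g, x.2.2))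

/-- the five coordinates, on the ambient space -/
def E5a (x : AN) : Fin 5 → Hq := ![x.1.1 0, x.1.1 1, x.1.1 2, x.2.1 1, x.2.1 2]

/-- approximation of invariant functions by smooth ones -/
def S_SW : Prop := ∀ f : NN → ℝ, Continuous f → ∀ ε : ℝ, 0 < ε → ∃ F : AN → ℝ, ContDiff ℝ 1 F ∧
  (∀ x g, F (aN x g) = F x) ∧ ∀ x : XN, |F x.1 - f (mk x)| < ε

/-- approximation of equivariant maps by smooth ones -/
def S_approx : Prop := ∀ Φ : XN → Fin 5 → Hq, Continuous Φ → Eqv Φ → ∀ ε : ℝ, 0 < ε →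
  ∃ Ψ : AN → Fin 5 → Hq, ContDiff ℝ 1 Ψ ∧ (∀ x g, Ψ (aN x g) = vm (Ψ x) g) ∧
    ∀ x : XN, ‖Ψ x.1 - Φ x‖ < ε

/-- The set `S` of frames is, up to the action, parametrised by a subset of `ℝ^18`, and the
coordinate `l` does not vanish. -/
def Par (l : Fin 5) (S : Set XN) : Prop :=
  ∃ (P : EuclideanSpace ℝ (Fin 18) → AN) (s : Set (EuclideanSpace ℝ (Fin 18))),
    (∀ θ ∈ s, ContDiffAt ℝ 1 P θ ∧ E5a (P θ) l ≠ 0) ∧
    ∀ x ∈ S, ∃ g : Sp1, ∃ θ ∈ s, P θ = aN x.1 g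

/-- parametrisation, `a₀ ≠ 0` -/
def S_par0 : Prop := Par 0 {x | x ∈ ZZ ∧ x.1.1.1 0 ≠ 0 ∧ x.1.2.2 ≠ 0}
/-- parametrisation, `a₁ ≠ 0` or `a₂ ≠ 0` -/
def S_par12 : Prop := Par 1 {x | x ∈ ZZ ∧ x.1.1.1 1 ≠ 0} ∧ Par 2 {x | x ∈ ZZ ∧ x.1.1.1 2 ≠ 0}
/-- parametrisation, `c₁ ≠ 0` or `c₂ ≠ 0` -/
def S_par34 : Prop := Par 3 {x | x ∈ ZZ ∧ x.1.2.1 1 ≠ 0} ∧ Par 4 {x | x ∈ ZZ ∧ x.1.2.1 2 ≠ 0}

/-- the value of a quaternionic matrix at a vector -/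
def mv5 (A : Fin 5 → Fin 5 → Hq) (v : Fin 5 → Hq) : Fin 5 → Hq := fun i => ∑ m, A i m * v m

/-- the family of maps -/
def hfam (Ψ : AN → Fin 5 → Hq) (A : Fin 5 → Fin 5 → Hq) (t : ℝ) (x : AN) : Fin 5 → Hq :=
  (1 - t) • Ψ x + t • E5a x + (t * (1 - t)) • mv5 A (E5a x)

/-- dimension count: one family of parameters -/
def S_bad : Prop := ∀ Ψ : AN → Fin 5 → Hq, ContDiff ℝ 1 Ψ → (∀ x g, Ψ (aN x g) = vm (Ψ x) g) →
  ∀ (l : Fin 5) (S : Set XN), Par l S → ∃ B : Set (Fin 5 → Fin 5 → Hq),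
    dimH B < 100 ∧ ∀ A, A ∉ B → ∀ x ∈ S, ∀ t : ℝ, 0 < t → t < 1 → hfam Ψ A t x.1 ≠ 0

/-- general position -/
def S_good : Prop := ∀ Ψ : AN → Fin 5 → Hq, ContDiff ℝ 1 Ψ → (∀ x g, Ψ (aN x g) = vm (Ψ x) g) →
  ∃ A : Fin 5 → Fin 5 → Hq, ∀ x ∈ ZZ, ∀ t : ℝ, 0 < t → t < 1 → hfam Ψ A t x.1 ≠ 0

/-! ## From `Φ` to `H` -/

/-- the map from `S¹¹ × D¹⁰` to `XN` -/
def S_T : Prop := ∃ T : S11 × D10 → XN, Continuous T ∧
  ∀ p : S11 × D10, ‖p.2.1.1‖ ^ 2 + ‖p.2.1.2.1‖ ^ 2 + ‖p.2.1.2.2‖ ^ 2 = 1 →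
    T p ∈ ZZ ∧ ∃ μ : ℂ, μ = cp (p.1.1.2.2.1 * star p.2.1.2.1 + p.1.1.2.2.2 * star p.2.1.2.2) -
      p.2.1.1 * p.1.1.1 ∧
      E5 (T p) = ![lc p.1.1.2.1 * jj - lc μ, p.1.1.2.2.1 - lc μ * p.2.1.2.1,
        p.1.1.2.2.2 - lc μ * p.2.1.2.2, p.2.1.2.1, p.2.1.2.2]

/-- the boundary sphere of the ball -/
abbrev S9 : Type := {x : ℂ × Hq × Hq // ‖x.1‖ ^ 2 + ‖x.2.1‖ ^ 2 + ‖x.2.2‖ ^ 2 = 1}

/-- homotopy extension from the boundary of the ball -/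
def S_ext : Prop := ∀ (A Y : Type) [TopologicalSpace A] [TopologicalSpace Y] (f : A × D10 → Y)
  (h : (A × S9) × I → Y), Continuous f → Continuous h →
  (∀ (a : A) (y : S9), h ((a, y), 0) = f (a, ⟨y.1, y.2.le⟩)) →
  ∃ F : A × D10 → Y, Continuous F ∧ ∀ (a : A) (y : S9), F (a, ⟨y.1, y.2.le⟩) = h ((a, y), 1)

end

end Pool.Agent.Helper965_Rud
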