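-- CNh done; auxiliary lemmas in namespace CNh_aux
import Pool.Agent.Helper965_Rud.Stmts2

/-!
JOB CNh (MP_89fcdb_gt, owner helper965; disproof of a conjecture of Rudyak).
Setup: git fetch in outputs/live, copy Pool/Agent/Helper965_Rud/*.lean from origin/main (and Pool/Agent/Helper534/LS/*.lean)
to the same paths under /workdir/pool/Pool/Agent/, then `lake build` the modules imported here. Check with `lake env lean <file>`.
Helper965_Rud: Defs, Alg (algebra lemmas: herm_*, sq_*, rm, cm, jm, cp, lc), Basic (XN, XM, compactness), Stmts, StmtsTop, Stmts2 (the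
propositions S_...). The hypotheses S_... of the target are proved by other jobs: just use them.
Return the WHOLE file with the target proved (no sorry, no axiom, no native_decide; keep the name and the statement of the target).
Auxiliary lemmas: before the target, in the namespace CNh_aux (open it before the target) or with names starting with CNh_ .
Avoid straight double quotes and the words forbidden by RULES.md. If the statement is false or something is missing, say so in the note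
(status 'problem') with the reason. The final path of the file is Pool/Agent/Helper965_Rud/P_CNh.lean .

PROOF. A point of CNs is [(a,b),(c,z)], a frame with z ≠ 0 or Re herm c (ja) > 0. Then a ≠ 0: if a = 0 then |b| = 1, b conj z = 0 gives z = 0 and herm c 0 = 0.
Maps: r : CNs → Orb (Unit × SH 3), [(a,b),(c,z)] ↦ [(), a/|a|]; i : [(),u] ↦ [(u,0),(ju,0)] (a frame, since herm u (ju) = 0 (herm_jm_self), and herm (ju)(ju) = 1 has positive real part). r ∘ i = id.
i ∘ r is homotopic to the identity of CNs in two steps. Step 1: (a,b) fixed, (c_t,z_t) = normalisation of ((1-t) c + t ja, (1-t) z) (norm sqrt(sq + |.|^2)). Not zero: if t = 1 it is ja ≠ 0; if t < 1 and it is 0 then z = 0, so Re herm c (ja) > 0, but (1-t) herm c (ja) = -t herm (ja) (ja) =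
-t sq a has real part ≤ 0, contradiction. Orthogonal to (a,b): herm a ((1-t) c + t ja) + b conj((1-t) z) = (1-t)(herm a c + b conj z) + t herm a (ja) = 0. In CNs: if z ≠ 0, t < 1 then z_t ≠ 0; otherwise the real part of herm ((1-t) c + t ja) (ja) is > 0.
Step 2: now c = ja/|a|, z = 0; let b → (1-t) b and normalise (a,(1-t) b): a_t = a/sqrt(sq a + (1-t)^2|b|^2); then c_t = j a/|a| stays, frame condition herm a_t c_t = 0 holds, in CNs. At t = 1: [(a/|a|,0),(ja/|a|,0)] = i (r [..]).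
All formulas are equivariant; descend to the quotient (mk restricted to the preimage of the open set CNs is an open quotient map onto CNs; times the unit interval: IsOpenQuotientMap.prodMap). It is convenient to prove a general lemma: if O is an open set
of Orb X and F : {x : X // mk x ∈ O} × I → Z is continuous and constant on orbits, it descends to a continuous map O × I → Z.
-/

set_option autoImplicit false

namespace Pool.Agent.Helper965_Rud

open scoped ComplexConjugate unitInterval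
open Pool.Agent.Helper534.LS (HH hmap sub inl inr delta)

noncomputable section

namespace CNh_aux

/-- the condition defining `CNs` -/
def PC (x : AN) : Prop := x.2.2 ≠ 0 ∨ 0 < (herm x.2.1 (jm x.1.1)).re

theorem PC_act (x : XN) (g : Sp1) : PC (act x g).1 ↔ PC x.1 := by
  change (x.1.2.2 ≠ 0 ∨ 0 < (herm (vm x.1.2.1 g) (jm (vm x.1.1.1 g))).re) ↔
    (x.1.2.2 ≠ 0 ∨ 0 < (herm x.1.2.1 (jm x.1.1.1)).re)
  rw [← vm_jm, herm_vm]

theorem mem_CNs (x : XN) : mk x ∈ CNs ↔ PC x.1 := by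
  constructor
  · rintro ⟨y, h, hy⟩
    obtain ⟨g, rfl⟩ := mk_eq_iff.1 h
    exact (PC_act x g).1 hy
  · intro h
    exact ⟨x, rfl, h⟩

/-- normalisation -/
theorem norm_one {n : ℕ} (v : Fin n → Hq) (w : ℂ) (h : 0 < sq v + ‖w‖ ^ 2) :
    sq (rm (√(sq v + ‖w‖ ^ 2))⁻¹ v) + ‖(((√(sq v + ‖w‖ ^ 2))⁻¹ : ℝ) : ℂ) * w‖ ^ 2 = 1 := by
  rw [sq_rm, norm_mul, Complex.norm_real, Real.norm_eq_abs, mul_pow, sq_abs, ← mul_add, inv_pow,
    Real.sq_sqrt h.le, inv_mul_cancel₀ h.ne']

theorem jm_rm {n : ℕ} (r : ℝ) (v : Fin n → Hq) : jm (rm r v) = rm r (jm v) := by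
  funext i
  rw [jm_apply, rm_apply, rm_apply, jm_apply, ← mul_assoc, ← mul_assoc, Quaternion.coe_commutes]

theorem a_pos {x : AN} (hx : IsFrame x) (hP : PC x) : 0 < sq x.1.1 := by
  apply sq_pos
  intro ha
  obtain ⟨h1, h2, h3⟩ := hx
  rcases hP with hz | hh
  · rw [ha, herm_zero_left, zero_add] at h3
    rw [ha, sq_zero, zero_add] at h1
    rcases mul_eq_zero.1 h3 with h4 | h4
    · rw [h4] at h1; norm_num at h1
    · exact hz ((map_eq_zero _).1 h4)
  · have h4 : jm x.1.1 = 0 := by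
      rw [ha]
      funext i
      simp
    rw [h4, herm_zero_right] at hh
    simp at hh

/-- the first vector -/
def v1 (t : ℝ) (x : AN) : Fin 3 → Hq := rm (1 - t) x.2.1 + rm t (jm x.1.1)
def w1 (t : ℝ) (x : AN) : ℂ := ((1 - t : ℝ) : ℂ) * x.2.2
def n1 (t : ℝ) (x : AN) : ℝ := sq (v1 t x) + ‖w1 t x‖ ^ 2
def F1 (t : ℝ) (x : AN) : AN :=
  (x.1, (rm (√(n1 t x))⁻¹ (v1 t x), (((√(n1 t x))⁻¹ : ℝ) : ℂ) * w1 t x))

theorem key1 {x : AN} (hx : IsFrame x) (hP : PC x) {t : ℝ} (h0 : 0 ≤ t) (h1 : t ≤ 1) :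
    w1 t x ≠ 0 ∨ 0 < (herm (v1 t x) (jm x.1.1)).re := by
  have ha := a_pos hx hP
  have e : (herm (v1 t x) (jm x.1.1)).re =
      (1 - t) * (herm x.2.1 (jm x.1.1)).re + t * sq x.1.1 := by
    unfold v1
    rw [herm_add_left, herm_rm_left, herm_rm_left, herm_self, sq_jm, Complex.add_re,
      Complex.re_ofReal_mul, Complex.re_ofReal_mul, Complex.ofReal_re]
  by_cases hz : x.2.2 = 0
  · right
    rcases hP with hz' | hh
    · exact absurd hz hz'
    · rw [e]
      rcases eq_or_lt_of_le h1 with ht | ht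
      · rw [ht]; simpa using ha
      · have h2 : 0 < (1 - t) * (herm x.2.1 (jm x.1.1)).re := mul_pos (by linarith) hh
        have h3 : 0 ≤ t * sq x.1.1 := mul_nonneg h0 ha.le
        linarith
  · rcases eq_or_lt_of_le h1 with ht | ht
    · right
      rw [e, ht]
      simpa using ha
    · left
      unfold w1
      refine mul_ne_zero ?_ hz
      rw [Complex.ofReal_ne_zero]
      linarith

theorem n1_pos {x : AN} (hx : IsFrame x) (hP : PC x) {t : ℝ} (h0 : 0 ≤ t) (h1 : t ≤ 1) :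
    0 < n1 t x := by
  unfold n1
  rcases key1 hx hP h0 h1 with h | h
  · have h2 : 0 < ‖w1 t x‖ ^ 2 := by positivity
    have h3 := sq_nonneg' (v1 t x)
    linarith
  · have h2 : v1 t x ≠ 0 := by
      intro h3
      rw [h3, herm_zero_left] at h
      simp at h
    have h3 := sq_pos h2
    positivity

theorem F1_frame {x : AN} (hx : IsFrame x) (hP : PC x) {t : ℝ} (h0 : 0 ≤ t) (h1 : t ≤ 1) :
    IsFrame (F1 t x) := by
  refine ⟨hx.1, norm_one _ _ (n1_pos hx hP h0 h1), ?_⟩
  change herm x.1.1 (rm (√(n1 t x))⁻¹ (v1 t x)) +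
    x.1.2 * conj ((((√(n1 t x))⁻¹ : ℝ) : ℂ) * w1 t x) = 0
  have h3 := hx.2.2
  rw [herm_rm_right, map_mul, Complex.conj_ofReal]
  have h4 : herm x.1.1 (v1 t x) + x.1.2 * conj (w1 t x) = 0 := by
    unfold v1 w1
    rw [herm_add_right, herm_rm_right, herm_rm_right, herm_jm_self, map_mul, Complex.conj_ofReal]
    linear_combination ((1 - t : ℝ) : ℂ) * h3
  linear_combination (((√(n1 t x))⁻¹ : ℝ) : ℂ) * h4

theorem F1_PC {x : AN} (hx : IsFrame x) (hP : PC x) {t : ℝ} (h0 : 0 ≤ t) (h1 : t ≤ 1) :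
    PC (F1 t x) := by
  have hn := n1_pos hx hP h0 h1
  have hr : 0 < (√(n1 t x))⁻¹ := inv_pos.2 (Real.sqrt_pos.2 hn)
  rcases key1 hx hP h0 h1 with h | h
  · left
    exact mul_ne_zero (Complex.ofReal_ne_zero.2 hr.ne') h
  · right
    change 0 < (herm (rm (√(n1 t x))⁻¹ (v1 t x)) (jm x.1.1)).re
    rw [herm_rm_left, Complex.re_ofReal_mul]
    exact mul_pos hr h

theorem F1_zero {x : AN} (hx : IsFrame x) : F1 0 x = x := by
  have e1 : v1 0 x = x.2.1 := by
    unfold v1
    rw [sub_zero, rm_one, rm_zero, add_zero]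
  have e2 : w1 0 x = x.2.2 := by
    unfold w1
    rw [sub_zero, Complex.ofReal_one, one_mul]
  have e3 : n1 0 x = 1 := by
    unfold n1
    rw [e1, e2]
    exact hx.2.1
  unfold F1
  rw [e1, e2, e3, Real.sqrt_one, inv_one, rm_one, Complex.ofReal_one, one_mul]

/-- the second homotopy -/
def n2 (t : ℝ) (x : AN) : ℝ := sq x.1.1 + ‖((1 - t : ℝ) : ℂ) * x.1.2‖ ^ 2
def F2 (t : ℝ) (x : AN) : AN :=
  ((rm (√(n2 t x))⁻¹ x.1.1, (((√(n2 t x))⁻¹ : ℝ) : ℂ) * (((1 - t : ℝ) : ℂ) * x.1.2)),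
    (rm (√(sq x.1.1))⁻¹ (jm x.1.1), 0))

theorem n2_pos {x : AN} (hx : IsFrame x) (hP : PC x) (t : ℝ) : 0 < n2 t x := by
  have := a_pos hx hP
  unfold n2
  positivity

theorem F2_frame {x : AN} (hx : IsFrame x) (hP : PC x) (t : ℝ) : IsFrame (F2 t x) := by
  have ha := a_pos hx hP
  refine ⟨norm_one _ _ (n2_pos hx hP t), ?_, ?_⟩
  · change sq (rm (√(sq x.1.1))⁻¹ (jm x.1.1)) + ‖(0 : ℂ)‖ ^ 2 = 1
    rw [sq_rm, sq_jm, inv_pow, Real.sq_sqrt ha.le, inv_mul_cancel₀ ha.ne']
    simp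
  · change herm (rm (√(n2 t x))⁻¹ x.1.1) (rm (√(sq x.1.1))⁻¹ (jm x.1.1)) + _ * conj (0 : ℂ) = 0
    rw [herm_rm_left, herm_rm_right, herm_jm_self]
    simp

theorem F2_PC {x : AN} (hx : IsFrame x) (hP : PC x) (t : ℝ) : PC (F2 t x) := by
  have ha := a_pos hx hP
  have hn := n2_pos hx hP t
  right
  change 0 < (herm (rm (√(sq x.1.1))⁻¹ (jm x.1.1)) (jm (rm (√(n2 t x))⁻¹ x.1.1))).re
  rw [jm_rm, herm_rm_left, herm_rm_right, herm_self, sq_jm, Complex.re_ofReal_mul,
    Complex.re_ofReal_mul, Complex.ofReal_re]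
  positivity

theorem F12 (x : AN) (hx : IsFrame x) : F1 1 x = F2 0 x := by
  have e1 : v1 1 x = jm x.1.1 := by
    unfold v1
    rw [sub_self, rm_one, rm_zero, zero_add]
  have e2 : w1 1 x = 0 := by
    unfold w1
    rw [sub_self, Complex.ofReal_zero, zero_mul]
  have e3 : n1 1 x = sq x.1.1 := by
    unfold n1
    rw [e1, e2, sq_jm]
    simp
  have e4 : n2 0 x = 1 := by
    unfold n2
    rw [sub_zero, Complex.ofReal_one, one_mul]
    exact hx.1
  unfold F1 F2
  rw [e1, e2, e3, e4, Real.sqrt_one, inv_one, rm_one, Complex.ofReal_one, one_mul, sub_zero,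
    Complex.ofReal_one, one_mul, mul_zero]

theorem F2_one (x : AN) : F2 1 x = ((rm (√(sq x.1.1))⁻¹ x.1.1, 0),
    (jm (rm (√(sq x.1.1))⁻¹ x.1.1), 0)) := by
  have e4 : n2 1 x = sq x.1.1 := by
    unfold n2
    rw [sub_self, Complex.ofReal_zero, zero_mul]
    simp
  unfold F2
  rw [e4, sub_self, Complex.ofReal_zero, zero_mul, mul_zero, jm_rm]

theorem v1_aN (t : ℝ) (x : AN) (g : Sp1) : v1 t (aN x g) = vm (v1 t x) g := by
  unfold v1 aN
  rw [vm_add, vm_rm, vm_rm, vm_jm]

theorem F1_aN (t : ℝ) (x : AN) (g : Sp1) : F1 t (aN x g) = aN (F1 t x) g := by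
  have e : n1 t (aN x g) = n1 t x := by
    unfold n1
    rw [v1_aN, sq_vm]
    rfl
  unfold F1
  rw [e, v1_aN]
  unfold aN
  rw [vm_rm]
  rfl

theorem F2_aN (t : ℝ) (x : AN) (g : Sp1) : F2 t (aN x g) = aN (F2 t x) g := by
  have e : n2 t (aN x g) = n2 t x := by
    unfold n2 aN
    rw [sq_vm]
  unfold F2
  rw [e]
  unfold aN
  rw [vm_rm, vm_rm, vm_jm, sq_vm]

theorem cont_v1 {X : Type} [TopologicalSpace X] {t : X → ℝ} {x : X → AN} (ht : Continuous t)
    (hx : Continuous x) : Continuous fun p => v1 (t p) (x p) := by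
  unfold v1
  exact (continuous_rm (continuous_const.sub ht) (continuous_fst.comp (continuous_snd.comp hx))).add
    (continuous_rm ht (continuous_jm (continuous_fst.comp (continuous_fst.comp hx))))

theorem cont_w1 {X : Type} [TopologicalSpace X] {t : X → ℝ} {x : X → AN} (ht : Continuous t)
    (hx : Continuous x) : Continuous fun p => w1 (t p) (x p) := by
  unfold w1
  exact (Complex.continuous_ofReal.comp (continuous_const.sub ht)).mul
    (continuous_snd.comp (continuous_snd.comp hx))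

theorem cont_F1 {X : Type} [TopologicalSpace X] {t : X → ℝ} {x : X → AN} (ht : Continuous t)
    (hx : Continuous x) (hn : ∀ p, 0 < n1 (t p) (x p)) : Continuous fun p => F1 (t p) (x p) := by
  have c1 := cont_v1 ht hx
  have c2 := cont_w1 ht hx
  have c3 : Continuous fun p => n1 (t p) (x p) := (continuous_sq.comp c1).add (c2.norm.pow 2)
  have c4 : Continuous fun p => (√(n1 (t p) (x p)))⁻¹ :=
    c3.sqrt.inv₀ fun p => (Real.sqrt_pos.2 (hn p)).ne'
  exact (continuous_fst.comp hx).prodMk ((continuous_rm c4 c1).prodMk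
    ((Complex.continuous_ofReal.comp c4).mul c2))

theorem cont_F2 {X : Type} [TopologicalSpace X] {t : X → ℝ} {x : X → AN} (ht : Continuous t)
    (hx : Continuous x) (hn : ∀ p, 0 < n2 (t p) (x p)) (ha : ∀ p, 0 < sq (x p).1.1) :
    Continuous fun p => F2 (t p) (x p) := by
  have c1 : Continuous fun p => (x p).1.1 := continuous_fst.comp (continuous_fst.comp hx)
  have c2 : Continuous fun p => ((1 - t p : ℝ) : ℂ) * (x p).1.2 :=
    (Complex.continuous_ofReal.comp (continuous_const.sub ht)).mul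
      (continuous_snd.comp (continuous_fst.comp hx))
  have c3 : Continuous fun p => n2 (t p) (x p) := (continuous_sq.comp c1).add (c2.norm.pow 2)
  have c4 : Continuous fun p => (√(n2 (t p) (x p)))⁻¹ :=
    c3.sqrt.inv₀ fun p => (Real.sqrt_pos.2 (hn p)).ne'
  have c5 : Continuous fun p => (√(sq (x p).1.1))⁻¹ :=
    (continuous_sq.comp c1).sqrt.inv₀ fun p => (Real.sqrt_pos.2 (ha p)).ne'
  exact ((continuous_rm c4 c1).prodMk ((Complex.continuous_ofReal.comp c4).mul c2)).prodMk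
    ((continuous_rm c5 (continuous_jm c1)).prodMk continuous_const)

/-- the part of `XN` over `CNs` -/
abbrev XC : Type := ↥((mk : XN → NN) ⁻¹' CNs)

/-- the projection -/
def pr : XC → ↥CNs := CNs.restrictPreimage (mk : XN → NN)

theorem pr_open : IsOpenQuotientMap pr := isOpenQuotientMap_mk.restrictPreimage CNs

theorem pr_eq {x y : XC} (h : pr x = pr y) : ∃ g : Sp1, y.1.1 = aN x.1.1 g := by
  have h1 : mk x.1 = mk y.1 := congrArg Subtype.val h
  obtain ⟨g, hg⟩ := mk_eq_iff.1 h1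
  exact ⟨g, congrArg Subtype.val hg⟩

theorem pr_eq_of {x y : XC} {g : Sp1} (h : y.1.1 = aN x.1.1 g) : pr x = pr y := by
  apply Subtype.ext
  exact mk_eq_iff.2 ⟨g, Subtype.ext h⟩

/-- an element of `XC` -/
def toXC (x : AN) (h : IsFrame x) (h' : PC x) : XC := ⟨⟨x, h⟩, (mem_CNs ⟨x, h⟩).2 h'⟩

theorem XC_PC (x : XC) : PC x.1.1 := (mem_CNs x.1).1 x.2

theorem continuous_toXC {X : Type} [TopologicalSpace X] {f : X → AN} (hf : Continuous f)
    (h : ∀ p, IsFrame (f p)) (h' : ∀ p, PC (f p)) : Continuous fun p => toXC (f p) (h p) (h' p) :=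
  Continuous.subtype_mk (Continuous.subtype_mk hf _) _

/-- maps and homotopies descend -/
theorem descend {Z : Type} [TopologicalSpace Z] (F : I × XC → Z) (hF : Continuous F)
    (h : ∀ t x y, pr x = pr y → F (t, x) = F (t, y)) :
    ∃ G : C(I × ↥CNs, Z), ∀ t x, G (t, pr x) = F (t, x) := by
  have hq : IsOpenQuotientMap (Prod.map (id : I → I) pr) := IsOpenQuotientMap.id.prodMap pr_open
  let f : C(I × XC, I × ↥CNs) := ⟨_, hq.continuous⟩
  have hq' : Topology.IsQuotientMap f := hq.isQuotientMap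
  let g : C(I × XC, Z) := ⟨F, hF⟩
  have hfac : Function.FactorsThrough g f := by
    rintro ⟨t, x⟩ ⟨t', y⟩ hxy
    have h1 : t = t' := congrArg Prod.fst hxy
    have h2 : pr x = pr y := congrArg Prod.snd hxy
    subst h1
    exact h t x y h2
  refine ⟨hq'.lift g hfac, fun t x => ?_⟩
  exact DFunLike.congr_fun (hq'.lift_comp g hfac) (t, x)

theorem descend1 {Z : Type} [TopologicalSpace Z] (F : XC → Z) (hF : Continuous F)
    (h : ∀ x y, pr x = pr y → F x = F y) :
    ∃ G : C(↥CNs, Z), ∀ x, G (pr x) = F x := by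
  let f : C(XC, ↥CNs) := ⟨_, pr_open.continuous⟩
  have hq' : Topology.IsQuotientMap f := pr_open.isQuotientMap
  let g : C(XC, Z) := ⟨F, hF⟩
  have hfac : Function.FactorsThrough g f := fun x y hxy => h x y hxy
  refine ⟨hq'.lift g hfac, fun x => ?_⟩
  exact DFunLike.congr_fun (hq'.lift_comp g hfac) x

/-- the frame of a unit vector -/
def ifr (u : SH 3) : AN := ((u.1, 0), (jm u.1, 0))

theorem ifr_frame (u : SH 3) : IsFrame (ifr u) := by
  refine ⟨?_, ?_, ?_⟩
  · change sq u.1 + ‖(0 : ℂ)‖ ^ 2 = 1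
    rw [u.2]; simp
  · change sq (jm u.1) + ‖(0 : ℂ)‖ ^ 2 = 1
    rw [sq_jm, u.2]; simp
  · change herm u.1 (jm u.1) + 0 * conj (0 : ℂ) = 0
    rw [herm_jm_self]; simp

theorem ifr_PC (u : SH 3) : PC (ifr u) := by
  right
  change 0 < (herm (jm u.1) (jm u.1)).re
  rw [herm_self, sq_jm, u.2]
  simp

/-- the unit vector of a frame -/
def rfr (x : XC) : SH 3 := ⟨rm (√(sq x.1.1.1.1))⁻¹ x.1.1.1.1, by
  have ha := a_pos x.1.2 (XC_PC x)
  rw [sq_rm, inv_pow, Real.sq_sqrt ha.le, inv_mul_cancel₀ ha.ne']⟩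

theorem continuous_rfr : Continuous rfr := by
  refine Continuous.subtype_mk ?_ _
  have c1 : Continuous fun x : XC => x.1.1.1.1 := continuous_frame_a.comp continuous_subtype_val
  exact continuous_rm ((continuous_sq.comp c1).sqrt.inv₀ fun p =>
    (Real.sqrt_pos.2 (a_pos p.1.2 (XC_PC p))).ne') c1

/-- the first homotopy -/
def H1 (q : I × XC) : XC := toXC (F1 q.1 q.2.1.1)
  (F1_frame q.2.1.2 (XC_PC q.2) q.1.2.1 q.1.2.2) (F1_PC q.2.1.2 (XC_PC q.2) q.1.2.1 q.1.2.2)

theorem continuous_XCv : Continuous fun x : XC => x.1.1 :=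
  continuous_subtype_val.comp continuous_subtype_val

theorem continuous_H1 : Continuous H1 := by
  have h := cont_F1 (X := I × XC) (t := fun q => (q.1 : ℝ)) (x := fun q => q.2.1.1)
    (continuous_subtype_val.comp continuous_fst) (continuous_XCv.comp continuous_snd)
    (fun q => n1_pos q.2.1.2 (XC_PC q.2) q.1.2.1 q.1.2.2)
  exact continuous_toXC h _ _

/-- the second homotopy -/
def H2 (q : I × XC) : XC := toXC (F2 q.1 q.2.1.1)
  (F2_frame q.2.1.2 (XC_PC q.2) q.1) (F2_PC q.2.1.2 (XC_PC q.2) q.1)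

theorem continuous_H2 : Continuous H2 := by
  have h := cont_F2 (X := I × XC) (t := fun q => (q.1 : ℝ)) (x := fun q => q.2.1.1)
    (continuous_subtype_val.comp continuous_fst) (continuous_XCv.comp continuous_snd)
    (fun q => n2_pos q.2.1.2 (XC_PC q.2) q.1) (fun q => a_pos q.2.1.2 (XC_PC q.2))
  exact continuous_toXC h _ _

theorem H1_inv (t : I) (x y : XC) (hxy : pr x = pr y) : pr (H1 (t, x)) = pr (H1 (t, y)) := by
  obtain ⟨g, hg⟩ := pr_eq hxy
  refine pr_eq_of (g := g) ?_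
  change F1 t y.1.1 = aN (F1 t x.1.1) g
  rw [hg, F1_aN]

theorem H2_inv (t : I) (x y : XC) (hxy : pr x = pr y) : pr (H2 (t, x)) = pr (H2 (t, y)) := by
  obtain ⟨g, hg⟩ := pr_eq hxy
  refine pr_eq_of (g := g) ?_
  change F2 t y.1.1 = aN (F2 t x.1.1) g
  rw [hg, F2_aN]

theorem H1_zero (x : XC) : H1 (0, x) = x := Subtype.ext (Subtype.ext (F1_zero x.1.2))

theorem H12 (x : XC) : H1 (1, x) = H2 (0, x) := Subtype.ext (Subtype.ext (F12 x.1.1 x.1.2))

/-- the inclusion -/
def ii0 (p : Unit × SH 3) : XC := toXC (ifr p.2) (ifr_frame p.2) (ifr_PC p.2)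

theorem H2_one (x : XC) : H2 (1, x) = ii0 ((), rfr x) := Subtype.ext (Subtype.ext (F2_one x.1.1))

theorem continuous_ii0 : Continuous ii0 := by
  refine continuous_toXC ?_ _ _
  have c1 : Continuous fun p : Unit × SH 3 => p.2.1 := continuous_subtype_val.comp continuous_snd
  exact (c1.prodMk continuous_const).prodMk ((continuous_jm c1).prodMk continuous_const)

theorem ii0_inv (x : Unit × SH 3) (g : Sp1) : pr (ii0 x) = pr (ii0 (act x g)) := by
  refine pr_eq_of (g := g) ?_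
  change ((vm x.2.1 g, (0 : ℂ)), (jm (vm x.2.1 g), (0 : ℂ))) =
    ((vm x.2.1 g, (0 : ℂ)), (vm (jm x.2.1) g, (0 : ℂ)))
  rw [vm_jm]

theorem rfr_inv (x y : XC) (hxy : pr x = pr y) :
    (mk ((), rfr x) : Orb (Unit × SH 3)) = mk ((), rfr y) := by
  obtain ⟨g, hg⟩ := pr_eq hxy
  refine mk_eq_iff.2 ⟨g, ?_⟩
  refine Prod.ext rfl (Subtype.ext ?_)
  change rm (√(sq y.1.1.1.1))⁻¹ y.1.1.1.1 = vm (rm (√(sq x.1.1.1.1))⁻¹ x.1.1.1.1) g
  rw [hg]
  change rm (√(sq (vm x.1.1.1.1 g)))⁻¹ (vm x.1.1.1.1 g) = _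
  rw [sq_vm, vm_rm]

theorem rfr_ii0 (p : Unit × SH 3) : rfr (ii0 p) = p.2 := by
  apply Subtype.ext
  change rm (√(sq p.2.1))⁻¹ p.2.1 = p.2.1
  rw [p.2.2, Real.sqrt_one, inv_one, rm_one]

theorem continuous_mkrfr : Continuous fun x : XC => (mk ((), rfr x) : Orb (Unit × SH 3)) :=
  continuous_mk.comp (continuous_const.prodMk continuous_rfr)

end CNh_aux

open CNh_aux

/-- TARGET -/
theorem CNh : S_CN := by
  -- the retraction
  obtain ⟨r, hr⟩ := descend1 _ continuous_mkrfr rfr_inv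
  -- the inclusion
  let i0 : C(Unit × SH 3, ↥CNs) := ⟨fun p => pr (ii0 p), pr_open.continuous.comp continuous_ii0⟩
  let m0 : C(Unit × SH 3, Orb (Unit × SH 3)) := ⟨mk, continuous_mk⟩
  have hm0 : Topology.IsQuotientMap m0 := isQuotientMap_mk
  have hfac : Function.FactorsThrough i0 m0 := by
    intro x y hxy
    obtain ⟨g, rfl⟩ := mk_eq_iff.1 (show mk x = mk y from hxy)
    exact ii0_inv x g
  have hi : ∀ p : Unit × SH 3, (hm0.lift i0 hfac) (mk p) = pr (ii0 p) := fun p =>
    DFunLike.congr_fun (hm0.lift_comp i0 hfac) p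
  generalize hm0.lift i0 hfac = i at hi
  -- the homotopies
  obtain ⟨G1, hG1⟩ := descend (fun q => pr (H1 q)) (pr_open.continuous.comp continuous_H1) H1_inv
  obtain ⟨G2, hG2⟩ := descend (fun q => pr (H2 q)) (pr_open.continuous.comp continuous_H2) H2_inv
  let mid : C(↥CNs, ↥CNs) := ⟨fun p => G1 (1, p),
    G1.continuous.comp (continuous_const.prodMk continuous_id)⟩
  have hom1 : (ContinuousMap.id ↥CNs).Homotopic mid := by
    refine ⟨⟨G1, ?_, ?_⟩⟩
    · intro p
      obtain ⟨x, rfl⟩ := pr_open.surjective p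
      change G1 (0, pr x) = pr x
      rw [hG1, H1_zero]
    · intro p
      rfl
  have hom2 : mid.Homotopic (i.comp r) := by
    refine ⟨⟨G2, ?_, ?_⟩⟩
    · intro p
      obtain ⟨x, rfl⟩ := pr_open.surjective p
      change G2 (0, pr x) = G1 (1, pr x)
      rw [hG1, hG2, H12]
    · intro p
      obtain ⟨x, rfl⟩ := pr_open.surjective p
      change G2 (1, pr x) = i (r (pr x))
      rw [hG2, hr, hi, H2_one]
  have hri : r.comp i = ContinuousMap.id (Orb (Unit × SH 3)) := by
    ext p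
    obtain ⟨p, rfl⟩ := mk_surj p
    change r (i (mk p)) = mk p
    rw [hi, hr, rfr_ii0]
  refine ⟨⟨r, i, (hom1.trans hom2).symm, ?_⟩⟩
  rw [hri]

end

end Pool.Agent.Helper965_Rud
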