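import Pool.Agent.Helper965_Rud.Stmts2

/-! # From a cover by contractible sets to an equivariant map -/

set_option autoImplicit false

namespace Pool.Agent.Helper965_Rud

open scoped ComplexConjugate unitInterval
open Pool.Agent.Helper534.LS (HH hmap sub inl inr delta)

noncomputable section

/-- a subset of a set contractible in `X` is contractible in `X` -/
theorem F1S_ctrIn_mono {X : Type} [TopologicalSpace X] {K U : Set X} (h : K ⊆ U) (hU : CtrIn U) :
    CtrIn K := by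
  obtain ⟨y, hy⟩ := hU
  refine ⟨y, ?_⟩
  let inc : C(↥K, ↥U) := ⟨Set.inclusion h, continuous_inclusion h⟩
  have h2 := ContinuousMap.Homotopic.comp hy (ContinuousMap.Homotopic.refl inc)
  exact h2

/-- TARGET -/
theorem F1S (h1 : S_par) (h2 : S_tietze) : S_F1 := by
  intro X _ _ _ _ m E hE hEe hE0 k hk
  obtain ⟨U, hUo, hUc, hUn⟩ := hk
  obtain ⟨K, hK1, hKc, hKU⟩ := exists_iUnion_eq_closed_subset (X := Orb X) (u := U) hUo
    (fun x => Set.toFinite _) (Set.eq_univ_of_forall fun x => Set.mem_iUnion.2 (hUc x))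
  have hpar : ∀ i, ∃ φ : ↥((mk : X → Orb X) ⁻¹' K i) → Hq, Continuous φ ∧ (∀ x, φ x ≠ 0) ∧
      ∀ (x y : ↥((mk : X → Orb X) ⁻¹' K i)) (g : Sp1), y.1 = act x.1 g → φ y = φ x * (g : Hq) :=
    fun i => h1 X m E hE hEe hE0 (K i) (hKc i) (F1S_ctrIn_mono (hKU i) (hUn i))
  choose φ hφc hφ0 hφe using hpar
  have hext : ∀ i, ∃ Φ : X → Hq, Continuous Φ ∧ (∀ x g, Φ (act x g) = Φ x * (g : Hq)) ∧
      ∀ x : ↥((mk : X → Orb X) ⁻¹' K i), Φ x.1 = φ i x :=
    fun i => h2 X m E hE hEe hE0 (K i) (hKc i) (φ i) (hφc i) (hφe i)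
  choose Φ hΦc hΦe hΦx using hext
  refine ⟨fun x i => Φ i x, continuous_pi hΦc, ?_, ?_⟩
  · intro x g
    funext i
    exact hΦe i x g
  · intro x hx
    obtain ⟨i, hi⟩ := Set.mem_iUnion.1 (hK1 ▸ Set.mem_univ (mk x) : mk x ∈ ⋃ i, K i)
    have h3 := congrFun hx i
    have h4 := hΦx i ⟨x, hi⟩
    exact hφ0 i ⟨x, hi⟩ (by rw [← h4]; exact h3)

end

end Pool.Agent.Helper965_Rud
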