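import Pool.Agent.Helper965_Rud.Stmts2

/-!
JOB GPS (MP_89fcdb_gt, owner helper965; disproof of a conjecture of Rudyak).
Setup: git fetch in outputs/live, copy Pool/Agent/Helper965_Rud/*.lean from origin/main (and Pool/Agent/Helper534/LS/*.lean)
to the same paths under /workdir/pool/Pool/Agent/, then `lake build` the modules imported here. Check with `lake env lean <file>`.
Helper965_Rud: Defs, Alg (algebra lemmas: herm_*, sq_*, rm, cm, jm, cp, lc), Basic (XN, XM, compactness), Stmts, StmtsTop, Stmts2 (the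
propositions S_...). The hypotheses S_... of the target are proved by other jobs: just use them.
Return the WHOLE file with the target proved (no sorry, no axiom, no native_decide; keep the name and the statement of the target).
Auxiliary lemmas: before the target, in the namespace GPS_aux (open it before the target) or with names starting with GPS_ .
Avoid straight double quotes and the words forbidden by RULES.md. If the statement is false or something is missing, say so in the note
(status 'problem') with the reason. The final path of the file is Pool/Agent/Helper965_Rud/P_GPS.lean .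

PROOF. Φ is continuous and nonvanishing on the compact space XN, so ‖Φ x‖ ≥ ε > 0 for some ε (XN may be assumed nonempty; otherwise ZZ is empty and the statement is easy). Take Ψ of h1 for this ε: ‖Ψ x.1 - Φ x‖ < ε ≤ ‖Φ x‖, so the segment from Φ x to Ψ x.1 avoids 0. Take A of h2. On ZZ (E5a x.1 = E5 x):
k(x,t) = hfam Ψ A t x.1 is continuous, k(x,0) = Ψ x.1 ≠ 0, k(x,1) = E5 x ≠ 0 (E5_ne_zero), and k(x,t) ≠ 0 for 0 < t < 1 by h2. Concatenate the two homotopies: h(x,t) = segment at time 2t for t ≤ 1/2, k(x, 2t-1) for t ≥ 1/2 (e.g. as ContinuousMap.Homotopy.trans between maps ZZ → {v // v ≠ 0}, or directly with Continuous.if_le).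
-/

set_option autoImplicit false

namespace Pool.Agent.Helper965_Rud

open scoped ComplexConjugate unitInterval
open Pool.Agent.Helper534.LS (HH hmap sub inl inr delta)

noncomputable section

/-- E5a on XN is E5 -/
theorem GPS_E5a (x : XN) : E5a x.1 = E5 x := rfl

/-- continuity of E5a -/
theorem GPS_cont_E5a : Continuous E5a := by
  refine continuous_pi fun i => ?_
  have ha : ∀ i : Fin 3, Continuous fun x : AN => x.1.1 i := fun i =>
    (continuous_apply i).comp (continuous_fst.comp continuous_fst)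
  have hc : ∀ i : Fin 3, Continuous fun x : AN => x.2.1 i := fun i =>
    (continuous_apply i).comp (continuous_fst.comp continuous_snd)
  fin_cases i
  · exact ha 0
  · exact ha 1
  · exact ha 2
  · exact hc 1
  · exact hc 2

/-- continuity of mv5 -/
theorem GPS_cont_mv5 (A : Fin 5 → Fin 5 → Hq) : Continuous (mv5 A) := by
  refine continuous_pi fun i => ?_
  exact continuous_finsetSum _ fun m _ => continuous_const.mul (continuous_apply m)

/-- continuity of hfam -/
theorem GPS_cont_hfam {Ψ : AN → Fin 5 → Hq} (hΨ : Continuous Ψ) (A : Fin 5 → Fin 5 → Hq)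
    {X : Type} [TopologicalSpace X] {t : X → ℝ} {x : X → AN} (ht : Continuous t)
    (hx : Continuous x) : Continuous fun p => hfam Ψ A (t p) (x p) := by
  have h1 : Continuous fun p => Ψ (x p) := hΨ.comp hx
  have h2 : Continuous fun p => E5a (x p) := GPS_cont_E5a.comp hx
  have h3 : Continuous fun p => mv5 A (E5a (x p)) := (GPS_cont_mv5 A).comp h2
  exact (((continuous_const.sub ht).smul h1).add (ht.smul h2)).add
    ((ht.mul (continuous_const.sub ht)).smul h3)

theorem GPS_hfam_zero (Ψ : AN → Fin 5 → Hq) (A : Fin 5 → Fin 5 → Hq) (x : AN) :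
    hfam Ψ A 0 x = Ψ x := by
  simp [hfam]

theorem GPS_hfam_one (Ψ : AN → Fin 5 → Hq) (A : Fin 5 → Fin 5 → Hq) (x : AN) :
    hfam Ψ A 1 x = E5a x := by
  simp [hfam]

/-- TARGET -/
theorem GPS (h1 : S_approx) (h2 : S_good) : S_GP := by
  intro Φ hΦ heq hne
  rcases isEmpty_or_nonempty XN with hemp | hnon
  · exact ⟨fun _ => 0, continuous_const, fun x => (hemp.false x.1).elim,
      fun x => (hemp.false x.1).elim, fun p => (hemp.false p.1.1).elim⟩
  obtain ⟨x0, -, hx0⟩ := (isCompact_univ (X := XN)).exists_isMinOn Set.univ_nonempty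
    (continuous_norm.comp hΦ).continuousOn
  have hε : 0 < ‖Φ x0‖ := norm_pos_iff.2 (hne x0)
  obtain ⟨Ψ, hΨs, hΨe, hΨa⟩ := h1 Φ hΦ heq ‖Φ x0‖ hε
  obtain ⟨A, hA⟩ := h2 Ψ hΨs hΨe
  have hΨc : Continuous Ψ := hΨs.continuous
  have hlt : ∀ x : XN, ‖Ψ x.1 - Φ x‖ < ‖Φ x‖ := fun x =>
    (hΨa x).trans_le (isMinOn_iff.1 hx0 x (Set.mem_univ x))
  have hΨne : ∀ x : XN, Ψ x.1 ≠ 0 := by
    intro x h
    have := hlt x
    rw [h, zero_sub, norm_neg] at this
    exact lt_irrefl _ this
  have hk : ∀ x ∈ ZZ, ∀ t : ℝ, 0 ≤ t → t ≤ 1 → hfam Ψ A t x.1 ≠ 0 := by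
    intro x hx t ht0 ht1
    rcases ht0.eq_or_lt with h | h
    · rw [← h, GPS_hfam_zero]
      exact hΨne x
    rcases ht1.eq_or_lt with h' | h'
    · rw [h', GPS_hfam_one, GPS_E5a]
      exact E5_ne_zero x hx
    · exact hA x hx t h h'
  refine ⟨fun p => (1 - min (2 * (p.2 : ℝ)) 1) • (Φ p.1.1 - Ψ p.1.1.1) +
    hfam Ψ A (max (2 * (p.2 : ℝ) - 1) 0) p.1.1.1, ?_, ?_, ?_, ?_⟩
  · have c1 : Continuous fun p : ↥ZZ × I => p.1.1 := continuous_subtype_val.comp continuous_fst
    have c2 : Continuous fun p : ↥ZZ × I => p.1.1.1 := continuous_subtype_val.comp c1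
    have c3 : Continuous fun p : ↥ZZ × I => (p.2 : ℝ) := continuous_subtype_val.comp continuous_snd
    have c4 : Continuous fun p : ↥ZZ × I => Φ p.1.1 - Ψ p.1.1.1 := (hΦ.comp c1).sub (hΨc.comp c2)
    have c5 : Continuous fun p : ↥ZZ × I => (1 - min (2 * (p.2 : ℝ)) 1) :=
      continuous_const.sub ((continuous_const.mul c3).min continuous_const)
    have c6 : Continuous fun p : ↥ZZ × I => max (2 * (p.2 : ℝ) - 1) 0 :=
      ((continuous_const.mul c3).sub continuous_const).max continuous_const
    exact (c5.smul c4).add (GPS_cont_hfam hΨc A c6 c2)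
  · intro x
    simp only [Set.Icc.coe_zero, mul_zero, zero_sub]
    rw [min_eq_left (by norm_num), max_eq_right (by norm_num), GPS_hfam_zero]
    simp
  · intro x
    simp only [Set.Icc.coe_one, mul_one]
    rw [min_eq_right (by norm_num), max_eq_left (by norm_num)]
    have e : (2 : ℝ) - 1 = 1 := by norm_num
    rw [e, GPS_hfam_one, GPS_E5a]
    simp
  · rintro ⟨x, t⟩
    have ht0 : (0 : ℝ) ≤ t := t.2.1
    have ht1 : (t : ℝ) ≤ 1 := t.2.2
    rcases le_total (t : ℝ) (1 / 2) with h | h
    · have e1 : min (2 * (t : ℝ)) 1 = 2 * (t : ℝ) := min_eq_left (by linarith)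
      have e2 : max (2 * (t : ℝ) - 1) 0 = 0 := max_eq_right (by linarith)
      simp only [e1, e2, GPS_hfam_zero]
      intro h0
      have h3 : Φ x.1 = (2 * (t : ℝ)) • (Φ x.1 - Ψ x.1.1) := by
        have : Φ x.1 - (2 * (t : ℝ)) • (Φ x.1 - Ψ x.1.1) = 0 := by
          rw [← h0, sub_smul, one_smul]
          abel
        exact sub_eq_zero.1 this
      have h4 : ‖Φ x.1‖ ≤ ‖Ψ x.1.1 - Φ x.1‖ := by
        calc ‖Φ x.1‖ = ‖(2 * (t : ℝ)) • (Φ x.1 - Ψ x.1.1)‖ := by rw [← h3]
          _ = (2 * (t : ℝ)) * ‖Φ x.1 - Ψ x.1.1‖ := by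
            rw [norm_smul, Real.norm_of_nonneg (by linarith)]
          _ ≤ 1 * ‖Φ x.1 - Ψ x.1.1‖ :=
            mul_le_mul_of_nonneg_right (by linarith) (norm_nonneg _)
          _ = ‖Ψ x.1.1 - Φ x.1‖ := by rw [one_mul, norm_sub_rev]
      exact absurd (hlt x.1) (not_lt.2 h4)
    · have e1 : min (2 * (t : ℝ)) 1 = 1 := min_eq_right (by linarith)
      simp only [e1, sub_self, zero_smul, zero_add]
      exact hk x.1 x.2 _ (le_max_right _ _) (max_le (by linarith) zero_le_one)

end

end Pool.Agent.Helper965_Rud
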