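import Pool.Agent.Helper965_Rud.Stmts2

set_option autoImplicit false

namespace Pool.Agent.Helper965_Rud

open scoped ComplexConjugate unitInterval
open Pool.Agent.Helper534.LS (HH hmap sub inl inr delta)

noncomputable section

namespace OMh_aux

theorem rm_neg {n : ℕ} (r : ℝ) (v : Fin n → Hq) : rm (-r) v = - rm r v := by
  funext i; simp

theorem vm_inj {n : ℕ} {v w : Fin n → Hq} {g : Sp1} (h : vm v g = vm w g) : v = w := by
  have := congrArg (fun u => vm u g⁻¹) h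
  simpa only [← vm_mul, mul_inv_cancel, vm_one] using this

theorem herm_jm_left {n : ℕ} (w : Fin n → Hq) : herm (jm w) w = 0 := by
  rw [herm_conj w (jm w), herm_jm_self, map_zero]

/-- the conditions defining the open set, upstairs -/
def Cond (k : Fin 3) (τ ε : ℝ) (x : XM) : Prop :=
  x.1.1 k ≠ 0 ∧ x.1.2.1 ≠ (0, -τ) ∧ x.1.2.2 ≠ (rm (-ε) (jm x.1.1), 0)

theorem cond_act {k : Fin 3} {τ ε : ℝ} {x : XM} (h : Cond k τ ε x) (g : Sp1) :
    Cond k τ ε (act x g) := by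
  obtain ⟨h1, h2, h3⟩ := h
  refine ⟨?_, h2, ?_⟩
  · intro h
    apply h1
    have h4 : x.1.1 k * (g : Hq) = 0 := h
    rcases mul_eq_zero.1 h4 with h5 | h5
    · exact h5
    · have := norm_sp1 g
      rw [h5, norm_zero] at this
      exact absurd this zero_ne_one
  · intro h
    apply h3
    have h4 : ((vm x.1.2.2.1 g, x.1.2.2.2) : (Fin 3 → Hq) × ℂ) = (rm (-ε) (jm (vm x.1.1 g)), 0) := h
    rw [← vm_jm, ← vm_rm] at h4
    have h5 := congrArg Prod.fst h4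
    have h6 := congrArg Prod.snd h4
    exact Prod.ext (vm_inj h5) h6

/-- the open set, downstairs -/
def OO (k : Fin 3) (τ ε : ℝ) : Set MM := {p | ∃ x : XM, p = mk x ∧ Cond k τ ε x}

theorem mem_OO {k : Fin 3} {τ ε : ℝ} {x : XM} : mk x ∈ OO k τ ε ↔ Cond k τ ε x := by
  constructor
  · rintro ⟨y, hy, hc⟩
    obtain ⟨g, rfl⟩ := mk_eq_iff.1 hy.symm
    exact cond_act hc g
  · intro h
    exact ⟨x, rfl, h⟩

theorem isOpen_OO (k : Fin 3) (τ ε : ℝ) : IsOpen (OO k τ ε) := by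
  have h : OO k τ ε = mk '' {x : XM | Cond k τ ε x} := by
    ext p
    constructor
    · rintro ⟨x, rfl, hx⟩
      exact ⟨x, hx, rfl⟩
    · rintro ⟨x, hx, rfl⟩
      exact ⟨x, rfl, hx⟩
  rw [h]
  apply isOpenMap_mk
  have hc : Continuous fun p : XM => p.1 := continuous_subtype_val
  have hw : Continuous fun p : XM => p.1.1 := continuous_fst.comp hc
  have hy : Continuous fun p : XM => p.1.2.1 := continuous_fst.comp (continuous_snd.comp hc)
  have hv : Continuous fun p : XM => p.1.2.2 := continuous_snd.comp (continuous_snd.comp hc)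
  refine IsOpen.and ?_ (IsOpen.and ?_ ?_)
  · exact isOpen_ne_fun ((continuous_apply k).comp hw) continuous_const
  · exact isOpen_ne_fun hy continuous_const
  · exact isOpen_ne_fun hv ((continuous_rm continuous_const (continuous_jm hw)).prodMk
      continuous_const)

/-- descent of homotopies -/
theorem desc {X Z : Type} [TopologicalSpace X] [GSp X] [TopologicalSpace Z] {O : Set (Orb X)}
    (h : C(I × ↥((mk : X → Orb X) ⁻¹' O), Z))
    (hh : ∀ (t : I) (x y : ↥((mk : X → Orb X) ⁻¹' O)) (g : Sp1), y.1 = act x.1 g →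
      h (t, y) = h (t, x)) :
    ∃ H : C(I × O, Z), ∀ (t : I) (x : ↥((mk : X → Orb X) ⁻¹' O)), H (t, ⟨mk x.1, x.2⟩) = h (t, x) := by
  have hq0 : IsOpenQuotientMap (O.restrictPreimage (mk : X → Orb X)) :=
    ⟨(mk_surj (X := X)).restrictPreimage O, continuous_mk.restrictPreimage,
      isOpenMap_mk.restrictPreimage O⟩
  have hq : IsOpenQuotientMap
      (Prod.map (id : I → I) (O.restrictPreimage (mk : X → Orb X))) :=
    IsOpenQuotientMap.id.prodMap hq0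
  let q : C(I × ↥((mk : X → Orb X) ⁻¹' O), I × O) :=
    ⟨Prod.map (id : I → I) (O.restrictPreimage (mk : X → Orb X)), hq.continuous⟩
  have hq' : Topology.IsQuotientMap q := hq.isQuotientMap
  have hf : Function.FactorsThrough h q := by
    rintro ⟨t, x⟩ ⟨s, y⟩ hab
    have h1 : t = s := congrArg Prod.fst hab
    have h2 : mk x.1 = mk y.1 := congrArg Subtype.val (congrArg Prod.snd hab)
    subst h1
    obtain ⟨g, hg⟩ := mk_eq_iff.1 h2
    exact (hh t x y g hg).symm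
  refine ⟨hq'.lift h hf, fun t x => ?_⟩
  have := congrArg (fun F : C(_, Z) => F (t, x)) (hq'.lift_comp h hf)
  exact this

/-- normalisation of the last vector -/
theorem mpt_norm {w : Fin 3 → Hq} {z : ℂ} {s : ℝ} {a : Fin 3 → Hq} {b : ℂ} (hw : sq w = 1)
    (hy : ‖z‖ ^ 2 + s ^ 2 = 1) (hpos : 0 < sq a + ‖b‖ ^ 2)
    (h4 : 0 ≤ s → herm a w * (s : ℂ) + b * conj z = 0) (h5 : s ≤ 0 → b = 0) :
    IsMpt (w, (z, s), (rm (√(sq a + ‖b‖ ^ 2))⁻¹ a, (((√(sq a + ‖b‖ ^ 2))⁻¹ : ℝ) : ℂ) * b)) := by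
  refine ⟨hw, hy, ?_, ?_, ?_⟩
  · show sq (rm _ a) + ‖_ * b‖ ^ 2 = 1
    rw [sq_rm, norm_mul, mul_pow, Complex.norm_real, Real.norm_eq_abs, sq_abs, ← mul_add, inv_pow,
      Real.sq_sqrt hpos.le, inv_mul_cancel₀ hpos.ne']
  · intro hs
    show herm (rm _ a) w * (s : ℂ) + _ * b * conj z = 0
    rw [herm_rm_left, mul_assoc, mul_assoc, ← mul_add, h4 hs, mul_zero]
  · intro hs
    show _ * b = 0
    rw [h5 hs, mul_zero]

/-- the points `(w, y, ε (j w, 0))` -/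
def cst (ε : ℝ) (hε : ε ^ 2 = 1) (p : SH 3 × Y2) : XM :=
  ⟨(p.1.1, p.2.1, (rm ε (jm p.1.1), 0)), by
    refine ⟨p.1.2, p.2.2, ?_, ?_, fun _ => rfl⟩
    · show sq (rm ε (jm p.1.1)) + ‖(0 : ℂ)‖ ^ 2 = 1
      rw [sq_rm, sq_jm, p.1.2, hε]; simp
    · intro _
      show herm (rm ε (jm p.1.1)) p.1.1 * (p.2.1.2 : ℂ) + 0 * _ = 0
      rw [herm_rm_left, herm_conj, herm_jm_self]
      simp⟩

theorem continuous_cst (ε : ℝ) (hε : ε ^ 2 = 1) : Continuous (cst ε hε) := by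
  refine Continuous.subtype_mk ?_ _
  have h1 : Continuous fun p : SH 3 × Y2 => p.1.1 := continuous_subtype_val.comp continuous_fst
  have h2 : Continuous fun p : SH 3 × Y2 => p.2.1 := continuous_subtype_val.comp continuous_snd
  exact h1.prodMk (h2.prodMk ((continuous_rm continuous_const (continuous_jm h1)).prodMk
    continuous_const))

theorem cst_act (ε : ℝ) (hε : ε ^ 2 = 1) (w : SH 3) (y : Y2) (g : Sp1) :
    cst ε hε (act w g, y) = act (cst ε hε (w, y)) g := by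
  apply Subtype.ext
  show ((vm w.1 g, y.1, (rm ε (jm (vm w.1 g)), 0)) : AM) =
    (vm w.1 g, y.1, (vm (rm ε (jm w.1)) g, 0))
  rw [vm_rm, vm_jm]

/-- normalisation in `Y2` -/
def nY (y : ℂ × ℝ) (h : 0 < ‖y.1‖ ^ 2 + y.2 ^ 2) : Y2 :=
  ⟨((((√(‖y.1‖ ^ 2 + y.2 ^ 2))⁻¹ : ℝ) : ℂ) * y.1, (√(‖y.1‖ ^ 2 + y.2 ^ 2))⁻¹ * y.2), by
    show ‖_ * y.1‖ ^ 2 + (_ * y.2) ^ 2 = 1
    rw [norm_mul, mul_pow, Complex.norm_real, Real.norm_eq_abs, sq_abs, mul_pow, ← mul_add, inv_pow,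
      Real.sq_sqrt h.le, inv_mul_cancel₀ h.ne']⟩

/-- normalisation in `SH` -/
def nS {n : ℕ} (v : Fin n → Hq) (h : 0 < sq v) : SH n :=
  ⟨rm (√(sq v))⁻¹ v, by rw [sq_rm, inv_pow, Real.sq_sqrt h.le, inv_mul_cancel₀ h.ne']⟩

theorem continuous_nY {P : Type} [TopologicalSpace P] {y : P → ℂ × ℝ} (hy : Continuous y)
    (h : ∀ p, 0 < ‖(y p).1‖ ^ 2 + (y p).2 ^ 2) : Continuous fun p => nY (y p) (h p) := by
  refine Continuous.subtype_mk ?_ _
  have h1 : Continuous fun p => (√(‖(y p).1‖ ^ 2 + (y p).2 ^ 2))⁻¹ := by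
    refine Continuous.inv₀ (Real.continuous_sqrt.comp (by fun_prop)) fun p => ?_
    exact (Real.sqrt_pos.2 (h p)).ne'
  exact ((Complex.continuous_ofReal.comp h1).mul (continuous_fst.comp hy)).prodMk
    (h1.mul (continuous_snd.comp hy))

theorem continuous_nS {n : ℕ} {P : Type} [TopologicalSpace P] {v : P → Fin n → Hq}
    (hv : Continuous v) (h : ∀ p, 0 < sq (v p)) : Continuous fun p => nS (v p) (h p) := by
  refine Continuous.subtype_mk ?_ _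
  have h1 : Continuous fun p => (√(sq (v p)))⁻¹ := by
    refine Continuous.inv₀ (Real.continuous_sqrt.comp (continuous_sq.comp hv)) fun p => ?_
    exact (Real.sqrt_pos.2 (h p)).ne'
  exact continuous_rm h1 hv

theorem nY_eq (y : Y2) (y' : ℂ × ℝ) (h : y' = y.1) (h') : nY y' h' = y := by
  subst h
  apply Subtype.ext
  show (_, _) = y.1
  have h2 : ‖y.1.1‖ ^ 2 + y.1.2 ^ 2 = 1 := y.2
  rw [h2]
  simp

theorem nS_eq {n : ℕ} (v : SH n) (v' : Fin n → Hq) (h : v' = v.1) (h') : nS v' h' = v := by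
  subst h
  apply Subtype.ext
  show rm _ v.1 = v.1
  have h2 : sq v.1 = 1 := v.2
  rw [h2]
  simp [rm_one]

theorem nS_act {n : ℕ} (v v' : Fin n → Hq) (g : Sp1) (h : v' = vm v g) (h') (h'') :
    nS v' h' = act (nS v h'') g := by
  subst h
  apply Subtype.ext
  show rm _ (vm v g) = vm (rm _ v) g
  rw [vm_rm, sq_vm]

/-- `e_k w_k` -/
def pk {n : ℕ} (k : Fin n) (w : Fin n → Hq) : Fin n → Hq := fun i => if i = k then w i else 0

theorem vm_pk {n : ℕ} (k : Fin n) (w : Fin n → Hq) (g : Sp1) : vm (pk k w) g = pk k (vm w g) := by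
  funext i
  by_cases h : i = k <;> simp [pk, h]

theorem continuous_pk {n : ℕ} (k : Fin n) {P : Type} [TopologicalSpace P] {v : P → Fin n → Hq}
    (hv : Continuous v) : Continuous fun p => pk k (v p) := by
  refine continuous_pi fun i => ?_
  by_cases h : i = k
  · simp only [pk, h, if_true]
    exact (continuous_apply k).comp hv
  · simp only [pk, h, if_false]
    exact continuous_const

theorem tri {t c : ℝ} (h : (1 - t) ^ 2 = t ^ 2 * c) (hc : c = 1) : t = 1 / 2 := by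
  subst hc
  nlinarith

/-- first stage, quaternionic part -/
def u1 (ε t : ℝ) (x : AM) : Fin 3 → Hq := rm (1 - t) x.2.2.1 + rm (t * ε) (jm x.1)

/-- first stage, complex part -/
def b1 (t : ℝ) (x : AM) : ℂ := ((1 - t : ℝ) : ℂ) * x.2.2.2

theorem pos1 {ε : ℝ} (hε : ε ^ 2 = 1) (t : ℝ) {x : AM} (hx : IsMpt x)
    (h : x.2.2 ≠ (rm (-ε) (jm x.1), 0)) : 0 < sq (u1 ε t x) + ‖b1 t x‖ ^ 2 := by
  by_contra hn
  have h0 := sq_nonneg' (u1 ε t x)
  have hb0 : 0 ≤ ‖b1 t x‖ ^ 2 := by positivity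
  have h1 : sq (u1 ε t x) = 0 := by linarith
  have h2 : ‖b1 t x‖ ^ 2 = 0 := by linarith
  have h3 : u1 ε t x = 0 := sq_eq_zero_iff.1 h1
  have h4 : rm (1 - t) x.2.2.1 = rm (-(t * ε)) (jm x.1) := by
    rw [rm_neg]
    exact eq_neg_of_add_eq_zero_left h3
  have h5 := congrArg sq h4
  rw [sq_rm, sq_rm, sq_jm, hx.1] at h5
  have h6 : (1 - t) ^ 2 * ‖x.2.2.2‖ ^ 2 = 0 := by
    rw [b1, norm_mul, mul_pow, Complex.norm_real, Real.norm_eq_abs, sq_abs] at h2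
    exact h2
  have h7 : (1 - t) ^ 2 = t ^ 2 * ε ^ 2 := by
    have := hx.2.2.1
    calc (1 - t) ^ 2 = (1 - t) ^ 2 * (sq x.2.2.1 + ‖x.2.2.2‖ ^ 2) := by rw [this, mul_one]
      _ = t ^ 2 * ε ^ 2 := by rw [mul_add, h5, h6]; ring
  have ht : t = 1 / 2 := tri h7 hε
  subst ht
  apply h
  refine Prod.ext ?_ ?_
  · have h8 := congrArg (rm 2) h4
    rw [rm_rm, rm_rm] at h8
    have e1 : (2 : ℝ) * (1 - 1 / 2) = 1 := by norm_num
    have e2 : (2 : ℝ) * -(1 / 2 * ε) = -ε := by ring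
    rw [e1, e2, rm_one] at h8
    exact h8
  · have h9 : ‖x.2.2.2‖ ^ 2 = 0 := by
      have : ((1 : ℝ) - 1 / 2) ^ 2 ≠ 0 := by norm_num
      exact (mul_eq_zero.1 h6).resolve_left this
    exact norm_eq_zero.1 (pow_eq_zero_iff two_ne_zero |>.1 h9)

/-- first stage -/
def st1 (ε t : ℝ) (x : XM) (hpos : 0 < sq (u1 ε t x.1) + ‖b1 t x.1‖ ^ 2) : XM :=
  ⟨(x.1.1, x.1.2.1, (rm (√(sq (u1 ε t x.1) + ‖b1 t x.1‖ ^ 2))⁻¹ (u1 ε t x.1),
    (((√(sq (u1 ε t x.1) + ‖b1 t x.1‖ ^ 2))⁻¹ : ℝ) : ℂ) * b1 t x.1)), by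
    obtain ⟨h1, h2, h3, h4, h5⟩ := x.2
    refine mpt_norm h1 h2 hpos ?_ ?_
    · intro hs
      have h6 := h4 hs
      rw [u1, b1, herm_add_left, herm_rm_left, herm_rm_left, herm_jm_left]
      linear_combination ((1 - t : ℝ) : ℂ) * h6
    · intro hs
      rw [b1, h5 hs, mul_zero]⟩

theorem continuous_st1 {P : Type} [TopologicalSpace P] {ε : ℝ} {t : P → ℝ} {x : P → XM}
    (ht : Continuous t) (hx : Continuous x)
    (hpos : ∀ p, 0 < sq (u1 ε (t p) (x p).1) + ‖b1 (t p) (x p).1‖ ^ 2) :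
    Continuous fun p => st1 ε (t p) (x p) (hpos p) := by
  refine Continuous.subtype_mk ?_ _
  have hc : Continuous fun p => (x p).1 := continuous_subtype_val.comp hx
  have hw : Continuous fun p => (x p).1.1 := continuous_fst.comp hc
  have hy : Continuous fun p => (x p).1.2.1 := continuous_fst.comp (continuous_snd.comp hc)
  have hv : Continuous fun p => (x p).1.2.2 := continuous_snd.comp (continuous_snd.comp hc)
  have hu : Continuous fun p => u1 ε (t p) (x p).1 :=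
    (continuous_rm (continuous_const.sub ht) (continuous_fst.comp hv)).add
      (continuous_rm (ht.mul continuous_const) (continuous_jm hw))
  have hb : Continuous fun p => b1 (t p) (x p).1 :=
    (Complex.continuous_ofReal.comp (continuous_const.sub ht)).mul (continuous_snd.comp hv)
  have h1 : Continuous fun p => (√(sq (u1 ε (t p) (x p).1) + ‖b1 (t p) (x p).1‖ ^ 2))⁻¹ := by
    refine Continuous.inv₀ (Real.continuous_sqrt.comp
      ((continuous_sq.comp hu).add (hb.norm.pow 2))) fun p => ?_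
    exact (Real.sqrt_pos.2 (hpos p)).ne'
  exact hw.prodMk (hy.prodMk ((continuous_rm h1 hu).prodMk
    ((Complex.continuous_ofReal.comp h1).mul hb)))

theorem st1_act (ε t : ℝ) (x y : XM) (g : Sp1) (h : y = act x g) (h') (h'') :
    st1 ε t y h' = act (st1 ε t x h'') g := by
  subst h
  have hu : u1 ε t (act x g).1 = vm (u1 ε t x.1) g := by
    show rm (1 - t) (vm x.1.2.2.1 g) + rm (t * ε) (jm (vm x.1.1 g)) = _
    rw [← vm_jm, ← vm_rm, ← vm_rm, ← vm_add]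
    rfl
  have hb : b1 t (act x g).1 = b1 t x.1 := rfl
  apply Subtype.ext
  show ((vm x.1.1 g, x.1.2.1, (rm (√(sq (u1 ε t (act x g).1) + ‖b1 t (act x g).1‖ ^ 2))⁻¹
    (u1 ε t (act x g).1), (((√(sq (u1 ε t (act x g).1) + ‖b1 t (act x g).1‖ ^ 2))⁻¹ : ℝ) : ℂ) *
      b1 t (act x g).1)) : AM) =
    (vm x.1.1 g, x.1.2.1, (vm (rm (√(sq (u1 ε t x.1) + ‖b1 t x.1‖ ^ 2))⁻¹ (u1 ε t x.1)) g,
    (((√(sq (u1 ε t x.1) + ‖b1 t x.1‖ ^ 2))⁻¹ : ℝ) : ℂ) * b1 t x.1))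
  rw [hu, hb, sq_vm, vm_rm]

theorem st1_zero (ε : ℝ) (x : XM) (h') : st1 ε 0 x h' = x := by
  have hu : u1 ε 0 x.1 = x.1.2.2.1 := by
    rw [u1, sub_zero, rm_one, zero_mul, rm_zero, add_zero]
  have hb : b1 0 x.1 = x.1.2.2.2 := by simp [b1]
  have h3 := x.2.2.2.1
  apply Subtype.ext
  show ((x.1.1, x.1.2.1, (rm (√(sq (u1 ε 0 x.1) + ‖b1 0 x.1‖ ^ 2))⁻¹ (u1 ε 0 x.1),
    (((√(sq (u1 ε 0 x.1) + ‖b1 0 x.1‖ ^ 2))⁻¹ : ℝ) : ℂ) * b1 0 x.1)) : AM) = x.1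
  rw [hu, hb, h3]
  simp [rm_one]

theorem st1_one (ε : ℝ) (hε : ε ^ 2 = 1) (x : XM) (h') :
    st1 ε 1 x h' = cst ε hε (⟨x.1.1, x.2.1⟩, ⟨x.1.2.1, x.2.2.1⟩) := by
  have hu : u1 ε 1 x.1 = rm ε (jm x.1.1) := by
    rw [u1, sub_self, rm_zero, one_mul, zero_add]
  have hb : b1 1 x.1 = 0 := by simp [b1]
  have h3 : sq (rm ε (jm x.1.1)) + ‖(0 : ℂ)‖ ^ 2 = 1 := by
    rw [sq_rm, sq_jm, x.2.1, hε]; simp
  apply Subtype.ext
  show ((x.1.1, x.1.2.1, (rm (√(sq (u1 ε 1 x.1) + ‖b1 1 x.1‖ ^ 2))⁻¹ (u1 ε 1 x.1),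
    (((√(sq (u1 ε 1 x.1) + ‖b1 1 x.1‖ ^ 2))⁻¹ : ℝ) : ℂ) * b1 1 x.1)) : AM) =
    (x.1.1, x.1.2.1, (rm ε (jm x.1.1), 0))
  rw [hu, hb, h3]
  simp [rm_one]

/-- second stage -/
def y2 (τ t : ℝ) (y : ℂ × ℝ) : ℂ × ℝ := (((1 - t : ℝ) : ℂ) * y.1, (1 - t) * y.2 + t * τ)

theorem pos2 {τ : ℝ} (hτ : τ ^ 2 = 1) (t : ℝ) {y : ℂ × ℝ} (hy : ‖y.1‖ ^ 2 + y.2 ^ 2 = 1)
    (h : y ≠ (0, -τ)) : 0 < ‖(y2 τ t y).1‖ ^ 2 + (y2 τ t y).2 ^ 2 := by
  by_contra hn
  have hb0 : 0 ≤ ‖(y2 τ t y).1‖ ^ 2 := by positivity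
  have hb1 : 0 ≤ (y2 τ t y).2 ^ 2 := by positivity
  have h1 : ‖(y2 τ t y).1‖ ^ 2 = 0 := by linarith
  have h2 : (y2 τ t y).2 ^ 2 = 0 := by linarith
  have h3 : (1 - t) ^ 2 * ‖y.1‖ ^ 2 = 0 := by
    rw [y2, norm_mul, mul_pow, Complex.norm_real, Real.norm_eq_abs, sq_abs] at h1
    exact h1
  have h4 : (1 - t) * y.2 + t * τ = 0 := (pow_eq_zero_iff two_ne_zero).1 h2
  have h5 : (1 - t) * y.2 = - (t * τ) := by linarith
  have h6 : (1 - t) ^ 2 = t ^ 2 * τ ^ 2 := by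
    calc (1 - t) ^ 2 = (1 - t) ^ 2 * (‖y.1‖ ^ 2 + y.2 ^ 2) := by rw [hy, mul_one]
      _ = (1 - t) ^ 2 * ‖y.1‖ ^ 2 + ((1 - t) * y.2) ^ 2 := by ring
      _ = t ^ 2 * τ ^ 2 := by rw [h3, h5]; ring
  have ht : t = 1 / 2 := tri h6 hτ
  subst ht
  apply h
  refine Prod.ext ?_ ?_
  · have h9 : ‖y.1‖ ^ 2 = 0 := by
      have : ((1 : ℝ) - 1 / 2) ^ 2 ≠ 0 := by norm_num
      exact (mul_eq_zero.1 h3).resolve_left this
    exact norm_eq_zero.1 (pow_eq_zero_iff two_ne_zero |>.1 h9)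
  · show y.2 = -τ
    linarith

/-- third stage -/
def w3 (k : Fin 3) (t : ℝ) (w : Fin 3 → Hq) : Fin 3 → Hq := rm (1 - t) w + rm t (pk k w)

theorem pos3 {k : Fin 3} (t : ℝ) {w : Fin 3 → Hq} (h : w k ≠ 0) : 0 < sq (w3 k t w) := by
  apply sq_pos
  intro h0
  have h1 := congrFun h0 k
  apply h
  have h2 : w3 k t w k = w k := by
    show (((1 - t : ℝ) : Hq)) * w k + (t : Hq) * (if k = k then w k else 0) = w k
    rw [if_pos rfl, ← add_mul, ← Quaternion.coe_add]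
    simp
  rw [h2] at h1
  exact h1

theorem w3_act (k : Fin 3) (t : ℝ) (w : Fin 3 → Hq) (g : Sp1) :
    w3 k t (vm w g) = vm (w3 k t w) g := by
  rw [w3, w3, vm_add, vm_rm, vm_rm, vm_pk]

/-- the base point -/
def ek (k : Fin 3) : SH 3 := ⟨pk k (fun _ => 1), by simp [sq, pk, apply_ite]⟩

theorem sq_pk (k : Fin 3) (w : Fin 3 → Hq) : sq (pk k w) = ‖w k‖ ^ 2 := by
  unfold sq pk
  rw [Finset.sum_eq_single k]
  · simp
  · intro b _ hb
    simp [hb]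
  · simp

theorem mk_end (ε : ℝ) (hε : ε ^ 2 = 1) (k : Fin 3) (w : Fin 3 → Hq) (h : w k ≠ 0) (y : Y2)
    (v : SH 3) (hv : v.1 = rm (√(sq (pk k w)))⁻¹ (pk k w)) :
    mk (cst ε hε (v, y)) = mk (cst ε hε (ek k, y)) := by
  have hn : ‖w k‖ ≠ 0 := norm_ne_zero_iff.2 h
  let u : Sp1 := ⟨((‖w k‖⁻¹ : ℝ) : Hq) * w k, by
    rw [mem_sphere_zero_iff_norm, norm_mul, Quaternion.norm_coe, Real.norm_eq_abs, abs_inv,
      abs_norm, inv_mul_cancel₀ hn]⟩
  have h1 : v = act (ek k) u := by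
    apply Subtype.ext
    rw [hv, sq_pk, Real.sqrt_sq (norm_nonneg _)]
    funext i
    show ((‖w k‖⁻¹ : ℝ) : Hq) * (if i = k then w i else 0) =
      (if i = k then 1 else 0) * (((‖w k‖⁻¹ : ℝ) : Hq) * w k)
    by_cases hi : i = k
    · subst hi; simp
    · simp [hi]
  rw [h1, cst_act, mk_act]

theorem ctr (k : Fin 3) (τ ε : ℝ) (hτ : τ ^ 2 = 1) (hε : ε ^ 2 = 1) : CtrIn (OO k τ ε) := by
  let P : Type := ↥((mk : XM → Orb XM) ⁻¹' (OO k τ ε))
  have hP : ∀ x : P, Cond k τ ε x.1 := fun x => mem_OO.1 x.2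
  have hval : Continuous fun q : I × P => (q.2.1 : XM) := continuous_subtype_val.comp continuous_snd
  have ht : Continuous fun q : I × P => (q.1 : ℝ) := continuous_subtype_val.comp continuous_fst
  have hc : Continuous fun q : I × P => q.2.1.1 := continuous_subtype_val.comp hval
  have hw : Continuous fun q : I × P => q.2.1.1.1 := continuous_fst.comp hc
  have hy : Continuous fun q : I × P => q.2.1.1.2.1 := continuous_fst.comp (continuous_snd.comp hc)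
  -- first stage
  obtain ⟨H1, hH1⟩ := desc (X := XM) (Z := MM) (O := OO k τ ε)
    ⟨fun q => mk (st1 ε q.1 q.2.1 (pos1 hε q.1 q.2.1.2 (hP q.2).2.2)),
      continuous_mk.comp (continuous_st1 (x := fun q : I × P => q.2.1) ht hval
        fun q => pos1 hε q.1 q.2.1.2 (hP q.2).2.2)⟩
    (by
      intro t x y g h
      show mk (st1 ε t y.1 _) = mk (st1 ε t x.1 _)
      rw [st1_act ε t x.1 y.1 g h (pos1 hε t y.1.2 (hP y).2.2) (pos1 hε t x.1.2 (hP x).2.2), mk_act])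
  -- second stage
  obtain ⟨H2, hH2⟩ := desc (X := XM) (Z := MM) (O := OO k τ ε)
    ⟨fun q => mk (cst ε hε (⟨q.2.1.1.1, q.2.1.2.1⟩, nY (y2 τ q.1 q.2.1.1.2.1)
      (pos2 hτ q.1 q.2.1.2.2.1 (hP q.2).2.1))),
      continuous_mk.comp ((continuous_cst ε hε).comp ((Continuous.subtype_mk hw _).prodMk
        (continuous_nY (y := fun q : I × P => y2 τ q.1 q.2.1.1.2.1)
          (((Complex.continuous_ofReal.comp (continuous_const.sub ht)).mul
            (continuous_fst.comp hy)).prodMk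
            (((continuous_const.sub ht).mul (continuous_snd.comp hy)).add
              (ht.mul continuous_const)))
          (fun q => pos2 hτ q.1 q.2.1.2.2.1 (hP q.2).2.1))))⟩
    (by
      intro t x y g h
      obtain ⟨y, hy'⟩ := y
      have h' : y = act x.1 g := h
      subst h'
      have e : ∀ y : Y2, cst ε hε (⟨(act x.1 g).1.1, (act x.1 g).2.1⟩, y) =
        cst ε hε (act (X := SH 3) ⟨x.1.1.1, x.1.2.1⟩ g, y) := fun y => rfl
      exact (congrArg mk ((e _).trans (cst_act ε hε ⟨x.1.1.1, x.1.2.1⟩ _ g))).trans (mk_act _ g))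
  -- third stage
  let π : Y2 := ⟨(0, τ), by show ‖(0 : ℂ)‖ ^ 2 + τ ^ 2 = 1; rw [hτ]; simp⟩
  obtain ⟨H3, hH3⟩ := desc (X := XM) (Z := MM) (O := OO k τ ε)
    ⟨fun q => mk (cst ε hε (nS (w3 k q.1 q.2.1.1.1) (pos3 q.1 (hP q.2).1), π)),
      continuous_mk.comp ((continuous_cst ε hε).comp ((continuous_nS
        (v := fun q : I × P => w3 k q.1 q.2.1.1.1)
        ((continuous_rm (continuous_const.sub ht) hw).add (continuous_rm ht (continuous_pk k hw)))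
          (fun q => pos3 q.1 (hP q.2).1)).prodMk
        continuous_const))⟩
    (by
      intro t x y g h
      obtain ⟨y, hy'⟩ := y
      have h' : y = act x.1 g := h
      subst h'
      show mk (cst ε hε (nS (w3 k t (vm x.1.1.1 g)) _, π)) =
        mk (cst ε hε (nS (w3 k t x.1.1.1) _, π))
      rw [nS_act (w3 k t x.1.1.1) (w3 k t (vm x.1.1.1 g)) g (w3_act k t _ g) _ (pos3 t (hP x).1),
        cst_act, mk_act])
  have hsurj : ∀ p : OO k τ ε, ∃ x : P, p = ⟨mk x.1, x.2⟩ := by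
    rintro ⟨p, hp⟩
    obtain ⟨x, rfl⟩ := mk_surj p
    exact ⟨⟨x, hp⟩, rfl⟩
  let c : (t : I) → C(OO k τ ε, I × OO k τ ε) := fun t => ⟨fun p => (t, p), by fun_prop⟩
  refine ⟨mk (cst ε hε (ek k, π)), ?_⟩
  have a1 : (⟨Subtype.val, continuous_subtype_val⟩ : C(OO k τ ε, MM)).Homotopic (H1.comp (c 1)) := by
    refine ⟨⟨H1, ?_, fun p => rfl⟩⟩
    intro p
    obtain ⟨x, rfl⟩ := hsurj p
    refine (hH1 0 x).trans ?_
    show mk (st1 ε ((0 : I) : ℝ) x.1 _) = mk x.1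
    congr 1
    exact st1_zero ε x.1 _
  have a2 : (H1.comp (c 1)).Homotopic (H2.comp (c 1)) := by
    refine ⟨⟨H2, ?_, fun p => rfl⟩⟩
    intro p
    obtain ⟨x, rfl⟩ := hsurj p
    refine (hH2 0 x).trans (Eq.trans ?_ (hH1 1 x).symm)
    show mk (cst ε hε (⟨x.1.1.1, x.1.2.1⟩, nY (y2 τ ((0 : I) : ℝ) x.1.1.2.1) _)) =
      mk (st1 ε ((1 : I) : ℝ) x.1 _)
    congr 1
    refine Eq.trans ?_ (st1_one ε hε x.1 _).symm
    rw [nY_eq ⟨x.1.1.2.1, x.1.2.2.1⟩ (y2 τ ((0 : I) : ℝ) x.1.1.2.1)]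
    simp [y2]
  have a3 : (H2.comp (c 1)).Homotopic (H3.comp (c 1)) := by
    refine ⟨⟨H3, ?_, fun p => rfl⟩⟩
    intro p
    obtain ⟨x, rfl⟩ := hsurj p
    refine (hH3 0 x).trans (Eq.trans ?_ (hH2 1 x).symm)
    show mk (cst ε hε (nS (w3 k ((0 : I) : ℝ) x.1.1.1) _, π)) =
      mk (cst ε hε (⟨x.1.1.1, x.1.2.1⟩, nY (y2 τ ((1 : I) : ℝ) x.1.1.2.1) _))
    rw [nY_eq π (y2 τ ((1 : I) : ℝ) x.1.1.2.1) (by simp [y2, π]),
      nS_eq ⟨x.1.1.1, x.1.2.1⟩ (w3 k ((0 : I) : ℝ) x.1.1.1)]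
    simp [w3, rm_one, rm_zero]
  refine (a1.trans (a2.trans a3)).trans ?_
  have a4 : H3.comp (c 1) = ContinuousMap.const (OO k τ ε) (mk (cst ε hε (ek k, π))) := by
    apply ContinuousMap.ext
    intro p
    obtain ⟨x, rfl⟩ := hsurj p
    refine (hH3 1 x).trans ?_
    show mk (cst ε hε (nS (w3 k ((1 : I) : ℝ) x.1.1.1) _, π)) = mk (cst ε hε (ek k, π))
    refine mk_end ε hε k x.1.1.1 (hP x).1 π _ ?_
    have e : w3 k ((1 : I) : ℝ) x.1.1.1 = pk k x.1.1.1 := by simp [w3, rm_one, rm_zero]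
    show rm (√(sq (w3 k ((1 : I) : ℝ) x.1.1.1)))⁻¹ (w3 k ((1 : I) : ℝ) x.1.1.1) = _
    rw [e]
  rw [a4]

theorem OM_eq (k : Fin 3) (e d : Bool) :
    OM k e d = OO k (if e then -1 else 1) (if d then -1 else 1) := by
  have key : ∀ x : XM, (x.1.1 k ≠ 0 ∧
      (e = true → x.1.2.1 ≠ (0, 1)) ∧ (e = false → x.1.2.1 ≠ (0, -1)) ∧
      (d = true → x.1.2.2 ≠ (jm x.1.1, 0)) ∧ (d = false → x.1.2.2 ≠ (-jm x.1.1, 0))) ↔
      Cond k (if e then -1 else 1) (if d then -1 else 1) x := by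
    intro x
    cases e <;> cases d <;> simp [Cond, rm_neg, rm_one]
  ext p
  constructor
  · rintro ⟨x, hp, hx⟩
    exact ⟨x, hp, (key x).1 hx⟩
  · rintro ⟨x, hp, hx⟩
    exact ⟨x, hp, (key x).2 hx⟩

end OMh_aux

open OMh_aux

/-- TARGET -/
theorem OMh : S_OM := by
  intro k e d
  rw [OM_eq]
  refine ⟨isOpen_OO _ _ _, ctr _ _ _ ?_ ?_⟩
  · split_ifs <;> norm_num
  · split_ifs <;> norm_num

end

end Pool.Agent.Helper965_Rud
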