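import Pool.Agent.Helper965_Rud.Stmts2

/-!
JOB SH (MP_89fcdb_gt, owner helper965; disproof of a conjecture of Rudyak).
Setup: git fetch in outputs/live, copy Pool/Agent/Helper965_Rud/*.lean from origin/main (and Pool/Agent/Helper534/LS/*.lean)
to the same paths under /workdir/pool/Pool/Agent/, then `lake build` the modules imported here. Check with `lake env lean <file>`.
Helper965_Rud: Defs, Alg (algebra lemmas: herm_*, sq_*, rm, cm, jm, cp, lc), Basic (XN, XM, compactness), Stmts, StmtsTop, Stmts2 (the
propositions S_...). The hypotheses S_... of the target are proved by other jobs: just use them.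
Return the WHOLE file with the target proved (no sorry, no axiom, no native_decide; keep the name and the statement of the target).
Auxiliary lemmas: before the target, in the namespace SH_aux (open it before the target) or with names starting with SH_ .
Avoid straight double quotes and the words forbidden by RULES.md. If the statement is false or something is missing, say so in the note
(status 'problem') with the reason. The final path of the file is Pool/Agent/Helper965_Rud/P_SH.lean .

PROOF. SH m = {v : Fin m → Hq // sq v = 1}, sq v = sum of the squared norms. EuclideanSpace-like space: PiLp 2 (fun _ : Fin (n+1) => Hq) is a real inner product space (Quaternion has an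
inner product space instance over ℝ) of finrank 4 (n+1) = 4 n + 4 = (4 n + 3) + 1, so there is a linear isometry equivalence with EuclideanSpace ℝ (Fin (4 n + 4)) (stdOrthonormalBasis, or
LinearIsometryEquiv.ofInnerProductSpace / LinearIsometryEquiv from equal finrank). Norm in PiLp 2: ‖v‖^2 = sum ‖v i‖^2 (EuclideanSpace.norm_eq / PiLp.norm_sq_eq_of_L2), so sq v = 1 iff ‖v‖ = 1.
The topology of PiLp 2 is the product topology (WithLp.toLp / ofLp continuous). Build the homeomorphism of subtypes. Only finrank ℝ Hq = 4 (Quaternion.finrank_eq_four) is needed.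
Alternatively use the four coordinates explicitly.
-/

set_option autoImplicit false

namespace Pool.Agent.Helper965_Rud

open scoped ComplexConjugate unitInterval
open Pool.Agent.Helper534.LS (HH hmap sub inl inr delta)

noncomputable section

namespace SH_aux

/-- the euclidean space of quaternionic vectors -/
abbrev W (n : ℕ) : Type := PiLp 2 (fun _ : Fin n => Hq)

theorem finrank_W (n : ℕ) : Module.finrank ℝ (W n) = 4 * n := by
  have h1 : Module.finrank ℝ (W n) = Module.finrank ℝ (Fin n → Hq) :=
    (WithLp.linearEquiv 2 ℝ (Fin n → Hq)).finrank_eq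
  rw [h1, Module.finrank_pi_fintype]
  simp [Quaternion.finrank_eq_four, mul_comm]

theorem sq_eq {n : ℕ} (v : W n) : sq (WithLp.ofLp v) = ‖v‖ ^ 2 := by
  rw [PiLp.norm_sq_eq_of_L2]
  rfl

/-- the isometry with the standard euclidean space -/
theorem exists_iso (n : ℕ) :
    Nonempty (W (n + 1) ≃ₗᵢ[ℝ] EuclideanSpace ℝ (Fin (4 * n + 3 + 1))) := by
  have h : Module.finrank ℝ (W (n + 1)) = 4 * n + 3 + 1 := by
    rw [finrank_W]
    ring
  exact ⟨((stdOrthonormalBasis ℝ (W (n + 1))).reindex (finCongr h)).repr⟩

end SH_aux

/-- TARGET -/
theorem SHsph : S_SH := by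
  intro n
  obtain ⟨e⟩ := SH_aux.exists_iso n
  have key : ∀ v : Fin (n + 1) → Hq, sq v = ‖e (WithLp.toLp 2 v)‖ ^ 2 := by
    intro v
    rw [e.norm_map, ← SH_aux.sq_eq]
  refine ⟨?_⟩
  refine
    { toFun := fun v => ⟨e (WithLp.toLp 2 v.1), ?_⟩
      invFun := fun w => ⟨WithLp.ofLp (e.symm w.1), ?_⟩
      left_inv := ?_
      right_inv := ?_
      continuous_toFun := ?_
      continuous_invFun := ?_ }
  · rw [mem_sphere_zero_iff_norm]
    have h1 := v.2
    rw [key] at h1
    exact (pow_eq_one_iff_of_nonneg (norm_nonneg _) two_ne_zero).1 h1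
  · rw [key]
    have h1 : ‖w.1‖ = 1 := mem_sphere_zero_iff_norm.1 w.2
    have h2 : WithLp.toLp 2 (WithLp.ofLp (e.symm w.1)) = e.symm w.1 := rfl
    rw [h2, e.apply_symm_apply, h1, one_pow]
  · intro v
    apply Subtype.ext
    show WithLp.ofLp (e.symm (e (WithLp.toLp 2 v.1))) = v.1
    rw [e.symm_apply_apply]
  · intro w
    apply Subtype.ext
    show e (WithLp.toLp 2 (WithLp.ofLp (e.symm w.1))) = w.1
    have h2 : WithLp.toLp 2 (WithLp.ofLp (e.symm w.1)) = e.symm w.1 := rfl
    rw [h2, e.apply_symm_apply]
  · refine Continuous.subtype_mk ?_ _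
    exact e.continuous.comp ((PiLp.continuous_toLp 2 _).comp continuous_subtype_val)
  · refine Continuous.subtype_mk ?_ _
    exact (PiLp.continuous_ofLp 2 _).comp (e.symm.continuous.comp continuous_subtype_val)

end

end Pool.Agent.Helper965_Rud
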