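import Pool.Agent.Helper965_Rud.Stmts2

set_option autoImplicit false

namespace Pool.Agent.Helper965_Rud

open scoped ComplexConjugate unitInterval
open Pool.Agent.Helper534.LS (HH hmap sub inl inr delta)

noncomputable section

namespace SWS_aux

/-- the six quaternionic coordinates, on the ambient space -/
def e6 (x : AN) : Fin 6 → Hq :=
  ![x.1.1 0, x.1.1 1, x.1.1 2, x.2.1 0, x.2.1 1, x.2.1 2]

theorem e6_eq (x : XN) : e6 x.1 = E6 x := rfl

theorem e6_aN (x : AN) (g : Sp1) : e6 (aN x g) = vm (e6 x) g := by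
  funext i
  fin_cases i <;> rfl

theorem contDiff_e6 (k : Fin 6) : ContDiff ℝ 1 fun x : AN => e6 x k := by
  have ha : ∀ i : Fin 3, ContDiff ℝ 1 fun x : AN => x.1.1 i := fun i =>
    (contDiff_apply ℝ Hq i).comp (contDiff_fst.comp contDiff_fst)
  have hc : ∀ i : Fin 3, ContDiff ℝ 1 fun x : AN => x.2.1 i := fun i =>
    (contDiff_apply ℝ Hq i).comp (contDiff_fst.comp contDiff_snd)
  fin_cases k
  · exact ha 0
  · exact ha 1
  · exact ha 2
  · exact hc 0
  · exact hc 1
  · exact hc 2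

/-- the invariant functions -/
def FF (k l : Fin 6) (q : Hq) (x : AN) : ℝ := inner ℝ (e6 x k) (q * e6 x l)

theorem contDiff_FF (k l : Fin 6) (q : Hq) : ContDiff ℝ 1 (FF k l q) :=
  (contDiff_e6 k).inner ℝ (contDiff_const.mul (contDiff_e6 l))

theorem FF_eq (k l : Fin 6) (q : Hq) (x : AN) :
    FF k l q x = inner ℝ (e6 x k * star (e6 x l)) q := by
  simp only [FF, Quaternion.inner_def, star_mul, mul_assoc]

theorem FF_aN (k l : Fin 6) (q : Hq) (x : AN) (g : Sp1) : FF k l q (aN x g) = FF k l q x := by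
  simp only [FF_eq, e6_aN, vm_apply, star_mul]
  rw [mul_assoc, ← mul_assoc (g : Hq), sp1_mul_star, one_mul]

/-- the algebra of smooth invariant functions -/
def AA : Subalgebra ℝ C(NN, ℝ) where
  carrier := {f | ∃ F : AN → ℝ, ContDiff ℝ 1 F ∧ (∀ x g, F (aN x g) = F x) ∧
    ∀ x : XN, F x.1 = f (mk x)}
  mul_mem' := by
    rintro f f' ⟨F, h1, h2, h3⟩ ⟨F', h1', h2', h3'⟩
    refine ⟨fun x => F x * F' x, h1.mul h1', fun x g => ?_, fun x => ?_⟩
    · show F (aN x g) * F' (aN x g) = F x * F' x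
      rw [h2, h2']
    · exact congrArg₂ (fun a b : ℝ => a * b) (h3 x) (h3' x)
  add_mem' := by
    rintro f f' ⟨F, h1, h2, h3⟩ ⟨F', h1', h2', h3'⟩
    refine ⟨fun x => F x + F' x, h1.add h1', fun x g => ?_, fun x => ?_⟩
    · show F (aN x g) + F' (aN x g) = F x + F' x
      rw [h2, h2']
    · exact congrArg₂ (fun a b : ℝ => a + b) (h3 x) (h3' x)
  algebraMap_mem' := by
    intro r
    exact ⟨fun _ => r, contDiff_const, fun _ _ => rfl, fun _ => rfl⟩

theorem aN_val (x : XN) (g : Sp1) : (act x g).1 = aN x.1 g := rfl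

/-- an invariant smooth function gives an element of the algebra -/
theorem exists_desc (F : AN → ℝ) (h1 : ContDiff ℝ 1 F) (h2 : ∀ x g, F (aN x g) = F x) :
    ∃ f ∈ AA, ∀ x : XN, f (mk x) = F x.1 := by
  refine ⟨⟨Quotient.lift (fun x : XN => F x.1) ?_, ?_⟩, ⟨F, h1, h2, fun x => rfl⟩, fun x => rfl⟩
  · rintro x _ ⟨g, rfl⟩
    show F x.1 = F (act x g).1
    rw [aN_val, h2]
  · exact (h1.continuous.comp continuous_subtype_val).quotient_lift _

theorem alg_key {n : ℕ} (E E' : Fin n → Hq) (hE : E ≠ 0)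
    (h : ∀ k l, E k * star (E l) = E' k * star (E' l)) : ∃ g : Sp1, E' = vm E g := by
  obtain ⟨k, hk⟩ : ∃ k, E k ≠ 0 := by
    by_contra hcon
    push Not at hcon
    exact hE (funext hcon)
  have hkk := h k k
  rw [Quaternion.self_mul_star, Quaternion.self_mul_star, Quaternion.normSq_eq_norm_mul_self,
    Quaternion.normSq_eq_norm_mul_self] at hkk
  have hn : ‖E k‖ * ‖E k‖ = ‖E' k‖ * ‖E' k‖ := Quaternion.coe_injective hkk
  have hn' : ‖E' k‖ = ‖E k‖ := by
    have h0 := norm_nonneg (E k)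
    have h0' := norm_nonneg (E' k)
    nlinarith [mul_self_eq_mul_self_iff.1 hn]
  have hg : ‖(E k)⁻¹ * E' k‖ = 1 := by
    rw [norm_mul, norm_inv, hn', inv_mul_cancel₀ (norm_ne_zero_iff.2 hk)]
  refine ⟨⟨(E k)⁻¹ * E' k, mem_sphere_zero_iff_norm.2 hg⟩, ?_⟩
  funext l
  show E' l = E l * ((E k)⁻¹ * E' k)
  have hk' : E' k ≠ 0 := by
    rw [← norm_ne_zero_iff, hn']
    exact norm_ne_zero_iff.2 hk
  have hs' : star (E' k) ≠ 0 := star_ne_zero.2 hk'
  have h1 := h l k
  -- E l * star (E k) = E' l * star (E' k)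
  apply mul_right_cancel₀ hs'
  rw [← h1, mul_assoc, mul_assoc, Quaternion.self_mul_star, Quaternion.normSq_eq_norm_mul_self,
    hn', ← Quaternion.normSq_eq_norm_mul_self, ← Quaternion.self_mul_star, ← mul_assoc (E k)⁻¹,
    inv_mul_cancel₀ hk, one_mul]

theorem sep : (AA : Subalgebra ℝ C(NN, ℝ)).SeparatesPoints := by
  intro p p' hpp
  obtain ⟨x, rfl⟩ := mk_surj p
  obtain ⟨x', rfl⟩ := mk_surj p'
  by_contra hcon
  have key : ∀ F : AN → ℝ, ContDiff ℝ 1 F → (∀ x g, F (aN x g) = F x) → F x.1 = F x'.1 := by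
    intro F h1 h2
    by_contra hne
    obtain ⟨f, hf, hfx⟩ := exists_desc F h1 h2
    exact hcon ⟨f, ⟨f, hf, rfl⟩, by rw [hfx, hfx]; exact hne⟩
  have hE : ∀ k l, E6 x k * star (E6 x l) = E6 x' k * star (E6 x' l) := by
    intro k l
    refine ext_inner_right ℝ fun q => ?_
    have := key (FF k l q) (contDiff_FF k l q) (FF_aN k l q)
    rw [FF_eq, FF_eq] at this
    exact this
  have hre : ContDiff ℝ 1 fun z : ℂ => z.re := Complex.reCLM.contDiff
  have him : ContDiff ℝ 1 fun z : ℂ => z.im := Complex.imCLM.contDiff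
  have hb : x.1.1.2 = x'.1.1.2 := by
    apply Complex.ext
    · exact key (fun y => y.1.2.re) (hre.comp (contDiff_snd.comp contDiff_fst)) fun _ _ => rfl
    · exact key (fun y => y.1.2.im) (him.comp (contDiff_snd.comp contDiff_fst)) fun _ _ => rfl
  have hz : x.1.2.2 = x'.1.2.2 := by
    apply Complex.ext
    · exact key (fun y => y.2.2.re) (hre.comp (contDiff_snd.comp contDiff_snd)) fun _ _ => rfl
    · exact key (fun y => y.2.2.im) (him.comp (contDiff_snd.comp contDiff_snd)) fun _ _ => rfl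
  obtain ⟨g, hg⟩ := alg_key (E6 x) (E6 x') (E6_ne_zero x) hE
  apply hpp
  rw [mk_eq_iff]
  refine ⟨g, Subtype.ext ?_⟩
  rw [aN_val]
  have ha : x'.1.1.1 = vm x.1.1.1 g := by
    funext i
    fin_cases i
    · exact congrFun hg 0
    · exact congrFun hg 1
    · exact congrFun hg 2
  have hc : x'.1.2.1 = vm x.1.2.1 g := by
    funext i
    fin_cases i
    · exact congrFun hg 3
    · exact congrFun hg 4
    · exact congrFun hg 5
  exact Prod.ext (Prod.ext ha hb.symm) (Prod.ext hc hz.symm)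

end SWS_aux

open SWS_aux in
/-- TARGET -/
theorem SWS : S_SW := by
  intro f hf ε hε
  obtain ⟨⟨a, F, h1, h2, h3⟩, ha⟩ :=
    ContinuousMap.exists_mem_subalgebra_near_continuous_of_separatesPoints AA sep f hf ε hε
  refine ⟨F, h1, h2, fun x => ?_⟩
  rw [h3]
  exact ha (mk x)

end

end Pool.Agent.Helper965_Rud
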