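import Pool.Agent.Helper965_Rud.Stmts2

/-!
JOB TS (MP_89fcdb_gt, owner helper965; disproof of a conjecture of Rudyak).
Setup: git fetch in outputs/live, copy Pool/Agent/Helper965_Rud/*.lean from origin/main (and Pool/Agent/Helper534/LS/*.lean)
to the same paths under /workdir/pool/Pool/Agent/, then `lake build` the modules imported here. Check with `lake env lean <file>`.
Helper965_Rud: Defs, Alg (algebra lemmas: herm_*, sq_*, rm, cm, jm, cp, lc), Basic (XN, XM, compactness), Stmts, StmtsTop, Stmts2 (the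
propositions S_...). The hypotheses S_... of the target are proved by other jobs: just use them.
Return the WHOLE file with the target proved (no sorry, no axiom, no native_decide; keep the name and the statement of the target).
Auxiliary lemmas: before the target, in the namespace TS_aux (open it before the target) or with names starting with TS_ .
Avoid straight double quotes and the words forbidden by RULES.md. If the statement is false or something is missing, say so in the note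
(status 'problem') with the reason. The final path of the file is Pool/Agent/Helper965_Rud/P_TS.lean .

PROOF. For q = (β,ζ,q₁,q₂) in S11 and p = (z,c₁,c₂) in D10 put w0 = sqrt(1 - |z|^2 - |c₁|^2 - |c₂|^2) ≥ 0, z' = -conj z, second vector (c,z) of the frame := (c, z') with c = (w0, c₁, c₂) (first coordinate the real number w0), a unit vector w. Let qv = (lc ζ * jj, q₁, q₂; β) in ℍ³ ⊕ ℂ, a unit vector orthogonal to e₀ = ((1,0,0);0), because cp (lc ζ * jj) = 0.
μ' = <qv,w> = herm (lc ζ * jj, q₁, q₂) c + β conj z'. Put λ = μ'/(1+w0), first vector v = qv - λ (e₀ + w), i.e. a = (lc ζ * jj - lc λ (1 + w0), q₁ - lc λ c₁, q₂ - lc λ c₂), b = β - λ z'. Then <v,w> = μ' - λ (<e₀,w> + 1) = μ' - λ (w0 + 1) = 0, and |v|^2 = 1 - 2 Re(conj λ <qv,e₀+w>) + |λ|^2 |e₀+w|^2 with <qv,e₀+w> = μ', |e₀+w|^2 = 2 + 2 w0,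
so |v|^2 = 1 - 2|μ'|^2/(1+w0) + 2|μ'|^2/(1+w0) = 1. So T(q,p) = ((a,b),(c,z')) is a frame, continuous in (q,p). If |z|^2+|c₁|^2+|c₂|^2 = 1 then w0 = 0, T ∈ ZZ, λ = μ' = cp(q₁ star c₁ + q₂ star c₂) + β conj z' = cp(...) - z β (the term lc ζ * jj * star 0 vanishes), and E5 (T) = ![a₀,a₁,a₂,c₁,c₂] is as claimed.
It may help to prove the general identities for sesquilinear herm with lemmas of Alg (herm_sub_left, herm_cm_left, herm_conj, herm_self, ...), or to compute in the hermitian form on pairs.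
-/

set_option autoImplicit false

namespace Pool.Agent.Helper965_Rud

open scoped ComplexConjugate unitInterval
open Pool.Agent.Helper534.LS (HH hmap sub inl inr delta)

noncomputable section

namespace TS_aux

/-- the first coordinate of the second vector -/
def w0 (p : ℂ × Hq × Hq) : ℝ := Real.sqrt (1 - (‖p.1‖ ^ 2 + ‖p.2.1‖ ^ 2 + ‖p.2.2‖ ^ 2))

/-- the quaternionic part of the second vector -/
def cc (p : ℂ × Hq × Hq) : Fin 3 → Hq := ![(w0 p : Hq), p.2.1, p.2.2]

/-- the quaternionic part of the given vector -/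
def qv (q : ℂ × ℂ × Hq × Hq) : Fin 3 → Hq := ![lc q.2.1 * jj, q.2.2.1, q.2.2.2]

/-- the first basis vector -/
def ee : Fin 3 → Hq := ![1, 0, 0]

/-- the hermitian product of the two vectors -/
def mu (q : ℂ × ℂ × Hq × Hq) (p : ℂ × Hq × Hq) : ℂ := herm (qv q) (cc p) + q.1 * conj (-conj p.1)

/-- the coefficient -/
def la (q : ℂ × ℂ × Hq × Hq) (p : ℂ × Hq × Hq) : ℂ := mu q p / ((1 + w0 p : ℝ) : ℂ)

/-- the frame -/
def TT (x : (ℂ × ℂ × Hq × Hq) × (ℂ × Hq × Hq)) : AN :=
  ((qv x.1 - cm (la x.1 x.2) (ee + cc x.2), x.1.1 - la x.1 x.2 * (-conj x.2.1)),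
    (cc x.2, -conj x.2.1))

theorem w0_nonneg (p : ℂ × Hq × Hq) : 0 ≤ w0 p := Real.sqrt_nonneg _

theorem sq3 (x y z : Hq) : sq ![x, y, z] = ‖x‖ ^ 2 + ‖y‖ ^ 2 + ‖z‖ ^ 2 := by
  simp [sq, Fin.sum_univ_three]

theorem sq_cc (p : ℂ × Hq × Hq) (hp : ‖p.1‖ ^ 2 + ‖p.2.1‖ ^ 2 + ‖p.2.2‖ ^ 2 ≤ 1) :
    sq (cc p) + ‖-conj p.1‖ ^ 2 = 1 := by
  have h1 : w0 p ^ 2 = 1 - (‖p.1‖ ^ 2 + ‖p.2.1‖ ^ 2 + ‖p.2.2‖ ^ 2) :=
    Real.sq_sqrt (by linarith)
  have h2 : ‖(w0 p : Hq)‖ ^ 2 = w0 p ^ 2 := by
    rw [Quaternion.norm_coe, Real.norm_eq_abs, sq_abs]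
  rw [cc, sq3, h2, h1, norm_neg, RCLike.norm_conj]
  ring

theorem sq_ee : sq ee = 1 := by
  rw [ee, sq3]; simp

theorem sq_qv (q : ℂ × ℂ × Hq × Hq)
    (hq : ‖q.1‖ ^ 2 + ‖q.2.1‖ ^ 2 + ‖q.2.2.1‖ ^ 2 + ‖q.2.2.2‖ ^ 2 = 1) :
    sq (qv q) + ‖q.1‖ ^ 2 = 1 := by
  rw [qv, sq3, norm_mul, norm_lc, norm_jj, mul_one]
  linarith

theorem herm_qv_ee (q : ℂ × ℂ × Hq × Hq) : herm (qv q) ee = 0 := by
  apply Complex.ext <;> simp [herm, qv, ee, Fin.sum_univ_three]

theorem herm_ee_cc (p : ℂ × Hq × Hq) : herm ee (cc p) = (w0 p : ℂ) := by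
  apply Complex.ext <;> simp [herm, cc, ee, Fin.sum_univ_three]

theorem la_mul (q : ℂ × ℂ × Hq × Hq) (p : ℂ × Hq × Hq) :
    mu q p = la q p * (1 + (w0 p : ℂ)) := by
  have h : ((1 + w0 p : ℝ) : ℂ) ≠ 0 := by
    rw [Complex.ofReal_ne_zero]
    have := w0_nonneg p
    positivity
  rw [la]
  rw [← Complex.ofReal_one, ← Complex.ofReal_add, div_mul_cancel₀ _ h]

theorem mul_conj' (z : ℂ) : z * conj z = ((‖z‖ ^ 2 : ℝ) : ℂ) := by
  rw [Complex.mul_conj, Complex.normSq_eq_norm_sq]

theorem isFrame_TT (x : (ℂ × ℂ × Hq × Hq) × (ℂ × Hq × Hq))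
    (hq : ‖x.1.1‖ ^ 2 + ‖x.1.2.1‖ ^ 2 + ‖x.1.2.2.1‖ ^ 2 + ‖x.1.2.2.2‖ ^ 2 = 1)
    (hp : ‖x.2.1‖ ^ 2 + ‖x.2.2.1‖ ^ 2 + ‖x.2.2.2‖ ^ 2 ≤ 1) : IsFrame (TT x) := by
  obtain ⟨q, p⟩ := x
  simp only at hq hp
  have h1 := sq_cc p hp
  have h2 := sq_qv q hq
  have h3 := sq_ee
  have h4 := herm_qv_ee q
  have h5 := herm_ee_cc p
  have h5' : herm (cc p) ee = (w0 p : ℂ) := by
    rw [herm_conj, h5, Complex.conj_ofReal]
  have h4' : herm ee (qv q) = 0 := by
    rw [herm_conj, h4, map_zero]
  have h6 := la_mul q p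
  have h7 : herm (cc p) (qv q) = conj (herm (qv q) (cc p)) := herm_conj _ _
  have hcc : herm (cc p) (cc p) + (-conj p.1) * conj (-conj p.1) = 1 := by
    rw [herm_self, mul_conj', ← Complex.ofReal_add, h1, Complex.ofReal_one]
  have hqq : herm (qv q) (qv q) + q.1 * conj q.1 = 1 := by
    rw [herm_self, mul_conj', ← Complex.ofReal_add, h2, Complex.ofReal_one]
  have hee : herm ee ee = 1 := by
    rw [herm_self, h3, Complex.ofReal_one]
  refine ⟨?_, h1, ?_⟩
  · show sq (qv q - cm (la q p) (ee + cc p)) + ‖q.1 - la q p * (-conj p.1)‖ ^ 2 = 1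
    apply Complex.ofReal_injective
    rw [Complex.ofReal_add, ← herm_self, ← mul_conj', Complex.ofReal_one]
    simp only [herm_sub_left, herm_sub_right, herm_cm_left, herm_cm_right, herm_add_left,
      herm_add_right, h4, h4', h5, h5', h7, hee, map_sub, map_mul]
    have h8 : conj (mu q p) = conj (la q p) * (1 + (w0 p : ℂ)) := by
      rw [h6]; simp
    have h9 : conj (mu q p) = conj (herm (qv q) (cc p)) + conj q.1 * (-conj p.1) := by
      rw [mu]; simp
    have h10 : mu q p = herm (qv q) (cc p) + q.1 * conj (-conj p.1) := rfl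
    linear_combination hqq + la q p * conj (la q p) * hcc - conj (la q p) * h6
      + conj (la q p) * h10 - la q p * h8 + la q p * h9
  · show herm (qv q - cm (la q p) (ee + cc p)) (cc p) +
      (q.1 - la q p * (-conj p.1)) * conj (-conj p.1) = 0
    simp only [herm_sub_left, herm_cm_left, herm_add_left, h5]
    have h10 : mu q p = herm (qv q) (cc p) + q.1 * conj (-conj p.1) := rfl
    linear_combination h6 - h10 - la q p * hcc

theorem continuous_w0 : Continuous w0 := by
  unfold w0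
  fun_prop

theorem continuous_cc : Continuous cc := by
  refine continuous_pi fun i => ?_
  fin_cases i
  · exact Quaternion.continuous_coe.comp continuous_w0
  · exact continuous_fst.comp continuous_snd
  · exact continuous_snd.comp continuous_snd

theorem continuous_qv : Continuous qv := by
  refine continuous_pi fun i => ?_
  fin_cases i
  · exact (continuous_lc.comp (continuous_fst.comp continuous_snd)).mul continuous_const
  · exact continuous_fst.comp (continuous_snd.comp continuous_snd)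
  · exact continuous_snd.comp (continuous_snd.comp continuous_snd)

theorem continuous_la : Continuous fun x : (ℂ × ℂ × Hq × Hq) × (ℂ × Hq × Hq) => la x.1 x.2 := by
  have hz : Continuous fun x : (ℂ × ℂ × Hq × Hq) × (ℂ × Hq × Hq) => -conj x.2.1 :=
    (Complex.continuous_conj.comp (continuous_fst.comp continuous_snd)).neg
  have hmu : Continuous fun x : (ℂ × ℂ × Hq × Hq) × (ℂ × Hq × Hq) => mu x.1 x.2 :=
    (continuous_herm (continuous_qv.comp continuous_fst) (continuous_cc.comp continuous_snd)).add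
      ((continuous_fst.comp continuous_fst).mul (Complex.continuous_conj.comp hz))
  have hd : Continuous fun x : (ℂ × ℂ × Hq × Hq) × (ℂ × Hq × Hq) => ((1 + w0 x.2 : ℝ) : ℂ) :=
    Complex.continuous_ofReal.comp (continuous_const.add (continuous_w0.comp continuous_snd))
  refine hmu.div hd fun x => ?_
  rw [Complex.ofReal_ne_zero]
  have := w0_nonneg x.2
  positivity

theorem continuous_TT : Continuous TT := by
  have hz : Continuous fun x : (ℂ × ℂ × Hq × Hq) × (ℂ × Hq × Hq) => -conj x.2.1 :=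
    (Complex.continuous_conj.comp (continuous_fst.comp continuous_snd)).neg
  refine Continuous.prodMk (Continuous.prodMk ?_ ?_)
    (Continuous.prodMk (continuous_cc.comp continuous_snd) hz)
  · exact (continuous_qv.comp continuous_fst).sub
      (continuous_cm continuous_la (continuous_const.add (continuous_cc.comp continuous_snd)))
  · exact (continuous_fst.comp continuous_fst).sub (continuous_la.mul hz)

end TS_aux

open TS_aux

/-- TARGET -/
theorem TS : S_T := by
  refine ⟨fun x => ⟨TT (x.1.1, x.2.1), isFrame_TT (x.1.1, x.2.1) x.1.2 x.2.2⟩, ?_, ?_⟩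
  · refine Continuous.subtype_mk ?_ _
    exact continuous_TT.comp ((continuous_subtype_val.comp continuous_fst).prodMk
      (continuous_subtype_val.comp continuous_snd))
  · intro x hx
    have hw : w0 x.2.1 = 0 := by
      rw [w0, hx, sub_self, Real.sqrt_zero]
    refine ⟨?_, mu x.1.1 x.2.1, ?_, ?_⟩
    · show cc x.2.1 0 = 0
      simp [cc, hw]
    · rw [mu, herm, qv, cc, hw]
      simp only [Fin.sum_univ_three]
      simp
      ring
    · have hla : la x.1.1 x.2.1 = mu x.1.1 x.2.1 := by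
        rw [la, hw]; simp
      show ![(TT (x.1.1, x.2.1)).1.1 0, (TT (x.1.1, x.2.1)).1.1 1, (TT (x.1.1, x.2.1)).1.1 2,
        (TT (x.1.1, x.2.1)).2.1 1, (TT (x.1.1, x.2.1)).2.1 2] = _
      simp only [TT, hla]
      simp [qv, cc, ee, hw]

end

end Pool.Agent.Helper965_Rud

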