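import Pool.Agent.Helper965_Rud.Stmts2

/-!
JOB Y2h (MP_89fcdb_gt, owner helper965; disproof of a conjecture of Rudyak).
Setup: git fetch in outputs/live, copy Pool/Agent/Helper965_Rud/*.lean from origin/main (and Pool/Agent/Helper534/LS/*.lean)
to the same paths under /workdir/pool/Pool/Agent/, then `lake build` the modules imported here. Check with `lake env lean <file>`.
Helper965_Rud: Defs, Alg (algebra lemmas: herm_*, sq_*, rm, cm, jm, cp, lc), Basic (XN, XM, compactness), Stmts, StmtsTop, Stmts2 (the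
propositions S_...). The hypotheses S_... of the target are proved by other jobs: just use them.
Return the WHOLE file with the target proved (no sorry, no axiom, no native_decide; keep the name and the statement of the target).
Auxiliary lemmas: before the target, in the namespace Y2h_aux (open it before the target) or with names starting with Y2h_ .
Avoid straight double quotes and the words forbidden by RULES.md. If the statement is false or something is missing, say so in the note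
(status 'problem') with the reason. The final path of the file is Pool/Agent/Helper965_Rud/P_Y2h.lean .

PROOF. Stereographic projection: (z,s) ↦ z/(1-s), inverse ζ ↦ (2ζ/(1+|ζ|^2), (|ζ|^2-1)/(1+|ζ|^2)). For (z,s) on the sphere with (z,s) ≠ (0,1): s < 1 (if s = 1 then z = 0; |s| ≤ 1).
-/

set_option autoImplicit false

namespace Pool.Agent.Helper965_Rud

open scoped ComplexConjugate unitInterval
open Pool.Agent.Helper534.LS (HH hmap sub inl inr delta)

noncomputable section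

theorem Y2h_lt (y : {y : Y2 // y.1 ≠ (0, 1)}) : 0 < 1 - y.1.1.2 := by
  obtain ⟨⟨⟨z, s⟩, h⟩, hne⟩ := y
  change ‖z‖ ^ 2 + s ^ 2 = 1 at h
  change (z, s) ≠ (0, 1) at hne
  change 0 < 1 - s
  by_contra hcon
  have h1 : 1 ≤ s := by linarith
  have h2 : s = 1 := by nlinarith [sq_nonneg ‖z‖]
  rw [h2] at h
  have h3 : ‖z‖ ^ 2 = 0 := by linarith
  have h4 : z = 0 := norm_eq_zero.mp (pow_eq_zero_iff (two_ne_zero)|>.mp h3)
  exact hne (by rw [h2, h4])

/-- the stereographic projection -/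
def Y2h_f (y : {y : Y2 // y.1 ≠ (0, 1)}) : ℂ := (1 - y.1.1.2)⁻¹ • y.1.1.1

theorem Y2h_den (ζ : ℂ) : 0 < 1 + ‖ζ‖ ^ 2 := by positivity

/-- the inverse -/
def Y2h_g (ζ : ℂ) : {y : Y2 // y.1 ≠ (0, 1)} :=
  ⟨⟨((2 / (1 + ‖ζ‖ ^ 2)) • ζ, (‖ζ‖ ^ 2 - 1) / (1 + ‖ζ‖ ^ 2)), by
    have h := Y2h_den ζ
    rw [norm_smul, Real.norm_of_nonneg (by positivity)]
    field_simp
    ring⟩, by
    intro h
    have h1 : (‖ζ‖ ^ 2 - 1) / (1 + ‖ζ‖ ^ 2) = 1 := congrArg Prod.snd h
    rw [div_eq_one_iff_eq (Y2h_den ζ).ne'] at h1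
    linarith⟩

/-- TARGET -/
theorem Y2h : S_Y2 := by
  refine ⟨{ toFun := Y2h_f, invFun := Y2h_g, left_inv := ?_, right_inv := ?_,
            continuous_toFun := ?_, continuous_invFun := ?_ }⟩
  · intro y
    have h0 := Y2h_lt y
    apply Subtype.ext
    apply Subtype.ext
    obtain ⟨⟨⟨z, s⟩, h⟩, hne⟩ := y
    change ‖z‖ ^ 2 + s ^ 2 = 1 at h
    change 0 < 1 - s at h0
    change ((2 / (1 + ‖(1 - s)⁻¹ • z‖ ^ 2)) • ((1 - s)⁻¹ • z),
      (‖(1 - s)⁻¹ • z‖ ^ 2 - 1) / (1 + ‖(1 - s)⁻¹ • z‖ ^ 2)) = (z, s)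
    have hN : ‖(1 - s)⁻¹ • z‖ ^ 2 = (1 + s) / (1 - s) := by
      rw [norm_smul, norm_inv, Real.norm_of_nonneg h0.le, mul_pow]
      have h5 : ‖z‖ ^ 2 = (1 + s) * (1 - s) := by linarith
      rw [h5]
      field_simp
    have h6 : 1 + (1 + s) / (1 - s) = 2 / (1 - s) := by field_simp; ring
    rw [hN, h6]
    apply Prod.ext
    · change (2 / (2 / (1 - s))) • ((1 - s)⁻¹ • z) = z
      rw [smul_smul]
      have h7 : 2 / (2 / (1 - s)) * (1 - s)⁻¹ = 1 := by field_simp
      rw [h7, one_smul]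
    · change ((1 + s) / (1 - s) - 1) / (2 / (1 - s)) = s
      field_simp
      ring
  · intro ζ
    change (1 - (‖ζ‖ ^ 2 - 1) / (1 + ‖ζ‖ ^ 2))⁻¹ • ((2 / (1 + ‖ζ‖ ^ 2)) • ζ) = ζ
    have h := Y2h_den ζ
    rw [smul_smul]
    have h1 : (1 - (‖ζ‖ ^ 2 - 1) / (1 + ‖ζ‖ ^ 2)) = 2 / (1 + ‖ζ‖ ^ 2) := by
      field_simp
      ring
    have h2 : (2 / (1 + ‖ζ‖ ^ 2))⁻¹ * (2 / (1 + ‖ζ‖ ^ 2)) = 1 :=
      inv_mul_cancel₀ (by positivity)
    rw [h1, h2, one_smul]
  · have c1 : Continuous fun y : {y : Y2 // y.1 ≠ (0, 1)} => (y.1.1 : ℂ × ℝ) :=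
      continuous_subtype_val.comp continuous_subtype_val
    have c2 : Continuous fun y : {y : Y2 // y.1 ≠ (0, 1)} => (1 - y.1.1.2 : ℝ)⁻¹ :=
      (continuous_const.sub (continuous_snd.comp c1)).inv₀ (fun y => (Y2h_lt y).ne')
    exact c2.smul (continuous_fst.comp c1)
  · apply Continuous.subtype_mk
    apply Continuous.subtype_mk
    have c3 : Continuous fun ζ : ℂ => 1 + ‖ζ‖ ^ 2 := by fun_prop
    apply Continuous.prodMk
    · exact (continuous_const.div c3 (fun ζ => (Y2h_den ζ).ne')).smul continuous_id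
    · exact (by fun_prop : Continuous fun ζ : ℂ => ‖ζ‖ ^ 2 - 1).div c3
        (fun ζ => (Y2h_den ζ).ne')

end

end Pool.Agent.Helper965_Rud
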