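import Pool.Agent.Helper965_Rud.Stmts2

/-! # Approximation of equivariant maps by smooth ones -/

set_option autoImplicit false

namespace Pool.Agent.Helper965_Rud

open scoped ComplexConjugate unitInterval
open Pool.Agent.Helper534.LS (HH hmap sub inl inr delta)

noncomputable section

namespace approxS_aux

/-- real functions -/
theorem real (h : S_SW) (u : XN → ℝ) (hu : Continuous u) (hi : ∀ x g, u (act x g) = u x)
    {δ : ℝ} (hδ : 0 < δ) : ∃ F : AN → ℝ, ContDiff ℝ 1 F ∧ (∀ x g, F (aN x g) = F x) ∧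
      ∀ x : XN, |F x.1 - u x| < δ := by
  have hc : Continuous (Quotient.lift u (by
      rintro x _ ⟨g, rfl⟩
      exact (hi x g).symm) : NN → ℝ) := hu.quotient_lift _
  obtain ⟨F, hF, hFi, hFe⟩ := h _ hc δ hδ
  exact ⟨F, hF, hFi, fun x => hFe x⟩

/-- the basis -/
def b0 : Hq := ⟨1, 0, 0, 0⟩
/-- the basis -/
def b1 : Hq := ⟨0, 1, 0, 0⟩
/-- the basis -/
def b2 : Hq := ⟨0, 0, 1, 0⟩
/-- the basis -/
def b3 : Hq := ⟨0, 0, 0, 1⟩

@[simp] theorem b0_re : b0.re = 1 := rfl
@[simp] theorem b0_imI : b0.imI = 0 := rfl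
@[simp] theorem b0_imJ : b0.imJ = 0 := rfl
@[simp] theorem b0_imK : b0.imK = 0 := rfl
@[simp] theorem b1_re : b1.re = 0 := rfl
@[simp] theorem b1_imI : b1.imI = 1 := rfl
@[simp] theorem b1_imJ : b1.imJ = 0 := rfl
@[simp] theorem b1_imK : b1.imK = 0 := rfl
@[simp] theorem b2_re : b2.re = 0 := rfl
@[simp] theorem b2_imI : b2.imI = 0 := rfl
@[simp] theorem b2_imJ : b2.imJ = 1 := rfl
@[simp] theorem b2_imK : b2.imK = 0 := rfl
@[simp] theorem b3_re : b3.re = 0 := rfl
@[simp] theorem b3_imI : b3.imI = 0 := rfl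
@[simp] theorem b3_imJ : b3.imJ = 0 := rfl
@[simp] theorem b3_imK : b3.imK = 1 := rfl

theorem norm_b0 : ‖b0‖ = 1 := by
  have : ‖b0‖ * ‖b0‖ = 1 := by
    rw [← Quaternion.normSq_eq_norm_mul_self, Quaternion.normSq_def']
    simp [b0]
  nlinarith [norm_nonneg b0]
theorem norm_b1 : ‖b1‖ = 1 := by
  have : ‖b1‖ * ‖b1‖ = 1 := by
    rw [← Quaternion.normSq_eq_norm_mul_self, Quaternion.normSq_def']
    simp [b1]
  nlinarith [norm_nonneg b1]
theorem norm_b2 : ‖b2‖ = 1 := by
  have : ‖b2‖ * ‖b2‖ = 1 := by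
    rw [← Quaternion.normSq_eq_norm_mul_self, Quaternion.normSq_def']
    simp [b2]
  nlinarith [norm_nonneg b2]
theorem norm_b3 : ‖b3‖ = 1 := by
  have : ‖b3‖ * ‖b3‖ = 1 := by
    rw [← Quaternion.normSq_eq_norm_mul_self, Quaternion.normSq_def']
    simp [b3]
  nlinarith [norm_nonneg b3]

/-- quaternionic functions -/
theorem quat (h : S_SW) (u : XN → Hq) (hu : Continuous u) (hi : ∀ x g, u (act x g) = u x)
    {δ : ℝ} (hδ : 0 < δ) : ∃ F : AN → Hq, ContDiff ℝ 1 F ∧ (∀ x g, F (aN x g) = F x) ∧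
      ∀ x : XN, ‖F x.1 - u x‖ ≤ 4 * δ := by
  obtain ⟨F0, h0, i0, e0⟩ := real h (fun x => (u x).re) (Quaternion.continuous_re.comp hu)
    (fun x g => by simp only [hi]) hδ
  obtain ⟨F1, h1, i1, e1⟩ := real h (fun x => (u x).imI) (Quaternion.continuous_imI.comp hu)
    (fun x g => by simp only [hi]) hδ
  obtain ⟨F2, h2, i2, e2⟩ := real h (fun x => (u x).imJ) (Quaternion.continuous_imJ.comp hu)
    (fun x g => by simp only [hi]) hδ
  obtain ⟨F3, h3, i3, e3⟩ := real h (fun x => (u x).imK) (Quaternion.continuous_imK.comp hu)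
    (fun x g => by simp only [hi]) hδ
  refine ⟨fun x => F0 x • b0 + F1 x • b1 +
    F2 x • b2 + F3 x • b3, ?_, ?_, ?_⟩
  · exact (((h0.smul contDiff_const).add (h1.smul contDiff_const)).add
      (h2.smul contDiff_const)).add (h3.smul contDiff_const)
  · intro x g
    simp only [i0, i1, i2, i3]
  · intro x
    have key : F0 x.1 • b0 + F1 x.1 • b1 +
        F2 x.1 • b2 + F3 x.1 • b3 - u x =
        (F0 x.1 - (u x).re) • b0 + (F1 x.1 - (u x).imI) • b1 +
        (F2 x.1 - (u x).imJ) • b2 +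
        (F3 x.1 - (u x).imK) • b3 := by
      ext <;> simp
    rw [key]
    refine (norm_add_le _ _).trans ?_
    refine (add_le_add (norm_add_le _ _) le_rfl).trans ?_
    refine (add_le_add (add_le_add (norm_add_le _ _) le_rfl) le_rfl).trans ?_
    rw [norm_smul, norm_smul, norm_smul, norm_smul, norm_b0, norm_b1, norm_b2, norm_b3]
    have a0 := (e0 x).le
    have a1 := (e1 x).le
    have a2 := (e2 x).le
    have a3 := (e3 x).le
    simp only [Real.norm_eq_abs, mul_one]
    linarith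

/-- the six coordinates on the ambient space -/
def Ea (x : AN) : Fin 6 → Hq := ![x.1.1 0, x.1.1 1, x.1.1 2, x.2.1 0, x.2.1 1, x.2.1 2]

theorem Ea_eq (x : XN) : Ea x.1 = E6 x := rfl

theorem contDiff_Ea (k : Fin 6) : ContDiff ℝ 1 fun x : AN => Ea x k := by
  have h1 : ∀ i : Fin 3, ContDiff ℝ 1 fun x : AN => x.1.1 i := fun i =>
    (contDiff_apply ℝ Hq i).comp (contDiff_fst.comp contDiff_fst)
  have h2 : ∀ i : Fin 3, ContDiff ℝ 1 fun x : AN => x.2.1 i := fun i =>
    (contDiff_apply ℝ Hq i).comp (contDiff_fst.comp contDiff_snd)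
  fin_cases k
  · exact h1 0
  · exact h1 1
  · exact h1 2
  · exact h2 0
  · exact h2 1
  · exact h2 2

theorem Ea_aN (x : AN) (g : Sp1) (k : Fin 6) : Ea (aN x g) k = Ea x k * (g : Hq) := by
  fin_cases k <;> rfl

theorem norm_E6_le (x : XN) (k : Fin 6) : ‖E6 x k‖ ≤ 1 := by
  obtain ⟨h1, h2, -⟩ := x.2
  have ha : ‖x.1.1.1‖ ≤ 1 := norm_le_of_sq (by nlinarith [sq_nonneg ‖x.1.1.2‖])
  have hc : ‖x.1.2.1‖ ≤ 1 := norm_le_of_sq (by nlinarith [sq_nonneg ‖x.1.2.2‖])
  fin_cases k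
  · exact (norm_le_pi_norm x.1.1.1 0).trans ha
  · exact (norm_le_pi_norm x.1.1.1 1).trans ha
  · exact (norm_le_pi_norm x.1.1.1 2).trans ha
  · exact (norm_le_pi_norm x.1.2.1 0).trans hc
  · exact (norm_le_pi_norm x.1.2.1 1).trans hc
  · exact (norm_le_pi_norm x.1.2.1 2).trans hc

theorem sq_E6_pos (x : XN) : 0 < sq (E6 x) := by
  obtain ⟨k, hk⟩ := Function.ne_iff.1 (E6_ne_zero x)
  have h1 : ‖E6 x k‖ ^ 2 ≤ sq (E6 x) := Finset.single_le_sum (f := fun i => ‖E6 x i‖ ^ 2)
    (fun j _ => by positivity) (Finset.mem_univ k)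
  have h2 : 0 < ‖E6 x k‖ ^ 2 := by
    have : 0 < ‖E6 x k‖ := norm_pos_iff.2 hk
    positivity
  linarith

end approxS_aux

open approxS_aux

/-- TARGET -/
theorem approxS (h : S_SW) : S_approx := by
  intro Φ hΦ hΦe ε hε
  set f : Fin 5 → Fin 6 → XN → Hq := fun i k x => (sq (E6 x))⁻¹ • (Φ x i * star (E6 x k)) with hf
  have hfc : ∀ i k, Continuous (f i k) := by
    intro i k
    have h1 : Continuous fun x : XN => (sq (E6 x))⁻¹ :=
      (continuous_sq.comp continuous_E6).inv₀ fun x => (sq_E6_pos x).ne'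
    have h2 : Continuous fun x : XN => Φ x i := (continuous_apply i).comp hΦ
    have h3 : Continuous fun x : XN => E6 x k := (continuous_apply k).comp continuous_E6
    exact h1.smul (h2.mul h3.star)
  have hfi : ∀ i k x g, f i k (act x g) = f i k x := by
    intro i k x g
    simp only [hf]
    rw [hΦe, E6_eqv, sq_vm, vm_apply, vm_apply, star_mul, mul_assoc, ← mul_assoc (g : Hq),
      sp1_mul_star, one_mul]
  have hδ : 0 < ε / 48 := by positivity
  choose F hF hFi hFe using fun i k => quat h (f i k) (hfc i k) (hfi i k) hδ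
  refine ⟨fun x i => ∑ k, F i k x * Ea x k, ?_, ?_, ?_⟩
  · rw [contDiff_pi]
    intro i
    exact ContDiff.sum fun k _ => (hF i k).mul (contDiff_Ea k)
  · intro x g
    funext i
    simp only [vm_apply, Finset.sum_mul]
    refine Finset.sum_congr rfl fun k _ => ?_
    rw [hFi, Ea_aN, mul_assoc]
  · intro x
    rw [pi_norm_lt_iff hε]
    intro i
    have hs : Φ x i = ∑ k, f i k x * E6 x k := by
      have h1 : ∀ k, f i k x * E6 x k = (‖E6 x k‖ ^ 2) • ((sq (E6 x))⁻¹ • Φ x i) := by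
        intro k
        simp only [hf]
        rw [smul_mul_assoc, mul_assoc, Quaternion.star_mul_self,
          Quaternion.normSq_eq_norm_mul_self, ← Quaternion.coe_commutes,
          Quaternion.coe_mul_eq_smul, smul_comm, pow_two]
      rw [Finset.sum_congr rfl fun k _ => h1 k, ← Finset.sum_smul]
      show Φ x i = sq (E6 x) • _
      rw [smul_smul, mul_inv_cancel₀ (sq_E6_pos x).ne', one_smul]
    have h2 : (fun i => ∑ k, F i k x.1 * Ea x.1 k) i - Φ x i =
        ∑ k, (F i k x.1 - f i k x) * E6 x k := by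
      rw [hs, ← Finset.sum_sub_distrib]
      refine Finset.sum_congr rfl fun k _ => ?_
      rw [Ea_eq, sub_mul]
    show ‖(fun i => ∑ k, F i k x.1 * Ea x.1 k) i - Φ x i‖ < ε
    rw [h2]
    have h3 : ∀ k ∈ Finset.univ, ‖(F i k x.1 - f i k x) * E6 x k‖ ≤ 4 * (ε / 48) := by
      intro k _
      rw [norm_mul]
      have h4 := hFe i k x
      have h5 := norm_E6_le x k
      calc ‖F i k x.1 - f i k x‖ * ‖E6 x k‖ ≤ (4 * (ε / 48)) * 1 :=
            mul_le_mul h4 h5 (norm_nonneg _) (by positivity)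
        _ = 4 * (ε / 48) := mul_one _
    have h4 := norm_sum_le_of_le Finset.univ h3
    simp only [Finset.sum_const, Finset.card_univ, Fintype.card_fin, nsmul_eq_mul] at h4
    push_cast at h4
    linarith

end

end Pool.Agent.Helper965_Rud
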