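import Pool.Agent.Helper965_Rud.ASStmts

/-!
Proof of asBand: pull an invariant cocycle of the band back along the homotopy from the rim
parametrisation of the circle to the equator.
-/

set_option autoImplicit false

namespace Pool.Agent.Helper965_Rud.AS

open scoped ComplexConjugate
open Set

noncomputable section

/-- the height at time `t` -/
def asBand_sig (t : ℝ) : ℝ := (1 - t) / Real.sqrt 2

/-- the homotopy -/
def asBand_H (t : ℝ) (β : ℂ) : ℝ × ℂ :=
  (asBand_sig t, ((Real.sqrt (1 - asBand_sig t ^ 2) : ℝ) : ℂ) * β)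

theorem asBand_sig_sq (t : ℝ) : asBand_sig t ^ 2 = (1 - t) ^ 2 / 2 := by
  unfold asBand_sig
  rw [div_pow, Real.sq_sqrt (by norm_num)]

theorem asBand_sig_nonneg {t : ℝ} (ht : t ≤ 1) : 0 ≤ asBand_sig t := by
  unfold asBand_sig
  have : 0 ≤ 1 - t := by linarith
  positivity

theorem asBand_sig_le {t : ℝ} (h0 : 0 ≤ t) (h1 : t ≤ 1) : asBand_sig t ^ 2 ≤ 1 / 2 := by
  rw [asBand_sig_sq]
  nlinarith

theorem asBand_cont_sig : Continuous asBand_sig := by
  unfold asBand_sig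
  fun_prop

theorem asBand_cont : Continuous (fun z : ℝ × ℂ => asBand_H z.1 z.2) := by
  unfold asBand_H
  have h := asBand_cont_sig
  refine Continuous.prodMk (h.comp continuous_fst) ?_
  refine Continuous.mul ?_ continuous_snd
  exact Complex.continuous_ofReal.comp
    (Real.continuous_sqrt.comp (continuous_const.sub ((h.comp continuous_fst).pow 2)))

theorem asBand_norm {t : ℝ} {β : ℂ} (hβ : β ∈ C1) :
    ‖(asBand_H t β).2‖ = Real.sqrt (1 - asBand_sig t ^ 2) := by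
  have hb : ‖β‖ = 1 := hβ
  unfold asBand_H
  rw [norm_mul, hb, mul_one, Complex.norm_real, Real.norm_of_nonneg (Real.sqrt_nonneg _)]

theorem asBand_map (t : ℝ) (ht : t ∈ Icc (0 : ℝ) 1) (β : ℂ) (hβ : β ∈ C1) :
    asBand_H t β ∈ Band := by
  have hn := asBand_norm (t := t) hβ
  have hs := asBand_sig_le ht.1 ht.2
  have h0 := asBand_sig_nonneg ht.2
  have h1 : (asBand_H t β).1 = asBand_sig t := rfl
  refine ⟨?_, ?_⟩
  · show (asBand_H t β).1 ^ 2 + ‖(asBand_H t β).2‖ ^ 2 = 1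
    rw [hn, h1, Real.sq_sqrt (by linarith)]
    ring
  · show |(asBand_H t β).1| ≤ ‖(asBand_H t β).2‖
    rw [hn, h1, abs_of_nonneg h0]
    apply Real.le_sqrt_of_sq_le
    linarith

theorem asBand_isCompact_C1 : IsCompact C1 := by
  have : C1 = Metric.sphere (0 : ℂ) 1 := by
    ext z
    simp [C1]
  rw [this]
  exact isCompact_sphere 0 1

theorem asBand_isCompact_Rim : IsCompact Rim := by
  have hcl : IsClosed Rim := by
    have h1 : IsClosed {x : ℝ × ℂ | x.1 ^ 2 + ‖x.2‖ ^ 2 = 1} :=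
      isClosed_eq (by fun_prop) continuous_const
    have h2 : IsClosed {x : ℝ × ℂ | x.1 = ‖x.2‖} :=
      isClosed_eq (by fun_prop) (by fun_prop)
    exact h1.inter h2
  apply (isCompact_closedBall (0 : ℝ × ℂ) 1).of_isClosed_subset hcl
  intro x hx
  have hx1 : x.1 ^ 2 + ‖x.2‖ ^ 2 = 1 := hx.1
  rw [mem_closedBall_zero_iff, Prod.norm_def]
  apply max_le
  · rw [Real.norm_eq_abs]
    apply abs_le_of_sq_le_sq _ zero_le_one
    nlinarith [sq_nonneg ‖x.2‖]
  · nlinarith [sq_nonneg x.1, norm_nonneg x.2]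

theorem asBand_rim {y : ℝ × ℂ} (hy : y ∈ Rim) :
    y.1 = ‖y.2‖ ∧ Real.sqrt 2 * ‖y.2‖ = 1 ∧ 1 / Real.sqrt 2 = ‖y.2‖ := by
  have h1 : y.1 ^ 2 + ‖y.2‖ ^ 2 = 1 := hy.1
  have h2 : y.1 = ‖y.2‖ := hy.2
  have h3 : Real.sqrt 2 * ‖y.2‖ = 1 := by
    have h4 : (Real.sqrt 2 * ‖y.2‖) ^ 2 = 1 := by
      rw [mul_pow, Real.sq_sqrt (by norm_num)]
      rw [h2] at h1
      linarith
    have h5 : 0 ≤ Real.sqrt 2 * ‖y.2‖ := by positivity
    nlinarith
  refine ⟨h2, h3, ?_⟩
  have h6 : Real.sqrt 2 ≠ 0 := by positivity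
  rw [div_eq_iff h6, mul_comm]
  exact h3.symm

/-- TARGET -/
theorem asBand (h : S_circ) : S_band := by
  intro γ hγ hinv
  have hc : ∀ t : ℝ, Continuous (asBand_H t) := fun t =>
    asBand_cont.comp (continuous_const.prodMk continuous_id)
  have h01 : (1 : ℝ) ∈ Icc (0 : ℝ) 1 := ⟨zero_le_one, le_rfl⟩
  have hh := homot (X := Band) asBand_isCompact_C1 asBand_H asBand_cont.continuousOn
    (fun t ht x hx => asBand_map t ht x hx) hγ
  have hco : Coc C1 2 (pb (asBand_H 1) γ) :=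
    coc_pb asBand_isCompact_C1 _ (hc 1).continuousOn (fun y hy => asBand_map 1 h01 y hy) hγ
  have hni : Nl C1 2 (pb (asBand_H 1) γ - pb (fun z => -z) (pb (asBand_H 1) γ)) := by
    have h1 := nl_pb asBand_isCompact_C1 (asBand_H 1) (hc 1).continuousOn
      (fun y hy => asBand_map 1 h01 y hy) hinv
    rw [pb_sub, pb_pb] at h1
    rw [pb_pb]
    have e : (fun x : ℂ => asBand_H 1 (-x)) = fun x => -(asBand_H 1 x) := by
      funext x
      unfold asBand_H asBand_sig
      simp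
    rw [e]
    exact h1
  have h1 := h _ hco hni
  have h0 : Cob C1 2 (pb (asBand_H 0) γ) := by
    have := h1.sub hh
    rwa [sub_sub_cancel] at this
  refine cob_of_pb asBand_isCompact_Rim (fun x => ((Real.sqrt 2 : ℝ) : ℂ) * x.2) (asBand_H 0)
    (X := C1) (by fun_prop) ?_ ?_ h0
  · intro y hy
    show ‖((Real.sqrt 2 : ℝ) : ℂ) * y.2‖ = 1
    rw [norm_mul, Complex.norm_real, Real.norm_of_nonneg (Real.sqrt_nonneg _)]
    exact (asBand_rim hy).2.1
  · intro y hy
    obtain ⟨h2, h3, h4⟩ := asBand_rim hy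
    have hs : asBand_sig 0 = y.1 := by
      unfold asBand_sig
      rw [sub_zero, h4, h2]
    have hq : Real.sqrt (1 - asBand_sig 0 ^ 2) = 1 / Real.sqrt 2 := by
      rw [asBand_sig_sq, ← Real.sqrt_one, ← Real.sqrt_div zero_le_one, Real.sqrt_one]
      norm_num
    apply Prod.ext
    · exact hs
    · show ((Real.sqrt (1 - asBand_sig 0 ^ 2) : ℝ) : ℂ) * (((Real.sqrt 2 : ℝ) : ℂ) * y.2) = y.2
      rw [hq, ← mul_assoc, ← Complex.ofReal_mul, one_div_mul_cancel (by positivity),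
        Complex.ofReal_one, one_mul]

end

end Pool.Agent.Helper965_Rud.AS
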