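
import Pool.Agent.Helper965_Rud.ASStmts

/-! # The end of the induction: there is no `u`, `i` with the property `PP K 0` -/

set_option autoImplicit false

namespace Pool.Agent.Helper965_Rud.AS

open scoped ComplexConjugate
open Set

noncomputable section

theorem asBase_R2_compact : IsCompact R2 := by
  apply Metric.isCompact_of_isClosed_isBounded
  · exact isClosed_eq (by fun_prop) continuous_const
  · refine (Metric.isBounded_closedBall (x := (0 : ℝ × ℂ)) (r := 1)).subset ?_
    intro x hx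
    have hx' : x.1 ^ 2 + ‖x.2‖ ^ 2 = 1 := hx
    rw [mem_closedBall_zero_iff, Prod.norm_def]
    apply max_le
    · rw [Real.norm_eq_abs]
      exact abs_le_one_iff_mul_self_le_one.2 (by nlinarith [sq_nonneg ‖x.2‖])
    · nlinarith [sq_nonneg x.1, norm_nonneg x.2]

theorem asBase_T2_compact : IsCompact T2 := by
  apply Metric.isCompact_of_isClosed_isBounded
  · exact isClosed_eq (by fun_prop) continuous_const
  · refine (Metric.isBounded_closedBall (x := (0 : ℂ × ℝ)) (r := 1)).subset ?_
    intro x hx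
    have hx' : ‖x.1‖ ^ 2 + x.2 ^ 2 = 1 := hx
    rw [mem_closedBall_zero_iff, Prod.norm_def]
    apply max_le
    · nlinarith [sq_nonneg x.2, norm_nonneg x.1]
    · rw [Real.norm_eq_abs]
      exact abs_le_one_iff_mul_self_le_one.2 (by nlinarith [sq_nonneg ‖x.1‖])

/-- the projection -/
def asBase_pi (K : ℕ) (w : Fin 5 → ℝ) : EX K := rho w 0

/-- the inclusion of the two-sphere -/
def asBase_j (x : ℝ × ℂ) : Fin 5 → ℝ := ![x.1, 0, 0, x.2.re, x.2.im]

/-- the map between the two models -/
def asBase_ka (K : ℕ) (x : ℂ × ℝ) : ES K := (x.1, 0, x.2)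

/-- the map back -/
def asBase_kb (K : ℕ) (x : ES K) : ℂ × ℝ := (x.1, x.2.2)

theorem asBase_pi_neg (K : ℕ) (w : Fin 5 → ℝ) : asBase_pi K (-w) = asBase_pi K w := by
  unfold asBase_pi rho
  simp

theorem asBase_j_neg (x : ℝ × ℂ) : asBase_j (-x) = -(asBase_j x) := by
  unfold asBase_j
  funext i
  fin_cases i <;> simp

theorem asBase_pi_cont (K : ℕ) : Continuous (asBase_pi K) := by
  unfold asBase_pi rho
  fun_prop

theorem asBase_j_cont : Continuous asBase_j := by
  unfold asBase_j
  apply continuous_pi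
  intro i
  fin_cases i
  · exact continuous_fst
  · exact continuous_const
  · exact continuous_const
  · exact Complex.continuous_re.comp continuous_snd
  · exact Complex.continuous_im.comp continuous_snd

theorem asBase_ka_cont (K : ℕ) : Continuous (asBase_ka K) := by
  unfold asBase_ka
  fun_prop

theorem asBase_kb_cont (K : ℕ) : Continuous (asBase_kb K) := by
  unfold asBase_kb
  fun_prop

theorem asBase_QQ (K : ℕ) (x : ℝ × ℂ) :
    QQ K (asBase_pi K (asBase_j x)) = asBase_ka K (q2 x) := by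
  obtain ⟨s, b⟩ := x
  unfold QQ asBase_pi asBase_j asBase_ka q2 rho
  refine Prod.ext ?_ (Prod.ext ?_ ?_)
  · apply Complex.ext
    · simp [mul_assoc]
    · simp [mul_assoc]
  · funext i
    simp
  · simp only [Matrix.cons_val, Pi.zero_apply]
    rw [← Complex.normSq_eq_norm_sq, Complex.normSq_apply]
    simp
    ring

theorem asBase_norm_j (x : ℝ × ℂ) (hx : x ∈ R2) : ∑ i, asBase_j x i ^ 2 = 1 := by
  have hx' : x.1 ^ 2 + ‖x.2‖ ^ 2 = 1 := hx
  rw [← Complex.normSq_eq_norm_sq, Complex.normSq_apply] at hx'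
  unfold asBase_j
  simp [Fin.sum_univ_succ]
  linarith

/-- TARGET -/
theorem asBase (h1 : S_MS) (h2 : S_comp) (h3 : S_baseA) (h4 : S_baseB) : S_base := by
  intro K hP
  obtain ⟨u, i, hu, hcup, hi, hni, hr⟩ := hP
  obtain ⟨e', he'⟩ := hcup
  obtain ⟨g, hg⟩ := hr
  have hcM : IsCompact (MS 5 5) := (h1 5 5 le_rfl).1
  have hcR := asBase_R2_compact
  have hcT := asBase_T2_compact
  -- the maps
  have hpiM : ∀ w ∈ MS 5 5, asBase_pi K w ∈ XX K 0 := by
    intro w hw
    refine ⟨w, 0, rfl, ?_, fun _ _ => rfl⟩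
    simpa using hw.1
  have hjM : ∀ x ∈ R2, asBase_j x ∈ MS 5 5 := by
    intro x hx
    refine ⟨asBase_norm_j x hx, fun i hi => ?_⟩
    exact absurd i.2 (by omega)
  have hpj : ∀ x ∈ R2, asBase_pi K (asBase_j x) ∈ XP K 0 := by
    intro x hx
    refine ⟨asBase_j x, 0, rfl, ?_, fun _ _ => rfl, rfl, rfl⟩
    have := asBase_norm_j x hx
    simpa using this
  have hpjc : Continuous fun x => asBase_pi K (asBase_j x) :=
    (asBase_pi_cont K).comp asBase_j_cont
  have hkaM : ∀ x ∈ T2, asBase_ka K x ∈ SS K 0 := by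
    intro x hx
    have hx' : ‖x.1‖ ^ 2 + x.2 ^ 2 = 1 := hx
    refine ⟨?_, fun _ _ => rfl⟩
    simpa [asBase_ka] using hx'
  have hkbM : ∀ x ∈ SS K 0, asBase_kb K x ∈ T2 := by
    intro x hx
    obtain ⟨hx1, hx2⟩ := hx
    have h0 : ∀ i, x.2.1 i = 0 := fun i => hx2 i (Nat.zero_le _)
    show ‖x.1‖ ^ 2 + x.2.2 ^ 2 = 1
    simpa [h0] using hx1
  have hkab : ∀ x ∈ SS K 0, asBase_ka K (asBase_kb K x) = x := by
    intro x hx
    obtain ⟨hx1, hx2⟩ := hx
    have h0 : x.2.1 = 0 := funext fun i => hx2 i (Nat.zero_le _)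
    refine Prod.ext rfl (Prod.ext h0.symm rfl)
  -- the invariant cocycle
  have hU : Coc (MS 5 5) 3 (pb (asBase_pi K) u) :=
    coc_pb hcM (asBase_pi K) (asBase_pi_cont K).continuousOn hpiM hu
  have hUinv : ∀ c : List (EX K) → ZMod 2, ∀ l : List (Fin 5 → ℝ),
      pb (asBase_pi K) c (l.map fun w => -w) = pb (asBase_pi K) c l := by
    intro c l
    show c ((l.map fun w => -w).map (asBase_pi K)) = c (l.map (asBase_pi K))
    rw [List.map_map]
    congr 1
    apply List.map_congr_left
    intro w _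
    exact asBase_pi_neg K w
  obtain ⟨b, hb1, hb2⟩ := h3 (pb (asBase_pi K) u) hU (hUinv u)
    ⟨pb (asBase_pi K) e', hUinv e', by
      have h := nl_pb hcM (asBase_pi K) (asBase_pi_cont K).continuousOn hpiM he'
      rw [pb_sub, ← d_pb] at h
      rw [cup_pb]
      exact h⟩
  -- restriction to the two-sphere
  have hA := nl_pb hcR (fun x => asBase_pi K (asBase_j x)) hpjc.continuousOn hpj hg
  rw [pb_sub, pb_sub, ← d_pb, pb_pb] at hA
  have hfun : (fun x => QQ K (asBase_pi K (asBase_j x))) = fun x => asBase_ka K (q2 x) :=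
    funext (asBase_QQ K)
  rw [hfun, ← pb_pb (asBase_ka K) q2 i] at hA
  have hB := nl_pb hcR asBase_j asBase_j_cont.continuousOn hjM hb2
  rw [pb_sub, ← d_pb, pb_pb] at hB
  have hC := nl_pb hcR asBase_j asBase_j_cont.continuousOn hjM hb1
  rw [pb_sub, pb_pb] at hC
  have hi2 : Coc T2 3 (pb (asBase_ka K) i) :=
    coc_pb hcT (asBase_ka K) (asBase_ka_cont K).continuousOn hkaM hi
  have hfin : Cob T2 3 (pb (asBase_ka K) i) := by
    apply h4 (pb (asBase_ka K) i)
      (pb asBase_j b - pb (fun x => asBase_pi K (asBase_j x)) g) hi2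
    · have e1 : pb (fun x => -x) (pb asBase_j b - pb (fun x => asBase_pi K (asBase_j x)) g) =
          pb (fun x => -(asBase_j x)) b - pb (fun x => asBase_pi K (asBase_j x)) g := by
        rw [pb_sub, pb_pb, pb_pb]
        congr 1
        · congr 1
          funext x
          exact asBase_j_neg x
        · congr 1
          funext x
          rw [asBase_j_neg, asBase_pi_neg]
      rw [e1, sub_sub_sub_cancel_right]
      exact hC
    · have h := hB.sub hA
      rw [d_sub]
      convert h using 1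
      abel
  exact hni (cob_of_pb (h2 K 0).2.2 (asBase_kb K) (asBase_ka K) (asBase_kb_cont K).continuousOn
    hkbM hkab hfin)

end

end Pool.Agent.Helper965_Rud.AS
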