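import Pool.Agent.Helper965_Rud.ASStmts

/-!
JOB asBaseA (MP_89fcdb_gt, owner helper965; disproof of a conjecture of Rudyak; part: Alexander-Spanier cochains mod 2).
Setup: git fetch in outputs/live, copy Pool/Agent/Helper965_Rud/*.lean from origin/main
to the same paths under /workdir/pool/Pool/Agent/, then `lake build Pool.Agent.Helper965_Rud.ASStmts`. Check with `lake env lean <file>`.
Cochains are ALL functions List Ω → ZMod 2 (see ASDefs: d, Sm X ε l = the list l is in X with pairwise distances < ε, Nl X q c = c vanishes on small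
lists of length q in X, Coc, Cob, HV X q = the cohomology of X in length q vanishes, H1, pb f c = fun l => c (l.map f), d_add, d_sub, d_d, d_pb, Nl.add, Nl.sub, Nl.mono, Nl.d,
Cob.add, ..., prism). ASMV: MV.mv_glue. ASSusp: coc_of_two, mv, susp. ASHomot: Homot.acyclic_of_contract (contractible compact sets are acyclic). ASPull: nl_pb, coc_pb, cob_pb, homot
(homotopy invariance), HV.of_retract, cob_of_pb, hv_zero, empty_h1, empty_hv. ASCup: cup r p q x y (cup-(r-1) product of x of length p and y of length q, which has length p+q-r),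
cup_add_l, cup_add_r, cup_pb, d_cup, Nl.cup_left, Nl.cup_right. Coefficients ZMod 2: c + c = 0 (CharTwo.add_self_eq_zero), c - c' = c + c' (CharTwo.sub_eq_add).
The hypotheses S_... of the target are proved by other jobs: just use them.
Return the WHOLE file with the target proved (no sorry, no axiom, no native_decide; keep the name and the statement of the target).
Auxiliary lemmas: before the target, with names starting with asBaseA_ .
Avoid straight double quotes and the words forbidden by RULES.md. If the statement is false or something is missing, say so in the note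
(status 'problem') with the reason. The final path of the file is Pool/Agent/Helper965_Rud/P_asBaseA.lean .

PROOF. S = MS 5 5, HV S q for q ≠ 5. Write T c = pb (fun w => -w) c; T T c = c (pb_pb, neg_neg), T commutes with d (d_pb), with cup (cup_pb), and preserves Nl, Coc, Cob on S (nl_pb: w ↦ -w maps S to S). All equalities below are modulo Nl S (length). Coefficients mod 2. ∪ denotes cup 1 with the appropriate lengths.
T U = U (exactly) and T e = e. U = d a (a of length 2; HV S 3). c1 = a + T a (length 2): d c1 = U + T U = 0, so c1 = d a1 (HV S 2), a1 of length 1. c0 = a1 + T a1 (length 1): d c0 = c1 + T c1 = 0, so c0 = d l0 (HV S 1), where on lists of length 1, (d l0) [x] = l0 [] =: λ. So a1 (-x) + a1 x = λ for all x in S (lists of length one are small).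
U ∪ U := cup 1 3 3 U U = d e (length 5). d (cup 1 2 3 a U) = cup 1 3 3 (d a) U + cup 1 2 4 a (d U) + cup 0 2 3 a U + cup 0 3 2 U a, and cup 0 p q x y = 0 for q > 0 (F_zero: it is res x l * res y [] and res q y [] = 0). So d (a ∪ U) = U ∪ U, a ∪ U + e is a cocycle of length 4, a ∪ U + e = d g (HV S 4). Apply 1 + T: c1 ∪ U = d g', g' = g + T g (length 3).
d (cup 1 1 3 a1 U) = cup 1 2 3 (d a1) U = c1 ∪ U. So cup 1 1 3 a1 U + g' is a cocycle of length 3, = d g2. Apply 1 + T (g' is T-invariant): cup 1 1 3 c0 U = d (g2 + T g2). And cup 1 1 3 c0 U = λ U on small lists of length 3 in S: with F = F 1: on [x,y,z], cup 1 1 3 c0 U [x,y,z] = c0 [x] * U [x,y,z] (unfold Fv / F_cons_succ: F 1 (res 1 c0) (res 3 U) (p :: l) = F 1 (0 part)...;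
or use d_cup for the length zero cochain l0). So λ U = d g3, g3 = g2 + T g2, T g3 = g3.
Case λ = 1: U = d g3, a + g3 is a cocycle of length 2, a + g3 = d g4, g4 of length 1. Apply 1+T: c1 = d (g4 + T g4). a1 + g4 + T g4 is a cocycle of length 1, so equal to a constant μ on S (HV S 1). Apply 1+T: a1 + T a1 + 0 = μ + μ = 0 so λ = 0 (S is nonempty). Contradiction.
Case λ = 0: a1 (-x) = a1 x for x in S. Let eps : (Fin 5 → ℝ) → ZMod 2 be any function with eps x + eps (-x) = 1 for x ≠ 0 (e.g. 1 if the first nonzero coordinate is positive, or via a choice from each pair; no continuity). Let s be the cochain s l = (if l = [x] then eps x * a1 [x] else 0), b = a + d s. On S: (s + T s) [x] = (eps x + eps (-x)) a1 [x] = a1 [x].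
So b + T b = c1 + d (s + T s) = c1 + d a1 = 0 (length 2), and d b = d a = U (length 3).
-/

set_option autoImplicit false

namespace Pool.Agent.Helper965_Rud.AS

open scoped ComplexConjugate
open Set

noncomputable section


/-- the antipodal map on cochains -/
def asBaseA_T (c : List (Fin 5 → ℝ) → ZMod 2) : List (Fin 5 → ℝ) → ZMod 2 := pb (fun w => -w) c

theorem asBaseA_TT (c : List (Fin 5 → ℝ) → ZMod 2) : asBaseA_T (asBaseA_T c) = c := by
  unfold asBaseA_T
  rw [pb_pb]
  funext l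
  show c (l.map fun x => - -x) = c l
  simp

theorem asBaseA_Tadd (b c : List (Fin 5 → ℝ) → ZMod 2) :
    asBaseA_T (b + c) = asBaseA_T b + asBaseA_T c := rfl

theorem asBaseA_Tsub (b c : List (Fin 5 → ℝ) → ZMod 2) :
    asBaseA_T (b - c) = asBaseA_T b - asBaseA_T c := rfl

theorem asBaseA_Td (c : List (Fin 5 → ℝ) → ZMod 2) : asBaseA_T (d c) = d (asBaseA_T c) :=
  (d_pb _ _).symm

theorem asBaseA_Tcup (r p q : ℕ) (x y : List (Fin 5 → ℝ) → ZMod 2) :
    asBaseA_T (cup r p q x y) = cup r p q (asBaseA_T x) (asBaseA_T y) := (cup_pb _ _ _ _ _ _).symm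

theorem asBaseA_neg {x : Fin 5 → ℝ} (hx : x ∈ MS 5 5) : -x ∈ MS 5 5 := by
  obtain ⟨h1, h2⟩ := hx
  refine ⟨?_, fun i hi => by rw [Pi.neg_apply, h2 i hi, neg_zero]⟩
  rw [← h1]
  exact Finset.sum_congr rfl fun i _ => by rw [Pi.neg_apply, neg_sq]

theorem asBaseA_Tnl (hc : IsCompact (MS 5 5)) {q : ℕ} {c : List (Fin 5 → ℝ) → ZMod 2}
    (h : Nl (MS 5 5) q c) : Nl (MS 5 5) q (asBaseA_T c) :=
  nl_pb hc _ continuous_neg.continuousOn (fun _ hy => asBaseA_neg hy) h

theorem asBaseA_two : (2 : List (Fin 5 → ℝ) → ZMod 2) = 0 := by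
  funext l
  rfl

theorem asBaseA_cup0 (p q : ℕ) (hq : q ≠ 0) (x y : List (Fin 5 → ℝ) → ZMod 2) :
    cup 0 p q x y = 0 := by
  funext l
  unfold cup
  rw [F_zero, res_ne y (l := []) (by simpa using hq.symm), mul_zero]
  rfl

/-- `Nl` from an equality of cochains -/
theorem asBaseA_of {q : ℕ} {b c : List (Fin 5 → ℝ) → ZMod 2} (h : Nl (MS 5 5) q b) (e : b = c) :
    Nl (MS 5 5) q c := e ▸ h

theorem asBaseA_one {lam : ZMod 2} {l0 c0 : List (Fin 5 → ℝ) → ZMod 2} (hl : l0 [] = lam)
    (h : Nl (MS 5 5) 1 (c0 - d l0)) {x : Fin 5 → ℝ} (hx : x ∈ MS 5 5) : c0 [x] = lam := by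
  obtain ⟨ε, hε, h⟩ := h
  have h1 := h [x] rfl ⟨by simpa using hx, by simpa using hε⟩
  rw [Pi.sub_apply, d_cons, d_nil, sub_zero, hl, sub_eq_zero] at h1
  exact h1

theorem asBaseA_cup3 {lam : ZMod 2} {c0 U : List (Fin 5 → ℝ) → ZMod 2}
    (h : ∀ x ∈ MS 5 5, c0 [x] = lam) : Nl (MS 5 5) 3 (cup 1 1 3 c0 U - lam • U) := by
  refine ⟨1, one_pos, fun l hl hs => ?_⟩
  match l, hl, hs with
  | [x, y, z], _, hs =>
    have hx := h x (hs.1 x (by simp))
    simp [cup, F, Fv, res, hx, mul_comm]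

theorem asBaseA_exists_eps : ∃ eps : (Fin 5 → ℝ) → ZMod 2, ∀ x, x ≠ 0 → eps x + eps (-x) = 1 := by
  classical
  refine ⟨fun x => if WellOrderingRel x (-x) then 1 else 0, fun x hx => ?_⟩
  have hne : x ≠ -x := by
    intro h
    apply hx
    funext i
    have := congrFun h i
    rw [Pi.neg_apply] at this
    show x i = 0
    linarith
  simp only [neg_neg]
  rcases trichotomous_of (WellOrderingRel (α := Fin 5 → ℝ)) x (-x) with h | h | h
  · have h' : ¬ WellOrderingRel (-x) x := asymm h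
    rw [if_pos h, if_neg h', add_zero]
  · exact absurd h hne
  · have h' : ¬ WellOrderingRel x (-x) := asymm h
    rw [if_neg h', if_pos h, zero_add]

theorem asBaseA_ne {x : Fin 5 → ℝ} (hx : x ∈ MS 5 5) : x ≠ 0 := by
  rintro rfl
  have := hx.1
  simp at this

theorem asBaseA_nonempty : (Pi.single 0 1 : Fin 5 → ℝ) ∈ MS 5 5 := by
  refine ⟨?_, fun i hi => absurd i.2 (by omega)⟩
  rw [Finset.sum_eq_single 0]
  · simp
  · intro b _ hb
    rw [Pi.single_eq_of_ne hb]; norm_num
  · intro h; exact absurd (Finset.mem_univ _) h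

/-- TARGET -/
theorem asBaseA (h : S_MS) : S_baseA := by
  intro U hU hTU' ⟨e, hTe', he⟩
  obtain ⟨hcomp, hS, -⟩ := h 5 5 le_rfl
  have hTU : asBaseA_T U = U := funext hTU'
  have hTe : asBaseA_T e = e := funext hTe'
  have h2 := asBaseA_two
  have TT := asBaseA_TT
  have Td := asBaseA_Td
  have Tn := fun {q : ℕ} {c : List (Fin 5 → ℝ) → ZMod 2} (h : Nl (MS 5 5) q c) => asBaseA_Tnl hcomp h
  have of := fun {q : ℕ} {b c : List (Fin 5 → ℝ) → ZMod 2} (h : Nl (MS 5 5) q b) (e : b = c) =>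
    asBaseA_of h e
  -- U = d a
  obtain ⟨a, ha⟩ := hS 3 (by norm_num) U hU
  obtain ⟨c1, hc1⟩ : ∃ c1, c1 = a + asBaseA_T a := ⟨_, rfl⟩
  have Tc1 : asBaseA_T c1 = c1 := by
    rw [hc1, asBaseA_Tadd, TT]; ring
  have dc1 : Nl (MS 5 5) 3 (d c1) := by
    refine of (ha.add (Tn ha)) ?_
    rw [asBaseA_Tsub, hc1, d_add, Td, hTU]
    linear_combination (U - d a - d (asBaseA_T a)) * h2
  -- c1 = d a1
  obtain ⟨a1, ha1⟩ := hS 2 (by norm_num) c1 dc1
  obtain ⟨c0, hc0⟩ : ∃ c0, c0 = a1 + asBaseA_T a1 := ⟨_, rfl⟩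
  have Tc0 : asBaseA_T c0 = c0 := by
    rw [hc0, asBaseA_Tadd, TT]; ring
  have dc0 : Nl (MS 5 5) 2 (d c0) := by
    refine of (ha1.add (Tn ha1)) ?_
    rw [asBaseA_Tsub, hc0, d_add, Td, Tc1]
    linear_combination (c1 - d a1 - d (asBaseA_T a1)) * h2
  obtain ⟨l0, hl0⟩ := hS 1 (by norm_num) c0 dc0
  obtain ⟨lam, hlam⟩ : ∃ lam, lam = l0 [] := ⟨_, rfl⟩
  have hc0x : ∀ x ∈ MS 5 5, c0 [x] = lam := fun x hx => asBaseA_one hlam.symm hl0 hx
  have hc0x' : ∀ x ∈ MS 5 5, a1 [x] + a1 [-x] = lam := fun x hx => by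
    rw [← hc0x x hx, hc0]; rfl
  -- a U + e = d g
  have hdU : Nl (MS 5 5) 4 (d U) := hU
  have df : Nl (MS 5 5) 5 (d (cup 1 2 3 a U + e)) := by
    have k1 : Nl (MS 5 5) 5 (cup 1 3 3 (U - d a) U) := Nl.cup_left ha _ _ _ _
    have k2 : Nl (MS 5 5) 5 (cup 1 2 4 a (d U)) := Nl.cup_right hdU _ _ _ _
    refine of ((k1.add k2).add he) ?_
    have e1 : cup 1 3 3 (U - d a) U = cup 1 3 3 U U + cup 1 3 3 (d a) U := by
      have : U - d a = U + d a := by linear_combination (- d a) * h2
      rw [this, cup_add_l]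
    rw [d_add, d_cup, e1, asBaseA_cup0 2 3 (by norm_num), asBaseA_cup0 3 2 (by norm_num)]
    linear_combination (cup 1 3 3 U U - d e) * h2
  obtain ⟨g, hg⟩ := hS 4 (by norm_num) _ df
  obtain ⟨g', hg'⟩ : ∃ g', g' = g + asBaseA_T g := ⟨_, rfl⟩
  have Tg' : asBaseA_T g' = g' := by
    rw [hg', asBaseA_Tadd, TT]; ring
  have hc1U : Nl (MS 5 5) 4 (cup 1 2 3 c1 U - d g') := by
    refine of (hg.add (Tn hg)) ?_
    rw [asBaseA_Tsub, asBaseA_Tadd, asBaseA_Tcup, hTU, hTe, Td, hg', d_add, hc1, cup_add_l]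
    linear_combination e * h2
  -- a1 U + g' = d g2
  have dh : Nl (MS 5 5) 4 (d (cup 1 1 3 a1 U + g')) := by
    have k1 : Nl (MS 5 5) 4 (cup 1 2 3 (c1 - d a1) U) := Nl.cup_left ha1 _ _ _ _
    have k2 : Nl (MS 5 5) 4 (cup 1 1 4 a1 (d U)) := Nl.cup_right hdU _ _ _ _
    refine of ((k1.add k2).add hc1U) ?_
    have e1 : cup 1 2 3 (c1 - d a1) U = cup 1 2 3 c1 U + cup 1 2 3 (d a1) U := by
      have : c1 - d a1 = c1 + d a1 := by linear_combination (- d a1) * h2
      rw [this, cup_add_l]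
    rw [d_add, d_cup, e1, asBaseA_cup0 1 3 (by norm_num), asBaseA_cup0 3 1 (by norm_num)]
    linear_combination (cup 1 2 3 c1 U - d g') * h2
  obtain ⟨g2, hg2⟩ := hS 3 (by norm_num) _ dh
  obtain ⟨g3, hg3⟩ : ∃ g3, g3 = g2 + asBaseA_T g2 := ⟨_, rfl⟩
  have Tg3 : asBaseA_T g3 = g3 := by
    rw [hg3, asBaseA_Tadd, TT]; ring
  have hc0U : Nl (MS 5 5) 3 (cup 1 1 3 c0 U - d g3) := by
    refine of (hg2.add (Tn hg2)) ?_
    rw [asBaseA_Tsub, asBaseA_Tadd, asBaseA_Tcup, hTU, Tg', Td, hg3, d_add, hc0, cup_add_l]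
    linear_combination g' * h2
  have hlU : Nl (MS 5 5) 3 (lam • U - d g3) := by
    refine of (hc0U.sub (asBaseA_cup3 (U := U) hc0x)) ?_
    ring
  have hz2 : ∀ z : ZMod 2, z = 0 ∨ z = 1 := by decide
  rcases hz2 lam with h0 | h1
  · -- the case zero
    obtain ⟨eps, heps⟩ := asBaseA_exists_eps
    let s : List (Fin 5 → ℝ) → ZMod 2 := fun l => match l with
      | [x] => eps x * a1 [x]
      | _ => 0
    have hs : Nl (MS 5 5) 1 (s + asBaseA_T s - a1) := by
      refine ⟨1, one_pos, fun l hl hsm => ?_⟩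
      match l, hl, hsm with
      | [x], _, hsm =>
        have hx : x ∈ MS 5 5 := hsm.1 x (by simp)
        have e1 := hc0x' x hx
        have e2 := heps x (asBaseA_ne hx)
        rw [h0] at e1
        have e3 : a1 [-x] = a1 [x] := by
          have h2' : (2 : ZMod 2) = 0 := rfl
          linear_combination e1 - a1 [x] * h2'
        show eps x * a1 [x] + eps (-x) * a1 [-x] - a1 [x] = 0
        rw [e3]
        linear_combination a1 [x] * e2
    refine ⟨a + d s, ?_, ?_⟩
    · refine of (ha1.add hs.d) ?_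
      show _ = a + d s - asBaseA_T (a + d s)
      rw [asBaseA_Tadd, Td, d_sub, d_add, hc1]
      linear_combination (asBaseA_T a - d a1 + d (asBaseA_T s)) * h2
    · rw [d_add, d_d, add_zero]
      exact ha
  · -- the case one
    exfalso
    rw [h1, one_smul] at hlU
    have k1 : Nl (MS 5 5) 3 (d (a + g3)) := by
      refine of (ha.add hlU) ?_
      rw [d_add]
      linear_combination (U - d a - d g3) * h2
    obtain ⟨g4, hg4⟩ := hS 2 (by norm_num) _ k1
    have k2 : Nl (MS 5 5) 2 (c1 - d (g4 + asBaseA_T g4)) := by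
      refine of (hg4.add (Tn hg4)) ?_
      rw [asBaseA_Tsub, asBaseA_Tadd, Td, Tg3, hc1, d_add]
      linear_combination g3 * h2
    have k3 : Nl (MS 5 5) 2 (d (a1 + (g4 + asBaseA_T g4))) := by
      refine of (k2.sub ha1) ?_
      rw [d_add a1, d_add g4]
      linear_combination (- (d g4 + d (asBaseA_T g4))) * h2
    obtain ⟨l1, hl1⟩ := hS 1 (by norm_num) _ k3
    have hx := asBaseA_nonempty
    have m1 := asBaseA_one rfl hl1 hx
    have m2 := asBaseA_one rfl hl1 (asBaseA_neg hx)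
    have m3 := hc0x' _ hx
    have e1 : a1 [Pi.single 0 1] + (g4 [Pi.single 0 1] + g4 [-Pi.single 0 1]) = l1 [] := m1
    have e2 : a1 [-Pi.single 0 1] + (g4 [-Pi.single 0 1] + g4 [- -Pi.single 0 1]) = l1 [] := m2
    rw [neg_neg] at e2
    have h2' : (2 : ZMod 2) = 0 := rfl
    have h3 : (1 : ZMod 2) = 0 := by
      rw [h1] at m3
      linear_combination -m3 + e1 + e2 - (g4 [Pi.single 0 1] + g4 [-Pi.single 0 1] - l1 []) * h2'
    exact absurd h3 (by decide)

end

end Pool.Agent.Helper965_Rud.AS
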