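import Pool.Agent.Helper965_Rud.ASStmts

/-! # The final contradiction (`S_baseB`) -/

set_option autoImplicit false

namespace Pool.Agent.Helper965_Rud.AS

open scoped ComplexConjugate
open Set

noncomputable section

theorem asBaseB_q2_cont : Continuous q2 := by
  unfold q2
  fun_prop

theorem asBaseB_q2_mem {x : ℝ × ℂ} (hx : x ∈ R2) : q2 x ∈ T2 := by
  have h : x.1 ^ 2 + ‖x.2‖ ^ 2 = 1 := hx
  show ‖(q2 x).1‖ ^ 2 + (q2 x).2 ^ 2 = 1
  have e1 : ‖(q2 x).1‖ ^ 2 = 4 * x.1 ^ 2 * ‖x.2‖ ^ 2 := by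
    simp only [q2, norm_mul, Complex.norm_real, Real.norm_eq_abs, mul_pow, sq_abs]
    norm_num
  rw [e1]
  show 4 * x.1 ^ 2 * ‖x.2‖ ^ 2 + (‖x.2‖ ^ 2 - x.1 ^ 2) ^ 2 = 1
  have : 4 * x.1 ^ 2 * ‖x.2‖ ^ 2 + (‖x.2‖ ^ 2 - x.1 ^ 2) ^ 2 = (x.1 ^ 2 + ‖x.2‖ ^ 2) ^ 2 := by ring
  rw [this, h]
  norm_num

theorem asBaseB_R2_compact : IsCompact R2 := by
  apply Metric.isCompact_of_isClosed_isBounded
  · exact isClosed_eq (by fun_prop) continuous_const
  · refine (Metric.isBounded_closedBall (x := (0 : ℝ × ℂ)) (r := 1)).subset ?_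
    intro x hx
    have h : x.1 ^ 2 + ‖x.2‖ ^ 2 = 1 := hx
    rw [mem_closedBall_zero_iff, Prod.norm_def]
    apply max_le
    · rw [Real.norm_eq_abs]
      apply abs_le_of_sq_le_sq' _ (by norm_num) |> abs_le.mpr
      nlinarith [sq_nonneg ‖x.2‖]
    · nlinarith [sq_nonneg x.1, norm_nonneg x.2]

theorem asBaseB_T2_compact : IsCompact T2 := by
  apply Metric.isCompact_of_isClosed_isBounded
  · exact isClosed_eq (by fun_prop) continuous_const
  · refine (Metric.isBounded_closedBall (x := (0 : ℂ × ℝ)) (r := 1)).subset ?_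
    intro x hx
    have h : ‖x.1‖ ^ 2 + x.2 ^ 2 = 1 := hx
    rw [mem_closedBall_zero_iff, Prod.norm_def]
    apply max_le
    · nlinarith [sq_nonneg x.2, norm_nonneg x.1]
    · rw [Real.norm_eq_abs]
      apply abs_le_of_sq_le_sq' _ (by norm_num) |> abs_le.mpr
      nlinarith [sq_nonneg ‖x.1‖]

theorem asBaseB_Cap_compact : IsCompact Cap :=
  asBaseB_R2_compact.inter_right (isClosed_le (f := fun x : ℝ × ℂ => ‖x.2‖) (g := fun x => x.1)
    (by fun_prop) (by fun_prop))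

theorem asBaseB_Band_compact : IsCompact Band :=
  asBaseB_R2_compact.inter_right (isClosed_le (f := fun x : ℝ × ℂ => |x.1|) (g := fun x => ‖x.2‖)
    (by fun_prop) (by fun_prop))

theorem asBaseB_T2m_compact : IsCompact T2m :=
  asBaseB_T2_compact.inter_right (isClosed_le (f := fun x : ℂ × ℝ => x.2) (g := fun _ => 0)
    (by fun_prop) (by fun_prop))

theorem asBaseB_T2p_compact : IsCompact T2p :=
  asBaseB_T2_compact.inter_right (isClosed_le (f := fun _ : ℂ × ℝ => (0 : ℝ)) (g := fun x => x.2)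
    (by fun_prop) (by fun_prop))

theorem asBaseB_union : T2m ∪ T2p = T2 := by
  ext x
  constructor
  · rintro (h | h)
    · exact h.1
    · exact h.1
  · intro h
    rcases le_total x.2 0 with h' | h'
    · exact Or.inl ⟨h, h'⟩
    · exact Or.inr ⟨h, h'⟩

theorem asBaseB_Cap_map {x : ℝ × ℂ} (hx : x ∈ Cap) : q2 x ∈ T2m := by
  refine ⟨asBaseB_q2_mem hx.1, ?_⟩
  have h : ‖x.2‖ ≤ x.1 := hx.2
  show ‖x.2‖ ^ 2 - x.1 ^ 2 ≤ 0
  nlinarith [norm_nonneg x.2]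

theorem asBaseB_Band_map {x : ℝ × ℂ} (hx : x ∈ Band) : q2 x ∈ T2p := by
  refine ⟨asBaseB_q2_mem hx.1, ?_⟩
  have h : |x.1| ≤ ‖x.2‖ := hx.2
  show 0 ≤ ‖x.2‖ ^ 2 - x.1 ^ 2
  rw [← sq_abs x.1]
  nlinarith [abs_nonneg x.1]

theorem asBaseB_q2_neg (x : ℝ × ℂ) : q2 (-x) = q2 x := by
  simp [q2]

/-- section of `q2` over the equator -/
def asBaseB_r (z : ℂ × ℝ) : ℝ × ℂ := (1 / Real.sqrt 2, ((1 / Real.sqrt 2 : ℝ) : ℂ) * z.1)

theorem asBaseB_r_cont : Continuous asBaseB_r := by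
  unfold asBaseB_r
  fun_prop

theorem asBaseB_sq : (1 / Real.sqrt 2) ^ 2 = 1 / 2 := by
  rw [div_pow, Real.sq_sqrt (by norm_num)]
  norm_num

theorem asBaseB_eq {z : ℂ × ℝ} (hz : z ∈ T2m ∩ T2p) : z.2 = 0 ∧ ‖z.1‖ = 1 := by
  have h1 : z.2 ≤ 0 := hz.1.2
  have h2 : 0 ≤ z.2 := hz.2.2
  have h3 : z.2 = 0 := le_antisymm h1 h2
  refine ⟨h3, ?_⟩
  have h4 : ‖z.1‖ ^ 2 + z.2 ^ 2 = 1 := hz.1.1
  rw [h3] at h4
  have h5 : ‖z.1‖ ^ 2 = 1 := by linarith
  nlinarith [norm_nonneg z.1]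

theorem asBaseB_r_norm {z : ℂ × ℝ} (hz : ‖z.1‖ = 1) : ‖(asBaseB_r z).2‖ = 1 / Real.sqrt 2 := by
  show ‖((1 / Real.sqrt 2 : ℝ) : ℂ) * z.1‖ = 1 / Real.sqrt 2
  rw [norm_mul, hz, mul_one, Complex.norm_real, Real.norm_eq_abs, abs_of_nonneg (by positivity)]

theorem asBaseB_r_mem {z : ℂ × ℝ} (hz : z ∈ T2m ∩ T2p) : asBaseB_r z ∈ Rim := by
  have h := asBaseB_r_norm (asBaseB_eq hz).2
  refine ⟨?_, ?_⟩
  · show (1 / Real.sqrt 2) ^ 2 + ‖(asBaseB_r z).2‖ ^ 2 = 1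
    rw [h, asBaseB_sq]
    norm_num
  · show 1 / Real.sqrt 2 = ‖(asBaseB_r z).2‖
    rw [h]

theorem asBaseB_q2_r {z : ℂ × ℝ} (hz : z ∈ T2m ∩ T2p) : q2 (asBaseB_r z) = z := by
  have h := asBaseB_r_norm (asBaseB_eq hz).2
  have h0 := (asBaseB_eq hz).1
  apply Prod.ext
  · show 2 * ((1 / Real.sqrt 2 : ℝ) : ℂ) * (((1 / Real.sqrt 2 : ℝ) : ℂ) * z.1) = z.1
    have e : ((1 / Real.sqrt 2 : ℝ) : ℂ) ^ 2 = 1 / 2 := by
      rw [← Complex.ofReal_pow, asBaseB_sq]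
      norm_num
    linear_combination (2 * z.1) * e
  · show ‖(asBaseB_r z).2‖ ^ 2 - (1 / Real.sqrt 2) ^ 2 = z.2
    rw [h, h0, sub_self]

/-- TARGET -/
theorem asBaseB (h1 : S_caps) (h2 : S_band) : S_baseB := by
  intro i a hi ha hb
  obtain ⟨x, hx⟩ := (h1 3).2.2.1 i (hi.mono fun z hz => hz.1)
  obtain ⟨y, hy⟩ := (h1 3).2.2.2 i (hi.mono fun z hz => hz.1)
  rw [← asBaseB_union]
  refine MV.mv_glue T2m T2p asBaseB_T2m_compact asBaseB_T2p_compact.isClosed 2 i x y ?_ hx hy ?_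
  · rw [asBaseB_union]
    exact hi
  -- the cap
  have hp : Coc Cap 2 (a - pb q2 x) := by
    unfold Coc
    have e : d (a - pb q2 x) = pb q2 (i - d x) - (pb q2 i - d a) := by
      rw [d_sub, d_pb, pb_sub]
      abel
    rw [e]
    exact (nl_pb asBaseB_Cap_compact q2 asBaseB_q2_cont.continuousOn
      (fun _ => asBaseB_Cap_map) hx).sub (hb.mono fun z hz => hz.1)
  have hpc : Cob Rim 2 (a - pb q2 x) := by
    refine ((h1 2).1 _ hp).mono fun z hz => ⟨hz.1, ?_⟩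
    exact le_of_eq hz.2.symm
  -- the band
  have hg : Coc Band 2 (a - pb q2 y) := by
    unfold Coc
    have e : d (a - pb q2 y) = pb q2 (i - d y) - (pb q2 i - d a) := by
      rw [d_sub, d_pb, pb_sub]
      abel
    rw [e]
    exact (nl_pb asBaseB_Band_compact q2 asBaseB_q2_cont.continuousOn
      (fun _ => asBaseB_Band_map) hy).sub (hb.mono fun z hz => hz.1)
  have hgn : Nl Band 2 ((a - pb q2 y) - pb (fun x => -x) (a - pb q2 y)) := by
    have e : (a - pb q2 y) - pb (fun x => -x) (a - pb q2 y) = a - pb (fun x => -x) a := by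
      rw [pb_sub, pb_pb]
      have : (fun x : ℝ × ℂ => q2 (-x)) = q2 := funext asBaseB_q2_neg
      rw [this]
      abel
    rw [e]
    exact ha.mono fun z hz => hz.1
  have hgc : Cob Rim 2 (a - pb q2 y) := h2 _ hg hgn
  have hth : Cob Rim 2 (pb q2 (x - y)) := by
    have e : pb q2 (x - y) = (a - pb q2 y) - (a - pb q2 x) := by
      rw [pb_sub]
      abel
    rw [e]
    exact hgc.sub hpc
  exact cob_of_pb (asBaseB_T2m_compact.inter_right asBaseB_T2p_compact.isClosed) asBaseB_r q2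
    asBaseB_r_cont.continuousOn (fun _ => asBaseB_r_mem) (fun _ => asBaseB_q2_r) hth

end

end Pool.Agent.Helper965_Rud.AS
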