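import Pool.Agent.Helper965_Rud.ASStmts

/-!
JOB asCaps (MP_89fcdb_gt, owner helper965): caps and hemispheres are acyclic.
-/

set_option autoImplicit false

namespace Pool.Agent.Helper965_Rud.AS

open scoped ComplexConjugate
open Set

noncomputable section

/-- squared euclidean norm on a product -/
def asCaps_nn {E F : Type} [NormedAddCommGroup E] [NormedAddCommGroup F] (y : E × F) : ℝ :=
  ‖y.1‖ ^ 2 + ‖y.2‖ ^ 2

/-- straight line to `p` -/
def asCaps_ln {E F : Type} [NormedAddCommGroup E] [NormedSpace ℝ E] [NormedAddCommGroup F]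
    [NormedSpace ℝ F] (p : E × F) (t : ℝ) (x : E × F) : E × F := (1 - t) • x + t • p

/-- general contraction -/
theorem asCaps_gen {E F : Type} [NormedAddCommGroup E] [NormedSpace ℝ E] [NormedAddCommGroup F]
    [NormedSpace ℝ F] (X : Set (E × F)) (hX : IsCompact X) (hX1 : ∀ x ∈ X, asCaps_nn x = 1)
    (p : E × F) (hp : p ∈ X)
    (hpos : ∀ t ∈ Icc (0 : ℝ) 1, ∀ x ∈ X, 0 < asCaps_nn (asCaps_ln p t x))
    (hmap : ∀ t ∈ Icc (0 : ℝ) 1, ∀ x ∈ X,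
      (√(asCaps_nn (asCaps_ln p t x)))⁻¹ • asCaps_ln p t x ∈ X) (q : ℕ) : HV X q := by
  refine Homot.acyclic_of_contract X hX p
    (fun t x => (√(asCaps_nn (asCaps_ln p t x)))⁻¹ • asCaps_ln p t x) ?_ hmap ?_ ?_ hp q
  · have h1 : Continuous fun z : ℝ × (E × F) => asCaps_ln p z.1 z.2 := by
      unfold asCaps_ln
      fun_prop
    have h2 : Continuous fun z : ℝ × (E × F) => asCaps_nn (asCaps_ln p z.1 z.2) := by
      unfold asCaps_nn
      fun_prop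
    have h3 : ContinuousOn (fun z : ℝ × (E × F) => (√(asCaps_nn (asCaps_ln p z.1 z.2)))⁻¹)
        (Icc 0 1 ×ˢ X) := by
      refine ContinuousOn.inv₀ (Real.continuous_sqrt.comp h2).continuousOn ?_
      rintro ⟨t, x⟩ ⟨ht, hx⟩
      exact (Real.sqrt_pos.2 (hpos t ht x hx)).ne'
    exact h3.smul h1.continuousOn
  · intro x hx
    have : asCaps_ln p 0 x = x := by unfold asCaps_ln; simp
    simp only [this, hX1 x hx, Real.sqrt_one, inv_one, one_smul]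
  · intro x hx
    have : asCaps_ln p 1 x = p := by unfold asCaps_ln; simp
    simp only [this, hX1 p hp, Real.sqrt_one, inv_one, one_smul]

theorem asCaps_norm {E F : Type} [NormedAddCommGroup E] [NormedSpace ℝ E] [NormedAddCommGroup F]
    [NormedSpace ℝ F] (y : E × F) (hy : 0 < asCaps_nn y) :
    asCaps_nn ((√(asCaps_nn y))⁻¹ • y) = 1 := by
  have h1 : asCaps_nn ((√(asCaps_nn y))⁻¹ • y) = ((√(asCaps_nn y))⁻¹) ^ 2 * asCaps_nn y := by
    unfold asCaps_nn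
    rw [Prod.smul_fst, Prod.smul_snd, norm_smul, norm_smul, mul_pow, mul_pow, Real.norm_eq_abs, sq_abs]
    ring
  rw [h1, inv_pow, Real.sq_sqrt hy.le, inv_mul_cancel₀ hy.ne']

theorem asCaps_compact {E F : Type} [NormedAddCommGroup E] [NormedSpace ℝ E] [NormedAddCommGroup F]
    [NormedSpace ℝ F] [ProperSpace E] [ProperSpace F] (X : Set (E × F)) (hc : IsClosed X)
    (hX1 : ∀ x ∈ X, asCaps_nn x = 1) : IsCompact X := by
  refine Metric.isCompact_of_isClosed_isBounded hc ?_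
  refine (Metric.isBounded_closedBall (x := (0 : E × F)) (r := 1)).subset ?_
  intro x hx
  have h := hX1 x hx
  unfold asCaps_nn at h
  rw [mem_closedBall_zero_iff, Prod.norm_def]
  refine max_le ?_ ?_
  · nlinarith [norm_nonneg x.1, sq_nonneg ‖x.2‖]
  · nlinarith [norm_nonneg x.2, sq_nonneg ‖x.1‖]

/-- caps with a sign -/
theorem asCaps_cap (σ : ℝ) (hσ : σ ^ 2 = 1) (q : ℕ) : HV {x : ℝ × ℂ | x ∈ R2 ∧ ‖x.2‖ ≤ σ * x.1} q := by
  set X : Set (ℝ × ℂ) := {x : ℝ × ℂ | x ∈ R2 ∧ ‖x.2‖ ≤ σ * x.1} with hXdef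
  have hX1 : ∀ x ∈ X, asCaps_nn x = 1 := by
    rintro x ⟨h1, -⟩
    have : x.1 ^ 2 + ‖x.2‖ ^ 2 = 1 := h1
    unfold asCaps_nn
    rw [Real.norm_eq_abs, sq_abs, this]
  have hcl : IsClosed X := by
    refine IsClosed.inter ?_ ?_
    · exact isClosed_eq (f := fun x : ℝ × ℂ => x.1 ^ 2 + ‖x.2‖ ^ 2) (g := fun _ => 1)
        (by fun_prop) continuous_const
    · exact isClosed_le (f := fun x : ℝ × ℂ => ‖x.2‖) (g := fun x => σ * x.1)
        (by fun_prop) (by fun_prop)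
  have hnn : ∀ t : ℝ, ∀ x ∈ X, asCaps_nn (asCaps_ln (σ, (0:ℂ)) t x) =
      (1 - t) ^ 2 + 2 * t * (1 - t) * (σ * x.1) + t ^ 2 := by
    intro t x hx
    have h1 : x.1 ^ 2 + ‖x.2‖ ^ 2 = 1 := hx.1
    unfold asCaps_nn asCaps_ln
    simp only [Prod.fst_add, Prod.snd_add, Prod.smul_fst, Prod.smul_snd, smul_zero, add_zero,
      smul_eq_mul, norm_smul, Real.norm_eq_abs, sq_abs, mul_pow]
    have h2 : ‖x.2‖ ^ 2 = 1 - x.1 ^ 2 := by linarith
    rw [h2]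
    linear_combination t ^ 2 * hσ
  have hsx : ∀ x ∈ X, 0 ≤ σ * x.1 := fun x hx => (norm_nonneg _).trans hx.2
  have hpos : ∀ t ∈ Icc (0 : ℝ) 1, ∀ x ∈ X, 0 < asCaps_nn (asCaps_ln (σ, (0:ℂ)) t x) := by
    intro t ht x hx
    rw [hnn t x hx]
    have h1 : 0 ≤ 2 * t * (1 - t) * (σ * x.1) :=
      mul_nonneg (mul_nonneg (by linarith [ht.1]) (by linarith [ht.2])) (hsx x hx)
    nlinarith [sq_nonneg (1 - 2 * t)]
  refine asCaps_gen X (asCaps_compact X hcl hX1) hX1 (σ, 0) ?_ hpos ?_ q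
  · refine ⟨?_, ?_⟩
    · show σ ^ 2 + ‖(0:ℂ)‖ ^ 2 = 1
      rw [norm_zero, hσ]; norm_num
    · show ‖(0:ℂ)‖ ≤ σ * σ
      rw [norm_zero]; nlinarith
  · intro t ht x hx
    have h0 := hpos t ht x hx
    have h1 := asCaps_norm _ h0
    refine ⟨?_, ?_⟩
    · show ((√(asCaps_nn (asCaps_ln (σ, (0:ℂ)) t x)))⁻¹ • asCaps_ln (σ, (0:ℂ)) t x).1 ^ 2 +
        ‖((√(asCaps_nn (asCaps_ln (σ, (0:ℂ)) t x)))⁻¹ • asCaps_ln (σ, (0:ℂ)) t x).2‖ ^ 2 = 1
      rw [← sq_abs ((√(asCaps_nn (asCaps_ln (σ, (0:ℂ)) t x)))⁻¹ • asCaps_ln (σ, (0:ℂ)) t x).1,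
        ← Real.norm_eq_abs]
      exact h1
    · have hN : 0 < (√(asCaps_nn (asCaps_ln (σ, (0:ℂ)) t x)))⁻¹ := inv_pos.2 (Real.sqrt_pos.2 h0)
      generalize (√(asCaps_nn (asCaps_ln (σ, (0:ℂ)) t x)))⁻¹ = N at hN
      unfold asCaps_ln
      simp only [Prod.fst_add, Prod.snd_add, Prod.smul_fst, Prod.smul_snd, smul_zero, add_zero,
        smul_eq_mul, norm_smul, Real.norm_eq_abs]
      rw [abs_of_pos hN, abs_of_nonneg (by linarith [ht.2])]
      have h2 : (1 - t) * ‖x.2‖ ≤ (1 - t) * (σ * x.1) :=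
        mul_le_mul_of_nonneg_left hx.2 (by linarith [ht.2])
      have h3 : σ * (N * ((1 - t) * x.1 + t * σ)) = N * ((1 - t) * (σ * x.1) + t) := by
        linear_combination N * t * hσ
      rw [h3]
      refine mul_le_mul_of_nonneg_left ?_ hN.le
      linarith [ht.1]

/-- hemispheres with a sign -/
theorem asCaps_hem (σ : ℝ) (hσ : σ ^ 2 = 1) (q : ℕ) : HV {x : ℂ × ℝ | x ∈ T2 ∧ 0 ≤ σ * x.2} q := by
  set X : Set (ℂ × ℝ) := {x : ℂ × ℝ | x ∈ T2 ∧ 0 ≤ σ * x.2} with hXdef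
  have hX1 : ∀ x ∈ X, asCaps_nn x = 1 := by
    rintro x ⟨h1, -⟩
    have : ‖x.1‖ ^ 2 + x.2 ^ 2 = 1 := h1
    unfold asCaps_nn
    rw [Real.norm_eq_abs, sq_abs, this]
  have hcl : IsClosed X := by
    refine IsClosed.inter ?_ ?_
    · exact isClosed_eq (f := fun x : ℂ × ℝ => ‖x.1‖ ^ 2 + x.2 ^ 2) (g := fun _ => 1)
        (by fun_prop) continuous_const
    · exact isClosed_le (f := fun _ : ℂ × ℝ => (0:ℝ)) (g := fun x => σ * x.2)
        (by fun_prop) (by fun_prop)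
  have hnn : ∀ t : ℝ, ∀ x ∈ X, asCaps_nn (asCaps_ln ((0:ℂ), σ) t x) =
      (1 - t) ^ 2 + 2 * t * (1 - t) * (σ * x.2) + t ^ 2 := by
    intro t x hx
    have h1 : ‖x.1‖ ^ 2 + x.2 ^ 2 = 1 := hx.1
    unfold asCaps_nn asCaps_ln
    simp only [Prod.fst_add, Prod.snd_add, Prod.smul_fst, Prod.smul_snd, smul_zero, add_zero,
      smul_eq_mul, norm_smul, Real.norm_eq_abs, sq_abs, mul_pow]
    have h2 : ‖x.1‖ ^ 2 = 1 - x.2 ^ 2 := by linarith
    rw [h2]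
    linear_combination t ^ 2 * hσ
  have hpos : ∀ t ∈ Icc (0 : ℝ) 1, ∀ x ∈ X, 0 < asCaps_nn (asCaps_ln ((0:ℂ), σ) t x) := by
    intro t ht x hx
    rw [hnn t x hx]
    have h1 : 0 ≤ 2 * t * (1 - t) * (σ * x.2) :=
      mul_nonneg (mul_nonneg (by linarith [ht.1]) (by linarith [ht.2])) hx.2
    nlinarith [sq_nonneg (1 - 2 * t)]
  refine asCaps_gen X (asCaps_compact X hcl hX1) hX1 (0, σ) ?_ hpos ?_ q
  · refine ⟨?_, ?_⟩
    · show ‖(0:ℂ)‖ ^ 2 + σ ^ 2 = 1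
      rw [norm_zero, hσ]; norm_num
    · show 0 ≤ σ * σ
      nlinarith
  · intro t ht x hx
    have h0 := hpos t ht x hx
    have h1 := asCaps_norm _ h0
    refine ⟨?_, ?_⟩
    · show ‖((√(asCaps_nn (asCaps_ln ((0:ℂ), σ) t x)))⁻¹ • asCaps_ln ((0:ℂ), σ) t x).1‖ ^ 2 +
        ((√(asCaps_nn (asCaps_ln ((0:ℂ), σ) t x)))⁻¹ • asCaps_ln ((0:ℂ), σ) t x).2 ^ 2 = 1
      rw [← sq_abs ((√(asCaps_nn (asCaps_ln ((0:ℂ), σ) t x)))⁻¹ • asCaps_ln ((0:ℂ), σ) t x).2,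
        ← Real.norm_eq_abs]
      exact h1
    · have hN : 0 < (√(asCaps_nn (asCaps_ln ((0:ℂ), σ) t x)))⁻¹ := inv_pos.2 (Real.sqrt_pos.2 h0)
      generalize (√(asCaps_nn (asCaps_ln ((0:ℂ), σ) t x)))⁻¹ = N at hN
      unfold asCaps_ln
      simp only [Prod.snd_add, Prod.smul_snd, smul_eq_mul]
      have h3 : σ * (N * ((1 - t) * x.2 + t * σ)) = N * ((1 - t) * (σ * x.2) + t) := by
        linear_combination N * t * hσ
      rw [h3]
      refine mul_nonneg hN.le (add_nonneg (mul_nonneg (by linarith [ht.2]) hx.2) ht.1)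

/-- TARGET -/
theorem asCaps : S_caps := by
  intro q
  refine ⟨?_, ?_, ?_, ?_⟩
  · have h := asCaps_cap 1 (by norm_num) q
    simp only [one_mul] at h
    exact h
  · have h := asCaps_cap (-1) (by norm_num) q
    simp only [neg_mul, one_mul] at h
    exact h
  · have h := asCaps_hem (-1) (by norm_num) q
    have e : {x : ℂ × ℝ | x ∈ T2 ∧ 0 ≤ -1 * x.2} = T2m := by
      ext x
      show (x ∈ T2 ∧ 0 ≤ -1 * x.2) ↔ (x ∈ T2 ∧ x.2 ≤ 0)
      constructor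
      · rintro ⟨h1, h2⟩; exact ⟨h1, by linarith⟩
      · rintro ⟨h1, h2⟩; exact ⟨h1, by linarith⟩
    rw [e] at h
    exact h
  · have h := asCaps_hem 1 (by norm_num) q
    simp only [one_mul] at h
    exact h

end

end Pool.Agent.Helper965_Rud.AS
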