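import Pool.Agent.Helper965_Rud.ASStmts

/-!
JOB asCirc (MP_89fcdb_gt, owner helper965; disproof of a conjecture of Rudyak; part: Alexander-Spanier cochains mod 2).
Setup: git fetch in outputs/live, copy Pool/Agent/Helper965_Rud/*.lean from origin/main
to the same paths under /workdir/pool/Pool/Agent/, then `lake build Pool.Agent.Helper965_Rud.ASStmts`. Check with `lake env lean <file>`.
Cochains are ALL functions List Ω → ZMod 2 (see ASDefs: d, Sm X ε l = the list l is in X with pairwise distances < ε, Nl X q c = c vanishes on small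
lists of length q in X, Coc, Cob, HV X q = the cohomology of X in length q vanishes, H1, pb f c = fun l => c (l.map f), d_add, d_sub, d_d, d_pb, Nl.add, Nl.sub, Nl.mono, Nl.d,
Cob.add, ..., prism). ASMV: MV.mv_glue. ASSusp: coc_of_two, mv, susp. ASHomot: Homot.acyclic_of_contract (contractible compact sets are acyclic). ASPull: nl_pb, coc_pb, cob_pb, homot
(homotopy invariance), HV.of_retract, cob_of_pb, hv_zero, empty_h1, empty_hv. ASCup: cup r p q x y (cup-(r-1) product of x of length p and y of length q, which has length p+q-r),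
cup_add_l, cup_add_r, cup_pb, d_cup, Nl.cup_left, Nl.cup_right. Coefficients ZMod 2: c + c = 0 (CharTwo.add_self_eq_zero), c - c' = c + c' (CharTwo.sub_eq_add).
The hypotheses S_... of the target are proved by other jobs: just use them.
Return the WHOLE file with the target proved (no sorry, no axiom, no native_decide; keep the name and the statement of the target).
Auxiliary lemmas: before the target, with names starting with asCirc_ .
Avoid straight double quotes and the words forbidden by RULES.md. If the statement is false or something is missing, say so in the note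
(status 'problem') with the reason. The final path of the file is Pool/Agent/Helper965_Rud/P_asCirc.lean .

PROOF. J = {z ∈ C1 | 0 ≤ z.im}, J' = {z ∈ C1 | z.im ≤ 0}, both compact, J ∪ J' = C1, J ∩ J' = {1,-1}. J is contractible: H t z = ((1-t) z + t I)/‖.‖ (the imaginary part is positive for t > 0), p = I. So HV J 2 (Homot.acyclic_of_contract) and γ = d g on J (Nl J 2 (γ - d g)). Let g' = pb (fun z => -z) g. On J': γ - d g' = (γ - pb neg γ) + pb neg (γ - d g),
the first is null by hypothesis (Nl.mono), the second is null on J' by nl_pb since neg maps J' to J. On J ∩ J': (g - g') has length 1: (g - g') [1] = g [1] - g [-1] and (g - g') [-1] = g [-1] - g [1], equal in ZMod 2, call it m. So g - g' = d c with c the cochain c [] = m, c _ = 0 otherwise (d c [x] = c []): Cob (J ∩ J') 1 (g - g'). MV.mv_glue with q = 1 gives Cob C1 2 γ.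
-/

set_option autoImplicit false

namespace Pool.Agent.Helper965_Rud.AS

open scoped ComplexConjugate
open Set

noncomputable section

/-- the upper half of the circle -/
def asCirc_J : Set ℂ := {z | ‖z‖ = 1 ∧ 0 ≤ z.im}

/-- the lower half of the circle -/
def asCirc_J' : Set ℂ := {z | ‖z‖ = 1 ∧ z.im ≤ 0}

theorem asCirc_compact : IsCompact asCirc_J := by
  have h : asCirc_J = Metric.sphere 0 1 ∩ {z | 0 ≤ z.im} := by
    ext z
    simp [asCirc_J]
  rw [h]
  exact (isCompact_sphere 0 1).inter_right (isClosed_le continuous_const Complex.continuous_im)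

theorem asCirc_compact' : IsCompact asCirc_J' := by
  have h : asCirc_J' = Metric.sphere 0 1 ∩ {z | z.im ≤ 0} := by
    ext z
    simp [asCirc_J']
  rw [h]
  exact (isCompact_sphere 0 1).inter_right (isClosed_le Complex.continuous_im continuous_const)

theorem asCirc_ne {t : ℝ} {z : ℂ} (ht0 : 0 ≤ t) (ht1 : t ≤ 1) (hz : z ∈ asCirc_J) :
    ((1 - t : ℝ) : ℂ) * z + (t : ℂ) * Complex.I ≠ 0 := by
  intro h
  rcases eq_or_lt_of_le ht0 with h0 | h0
  · rw [← h0] at h
    simp only [sub_zero, Complex.ofReal_one, one_mul, Complex.ofReal_zero, zero_mul, add_zero] at h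
    have := hz.1
    rw [h, norm_zero] at this
    exact zero_ne_one this
  · have h1 := congrArg Complex.im h
    simp at h1
    have h2 := hz.2
    nlinarith [mul_nonneg (sub_nonneg.2 ht1) h2]

theorem asCirc_hv : HV asCirc_J 2 := by
  refine Homot.acyclic_of_contract asCirc_J asCirc_compact Complex.I
    (fun t z => ((‖((1 - t : ℝ) : ℂ) * z + (t : ℂ) * Complex.I‖⁻¹ : ℝ) : ℂ) *
      (((1 - t : ℝ) : ℂ) * z + (t : ℂ) * Complex.I)) ?_ ?_ ?_ ?_ ?_ 2
  · have hw : Continuous fun p : ℝ × ℂ => ((1 - p.1 : ℝ) : ℂ) * p.2 + (p.1 : ℂ) * Complex.I := by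
      fun_prop
    refine ContinuousOn.mul ?_ hw.continuousOn
    refine Complex.continuous_ofReal.comp_continuousOn ?_
    refine ContinuousOn.inv₀ hw.norm.continuousOn ?_
    rintro ⟨t, z⟩ ⟨ht, hz⟩
    exact norm_ne_zero_iff.2 (asCirc_ne ht.1 ht.2 hz)
  · intro t ht z hz
    have hne := asCirc_ne ht.1 ht.2 hz
    have hn := norm_ne_zero_iff.2 hne
    refine ⟨?_, ?_⟩
    · rw [norm_mul, Complex.norm_real, Real.norm_eq_abs, abs_of_nonneg (inv_nonneg.2 (norm_nonneg _))]
      exact inv_mul_cancel₀ hn
    · rw [Complex.im_ofReal_mul]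
      refine mul_nonneg (inv_nonneg.2 (norm_nonneg _)) ?_
      rw [Complex.add_im, Complex.im_ofReal_mul, Complex.im_ofReal_mul, Complex.I_im, mul_one]
      have h1 := mul_nonneg (sub_nonneg.2 ht.2) hz.2
      linarith [ht.1]
  · intro z hz
    have h1 := hz.1
    simp [h1]
  · intro z hz
    simp
  · exact ⟨by simp, by simp⟩

theorem asCirc_union : asCirc_J ∪ asCirc_J' = C1 := by
  ext z
  constructor
  · rintro (h | h)
    · exact h.1
    · exact h.1
  · intro h
    rcases le_total 0 z.im with h1 | h1
    · exact Or.inl ⟨h, h1⟩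
    · exact Or.inr ⟨h, h1⟩

theorem asCirc_inter {z : ℂ} (h : z ∈ asCirc_J ∩ asCirc_J') : z = 1 ∨ z = -1 := by
  have him : z.im = 0 := le_antisymm h.2.2 h.1.2
  have hz : z = (z.re : ℂ) := Complex.ext (by simp) (by simp [him])
  have hn := h.1.1
  rw [hz, Complex.norm_real, Real.norm_eq_abs] at hn
  rcases (abs_eq zero_le_one).1 hn with h1 | h1
  · left; rw [hz, h1]; simp
  · right; rw [hz, h1]; simp

/-- TARGET -/
theorem asCirc : S_circ := by
  intro γ hγ hinv
  obtain ⟨g, hg⟩ := asCirc_hv γ (Nl.mono hγ (fun z hz => hz.1))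
  set g' : List ℂ → ZMod 2 := pb (fun z => -z) g with hg'
  have hneg : ContinuousOn (fun z : ℂ => -z) asCirc_J' := continuous_neg.continuousOn
  have hg2 : Nl asCirc_J' 2 (γ - d g') := by
    have h1 : γ - d g' = (γ - pb (fun z => -z) γ) + pb (fun z => -z) (γ - d g) := by
      rw [pb_sub, hg', d_pb]
      abel
    rw [h1]
    refine Nl.add (hinv.mono fun z hz => hz.1) ?_
    refine nl_pb asCirc_compact' (fun z => -z) hneg (X := asCirc_J) ?_ hg
    intro z hz
    exact ⟨by rw [norm_neg]; exact hz.1, by rw [Complex.neg_im]; linarith [hz.2]⟩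
  have hcob : Cob (asCirc_J ∩ asCirc_J') 1 (g - g') := by
    refine ⟨fun _ => g [1] - g [-1], 1, one_pos, ?_⟩
    intro l hl hs
    obtain ⟨x, rfl⟩ := List.length_eq_one_iff.1 hl
    have hx := hs.1 x (by simp)
    have h2 : d (fun _ : List ℂ => g [1] - g [-1]) [x] = g [1] - g [-1] := by
      rw [d_cons, d_nil, sub_zero]
    rw [Pi.sub_apply, h2, Pi.sub_apply, hg']
    simp only [pb, List.map_cons, List.map_nil]
    rcases asCirc_inter hx with h3 | h3
    · rw [h3, sub_self]
    · rw [h3, neg_neg]
      simp only [CharTwo.sub_eq_add]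
      rw [add_comm (g [-1]), CharTwo.add_self_eq_zero]
  have h4 := MV.mv_glue asCirc_J asCirc_J' asCirc_compact asCirc_compact'.isClosed 1 γ g g'
    (by rw [asCirc_union]; exact hγ) hg hg2 hcob
  rw [asCirc_union] at h4
  exact h4

end

end Pool.Agent.Helper965_Rud.AS
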