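import Pool.Agent.Helper965_Rud.ASStmts

/-! # Compactness of the spaces `XX K k`, `XP K k`, `SS K k` -/

set_option autoImplicit false

namespace Pool.Agent.Helper965_Rud.AS

open scoped ComplexConjugate
open Set

noncomputable section

theorem asComp_rho_cont (K : ℕ) :
    Continuous (fun p : (Fin 5 → ℝ) × (Fin K → ℝ) => rho p.1 p.2) := by
  unfold rho
  fun_prop

theorem asComp_sq_le {n : ℕ} (f : Fin n → ℝ) (h : ∑ i, f i ^ 2 ≤ 1) : ‖f‖ ≤ 1 := by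
  refine (pi_norm_le_iff_of_nonneg zero_le_one).2 (fun i => ?_)
  rw [Real.norm_eq_abs]
  refine (sq_le_one_iff_abs_le_one _).1 (le_trans ?_ h)
  exact Finset.single_le_sum (f := fun i => f i ^ 2) (fun i _ => sq_nonneg _) (Finset.mem_univ i)

theorem asComp_bdd (K : ℕ) (S : Set ((Fin 5 → ℝ) × (Fin K → ℝ)))
    (h : ∀ p ∈ S, ∑ i, p.1 i ^ 2 + ∑ i, p.2 i ^ 2 = 1) : Bornology.IsBounded S := by
  refine (Metric.isBounded_closedBall (x := (0 : (Fin 5 → ℝ) × (Fin K → ℝ))) (r := 1)).subset ?_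
  intro p hp
  have h1 := h p hp
  have h2 : 0 ≤ ∑ i, p.1 i ^ 2 := Finset.sum_nonneg (fun i _ => sq_nonneg _)
  have h3 : 0 ≤ ∑ i, p.2 i ^ 2 := Finset.sum_nonneg (fun i _ => sq_nonneg _)
  rw [mem_closedBall_zero_iff, Prod.norm_def]
  exact max_le (asComp_sq_le p.1 (by linarith)) (asComp_sq_le p.2 (by linarith))

theorem asComp_XX (K k : ℕ) : IsCompact (XX K k) := by
  have hc : IsCompact {p : (Fin 5 → ℝ) × (Fin K → ℝ) | ∑ i, p.1 i ^ 2 + ∑ i, p.2 i ^ 2 = 1 ∧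
      ∀ i : Fin K, k ≤ (i : ℕ) → p.2 i = 0} := by
    refine Metric.isCompact_of_isClosed_isBounded ?_ (asComp_bdd K _ (fun p hp => hp.1))
    refine IsClosed.inter (isClosed_eq (by fun_prop) continuous_const) ?_
    have : {p : (Fin 5 → ℝ) × (Fin K → ℝ) | ∀ i : Fin K, k ≤ (i : ℕ) → p.2 i = 0}
        = ⋂ (i : Fin K) (_ : k ≤ (i : ℕ)), {p | p.2 i = 0} := by
      ext p; simp
    change IsClosed {p : (Fin 5 → ℝ) × (Fin K → ℝ) | ∀ i : Fin K, k ≤ (i : ℕ) → p.2 i = 0}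
    rw [this]
    exact isClosed_iInter (fun i => isClosed_iInter (fun _ =>
      isClosed_eq (by fun_prop) continuous_const))
  have himg : XX K k = (fun p : (Fin 5 → ℝ) × (Fin K → ℝ) => rho p.1 p.2) ''
      {p : (Fin 5 → ℝ) × (Fin K → ℝ) | ∑ i, p.1 i ^ 2 + ∑ i, p.2 i ^ 2 = 1 ∧
        ∀ i : Fin K, k ≤ (i : ℕ) → p.2 i = 0} := by
    ext x
    constructor
    · rintro ⟨w, y, hx, h1, h2⟩
      exact ⟨(w, y), ⟨h1, h2⟩, hx.symm⟩
    · rintro ⟨⟨w, y⟩, ⟨h1, h2⟩, hx⟩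
      exact ⟨w, y, hx.symm, h1, h2⟩
  rw [himg]
  exact hc.image (asComp_rho_cont K)

theorem asComp_XP (K k : ℕ) : IsCompact (XP K k) := by
  have hc : IsCompact {p : (Fin 5 → ℝ) × (Fin K → ℝ) | ∑ i, p.1 i ^ 2 + ∑ i, p.2 i ^ 2 = 1 ∧
      ((∀ i : Fin K, k ≤ (i : ℕ) → p.2 i = 0) ∧ (p.1 1 = 0 ∧ p.1 2 = 0))} := by
    refine Metric.isCompact_of_isClosed_isBounded ?_ (asComp_bdd K _ (fun p hp => hp.1))
    refine IsClosed.inter (isClosed_eq (by fun_prop) continuous_const) ?_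
    refine IsClosed.inter ?_ (IsClosed.inter (isClosed_eq (by fun_prop) continuous_const)
      (isClosed_eq (by fun_prop) continuous_const))
    have : {p : (Fin 5 → ℝ) × (Fin K → ℝ) | ∀ i : Fin K, k ≤ (i : ℕ) → p.2 i = 0}
        = ⋂ (i : Fin K) (_ : k ≤ (i : ℕ)), {p | p.2 i = 0} := by
      ext p; simp
    change IsClosed {p : (Fin 5 → ℝ) × (Fin K → ℝ) | ∀ i : Fin K, k ≤ (i : ℕ) → p.2 i = 0}
    rw [this]
    exact isClosed_iInter (fun i => isClosed_iInter (fun _ =>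
      isClosed_eq (by fun_prop) continuous_const))
  have himg : XP K k = (fun p : (Fin 5 → ℝ) × (Fin K → ℝ) => rho p.1 p.2) ''
      {p : (Fin 5 → ℝ) × (Fin K → ℝ) | ∑ i, p.1 i ^ 2 + ∑ i, p.2 i ^ 2 = 1 ∧
        ((∀ i : Fin K, k ≤ (i : ℕ) → p.2 i = 0) ∧ (p.1 1 = 0 ∧ p.1 2 = 0))} := by
    ext x
    constructor
    · rintro ⟨w, y, hx, h1, h2, h3, h4⟩
      exact ⟨(w, y), ⟨h1, h2, h3, h4⟩, hx.symm⟩
    · rintro ⟨⟨w, y⟩, ⟨h1, h2, h3, h4⟩, hx⟩
      exact ⟨w, y, hx.symm, h1, h2, h3, h4⟩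
  rw [himg]
  exact hc.image (asComp_rho_cont K)

theorem asComp_SS (K k : ℕ) : IsCompact (SS K k) := by
  refine Metric.isCompact_of_isClosed_isBounded ?_ ?_
  · refine IsClosed.inter (isClosed_eq (by fun_prop) continuous_const) ?_
    have : {x : ES K | ∀ i : Fin K, k ≤ (i : ℕ) → x.2.1 i = 0}
        = ⋂ (i : Fin K) (_ : k ≤ (i : ℕ)), {x : ES K | x.2.1 i = 0} := by
      ext p; simp
    change IsClosed {x : ES K | ∀ i : Fin K, k ≤ (i : ℕ) → x.2.1 i = 0}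
    rw [this]
    exact isClosed_iInter (fun i => isClosed_iInter (fun _ =>
      isClosed_eq (by fun_prop) continuous_const))
  · refine (Metric.isBounded_closedBall (x := (0 : ES K)) (r := 1)).subset ?_
    intro x hx
    have h1 := hx.1
    have h2 : 0 ≤ ‖x.1‖ ^ 2 := sq_nonneg _
    have h3 : 0 ≤ ∑ i, x.2.1 i ^ 2 := Finset.sum_nonneg (fun i _ => sq_nonneg _)
    have h4 : 0 ≤ x.2.2 ^ 2 := sq_nonneg _
    rw [mem_closedBall_zero_iff, Prod.norm_def, Prod.norm_def]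
    refine max_le ?_ (max_le ?_ ?_)
    · have h5 : ‖x.1‖ ^ 2 ≤ 1 := by linarith
      nlinarith [norm_nonneg x.1]
    · exact asComp_sq_le x.2.1 (by linarith)
    · rw [Real.norm_eq_abs]
      exact (sq_le_one_iff_abs_le_one _).1 (by linarith)

/-- TARGET -/
theorem asComp : S_comp :=
  fun K k => ⟨asComp_XX K k, asComp_XP K k, asComp_SS K k⟩

end

end Pool.Agent.Helper965_Rud.AS
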