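import Pool.Agent.Helper965_Rud.ASStmts

/-! # The inductive step -/

set_option autoImplicit false

namespace Pool.Agent.Helper965_Rud.AS

open scoped ComplexConjugate
open Set

noncomputable section

variable {K k : ℕ}

theorem asDesc_mem_XA (hk : k + 1 ≤ K) (ε : ℝ) (x : EX K) :
    x ∈ XA K k ε ↔ x ∈ XX K (k + 1) ∧ 0 ≤ ε * x.2 ⟨k, hk⟩ := by
  constructor
  · rintro ⟨h1, h2⟩
    exact ⟨h1, h2 _ rfl⟩
  · rintro ⟨h1, h2⟩
    refine ⟨h1, fun i hi => ?_⟩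
    have : i = ⟨k, hk⟩ := Fin.ext hi
    rw [this]; exact h2

theorem asDesc_mem_XPA (hk : k + 1 ≤ K) (ε : ℝ) (x : EX K) :
    x ∈ XPA K k ε ↔ x ∈ XP K (k + 1) ∧ 0 ≤ ε * x.2 ⟨k, hk⟩ := by
  constructor
  · rintro ⟨h1, h2⟩
    exact ⟨h1, h2 _ rfl⟩
  · rintro ⟨h1, h2⟩
    refine ⟨h1, fun i hi => ?_⟩
    have : i = ⟨k, hk⟩ := Fin.ext hi
    rw [this]; exact h2

theorem asDesc_mem_SA (hk : k + 1 ≤ K) (ε : ℝ) (x : ES K) :
    x ∈ SA K k ε ↔ x ∈ SS K (k + 1) ∧ 0 ≤ ε * x.2.1 ⟨k, hk⟩ := by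
  constructor
  · rintro ⟨h1, h2⟩
    exact ⟨h1, h2 _ rfl⟩
  · rintro ⟨h1, h2⟩
    refine ⟨h1, fun i hi => ?_⟩
    have : i = ⟨k, hk⟩ := Fin.ext hi
    rw [this]; exact h2

theorem asDesc_zero_iff (hk : k + 1 ≤ K) (y : Fin K → ℝ) :
    (∀ i : Fin K, k ≤ (i : ℕ) → y i = 0) ↔
      (∀ i : Fin K, k + 1 ≤ (i : ℕ) → y i = 0) ∧ y ⟨k, hk⟩ = 0 := by
  constructor
  · intro h
    exact ⟨fun i hi => h i (by omega), h _ le_rfl⟩
  · rintro ⟨h1, h2⟩ i hi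
    rcases hi.lt_or_eq with h | h
    · exact h1 i h
    · have : i = ⟨k, hk⟩ := Fin.ext h.symm
      rw [this]; exact h2

theorem asDesc_XX (hk : k + 1 ≤ K) (x : EX K) :
    x ∈ XX K k ↔ x ∈ XX K (k + 1) ∧ x.2 ⟨k, hk⟩ = 0 := by
  constructor
  · rintro ⟨w, y, rfl, h1, h2⟩
    obtain ⟨h3, h4⟩ := (asDesc_zero_iff hk y).1 h2
    exact ⟨⟨w, y, rfl, h1, h3⟩, h4⟩
  · rintro ⟨⟨w, y, rfl, h1, h2⟩, h3⟩
    exact ⟨w, y, rfl, h1, (asDesc_zero_iff hk y).2 ⟨h2, h3⟩⟩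

theorem asDesc_XP (hk : k + 1 ≤ K) (x : EX K) :
    x ∈ XP K k ↔ x ∈ XP K (k + 1) ∧ x.2 ⟨k, hk⟩ = 0 := by
  constructor
  · rintro ⟨w, y, rfl, h1, h2, h5⟩
    obtain ⟨h3, h4⟩ := (asDesc_zero_iff hk y).1 h2
    exact ⟨⟨w, y, rfl, h1, h3, h5⟩, h4⟩
  · rintro ⟨⟨w, y, rfl, h1, h2, h5⟩, h3⟩
    exact ⟨w, y, rfl, h1, (asDesc_zero_iff hk y).2 ⟨h2, h3⟩, h5⟩

theorem asDesc_SS (hk : k + 1 ≤ K) (x : ES K) :
    x ∈ SS K k ↔ x ∈ SS K (k + 1) ∧ x.2.1 ⟨k, hk⟩ = 0 := by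
  constructor
  · rintro ⟨h1, h2⟩
    obtain ⟨h3, h4⟩ := (asDesc_zero_iff hk x.2.1).1 h2
    exact ⟨⟨h1, h3⟩, h4⟩
  · rintro ⟨⟨h1, h2⟩, h3⟩
    exact ⟨h1, (asDesc_zero_iff hk x.2.1).2 ⟨h2, h3⟩⟩

theorem asDesc_union {α : Type*} {Z A B : Set α} {f : α → ℝ}
    (hA : ∀ x, x ∈ A ↔ x ∈ Z ∧ 0 ≤ 1 * f x) (hB : ∀ x, x ∈ B ↔ x ∈ Z ∧ 0 ≤ (-1) * f x) :
    A ∪ B = Z := by
  ext x
  rw [mem_union, hA, hB]
  constructor
  · rintro (h | h)
    · exact h.1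
    · exact h.1
  · intro h
    rcases le_total 0 (f x) with h1 | h1
    · left; exact ⟨h, by linarith⟩
    · right; exact ⟨h, by linarith⟩

theorem asDesc_inter {α : Type*} {Z Z' A B : Set α} {f : α → ℝ}
    (hA : ∀ x, x ∈ A ↔ x ∈ Z ∧ 0 ≤ 1 * f x) (hB : ∀ x, x ∈ B ↔ x ∈ Z ∧ 0 ≤ (-1) * f x)
    (hZ : ∀ x, x ∈ Z' ↔ x ∈ Z ∧ f x = 0) : A ∩ B = Z' := by
  ext x
  rw [mem_inter_iff, hA, hB, hZ]
  constructor
  · rintro ⟨⟨h1, h2⟩, ⟨-, h3⟩⟩
    exact ⟨h1, by linarith⟩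
  · rintro ⟨h1, h2⟩
    exact ⟨⟨h1, by rw [h2]; simp⟩, ⟨h1, by rw [h2]; simp⟩⟩

theorem asDesc_closed {α : Type*} [TopologicalSpace α] {Z A : Set α} {f : α → ℝ} {ε : ℝ}
    (hZ : IsCompact Z) (hf : Continuous f)
    (hA : ∀ x, x ∈ A ↔ x ∈ Z ∧ 0 ≤ ε * f x) : IsCompact A := by
  have : A = Z ∩ {x | 0 ≤ ε * f x} := by
    ext x; rw [hA]; rfl
  rw [this]
  exact hZ.inter_right (isClosed_le continuous_const (continuous_const.mul hf))

theorem asDesc_QQ_cont : Continuous (QQ K) := by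
  have h1 : ∀ i j : Fin 5, Continuous fun x : EX K => x.1 i j := fun i j =>
    (continuous_apply j).comp ((continuous_apply i).comp continuous_fst)
  have h2 : ∀ i : Fin K, Continuous fun x : EX K => x.2 i := fun i =>
    (continuous_apply i).comp continuous_snd
  refine Continuous.prodMk ?_ (Continuous.prodMk ?_ ?_)
  · have : (fun x : EX K => (⟨2 * x.1 0 3, 2 * x.1 0 4⟩ : ℂ)) =
        fun x : EX K => ((2 * x.1 0 3 : ℝ) : ℂ) + ((2 * x.1 0 4 : ℝ) : ℂ) * Complex.I := by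
      funext x; rw [Complex.mk_eq_add_mul_I]
    rw [this]
    exact (Complex.continuous_ofReal.comp (continuous_const.mul (h1 0 3))).add
      ((Complex.continuous_ofReal.comp (continuous_const.mul (h1 0 4))).mul continuous_const)
  · refine continuous_pi fun i => ?_
    exact (continuous_const.mul (Real.continuous_sqrt.comp (h1 0 0))).mul (h2 i)
  · exact (((h1 3 3).add (h1 4 4)).add (continuous_finsetSum _ fun i _ => (h2 i).pow 2)).sub
      (h1 0 0)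

theorem asDesc_QQ_maps (n : ℕ) (x : EX K) (hx : x ∈ XP K n) : QQ K x ∈ SS K n := by
  obtain ⟨w, y, rfl, h1, h2, h3, h4⟩ := hx
  have hs : Real.sqrt (w 0 * w 0) ^ 2 = w 0 ^ 2 := by
    rw [Real.sq_sqrt (mul_self_nonneg _)]; ring
  refine ⟨?_, ?_⟩
  · have e1 : ‖(QQ K (rho w y)).1‖ ^ 2 = (2 * (w 0 * w 3)) ^ 2 + (2 * (w 0 * w 4)) ^ 2 := by
      rw [Complex.sq_norm, Complex.normSq_apply]
      show 2 * (w 0 * w 3) * (2 * (w 0 * w 3)) + 2 * (w 0 * w 4) * (2 * (w 0 * w 4)) = _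
      ring
    have e2 : ∑ i, (QQ K (rho w y)).2.1 i ^ 2 = 4 * w 0 ^ 2 * ∑ i, y i ^ 2 := by
      rw [Finset.mul_sum]
      refine Finset.sum_congr rfl fun i _ => ?_
      show (2 * Real.sqrt (w 0 * w 0) * y i) ^ 2 = _
      rw [mul_pow, mul_pow, hs]; ring
    have e3 : (QQ K (rho w y)).2.2 = w 3 * w 3 + w 4 * w 4 + ∑ i, y i ^ 2 - w 0 * w 0 := rfl
    rw [e1, e2, e3]
    simp only [Fin.sum_univ_five] at h1
    rw [h3, h4] at h1
    have e4 : w 0 ^ 2 + w 3 ^ 2 + w 4 ^ 2 + ∑ i, y i ^ 2 = 1 := by linarith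
    set Y := ∑ i, y i ^ 2
    have e5 : (w 0 ^ 2 + w 3 ^ 2 + w 4 ^ 2 + Y) ^ 2 = 1 := by rw [e4]; ring
    linear_combination e5
  · intro i hi
    show 2 * Real.sqrt (w 0 * w 0) * y i = 0
    rw [h2 i hi, mul_zero]

theorem asDesc_QQ_half (hk : k + 1 ≤ K) (ε : ℝ) (x : EX K) (hx : x ∈ XPA K k ε) :
    QQ K x ∈ SA K k ε := by
  rw [asDesc_mem_XPA hk] at hx
  rw [asDesc_mem_SA hk]
  refine ⟨asDesc_QQ_maps _ x hx.1, ?_⟩
  show 0 ≤ ε * (2 * Real.sqrt (x.1 0 0) * x.2 ⟨k, hk⟩)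
  have : ε * (2 * Real.sqrt (x.1 0 0) * x.2 ⟨k, hk⟩) =
      (2 * Real.sqrt (x.1 0 0)) * (ε * x.2 ⟨k, hk⟩) := by ring
  rw [this]
  exact mul_nonneg (by positivity) hx.2

theorem asDesc_fa {Ω : Type*} [MetricSpace Ω] {Z : Set Ω} {u a : List Ω → ZMod 2}
    (hu : Nl Z (k + 5) (d u)) (ha : Nl Z (k + 4) (u - d a)) :
    Nl Z (k + 6) (cup (k + 2) (k + 4) (k + 4) u u -
      d (cup (k + 2) (k + 3) (k + 4) a u + cup (k + 1) (k + 3) (k + 3) a a)) := by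
  set δ : List Ω → ZMod 2 := u - d a with hδ
  have hda : d a = u + δ := by
    funext l
    have h2 : (2 : ZMod 2) = 0 := rfl
    simp only [hδ, Pi.add_apply, Pi.sub_apply]
    linear_combination (d a l - u l) * h2
  have key : cup (k + 2) (k + 4) (k + 4) u u -
      d (cup (k + 2) (k + 3) (k + 4) a u + cup (k + 1) (k + 3) (k + 3) a a) =
      cup (k + 2) (k + 4) (k + 4) δ u + cup (k + 2) (k + 3) (k + 5) a (d u) +
      cup (k + 1) (k + 4) (k + 3) δ a + cup (k + 1) (k + 3) (k + 4) a δ := by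
    have e1 := d_cup (k + 1) (k + 3) (k + 4) a u
    have e2 := d_cup k (k + 3) (k + 3) a a
    rw [hda] at e1 e2
    rw [d_add, e1, e2]
    simp only [cup_add_l, cup_add_r]
    funext l
    have h2 : (2 : ZMod 2) = 0 := rfl
    simp only [Pi.add_apply, Pi.sub_apply]
    linear_combination (- cup (k + 1) (k + 3) (k + 4) a u l - cup (k + 1) (k + 4) (k + 3) u a l
      - cup k (k + 3) (k + 3) a a l - cup (k + 2) (k + 4) (k + 4) δ u l
      - cup (k + 2) (k + 3) (k + 5) a (d u) l - cup (k + 1) (k + 4) (k + 3) δ a l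
      - cup (k + 1) (k + 3) (k + 4) a δ l) * h2
  rw [key]
  exact (((ha.cup_left _ _ _ _).add (hu.cup_right _ _ _ _)).add (ha.cup_left _ _ _ _)).add
    (ha.cup_right _ _ _ _)

theorem asDesc_ww {Ω : Type*} [MetricSpace Ω] {Z : Set Ω} {u a b : List Ω → ZMod 2}
    (hw : Nl Z (k + 4) (d (a - b))) (hb : Nl Z (k + 4) (u - d b))
    (hf : Cob Z (k + 5) (cup (k + 2) (k + 3) (k + 4) a u + cup (k + 1) (k + 3) (k + 3) a a -
      (cup (k + 2) (k + 3) (k + 4) b u + cup (k + 1) (k + 3) (k + 3) b b))) :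
    Cob Z (k + 5) (cup (k + 1) (k + 3) (k + 3) (a - b) (a - b)) := by
  set w : List Ω → ZMod 2 := a - b with hwdef
  set δ : List Ω → ZMod 2 := u - d b with hδ
  have hdb : d b = u + δ := by
    funext l
    have h2 : (2 : ZMod 2) = 0 := rfl
    simp only [hδ, Pi.add_apply, Pi.sub_apply]
    linear_combination (d b l - u l) * h2
  have haw : a = w + b := by rw [hwdef]; abel
  have e := d_cup (k + 1) (k + 3) (k + 3) w b
  rw [hdb] at e
  have key : cup (k + 1) (k + 3) (k + 3) w w =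
      (cup (k + 2) (k + 3) (k + 4) a u + cup (k + 1) (k + 3) (k + 3) a a -
      (cup (k + 2) (k + 3) (k + 4) b u + cup (k + 1) (k + 3) (k + 3) b b)) -
      d (cup (k + 1 + 1) (k + 3) (k + 3) w b) + (cup (k + 1 + 1) (k + 3 + 1) (k + 3) (d w) b +
      cup (k + 1 + 1) (k + 3) (k + 3 + 1) w δ) := by
    rw [e, haw]
    simp only [cup_add_l, cup_add_r]
    funext l
    simp only [Pi.add_apply, Pi.sub_apply]
    ring
  rw [key]
  exact (hf.sub (cob_d _)).add ((hw.cup_left _ _ _ _).add (hb.cup_right _ _ _ _)).cob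

/-- TARGET -/
theorem asDesc (h1 : S_comp) (h2 : S_half) : S_desc := by
  intro K k hk hP
  obtain ⟨u, i, hu, huu, hi, hni, hui⟩ := hP
  obtain ⟨hcX, hcP, hcS⟩ := h1 K (k + 1)
  have hf1 : Continuous fun x : EX K => x.2 ⟨k, hk⟩ :=
    (continuous_apply _).comp continuous_snd
  have hf2 : Continuous fun x : ES K => x.2.1 ⟨k, hk⟩ :=
    (continuous_apply _).comp (continuous_fst.comp continuous_snd)
  have hAc : IsCompact (XA K k 1) := asDesc_closed hcX hf1 (asDesc_mem_XA hk 1)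
  have hBc : IsCompact (XA K k (-1)) := asDesc_closed hcX hf1 (asDesc_mem_XA hk (-1))
  have hA'c : IsCompact (XPA K k 1) := asDesc_closed hcP hf1 (asDesc_mem_XPA hk 1)
  have hB'c : IsCompact (XPA K k (-1)) := asDesc_closed hcP hf1 (asDesc_mem_XPA hk (-1))
  have hDc : IsCompact (SA K k 1) := asDesc_closed hcS hf2 (asDesc_mem_SA hk 1)
  have hEc : IsCompact (SA K k (-1)) := asDesc_closed hcS hf2 (asDesc_mem_SA hk (-1))
  have hXu : XA K k 1 ∪ XA K k (-1) = XX K (k + 1) :=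
    asDesc_union (asDesc_mem_XA hk 1) (asDesc_mem_XA hk (-1))
  have hXi : XA K k 1 ∩ XA K k (-1) = XX K k :=
    asDesc_inter (asDesc_mem_XA hk 1) (asDesc_mem_XA hk (-1)) (asDesc_XX hk)
  have hPu : XPA K k 1 ∪ XPA K k (-1) = XP K (k + 1) :=
    asDesc_union (asDesc_mem_XPA hk 1) (asDesc_mem_XPA hk (-1))
  have hPi : XPA K k 1 ∩ XPA K k (-1) = XP K k :=
    asDesc_inter (asDesc_mem_XPA hk 1) (asDesc_mem_XPA hk (-1)) (asDesc_XP hk)
  have hSu : SA K k 1 ∪ SA K k (-1) = SS K (k + 1) :=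
    asDesc_union (asDesc_mem_SA hk 1) (asDesc_mem_SA hk (-1))
  have hSi : SA K k 1 ∩ SA K k (-1) = SS K k :=
    asDesc_inter (asDesc_mem_SA hk 1) (asDesc_mem_SA hk (-1)) (asDesc_SS hk)
  have sA : XA K k 1 ⊆ XX K (k + 1) := fun x hx => hx.1
  have sB : XA K k (-1) ⊆ XX K (k + 1) := fun x hx => hx.1
  have sA' : XPA K k 1 ⊆ XP K (k + 1) := fun x hx => hx.1
  have sB' : XPA K k (-1) ⊆ XP K (k + 1) := fun x hx => hx.1
  have sD : SA K k 1 ⊆ SS K (k + 1) := fun x hx => hx.1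
  have sE : SA K k (-1) ⊆ SS K (k + 1) := fun x hx => hx.1
  have sPX : XP K (k + 1) ⊆ XX K (k + 1) := by
    rintro x ⟨w, y, h3, h4, h5, -⟩
    exact ⟨w, y, h3, h4, h5⟩
  have sA'A : XPA K k 1 ⊆ XA K k 1 := fun x hx => ⟨sPX hx.1, hx.2⟩
  have sB'B : XPA K k (-1) ⊆ XA K k (-1) := fun x hx => ⟨sPX hx.1, hx.2⟩
  -- primitives
  obtain ⟨a, ha⟩ : Cob (XA K k 1) (k + 4) u := (h2 K k hk 1 (Or.inl rfl) _).1 u (hu.mono sA)
  obtain ⟨b, hb⟩ : Cob (XA K k (-1)) (k + 4) u :=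
    (h2 K k hk (-1) (Or.inr rfl) _).1 u (hu.mono sB)
  obtain ⟨x, hx⟩ : Cob (SA K k 1) (k + 4) i :=
    (h2 K k hk 1 (Or.inl rfl) _).2.2 i (hi.mono sD)
  obtain ⟨y, hy⟩ : Cob (SA K k (-1)) (k + 4) i :=
    (h2 K k hk (-1) (Or.inr rfl) _).2.2 i (hi.mono sE)
  have hw : Coc (XX K k) (k + 3) (a - b) := by
    rw [← hXi]
    exact coc_of_two (ha.mono inter_subset_left) (hb.mono inter_subset_right)
  have hxy : Coc (SS K k) (k + 3) (x - y) := by
    rw [← hSi]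
    exact coc_of_two (hx.mono inter_subset_left) (hy.mono inter_subset_right)
  refine ⟨a - b, x - y, hw, ?_, hxy, ?_, ?_⟩
  · -- the square
    obtain ⟨e, he⟩ : Cob (XX K (k + 1)) (k + 6) (cup (k + 2) (k + 4) (k + 4) u u) := huu
    have hdu : Nl (XX K (k + 1)) (k + 5) (d u) := hu
    have hfa := asDesc_fa (hdu.mono sA) ha
    have hfb := asDesc_fa (hdu.mono sB) hb
    have ca := (h2 K k hk 1 (Or.inl rfl) (k + 5)).1 _ (coc_of_two (he.mono sA) hfa)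
    have cb := (h2 K k hk (-1) (Or.inr rfl) (k + 5)).1 _ (coc_of_two (he.mono sB) hfb)
    apply asDesc_ww (u := u) hw
    · rw [← hXi]; exact hb.mono inter_subset_right
    · rw [← hXi]
      have h3 := (cb.mono (inter_subset_right (s := XA K k 1))).sub
        (ca.mono (inter_subset_left (t := XA K k (-1))))
      rw [sub_sub_sub_cancel_left] at h3
      exact h3
  · -- not a coboundary
    intro hcob
    apply hni
    rw [← hSi] at hcob
    rw [← hSu] at hi ⊢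
    exact MV.mv_glue _ _ hDc hEc.isClosed (k + 3) i x y hi hx hy hcob
  · obtain ⟨g, hg⟩ : Cob (XP K (k + 1)) (k + 4) (u - pb (QQ K) i) := hui
    have c1 : Cob (XPA K k 1) (k + 3) (a - pb (QQ K) x - g) := by
      apply (h2 K k hk 1 (Or.inl rfl) (k + 3)).2.1
      show Nl _ _ _
      rw [d_sub, d_sub, d_pb]
      have n1 : Nl (XPA K k 1) (k + 4) (pb (QQ K) (i - d x)) :=
        nl_pb hA'c _ asDesc_QQ_cont.continuousOn (asDesc_QQ_half hk 1) hx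
      have e1 : d a - pb (QQ K) (d x) - d g =
          (u - pb (QQ K) i - d g) + pb (QQ K) (i - d x) - (u - d a) := by
        rw [pb_sub]; abel
      rw [e1]
      exact ((hg.mono sA').add n1).sub (ha.mono sA'A)
    have c2 : Cob (XPA K k (-1)) (k + 3) (b - pb (QQ K) y - g) := by
      apply (h2 K k hk (-1) (Or.inr rfl) (k + 3)).2.1
      show Nl _ _ _
      rw [d_sub, d_sub, d_pb]
      have n1 : Nl (XPA K k (-1)) (k + 4) (pb (QQ K) (i - d y)) :=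
        nl_pb hB'c _ asDesc_QQ_cont.continuousOn (asDesc_QQ_half hk (-1)) hy
      have e1 : d b - pb (QQ K) (d y) - d g =
          (u - pb (QQ K) i - d g) + pb (QQ K) (i - d y) - (u - d b) := by
        rw [pb_sub]; abel
      rw [e1]
      exact ((hg.mono sB').add n1).sub (hb.mono sB'B)
    rw [← hPi]
    have h3 := (c1.mono (inter_subset_left (t := XPA K k (-1)))).sub
      (c2.mono (inter_subset_right (s := XPA K k 1)))
    have e2 : a - pb (QQ K) x - g - (b - pb (QQ K) y - g) = a - b - pb (QQ K) (x - y) := by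
      rw [pb_sub]; abel
    rw [e2] at h3
    exact h3

end

end Pool.Agent.Helper965_Rud.AS
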