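import Pool.Agent.Helper965_Rud.ASStmts

/-!
JOB asMS (MP_89fcdb_gt, owner helper965; disproof of a conjecture of Rudyak; part: Alexander-Spanier cochains mod 2).
Setup: git fetch in outputs/live, copy Pool/Agent/Helper965_Rud/*.lean from origin/main
to the same paths under /workdir/pool/Pool/Agent/, then `lake build Pool.Agent.Helper965_Rud.ASStmts`. Check with `lake env lean <file>`.
Cochains are ALL functions List Ω → ZMod 2 (see ASDefs: d, Sm X ε l = the list l is in X with pairwise distances < ε, Nl X q c = c vanishes on small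
lists of length q in X, Coc, Cob, HV X q = the cohomology of X in length q vanishes, H1, pb f c = fun l => c (l.map f), d_add, d_sub, d_d, d_pb, Nl.add, Nl.sub, Nl.mono, Nl.d,
Cob.add, ..., prism). ASMV: MV.mv_glue. ASSusp: coc_of_two, mv, susp. ASHomot: Homot.acyclic_of_contract (contractible compact sets are acyclic). ASPull: nl_pb, coc_pb, cob_pb, homot
(homotopy invariance), HV.of_retract, cob_of_pb, hv_zero, empty_h1, empty_hv. ASCup: cup r p q x y (cup-(r-1) product of x of length p and y of length q, which has length p+q-r),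
cup_add_l, cup_add_r, cup_pb, d_cup, Nl.cup_left, Nl.cup_right. Coefficients ZMod 2: c + c = 0 (CharTwo.add_self_eq_zero), c - c' = c + c' (CharTwo.sub_eq_add).
The hypotheses S_... of the target are proved by other jobs: just use them.
Return the WHOLE file with the target proved (no sorry, no axiom, no native_decide; keep the name and the statement of the target).
Auxiliary lemmas: before the target, with names starting with asMS_ .
Avoid straight double quotes and the words forbidden by RULES.md. If the statement is false or something is missing, say so in the note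
(status 'problem') with the reason. The final path of the file is Pool/Agent/Helper965_Rud/P_asMS.lean .

PROOF. Fix K. Compact: closed and bounded in Fin K → ℝ (each |x i| ≤ 1). Induction on n. n = 0: MS K 0 = ∅ (all x i = 0 contradicts the sum 1): empty_hv, empty_h1.
Step n → n+1 (n + 1 ≤ K): let j : Fin K be the index n, A = {x ∈ MS K (n+1) | 0 ≤ x j}, B = {x ∈ MS K (n+1) | x j ≤ 0}: compact (closed subsets), A ∪ B = MS K (n+1), A ∩ B = MS K n.
A and B are acyclic for all q: Homot.acyclic_of_contract with p = e_j = Pi.single j 1 (resp. -e_j) and H t x = ((1-t) x + t p)/norm, norm = sqrt(∑ ((1-t) x_i + t p_i)^2), which is positive since the coordinate j of (1-t) x + t p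
is (1-t) x_j + t (resp. its negative), nonnegative and positive unless t = 0 and x_j = 0; if t = 0 the norm is 1. H 0 x = x, H 1 x = p.
HV (MS K (n+1)) q for q ≠ n+1: q = 0: hv_zero (nonempty, p is in it). q = q'+1, q' ≠ n: mv A B ... with HV (A ∩ B) q' (induction) and the acyclicity of A and B (it gives Cob A, Cob B of the restriction Coc.mono).
H1 (MS K (n+1)) (n+1): susp A B with H1 (A ∩ B) n.
-/

set_option autoImplicit false

namespace Pool.Agent.Helper965_Rud.AS

open scoped ComplexConjugate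
open Set

noncomputable section

/-- the half sphere -/
def asMS_half (K n : ℕ) (hn : n < K) (σ : ℝ) : Set (Fin K → ℝ) :=
  {x | x ∈ MS K (n + 1) ∧ 0 ≤ σ * x ⟨n, hn⟩}

theorem asMS_compact (K n : ℕ) : IsCompact (MS K n) := by
  apply (isCompact_Icc (a := fun _ : Fin K => (-1 : ℝ)) (b := fun _ : Fin K => (1 : ℝ))).of_isClosed_subset
  · have e : MS K n = {x : Fin K → ℝ | ∑ i, x i ^ 2 = 1} ∩ ⋂ i : Fin K, {x | n ≤ (i : ℕ) → x i = 0} := by
      ext x; simp [MS]
    rw [e]
    apply IsClosed.inter
    · exact isClosed_eq (by fun_prop) continuous_const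
    · apply isClosed_iInter
      intro i
      by_cases h : n ≤ (i : ℕ)
      · have : {x : Fin K → ℝ | n ≤ (i : ℕ) → x i = 0} = {x | x i = 0} := by ext x; simp [h]
        rw [this]
        exact isClosed_eq (by fun_prop) continuous_const
      · have : {x : Fin K → ℝ | n ≤ (i : ℕ) → x i = 0} = Set.univ := by ext x; simp [h]
        rw [this]; exact isClosed_univ
  · intro x hx
    have h1 : ∀ i, x i ^ 2 ≤ 1 := by
      intro i
      rw [← hx.1]
      exact Finset.single_le_sum (f := fun i => x i ^ 2) (fun i _ => sq_nonneg _) (Finset.mem_univ i)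
    constructor
    · intro i; have := h1 i; show (-1 : ℝ) ≤ x i; nlinarith
    · intro i; have := h1 i; show x i ≤ (1 : ℝ); nlinarith

theorem asMS_half_compact (K n : ℕ) (hn : n < K) (σ : ℝ) : IsCompact (asMS_half K n hn σ) := by
  apply (asMS_compact K (n + 1)).of_isClosed_subset
  · have e : asMS_half K n hn σ = MS K (n + 1) ∩ {x | 0 ≤ σ * x ⟨n, hn⟩} := rfl
    rw [e]
    exact (asMS_compact K (n + 1)).isClosed.inter (isClosed_le continuous_const (by fun_prop))
  · exact fun x hx => hx.1

/-- the pole -/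
def asMS_p (K n : ℕ) (hn : n < K) (σ : ℝ) : Fin K → ℝ := fun i => if i = ⟨n, hn⟩ then σ else 0

/-- the squared norm of the segment -/
def asMS_N (K n : ℕ) (hn : n < K) (σ : ℝ) (t : ℝ) (x : Fin K → ℝ) : ℝ :=
  ∑ i, ((1 - t) * x i + t * asMS_p K n hn σ i) ^ 2

/-- the contraction -/
def asMS_H (K n : ℕ) (hn : n < K) (σ : ℝ) (t : ℝ) (x : Fin K → ℝ) : Fin K → ℝ :=
  fun i => ((1 - t) * x i + t * asMS_p K n hn σ i) / Real.sqrt (asMS_N K n hn σ t x)

theorem asMS_N_pos (K n : ℕ) (hn : n < K) (σ : ℝ) (hσ : σ ^ 2 = 1) (t : ℝ) (ht : t ∈ Icc (0 : ℝ) 1)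
    (x : Fin K → ℝ) (hx : x ∈ asMS_half K n hn σ) : 0 < asMS_N K n hn σ t x := by
  rcases eq_or_lt_of_le ht.1 with h0 | h0
  · unfold asMS_N
    rw [← h0]
    simp only [sub_zero, one_mul, zero_mul, add_zero]
    rw [hx.1.1]; exact one_pos
  · have h1 : ((1 - t) * x ⟨n, hn⟩ + t * asMS_p K n hn σ ⟨n, hn⟩) ^ 2 ≤ asMS_N K n hn σ t x :=
      Finset.single_le_sum (f := fun i => ((1 - t) * x i + t * asMS_p K n hn σ i) ^ 2)
        (fun i _ => sq_nonneg _) (Finset.mem_univ _)
    refine lt_of_lt_of_le ?_ h1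
    have h2 : asMS_p K n hn σ ⟨n, hn⟩ = σ := by simp [asMS_p]
    rw [h2]
    have h3 : 0 ≤ (1 - t) * (σ * x ⟨n, hn⟩) := mul_nonneg (by linarith [ht.2]) hx.2
    have h4 : 0 < σ * ((1 - t) * x ⟨n, hn⟩ + t * σ) := by
      have : σ * ((1 - t) * x ⟨n, hn⟩ + t * σ) = (1 - t) * (σ * x ⟨n, hn⟩) + t * σ ^ 2 := by ring
      rw [this, hσ]; linarith
    have h5 : (1 - t) * x ⟨n, hn⟩ + t * σ ≠ 0 := by
      intro h; rw [h, mul_zero] at h4; exact lt_irrefl _ h4
    positivity

theorem asMS_p_mem (K n : ℕ) (hn : n < K) (σ : ℝ) (hσ : σ ^ 2 = 1) :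
    asMS_p K n hn σ ∈ asMS_half K n hn σ := by
  refine ⟨⟨?_, ?_⟩, ?_⟩
  · simp [asMS_p, hσ]
  · intro i hi
    have : i ≠ ⟨n, hn⟩ := by
      intro h; rw [h] at hi; simp at hi
    simp [asMS_p, this]
  · have h2 : asMS_p K n hn σ ⟨n, hn⟩ = σ := by simp [asMS_p]
    rw [h2]; nlinarith

theorem asMS_acyclic (K n : ℕ) (hn : n < K) (σ : ℝ) (hσ : σ ^ 2 = 1) (q : ℕ) :
    HV (asMS_half K n hn σ) q := by
  refine Homot.acyclic_of_contract (asMS_half K n hn σ) (asMS_half_compact K n hn σ)
    (asMS_p K n hn σ) (asMS_H K n hn σ) ?_ ?_ ?_ ?_ (asMS_p_mem K n hn σ hσ) q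
  · apply continuousOn_pi.2
    intro i
    apply ContinuousOn.div
    · fun_prop
    · unfold asMS_N; fun_prop
    · rintro ⟨t, x⟩ ⟨ht, hx⟩
      exact (Real.sqrt_pos.2 (asMS_N_pos K n hn σ hσ t ht x hx)).ne'
  · intro t ht x hx
    have hN := asMS_N_pos K n hn σ hσ t ht x hx
    have hs := Real.sqrt_pos.2 hN
    refine ⟨⟨?_, ?_⟩, ?_⟩
    · simp only [asMS_H, div_pow, ← Finset.sum_div]
      rw [Real.sq_sqrt hN.le]
      exact div_self hN.ne'
    · intro i hi
      have h1 : i ≠ ⟨n, hn⟩ := by
        intro h; rw [h] at hi; simp at hi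
      have h2 : x i = 0 := hx.1.2 i hi
      simp [asMS_H, asMS_p, h1, h2]
    · have h2 : asMS_p K n hn σ ⟨n, hn⟩ = σ := by simp [asMS_p]
      have h3 : 0 ≤ (1 - t) * (σ * x ⟨n, hn⟩) := mul_nonneg (by linarith [ht.2]) hx.2
      have h4 : 0 ≤ σ * ((1 - t) * x ⟨n, hn⟩ + t * σ) := by
        have : σ * ((1 - t) * x ⟨n, hn⟩ + t * σ) = (1 - t) * (σ * x ⟨n, hn⟩) + t * σ ^ 2 := by ring
        rw [this, hσ]; linarith [ht.1]
      simp only [asMS_H, h2]
      rw [← mul_div_assoc]
      exact div_nonneg h4 hs.le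
  · intro x hx
    have h1 : asMS_N K n hn σ 0 x = 1 := by
      unfold asMS_N
      simp only [sub_zero, one_mul, zero_mul, add_zero]
      exact hx.1.1
    funext i
    simp [asMS_H, h1]
  · intro x hx
    have h1 : asMS_N K n hn σ 1 x = 1 := by
      unfold asMS_N
      simp only [sub_self, one_mul, zero_mul, zero_add]
      exact (asMS_p_mem K n hn σ hσ).1.1
    funext i
    simp [asMS_H, h1]

theorem asMS_union (K n : ℕ) (hn : n < K) :
    asMS_half K n hn 1 ∪ asMS_half K n hn (-1) = MS K (n + 1) := by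
  ext x
  constructor
  · rintro (h | h) <;> exact h.1
  · intro h
    rcases le_total 0 (x ⟨n, hn⟩) with h1 | h1
    · exact Or.inl ⟨h, by linarith⟩
    · exact Or.inr ⟨h, by linarith⟩

theorem asMS_inter (K n : ℕ) (hn : n < K) :
    asMS_half K n hn 1 ∩ asMS_half K n hn (-1) = MS K n := by
  ext x
  constructor
  · rintro ⟨⟨⟨h1, h2⟩, h3⟩, ⟨-, h4⟩⟩
    refine ⟨h1, fun i hi => ?_⟩
    rcases eq_or_lt_of_le hi with h5 | h5
    · have : i = ⟨n, hn⟩ := Fin.ext h5.symm
      rw [this]; linarith
    · exact h2 i h5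
  · rintro ⟨h1, h2⟩
    have h3 : x ⟨n, hn⟩ = 0 := h2 ⟨n, hn⟩ le_rfl
    have h4 : x ∈ MS K (n + 1) := ⟨h1, fun i hi => h2 i (by omega)⟩
    exact ⟨⟨h4, by rw [h3]; simp⟩, ⟨h4, by rw [h3]; simp⟩⟩

/-- TARGET -/
theorem asMS : S_MS := by
  intro K n hnK
  refine ⟨asMS_compact K n, ?_⟩
  induction n with
  | zero =>
    have h0 : MS K 0 = ∅ := by
      ext x
      simp only [Set.mem_empty_iff_false, iff_false]
      rintro ⟨h1, h2⟩
      have : ∑ i, x i ^ 2 = 0 := Finset.sum_eq_zero fun i _ => by rw [h2 i (Nat.zero_le _)]; simp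
      rw [this] at h1
      exact zero_ne_one h1
    rw [h0]
    exact ⟨fun q hq => empty_hv hq, empty_h1⟩
  | succ n ih =>
    have hn : n < K := hnK
    obtain ⟨ih1, ih2⟩ := ih hn.le
    have hA := asMS_half_compact K n hn 1
    have hB := asMS_half_compact K n hn (-1)
    have hAa := asMS_acyclic K n hn 1 (by norm_num)
    have hBa := asMS_acyclic K n hn (-1) (by norm_num)
    have hU := asMS_union K n hn
    have hI := asMS_inter K n hn
    constructor
    · intro q hq
      cases q with
      | zero =>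
        exact hv_zero ⟨_, (asMS_p_mem K n hn 1 (by norm_num)).1⟩
      | succ q =>
        have hq' : q ≠ n := fun h => hq (by rw [h])
        intro c hc
        rw [← hU] at hc ⊢
        refine mv _ _ hA hB.isClosed q ?_ c hc (hAa _ c (hc.mono subset_union_left))
          (hBa _ c (hc.mono subset_union_right))
        rw [hI]
        exact ih1 q hq'
    · rw [← hU]
      refine susp _ _ hA hB.isClosed hAa hBa n ?_
      rw [hI]
      exact ih2

end

end Pool.Agent.Helper965_Rud.AS

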