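import Pool.Agent.Helper965_Rud.ASStmts

set_option autoImplicit false

namespace Pool.Agent.Helper965_Rud.AS

open scoped ComplexConjugate
open Set

noncomputable section

/-- to coordinates -/
def asSSK_f {K : ℕ} (x : ES K) : Fin (K + 3) → ℝ :=
  Fin.cons x.1.re (Fin.cons x.1.im (Fin.cons x.2.2 x.2.1))

/-- from coordinates -/
def asSSK_g {K : ℕ} (z : Fin (K + 3) → ℝ) : ES K :=
  (⟨z 0, z 1⟩, fun i => z i.succ.succ.succ, z 2)

theorem asSSK_gf {K : ℕ} (x : ES K) : asSSK_g (asSSK_f x) = x := by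
  obtain ⟨β, y, τ⟩ := x
  rfl

theorem asSSK_fg {K : ℕ} (z : Fin (K + 3) → ℝ) : asSSK_f (asSSK_g z) = z := by
  funext i
  refine Fin.cases ?_ (fun i => ?_) i
  · rfl
  refine Fin.cases ?_ (fun i => ?_) i
  · rfl
  refine Fin.cases ?_ (fun i => ?_) i
  · rfl
  rfl

theorem asSSK_cf {K : ℕ} : Continuous (asSSK_f : ES K → Fin (K + 3) → ℝ) := by
  refine continuous_pi fun i => ?_
  refine Fin.cases ?_ (fun i => ?_) i
  · exact Complex.continuous_re.comp continuous_fst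
  refine Fin.cases ?_ (fun i => ?_) i
  · exact Complex.continuous_im.comp continuous_fst
  refine Fin.cases ?_ (fun i => ?_) i
  · exact continuous_snd.comp continuous_snd
  exact (continuous_apply i).comp (continuous_fst.comp continuous_snd)

theorem asSSK_cg {K : ℕ} : Continuous (asSSK_g : (Fin (K + 3) → ℝ) → ES K) := by
  refine Continuous.prodMk ?_ (Continuous.prodMk ?_ (continuous_apply _))
  · have : (fun z : Fin (K + 3) → ℝ => (⟨z 0, z 1⟩ : ℂ)) =
        fun z => (z 0 : ℂ) + (z 1 : ℂ) * Complex.I := by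
      funext z
      apply Complex.ext <;> simp
    rw [this]
    fun_prop
  · exact continuous_pi fun i => continuous_apply _

theorem asSSK_mf {K : ℕ} (x : ES K) (hx : x ∈ SS K K) : asSSK_f x ∈ MS (K + 3) (K + 3) := by
  refine ⟨?_, fun i hi => absurd i.2 (by omega)⟩
  have h := hx.1
  rw [Fin.sum_univ_succ, Fin.sum_univ_succ, Fin.sum_univ_succ]
  rw [Complex.sq_norm, Complex.normSq_apply] at h
  change x.1.re ^ 2 + (x.1.im ^ 2 + (x.2.2 ^ 2 + ∑ i : Fin K, x.2.1 i ^ 2)) = 1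
  linarith

theorem asSSK_mg {K : ℕ} (z : Fin (K + 3) → ℝ) (hz : z ∈ MS (K + 3) (K + 3)) :
    asSSK_g z ∈ SS K K := by
  refine ⟨?_, fun i hi => absurd i.2 (by omega)⟩
  have h := hz.1
  rw [Fin.sum_univ_succ, Fin.sum_univ_succ, Fin.sum_univ_succ] at h
  rw [Complex.sq_norm, Complex.normSq_apply]
  change z 0 * z 0 + z 1 * z 1 + ∑ i : Fin K, z i.succ.succ.succ ^ 2 + z 2 ^ 2 = 1
  have e1 : (Fin.succ 0 : Fin (K + 3)) = 1 := rfl
  have e2 : (Fin.succ (Fin.succ 0) : Fin (K + 3)) = 2 := rfl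
  rw [e1, e2] at h
  linarith

theorem asSSK_comp {K : ℕ} (h : S_MS) : IsCompact (SS K K) := by
  have : SS K K = asSSK_g '' MS (K + 3) (K + 3) := by
    ext x
    constructor
    · intro hx
      exact ⟨asSSK_f x, asSSK_mf x hx, asSSK_gf x⟩
    · rintro ⟨z, hz, rfl⟩
      exact asSSK_mg z hz
  rw [this]
  exact (h (K + 3) (K + 3) le_rfl).1.image asSSK_cg

/-- TARGET -/
theorem asSSK (h : S_MS) : S_SSK := by
  intro K
  have h1 := h (K + 3) (K + 3) le_rfl
  refine ⟨?_, ?_⟩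
  · exact HV.of_retract h1.1 (asSSK_comp h) asSSK_f asSSK_g asSSK_cf.continuousOn asSSK_mf
      asSSK_cg.continuousOn asSSK_mg (fun y _ => asSSK_gf y) (h1.2.1 (K + 5) (by omega))
  · obtain ⟨u, hu, hn, -⟩ := h1.2.2
    refine ⟨pb asSSK_f u, coc_pb (asSSK_comp h) asSSK_f asSSK_cf.continuousOn asSSK_mf hu, ?_⟩
    intro hc
    exact hn (cob_of_pb h1.1 asSSK_g asSSK_f asSSK_cg.continuousOn asSSK_mg
      (fun y _ => asSSK_fg y) hc)

end

end Pool.Agent.Helper965_Rud.AS
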