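import Pool.Agent.Helper965_Rud.ASStmts

/-! # The start of the induction -/

set_option autoImplicit false

namespace Pool.Agent.Helper965_Rud.AS

open scoped ComplexConjugate
open Set

noncomputable section

theorem asTop_compact (K : ℕ) : CompactSpace (Sig K) := by
  have hc : IsClosed {x : (Fin 3 → ℝ) × ℂ × (Fin K → ℝ) |
      ∑ i, x.1 i ^ 2 + ‖x.2.1‖ ^ 2 + ∑ i, x.2.2 i ^ 2 = 1} := by
    refine isClosed_eq ?_ continuous_const
    fun_prop
  have hb : Bornology.IsBounded {x : (Fin 3 → ℝ) × ℂ × (Fin K → ℝ) |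
      ∑ i, x.1 i ^ 2 + ‖x.2.1‖ ^ 2 + ∑ i, x.2.2 i ^ 2 = 1} := by
    rw [isBounded_iff_forall_norm_le]
    refine ⟨1, fun x hx => ?_⟩
    have hx' : ∑ i, x.1 i ^ 2 + ‖x.2.1‖ ^ 2 + ∑ i, x.2.2 i ^ 2 = 1 := hx
    have p1 : 0 ≤ ∑ i, x.1 i ^ 2 := Finset.sum_nonneg fun i _ => sq_nonneg _
    have p2 : 0 ≤ ∑ i, x.2.2 i ^ 2 := Finset.sum_nonneg fun i _ => sq_nonneg _
    have p3 : 0 ≤ ‖x.2.1‖ ^ 2 := sq_nonneg _
    refine max_le ?_ (max_le ?_ ?_)
    · refine (pi_norm_le_iff_of_nonneg zero_le_one).2 fun i => ?_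
      have h1 : x.1 i ^ 2 ≤ ∑ i, x.1 i ^ 2 :=
        Finset.single_le_sum (f := fun i => x.1 i ^ 2) (fun j _ => sq_nonneg _) (Finset.mem_univ i)
      rw [Real.norm_eq_abs]
      exact (sq_le_one_iff_abs_le_one _).1 (by linarith)
    · exact (sq_le_one_iff₀ (norm_nonneg _)).1 (by linarith)
    · refine (pi_norm_le_iff_of_nonneg zero_le_one).2 fun i => ?_
      have h1 : x.2.2 i ^ 2 ≤ ∑ i, x.2.2 i ^ 2 :=
        Finset.single_le_sum (f := fun i => x.2.2 i ^ 2) (fun j _ => sq_nonneg _)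
          (Finset.mem_univ i)
      rw [Real.norm_eq_abs]
      exact (sq_le_one_iff_abs_le_one _).1 (by linarith)
  exact isCompact_iff_compactSpace.1 (Metric.isCompact_of_isClosed_isBounded hc hb)

/-- the parametrisation of `X` by the sphere -/
def asTop_r {K : ℕ} (x : Sig K) : EX K :=
  rho ![x.1.1 0, x.1.1 1, x.1.1 2, x.1.2.1.re, x.1.2.1.im] x.1.2.2

theorem asTop_r_cont {K : ℕ} : Continuous (asTop_r : Sig K → EX K) := by
  have h0 : Continuous fun x : Sig K => x.1 := continuous_subtype_val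
  have hv : Continuous fun x : Sig K => x.1.1 := continuous_fst.comp h0
  have hb : Continuous fun x : Sig K => x.1.2.1 := continuous_fst.comp (continuous_snd.comp h0)
  have hy : Continuous fun x : Sig K => x.1.2.2 := continuous_snd.comp (continuous_snd.comp h0)
  have hw : ∀ i : Fin 5, Continuous fun x : Sig K =>
      (![x.1.1 0, x.1.1 1, x.1.1 2, x.1.2.1.re, x.1.2.1.im] : Fin 5 → ℝ) i := by
    intro i
    fin_cases i
    · exact (continuous_apply (0 : Fin 3)).comp hv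
    · exact (continuous_apply (1 : Fin 3)).comp hv
    · exact (continuous_apply (2 : Fin 3)).comp hv
    · exact Complex.continuous_re.comp hb
    · exact Complex.continuous_im.comp hb
  refine Continuous.prodMk ?_ hy
  exact continuous_pi fun i => continuous_pi fun j => (hw i).mul (hw j)

theorem asTop_pm (w w' : Fin 5 → ℝ) (h : ∀ i j, w i * w j = w' i * w' j) :
    w' = w ∨ w' = -w := by
  by_cases h0 : w = 0
  · left
    funext i
    have := h i i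
    rw [h0] at this ⊢
    simp only [Pi.zero_apply, mul_zero] at this ⊢
    exact mul_self_eq_zero.1 this.symm
  · have : ∃ i, w i ≠ 0 := by
      by_contra hc
      push Not at hc
      exact h0 (funext hc)
    obtain ⟨i, hi⟩ := this
    rcases mul_self_eq_mul_self_iff.1 (h i i).symm with h1 | h1
    · left
      funext j
      have h2 := h i j
      rw [h1] at h2
      exact (mul_left_cancel₀ hi h2).symm
    · right
      funext j
      have h2 := h i j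
      rw [h1, neg_mul] at h2
      have h3 : w i * w j = w i * (-w' j) := by rw [h2]; ring
      have h4 := mul_left_cancel₀ hi h3
      rw [Pi.neg_apply, h4, neg_neg]

/-- a point of the sphere over a given point -/
def asTop_lift {K : ℕ} (w : Fin 5 → ℝ) (y : Fin K → ℝ)
    (h : ∑ i, w i ^ 2 + ∑ i, y i ^ 2 = 1) : Sig K :=
  ⟨(![w 0, w 1, w 2], ⟨w 3, w 4⟩, y), by
    have e : ‖(⟨w 3, w 4⟩ : ℂ)‖ ^ 2 = w 3 ^ 2 + w 4 ^ 2 := by
      rw [← Complex.normSq_eq_norm_sq, Complex.normSq_mk]; ring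
    show ∑ i : Fin 3, (![w 0, w 1, w 2] : Fin 3 → ℝ) i ^ 2 + ‖(⟨w 3, w 4⟩ : ℂ)‖ ^ 2 +
      ∑ i, y i ^ 2 = 1
    rw [e, ← h]
    simp [Fin.sum_univ_succ]
    ring⟩

theorem asTop_r_lift {K : ℕ} (w : Fin 5 → ℝ) (y : Fin K → ℝ)
    (h : ∑ i, w i ^ 2 + ∑ i, y i ^ 2 = 1) : asTop_r (asTop_lift w y h) = rho w y := by
  unfold asTop_r asTop_lift
  congr 1
  funext i
  fin_cases i <;> rfl

theorem asTop_r_mem {K : ℕ} (x : Sig K) : asTop_r x ∈ XX K K := by
  refine ⟨_, _, rfl, ?_, fun i hi => absurd i.2 (by omega)⟩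
  obtain ⟨⟨v, b, y⟩, h⟩ := x
  have e : ‖b‖ ^ 2 = b.re ^ 2 + b.im ^ 2 := by
    rw [← Complex.normSq_eq_norm_sq, Complex.normSq_apply]; ring
  have h' : ∑ i, v i ^ 2 + ‖b‖ ^ 2 + ∑ i, y i ^ 2 = 1 := h
  show ∑ i : Fin 5, (![v 0, v 1, v 2, b.re, b.im] : Fin 5 → ℝ) i ^ 2 + ∑ i, y i ^ 2 = 1
  rw [e] at h'
  rw [Fin.sum_univ_three] at h'
  rw [Fin.sum_univ_five]
  show v 0 ^ 2 + v 1 ^ 2 + v 2 ^ 2 + b.re ^ 2 + b.im ^ 2 + ∑ i, y i ^ 2 = 1
  linarith

theorem asTop_fib {K : ℕ} (F : Sig K → Sph K)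
    (hF : ∀ x y : Sig K, y.1 = (-x.1.1, -x.1.2.1, x.1.2.2) → F y = F x) (x x' : Sig K)
    (h : asTop_r x = asTop_r x') : F x' = F x := by
  have h1 : (asTop_r x).1 = (asTop_r x').1 := by rw [h]
  have h2 : x.1.2.2 = x'.1.2.2 := by
    have : (asTop_r x).2 = (asTop_r x').2 := by rw [h]
    exact this
  have h3 := asTop_pm ![x.1.1 0, x.1.1 1, x.1.1 2, x.1.2.1.re, x.1.2.1.im]
    ![x'.1.1 0, x'.1.1 1, x'.1.1 2, x'.1.2.1.re, x'.1.2.1.im]
    (fun i j => congrFun (congrFun h1 i) j)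
  rcases h3 with h3 | h3
  · have : x' = x := by
      apply Subtype.ext
      refine Prod.ext ?_ (Prod.ext ?_ h2.symm)
      · funext i
        fin_cases i
        · exact congrFun h3 0
        · exact congrFun h3 1
        · exact congrFun h3 2
      · exact Complex.ext (congrFun h3 3) (congrFun h3 4)
    rw [this]
  · apply hF
    refine Prod.ext ?_ (Prod.ext ?_ h2.symm)
    · funext i
      fin_cases i
      · exact congrFun h3 0
      · exact congrFun h3 1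
      · exact congrFun h3 2
    · exact Complex.ext (congrFun h3 3) (congrFun h3 4)

open Classical in
/-- the map induced on the quotient -/
def asTop_G {K : ℕ} (F : Sig K → Sph K) (z : EX K) : ES K :=
  if h : ∃ x : Sig K, asTop_r x = z then (F h.choose).1 else 0

theorem asTop_G_r {K : ℕ} (F : Sig K → Sph K)
    (hF : ∀ x y : Sig K, y.1 = (-x.1.1, -x.1.2.1, x.1.2.2) → F y = F x) (x : Sig K) :
    asTop_G F (asTop_r x) = (F x).1 := by
  have h : ∃ x' : Sig K, asTop_r x' = asTop_r x := ⟨x, rfl⟩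
  unfold asTop_G
  rw [dif_pos h]
  rw [asTop_fib F hF x h.choose h.choose_spec.symm]

theorem asTop_surj {K : ℕ} {z : EX K} (hz : z ∈ XX K K) : ∃ x : Sig K, asTop_r x = z := by
  obtain ⟨w, y, rfl, h, -⟩ := hz
  exact ⟨asTop_lift w y h, asTop_r_lift w y h⟩

theorem asTop_G_cont {K : ℕ} (F : Sig K → Sph K) (hc : Continuous F)
    (hF : ∀ x y : Sig K, y.1 = (-x.1.1, -x.1.2.1, x.1.2.2) → F y = F x) :
    ContinuousOn (asTop_G F) (XX K K) := by
  have := asTop_compact K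
  rw [continuousOn_iff_isClosed]
  intro t ht
  have hcl : IsClosed {x : Sig K | (F x).1 ∈ t} :=
    ht.preimage (continuous_subtype_val.comp hc)
  refine ⟨asTop_r '' {x : Sig K | (F x).1 ∈ t}, (hcl.isCompact.image asTop_r_cont).isClosed, ?_⟩
  ext z
  constructor
  · rintro ⟨h1, h2⟩
    obtain ⟨x, rfl⟩ := asTop_surj h2
    have h1' : asTop_G F (asTop_r x) ∈ t := h1
    rw [asTop_G_r F hF] at h1'
    exact ⟨⟨x, h1', rfl⟩, h2⟩
  · rintro ⟨⟨x, h1, rfl⟩, h2⟩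
    refine ⟨?_, h2⟩
    show asTop_G F (asTop_r x) ∈ t
    rw [asTop_G_r F hF]
    exact h1

theorem asTop_G_mem {K : ℕ} (F : Sig K → Sph K)
    (hF : ∀ x y : Sig K, y.1 = (-x.1.1, -x.1.2.1, x.1.2.2) → F y = F x) (z : EX K)
    (hz : z ∈ XX K K) : asTop_G F z ∈ SS K K := by
  obtain ⟨x, rfl⟩ := asTop_surj hz
  rw [asTop_G_r F hF]
  exact ⟨(F x).2, fun i hi => absurd i.2 (by omega)⟩

theorem asTop_G_QQ {K : ℕ} (F : Sig K → Sph K)
    (hF : ∀ x y : Sig K, y.1 = (-x.1.1, -x.1.2.1, x.1.2.2) → F y = F x)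
    (hQ : ∀ x : Sig K, x.1.1 1 = 0 → x.1.1 2 = 0 →
      (F x).1 = (2 * (x.1.1 0 : ℂ) * x.1.2.1, fun i => 2 * |x.1.1 0| * x.1.2.2 i,
        ‖x.1.2.1‖ ^ 2 + ∑ i, x.1.2.2 i ^ 2 - x.1.1 0 ^ 2)) (z : EX K) (hz : z ∈ XP K K) :
    asTop_G F z = QQ K z := by
  obtain ⟨w, y, rfl, h, -, hw1, hw2⟩ := hz
  have h1 := asTop_G_r F hF (asTop_lift w y h)
  rw [asTop_r_lift] at h1
  rw [h1, hQ (asTop_lift w y h) hw1 hw2]
  have e : ‖(⟨w 3, w 4⟩ : ℂ)‖ ^ 2 = w 3 ^ 2 + w 4 ^ 2 := by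
    rw [← Complex.normSq_eq_norm_sq, Complex.normSq_mk]; ring
  refine Prod.ext ?_ (Prod.ext ?_ ?_)
  · show 2 * ((w 0 : ℝ) : ℂ) * (⟨w 3, w 4⟩ : ℂ) = ⟨2 * (w 0 * w 3), 2 * (w 0 * w 4)⟩
    apply Complex.ext
    · simp [Complex.mul_re]
      ring
    · simp [Complex.mul_im]
      ring
  · funext i
    show 2 * |w 0| * y i = 2 * Real.sqrt (w 0 * w 0) * y i
    rw [Real.sqrt_mul_self_eq_abs]
  · show ‖(⟨w 3, w 4⟩ : ℂ)‖ ^ 2 + ∑ i, y i ^ 2 - w 0 ^ 2 =
      w 3 * w 3 + w 4 * w 4 + ∑ i, y i ^ 2 - w 0 * w 0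
    rw [e]
    ring

/-- the square of a cocycle is a cocycle -/
theorem asTop_sq {Ω : Type} [MetricSpace Ω] {X : Set Ω} (K : ℕ) (i : List Ω → ZMod 2)
    (hi : Coc X (K + 3) i) : Coc X (K + 5) (cup (K + 1) (K + 3) (K + 3) i i) := by
  unfold Coc
  rw [d_cup, add_assoc (cup (K + 1) (K + 3 + 1) (K + 3) (d i) i +
    cup (K + 1) (K + 3) (K + 3 + 1) i (d i))]
  have h1 : cup K (K + 3) (K + 3) i i + cup K (K + 3) (K + 3) i i = 0 := by
    funext l
    exact CharTwo.add_self_eq_zero _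
  rw [h1, add_zero]
  have hi' : Nl X (K + 3 + 1) (d i) := hi
  exact Nl.add (hi'.cup_left _ _ _ _) (hi'.cup_right _ _ _ _)

/-- TARGET -/
theorem asTop (h1 : S_comp) (h2 : S_SSK) : S_top := by
  intro K hF
  obtain ⟨F, hc, hF, hQ⟩ := hF
  obtain ⟨hv, i, hi, hni⟩ := h2 K
  obtain ⟨c1, c2, -⟩ := h1 K K
  have hG := asTop_G_cont F hc hF
  have hGm := asTop_G_mem F hF
  refine ⟨pb (asTop_G F) i, i, coc_pb c1 _ hG hGm hi, ?_, hi, hni, ?_⟩
  · rw [cup_pb]
    exact cob_pb c1 _ hG hGm (hv _ (asTop_sq K i hi))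
  · apply Nl.cob
    refine ⟨1, one_pos, fun l _ hs => ?_⟩
    have e : l.map (asTop_G F) = l.map (QQ K) :=
      List.map_congr_left fun x hx => asTop_G_QQ F hF hQ x (hs.1 x hx)
    show i (l.map (asTop_G F)) - i (l.map (QQ K)) = 0
    rw [e, sub_self]

end

end Pool.Agent.Helper965_Rud.AS
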