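import Pool.Agent.Helper965_Rud.Stmts2

/-!
Dimension count: one family of parameters (MP_89fcdb_gt, owner helper965).
-/

set_option autoImplicit false

namespace Pool.Agent.Helper965_Rud

open scoped ComplexConjugate unitInterval
open Pool.Agent.Helper534.LS (HH hmap sub inl inr delta)

noncomputable section

namespace badS_aux

open scoped NNReal Topology

/-- the parameter space -/
abbrev QQ : Type := EuclideanSpace ℝ (Fin 18) × ℝ × (Fin 5 → Fin 4 → Hq)

theorem finrank_Hq : Module.finrank ℝ Hq = 4 := Quaternion.finrank_eq_four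

theorem finrank_QQ : Module.finrank ℝ QQ = 99 := by
  rw [Module.finrank_prod, Module.finrank_prod, finrank_euclideanSpace, Fintype.card_fin, Module.finrank_self,
    Module.finrank_pi_fintype]
  simp only [Module.finrank_pi_fintype, finrank_Hq]
  simp

theorem contDiff_E5a (j : Fin 5) : ContDiff ℝ 1 (fun x : AN => E5a x j) := by
  have h1 : ∀ i : Fin 3, ContDiff ℝ 1 (fun x : AN => x.1.1 i) := fun i =>
    (contDiff_apply ℝ Hq i).comp (contDiff_fst.comp contDiff_fst)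
  have h2 : ∀ i : Fin 3, ContDiff ℝ 1 (fun x : AN => x.2.1 i) := fun i =>
    (contDiff_apply ℝ Hq i).comp (contDiff_fst.comp contDiff_snd)
  fin_cases j
  · exact h1 0
  · exact h1 1
  · exact h1 2
  · exact h2 1
  · exact h2 2

theorem contDiffAt_Hinv {x : Hq} (hx : x ≠ 0) : ContDiffAt ℝ 1 (fun q : Hq => q⁻¹) x := by
  have h := contDiffAt_ringInverse (n := 1) ℝ (Units.mk0 x hx)
  rw [Ring.inverse_eq_inv'] at h
  exact h

/-- the parametrised matrices -/
def GG (Ψ : AN → Fin 5 → Hq) (P : EuclideanSpace ℝ (Fin 18) → AN) (l : Fin 5) (q : QQ) : Fin 5 → Fin 5 → Hq :=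
  fun i => Fin.insertNth l
    (-((1 / q.2.1) • Ψ (P q.1) i + (1 / (1 - q.2.1)) • E5a (P q.1) i +
      ∑ m : Fin 4, q.2.2 i m * E5a (P q.1) (l.succAbove m)) * (E5a (P q.1) l)⁻¹) (q.2.2 i)

theorem contDiffAt_GG {Ψ : AN → Fin 5 → Hq} (hΨ : ContDiff ℝ 1 Ψ) {P : EuclideanSpace ℝ (Fin 18) → AN} {l : Fin 5} {q : QQ}
    (hP : ContDiffAt ℝ 1 P q.1) (h0 : E5a (P q.1) l ≠ 0) (ht0 : 0 < q.2.1) (ht1 : q.2.1 < 1) :
    ContDiffAt ℝ 1 (GG Ψ P l) q := by
  have hPq : ContDiffAt ℝ 1 (fun q : QQ => P q.1) q := ContDiffAt.comp q hP contDiffAt_fst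
  have hE : ∀ j, ContDiffAt ℝ 1 (fun q : QQ => E5a (P q.1) j) q := fun j =>
    (contDiff_E5a j).contDiffAt.comp q hPq
  have hΨi : ∀ i, ContDiffAt ℝ 1 (fun q : QQ => Ψ (P q.1) i) q := fun i =>
    (contDiff_apply ℝ Hq i).contDiffAt.comp q (hΨ.contDiffAt.comp q hPq)
  have ht : ContDiffAt ℝ 1 (fun q : QQ => q.2.1) q := (contDiff_fst.comp contDiff_snd).contDiffAt
  have hA : ∀ i m, ContDiffAt ℝ 1 (fun q : QQ => q.2.2 i m) q := fun i m =>
    ((contDiff_apply_apply ℝ Hq i m).comp (contDiff_snd.comp contDiff_snd)).contDiffAt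
  have hinv : ContDiffAt ℝ 1 (fun q : QQ => (E5a (P q.1) l)⁻¹) q :=
    (contDiffAt_Hinv h0).comp q (hE l)
  rw [contDiffAt_pi]
  intro i
  rw [contDiffAt_pi]
  intro j
  rcases Fin.eq_self_or_eq_succAbove l j with hj | ⟨m, hm⟩
  · rw [hj]
    simp only [GG, Fin.insertNth_apply_same]
    refine ContDiffAt.mul (ContDiffAt.neg ?_) hinv
    refine ContDiffAt.add (ContDiffAt.add ?_ ?_) ?_
    · exact (contDiffAt_const.div ht ht0.ne').smul (hΨi i)
    · exact (contDiffAt_const.div (contDiffAt_const.sub ht) (by linarith)).smul (hE i)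
    · exact ContDiffAt.sum fun m _ => (hA i m).mul (hE (l.succAbove m))
  · rw [hm]
    simp only [GG, Fin.insertNth_apply_succAbove]
    exact hA i m

theorem E5a_aN (x : AN) (g : Sp1) : E5a (aN x g) = vm (E5a x) g := by
  funext j
  fin_cases j <;> rfl

theorem mv5_vm (A : Fin 5 → Fin 5 → Hq) (v : Fin 5 → Hq) (g : Sp1) : mv5 A (vm v g) = vm (mv5 A v) g := by
  funext i
  simp only [mv5, vm_apply, Finset.sum_mul, mul_assoc]

theorem hfam_aN {Ψ : AN → Fin 5 → Hq} (hΨ : ∀ x g, Ψ (aN x g) = vm (Ψ x) g) (A : Fin 5 → Fin 5 → Hq) (t : ℝ) (x : AN) (g : Sp1) :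
    hfam Ψ A t (aN x g) = vm (hfam Ψ A t x) g := by
  unfold hfam
  rw [hΨ, E5a_aN, mv5_vm]
  funext i
  simp only [Pi.add_apply, Pi.smul_apply, vm_apply, add_mul, smul_mul_assoc]

theorem eq_GG {Ψ : AN → Fin 5 → Hq} {P : EuclideanSpace ℝ (Fin 18) → AN} {l : Fin 5} {θ : EuclideanSpace ℝ (Fin 18)}
    (h0 : E5a (P θ) l ≠ 0) {t : ℝ} (ht0 : 0 < t) (ht1 : t < 1) {A : Fin 5 → Fin 5 → Hq} (h : hfam Ψ A t (P θ) = 0) :
    A = GG Ψ P l (θ, t, fun i m => A i (l.succAbove m)) := by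
  funext i j
  rcases Fin.eq_self_or_eq_succAbove l j with hj | ⟨m, hm⟩
  · rw [hj]
    simp only [GG, Fin.insertNth_apply_same]
    have h1 := congrFun h i
    simp only [hfam, Pi.add_apply, Pi.smul_apply, Pi.zero_apply, mv5] at h1
    have ht1' : 0 < 1 - t := by linarith
    have h2 : (1 / t) • Ψ (P θ) i + (1 / (1 - t)) • E5a (P θ) i + ∑ m, A i m * E5a (P θ) m = 0 := by
      have h3 := congrArg (fun v : Hq => (1 / (t * (1 - t))) • v) h1
      simp only [smul_add, smul_smul, smul_zero] at h3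
      have e1 : 1 / (t * (1 - t)) * (1 - t) = 1 / t := by field_simp
      have e2 : 1 / (t * (1 - t)) * t = 1 / (1 - t) := by field_simp
      have e3 : 1 / (t * (1 - t)) * (t * (1 - t)) = 1 := by field_simp
      rw [e1, e2, e3, one_smul] at h3
      exact h3
    rw [Fin.sum_univ_succAbove _ l] at h2
    have h4 : A i l * E5a (P θ) l = -((1 / t) • Ψ (P θ) i + (1 / (1 - t)) • E5a (P θ) i +
        ∑ m : Fin 4, A i (l.succAbove m) * E5a (P θ) (l.succAbove m)) := by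
      rw [eq_neg_iff_add_eq_zero, ← h2]
      abel
    rw [← h4, mul_assoc, mul_inv_cancel₀ h0, mul_one]
  · rw [hm]
    simp only [GG, Fin.insertNth_apply_succAbove]

end badS_aux

open badS_aux

/-- TARGET -/
theorem badS : S_bad := by
  intro Ψ hΨ hΨe l S hS
  obtain ⟨P, s, hs, hpar⟩ := hS
  set D : Set QQ := {q | q.1 ∈ s ∧ 0 < q.2.1 ∧ q.2.1 < 1} with hD
  refine ⟨GG Ψ P l '' D, ?_, ?_⟩
  · have h1 : dimH (GG Ψ P l '' D) ≤ dimH D := by
      refine dimH_image_le_of_locally_lipschitzOn fun q hq => ?_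
      obtain ⟨hq1, hq2, hq3⟩ := hq
      obtain ⟨K, t, ht, hL⟩ := (contDiffAt_GG hΨ (hs q.1 hq1).1 (hs q.1 hq1).2 hq2 hq3).exists_lipschitzOnWith
      exact ⟨K, t, mem_nhdsWithin_of_mem_nhds ht, hL⟩
    have h2 : dimH D ≤ dimH (Set.univ : Set QQ) := dimH_mono (Set.subset_univ D)
    rw [Real.dimH_univ_eq_finrank, finrank_QQ] at h2
    refine lt_of_le_of_lt (h1.trans h2) ?_
    norm_num
  · intro A hA x hx t ht0 ht1 h
    obtain ⟨g, θ, hθ, hPθ⟩ := hpar x hx
    have h1 : hfam Ψ A t (P θ) = 0 := by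
      rw [hPθ, hfam_aN hΨe, h]
      funext i
      simp
    exact hA ⟨_, ⟨hθ, ht0, ht1⟩, (eq_GG (hs θ hθ).2 ht0 ht1 h1).symm⟩

end

end Pool.Agent.Helper965_Rud
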