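import Pool.Agent.Helper965_Rud.Stmts2

/-!
JOB catMh (MP_89fcdb_gt, owner helper965; disproof of a conjecture of Rudyak).
Setup: git fetch in outputs/live, copy Pool/Agent/Helper965_Rud/*.lean from origin/main (and Pool/Agent/Helper534/LS/*.lean)
to the same paths under /workdir/pool/Pool/Agent/, then `lake build` the modules imported here. Check with `lake env lean <file>`.
Helper965_Rud: Defs, Alg (algebra lemmas: herm_*, sq_*, rm, cm, jm, cp, lc), Basic (XN, XM, compactness), Stmts, StmtsTop, Stmts2 (the
propositions S_...). The hypotheses S_... of the target are proved by other jobs: just use them.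
Return the WHOLE file with the target proved (no sorry, no axiom, no native_decide; keep the name and the statement of the target).
Auxiliary lemmas: before the target, in the namespace catMh_aux (open it before the target) or with names starting with catMh_ .
Avoid straight double quotes and the words forbidden by RULES.md. If the statement is false or something is missing, say so in the note
(status 'problem') with the reason. The final path of the file is Pool/Agent/Helper965_Rud/P_catMh.lean .

PROOF. h1 for X = MM, k = 4, ι = Fin 3 × Bool × Bool, lev (k,e,d) = k + (1 if e) + (1 if d) in Fin 5, S = SM k e d, O = OM k e d. Cover: for x : XM take k = the largest index with w_k ≠ 0 (exists as sq w = 1), e = false iff y = (0,1), d = false iff (a,b) = (jw,0).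
SM k e d ⊆ OM k e d: for e = false, y = (0,1) ≠ (0,-1); for d = false, (a,b) = (jw,0) ≠ (-jw,0) since jw ≠ 0 (char 0; sq (jw) = 1). Separation: let CL k e d = the image under mk of the closed set {x | (∀ l > k, w_l = 0), (e = false → y = (0,1)), (d = false → (a,b) = (jw,0))}, which is closed because the
set upstairs is closed and XM is compact, MM Hausdorff (or because the set is invariant and mk is a quotient map); closure (SM k e d) ⊆ CL k e d. If (k,e,d) ≠ (k',e',d') have the same level then k' > k, or e' = true and e = false, or d' = true and d = false (otherwise k' ≤ k, e' ≤ e, d' ≤ d with the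
same sum, so equal). Then SM k' e' d' is disjoint from CL k e d: representatives differ by an element of Sp1, and w_{k'} ≠ 0, y ≠ (0,1), (a,b) ≠ (jw,0) are invariant under the action.
-/

set_option autoImplicit false

namespace Pool.Agent.Helper965_Rud

open scoped ComplexConjugate unitInterval
open Pool.Agent.Helper534.LS (HH hmap sub inl inr delta)

noncomputable section

namespace catMh_aux

/-- upstairs, the closed sets containing the strata -/
def CU (k : Fin 3) (e d : Bool) : Set XM := {x | (∀ l, k < l → x.1.1 l = 0) ∧
  (e = false → x.1.2.1 = (0, 1)) ∧ (d = false → x.1.2.2 = (jm x.1.1, 0))}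

theorem isClosed_CU (k : Fin 3) (e d : Bool) : IsClosed (CU k e d) := by
  have h : Continuous fun p : XM => p.1 := continuous_subtype_val
  have hw : Continuous fun p : XM => p.1.1 := continuous_fst.comp h
  have hy : Continuous fun p : XM => p.1.2.1 := continuous_fst.comp (continuous_snd.comp h)
  have hv : Continuous fun p : XM => p.1.2.2 := continuous_snd.comp (continuous_snd.comp h)
  have e1 : IsClosed {x : XM | ∀ l, k < l → x.1.1 l = 0} := by
    simp only [Set.ofPred_forall]
    refine isClosed_iInter fun l => isClosed_iInter fun _ => ?_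
    exact isClosed_eq ((continuous_apply l).comp hw) continuous_const
  have e2 : IsClosed {x : XM | e = false → x.1.2.1 = (0, 1)} := by
    simp only [Set.ofPred_forall]
    exact isClosed_iInter fun _ => isClosed_eq hy continuous_const
  have e3 : IsClosed {x : XM | d = false → x.1.2.2 = (jm x.1.1, 0)} := by
    simp only [Set.ofPred_forall]
    exact isClosed_iInter fun _ => isClosed_eq hv ((continuous_jm hw).prodMk continuous_const)
  exact e1.inter (e2.inter e3)

theorem isClosed_CL (k : Fin 3) (e d : Bool) : IsClosed (mk '' CU k e d : Set MM) :=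
  ((isClosed_CU k e d).isCompact.image continuous_mk).isClosed

theorem closure_SM (k : Fin 3) (e d : Bool) : closure (SM k e d) ⊆ mk '' CU k e d := by
  apply closure_minimal _ (isClosed_CL k e d)
  rintro p ⟨x, rfl, _, h2, _, h4, _, h6⟩
  exact ⟨x, ⟨h2, h4, h6⟩, rfl⟩

theorem vm_ne {n : ℕ} {v : Fin n → Hq} {g : Sp1} {i : Fin n} (h : vm v g i ≠ 0) : v i ≠ 0 := by
  intro h'
  apply h
  rw [vm_apply, h', zero_mul]

/-- the level -/
def lv (i : Fin 3 × Bool × Bool) : Fin 5 :=
  ⟨i.1.1 + (if i.2.1 = true then 1 else 0) + (if i.2.2 = true then 1 else 0), by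
    have := i.1.2
    split_ifs <;> omega⟩

theorem jm_ne {x : XM} : jm x.1.1 ≠ 0 := by
  intro h
  have h1 := x.2.1
  rw [← sq_jm, h, sq_zero] at h1
  exact zero_ne_one h1

theorem SM_sub (k : Fin 3) (e d : Bool) : SM k e d ⊆ OM k e d := by
  rintro p ⟨x, rfl, h1, h2, h3, h4, h5, h6⟩
  refine ⟨x, rfl, h1, h3, ?_, h5, ?_⟩
  · intro he h
    rw [h4 he, Prod.mk.injEq] at h
    have := h.2
    norm_num at this
  · intro hd h
    rw [h6 hd, Prod.mk.injEq] at h
    have h7 : jm x.1.1 + jm x.1.1 = 0 := by
      nth_rewrite 2 [h.1]
      exact add_neg_cancel _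
    apply jm_ne (x := x)
    have h8 : (2 : ℝ) • jm x.1.1 = 0 := by rw [two_smul, h7]
    exact (smul_eq_zero.1 h8).resolve_left two_ne_zero

theorem cover (p : MM) : ∃ i : Fin 3 × Bool × Bool, p ∈ SM i.1 i.2.1 i.2.2 := by
  classical
  obtain ⟨x, rfl⟩ := mk_surj p
  have hw : x.1.1 ≠ 0 := by
    intro h
    have h1 := x.2.1
    rw [h, sq_zero] at h1
    exact zero_ne_one h1
  have hne : (Finset.univ.filter fun k : Fin 3 => x.1.1 k ≠ 0).Nonempty := by
    by_contra hcon
    apply hw
    funext k
    by_contra hk
    exact hcon ⟨k, by simpa using hk⟩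
  obtain ⟨k, hk, hmax⟩ := Finset.exists_max_image _ (fun k : Fin 3 => k) hne
  rw [Finset.mem_filter] at hk
  refine ⟨(k, decide (x.1.2.1 ≠ (0, 1)), decide (x.1.2.2 ≠ (jm x.1.1, 0))), x, rfl, hk.2, ?_,
    ?_, ?_, ?_, ?_⟩
  · intro l hl
    by_contra hl0
    exact absurd (hmax l (Finset.mem_filter.2 ⟨Finset.mem_univ _, hl0⟩)) (not_le.2 hl)
  · intro h
    exact of_decide_eq_true h
  · intro h
    exact not_not.1 (of_decide_eq_false h)
  · intro h
    exact of_decide_eq_true h
  · intro h
    exact not_not.1 (of_decide_eq_false h)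

theorem sep (i j : Fin 3 × Bool × Bool) (hij : i ≠ j) (hl : lv i = lv j) :
    Disjoint (closure (SM i.1 i.2.1 i.2.2)) (SM j.1 j.2.1 j.2.2) := by
  obtain ⟨k, e, d⟩ := i
  obtain ⟨k', e', d'⟩ := j
  rw [Set.disjoint_left]
  intro p hp hp'
  obtain ⟨x, ⟨h1, h2, h3⟩, rfl⟩ := closure_SM _ _ _ hp
  obtain ⟨x', hx', g1, g2, g3, g4, g5, g6⟩ := hp'
  obtain ⟨g, rfl⟩ := mk_eq_iff.1 hx'
  have f1 : x.1.1 k' ≠ 0 := vm_ne (g := g) g1
  have a1 : k'.1 ≤ k.1 := by
    by_contra hcon
    exact f1 (h1 k' (Fin.lt_def.2 (not_le.1 hcon)))
  have a2 : e' = true → e = true := by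
    intro he'
    have h := g3 he'
    by_contra he
    exact h (h2 (by simpa using he))
  have a3 : d' = true → d = true := by
    intro hd'
    have h := g5 hd'
    by_contra hd
    apply h
    have h7 := h3 (by simpa using hd)
    show (vm x.1.2.2.1 g, x.1.2.2.2) = (jm (vm x.1.1 g), 0)
    rw [h7]
    rw [vm_jm]
  have hl' : k.1 + (if e = true then 1 else 0) + (if d = true then 1 else 0) =
      k'.1 + (if e' = true then 1 else 0) + (if d' = true then 1 else 0) := congrArg Fin.val hl
  have b1 : (if e' = true then 1 else 0) ≤ (if e = true then 1 else 0) := by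
    cases e <;> cases e' <;> simp_all
  have b2 : (if d' = true then 1 else 0) ≤ (if d = true then 1 else 0) := by
    cases d <;> cases d' <;> simp_all
  have c1 : k.1 = k'.1 := by omega
  have c2 : (if e' = true then 1 else 0) = (if e = true then 1 else 0) := by omega
  have c3 : (if d' = true then 1 else 0) = (if d = true then 1 else 0) := by omega
  apply hij
  have d1 : k = k' := Fin.ext c1
  have d2 : e = e' := by
    cases e <;> cases e' <;> simp_all
  have d3 : d = d' := by
    cases d <;> cases d' <;> simp_all
  rw [d1, d2, d3]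

end catMh_aux

open catMh_aux in
/-- TARGET -/
theorem catMh (h1 : S_levels) (h2 : S_OM) (h3 : S_cn) (h4 : S_pc) : S_catM := by
  have := h3.1
  have := h4.1
  exact h1 MM 4 (Fin 3 × Bool × Bool) lv (fun i => SM i.1 i.2.1 i.2.2)
    (fun i => OM i.1 i.2.1 i.2.2) cover (fun i => SM_sub _ _ _) (fun i => (h2 _ _ _).1)
    (fun i => (h2 _ _ _).2) sep

end

end Pool.Agent.Helper965_Rud

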