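import Pool.Agent.Helper965_Rud.Stmts2

set_option autoImplicit false

namespace Pool.Agent.Helper965_Rud

open scoped ComplexConjugate unitInterval
open Pool.Agent.Helper534.LS (HH hmap sub inl inr delta)

noncomputable section

theorem cnS_gen (X : Type) [MetricSpace X] [GSp X] [CompactSpace X] :
    CompletelyNormalSpace (Orb X) := by
  have h1 : IsOpenQuotientMap (mk : X → Orb X) := isOpenQuotientMap_mk
  have : SecondCountableTopology (Orb X) :=
    h1.isQuotientMap.secondCountableTopology h1.isOpenMap
  have : TopologicalSpace.MetrizableSpace (Orb X) := by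
    exact TopologicalSpace.metrizableSpace_of_t3_secondCountable (Orb X)
  let _ := TopologicalSpace.metrizableSpaceMetric (Orb X)
  infer_instance

/-- TARGET -/
theorem cnS : S_cn := ⟨cnS_gen XM, cnS_gen XN⟩

end

end Pool.Agent.Helper965_Rud
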