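import Pool.Agent.Helper965_Rud.Stmts2
import Pool.Agent.Helper534.LS.P_mv_exact1
import Pool.Agent.Helper534.LS.P_mv_exact2
import Pool.Agent.Helper534.LS.P_mv_nat
import Pool.Agent.Helper534.LS.P_hmap_comp
import Pool.Agent.Helper534.LS.P_hmap_id

/-!
JOB degS (MP_89fcdb_gt, owner helper965; disproof of a conjecture of Rudyak).
Setup: git fetch in outputs/live, copy Pool/Agent/Helper965_Rud/*.lean from origin/main (and Pool/Agent/Helper534/LS/*.lean)
to the same paths under /workdir/pool/Pool/Agent/, then `lake build` the modules imported here. Check with `lake env lean <file>`.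
Helper965_Rud: Defs, Alg (algebra lemmas: herm_*, sq_*, rm, cm, jm, cp, lc), Basic (XN, XM, compactness), Stmts, StmtsTop, Stmts2 (the
propositions S_...). The hypotheses S_... of the target are proved by other jobs: just use them.
Return the WHOLE file with the target proved (no sorry, no axiom, no native_decide; keep the name and the statement of the target).
Auxiliary lemmas: before the target, in the namespace degS_aux (open it before the target) or with names starting with degS_ .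
Avoid straight double quotes and the words forbidden by RULES.md. If the statement is false or something is missing, say so in the note
(status 'problem') with the reason. The final path of the file is Pool/Agent/Helper965_Rud/P_degS.lean .

PROOF. Vanishing: HH AMs j = HH BMs j = HH BNs j = 0 for j ≥ 20 (Van VV 19 from h8, with h6, h7, h1), HH ANs j = HH CNs j = 0 for j ≥ 10 (h9).
Let dM = delta AMs BMs 20, dN = delta ANs BNs 20, dC = delta CNs BNs 20 (degree 21 → 20). dM and dN are bijective (mv_exact1 for injectivity, mv_exact2 for surjectivity), dC is injective (mv_exact1; CNs, BNs cover NN as ANs ⊆ CNs).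
Let k : C(ANs ∩ BNs, CNs ∩ BNs) be the inclusion. mv_nat for the identity map of NN and (ANs,BNs) → (CNs,BNs): dC x = hmap k 20 (dN x) (use hmap_id). Hence hmap k 20 is injective: if hmap k (y) = hmap k (y'), y = dN x, y' = dN x', then dC x = dC x', x = x'.
Let f' : C(AMs ∩ BMs, ANs ∩ BNs) be the restriction of fM (h11). mv_nat for fM and (AMs,BMs) → (CNs,BNs) with the map k ∘ f' : dC (hmap fM 21 x) = hmap (k ∘ f') 20 (dM x) = hmap k 20 (hmap f' 20 (dM x)) (hmap_comp). So hmap k 20 (dN (hmap fM 21 x)) = hmap k 20 (hmap f' 20 (dM x)), and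
dN (hmap fM 21 x) = hmap f' 20 (dM x). f' is a homeomorphism: by h10, eN (fM p) = eM p on BMs, so fM restricts to a homeomorphism BMs → BNs (with inverse eM.symm ∘ eN), and it carries AMs ∩ BMs onto ANs ∩ BNs: for p = mk x in BMs, p is in AMs iff z ≠ 0, for q in BNs, q is in ANs iff z ≠ 0, and z is the
second component of eM p, eN q. So hmap f' 20 is bijective (hmap_comp, hmap_id), hence hmap fM 21 = dN⁻¹ ∘ hmap f' 20 ∘ dM is bijective.
-/

set_option autoImplicit false

namespace Pool.Agent.Helper965_Rud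

open scoped ComplexConjugate unitInterval
open Pool.Agent.Helper534.LS (HH hmap sub inl inr delta)

noncomputable section

namespace degS_aux

open Pool.Agent.Helper534.LS (mv_exact1 mv_exact2 mv_nat hmap_comp hmap_id)

theorem van_of_he (h1 : S_hinv) {X Y : Type} [TopologicalSpace X] [TopologicalSpace Y]
    (h : HE X Y) (d : ℕ) (hY : Van Y d) : Van X d := by
  obtain ⟨e⟩ := h.symm
  exact (h1 Y X e.toFun e.invFun e.left_inv e.right_inv d).1 hY

theorem delta_inj {X : Type} [TopologicalSpace X] (U V : Set X) (hU : IsOpen U) (hV : IsOpen V)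
    (hUV : ∀ x, x ∈ U ∨ x ∈ V) (n : ℕ) (hu : ∀ x : HH U (n + 1), x = 0)
    (hv : ∀ x : HH V (n + 1), x = 0) : Function.Injective (delta U V n) := by
  intro x y hxy
  have h0 : delta U V n (x - y) = 0 := by rw [map_sub, hxy, sub_self]
  obtain ⟨u, v, huv⟩ := mv_exact1 U V hU hV hUV n (x - y) h0
  rw [hu u, hv v, map_zero, map_zero, add_zero] at huv
  exact sub_eq_zero.mp huv

theorem delta_surj {X : Type} [TopologicalSpace X] (U V : Set X) (hU : IsOpen U) (hV : IsOpen V)
    (hUV : ∀ x, x ∈ U ∨ x ∈ V) (n : ℕ) (hu : ∀ x : HH U n, x = 0)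
    (hv : ∀ x : HH V n, x = 0) : Function.Surjective (delta U V n) := by
  intro d
  exact mv_exact2 U V hU hV hUV n d (hu _) (hv _)

theorem hmap_bij {X Y : Type} [TopologicalSpace X] [TopologicalSpace Y] (f : C(X, Y)) (g : C(Y, X))
    (hgf : g.comp f = ContinuousMap.id X) (hfg : f.comp g = ContinuousMap.id Y) (n : ℕ) :
    Function.Bijective (hmap f n) := by
  refine Function.bijective_iff_has_inverse.mpr ⟨hmap g n, ?_, ?_⟩
  · intro x
    rw [← hmap_comp, hgf, hmap_id]
  · intro x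
    rw [← hmap_comp, hfg, hmap_id]

end degS_aux

open degS_aux in
/-- TARGET -/
theorem degS (h1 : S_hinv) (h5 : S_open) (h6 : S_heM) (h7 : S_heN) (h8 : S_topV) (h9 : S_AN) (h10 : S_BMN)
    (h11 : S_maps) : S_deg := by
  obtain ⟨oAM, oBM, oAN, oBN, oCN, covM, covN, hAC⟩ := h5
  have covC : ∀ p, p ∈ CNs ∨ p ∈ BNs := fun p => (covN p).imp (fun h => hAC h) id
  have vAM : Van AMs 19 := van_of_he h1 h6.1 19 h8.1
  have vBM : Van BMs 19 := van_of_he h1 h6.2.1 19 h8.1
  have vBN : Van BNs 19 := van_of_he h1 h7.1 19 h8.1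
  obtain ⟨vAN, vCN⟩ := h9
  have iM : Function.Injective (delta AMs BMs 20) :=
    delta_inj AMs BMs oAM oBM covM 20 (vAM 21 (by norm_num)) (vBM 21 (by norm_num))
  have sM : Function.Surjective (delta AMs BMs 20) :=
    delta_surj AMs BMs oAM oBM covM 20 (vAM 20 (by norm_num)) (vBM 20 (by norm_num))
  have iN : Function.Injective (delta ANs BNs 20) :=
    delta_inj ANs BNs oAN oBN covN 20 (vAN 21 (by norm_num)) (vBN 21 (by norm_num))
  have sN : Function.Surjective (delta ANs BNs 20) :=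
    delta_surj ANs BNs oAN oBN covN 20 (vAN 20 (by norm_num)) (vBN 20 (by norm_num))
  have iC : Function.Injective (delta CNs BNs 20) :=
    delta_inj CNs BNs oCN oBN covC 20 (vCN 21 (by norm_num)) (vBN 21 (by norm_num))
  obtain ⟨eM, eN, heM, heN, hfe⟩ := h10
  have hfB : ∀ p ∈ BMs, fM p ∈ BNs := fun p hp => (hfe ⟨p, hp⟩).choose
  have hfe' : ∀ (p : MM) (hp : p ∈ BMs), eN ⟨fM p, hfB p hp⟩ = eM ⟨p, hp⟩ :=
    fun p hp => (hfe ⟨p, hp⟩).choose_spec
  -- the inclusion
  let k : C(↥(ANs ∩ BNs), ↥(CNs ∩ BNs)) := ⟨fun x => ⟨x.1, hAC x.2.1, x.2.2⟩, by fun_prop⟩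
  have nat1 : ∀ x : HH NN 21, delta CNs BNs 20 x = hmap k 20 (delta ANs BNs 20 x) := by
    intro x
    have h := Pool.Agent.Helper534.LS.mv_nat ANs BNs oAN oBN covN CNs BNs oCN oBN covC
      (ContinuousMap.id NN) (fun x hx => hAC hx) (fun x hx => hx) k (fun x => rfl) 20 x
    rwa [Pool.Agent.Helper534.LS.hmap_id] at h
  have ik : Function.Injective (hmap k 20) := by
    intro y y' hyy
    obtain ⟨x, rfl⟩ := sN y
    obtain ⟨x', rfl⟩ := sN y'
    rw [← nat1, ← nat1] at hyy
    rw [iC hyy]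
  -- the restriction of the map
  let f' : C(↥(AMs ∩ BMs), ↥(ANs ∩ BNs)) := ⟨fun p => ⟨fM p.1, h11.2 p.1 p.2⟩,
    Continuous.subtype_mk (fM.continuous.comp continuous_subtype_val) _⟩
  have nat2 : ∀ x : HH MM 21,
      delta CNs BNs 20 (hmap fM 21 x) = hmap (k.comp f') 20 (delta AMs BMs 20 x) := by
    intro x
    exact Pool.Agent.Helper534.LS.mv_nat AMs BMs oAM oBM covM CNs BNs oCN oBN covC
      fM h11.1 hfB (k.comp f') (fun x => rfl) 20 x
  have comm : ∀ x : HH MM 21, delta ANs BNs 20 (hmap fM 21 x) = hmap f' 20 (delta AMs BMs 20 x) := by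
    intro x
    apply ik
    rw [← nat1, nat2, Pool.Agent.Helper534.LS.hmap_comp]
  -- the inverse
  have hinA : ∀ q : ↥(ANs ∩ BNs), (eM.symm (eN ⟨q.1, q.2.2⟩)).1 ∈ AMs := by
    rintro ⟨q, hqA, hqB⟩
    obtain ⟨y, rfl, hy⟩ := hqA
    set p : ↥BMs := eM.symm (eN ⟨mk y, hqB⟩) with hp
    obtain ⟨x, hx, hs⟩ := p.2
    have hxB : mk x ∈ BMs := by rw [← hx]; exact p.2
    have hpx : p = ⟨mk x, hxB⟩ := Subtype.ext hx
    have e1 : eM p = eN ⟨mk y, hqB⟩ := by rw [hp, Homeomorph.apply_symm_apply]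
    have e2 : x.1.2.1.1 = y.1.2.2 := by
      rw [← heM x hxB, ← heN y hqB, ← e1, hpx]
    refine ⟨x, hx, ?_⟩
    intro h
    apply hy
    rw [← e2, h]
  let g' : C(↥(ANs ∩ BNs), ↥(AMs ∩ BMs)) :=
    ⟨fun q => ⟨(eM.symm (eN ⟨q.1, q.2.2⟩)).1, hinA q, (eM.symm (eN ⟨q.1, q.2.2⟩)).2⟩,
      Continuous.subtype_mk (continuous_subtype_val.comp (eM.symm.continuous.comp
        (eN.continuous.comp (Continuous.subtype_mk continuous_subtype_val _)))) _⟩
  have hgf : g'.comp f' = ContinuousMap.id _ := by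
    ext p
    show (eM.symm (eN ⟨fM p.1, _⟩)).1 = p.1
    rw [hfe' p.1 p.2.2, Homeomorph.symm_apply_apply]
  have hfg : f'.comp g' = ContinuousMap.id _ := by
    ext q
    show fM (eM.symm (eN ⟨q.1, q.2.2⟩)).1 = q.1
    have h2 := hfe' (eM.symm (eN ⟨q.1, q.2.2⟩)).1 (eM.symm (eN ⟨q.1, q.2.2⟩)).2
    have h3 : eM ⟨(eM.symm (eN ⟨q.1, q.2.2⟩)).1, (eM.symm (eN ⟨q.1, q.2.2⟩)).2⟩ =
        eN ⟨q.1, q.2.2⟩ := eM.apply_symm_apply _
    rw [h3] at h2
    exact congrArg Subtype.val (eN.injective h2)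
  have bf : Function.Bijective (hmap f' 20) := hmap_bij f' g' hgf hfg 20
  have hb : Function.Bijective (delta ANs BNs 20 ∘ hmap fM 21) := by
    have : (delta ANs BNs 20 ∘ hmap fM 21 : HH MM 21 → _) = hmap f' 20 ∘ delta AMs BMs 20 :=
      funext comm
    rw [this]
    exact bf.comp ⟨iM, sM⟩
  exact (Function.Bijective.of_comp_iff' ⟨iN, sN⟩ _).1 hb

end

end Pool.Agent.Helper965_Rud
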