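import Pool.Agent.Helper965_Rud.Stmts2

set_option autoImplicit false

namespace Pool.Agent.Helper965_Rud

open scoped ComplexConjugate unitInterval
open Pool.Agent.Helper534.LS (HH hmap sub inl inr delta)

noncomputable section

/-- squared norm on the ambient space -/
def extS_n (x : ℂ × Hq × Hq) : ℝ := ‖x.1‖ ^ 2 + ‖x.2.1‖ ^ 2 + ‖x.2.2‖ ^ 2

theorem extS_n_nonneg (x : ℂ × Hq × Hq) : 0 ≤ extS_n x := by
  unfold extS_n
  positivity

theorem extS_n_cont : Continuous extS_n := by
  unfold extS_n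
  fun_prop

theorem extS_n_smul (c : ℝ) (x : ℂ × Hq × Hq) : extS_n (c • x) = c ^ 2 * extS_n x := by
  unfold extS_n
  show ‖c • x.1‖ ^ 2 + ‖c • x.2.1‖ ^ 2 + ‖c • x.2.2‖ ^ 2 = _
  rw [norm_smul, norm_smul, norm_smul, Real.norm_eq_abs, mul_pow, mul_pow, mul_pow, sq_abs]
  ring

/-- norm on the ambient space -/
def extS_N (x : ℂ × Hq × Hq) : ℝ := √(extS_n x)

theorem extS_N_cont : Continuous extS_N := extS_n_cont.sqrt

theorem extS_N_sq (x : ℂ × Hq × Hq) : extS_N x ^ 2 = extS_n x := Real.sq_sqrt (extS_n_nonneg x)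

theorem extS_N_le (p : D10) : extS_N p.1 ≤ 1 := by
  unfold extS_N
  rw [Real.sqrt_le_left (by norm_num), one_pow]
  exact p.2

/-- the inner formula, defined everywhere -/
def extS_in (p : D10) : D10 := ⟨(max (extS_N p.1) (1 / 2))⁻¹ • p.1, by
  show extS_n _ ≤ 1
  have h0 : 0 < max (extS_N p.1) (1 / 2) := lt_max_of_lt_right (by norm_num)
  rw [extS_n_smul, ← extS_N_sq, inv_pow, inv_mul_le_one₀ (by positivity)]
  exact pow_le_pow_left₀ (Real.sqrt_nonneg _) (le_max_left _ _) 2⟩

theorem extS_in_cont : Continuous extS_in := by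
  refine Continuous.subtype_mk ?_ _
  have h0 : ∀ p : D10, max (extS_N p.1) (1 / 2) ≠ 0 := fun p =>
    (lt_max_of_lt_right (by norm_num) : (0 : ℝ) < max (extS_N p.1) (1 / 2)).ne'
  have h1 : Continuous fun p : D10 => max (extS_N p.1) (1 / 2) :=
    (extS_N_cont.comp continuous_subtype_val).max continuous_const
  exact (h1.inv₀ h0).smul continuous_subtype_val

theorem extS_sph (x : ℂ × Hq × Hq) (h : extS_N x ≠ 0) : extS_n ((extS_N x)⁻¹ • x) = 1 := by
  rw [extS_n_smul, ← extS_N_sq, inv_pow, inv_mul_cancel₀ (pow_ne_zero 2 h)]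

/-- the point on the sphere -/
def extS_s (p : D10) (h : 1 / 2 ≤ extS_N p.1) : S9 :=
  ⟨(extS_N p.1)⁻¹ • p.1, extS_sph p.1 (by linarith)⟩

/-- the time -/
def extS_t (p : D10) (h : 1 / 2 ≤ extS_N p.1) : I := ⟨2 * extS_N p.1 - 1, by
  have := extS_N_le p
  constructor <;> linarith⟩

theorem extS_s_cont {A : Type} [TopologicalSpace A] :
    Continuous fun q : {q : A × D10 // 1 / 2 ≤ extS_N q.2.1} => extS_s q.1.2 q.2 := by
  refine Continuous.subtype_mk ?_ _
  have h1 : Continuous fun q : {q : A × D10 // 1 / 2 ≤ extS_N q.2.1} => q.1.2.1 :=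
    continuous_subtype_val.comp (continuous_snd.comp continuous_subtype_val)
  refine ((extS_N_cont.comp h1).inv₀ fun q => ?_).smul h1
  have h3 : 1 / 2 ≤ extS_N q.1.2.1 := q.2
  show extS_N q.1.2.1 ≠ 0
  linarith

theorem extS_t_cont {A : Type} [TopologicalSpace A] :
    Continuous fun q : {q : A × D10 // 1 / 2 ≤ extS_N q.2.1} => extS_t q.1.2 q.2 := by
  refine Continuous.subtype_mk ?_ _
  have h1 : Continuous fun q : {q : A × D10 // 1 / 2 ≤ extS_N q.2.1} => q.1.2.1 :=
    continuous_subtype_val.comp (continuous_snd.comp continuous_subtype_val)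
  exact (continuous_const.mul (extS_N_cont.comp h1)).sub continuous_const

/-- the outer formula -/
def extS_G {A Y : Type} (h : (A × S9) × I → Y) (q : {q : A × D10 // 1 / 2 ≤ extS_N q.2.1}) : Y :=
  h ((q.1.1, extS_s q.1.2 q.2), extS_t q.1.2 q.2)

theorem extS_G_cont {A Y : Type} [TopologicalSpace A] [TopologicalSpace Y] (h : (A × S9) × I → Y)
    (hh : Continuous h) : Continuous (extS_G h) :=
  hh.comp (((continuous_fst.comp continuous_subtype_val).prodMk extS_s_cont).prodMk extS_t_cont)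

/-- the extension -/
def extS_F {A Y : Type} (f : A × D10 → Y) (h : (A × S9) × I → Y) (q : A × D10) : Y :=
  open scoped Classical in
  if hq : 1 / 2 ≤ extS_N q.2.1 then extS_G h ⟨q, hq⟩ else f (q.1, extS_in q.2)

theorem extS_F1 {A Y : Type} (f : A × D10 → Y) (h : (A × S9) × I → Y) (q : A × D10)
    (hq : 1 / 2 ≤ extS_N q.2.1) : extS_F f h q = extS_G h ⟨q, hq⟩ := dif_pos hq

theorem extS_F2 {A Y : Type} (f : A × D10 → Y) (h : (A × S9) × I → Y)
    (hfh : ∀ (a : A) (y : S9), h ((a, y), 0) = f (a, ⟨y.1, y.2.le⟩)) (q : A × D10)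
    (hq : extS_N q.2.1 ≤ 1 / 2) : extS_F f h q = f (q.1, extS_in q.2) := by
  by_cases hq' : 1 / 2 ≤ extS_N q.2.1
  · rw [extS_F1 f h q hq']
    have he : extS_N q.2.1 = 1 / 2 := le_antisymm hq hq'
    have e1 : extS_t q.2 hq' = 0 := by
      apply Subtype.ext
      show 2 * extS_N q.2.1 - 1 = 0
      rw [he]
      norm_num
    show h ((q.1, extS_s q.2 hq'), extS_t q.2 hq') = _
    rw [e1, hfh]
    congr 2
    apply Subtype.ext
    show (extS_N q.2.1)⁻¹ • q.2.1 = (max (extS_N q.2.1) (1 / 2))⁻¹ • q.2.1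
    rw [max_eq_left hq']
  · exact dif_neg hq'

/-- TARGET -/
theorem extS : S_ext := by
  intro A Y _ _ f h hf hh hfh
  have hNq : Continuous fun q : A × D10 => extS_N q.2.1 :=
    extS_N_cont.comp (continuous_subtype_val.comp continuous_snd)
  refine ⟨extS_F f h, ?_, ?_⟩
  · rw [← continuousOn_univ]
    have hcov : (Set.univ : Set (A × D10)) =
        {q | extS_N q.2.1 ≤ 1 / 2} ∪ {q | 1 / 2 ≤ extS_N q.2.1} := by
      ext q
      simp only [Set.mem_univ, Set.mem_union, Set.mem_ofPred_eq, true_iff]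
      exact le_total _ _
    rw [hcov]
    refine ContinuousOn.union_of_isClosed ?_ ?_ (isClosed_le hNq continuous_const)
      (isClosed_le continuous_const hNq)
    · have h1 : Continuous fun q : A × D10 => f (q.1, extS_in q.2) :=
        hf.comp (continuous_fst.prodMk (extS_in_cont.comp continuous_snd))
      exact h1.continuousOn.congr fun q hq => extS_F2 f h hfh q hq
    · rw [continuousOn_iff_continuous_domRestrict]
      have h2 : Set.domRestrict {q : A × D10 | 1 / 2 ≤ extS_N q.2.1} (extS_F f h) =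
          extS_G h := by
        funext q
        exact extS_F1 f h q.1 q.2
      rw [h2]
      exact extS_G_cont h hh
  · intro a y
    have hy : extS_N y.1 = 1 := by
      unfold extS_N
      rw [Real.sqrt_eq_one]
      exact y.2
    have hy2 : 1 / 2 ≤ extS_N y.1 := by rw [hy]; norm_num
    rw [extS_F1 f h (a, ⟨y.1, y.2.le⟩) hy2]
    have e1 : extS_s ⟨y.1, y.2.le⟩ hy2 = y := by
      apply Subtype.ext
      show (extS_N y.1)⁻¹ • y.1 = y.1
      rw [hy, inv_one, one_smul]
    have e2 : extS_t ⟨y.1, y.2.le⟩ hy2 = 1 := by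
      apply Subtype.ext
      show 2 * extS_N y.1 - 1 = 1
      rw [hy]
      norm_num
    show h ((a, extS_s ⟨y.1, y.2.le⟩ hy2), extS_t ⟨y.1, y.2.le⟩ hy2) = _
    rw [e1, e2]

end

end Pool.Agent.Helper965_Rud
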