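import Pool.Agent.Helper965_Rud.Stmts2

/-!
JOB goodS (MP_89fcdb_gt, owner helper965; disproof of a conjecture of Rudyak).
Setup: git fetch in outputs/live, copy Pool/Agent/Helper965_Rud/*.lean from origin/main (and Pool/Agent/Helper534/LS/*.lean)
to the same paths under /workdir/pool/Pool/Agent/, then `lake build` the modules imported here. Check with `lake env lean <file>`.
Helper965_Rud: Defs, Alg (algebra lemmas: herm_*, sq_*, rm, cm, jm, cp, lc), Basic (XN, XM, compactness), Stmts, StmtsTop, Stmts2 (the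
propositions S_...). The hypotheses S_... of the target are proved by other jobs: just use them.
Return the WHOLE file with the target proved (no sorry, no axiom, no native_decide; keep the name and the statement of the target).
Auxiliary lemmas: before the target, in the namespace goodS_aux (open it before the target) or with names starting with goodS_ .
Avoid straight double quotes and the words forbidden by RULES.md. If the statement is false or something is missing, say so in the note
(status 'problem') with the reason. The final path of the file is Pool/Agent/Helper965_Rud/P_goodS.lean .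

PROOF. Apply h1 to the five parametrised sets (l = 0,1,2,3,4), get bad sets B_0,...,B_4 of Hausdorff dimension < 100 = finrank ℝ (Fin 5 → Fin 5 → Hq). Their union has dimH < 100 (dimH_union), so its complement is dense (dense_compl_of_dimH_lt_finrank; for the finite dimensional normed space Fin 5 → Fin 5 → Hq), in particular nonempty: take A in it.
Let x ∈ ZZ, 0 < t < 1. If one of a₁, a₂, c₁, c₂ is nonzero (a = x.1.1.1, c = x.1.2.1), the corresponding set contains x. Otherwise c = 0 (c₀ = 0 as x ∈ ZZ), so |z| = 1, z ≠ 0, the frame condition gives b conj z = 0, b = 0, and sq a = ‖a₀‖^2 = 1, so a₀ ≠ 0 and x is in the set of S_par0.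
-/

set_option autoImplicit false

namespace Pool.Agent.Helper965_Rud

open scoped ComplexConjugate unitInterval
open Pool.Agent.Helper534.LS (HH hmap sub inl inr delta)

noncomputable section

theorem goodS_finrank : Module.finrank ℝ (Fin 5 → Fin 5 → Hq) = 100 := by
  simp [Module.finrank_pi_fintype, Quaternion.finrank_eq_four]

theorem goodS_nonempty (B : Fin 5 → Set (Fin 5 → Fin 5 → Hq)) (hB : ∀ l, dimH (B l) < 100) :
    ∃ A, ∀ l, A ∉ B l := by
  have h1 : dimH (⋃ l, B l) < Module.finrank ℝ (Fin 5 → Fin 5 → Hq) := by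
    rw [goodS_finrank, dimH_iUnion]
    have h2 : (⨆ l, dimH (B l)) < 100 := by
      rw [← Finset.sup_univ_eq_iSup]
      exact (Finset.sup_lt_iff (by norm_num)).2 fun l _ => hB l
    exact_mod_cast h2
  obtain ⟨A, hA⟩ := (dense_compl_of_dimH_lt_finrank h1).nonempty
  exact ⟨A, fun l hl => hA (Set.mem_iUnion.2 ⟨l, hl⟩)⟩

/-- TARGET -/
theorem goodS (h1 : S_bad) (h2 : S_par0) (h3 : S_par12) (h4 : S_par34) : S_good := by
  intro Ψ hΨ hE
  obtain ⟨B0, d0, b0⟩ := h1 Ψ hΨ hE 0 _ h2
  obtain ⟨B1, d1, b1⟩ := h1 Ψ hΨ hE 1 _ h3.1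
  obtain ⟨B2, d2, b2⟩ := h1 Ψ hΨ hE 2 _ h3.2
  obtain ⟨B3, d3, b3⟩ := h1 Ψ hΨ hE 3 _ h4.1
  obtain ⟨B4, d4, b4⟩ := h1 Ψ hΨ hE 4 _ h4.2
  obtain ⟨A, hA⟩ := goodS_nonempty ![B0, B1, B2, B3, B4] (by
    intro l
    fin_cases l
    · exact d0
    · exact d1
    · exact d2
    · exact d3
    · exact d4)
  refine ⟨A, fun x hx t ht0 ht1 => ?_⟩
  by_cases c1 : x.1.1.1 1 = 0
  swap
  · exact b1 A (hA 1) x ⟨hx, c1⟩ t ht0 ht1
  by_cases c2 : x.1.1.1 2 = 0
  swap
  · exact b2 A (hA 2) x ⟨hx, c2⟩ t ht0 ht1
  by_cases c3 : x.1.2.1 1 = 0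
  swap
  · exact b3 A (hA 3) x ⟨hx, c3⟩ t ht0 ht1
  by_cases c4 : x.1.2.1 2 = 0
  swap
  · exact b4 A (hA 4) x ⟨hx, c4⟩ t ht0 ht1
  have hc : x.1.2.1 = 0 := by
    funext i
    fin_cases i
    · exact hx
    · exact c3
    · exact c4
  obtain ⟨f1, f2, f3⟩ := x.2
  rw [hc, sq_zero, zero_add] at f2
  have hz : x.1.2.2 ≠ 0 := by
    intro h
    rw [h] at f2
    simp at f2
  rw [hc, herm_zero_right, zero_add] at f3
  have hb : x.1.1.2 = 0 := by
    rcases mul_eq_zero.1 f3 with h | h
    · exact h
    · exact absurd ((map_eq_zero _).1 h) hz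
  have ha : x.1.1.1 0 ≠ 0 := by
    intro h
    have h0 : x.1.1.1 = 0 := by
      funext i
      fin_cases i
      · exact h
      · exact c1
      · exact c2
    rw [h0, hb, sq_zero] at f1
    simp at f1
  exact b0 A (hA 0) x ⟨hx, ha, hz⟩ t ht0 ht1

end

end Pool.Agent.Helper965_Rud
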