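import Pool.Agent.Helper965_Rud.Stmts2

/-!
JOB heMN (MP_89fcdb_gt, owner helper965; disproof of a conjecture of Rudyak).
Setup: git fetch in outputs/live, copy Pool/Agent/Helper965_Rud/*.lean from origin/main (and Pool/Agent/Helper534/LS/*.lean)
to the same paths under /workdir/pool/Pool/Agent/, then `lake build` the modules imported here. Check with `lake env lean <file>`.
Helper965_Rud: Defs, Alg (algebra lemmas: herm_*, sq_*, rm, cm, jm, cp, lc), Basic (XN, XM, compactness), Stmts, StmtsTop, Stmts2 (the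
propositions S_...). The hypotheses S_... of the target are proved by other jobs: just use them.
Return the WHOLE file with the target proved (no sorry, no axiom, no native_decide; keep the name and the statement of the target).
Auxiliary lemmas: before the target, in the namespace heMN_aux (open it before the target) or with names starting with heMN_ .
Avoid straight double quotes and the words forbidden by RULES.md. If the statement is false or something is missing, say so in the note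
(status 'problem') with the reason. The final path of the file is Pool/Agent/Helper965_Rud/P_heMN.lean .

PROOF. AMs ≃ₜ VV × {y : Y2 // y.1 ≠ (0,1)} ≃ₜ VV × ℂ ≃ₕ VV (ℂ contractible). BMs ≃ₜ VV × Bd ≃ₕ VV, BNs the same (Bd = open unit ball of ℂ, convex: contractible). A general lemma helps: if C is contractible then HE (A × C) A.
AMs ∩ BMs: for p = mk x in BMs (s > 0) we have p in AMs iff (z,s) ≠ (0,1) iff z ≠ 0 iff (eM p).2 ≠ 0 (the representatives differ by the action which does not change (z,s)). So AMs ∩ BMs is homeomorphic to VV × {ζ : Bd // ζ ≠ 0}, homotopy equivalent to VV × Sp 1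
(punctured open disc: ζ ↦ ζ/|ζ| in Circle, Circle → disc by ζ/2; Circle homeomorphic to Sp 1 = sphere of EuclideanSpace ℝ (Fin 2)). Similarly ANs ∩ BNs: for p = mk x in BNs, p in ANs iff z ≠ 0 iff (eN p).2 ≠ 0.
-/

set_option autoImplicit false

namespace Pool.Agent.Helper965_Rud

open scoped ComplexConjugate unitInterval
open Pool.Agent.Helper534.LS (HH hmap sub inl inr delta)

noncomputable section

namespace heMN_aux

/-- a contractible factor does not matter -/
theorem he_contr (A C : Type) [TopologicalSpace A] [TopologicalSpace C] [ContractibleSpace C] : HE (A × C) A := by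
  obtain ⟨e⟩ := ContractibleSpace.hequiv_unit C
  have h1 : HE (A × C) (A × Unit) := ⟨(ContinuousMap.HomotopyEquiv.refl A).prodCongr e⟩
  exact h1.trans (HE.of_homeo (Homeomorph.prodPUnit A))

theorem he_prod (A C C' : Type) [TopologicalSpace A] [TopologicalSpace C] [TopologicalSpace C'] (h : HE C C') :
    HE (A × C) (A × C') := by
  obtain ⟨e⟩ := h
  exact ⟨(ContinuousMap.HomotopyEquiv.refl A).prodCongr e⟩

instance : ContractibleSpace Bd := (convex_ball (0 : ℂ) 1).contractibleSpace ⟨0, by simp⟩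

/-- the punctured open disc -/
abbrev Pd : Type := {ζ : Bd // (ζ : ℂ) ≠ 0}

/-- the circle -/
abbrev Ci : Type := Metric.sphere (0 : ℂ) 1

theorem norm_ci (c : Ci) : ‖(c : ℂ)‖ = 1 := norm_eq_of_mem_sphere c

theorem norm_pd (ζ : Pd) : 0 < ‖(ζ.1 : ℂ)‖ := norm_pos_iff.2 ζ.2

theorem norm_pd_lt (ζ : Pd) : ‖(ζ.1 : ℂ)‖ < 1 := mem_ball_zero_iff.1 ζ.1.2

/-- the retraction to the circle -/
def rad : C(Pd, Ci) where
  toFun ζ := ⟨((‖(ζ.1 : ℂ)‖⁻¹ : ℝ) : ℂ) * (ζ.1 : ℂ), by
    rw [mem_sphere_zero_iff_norm, norm_mul, Complex.norm_real, norm_inv, norm_norm,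
      inv_mul_cancel₀ (norm_pd ζ).ne']⟩
  continuous_toFun := by
    refine Continuous.subtype_mk ?_ _
    have h1 : Continuous fun ζ : Pd => (ζ.1 : ℂ) := continuous_subtype_val.comp continuous_subtype_val
    refine (Complex.continuous_ofReal.comp ?_).mul h1
    exact h1.norm.inv₀ fun ζ => (norm_pd ζ).ne'

/-- the circle of radius one half -/
def half : C(Ci, Pd) where
  toFun c := ⟨⟨((1 / 2 : ℝ) : ℂ) * (c : ℂ), by
    rw [mem_ball_zero_iff, norm_mul, Complex.norm_real, norm_ci]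
    norm_num⟩, by
    have h1 : ‖(c : ℂ)‖ = 1 := norm_ci c
    intro h2
    have h3 : ((1 / 2 : ℝ) : ℂ) * (c : ℂ) = 0 := h2
    have h4 := congrArg norm h3
    rw [norm_mul, Complex.norm_real, h1] at h4
    norm_num at h4⟩
  continuous_toFun := by
    refine Continuous.subtype_mk (Continuous.subtype_mk ?_ _) _
    exact continuous_const.mul continuous_subtype_val

/-- the factor of the homotopy -/
def fac (t : ℝ) (ζ : Pd) : ℝ := (1 - t) * (1 / 2 * ‖(ζ.1 : ℂ)‖⁻¹) + t

theorem fac_pos (t : I) (ζ : Pd) : 0 < fac t ζ := by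
  have h1 := norm_pd ζ
  have h2 : 0 < 1 / 2 * ‖(ζ.1 : ℂ)‖⁻¹ := by positivity
  have ht0 := t.2.1
  have ht1 := t.2.2
  unfold fac
  rcases ht0.lt_or_eq with h | h
  · have : 0 ≤ (1 - (t : ℝ)) * (1 / 2 * ‖(ζ.1 : ℂ)‖⁻¹) := mul_nonneg (by linarith) h2.le
    linarith
  · rw [← h]
    simpa using h2

theorem fac_lt (t : I) (ζ : Pd) : fac t ζ * ‖(ζ.1 : ℂ)‖ < 1 := by
  have h1 := norm_pd ζ
  have h3 := norm_pd_lt ζ
  have ht0 := t.2.1
  have ht1 := t.2.2
  have e : fac t ζ * ‖(ζ.1 : ℂ)‖ = (1 - t) * (1 / 2) + t * ‖(ζ.1 : ℂ)‖ := by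
    unfold fac
    field_simp
  rw [e]
  rcases ht1.lt_or_eq with h | h
  · have h4 : (t : ℝ) * ‖(ζ.1 : ℂ)‖ ≤ t * 1 := mul_le_mul_of_nonneg_left h3.le ht0
    linarith
  · rw [h]; linarith

theorem he_pd : HE Pd Ci := by
  refine ⟨⟨rad, half, ?_, ?_⟩⟩
  · refine ⟨⟨⟨fun p => ⟨⟨((fac p.1 p.2 : ℝ) : ℂ) * (p.2.1 : ℂ), ?_⟩, ?_⟩, ?_⟩, ?_, ?_⟩⟩
    · rw [mem_ball_zero_iff, norm_mul, Complex.norm_real, Real.norm_of_nonneg (fac_pos _ _).le]
      exact fac_lt _ _
    · have h1 : ((fac p.1 p.2 : ℝ) : ℂ) ≠ 0 := Complex.ofReal_ne_zero.2 (fac_pos _ _).ne'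
      exact mul_ne_zero h1 p.2.2
    · refine Continuous.subtype_mk (Continuous.subtype_mk ?_ _) _
      have h1 : Continuous fun p : I × Pd => (p.2.1 : ℂ) :=
        continuous_subtype_val.comp (continuous_subtype_val.comp continuous_snd)
      have h2 : Continuous fun p : I × Pd => ‖(p.2.1 : ℂ)‖⁻¹ := h1.norm.inv₀ fun p => (norm_pd p.2).ne'
      have h3 : Continuous fun p : I × Pd => (p.1 : ℝ) := continuous_subtype_val.comp continuous_fst
      refine (Complex.continuous_ofReal.comp ?_).mul h1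
      unfold fac
      exact ((continuous_const.sub h3).mul (continuous_const.mul h2)).add h3
    · intro ζ
      apply Subtype.ext
      apply Subtype.ext
      show ((fac ((0 : I) : ℝ) ζ : ℝ) : ℂ) * (ζ.1 : ℂ) = ((1 / 2 : ℝ) : ℂ) * (((‖(ζ.1 : ℂ)‖⁻¹ : ℝ) : ℂ) * (ζ.1 : ℂ))
      unfold fac
      push_cast
      simp
      ring
    · intro ζ
      apply Subtype.ext
      apply Subtype.ext
      show ((fac ((1 : I) : ℝ) ζ : ℝ) : ℂ) * (ζ.1 : ℂ) = (ζ.1 : ℂ)
      unfold fac
      simp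
  · have h1 : rad.comp half = ContinuousMap.id Ci := by
      ext c
      show (((‖((1 / 2 : ℝ) : ℂ) * (c : ℂ)‖⁻¹ : ℝ) : ℂ) * (((1 / 2 : ℝ) : ℂ) * (c : ℂ))) = (c : ℂ)
      rw [norm_mul, Complex.norm_real, norm_ci]
      push_cast
      norm_num
      ring
    rw [h1]

theorem he_ci : HE Ci (Sp 1) := by
  let L : ℂ ≃ₗᵢ[ℝ] EuclideanSpace ℝ (Fin 2) := Complex.orthonormalBasisOneI.repr
  refine HE.of_homeo (L.toHomeomorph.subtype ?_)
  intro x
  show x ∈ Metric.sphere (0 : ℂ) 1 ↔ L x ∈ Metric.sphere (0 : EuclideanSpace ℝ (Fin 2)) 1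
  rw [mem_sphere_zero_iff_norm, mem_sphere_zero_iff_norm, L.norm_map]

/-- the general form -/
theorem gen {X : Type} [TopologicalSpace X] (A B : Set X) (e : ↥B ≃ₜ VV × Bd)
    (h : ∀ p : ↥B, p.1 ∈ A ↔ ((e p).2 : ℂ) ≠ 0) : HE ↥(A ∩ B) (VV × Sp 1) := by
  let e1 : ↥(A ∩ B) ≃ₜ {p : ↥B // p.1 ∈ A} :=
    { toFun := fun p => ⟨⟨p.1, p.2.2⟩, p.2.1⟩
      invFun := fun p => ⟨p.1.1, p.2, p.1.2⟩
      left_inv := fun p => rfl
      right_inv := fun p => rfl
      continuous_toFun := Continuous.subtype_mk (Continuous.subtype_mk continuous_subtype_val _) _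
      continuous_invFun := Continuous.subtype_mk (continuous_subtype_val.comp continuous_subtype_val) _ }
  let e2 : {p : ↥B // p.1 ∈ A} ≃ₜ {q : VV × Bd // (q.2 : ℂ) ≠ 0} := e.subtype h
  let e3 : {q : VV × Bd // (q.2 : ℂ) ≠ 0} ≃ₜ VV × Pd :=
    { toFun := fun q => (q.1.1, ⟨q.1.2, q.2⟩)
      invFun := fun q => ⟨(q.1, q.2.1), q.2.2⟩
      left_inv := fun q => rfl
      right_inv := fun q => rfl
      continuous_toFun := (continuous_fst.comp continuous_subtype_val).prodMk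
        (Continuous.subtype_mk (continuous_snd.comp continuous_subtype_val) _)
      continuous_invFun := Continuous.subtype_mk
        (continuous_fst.prodMk (continuous_subtype_val.comp continuous_snd)) _ }
  exact (HE.of_homeo ((e1.trans e2).trans e3)).trans (he_prod VV Pd (Sp 1) (he_pd.trans he_ci))

theorem mem_AM (x : XM) : mk x ∈ AMs ↔ x.1.2.1 ≠ (0, 1) := by
  constructor
  · rintro ⟨x', h1, h2⟩
    obtain ⟨g, rfl⟩ := mk_eq_iff.1 h1
    exact h2
  · intro h
    exact ⟨x, rfl, h⟩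

theorem mem_AN (x : XN) : mk x ∈ ANs ↔ x.1.2.2 ≠ 0 := by
  constructor
  · rintro ⟨x', h1, h2⟩
    obtain ⟨g, rfl⟩ := mk_eq_iff.1 h1
    exact h2
  · intro h
    exact ⟨x, rfl, h⟩

end heMN_aux

open heMN_aux in
/-- TARGET -/
theorem heMN (h1 : S_open) (h2 : S_AM) (h3 : S_BMN) (h4 : S_Y2) : S_heM ∧ S_heN := by
  obtain ⟨eA, _⟩ := h2
  obtain ⟨eM, eN, hM, hN, _⟩ := h3
  obtain ⟨eY⟩ := h4
  refine ⟨⟨?_, ?_, ?_⟩, ?_, ?_⟩
  · have e1 : HE (VV × {y : Y2 // y.1 ≠ (0, 1)}) (VV × ℂ) := he_prod _ _ _ (HE.of_homeo eY)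
    exact ((HE.of_homeo eA).trans e1).trans (he_contr VV ℂ)
  · exact (HE.of_homeo eM).trans (he_contr VV Bd)
  · refine gen AMs BMs eM ?_
    rintro ⟨p, hp⟩
    obtain ⟨x, rfl, hx⟩ := hp
    have hp' : mk x ∈ BMs := ⟨x, rfl, hx⟩
    show mk x ∈ AMs ↔ ((eM ⟨mk x, hp'⟩).2 : ℂ) ≠ 0
    rw [hM x hp', mem_AM]
    have h5 := x.2.2.1
    constructor
    · intro h6 h7
      apply h6
      rw [h7] at h5
      simp only [norm_zero] at h5
      have h8 : x.1.2.1.2 = 1 := by nlinarith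
      exact Prod.ext h7 h8
    · intro h6 h7
      exact h6 (by rw [h7])
  · exact (HE.of_homeo eN).trans (he_contr VV Bd)
  · refine gen ANs BNs eN ?_
    rintro ⟨p, hp⟩
    obtain ⟨x, rfl, hx⟩ := hp
    have hp' : mk x ∈ BNs := ⟨x, rfl, hx⟩
    show mk x ∈ ANs ↔ ((eN ⟨mk x, hp'⟩).2 : ℂ) ≠ 0
    rw [hN x hp', mem_AN]

end

end Pool.Agent.Helper965_Rud

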