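import Pool.Agent.Helper965_Rud.Stmts2

set_option autoImplicit false

namespace Pool.Agent.Helper965_Rud

open scoped ComplexConjugate unitInterval
open Pool.Agent.Helper534.LS (HH hmap sub inl inr delta)

noncomputable section

namespace leMod_aux

/-- a charted space is locally Euclidean -/
theorem of_charted (n : ℕ) (X : Type) [TopologicalSpace X]
    [ChartedSpace (EuclideanSpace ℝ (Fin n)) X] : LocEuc n X := by
  intro x
  exact ⟨(chartAt (EuclideanSpace ℝ (Fin n)) x).source,
    (chartAt (EuclideanSpace ℝ (Fin n)) x).open_source,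
    mem_chart_source (EuclideanSpace ℝ (Fin n)) x,
    (chartAt (EuclideanSpace ℝ (Fin n)) x).target,
    (chartAt (EuclideanSpace ℝ (Fin n)) x).open_target,
    ⟨(chartAt (EuclideanSpace ℝ (Fin n)) x).toHomeomorphSourceTarget⟩⟩

/-- a finite dimensional real vector space is locally Euclidean -/
theorem of_finrank (n : ℕ) (E : Type) [NormedAddCommGroup E] [NormedSpace ℝ E]
    [FiniteDimensional ℝ E] (h : Module.finrank ℝ E = n) : LocEuc n E := by
  intro x
  have e : E ≃L[ℝ] EuclideanSpace ℝ (Fin n) :=
    ContinuousLinearEquiv.ofFinrankEq (by rw [h, finrank_euclideanSpace_fin])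
  exact ⟨Set.univ, isOpen_univ, Set.mem_univ x, Set.univ, isOpen_univ,
    ⟨(Homeomorph.Set.univ E).trans (e.toHomeomorph.trans (Homeomorph.Set.univ _).symm)⟩⟩

end leMod_aux

/-- TARGET -/
theorem leMod : S_leMod := by
  refine ⟨?_, ?_, ?_, ?_⟩
  · intro n
    apply leMod_aux.of_finrank
    rw [Module.finrank_pi_fintype]
    simp [Quaternion.finrank_eq_four, mul_comm]
  · exact leMod_aux.of_finrank 2 ℂ Complex.finrank_real_complex
  · intro n
    have hf : Fact (Module.finrank ℝ (EuclideanSpace ℝ (Fin (n + 1))) = n + 1) :=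
      ⟨finrank_euclideanSpace_fin⟩
    exact leMod_aux.of_charted n (Sp n)
  · exact leMod_aux.of_charted 1 Circle

end

end Pool.Agent.Helper965_Rud
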