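import Pool.Agent.Helper965_Rud.Stmts2

/-!
JOB leOrb (MP_89fcdb_gt, owner helper965; disproof of a conjecture of Rudyak).
-/

set_option autoImplicit false

namespace Pool.Agent.Helper965_Rud

open scoped ComplexConjugate unitInterval
open Pool.Agent.Helper534.LS (HH hmap sub inl inr delta)

noncomputable section

/-- TARGET -/
theorem leOrb (h1 : S_leCalc) (h2 : S_leMod) (h3 : S_triv2) : S_leOrb := by
  intro Y _ _ m n hY
  obtain ⟨hA, -, hC, hD⟩ := h1
  refine hC _ _ ?_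
  intro p
  obtain ⟨x, hx⟩ := mk_surj p
  have hex : ∃ l : Fin (n + 1), x.2.1 l ≠ 0 := by
    by_contra hcon
    push Not at hcon
    have hs : sq x.2.1 = 1 := x.2.2
    have h0 : sq x.2.1 = 0 := by
      unfold sq
      exact Finset.sum_eq_zero fun i _ => by rw [hcon i]; simp
    rw [h0] at hs
    exact zero_ne_one hs
  obtain ⟨l, hl⟩ := hex
  obtain ⟨hop, e, -⟩ := h3 Y n l
  refine ⟨BB Y n l, hop, ⟨x, hx.symm, hl⟩, ?_⟩
  exact hA _ _ _ ⟨e.symm⟩ (hD _ _ _ _ hY (h2.1 n))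

end

end Pool.Agent.Helper965_Rud
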