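import Pool.Agent.Helper965_Rud.Stmts2

set_option autoImplicit false

namespace Pool.Agent.Helper965_Rud

open scoped ComplexConjugate unitInterval Topology
open Pool.Agent.Helper534.LS (HH hmap sub inl inr delta)

noncomputable section

namespace levels_aux

/-- the inclusion of a subset of a contractible set is homotopic to any constant map -/
theorem ctr_sub {X : Type} [TopologicalSpace X] [PathConnectedSpace X] {O W : Set X}
    (hO : CtrIn O) (hW : W ⊆ O) (x0 : X) :
    (⟨Subtype.val, continuous_subtype_val⟩ : C(W, X)).Homotopic (ContinuousMap.const W x0) := by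
  obtain ⟨y, hy⟩ := hO
  have h1 : ((⟨Subtype.val, continuous_subtype_val⟩ : C(O, X)).comp
      (⟨Set.inclusion hW, continuous_inclusion hW⟩ : C(W, O))).Homotopic
      ((ContinuousMap.const O y).comp ⟨Set.inclusion hW, continuous_inclusion hW⟩) :=
    ContinuousMap.Homotopic.comp hy (ContinuousMap.Homotopic.refl _)
  have h2 : (ContinuousMap.const W y).Homotopic (ContinuousMap.const W x0) := by
    obtain ⟨p⟩ := PathConnectedSpace.joined y x0
    refine ⟨⟨⟨fun q => p q.1, by fun_prop⟩, ?_, ?_⟩⟩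
    · intro x; simp
    · intro x; simp
  exact h1.trans h2

theorem glue {X : Type} [TopologicalSpace X] {J : Type} (W : J → Set X) (hW : ∀ i, IsOpen (W i))
    (hd : ∀ i j, i ≠ j → Disjoint (W i) (W j)) (x0 : X)
    (h : ∀ i, (⟨Subtype.val, continuous_subtype_val⟩ : C(W i, X)).Homotopic
      (ContinuousMap.const (W i) x0)) (U : Set X) (hU : U = ⋃ i, W i) : CtrIn U := by
  have hH : ∀ i, ∃ H : C(I × W i, X), (∀ x, H (0, x) = x.1) ∧ ∀ x, H (1, x) = x0 := by
    intro i
    obtain ⟨H⟩ := h i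
    exact ⟨H.toContinuousMap, fun x => H.map_zero_left x, fun x => H.map_one_left x⟩
  choose H H0 H1 using hH
  let S : J → Set (I × U) := fun i => {p | p.2.1 ∈ W i}
  have hSo : ∀ i, IsOpen (S i) := fun i =>
    (hW i).preimage (continuous_subtype_val.comp continuous_snd)
  let φ : ∀ i, C(S i, X) := fun i => (H i).comp ⟨fun p => (p.1.1, ⟨p.1.2.1, p.2⟩), by
    refine (continuous_fst.comp continuous_subtype_val).prodMk (Continuous.subtype_mk ?_ _)
    exact continuous_subtype_val.comp (continuous_snd.comp continuous_subtype_val)⟩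
  have hφ : ∀ (i j : J) (x : I × U) (hxi : x ∈ S i) (hxj : x ∈ S j),
      φ i ⟨x, hxi⟩ = φ j ⟨x, hxj⟩ := by
    intro i j x hxi hxj
    by_cases hij : i = j
    · subst hij; rfl
    · exact absurd hxj (Set.disjoint_left.1 (hd i j hij) hxi)
  have hS : ∀ x : I × U, ∃ i, S i ∈ 𝓝 x := by
    intro x
    have hx : x.2.1 ∈ ⋃ i, W i := hU ▸ x.2.2
    obtain ⟨i, hi⟩ := Set.mem_iUnion.1 hx
    exact ⟨i, (hSo i).mem_nhds hi⟩
  let F : C(I × U, X) := ContinuousMap.liftCover S φ hφ hS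
  have hF : ∀ (t : I) (u : U), ∃ (i : J) (hi : u.1 ∈ W i), F (t, u) = H i (t, ⟨u.1, hi⟩) := by
    intro t u
    have hx : u.1 ∈ ⋃ i, W i := hU ▸ u.2
    obtain ⟨i, hi⟩ := Set.mem_iUnion.1 hx
    refine ⟨i, hi, ?_⟩
    exact ContinuousMap.liftCover_coe (S := S) (φ := φ) (hφ := hφ) (hS := hS) (i := i) ⟨(t, u), hi⟩
  refine ⟨x0, ⟨⟨F, ?_, ?_⟩⟩⟩
  · intro u
    obtain ⟨i, hi, he⟩ := hF 0 u
    exact he.trans (H0 i _)
  · intro u
    obtain ⟨i, hi, he⟩ := hF 1 u
    exact he.trans (H1 i _)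

end levels_aux

open levels_aux

/-- TARGET -/
theorem levels : S_levels := by
  intro X _ _ _ k ι _ lev S O hcov hSO hO hctr hsep
  classical
  obtain ⟨x0⟩ : Nonempty X := PathConnectedSpace.nonempty
  have key : ∀ p : ι × ι, ∃ A B : Set X, IsOpen A ∧ IsOpen B ∧ S p.1 ⊆ A ∧ S p.2 ⊆ B ∧
      (p.1 ≠ p.2 → lev p.1 = lev p.2 → Disjoint A B) := by
    intro p
    by_cases hp : p.1 ≠ p.2 ∧ lev p.1 = lev p.2
    · have h1 : Disjoint (closure (S p.1)) (S p.2) := hsep _ _ hp.1 hp.2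
      have h2 : Disjoint (S p.1) (closure (S p.2)) := (hsep _ _ hp.1.symm hp.2.symm).symm
      have h3 : SeparatedNhds (S p.1) (S p.2) :=
        separatedNhds_iff_disjoint.2 (CompletelyNormalSpace.completely_normal h1 h2)
      obtain ⟨A, B, hA, hB, hSA, hSB, hAB⟩ := h3
      exact ⟨A, B, hA, hB, hSA, hSB, fun _ _ => hAB⟩
    · refine ⟨Set.univ, Set.univ, isOpen_univ, isOpen_univ, Set.subset_univ _, Set.subset_univ _,
        fun h1 h2 => absurd ⟨h1, h2⟩ hp⟩
  choose A B hA hB hSA hSB hAB using key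
  let W : ι → Set X := fun i => O i ∩ ⋂ j, (A (i, j) ∩ B (j, i))
  have hWo : ∀ i, IsOpen (W i) := fun i =>
    (hO i).inter (isOpen_iInter_of_finite fun j => (hA (i, j)).inter (hB (j, i)))
  have hSW : ∀ i, S i ⊆ W i := fun i x hx =>
    ⟨hSO i hx, Set.mem_iInter.2 fun j => ⟨hSA (i, j) hx, hSB (j, i) hx⟩⟩
  have hWd : ∀ i j, i ≠ j → lev i = lev j → Disjoint (W i) (W j) := by
    intro i j hij hl
    rw [Set.disjoint_left]
    intro x hx hy
    have h1 := (Set.mem_iInter.1 hx.2 j).1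
    have h2 := (Set.mem_iInter.1 hy.2 i).2
    exact Set.disjoint_left.1 (hAB (i, j) hij hl) h1 h2
  refine ⟨fun v => ⋃ i : {i // lev i = v}, W i.1, ?_, ?_, ?_⟩
  · exact fun v => isOpen_iUnion fun i => hWo i.1
  · intro x
    obtain ⟨i, hi⟩ := hcov x
    exact ⟨lev i, Set.mem_iUnion.2 ⟨⟨i, rfl⟩, hSW i hi⟩⟩
  · intro v
    refine glue (fun i : {i // lev i = v} => W i.1) (fun i => hWo i.1) ?_ x0 ?_ _ rfl
    · intro i j hij
      exact hWd i.1 j.1 (fun h => hij (Subtype.ext h)) (i.2.trans j.2.symm)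
    · intro i
      exact ctr_sub (hctr i.1) Set.inter_subset_left x0

end

end Pool.Agent.Helper965_Rud
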