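import Pool.Agent.Helper965_Rud.Stmts2

/-!
JOB mapsS (MP_89fcdb_gt, owner helper965; disproof of a conjecture of Rudyak).
Setup: git fetch in outputs/live, copy Pool/Agent/Helper965_Rud/*.lean from origin/main (and Pool/Agent/Helper534/LS/*.lean)
to the same paths under /workdir/pool/Pool/Agent/, then `lake build` the modules imported here. Check with `lake env lean <file>`.
Helper965_Rud: Defs, Alg (algebra lemmas: herm_*, sq_*, rm, cm, jm, cp, lc), Basic (XN, XM, compactness), Stmts, StmtsTop, Stmts2 (the
propositions S_...). The hypotheses S_... of the target are proved by other jobs: just use them.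
Return the WHOLE file with the target proved (no sorry, no axiom, no native_decide; keep the name and the statement of the target).
Auxiliary lemmas: before the target, in the namespace mapsS_aux (open it before the target) or with names starting with mapsS_ .
Avoid straight double quotes and the words forbidden by RULES.md. If the statement is false or something is missing, say so in the note
(status 'problem') with the reason. The final path of the file is Pool/Agent/Helper965_Rud/P_mapsS.lean .

PROOF. p = mk x, x = (w,(z,s),(a,b)), fM (mk x) = mk (fX x), fX x = ((a,b),(s⁺ w + s⁻ ja, z)) (omap_mk; fX x has underlying fA x.1). If p is in AMs, (z,s) ≠ (0,1) for a representative (invariant under the action as the action does not change (z,s); here just use the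
representative given by the definition of AMs). If z ≠ 0 done. If z = 0 then s^2 = 1, s ≠ 1, so s = -1: b = 0 (IsMpt), sq a = 1, the second vector is c = ja and herm (ja) (ja) = sq (ja) = sq a = 1 has real part 1 > 0 (herm_self, sq_jm).
If p is in AMs ∩ BMs: the two representatives have the same (z,s) (mk_eq_iff). s > 0 and (z,s) ≠ (0,1) imply z ≠ 0; and c = s w ≠ 0 as sq w = 1.
-/

set_option autoImplicit false

namespace Pool.Agent.Helper965_Rud

open scoped ComplexConjugate unitInterval
open Pool.Agent.Helper534.LS (HH hmap sub inl inr delta)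

noncomputable section

theorem mapsS_s (x : XM) (hz : x.1.2.1.1 = 0) : x.1.2.1.2 = 1 ∨ x.1.2.1.2 = -1 := by
  have h := x.2.2.1
  rw [hz, norm_zero] at h
  have h2 : (x.1.2.1.2 - 1) * (x.1.2.1.2 + 1) = 0 := by linear_combination h
  rcases mul_eq_zero.1 h2 with h3 | h3
  · left; linarith
  · right; linarith

/-- TARGET -/
theorem mapsS : S_maps := by
  refine ⟨?_, ?_⟩
  · rintro p ⟨x, rfl, hx⟩
    refine ⟨fX x, rfl, ?_⟩
    by_cases hz : x.1.2.1.1 = 0
    · right
      have hs : x.1.2.1.2 = -1 := by
        rcases mapsS_s x hz with h | h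
        · exact absurd (Prod.ext hz h) hx
        · exact h
      have hb : x.1.2.2.2 = 0 := x.2.2.2.2.2 (by rw [hs]; norm_num)
      have ha : sq x.1.2.2.1 = 1 := by
        have h := x.2.2.2.1
        rw [hb, norm_zero] at h
        linarith
      have e1 : (fX x).1.2.1 = jm x.1.2.2.1 := by
        show rm (max x.1.2.1.2 0) x.1.1 + rm (max (-x.1.2.1.2) 0) (jm x.1.2.2.1) = _
        rw [hs]
        have h1 : max (-1 : ℝ) 0 = 0 := by norm_num
        have h2 : max (- -1 : ℝ) 0 = 1 := by norm_num
        rw [h1, h2, rm_zero, rm_one, zero_add]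
      have e2 : (fX x).1.1.1 = x.1.2.2.1 := rfl
      rw [e1, e2, herm_self, sq_jm, ha]
      norm_num
    · left
      exact hz
  · rintro p ⟨⟨x, rfl, hx⟩, ⟨x', hxx', hs'⟩⟩
    obtain ⟨g, hg⟩ := mk_eq_iff.1 hxx'
    have hs : 0 < x.1.2.1.2 := by
      have : x'.1.2.1 = x.1.2.1 := by rw [hg]; rfl
      rw [← this]
      exact hs'
    refine ⟨⟨fX x, rfl, ?_⟩, ⟨fX x, rfl, ?_⟩⟩
    · intro hz
      have hz' : x.1.2.1.1 = 0 := hz
      rcases mapsS_s x hz' with h | h
      · exact hx (Prod.ext hz' h)
      · rw [h] at hs
        norm_num at hs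
    · intro hc
      have e1 : (fX x).1.2.1 = rm x.1.2.1.2 x.1.1 := by
        show rm (max x.1.2.1.2 0) x.1.1 + rm (max (-x.1.2.1.2) 0) (jm x.1.2.2.1) = _
        rw [max_eq_left hs.le, max_eq_right (by linarith), rm_zero, add_zero]
      rw [e1] at hc
      have h1 : sq (rm x.1.2.1.2 x.1.1) = 0 := by rw [hc]; exact sq_eq_zero_iff.2 rfl
      rw [sq_rm, x.2.1, mul_one] at h1
      have h2 : 0 < x.1.2.1.2 ^ 2 := by positivity
      linarith

end

end Pool.Agent.Helper965_Rud
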