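import Pool.Agent.Helper965_Rud.Stmts2
import Pool.Agent.Helper534.LS.P_mv_exact1
import Pool.Agent.Helper534.LS.P_mv_exact2

/-!
JOB mvTop (MP_89fcdb_gt, owner helper965; disproof of a conjecture of Rudyak).
Setup: git fetch in outputs/live, copy Pool/Agent/Helper965_Rud/*.lean from origin/main (and Pool/Agent/Helper534/LS/*.lean)
to the same paths under /workdir/pool/Pool/Agent/, then `lake build` the modules imported here. Check with `lake env lean <file>`.
Helper965_Rud: Defs, Alg (algebra lemmas: herm_*, sq_*, rm, cm, jm, cp, lc), Basic (XN, XM, compactness), Stmts, StmtsTop, Stmts2 (the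
propositions S_...). The hypotheses S_... of the target are proved by other jobs: just use them.
Return the WHOLE file with the target proved (no sorry, no axiom, no native_decide; keep the name and the statement of the target).
Auxiliary lemmas: before the target, in the namespace mvTop_aux (open it before the target) or with names starting with mvTop_ .
Avoid straight double quotes and the words forbidden by RULES.md. If the statement is false or something is missing, say so in the note
(status 'problem') with the reason. The final path of the file is Pool/Agent/Helper965_Rud/P_mvTop.lean .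

PROOF. Van X (d+1): let j = n+1 > d+1, n > d: delta U V n x = 0 as Van (U ∩ V) d, then mv_exact1 and the vanishing of HH U (n+1), HH V (n+1)
give x = 0. Degree d+1: delta U V d : HH X (d+1) → HH (U ∩ V) d is linear, injective (mv_exact1, as HH U (d+1) = HH V (d+1) = 0) and surjective
(mv_exact2, as HH U d = HH V d = 0). LinearEquiv.ofBijective, composed with HH (U ∩ V) d = Z. (inl, inr are the inclusions of U ∩ V.)
-/

set_option autoImplicit false

namespace Pool.Agent.Helper965_Rud

open scoped ComplexConjugate unitInterval
open Pool.Agent.Helper534.LS (HH hmap sub inl inr delta)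

noncomputable section

/-- TARGET -/
theorem mvTop : S_mvTop := by
  intro X _ U V hU hV hUV d _ h0 hT
  obtain ⟨hVan, ⟨e⟩⟩ := hT
  have key : ∀ n, d ≤ n → ∀ x : HH X (n + 1), delta U V n x = 0 → x = 0 := by
    intro n hn x hx
    obtain ⟨u, v, huv⟩ := Pool.Agent.Helper534.LS.mv_exact1 U V hU hV hUV n x hx
    rw [huv, (h0 (n + 1) (by omega)).1 u, (h0 (n + 1) (by omega)).2 v, map_zero, map_zero,
      add_zero]
  refine ⟨?_, ?_⟩
  · intro j hj x
    obtain ⟨n, rfl⟩ : ∃ n, j = n + 1 := ⟨j - 1, by omega⟩
    exact key n (by omega) x (hVan n (by omega) _)
  · have hinj : Function.Injective (delta U V d) := by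
      rw [← LinearMap.ker_eq_bot, LinearMap.ker_eq_bot']
      exact key d le_rfl
    have hsur : Function.Surjective (delta U V d) := by
      intro y
      exact Pool.Agent.Helper534.LS.mv_exact2 U V hU hV hUV d y ((h0 d le_rfl).1 _)
        ((h0 d le_rfl).2 _)
    exact ⟨(LinearEquiv.ofBijective (delta U V d) ⟨hinj, hsur⟩).trans e⟩

end

end Pool.Agent.Helper965_Rud
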