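import Pool.Agent.Helper965_Rud.Stmts2
import Pool.Agent.Helper534.LS.P_mv_exact1

/-!
JOB mvVan (MP_89fcdb_gt, owner helper965; disproof of a conjecture of Rudyak).
Setup: git fetch in outputs/live, copy Pool/Agent/Helper965_Rud/*.lean from origin/main (and Pool/Agent/Helper534/LS/*.lean)
to the same paths under /workdir/pool/Pool/Agent/, then `lake build` the modules imported here. Check with `lake env lean <file>`.
Helper965_Rud: Defs, Alg (algebra lemmas: herm_*, sq_*, rm, cm, jm, cp, lc), Basic (XN, XM, compactness), Stmts, StmtsTop, Stmts2 (the
propositions S_...). The hypotheses S_... of the target are proved by other jobs: just use them.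
Return the WHOLE file with the target proved (no sorry, no axiom, no native_decide; keep the name and the statement of the target).
Auxiliary lemmas: before the target, in the namespace mvVan_aux (open it before the target) or with names starting with mvVan_ .
Avoid straight double quotes and the words forbidden by RULES.md. If the statement is false or something is missing, say so in the note
(status 'problem') with the reason. The final path of the file is Pool/Agent/Helper965_Rud/P_mvVan.lean .

PROOF. Let j > d+1, write j = n+1 with n > d. For x : HH X (n+1): delta U V n x is in HH (U ∩ V) n = 0, so mv_exact1 gives x = hmap (sub U) u +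
hmap (sub V) v with u : HH U (n+1) = 0, v : HH V (n+1) = 0, as n+1 > d+1. So x = 0.
-/

set_option autoImplicit false

namespace Pool.Agent.Helper965_Rud

open scoped ComplexConjugate unitInterval
open Pool.Agent.Helper534.LS (HH hmap sub inl inr delta)

noncomputable section

/-- TARGET -/
theorem mvVan : S_mvVan := by
  intro X _ U V hU hV hUV d hVU hVV hVI j hj x
  obtain ⟨n, rfl⟩ : ∃ n, j = n + 1 := ⟨j - 1, by omega⟩
  obtain ⟨u, v, hx⟩ := Pool.Agent.Helper534.LS.mv_exact1 U V hU hV hUV n x
    (hVI n (by omega) (delta U V n x))
  rw [hx, hVU (n + 1) hj u, hVV (n + 1) hj v, map_zero, map_zero, add_zero]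

end

end Pool.Agent.Helper965_Rud
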