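import Pool.Agent.Helper965_Rud.Stmts2

/-!
JOB openS (MP_89fcdb_gt, owner helper965; disproof of a conjecture of Rudyak).
Setup: git fetch in outputs/live, copy Pool/Agent/Helper965_Rud/*.lean from origin/main (and Pool/Agent/Helper534/LS/*.lean)
to the same paths under /workdir/pool/Pool/Agent/, then `lake build` the modules imported here. Check with `lake env lean <file>`.
Helper965_Rud: Defs, Alg (algebra lemmas: herm_*, sq_*, rm, cm, jm, cp, lc), Basic (XN, XM, compactness), Stmts, StmtsTop, Stmts2 (the
propositions S_...). The hypotheses S_... of the target are proved by other jobs: just use them.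
Return the WHOLE file with the target proved (no sorry, no axiom, no native_decide; keep the name and the statement of the target).
Auxiliary lemmas: before the target, in the namespace openS_aux (open it before the target) or with names starting with openS_ .
Avoid straight double quotes and the words forbidden by RULES.md. If the statement is false or something is missing, say so in the note
(status 'problem') with the reason. The final path of the file is Pool/Agent/Helper965_Rud/P_openS.lean .

PROOF. Each set is the image under the open map mk (isOpenMap_mk) of an open subset of XM or XN (conditions given by continuous functions), e.g. AMs = mk '' {x | x.1.2.1 ≠ (0,1)}. Cover of MM: every point is mk x (mk_surj);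
if x.1.2.1 = (0,1) then s = 1 > 0. Cover of NN: if z = x.1.2.2 = 0 then sq (x.1.2.1) = 1 so x.1.2.1 ≠ 0. ANs ⊆ CNs is clear. (continuous_herm, continuous_jm are in Alg.)
-/

set_option autoImplicit false

namespace Pool.Agent.Helper965_Rud

open scoped ComplexConjugate unitInterval
open Pool.Agent.Helper534.LS (HH hmap sub inl inr delta)

noncomputable section

theorem openS_img {X : Type} [TopologicalSpace X] [GSp X] (P : X → Prop) (hP : IsOpen {x | P x})
    (s : Set (Orb X)) (hs : s = {p | ∃ x : X, p = mk x ∧ P x}) : IsOpen s := by
  have : s = mk '' {x | P x} := by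
    rw [hs]
    ext p
    constructor
    · rintro ⟨x, rfl, hx⟩
      exact ⟨x, hx, rfl⟩
    · rintro ⟨x, hx, rfl⟩
      exact ⟨x, rfl, hx⟩
  rw [this]
  exact isOpenMap_mk _ hP

/-- TARGET -/
theorem openS : S_open := by
  have hM : Continuous fun x : XM => x.1 := continuous_subtype_val
  have hN : Continuous fun x : XN => x.1 := continuous_subtype_val
  have hy : Continuous fun x : XM => x.1.2.1 := continuous_fst.comp (continuous_snd.comp hM)
  have hz : Continuous fun x : XN => x.1.2.2 := continuous_snd.comp (continuous_snd.comp hN)
  refine ⟨openS_img (fun x : XM => x.1.2.1 ≠ (0, 1)) ?_ _ rfl,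
    openS_img (fun x : XM => 0 < x.1.2.1.2) ?_ _ rfl,
    openS_img (fun x : XN => x.1.2.2 ≠ 0) ?_ _ rfl,
    openS_img (fun x : XN => x.1.2.1 ≠ 0) ?_ _ rfl,
    openS_img (fun x : XN => x.1.2.2 ≠ 0 ∨ 0 < (herm x.1.2.1 (jm x.1.1.1)).re) ?_ _ rfl,
    ?_, ?_, ?_⟩
  · exact isOpen_ne_fun hy continuous_const
  · exact isOpen_lt continuous_const (continuous_snd.comp hy)
  · exact isOpen_ne_fun hz continuous_const
  · exact isOpen_ne_fun continuous_frame_c continuous_const
  · exact (isOpen_ne_fun hz continuous_const).union (isOpen_lt continuous_const
      (Complex.continuous_re.comp (continuous_herm continuous_frame_c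
        (continuous_jm continuous_frame_a))))
  · intro p
    obtain ⟨x, rfl⟩ := mk_surj p
    by_cases h : x.1.2.1 = (0, 1)
    · right
      exact ⟨x, rfl, by rw [h]; exact one_pos⟩
    · left
      exact ⟨x, rfl, h⟩
  · intro p
    obtain ⟨x, rfl⟩ := mk_surj p
    by_cases h : x.1.2.2 = 0
    · right
      refine ⟨x, rfl, fun hc => ?_⟩
      obtain ⟨-, h2, -⟩ := x.2
      rw [hc, h, sq_zero, norm_zero] at h2
      norm_num at h2
    · left
      exact ⟨x, rfl, h⟩
  · rintro p ⟨x, rfl, hx⟩
    exact ⟨x, rfl, Or.inl hx⟩

end

end Pool.Agent.Helper965_Rud
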