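import Pool.Agent.Helper965_Rud.Stmts2

/-!
JOB orb (MP_89fcdb_gt, owner helper965; disproof of a conjecture of Rudyak).
Setup: git fetch in outputs/live, copy Pool/Agent/Helper965_Rud/*.lean from origin/main (and Pool/Agent/Helper534/LS/*.lean)
to the same paths under /workdir/pool/Pool/Agent/, then `lake build` the modules imported here. Check with `lake env lean <file>`.
Helper965_Rud: Defs, Alg (algebra lemmas: herm_*, sq_*, rm, cm, jm, cp, lc), Basic (XN, XM, compactness), Stmts, StmtsTop, Stmts2 (the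
propositions S_...). The hypotheses S_... of the target are proved by other jobs: just use them.
Return the WHOLE file with the target proved (no sorry, no axiom, no native_decide; keep the name and the statement of the target).
Auxiliary lemmas: before the target, in the namespace orb_aux (open it before the target) or with names starting with orb_ .
Avoid straight double quotes and the words forbidden by RULES.md. If the statement is false or something is missing, say so in the note
(status 'problem') with the reason. The final path of the file is Pool/Agent/Helper965_Rud/P_orb.lean .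

PROOF. Induction on n, both statements together for fixed Y. n = 0: BB Y 0 0 is everything (a vector of SH 1 has a nonzero coordinate), so by h6 Orb (Y × SH 1) is homeomorphic to Y × (Fin 0 → Hq), i.e. to Y; h1.
(d + 4 * 0 = d.) Step n → n+1: X = Orb (Y × SH (n+2)) is the union of the open sets U = BB Y (n+1) (Fin.last _) and V = VB Y n (a unit vector has a nonzero coordinate: Fin.lastCases). U ≃ₜ Y × (Fin (n+1) → Hq) (h6)
is homotopy equivalent to Y, V to Orb (Y × SH (n+1)) (h7), U ∩ V to Y × SH (n+1) (h8) hence to Y × Sp (4n+3) (h5).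
Van: Van U (d+4n+4) from Van Y d, Van V (d+4n+4) from Van (Orb (Y × SH (n+1))) (d+4n), Van (U ∩ V) (d+4n+3) from h4; so Van X (d+4n+4) by h2 (d + 4*(n+1) = (d+4n+3)+1).
Top: for j ≥ d+4n+3 we have j > d and j > d+4n so HH U j = 0 = HH V j; Top (U ∩ V) (d+(4n+3)) by h4 (0 < 4n+3), h5, h1; so Top X (d+4n+4) by h3 (0 < d+4n+3).
-/

set_option autoImplicit false

namespace Pool.Agent.Helper965_Rud

open scoped ComplexConjugate unitInterval
open Pool.Agent.Helper534.LS (HH hmap sub inl inr delta)

noncomputable section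

namespace orb_aux

theorem he_van (h1 : S_hinv) {X Y : Type} [TopologicalSpace X] [TopologicalSpace Y] (e : HE X Y)
    {d : ℕ} (h : Van Y d) : Van X d := by
  obtain ⟨e⟩ := e
  exact (h1 Y X e.invFun e.toFun e.right_inv e.left_inv d).1 h

theorem he_top (h1 : S_hinv) {X Y : Type} [TopologicalSpace X] [TopologicalSpace Y] (e : HE X Y)
    {d : ℕ} (h : Top Y d) : Top X d := by
  obtain ⟨e⟩ := e
  exact (h1 Y X e.invFun e.toFun e.right_inv e.left_inv d).2 h

theorem van_mono {X : Type} [TopologicalSpace X] {d e : ℕ} (h : Van X d) (hde : d ≤ e) :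
    Van X e := fun j hj => h j (by omega)

theorem he_prod (Y : Type) [TopologicalSpace Y] (n : ℕ) : HE (Y × (Fin n → Hq)) Y := by
  obtain ⟨e⟩ := ContractibleSpace.hequiv_unit (Fin n → Hq)
  refine HE.trans ⟨ContinuousMap.HomotopyEquiv.prodCongr (ContinuousMap.HomotopyEquiv.refl Y) e⟩ ?_
  exact HE.of_homeo (Homeomorph.prodPUnit Y)

theorem exists_ne {n : ℕ} (v : Fin n → Hq) (h : sq v = 1) : ∃ l, v l ≠ 0 := by
  by_contra hc
  push Not at hc
  have : sq v = 0 := Finset.sum_eq_zero fun i _ => by rw [hc i]; simp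
  rw [this] at h
  exact zero_ne_one h

theorem he_orb0 (h6 : S_triv2) (Y : Type) [TopologicalSpace Y] [GSp Y] :
    HE (Orb (Y × SH 1)) Y := by
  have hU : BB Y 0 0 = Set.univ := by
    ext p
    simp only [Set.mem_univ, iff_true]
    obtain ⟨x, rfl⟩ := Quotient.exists_rep p
    obtain ⟨l, hl⟩ := exists_ne x.2.1 x.2.2
    have hl0 : l = 0 := Fin.ext (by omega)
    rw [hl0] at hl
    exact ⟨x, rfl, hl⟩
  obtain ⟨-, e, -⟩ := h6 Y 0 0
  exact (HE.of_homeo (((Homeomorph.Set.univ _).symm.trans (Homeomorph.setCongr hU.symm)).trans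
    e)).trans (he_prod Y 0)

theorem cover (Y : Type) [TopologicalSpace Y] [GSp Y] (n : ℕ) (p : Orb (Y × SH (n + 2))) :
    p ∈ BB Y (n + 1) (Fin.last (n + 1)) ∨ p ∈ VB Y n := by
  obtain ⟨x, rfl⟩ := Quotient.exists_rep p
  obtain ⟨l, hl⟩ := exists_ne x.2.1 x.2.2
  revert hl
  refine Fin.lastCases (fun hl => Or.inl ⟨x, rfl, hl⟩) (fun i hl => Or.inr ⟨x, rfl, i, hl⟩) l

end orb_aux

open orb_aux

/-- TARGET -/
theorem orb (h1 : S_hinv) (h2 : S_mvVan) (h3 : S_mvTop) (h4 : S_sph) (h5 : S_SH) (h6 : S_triv2)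
    (h7 : S_orbV) (h8 : S_orbUV) : S_orb := by
  intro Y _ _ n d
  induction n with
  | zero =>
    exact ⟨fun h => he_van h1 (he_orb0 h6 Y) h, fun h => he_top h1 (he_orb0 h6 Y) h⟩
  | succ n ih =>
    have hUo : IsOpen (BB Y (n + 1) (Fin.last (n + 1))) := (h6 Y (n + 1) (Fin.last (n + 1))).1
    have hUe : HE ↥(BB Y (n + 1) (Fin.last (n + 1))) Y := by
      obtain ⟨-, e, -⟩ := h6 Y (n + 1) (Fin.last (n + 1))
      exact (HE.of_homeo e).trans (he_prod Y (n + 1))
    obtain ⟨hVo, hVe⟩ := h7 Y n
    have hI : HE ↥(BB Y (n + 1) (Fin.last (n + 1)) ∩ VB Y n) (Y × Sp (4 * n + 3)) := by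
      obtain ⟨e⟩ := h5 n
      exact (h8 Y n).trans (HE.of_homeo ((Homeomorph.refl Y).prodCongr e))
    have hd : d + 4 * (n + 1) = (d + (4 * n + 3)) + 1 := by omega
    rw [hd]
    constructor
    · intro h
      refine h2 _ _ _ hUo hVo (cover Y n) _ ?_ ?_ ?_
      · exact van_mono (he_van h1 hUe h) (by omega)
      · exact van_mono (he_van h1 hVe (ih.1 h)) (by omega)
      · exact he_van h1 hI ((h4 Y d (4 * n + 3)).1 h)
    · intro h
      refine h3 _ _ _ hUo hVo (cover Y n) _ (by omega) ?_ ?_
      · intro j hj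
        exact ⟨he_van h1 hUe h.1 j (by omega), he_van h1 hVe (ih.1 h.1) j (by omega)⟩
      · exact he_top h1 hI ((h4 Y d (4 * n + 3)).2 h (by omega))

end

end Pool.Agent.Helper965_Rud
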