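import Pool.Agent.Helper965_Rud.Stmts2

/-!
JOB orbUV (MP_89fcdb_gt, owner helper965; disproof of a conjecture of Rudyak).
Setup: git fetch in outputs/live, copy Pool/Agent/Helper965_Rud/*.lean from origin/main (and Pool/Agent/Helper534/LS/*.lean)
to the same paths under /workdir/pool/Pool/Agent/, then `lake build` the modules imported here. Check with `lake env lean <file>`.
Helper965_Rud: Defs, Alg (algebra lemmas: herm_*, sq_*, rm, cm, jm, cp, lc), Basic (XN, XM, compactness), Stmts, StmtsTop, Stmts2 (the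
propositions S_...). The hypotheses S_... of the target are proved by other jobs: just use them.
Return the WHOLE file with the target proved (no sorry, no axiom, no native_decide; keep the name and the statement of the target).
Auxiliary lemmas: before the target, in the namespace orbUV_aux (open it before the target) or with names starting with orbUV_ .
Avoid straight double quotes and the words forbidden by RULES.md. If the statement is false or something is missing, say so in the note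
(status 'problem') with the reason. The final path of the file is Pool/Agent/Helper965_Rud/P_orbUV.lean .

PROOF. Let e be the homeomorphism of h for Y, n+1, l = Fin.last (n+1): BB ≃ₜ Y × (Fin (n+1) → Hq), with (e [y,w]).2 i = w_{i.castSucc} * w_last⁻¹ (Fin.succAbove_last). A point [y,w] of BB is in VB iff
some w_{i.castSucc} ≠ 0 iff (e [y,w]).2 ≠ 0 (w_last ≠ 0; VB is stated with an existential representative, but the condition is invariant under the action: x.2.1 i * g ≠ 0).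
So BB ∩ VB is homeomorphic to Y × {u : Fin (n+1) → Hq // u ≠ 0} and this is homotopy equivalent to Y × SH (n+1) by u ↦ u / sqrt (sq u), SH ⊂ {u ≠ 0}, and the segment homotopy (1-t) u + t u/|u| = (positive) u.
-/

set_option autoImplicit false

namespace Pool.Agent.Helper965_Rud

open scoped ComplexConjugate unitInterval
open Pool.Agent.Helper534.LS (HH hmap sub inl inr delta)

noncomputable section


namespace orbUV_aux

variable {Y : Type} [TopologicalSpace Y] [GSp Y]

theorem bb_iff {n : ℕ} {l : Fin (n + 1)} (x : Y × SH (n + 1)) :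
    mk x ∈ BB Y n l ↔ x.2.1 l ≠ 0 := by
  constructor
  · rintro ⟨x', h, h'⟩
    obtain ⟨g, rfl⟩ := mk_eq_iff.1 h
    intro h0
    apply h'
    show x.2.1 l * (g : Hq) = 0
    rw [h0, zero_mul]
  · intro h
    exact ⟨x, rfl, h⟩

theorem vb_iff {n : ℕ} (x : Y × SH (n + 2)) :
    mk x ∈ VB Y n ↔ ∃ i : Fin (n + 1), x.2.1 i.castSucc ≠ 0 := by
  constructor
  · rintro ⟨x', h, i, h'⟩
    obtain ⟨g, rfl⟩ := mk_eq_iff.1 h
    refine ⟨i, ?_⟩
    intro h0
    apply h'
    show x.2.1 i.castSucc * (g : Hq) = 0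
    rw [h0, zero_mul]
  · rintro ⟨i, h⟩
    exact ⟨x, rfl, i, h⟩

theorem key {n : ℕ} (e : ↥(BB Y (n + 1) (Fin.last (n + 1))) ≃ₜ Y × (Fin (n + 1) → Hq))
    (he : ∀ (x : Y × SH (n + 2)) (h : mk x ∈ BB Y (n + 1) (Fin.last (n + 1))) (i : Fin (n + 1)),
      (e ⟨mk x, h⟩).2 i = x.2.1 ((Fin.last (n + 1)).succAbove i) * (x.2.1 (Fin.last (n + 1)))⁻¹)
    (p : ↥(BB Y (n + 1) (Fin.last (n + 1)))) : p.1 ∈ VB Y n ↔ (e p).2 ≠ 0 := by
  obtain ⟨p, hp⟩ := p
  obtain ⟨x, rfl⟩ := mk_surj p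
  have hl : x.2.1 (Fin.last (n + 1)) ≠ 0 := (bb_iff x).1 hp
  show mk x ∈ VB Y n ↔ _
  rw [vb_iff, Function.ne_iff]
  refine exists_congr fun i => ?_
  rw [he x hp i, Fin.succAbove_last, Pi.zero_apply]
  constructor
  · intro h
    exact mul_ne_zero h (inv_ne_zero hl)
  · intro h h0
    apply h
    rw [h0, zero_mul]

/-- the homeomorphism of the intersection with a product -/
def homeo {n : ℕ} (e : ↥(BB Y (n + 1) (Fin.last (n + 1))) ≃ₜ Y × (Fin (n + 1) → Hq))
    (he : ∀ p : ↥(BB Y (n + 1) (Fin.last (n + 1))), p.1 ∈ VB Y n ↔ (e p).2 ≠ 0) :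
    ↥(BB Y (n + 1) (Fin.last (n + 1)) ∩ VB Y n) ≃ₜ Y × {u : Fin (n + 1) → Hq // u ≠ 0} where
  toFun p := ((e ⟨p.1, p.2.1⟩).1, ⟨(e ⟨p.1, p.2.1⟩).2, (he ⟨p.1, p.2.1⟩).1 p.2.2⟩)
  invFun q := ⟨(e.symm (q.1, q.2.1)).1, (e.symm (q.1, q.2.1)).2,
    (he (e.symm (q.1, q.2.1))).2 (by rw [e.apply_symm_apply]; exact q.2.2)⟩
  left_inv p := by
    apply Subtype.ext
    show (e.symm ((e ⟨p.1, p.2.1⟩).1, (e ⟨p.1, p.2.1⟩).2)).1 = p.1
    rw [Prod.mk.eta, e.symm_apply_apply]
  right_inv q := by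
    obtain ⟨y, u, hu⟩ := q
    have h : e (⟨(e.symm (y, u)).1, (e.symm (y, u)).2⟩ : ↥(BB Y (n + 1) (Fin.last (n + 1)))) =
        (y, u) := e.apply_symm_apply (y, u)
    refine Prod.ext ?_ (Subtype.ext ?_)
    · show (e (⟨(e.symm (y, u)).1, (e.symm (y, u)).2⟩ :
        ↥(BB Y (n + 1) (Fin.last (n + 1))))).1 = y
      rw [h]
    · show (e (⟨(e.symm (y, u)).1, (e.symm (y, u)).2⟩ :
        ↥(BB Y (n + 1) (Fin.last (n + 1))))).2 = u
      rw [h]
  continuous_toFun := by
    have h1 : Continuous fun p : ↥(BB Y (n + 1) (Fin.last (n + 1)) ∩ VB Y n) =>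
        e (⟨p.1, p.2.1⟩ : ↥(BB Y (n + 1) (Fin.last (n + 1)))) :=
      e.continuous.comp (Continuous.subtype_mk continuous_subtype_val _)
    exact (continuous_fst.comp h1).prodMk (Continuous.subtype_mk (continuous_snd.comp h1) _)
  continuous_invFun := by
    refine Continuous.subtype_mk ?_ _
    exact continuous_subtype_val.comp (e.symm.continuous.comp
      (continuous_fst.prodMk (continuous_subtype_val.comp continuous_snd)))

theorem sqrt_pos' {m : ℕ} (u : {u : Fin m → Hq // u ≠ 0}) : 0 < Real.sqrt (sq u.1) :=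
  Real.sqrt_pos.2 (sq_pos u.2)

theorem rm_ne_zero {m : ℕ} {r : ℝ} (hr : r ≠ 0) {u : Fin m → Hq} (hu : u ≠ 0) : rm r u ≠ 0 := by
  intro h
  have h1 : sq (rm r u) = 0 := by rw [h, sq_zero]
  rw [sq_rm] at h1
  rcases mul_eq_zero.1 h1 with h2 | h2
  · exact hr (pow_eq_zero_iff (two_ne_zero)|>.1 h2)
  · exact hu (sq_eq_zero_iff.1 h2)

/-- normalisation of a nonzero vector -/
def nrm {m : ℕ} (u : {u : Fin m → Hq // u ≠ 0}) : SH m :=
  ⟨rm (Real.sqrt (sq u.1))⁻¹ u.1, by
    rw [sq_rm, inv_pow, Real.sq_sqrt (sq_nonneg' u.1)]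
    exact inv_mul_cancel₀ (sq_pos u.2).ne'⟩

theorem continuous_inv_sqrt {m : ℕ} :
    Continuous fun u : {u : Fin m → Hq // u ≠ 0} => (Real.sqrt (sq u.1))⁻¹ :=
  (Real.continuous_sqrt.comp (continuous_sq.comp continuous_subtype_val)).inv₀
    fun u => (sqrt_pos' u).ne'

theorem continuous_nrm {m : ℕ} : Continuous (nrm : {u : Fin m → Hq // u ≠ 0} → SH m) :=
  Continuous.subtype_mk (continuous_rm continuous_inv_sqrt continuous_subtype_val) _

/-- the inclusion of the sphere -/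
def inc {m : ℕ} (u : SH m) : {u : Fin m → Hq // u ≠ 0} := ⟨u.1, by
  intro h
  have h1 := u.2
  rw [h, sq_zero] at h1
  exact zero_ne_one h1⟩

theorem continuous_inc {m : ℕ} : Continuous (inc : SH m → {u : Fin m → Hq // u ≠ 0}) :=
  Continuous.subtype_mk continuous_subtype_val _

theorem nrm_inc {m : ℕ} (u : SH m) : nrm (inc u) = u := by
  apply Subtype.ext
  show rm (Real.sqrt (sq u.1))⁻¹ u.1 = u.1
  have h1 : sq u.1 = 1 := u.2
  rw [h1, Real.sqrt_one, inv_one, rm_one]

theorem coef_pos {m : ℕ} (t : I) (u : {u : Fin m → Hq // u ≠ 0}) :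
    0 < (1 - (t : ℝ)) * (Real.sqrt (sq u.1))⁻¹ + t := by
  have h := inv_pos.2 (sqrt_pos' u)
  have h0 := t.2.1
  have h1 := t.2.2
  rcases eq_or_lt_of_le h0 with h2 | h2
  · rw [← h2]; simpa using h
  · have : 0 ≤ (1 - (t : ℝ)) * (Real.sqrt (sq u.1))⁻¹ := mul_nonneg (by linarith) h.le
    linarith

/-- normalisation on products -/
def toF (Y : Type) [TopologicalSpace Y] (m : ℕ) :
    C(Y × {u : Fin m → Hq // u ≠ 0}, Y × SH m) :=
  ⟨fun q => (q.1, nrm q.2), continuous_fst.prodMk (continuous_nrm.comp continuous_snd)⟩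

/-- inclusion on products -/
def inF (Y : Type) [TopologicalSpace Y] (m : ℕ) :
    C(Y × SH m, Y × {u : Fin m → Hq // u ≠ 0}) :=
  ⟨fun q => (q.1, inc q.2), continuous_fst.prodMk (continuous_inc.comp continuous_snd)⟩

/-- the homotopy -/
def htp (Y : Type) [TopologicalSpace Y] (m : ℕ) :
    ((inF Y m).comp (toF Y m)).Homotopy (ContinuousMap.id (Y × {u : Fin m → Hq // u ≠ 0})) where
  toFun q := (q.2.1, ⟨rm ((1 - (q.1 : ℝ)) * (Real.sqrt (sq q.2.2.1))⁻¹ + q.1) q.2.2.1,
    rm_ne_zero (coef_pos q.1 q.2.2).ne' q.2.2.2⟩)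
  continuous_toFun := by
    refine (continuous_fst.comp continuous_snd).prodMk (Continuous.subtype_mk ?_ _)
    refine continuous_rm ?_ (continuous_subtype_val.comp (continuous_snd.comp continuous_snd))
    have h1 : Continuous fun q : I × (Y × {u : Fin m → Hq // u ≠ 0}) => (q.1 : ℝ) :=
      continuous_subtype_val.comp continuous_fst
    have h2 : Continuous fun q : I × (Y × {u : Fin m → Hq // u ≠ 0}) =>
        (Real.sqrt (sq q.2.2.1))⁻¹ :=
      continuous_inv_sqrt.comp (continuous_snd.comp continuous_snd)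
    exact ((continuous_const.sub h1).mul h2).add h1
  map_zero_left := by
    rintro ⟨y, u⟩
    refine Prod.ext rfl (Subtype.ext ?_)
    show rm ((1 - ((0 : I) : ℝ)) * (Real.sqrt (sq u.1))⁻¹ + ((0 : I) : ℝ)) u.1 =
      rm (Real.sqrt (sq u.1))⁻¹ u.1
    congr 1
    simp
  map_one_left := by
    rintro ⟨y, u⟩
    refine Prod.ext rfl (Subtype.ext ?_)
    show rm ((1 - ((1 : I) : ℝ)) * (Real.sqrt (sq u.1))⁻¹ + ((1 : I) : ℝ)) u.1 = u.1
    have : (1 - ((1 : I) : ℝ)) * (Real.sqrt (sq u.1))⁻¹ + ((1 : I) : ℝ) = 1 := by simp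
    rw [this, rm_one]

theorem to_in (Y : Type) [TopologicalSpace Y] (m : ℕ) :
    (toF Y m).comp (inF Y m) = ContinuousMap.id _ := by
  ext1 q
  show (q.1, nrm (inc q.2)) = q
  rw [nrm_inc]

theorem he2 (Y : Type) [TopologicalSpace Y] (m : ℕ) :
    HE (Y × {u : Fin m → Hq // u ≠ 0}) (Y × SH m) :=
  ⟨{ toFun := toF Y m
     invFun := inF Y m
     left_inv := ⟨htp Y m⟩
     right_inv := by rw [to_in] }⟩

end orbUV_aux

open orbUV_aux

/-- TARGET -/
theorem orbUV (h : S_triv2) : S_orbUV := by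
  intro Y _ _ n
  obtain ⟨-, e, he⟩ := h Y (n + 1) (Fin.last (n + 1))
  exact (HE.of_homeo (homeo e (key e he))).trans (he2 Y (n + 1))

end

end Pool.Agent.Helper965_Rud
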