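import Pool.Agent.Helper965_Rud.Stmts2

/-!
JOB orbV (MP_89fcdb_gt, owner helper965; disproof of a conjecture of Rudyak).
Setup: git fetch in outputs/live, copy Pool/Agent/Helper965_Rud/*.lean from origin/main (and Pool/Agent/Helper534/LS/*.lean)
to the same paths under /workdir/pool/Pool/Agent/, then `lake build` the modules imported here. Check with `lake env lean <file>`.
Helper965_Rud: Defs, Alg (algebra lemmas: herm_*, sq_*, rm, cm, jm, cp, lc), Basic (XN, XM, compactness), Stmts, StmtsTop, Stmts2 (the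
propositions S_...). The hypotheses S_... of the target are proved by other jobs: just use them.
Return the WHOLE file with the target proved (no sorry, no axiom, no native_decide; keep the name and the statement of the target).
Auxiliary lemmas: before the target, in the namespace orbV_aux (open it before the target) or with names starting with orbV_ .
Avoid straight double quotes and the words forbidden by RULES.md. If the statement is false or something is missing, say so in the note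
(status 'problem') with the reason. The final path of the file is Pool/Agent/Helper965_Rud/P_orbV.lean .

PROOF. VB Y n is the image under the open map mk (isOpenMap_mk) of an open set, so open. Write w = (w', w_last) with w' = fun i : Fin (n+1) => w i.castSucc.
r : VB → Orb (Y × SH (n+1)), [y,w] ↦ [y, w'/|w'|], where |w'| = sqrt (sq w') > 0; i : Orb (Y × SH (n+1)) → VB, [y,v] ↦ [y, (v,0)] (Fin.snoc v 0). r ∘ i = id. i ∘ r is homotopic to the identity of VB by
[y,w], t ↦ [y, (w', (1-t) w_last) / norm]: at t = 0 this is [y,w], at t = 1 it is [y,(w'/|w'|, 0)]. All formulas are compatible with the action (sq_vm, vm) and in VB as w' ≠ 0.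
Continuity on quotients: mk restricted to the preimage of the open set VB is an open quotient map onto VB; products with the unit interval: (open quotient map) × id is an open quotient map
(IsOpenQuotientMap.prodMap). It may be convenient to prove one general lemma: if O is an open set of Orb X and F : {x : X // mk x ∈ O} × I → Z is continuous and constant on orbits, it descends to a
continuous map O × I → Z.
-/

set_option autoImplicit false

namespace Pool.Agent.Helper965_Rud

open scoped ComplexConjugate unitInterval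
open Pool.Agent.Helper534.LS (HH hmap sub inl inr delta)

noncomputable section

namespace orbV_aux

/-- the coordinates but the last -/
def wp {n : ℕ} (w : Fin (n + 2) → Hq) : Fin (n + 1) → Hq := fun i => w i.castSucc

/-- the normalised vector -/
def nz {m : ℕ} (w : Fin m → Hq) : Fin m → Hq := rm ((√(sq w))⁻¹) w

/-- one more coordinate -/
def sn {m : ℕ} (v : Fin m → Hq) (a : Hq) : Fin (m + 1) → Hq := Fin.snoc (α := fun _ => Hq) v a

theorem sn_castSucc {m : ℕ} (v : Fin m → Hq) (a : Hq) (i : Fin m) : sn v a i.castSucc = v i :=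
  Fin.snoc_castSucc (α := fun _ => Hq) a v i

theorem sn_last {m : ℕ} (v : Fin m → Hq) (a : Hq) : sn v a (Fin.last m) = a :=
  Fin.snoc_last (α := fun _ => Hq) a v

theorem sn_vm {m : ℕ} (v : Fin m → Hq) (a : Hq) (g : Sp1) :
    vm (sn v a) g = sn (vm v g) (a * (g : Hq)) := by
  funext i
  refine Fin.lastCases ?_ (fun i => ?_) i
  · rw [vm_apply, sn_last, sn_last]
  · rw [vm_apply, sn_castSucc, sn_castSucc, vm_apply]

theorem sq_sn {m : ℕ} (v : Fin m → Hq) (a : Hq) : sq (sn v a) = sq v + ‖a‖ ^ 2 := by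
  unfold sq
  rw [Fin.sum_univ_castSucc]
  simp only [sn_castSucc, sn_last]

theorem sq_sn0 {m : ℕ} {v : Fin m → Hq} (h : sq v = 1) : sq (sn v 0) = 1 := by
  rw [sq_sn, h]
  simp

theorem rm_sn_zero {m : ℕ} (r : ℝ) (v : Fin m → Hq) : rm r (sn v 0) = sn (rm r v) 0 := by
  funext i
  refine Fin.lastCases ?_ (fun i => ?_) i
  · rw [rm_apply, sn_last, sn_last, mul_zero]
  · rw [rm_apply, sn_castSucc, sn_castSucc, rm_apply]

theorem continuous_sn {X : Type} [TopologicalSpace X] {m : ℕ} {v : X → Fin m → Hq} {a : X → Hq}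
    (hv : Continuous v) (ha : Continuous a) : Continuous fun x => sn (v x) (a x) := by
  refine continuous_pi fun i => ?_
  refine Fin.lastCases ?_ (fun i => ?_) i
  · simp only [sn_last]
    exact ha
  · simp only [sn_castSucc]
    exact (continuous_apply i).comp hv

theorem wp_sn {n : ℕ} (v : Fin (n + 1) → Hq) (a : Hq) : wp (sn v a) = v := by
  funext i
  exact sn_castSucc v a i

theorem wp_vm {n : ℕ} (w : Fin (n + 2) → Hq) (g : Sp1) : wp (vm w g) = vm (wp w) g := rfl

theorem wp_rm {n : ℕ} (r : ℝ) (w : Fin (n + 2) → Hq) : wp (rm r w) = rm r (wp w) := rfl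

theorem continuous_wp {X : Type} [TopologicalSpace X] {n : ℕ} {w : X → Fin (n + 2) → Hq}
    (hw : Continuous w) : Continuous fun x => wp (w x) :=
  continuous_pi fun i => (continuous_apply i.castSucc).comp hw

theorem sn_wp {n : ℕ} (w : Fin (n + 2) → Hq) : sn (wp w) (w (Fin.last (n + 1))) = w := by
  funext i
  refine Fin.lastCases ?_ (fun i => ?_) i
  · rw [sn_last]
  · rw [sn_castSucc, wp]

theorem sqrt_ne {m : ℕ} {w : Fin m → Hq} (h : w ≠ 0) : √(sq w) ≠ 0 :=
  (Real.sqrt_pos.2 (sq_pos h)).ne'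

theorem sq_nz {m : ℕ} {w : Fin m → Hq} (h : w ≠ 0) : sq (nz w) = 1 := by
  rw [nz, sq_rm, inv_pow, Real.sq_sqrt (sq_nonneg' w), inv_mul_cancel₀ (sq_pos h).ne']

theorem nz_of_one {m : ℕ} {w : Fin m → Hq} (h : sq w = 1) : nz w = w := by
  rw [nz, h, Real.sqrt_one, inv_one, rm_one]

theorem nz_vm {m : ℕ} (w : Fin m → Hq) (g : Sp1) : nz (vm w g) = vm (nz w) g := by
  rw [nz, sq_vm, nz, vm_rm]

theorem rm_ne {m : ℕ} {r : ℝ} {w : Fin m → Hq} (hr : r ≠ 0) (h : w ≠ 0) : rm r w ≠ 0 := by
  intro h'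
  have h1 := sq_rm r w
  rw [h', sq_zero] at h1
  exact (mul_pos (by positivity) (sq_pos h)).ne h1

theorem vm_ne {m : ℕ} {w : Fin m → Hq} (h : w ≠ 0) (g : Sp1) : vm w g ≠ 0 := by
  intro h'
  apply h
  rw [← sq_eq_zero_iff, ← sq_vm w g, h', sq_zero]

theorem continuous_nz {X : Type} [TopologicalSpace X] {m : ℕ} {w : X → Fin m → Hq}
    (hw : Continuous w) (h : ∀ x, w x ≠ 0) : Continuous fun x => nz (w x) := by
  refine continuous_rm ?_ hw
  exact (Real.continuous_sqrt.comp (continuous_sq.comp hw)).inv₀ fun x => sqrt_ne (h x)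

theorem sn_ne {n : ℕ} {v : Fin (n + 1) → Hq} (h : v ≠ 0) (a : Hq) : sn v a ≠ 0 := by
  intro h'
  apply h
  rw [← wp_sn v a, h']
  rfl

theorem wp_nz_sn {n : ℕ} {v : Fin (n + 1) → Hq} (h : v ≠ 0) (a : Hq) : wp (nz (sn v a)) ≠ 0 := by
  rw [nz, wp_rm, wp_sn]
  exact rm_ne (inv_ne_zero (sqrt_ne (sn_ne h a))) h

variable {Y : Type} [TopologicalSpace Y] [GSp Y] {n : ℕ}

theorem mem_VB (x : Y × SH (n + 2)) : mk x ∈ VB Y n ↔ wp x.2.1 ≠ 0 := by
  constructor
  · rintro ⟨x', h, i, hi⟩ h0
    obtain ⟨g, rfl⟩ := mk_eq_iff.1 h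
    apply hi
    have h1 : wp (vm x.2.1 g) = 0 := by
      rw [wp_vm, h0]
      funext j
      simp
    exact congrFun h1 i
  · intro h
    obtain ⟨i, hi⟩ := Function.ne_iff.1 h
    exact ⟨x, rfl, i, hi⟩

theorem isOpen_VB : IsOpen (VB Y n) := by
  rw [← isQuotientMap_mk.isOpen_preimage]
  have h : (mk : Y × SH (n + 2) → _) ⁻¹' VB Y n = {x | wp x.2.1 ≠ 0} := by
    ext x
    exact mem_VB x
  rw [h]
  exact isOpen_ne_fun (continuous_wp (continuous_subtype_val.comp continuous_snd))
    continuous_const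

variable (Y n)

/-- the part of the total space over `VB` -/
abbrev W : Type := ↥((mk : Y × SH (n + 2) → Orb (Y × SH (n + 2))) ⁻¹' VB Y n)

/-- the projection -/
def pr : C(W Y n, ↥(VB Y n)) := ⟨(VB Y n).restrictPreimage mk, continuous_mk.restrictPreimage⟩

theorem pr_oq : IsOpenQuotientMap (pr Y n) :=
  ⟨(VB Y n).restrictPreimage_surjective mk_surj, (pr Y n).continuous,
    isOpenMap_mk.restrictPreimage (VB Y n)⟩

variable {Y n}

theorem W_ne (x : W Y n) : wp x.1.2.1 ≠ 0 := (mem_VB x.1).1 x.2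

theorem pr_eq {x x' : W Y n} (h : pr Y n x = pr Y n x') : ∃ g : Sp1, x'.1 = act x.1 g :=
  mk_eq_iff.1 (congrArg Subtype.val h)

theorem continuous_W : Continuous fun x : W Y n => x.1.2.1 :=
  continuous_subtype_val.comp (continuous_snd.comp continuous_subtype_val)

variable (Y n)

/-- upstairs version of the retraction -/
def r0 : C(W Y n, Orb (Y × SH (n + 1))) where
  toFun x := mk (x.1.1, ⟨nz (wp x.1.2.1), sq_nz (W_ne x)⟩)
  continuous_toFun := by
    refine continuous_mk.comp ?_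
    refine (continuous_fst.comp continuous_subtype_val).prodMk ?_
    exact Continuous.subtype_mk (continuous_nz (continuous_wp continuous_W) W_ne) _

theorem r0_fac : Function.FactorsThrough (r0 Y n) (pr Y n) := by
  intro x x' h
  obtain ⟨g, hg⟩ := pr_eq h
  show mk _ = mk _
  refine mk_eq_iff.2 ⟨g, ?_⟩
  have h1 : x'.1.1 = act x.1.1 g := congrArg (fun p => p.1) hg
  refine Prod.ext h1 (Subtype.ext ?_)
  have h2 : x'.1.2.1 = vm x.1.2.1 g := congrArg (fun p => p.2.1) hg
  show nz (wp x'.1.2.1) = vm (nz (wp x.1.2.1)) g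
  rw [h2, wp_vm, nz_vm]

/-- the retraction -/
def r : C(↥(VB Y n), Orb (Y × SH (n + 1))) := (pr_oq Y n).isQuotientMap.lift (r0 Y n) (r0_fac Y n)

theorem r_pr (x : W Y n) : r Y n (pr Y n x) = r0 Y n x :=
  congrArg (fun f => f x) ((pr_oq Y n).isQuotientMap.lift_comp (r0 Y n) (r0_fac Y n))

/-- the inclusion upstairs -/
def i0 : C(Y × SH (n + 1), Y × SH (n + 2)) where
  toFun x := (x.1, ⟨sn x.2.1 0, sq_sn0 x.2.2⟩)
  continuous_toFun := continuous_fst.prodMk (Continuous.subtype_mk
    (continuous_sn (continuous_subtype_val.comp continuous_snd) continuous_const) _)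

theorem i0_act (x : Y × SH (n + 1)) (g : Sp1) : i0 Y n (act x g) = act (i0 Y n x) g := by
  refine Prod.ext rfl (Subtype.ext ?_)
  show sn (vm x.2.1 g) 0 = vm (sn x.2.1 0) g
  rw [sn_vm, zero_mul]

theorem SH_ne {m : ℕ} (v : SH m) : v.1 ≠ 0 := by
  intro h
  have := v.2
  rw [h, sq_zero] at this
  exact zero_ne_one this

theorem i_mem (p : Orb (Y × SH (n + 1))) : omap (i0 Y n) (i0_act Y n) p ∈ VB Y n := by
  obtain ⟨x, rfl⟩ := mk_surj p
  rw [omap_mk, mem_VB]
  show wp (sn x.2.1 0) ≠ 0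
  rw [wp_sn]
  exact SH_ne x.2

/-- the inclusion -/
def i : C(Orb (Y × SH (n + 1)), ↥(VB Y n)) where
  toFun p := ⟨omap (i0 Y n) (i0_act Y n) p, i_mem Y n p⟩
  continuous_toFun := Continuous.subtype_mk (omap (i0 Y n) (i0_act Y n)).continuous _

theorem r_i : (r Y n).comp (i Y n) = ContinuousMap.id _ := by
  ext p
  obtain ⟨x, rfl⟩ := mk_surj p
  have h1 : i Y n (mk x) = pr Y n ⟨i0 Y n x, i_mem Y n (mk x)⟩ := Subtype.ext rfl
  show r Y n (i Y n (mk x)) = mk x
  rw [h1, r_pr]
  show mk _ = mk x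
  congr 1
  refine Prod.ext rfl (Subtype.ext ?_)
  show nz (wp (sn x.2.1 0)) = x.2.1
  rw [wp_sn, nz_of_one x.2.2]

/-- the homotopy upstairs -/
def h0 : C(W Y n × I, ↥(VB Y n)) where
  toFun p := ⟨mk (p.1.1.1, ⟨nz (sn (wp p.1.1.2.1)
    (((1 - (p.2 : ℝ) : ℝ) : Hq) * p.1.1.2.1 (Fin.last (n + 1)))), sq_nz (sn_ne (W_ne p.1) _)⟩),
    (mem_VB _).2 (wp_nz_sn (W_ne p.1) _)⟩
  continuous_toFun := by
    refine Continuous.subtype_mk (continuous_mk.comp ?_) _
    have hw : Continuous fun p : W Y n × I => p.1.1.2.1 := continuous_W.comp continuous_fst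
    refine (continuous_fst.comp (continuous_subtype_val.comp continuous_fst)).prodMk ?_
    refine Continuous.subtype_mk (continuous_nz (continuous_sn (continuous_wp hw) ?_)
      (fun p => sn_ne (W_ne p.1) _)) _
    refine Continuous.mul ?_ ((continuous_apply (Fin.last (n + 1))).comp hw)
    exact Quaternion.continuous_coe.comp
      (continuous_const.sub (continuous_subtype_val.comp continuous_snd))

/-- the projection times the interval -/
def pr1 : C(W Y n × I, ↥(VB Y n) × I) := ⟨Prod.map (pr Y n) id, (pr Y n).continuous.prodMap continuous_id⟩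

theorem pr1_oq : IsOpenQuotientMap (pr1 Y n) := (pr_oq Y n).prodMap IsOpenQuotientMap.id

theorem h0_fac : Function.FactorsThrough (h0 Y n) (pr1 Y n) := by
  rintro ⟨x, t⟩ ⟨x', t'⟩ h
  have ht : t = t' := congrArg Prod.snd h
  subst ht
  obtain ⟨g, hg⟩ := pr_eq (congrArg Prod.fst h)
  apply Subtype.ext
  show mk _ = mk _
  refine mk_eq_iff.2 ⟨g, ?_⟩
  have h1 : x'.1.1 = act x.1.1 g := congrArg (fun p => p.1) hg
  refine Prod.ext h1 (Subtype.ext ?_)
  have h2 : x'.1.2.1 = vm x.1.2.1 g := congrArg (fun p => p.2.1) hg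
  show nz (sn (wp x'.1.2.1) (((1 - (t : ℝ) : ℝ) : Hq) * x'.1.2.1 (Fin.last (n + 1)))) =
    vm (nz (sn (wp x.1.2.1) (((1 - (t : ℝ) : ℝ) : Hq) * x.1.2.1 (Fin.last (n + 1))))) g
  rw [h2, ← nz_vm, sn_vm, wp_vm, vm_apply, mul_assoc]

/-- the homotopy -/
def hh : C(↥(VB Y n) × I, ↥(VB Y n)) := (pr1_oq Y n).isQuotientMap.lift (h0 Y n) (h0_fac Y n)

theorem hh_pr (x : W Y n) (t : I) : hh Y n (pr Y n x, t) = h0 Y n (x, t) :=
  congrArg (fun f => f (x, t)) ((pr1_oq Y n).isQuotientMap.lift_comp (h0 Y n) (h0_fac Y n))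

theorem pr_surj (p : ↥(VB Y n)) : ∃ x : W Y n, pr Y n x = p := (pr_oq Y n).surjective p

theorem i_r : ((i Y n).comp (r Y n)).Homotopic (ContinuousMap.id _) := by
  apply ContinuousMap.Homotopic.symm
  refine ⟨⟨⟨fun q => hh Y n (q.2, q.1), (hh Y n).continuous.comp continuous_swap⟩, ?_, ?_⟩⟩
  · intro p
    obtain ⟨x, rfl⟩ := pr_surj Y n p
    show hh Y n (pr Y n x, 0) = pr Y n x
    rw [hh_pr]
    apply Subtype.ext
    show mk _ = mk x.1
    congr 1
    refine Prod.ext rfl (Subtype.ext ?_)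
    show nz (sn (wp x.1.2.1) (((1 - ((0 : I) : ℝ) : ℝ) : Hq) * x.1.2.1 (Fin.last (n + 1)))) = x.1.2.1
    have e : (((1 - ((0 : I) : ℝ) : ℝ) : Hq)) = 1 := by simp
    rw [e, one_mul, sn_wp, nz_of_one x.1.2.2]
  · intro p
    obtain ⟨x, rfl⟩ := pr_surj Y n p
    show hh Y n (pr Y n x, 1) = i Y n (r Y n (pr Y n x))
    rw [hh_pr, r_pr]
    apply Subtype.ext
    show mk _ = mk _
    congr 1
    refine Prod.ext rfl (Subtype.ext ?_)
    show nz (sn (wp x.1.2.1) (((1 - ((1 : I) : ℝ) : ℝ) : Hq) * x.1.2.1 (Fin.last (n + 1)))) =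
      sn (nz (wp x.1.2.1)) 0
    have e : (((1 - ((1 : I) : ℝ) : ℝ) : Hq)) = 0 := by simp
    rw [e, zero_mul, nz, rm_sn_zero, sq_sn, nz]
    simp

end orbV_aux

open orbV_aux in
/-- TARGET -/
theorem orbV : S_orbV := by
  intro Y _ _ n
  refine ⟨isOpen_VB, ⟨⟨r Y n, i Y n, i_r Y n, ?_⟩⟩⟩
  rw [r_i]

end

end Pool.Agent.Helper965_Rud
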