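import Pool.Agent.Helper965_Rud.Stmts2

/-!
JOB par12 (MP_89fcdb_gt, owner helper965; disproof of a conjecture of Rudyak).
Setup: git fetch in outputs/live, copy Pool/Agent/Helper965_Rud/*.lean from origin/main (and Pool/Agent/Helper534/LS/*.lean)
to the same paths under /workdir/pool/Pool/Agent/, then `lake build` the modules imported here. Check with `lake env lean <file>`.
Helper965_Rud: Defs, Alg (algebra lemmas: herm_*, sq_*, rm, cm, jm, cp, lc), Basic (XN, XM, compactness), Stmts, StmtsTop, Stmts2 (the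
propositions S_...). The hypotheses S_... of the target are proved by other jobs: just use them.
Return the WHOLE file with the target proved (no sorry, no axiom, no native_decide; keep the name and the statement of the target).
Auxiliary lemmas: before the target, in the namespace par12_aux (open it before the target) or with names starting with par12_ .
Avoid straight double quotes and the words forbidden by RULES.md. If the statement is false or something is missing, say so in the note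
(status 'problem') with the reason. The final path of the file is Pool/Agent/Helper965_Rud/P_par12.lean .

PROOF. (The two statements are symmetric under exchanging the indices 1 and 2; do a general lemma for an index i in {1,2} and i' the other one, or just write both.) Case a₁ ≠ 0. Parameters θ ↔ (a₀, a₂, c₂ : Hq) and (b, z, τ : ℂ), real dimension 12 + 6 = 18: a continuous linear equivalence L of EuclideanSpace ℝ (Fin 18) with (Fin 3 → Hq) × (Fin 3 → ℂ)
(ContinuousLinearEquiv.ofFinrankEq; Quaternion.finrank_eq_four). Unnormalised vectors: a = (a₀, 1, a₂), c = (0, c₁, c₂), where c₁ = lc γ + lc τ * jj, and the frame condition herm a c + b conj z = 0 reads cp(star c₁) + cp(a₂ star c₂) + b conj z = 0, cp (star c₁) = conj γ, so γ = conj(-(cp(a₂ star c₂) + b conj z)).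
P θ = ((a/n, b/n), (c/m, z/m)), n = sqrt(sq a + |b|^2) ≥ 1, m = sqrt(sq c + |z|^2); s = the θ with sq c + |z|^2 ≠ 0 (open condition, there P is C^1: polynomial functions, sqrt away from 0). E5a (P θ) 1 = 1/n ≠ 0. Covering: x = ((a,b),(c,z)) in XN, c₀ = 0, a₁ ≠ 0; g = star a₁/|a₁|, a₁ g = |a₁|; take θ ↔ (a₀ g/|a₁|, a₂ g/|a₁|, c₂ g; b/|a₁|, z, τ) where τ is the j-part
of c₁ g (any quaternion q is lc (cp q) + lc τ * jj, lemma eq_lc_add in Alg). The condition herm (a g/|a₁|) (c g) + (b/|a₁|) conj z = 0 forces γ = cp (c₁ g). So the unnormalised vectors are (a g, b)/|a₁| and (c g, z), and P θ = aN x.1 g since these have norms 1/|a₁| and 1. For a₂ ≠ 0 the same with the roles of 1 and 2 exchanged.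
-/

set_option autoImplicit false

namespace Pool.Agent.Helper965_Rud

open scoped ComplexConjugate unitInterval
open Pool.Agent.Helper534.LS (HH hmap sub inl inr delta)

noncomputable section

/-- the space of parameters `(a₀, a', c'; b, z, τ)` -/
abbrev par12_T : Type := (Hq × Hq × Hq) × (ℂ × ℂ × ℂ)

theorem par12_finrank : Module.finrank ℝ (EuclideanSpace ℝ (Fin 18)) = Module.finrank ℝ par12_T := by
  simp [par12_T, Module.finrank_prod, Quaternion.finrank_eq_four, Complex.finrank_real_complex]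

/-- linear coordinates -/
def par12_L : EuclideanSpace ℝ (Fin 18) ≃L[ℝ] par12_T := ContinuousLinearEquiv.ofFinrankEq par12_finrank

theorem par12_contDiff_cp : ContDiff ℝ 1 cp := by
  let l : Hq →ₗ[ℝ] ℂ :=
    { toFun := cp
      map_add' := cp_add
      map_smul' := fun r q => by apply Complex.ext <;> simp }
  exact l.toContinuousLinearMap.contDiff

theorem par12_contDiff_lc : ContDiff ℝ 1 lc := by
  let l : ℂ →ₗ[ℝ] Hq :=
    { toFun := lc
      map_add' := lc_add
      map_smul' := fun r q => by ext <;> simp }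
  exact l.toContinuousLinearMap.contDiff

theorem par12_contDiff_star : ContDiff ℝ 1 (fun q : Hq => star q) := by
  let l : Hq →ₗ[ℝ] Hq :=
    { toFun := fun q => star q
      map_add' := star_add
      map_smul' := fun r q => by ext <;> simp }
  exact l.toContinuousLinearMap.contDiff

theorem par12_contDiff_coe : ContDiff ℝ 1 (fun r : ℝ => (r : Hq)) := by
  let l : ℝ →ₗ[ℝ] Hq :=
    { toFun := fun r => (r : Hq)
      map_add' := fun r s => by ext <;> simp
      map_smul' := fun r q => by ext <;> simp }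
  exact l.toContinuousLinearMap.contDiff

/-- the square of the real coordinate -/
def par12_q (p : par12_T) : ℝ := 1 - (‖p.1.1‖ ^ 2 + ‖p.1.2.1‖ ^ 2 + ‖p.2.1‖ ^ 2)

/-- the real coordinate -/
def par12_r (p : par12_T) : ℝ := Real.sqrt (par12_q p)

/-- minus the remaining terms of the hermitian product -/
def par12_w (p : par12_T) : ℂ := cp (p.1.2.1 * star p.1.2.2) + p.2.1 * conj p.2.2.1

/-- the quaternion determined by the frame condition -/
def par12_C (p : par12_T) : Hq :=
  lc (-((par12_r p)⁻¹ • conj (par12_w p))) + lc p.2.2.2 * jj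

theorem par12_cd_r (p : par12_T) (hp : 0 < par12_q p) : ContDiffAt ℝ 1 par12_r p := by
  have h : ContDiff ℝ 1 par12_q := by
    unfold par12_q
    exact contDiff_const.sub (((contDiff_fst.fst.norm_sq ℝ).add
      (contDiff_fst.snd.fst.norm_sq ℝ)).add (contDiff_snd.fst.norm_sq ℝ))
  exact h.contDiffAt.sqrt hp.ne'

theorem par12_cd_w : ContDiff ℝ 1 par12_w := by
  unfold par12_w
  refine (par12_contDiff_cp.comp (contDiff_fst.snd.fst.mul
    (par12_contDiff_star.comp contDiff_fst.snd.snd))).add (contDiff_snd.fst.mul ?_)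
  exact Complex.conjCLE.contDiff.comp contDiff_snd.snd.fst

theorem par12_cd_C (p : par12_T) (hp : 0 < par12_q p) : ContDiffAt ℝ 1 par12_C p := by
  unfold par12_C
  have hr := par12_cd_r p hp
  have hr0 : par12_r p ≠ 0 := (Real.sqrt_pos.2 hp).ne'
  have h1 : ContDiffAt ℝ 1 (fun p : par12_T => -((par12_r p)⁻¹ • conj (par12_w p))) p :=
    ((hr.inv hr0).smul (Complex.conjCLE.contDiff.comp par12_cd_w).contDiffAt).neg
  exact (par12_contDiff_lc.contDiffAt.comp p h1).add
    (((par12_contDiff_lc.comp contDiff_snd.snd.snd).mul contDiff_const).contDiffAt)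

/-- parametrisation for the coordinate 1 -/
def par12_P1 (p : par12_T) : AN :=
  ((![p.1.1, (par12_r p : Hq), p.1.2.1], p.2.1), (![0, par12_C p, p.1.2.2], p.2.2.1))

/-- parametrisation for the coordinate 2 -/
def par12_P2 (p : par12_T) : AN :=
  ((![p.1.1, p.1.2.1, (par12_r p : Hq)], p.2.1), (![0, p.1.2.2, par12_C p], p.2.2.1))

theorem par12_cd_P1 (p : par12_T) (hp : 0 < par12_q p) : ContDiffAt ℝ 1 par12_P1 p := by
  have hr := par12_contDiff_coe.contDiffAt.comp p (par12_cd_r p hp)
  have hC := par12_cd_C p hp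
  unfold par12_P1
  refine ((contDiffAt_pi.2 fun i => ?_).prodMk contDiff_snd.fst.contDiffAt).prodMk
    ((contDiffAt_pi.2 fun i => ?_).prodMk contDiff_snd.snd.fst.contDiffAt)
  · fin_cases i
    · exact contDiff_fst.fst.contDiffAt
    · exact hr
    · exact contDiff_fst.snd.fst.contDiffAt
  · fin_cases i
    · exact contDiffAt_const
    · exact hC
    · exact contDiff_fst.snd.snd.contDiffAt

theorem par12_cd_P2 (p : par12_T) (hp : 0 < par12_q p) : ContDiffAt ℝ 1 par12_P2 p := by
  have hr := par12_contDiff_coe.contDiffAt.comp p (par12_cd_r p hp)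
  have hC := par12_cd_C p hp
  unfold par12_P2
  refine ((contDiffAt_pi.2 fun i => ?_).prodMk contDiff_snd.fst.contDiffAt).prodMk
    ((contDiffAt_pi.2 fun i => ?_).prodMk contDiff_snd.snd.fst.contDiffAt)
  · fin_cases i
    · exact contDiff_fst.fst.contDiffAt
    · exact contDiff_fst.snd.fst.contDiffAt
    · exact hr
  · fin_cases i
    · exact contDiffAt_const
    · exact contDiff_fst.snd.snd.contDiffAt
    · exact hC

/-- the covering property -/
theorem par12_cover (a0 a1 a2 c1 c2 : Hq) (b z : ℂ)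
    (hn : ‖a0‖ ^ 2 + ‖a1‖ ^ 2 + ‖a2‖ ^ 2 + ‖b‖ ^ 2 = 1) (ha : a1 ≠ 0)
    (hf : cp (a1 * star c1) + cp (a2 * star c2) + b * conj z = 0) :
    ∃ g : Sp1, 0 < par12_q ((a0 * g, a2 * g, c2 * g), (b, z, ⟨(c1 * g).imJ, (c1 * g).imK⟩)) ∧
      ((par12_r ((a0 * g, a2 * g, c2 * g), (b, z, ⟨(c1 * g).imJ, (c1 * g).imK⟩)) : ℝ) : Hq) =
        a1 * g ∧
      par12_C ((a0 * g, a2 * g, c2 * g), (b, z, ⟨(c1 * g).imJ, (c1 * g).imK⟩)) = c1 * g := by
  have hna : 0 < ‖a1‖ := norm_pos_iff.2 ha
  have hg : ‖(‖a1‖⁻¹ : ℝ) • star a1‖ = 1 := by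
    rw [norm_smul, norm_inv, norm_norm, Quaternion.norm_star]
    exact inv_mul_cancel₀ hna.ne'
  let g : Sp1 := ⟨(‖a1‖⁻¹ : ℝ) • star a1, by rw [mem_sphere_zero_iff_norm]; exact hg⟩
  have hgv : (g : Hq) = (‖a1‖⁻¹ : ℝ) • star a1 := rfl
  have hag : a1 * (g : Hq) = ((‖a1‖ : ℝ) : Hq) := by
    rw [hgv, mul_smul_comm, Quaternion.self_mul_star, Quaternion.normSq_eq_norm_mul_self,
      ← Quaternion.coe_smul, smul_eq_mul, inv_mul_cancel_left₀ hna.ne']
  have hq : par12_q ((a0 * g, a2 * g, c2 * g), (b, z, ⟨(c1 * g).imJ, (c1 * g).imK⟩)) =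
      ‖a1‖ ^ 2 := by
    unfold par12_q
    simp only [norm_mul, norm_sp1, mul_one]
    linarith
  have hr : par12_r ((a0 * g, a2 * g, c2 * g), (b, z, ⟨(c1 * g).imJ, (c1 * g).imK⟩)) = ‖a1‖ := by
    unfold par12_r
    rw [hq, Real.sqrt_sq hna.le]
  have hmul : ∀ u v : Hq, (u * (g : Hq)) * star (v * (g : Hq)) = u * star v := by
    intro u v
    rw [star_mul, mul_assoc, ← mul_assoc (g : Hq), sp1_mul_star, one_mul]
  refine ⟨g, ?_, ?_, ?_⟩
  · rw [hq]
    positivity
  · rw [hr, hag]
  · have h1 : cp (a1 * star c1) = (‖a1‖ : ℂ) * conj (cp (c1 * (g : Hq))) := by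
      rw [← hmul a1 c1, hag, ← lc_ofReal, cp_lc_mul, cp_star]
    have hw : par12_w ((a0 * g, a2 * g, c2 * g), (b, z, ⟨(c1 * g).imJ, (c1 * g).imK⟩)) =
        -((‖a1‖ : ℂ) * conj (cp (c1 * (g : Hq)))) := by
      unfold par12_w
      simp only [hmul]
      rw [← h1]
      linear_combination hf
    unfold par12_C
    rw [hr, hw]
    have h2 : -((‖a1‖⁻¹ : ℝ) • conj (-((‖a1‖ : ℂ) * conj (cp (c1 * (g : Hq)))))) =
        cp (c1 * (g : Hq)) := by
      rw [map_neg, map_mul, Complex.conj_ofReal, Complex.conj_conj, smul_neg, neg_neg,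
        Complex.real_smul, ← mul_assoc, ← Complex.ofReal_mul, inv_mul_cancel₀ hna.ne',
        Complex.ofReal_one, one_mul]
    rw [h2]
    exact (eq_lc_add _).symm

/-- TARGET -/
theorem par12 : S_par12 := by
  constructor
  · refine ⟨fun θ => par12_P1 (par12_L θ), {θ | 0 < par12_q (par12_L θ)}, ?_, ?_⟩
    · intro θ hθ
      refine ⟨(par12_cd_P1 _ hθ).comp θ par12_L.contDiff.contDiffAt, ?_⟩
      have h1 : E5a (par12_P1 (par12_L θ)) 1 = (par12_r (par12_L θ) : Hq) := rfl
      rw [h1]
      have h2 : par12_r (par12_L θ) ≠ 0 := (Real.sqrt_pos.2 hθ).ne'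
      intro h
      apply h2
      exact congrArg (fun q : Hq => q.re) h
    · rintro x ⟨hx, ha⟩
      obtain ⟨f1, f2, f3⟩ := x.2
      have hc0 : x.1.2.1 0 = 0 := hx
      have hn : ‖x.1.1.1 0‖ ^ 2 + ‖x.1.1.1 1‖ ^ 2 + ‖x.1.1.1 2‖ ^ 2 + ‖x.1.1.2‖ ^ 2 = 1 := by
        rw [← f1]
        simp only [sq, Fin.sum_univ_three]
      have hf : cp (x.1.1.1 1 * star (x.1.2.1 1)) + cp (x.1.1.1 2 * star (x.1.2.1 2)) +
          x.1.1.2 * conj x.1.2.2 = 0 := by
        rw [← f3]
        simp only [herm, Fin.sum_univ_three, hc0, star_zero, mul_zero, zero_add, cp_add]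
      obtain ⟨g, h1, h2, h3⟩ := par12_cover _ _ _ _ _ _ _ hn ha hf
      refine ⟨g, par12_L.symm ((x.1.1.1 0 * g, x.1.1.1 2 * g, x.1.2.1 2 * g),
        (x.1.1.2, x.1.2.2, ⟨(x.1.2.1 1 * g).imJ, (x.1.2.1 1 * g).imK⟩)), ?_, ?_⟩
      · simpa using h1
      · simp only [ContinuousLinearEquiv.apply_symm_apply]
        unfold par12_P1 aN
        rw [h2, h3]
        refine Prod.ext (Prod.ext (funext fun i => ?_) rfl) (Prod.ext (funext fun i => ?_) rfl)
        · fin_cases i <;> rfl
        · fin_cases i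
          · show (0 : Hq) = x.1.2.1 0 * (g : Hq)
            rw [hc0, zero_mul]
          · rfl
          · rfl
  · refine ⟨fun θ => par12_P2 (par12_L θ), {θ | 0 < par12_q (par12_L θ)}, ?_, ?_⟩
    · intro θ hθ
      refine ⟨(par12_cd_P2 _ hθ).comp θ par12_L.contDiff.contDiffAt, ?_⟩
      have h1 : E5a (par12_P2 (par12_L θ)) 2 = (par12_r (par12_L θ) : Hq) := rfl
      rw [h1]
      have h2 : par12_r (par12_L θ) ≠ 0 := (Real.sqrt_pos.2 hθ).ne'
      intro h
      apply h2
      exact congrArg (fun q : Hq => q.re) h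
    · rintro x ⟨hx, ha⟩
      obtain ⟨f1, f2, f3⟩ := x.2
      have hc0 : x.1.2.1 0 = 0 := hx
      have hn : ‖x.1.1.1 0‖ ^ 2 + ‖x.1.1.1 2‖ ^ 2 + ‖x.1.1.1 1‖ ^ 2 + ‖x.1.1.2‖ ^ 2 = 1 := by
        rw [← f1]
        simp only [sq, Fin.sum_univ_three]
        ring
      have hf : cp (x.1.1.1 2 * star (x.1.2.1 2)) + cp (x.1.1.1 1 * star (x.1.2.1 1)) +
          x.1.1.2 * conj x.1.2.2 = 0 := by
        rw [← f3]
        simp only [herm, Fin.sum_univ_three, hc0, star_zero, mul_zero, zero_add, cp_add]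
        ring
      obtain ⟨g, h1, h2, h3⟩ := par12_cover _ _ _ _ _ _ _ hn ha hf
      refine ⟨g, par12_L.symm ((x.1.1.1 0 * g, x.1.1.1 1 * g, x.1.2.1 1 * g),
        (x.1.1.2, x.1.2.2, ⟨(x.1.2.1 2 * g).imJ, (x.1.2.1 2 * g).imK⟩)), ?_, ?_⟩
      · simpa using h1
      · simp only [ContinuousLinearEquiv.apply_symm_apply]
        unfold par12_P2 aN
        rw [h2, h3]
        refine Prod.ext (Prod.ext (funext fun i => ?_) rfl) (Prod.ext (funext fun i => ?_) rfl)
        · fin_cases i <;> rfl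
        · fin_cases i
          · show (0 : Hq) = x.1.2.1 0 * (g : Hq)
            rw [hc0, zero_mul]
          · rfl
          · rfl

end

end Pool.Agent.Helper965_Rud
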