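import Pool.Agent.Helper965_Rud.Stmts2

set_option autoImplicit false

namespace Pool.Agent.Helper965_Rud

open scoped ComplexConjugate unitInterval
open Pool.Agent.Helper534.LS (HH hmap sub inl inr delta)

noncomputable section

namespace par34_aux

/-- the space of parameters -/
abbrev W : Type := (Hq × Hq × Hq) × (ℂ × ℂ × ℂ)

theorem finrank_W : Module.finrank ℝ W = 18 := by
  simp only [W, Module.finrank_prod, Quaternion.finrank_eq_four, Complex.finrank_real_complex]

theorem exists_L : Nonempty (EuclideanSpace ℝ (Fin 18) ≃L[ℝ] W) := by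
  refine ⟨ContinuousLinearEquiv.ofFinrankEq ?_⟩
  rw [finrank_W]
  simp

/-- `lc` as a continuous linear map -/
def lcL : ℂ →L[ℝ] Hq := LinearMap.toContinuousLinearMap
  { toFun := lc
    map_add' := lc_add
    map_smul' := by
      intro r z
      ext <;> simp }

/-- `cp` as a continuous linear map -/
def cpL : Hq →L[ℝ] ℂ := LinearMap.toContinuousLinearMap
  { toFun := cp
    map_add' := cp_add
    map_smul' := by
      intro r z
      apply Complex.ext <;> simp }

/-- `star` as a continuous linear map -/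
def stL : Hq →L[ℝ] Hq := LinearMap.toContinuousLinearMap
  { toFun := star
    map_add' := star_add
    map_smul' := by
      intro r z
      simp }

theorem lcL_apply (z : ℂ) : lcL z = lc z := rfl
theorem cpL_apply (z : Hq) : cpL z = cp z := rfl
theorem stL_apply (z : Hq) : stL z = star z := rfl

theorem cd_lc {E : Type} [NormedAddCommGroup E] [NormedSpace ℝ E] {f : E → ℂ}
    (hf : ContDiff ℝ 1 f) : ContDiff ℝ 1 fun x => lc (f x) := lcL.contDiff.comp hf

theorem cd_cp {E : Type} [NormedAddCommGroup E] [NormedSpace ℝ E] {f : E → Hq}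
    (hf : ContDiff ℝ 1 f) : ContDiff ℝ 1 fun x => cp (f x) := cpL.contDiff.comp hf

theorem cd_st {E : Type} [NormedAddCommGroup E] [NormedSpace ℝ E] {f : E → Hq}
    (hf : ContDiff ℝ 1 f) : ContDiff ℝ 1 fun x => star (f x) := stL.contDiff.comp hf

theorem cd_conj {E : Type} [NormedAddCommGroup E] [NormedSpace ℝ E] {f : E → ℂ}
    (hf : ContDiff ℝ 1 f) : ContDiff ℝ 1 fun x => conj (f x) :=
  Complex.conjCLE.contDiff.comp hf

theorem cd_sq {E : Type} [NormedAddCommGroup E] [NormedSpace ℝ E] {f : E → Fin 3 → Hq}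
    (hf : ContDiff ℝ 1 f) : ContDiff ℝ 1 fun x => sq (f x) := by
  unfold sq
  refine ContDiff.sum fun i _ => ?_
  exact (contDiff_norm_sq ℝ).comp ((contDiff_apply ℝ Hq i).comp hf)

/-- the coordinate of `a` fixed by the frame condition -/
def a1 (w : W) : Hq :=
  lc (-(cp (w.1.2.1 * star w.1.2.2) + w.2.1 * conj w.2.2.1)) + lc w.2.2.2 * jj

/-- the unnormalised vector `a` -/
def av (i : Fin 3) (w : W) : Fin 3 → Hq :=
  fun k => if k = 0 then w.1.1 else if k = i then a1 w else w.1.2.1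

/-- the unnormalised vector `c` -/
def cv (i : Fin 3) (w : W) : Fin 3 → Hq :=
  fun k => if k = 0 then 0 else if k = i then 1 else w.1.2.2

theorem cd_a1 : ContDiff ℝ 1 a1 := by
  unfold a1
  refine (cd_lc (ContDiff.neg (ContDiff.add (cd_cp (ContDiff.mul ?_ (cd_st ?_)))
    (ContDiff.mul ?_ (cd_conj ?_))))).add ((cd_lc ?_).mul contDiff_const) <;> fun_prop

theorem cd_av (i : Fin 3) : ContDiff ℝ 1 (av i) := by
  rw [contDiff_pi]
  intro k
  by_cases h0 : k = 0
  · have : (fun w : W => av i w k) = fun w => w.1.1 := by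
      funext w; simp [av, h0]
    rw [this]; fun_prop
  · by_cases h1 : k = i
    · have : (fun w : W => av i w k) = fun w => a1 w := by
        funext w; simp only [av]; rw [if_neg h0, if_pos h1]
      rw [this]; exact cd_a1
    · have : (fun w : W => av i w k) = fun w => w.1.2.1 := by
        funext w; simp only [av]; rw [if_neg h0, if_neg h1]
      rw [this]; fun_prop

theorem cd_cv (i : Fin 3) : ContDiff ℝ 1 (cv i) := by
  rw [contDiff_pi]
  intro k
  by_cases h0 : k = 0
  · have : (fun w : W => cv i w k) = fun w => 0 := by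
      funext w; simp [cv, h0]
    rw [this]; fun_prop
  · by_cases h1 : k = i
    · have : (fun w : W => cv i w k) = fun w => 1 := by
        funext w; simp only [cv]; rw [if_neg h0, if_pos h1]
      rw [this]; fun_prop
    · have : (fun w : W => cv i w k) = fun w => w.1.2.2 := by
        funext w; simp only [cv]; rw [if_neg h0, if_neg h1]
      rw [this]; fun_prop

/-- squared norm of the first vector -/
def na (i : Fin 3) (w : W) : ℝ := sq (av i w) + ‖w.2.1‖ ^ 2

/-- squared norm of the second vector -/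
def nc (i : Fin 3) (w : W) : ℝ := sq (cv i w) + ‖w.2.2.1‖ ^ 2

theorem cd_na (i : Fin 3) : ContDiff ℝ 1 (na i) := by
  unfold na
  exact (cd_sq (cd_av i)).add ((contDiff_norm_sq ℝ).comp (by fun_prop))

theorem cd_nc (i : Fin 3) : ContDiff ℝ 1 (nc i) := by
  unfold nc
  exact (cd_sq (cd_cv i)).add ((contDiff_norm_sq ℝ).comp (by fun_prop))

theorem nc_pos (i : Fin 3) (hi : i ≠ 0) (w : W) : 0 < nc i w := by
  have h1 : 0 < sq (cv i w) := by
    apply sq_pos
    intro h
    have h2 := congrFun h i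
    simp only [cv, Pi.zero_apply] at h2
    rw [if_neg hi, if_pos trivial] at h2
    exact one_ne_zero h2
  unfold nc
  positivity

/-- the parametrisation -/
def PW (i : Fin 3) (w : W) : AN :=
  ((Real.sqrt (na i w))⁻¹ • (av i w, w.2.1), (Real.sqrt (nc i w))⁻¹ • (cv i w, w.2.2.1))

theorem cd_PW (i : Fin 3) (hi : i ≠ 0) (w : W) (hw : na i w ≠ 0) : ContDiffAt ℝ 1 (PW i) w := by
  have hna : 0 < na i w := by
    refine lt_of_le_of_ne ?_ (Ne.symm hw)
    unfold na
    have := sq_nonneg' (av i w)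
    positivity
  have h1 : ContDiffAt ℝ 1 (fun x : W => (Real.sqrt (na i x))⁻¹) w :=
    ((cd_na i).contDiffAt.sqrt hw).inv (Real.sqrt_pos.2 hna).ne'
  have h2 : ContDiffAt ℝ 1 (fun x : W => (av i x, x.2.1)) w :=
    ((cd_av i).prodMk (by fun_prop)).contDiffAt
  have h3 : ContDiffAt ℝ 1 (fun x : W => (Real.sqrt (nc i x))⁻¹) w :=
    ((cd_nc i).contDiffAt.sqrt (nc_pos i hi w).ne').inv (Real.sqrt_pos.2 (nc_pos i hi w)).ne'
  have h4 : ContDiffAt ℝ 1 (fun x : W => (cv i x, x.2.2.1)) w :=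
    ((cd_cv i).prodMk (by fun_prop)).contDiffAt
  exact (h1.smul h2).prodMk (h3.smul h4)

theorem herm3 (A C : Fin 3 → Hq) (i i' : Fin 3) (hii : (i = 1 ∧ i' = 2) ∨ (i = 2 ∧ i' = 1))
    (h0 : C 0 = 0) : herm A C = cp (A i * star (C i)) + cp (A i' * star (C i')) := by
  unfold herm
  rw [cp_sum, Fin.sum_univ_three, h0]
  rcases hii with ⟨rfl, rfl⟩ | ⟨rfl, rfl⟩
  · simp
  · simp [add_comm]

theorem cp_smul (r : ℝ) (q : Hq) : cp (r • q) = (r : ℂ) * cp q := by
  apply Complex.ext <;> simp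

theorem key (i i' : Fin 3) (hii : (i = 1 ∧ i' = 2) ∨ (i = 2 ∧ i' = 1)) (A C : Fin 3 → Hq)
    (b z : ℂ) (r : ℝ) (hr : r ≠ 0) (h0 : C 0 = 0) (hC : C i = (r : Hq))
    (h : herm A C + b * conj z = 0) :
    cp (A i) = -(cp (A i' * star (r⁻¹ • C i')) + b * conj (r⁻¹ • z)) := by
  rw [herm3 A C i i' hii h0, hC] at h
  have h1 : cp (A i * star (r : Hq)) = cp (A i) * r := by
    rw [← lc_ofReal, cp_mul_star_lc, Complex.conj_ofReal]
  rw [h1] at h
  have h2 : star (r⁻¹ • C i') = r⁻¹ • star (C i') := by simp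
  rw [h2, mul_smul_comm, cp_smul]
  have h3 : conj (r⁻¹ • z) = (r : ℂ)⁻¹ * conj z := by
    rw [Complex.real_smul, map_mul, Complex.conj_ofReal, Complex.ofReal_inv]
  rw [h3, Complex.ofReal_inv]
  have hrc : (r : ℂ) ≠ 0 := by exact_mod_cast hr
  field_simp
  linear_combination h

theorem main (i i' : Fin 3) (hii : (i = 1 ∧ i' = 2) ∨ (i = 2 ∧ i' = 1)) (l : Fin 5)
    (hl : ∀ x : AN, E5a x l = x.2.1 i) : Par l {x | x ∈ ZZ ∧ x.1.2.1 i ≠ 0} := by
  obtain ⟨L⟩ := exists_L
  have hi : i ≠ 0 := by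
    rcases hii with ⟨rfl, rfl⟩ | ⟨rfl, rfl⟩ <;> decide
  refine ⟨fun θ => PW i (L θ), {θ | na i (L θ) ≠ 0}, ?_, ?_⟩
  · intro θ hθ
    refine ⟨(cd_PW i hi (L θ) hθ).comp θ L.contDiff.contDiffAt, ?_⟩
    rw [hl]
    have h1 : (PW i (L θ)).2.1 i = (Real.sqrt (nc i (L θ)))⁻¹ • (1 : Hq) := by
      show (Real.sqrt (nc i (L θ)))⁻¹ • cv i (L θ) i = _
      simp only [cv]
      rw [if_neg hi, if_pos trivial]
    rw [h1]
    exact smul_ne_zero (inv_ne_zero (Real.sqrt_pos.2 (nc_pos i hi _)).ne') one_ne_zero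
  · rintro ⟨⟨⟨a, b⟩, ⟨c, z⟩⟩, hx⟩ ⟨hZ, hci⟩
    obtain ⟨hx1, hx2, hx3⟩ := hx
    simp only at hx1 hx2 hx3
    have hc0 : c 0 = 0 := hZ
    have hci' : c i ≠ 0 := hci
    have hr0 : 0 < ‖c i‖ := norm_pos_iff.2 hci'
    -- the unit quaternion
    have hg : ‖‖c i‖⁻¹ • star (c i)‖ = 1 := by
      rw [norm_smul, norm_star, norm_inv, norm_norm, inv_mul_cancel₀ hr0.ne']
    let g : Sp1 := ⟨‖c i‖⁻¹ • star (c i), by simpa using hg⟩
    have hgv : (g : Hq) = ‖c i‖⁻¹ • star (c i) := rfl
    set r : ℝ := ‖c i‖ with hrdef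
    have hCi : vm c g i = (r : Hq) := by
      rw [vm_apply, hgv, mul_smul_comm, Quaternion.self_mul_star,
        Quaternion.normSq_eq_norm_mul_self, ← hrdef]
      rw [← Quaternion.coe_smul]
      congr 1
      rw [smul_eq_mul]
      field_simp
    have hC0 : vm c g 0 = 0 := by rw [vm_apply, hc0, zero_mul]
    have hherm : herm (vm a g) (vm c g) + b * conj z = 0 := by rw [herm_vm]; exact hx3
    have hkey := key i i' hii (vm a g) (vm c g) b z r hr0.ne' hC0 hCi hherm
    let w : W := ((vm a g 0, vm a g i', r⁻¹ • vm c g i'),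
      (b, r⁻¹ • z, ⟨(vm a g i).imJ, (vm a g i).imK⟩))
    have hav : av i w = vm a g := by
      funext k
      have ha1 : a1 w = vm a g i := by
        show lc (-(cp (vm a g i' * star (r⁻¹ • vm c g i')) + b * conj (r⁻¹ • z))) +
          lc ⟨(vm a g i).imJ, (vm a g i).imK⟩ * jj = vm a g i
        rw [← hkey]
        exact (eq_lc_add _).symm
      show (if k = 0 then vm a g 0 else if k = i then a1 w else vm a g i') = vm a g k
      rw [ha1]
      by_cases h0 : k = 0
      · rw [if_pos h0, h0]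
      · rw [if_neg h0]
        by_cases h1 : k = i
        · rw [if_pos h1, h1]
        · rw [if_neg h1]
          congr 1
          rcases hii with ⟨rfl, rfl⟩ | ⟨rfl, rfl⟩ <;> (revert h0 h1; revert k; decide)
    have hcv : cv i w = r⁻¹ • vm c g := by
      funext k
      show (if k = 0 then 0 else if k = i then 1 else r⁻¹ • vm c g i') = r⁻¹ • vm c g k
      by_cases h0 : k = 0
      · rw [if_pos h0, h0, hC0, smul_zero]
      · rw [if_neg h0]
        by_cases h1 : k = i
        · rw [if_pos h1, h1, hCi, ← Quaternion.coe_smul, smul_eq_mul, inv_mul_cancel₀ hr0.ne']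
          simp
        · rw [if_neg h1]
          congr 2
          rcases hii with ⟨rfl, rfl⟩ | ⟨rfl, rfl⟩ <;> (revert h0 h1; revert k; decide)
    have hna : na i w = 1 := by
      show sq (av i w) + ‖b‖ ^ 2 = 1
      rw [hav, sq_vm]
      exact hx1
    have hnc : nc i w = (r⁻¹) ^ 2 := by
      show sq (cv i w) + ‖r⁻¹ • z‖ ^ 2 = _
      have h1 : sq (r⁻¹ • vm c g) = (r⁻¹) ^ 2 * sq (vm c g) := by
        unfold sq
        rw [Finset.mul_sum]
        refine Finset.sum_congr rfl fun k _ => ?_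
        rw [Pi.smul_apply, norm_smul, mul_pow, Real.norm_eq_abs, sq_abs]
      rw [hcv, h1, sq_vm, norm_smul, mul_pow, Real.norm_eq_abs, sq_abs, ← mul_add, hx2, mul_one]
    refine ⟨g, L.symm w, ?_, ?_⟩
    · show na i (L (L.symm w)) ≠ 0
      rw [L.apply_symm_apply, hna]
      exact one_ne_zero
    · show PW i (L (L.symm w)) = ((vm a g, b), (vm c g, z))
      rw [L.apply_symm_apply]
      unfold PW
      rw [hna, hnc, hav, hcv, Real.sqrt_one, Real.sqrt_sq (by positivity), inv_one, one_smul,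
        inv_inv]
      show ((vm a g, b), r • (r⁻¹ • vm c g, r⁻¹ • z)) = ((vm a g, b), (vm c g, z))
      rw [Prod.smul_mk, smul_smul, smul_smul, mul_inv_cancel₀ hr0.ne', one_smul, one_smul]

end par34_aux

open par34_aux

/-- TARGET -/
theorem par34 : S_par34 := by
  refine ⟨par34_aux.main 1 2 (Or.inl ⟨rfl, rfl⟩) 3 (fun x => rfl),
    par34_aux.main 2 1 (Or.inr ⟨rfl, rfl⟩) 4 (fun x => rfl)⟩

end

end Pool.Agent.Helper965_Rud
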