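import Pool.Agent.Helper965_Rud.Stmts2

/-!
JOB parS (MP_89fcdb_gt, owner helper965; disproof of a conjecture of Rudyak).
Setup: git fetch in outputs/live, copy Pool/Agent/Helper965_Rud/*.lean from origin/main (and Pool/Agent/Helper534/LS/*.lean)
to the same paths under /workdir/pool/Pool/Agent/, then `lake build` the modules imported here. Check with `lake env lean <file>`.
Helper965_Rud: Defs, Alg (algebra lemmas: herm_*, sq_*, rm, cm, jm, cp, lc), Basic (XN, XM, compactness), Stmts, StmtsTop, Stmts2 (the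
propositions S_...). The hypotheses S_... of the target are proved by other jobs: just use them.
Return the WHOLE file with the target proved (no sorry, no axiom, no native_decide; keep the name and the statement of the target).
Auxiliary lemmas: before the target, in the namespace parS_aux (open it before the target) or with names starting with parS_ .
Avoid straight double quotes and the words forbidden by RULES.md. If the statement is false or something is missing, say so in the note
(status 'problem') with the reason. The final path of the file is Pool/Agent/Helper965_Rud/P_parS.lean .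

PROOF. Let T, b be as in h. K closed in Orb X (compact), contractible in Orb X: there are H : K × I → Orb X continuous and p0 with H(p,0) = p, H(p,1) = p0 (CtrIn K: the inclusion is nullhomotopic). If K is empty the statement is trivial. Consider c : K × I × I → ℝ, (p,t,t') ↦ b x H(p,t') for x over H(p,t): b x p' depends only on mk x and p'
(second clause), so it descends to bb : Orb X × Orb X → ℝ continuous (mk × id is an open quotient map), with bb p p > 0 for all p. c(p,t,t') = bb (H(p,t)) (H(p,t')) is continuous on a compact set and positive on the closed set t = t', so there is r ≥ 1 with c(p,t,t') > 0 whenever |t - t'| ≤ 1/r.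
For x in mk⁻¹ K, p = mk x, define x_0 = x, x_{l+1} = T x_l (H(p,(l+1)/r)), l < r. By induction mk x_l = H(p, l/r), b x_l (H(p,(l+1)/r)) > 0, x_l depends continuously on x and equivariantly (H(mk (x g), .) = H(mk x, .)). Finally mk x_r = p0 for all x. Fix y0 with mk y0 = p0. Now E y0 ≠ 0 (hypothesis), choose k with E y0 k ≠ 0 and put
φ x = (E y0 k)⁻¹ * E x_r k. Since x_r = act y0 g for some g, E x_r k = E y0 k * g, so φ x = g is nonzero (a unit quaternion), φ is continuous, and for y = act x g: y_r = act x_r g, so φ y = φ x * g.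
-/

set_option autoImplicit false

namespace Pool.Agent.Helper965_Rud

open scoped ComplexConjugate unitInterval
open Pool.Agent.Helper534.LS (HH hmap sub inl inr delta)

noncomputable section

namespace parS_aux

/-- the sequence of transported points -/
def qs {X : Type} [TopologicalSpace X] [GSp X] (T : X → Orb X → X) (K : Set (Orb X))
    (F : ℕ → ↥K → Orb X) : ℕ → ↥((mk : X → Orb X) ⁻¹' K) → X
  | 0, x => x.1
  | (l + 1), x => T (qs T K F l x) (F (l + 1) ⟨mk x.1, x.2⟩)

theorem exists_steps (K : Type) [TopologicalSpace K] [CompactSpace K] (c : unitInterval × unitInterval × K → ℝ)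
    (hc : Continuous c) (h : ∀ t p, 0 < c (t, t, p)) :
    ∃ n : ℕ, ∃ τ : ℕ → unitInterval, τ 0 = 0 ∧ τ (n + 1) = 1 ∧ ∀ l p, 0 < c (τ l, τ (l + 1), p) := by
  have hopen : IsOpen {q : unitInterval × unitInterval | ∀ p, 0 < c (q.1, q.2, p)} := by
    rw [← isClosed_compl_iff]
    have e : {q : unitInterval × unitInterval | ∀ p, 0 < c (q.1, q.2, p)}ᶜ =
        Prod.fst '' {z : (unitInterval × unitInterval) × K | c (z.1.1, z.1.2, z.2) ≤ 0} := by
      ext q
      simp only [Set.mem_compl_iff, Set.mem_ofPred_eq, not_forall, not_lt, Set.mem_image]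
      constructor
      · rintro ⟨p, hp⟩
        exact ⟨(q, p), hp, rfl⟩
      · rintro ⟨⟨q', p⟩, hp, rfl⟩
        exact ⟨p, hp⟩
    rw [e]
    apply isClosedMap_fst_of_compactSpace
    exact isClosed_le (hc.comp (by fun_prop)) continuous_const
  have hcomp : IsCompact (Set.range fun t : unitInterval => (t, t)) :=
    isCompact_range (by fun_prop)
  obtain ⟨δ, hδ, hsub⟩ := hcomp.exists_thickening_subset_open hopen (by
    rintro _ ⟨t, rfl⟩
    exact fun p => h t p)
  obtain ⟨n, hn⟩ := exists_nat_one_div_lt hδ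
  have hn1 : (0 : ℝ) < (n : ℝ) + 1 := by positivity
  refine ⟨n, fun l => Set.projIcc 0 1 zero_le_one ((l : ℝ) / ((n : ℝ) + 1)), ?_, ?_, ?_⟩
  · apply Subtype.ext
    simp [Set.projIcc]
  · apply Subtype.ext
    have : ((n + 1 : ℕ) : ℝ) / ((n : ℝ) + 1) = 1 := by
      push_cast
      exact div_self hn1.ne'
    show ((Set.projIcc (0 : ℝ) 1 zero_le_one (((n + 1 : ℕ) : ℝ) / ((n : ℝ) + 1)) : unitInterval) : ℝ) = 1
    rw [this]
    simp [Set.projIcc]
  · intro l p
    have hmem : (Set.projIcc (0 : ℝ) 1 zero_le_one ((l : ℝ) / ((n : ℝ) + 1)),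
        Set.projIcc (0 : ℝ) 1 zero_le_one (((l + 1 : ℕ) : ℝ) / ((n : ℝ) + 1))) ∈
        Metric.thickening δ (Set.range fun t : unitInterval => (t, t)) := by
      rw [Metric.mem_thickening_iff]
      refine ⟨_, ⟨Set.projIcc (0 : ℝ) 1 zero_le_one ((l : ℝ) / ((n : ℝ) + 1)), rfl⟩, ?_⟩
      rw [Prod.dist_eq]
      apply max_lt
      · simpa using hδ
      · rw [Subtype.dist_eq, Real.dist_eq]
        refine lt_of_le_of_lt ?_ hn
        have h1 := Set.abs_projIcc_sub_projIcc (zero_le_one : (0 : ℝ) ≤ 1)
          (c := ((l + 1 : ℕ) : ℝ) / ((n : ℝ) + 1)) (d := (l : ℝ) / ((n : ℝ) + 1))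
        refine h1.trans (le_of_eq ?_)
        have : ((l + 1 : ℕ) : ℝ) / ((n : ℝ) + 1) - (l : ℝ) / ((n : ℝ) + 1) = 1 / ((n : ℝ) + 1) := by
          push_cast
          ring
        rw [this]
        exact abs_of_pos (by positivity)
    exact hsub hmem p

/-- the function on the product of orbit spaces -/
def bb {X : Type} [TopologicalSpace X] [GSp X] (b : X → Orb X → ℝ)
    (h : ∀ x g p, b (act x g) p = b x p) (p p' : Orb X) : ℝ :=
  Quotient.lift (fun x => b x p') (by
    rintro x _ ⟨g, rfl⟩
    exact (h x g p').symm) p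

theorem bb_mk {X : Type} [TopologicalSpace X] [GSp X] (b : X → Orb X → ℝ)
    (h : ∀ x g p, b (act x g) p = b x p) (x : X) (p' : Orb X) : bb b h (mk x) p' = b x p' := rfl

theorem bb_cont {X : Type} [TopologicalSpace X] [GSp X] (b : X → Orb X → ℝ)
    (h : ∀ x g p, b (act x g) p = b x p) (hc : Continuous (Function.uncurry b)) :
    Continuous fun q : Orb X × Orb X => bb b h q.1 q.2 := by
  have hq : IsOpenQuotientMap (Prod.map (mk : X → Orb X) (id : Orb X → Orb X)) :=
    isOpenQuotientMap_mk.prodMap IsOpenQuotientMap.id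
  rw [hq.isQuotientMap.continuous_iff]
  exact hc

end parS_aux

open parS_aux in
/-- TARGET -/
theorem parS (h : S_tr) : S_par := by
  intro X _ _ _ _ m E hE hEq hE0 K hK hctr
  obtain ⟨T, b, hb, hbg, hb0, hTg, hTm, hTc⟩ := h X m E hE hEq
  obtain ⟨y, ⟨F⟩⟩ := hctr
  have : CompactSpace ↥K := isCompact_iff_compactSpace.1 hK.isCompact
  have hF0 : ∀ p : ↥K, F (0, p) = p.1 := fun p => by simp
  have hF1 : ∀ p : ↥K, F (1, p) = y := fun p => by simp
  have hbb := bb_cont b hbg hb
  obtain ⟨n, τ, hτ0, hτ1, hτ⟩ := exists_steps ↥K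
    (fun q => bb b hbg (F (q.1, q.2.2)) (F (q.2.1, q.2.2)))
    (hbb.comp ((F.continuous.comp (by fun_prop)).prodMk (F.continuous.comp (by fun_prop)))) (by
      intro t p
      show 0 < bb b hbg (F (t, p)) (F (t, p))
      obtain ⟨x, hx⟩ := mk_surj (F (t, p))
      rw [← hx, bb_mk]
      exact hb0 x (hE0 x))
  -- the transported points
  set q := qs T K (fun l p => F (τ l, p)) with hq
  have hq0 : ∀ x, q 0 x = x.1 := fun x => rfl
  have hqs : ∀ l x, q (l + 1) x = T (q l x) (F (τ (l + 1), ⟨mk x.1, x.2⟩)) := fun l x => rfl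
  have hmk : ∀ l x, mk (q l x) = F (τ l, ⟨mk x.1, x.2⟩) ∧
      0 < b (q l x) (F (τ (l + 1), ⟨mk x.1, x.2⟩)) := by
    intro l
    induction l with
    | zero =>
      intro x
      have h1 : mk (q 0 x) = F (τ 0, ⟨mk x.1, x.2⟩) := by rw [hq0, hτ0, hF0]
      refine ⟨h1, ?_⟩
      rw [← bb_mk b hbg, h1]
      exact hτ 0 ⟨mk x.1, x.2⟩
    | succ l ih =>
      intro x
      have h1 : mk (q (l + 1) x) = F (τ (l + 1), ⟨mk x.1, x.2⟩) := by
        rw [hqs]
        exact hTm _ _ (ih x).2
      refine ⟨h1, ?_⟩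
      rw [← bb_mk b hbg, h1]
      exact hτ (l + 1) ⟨mk x.1, x.2⟩
  have hpc : Continuous fun x : ↥((mk : X → Orb X) ⁻¹' K) => (⟨mk x.1, x.2⟩ : ↥K) :=
    Continuous.subtype_mk (continuous_mk.comp continuous_subtype_val) _
  have hcont : ∀ l, Continuous (q l) := by
    intro l
    induction l with
    | zero => exact continuous_subtype_val
    | succ l ih =>
      have h1 : Continuous fun x : ↥((mk : X → Orb X) ⁻¹' K) =>
          (q l x, F (τ (l + 1), ⟨mk x.1, x.2⟩)) :=
        ih.prodMk (F.continuous.comp (continuous_const.prodMk hpc))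
      exact hTc.comp_continuous h1 (fun x => (hmk l x).2)
  have heq : ∀ l (x z : ↥((mk : X → Orb X) ⁻¹' K)) (g : Sp1), z.1 = act x.1 g →
      q l z = act (q l x) g := by
    intro l
    induction l with
    | zero =>
      intro x z g hz
      rw [hq0, hq0, hz]
    | succ l ih =>
      intro x z g hz
      have h1 : (⟨mk z.1, z.2⟩ : ↥K) = ⟨mk x.1, x.2⟩ := by
        apply Subtype.ext
        show mk z.1 = mk x.1
        rw [hz, mk_act]
      rw [hqs, hqs, h1, ih x z g hz, hTg]
  obtain ⟨y0, hy0⟩ := mk_surj y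
  obtain ⟨k, hk⟩ : ∃ k, E y0 k ≠ 0 := by
    by_contra hcon
    push Not at hcon
    exact hE0 y0 (funext hcon)
  refine ⟨fun x => (E y0 k)⁻¹ * E (q (n + 1) x) k, ?_, ?_, ?_⟩
  · exact continuous_const.mul ((continuous_apply k).comp (hE.comp (hcont (n + 1))))
  · intro x
    have h1 : mk y0 = mk (q (n + 1) x) := by
      rw [hy0, (hmk (n + 1) x).1, hτ1, hF1]
    obtain ⟨g, hg⟩ := mk_eq_iff.1 h1
    have h2 : E (q (n + 1) x) k = E y0 k * (g : Hq) := by
      rw [hg, hEq y0 g, vm_apply]
    show (E y0 k)⁻¹ * E (q (n + 1) x) k ≠ 0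
    rw [h2, ← mul_assoc, inv_mul_cancel₀ hk, one_mul]
    intro hg0
    have := norm_sp1 g
    rw [hg0, norm_zero] at this
    exact zero_ne_one this
  · intro x z g hz
    show (E y0 k)⁻¹ * E (q (n + 1) z) k = (E y0 k)⁻¹ * E (q (n + 1) x) k * (g : Hq)
    rw [heq (n + 1) x z g hz, hEq (q (n + 1) x) g, vm_apply, mul_assoc]

end

end Pool.Agent.Helper965_Rud
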