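import Pool.Agent.Helper965_Rud.Stmts2

/-!
JOB pcS (MP_89fcdb_gt, owner helper965; disproof of a conjecture of Rudyak).
Setup: git fetch in outputs/live, copy Pool/Agent/Helper965_Rud/*.lean from origin/main (and Pool/Agent/Helper534/LS/*.lean)
to the same paths under /workdir/pool/Pool/Agent/, then `lake build` the modules imported here. Check with `lake env lean <file>`.
Helper965_Rud: Defs, Alg (algebra lemmas: herm_*, sq_*, rm, cm, jm, cp, lc), Basic (XN, XM, compactness), Stmts, StmtsTop, Stmts2 (the
propositions S_...). The hypotheses S_... of the target are proved by other jobs: just use them.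
Return the WHOLE file with the target proved (no sorry, no axiom, no native_decide; keep the name and the statement of the target).
Auxiliary lemmas: before the target, in the namespace pcS_aux (open it before the target) or with names starting with pcS_ .
Avoid straight double quotes and the words forbidden by RULES.md. If the statement is false or something is missing, say so in the note
(status 'problem') with the reason. The final path of the file is Pool/Agent/Helper965_Rud/P_pcS.lean .

PROOF. SH 3 is path connected (h6: homeomorphic to Sp 11; isPathConnected_sphere in Mathlib needs rank > 1), so SH 3 × SH 3 and its quotient VV (image under the continuous surjection mk) are path connected. DH is convex-like (star shaped at 0): path connected, so UU is path connected.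
AMs ≃ₜ VV × ℂ (h2, h4), BMs ≃ₜ VV × Bd, BNs ≃ₜ VV × Bd (h3), ANs ≃ₜ UU × Circle (h5) are path connected (Circle is path connected). MM = AMs ∪ BMs, NN = ANs ∪ BNs (h1) and the intersections are not empty: e.g. the point of BMs with eM-coordinate (v, z) with z ≠ 0, |z| < 1 is in AMs
(first clause of h3: (z,s) ≠ (0,1)); similarly the point of BNs with z = 1/2. IsPathConnected.union.
-/

set_option autoImplicit false

namespace Pool.Agent.Helper965_Rud

open scoped ComplexConjugate unitInterval
open Pool.Agent.Helper534.LS (HH hmap sub inl inr delta)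

noncomputable section

namespace pcS_aux

theorem pc_of_homeo {X Y : Type} [TopologicalSpace X] [TopologicalSpace Y] (e : X ≃ₜ Y)
    [PathConnectedSpace Y] : PathConnectedSpace X :=
  Function.Surjective.pathConnectedSpace e.symm.surjective e.symm.continuous

theorem pc_SH (h6 : S_SH) (n : ℕ) : PathConnectedSpace (SH (n + 1)) := by
  obtain ⟨e⟩ := h6 n
  have hrank : 1 < Module.rank ℝ (EuclideanSpace ℝ (Fin (4 * n + 3 + 1))) := by
    rw [← Module.finrank_eq_rank, finrank_euclideanSpace_fin]
    exact_mod_cast (by omega : 1 < 4 * n + 3 + 1)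
  have h := isPathConnected_sphere hrank (0 : EuclideanSpace ℝ (Fin (4 * n + 3 + 1))) zero_le_one
  have : PathConnectedSpace (Sp (4 * n + 3)) := isPathConnected_iff_pathConnectedSpace.mp h
  exact pc_of_homeo e

theorem pc_orb (X : Type) [TopologicalSpace X] [GSp X] [PathConnectedSpace X] :
    PathConnectedSpace (Orb X) := Function.Surjective.pathConnectedSpace mk_surj continuous_mk

theorem sq_smul_le {n : ℕ} (b : ℝ) (v : Fin n → Hq) : sq (b • v) = b ^ 2 * sq v := by
  unfold sq
  rw [Finset.mul_sum]
  refine Finset.sum_congr rfl fun i _ => ?_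
  rw [Pi.smul_apply, norm_smul, mul_pow, Real.norm_eq_abs, sq_abs]

theorem pc_DH : PathConnectedSpace DH := by
  have h : StarConvex ℝ (0 : Fin 3 → Hq) {v | sq v < 1} := by
    intro y hy a b ha hb hab
    show sq (a • (0 : Fin 3 → Hq) + b • y) < 1
    have hy' : sq y < 1 := hy
    rw [smul_zero, zero_add, sq_smul_le]
    have hb1 : b ≤ 1 := by linarith
    have h0 : 0 ≤ sq y := Finset.sum_nonneg fun i _ => by positivity
    have hb2 : b ^ 2 ≤ 1 := by nlinarith
    nlinarith
  have hne : (0 : Fin 3 → Hq) ∈ ({v | sq v < 1} : Set (Fin 3 → Hq)) := by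
    show sq (0 : Fin 3 → Hq) < 1
    simp [sq]
  exact isPathConnected_iff_pathConnectedSpace.mp (h.isPathConnected hne)

theorem pc_union {X : Type} [TopologicalSpace X] (U V : Set X) (hU : PathConnectedSpace U)
    (hV : PathConnectedSpace V) (hc : ∀ x, x ∈ U ∨ x ∈ V) (x : X) (hx : x ∈ U) (hx' : x ∈ V) :
    PathConnectedSpace X := by
  rw [pathConnectedSpace_iff_univ]
  have h := (isPathConnected_iff_pathConnectedSpace.mpr hU).union
    (isPathConnected_iff_pathConnectedSpace.mpr hV) ⟨x, hx, hx'⟩
  have : U ∪ V = Set.univ := by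
    ext y
    simp [hc y]
  rwa [this] at h

end pcS_aux

open pcS_aux in
/-- TARGET -/
theorem pcS (h1 : S_open) (h2 : S_AM) (h3 : S_BMN) (h4 : S_Y2) (h5 : S_ANh) (h6 : S_SH) : S_pc := by
  obtain ⟨-, -, -, -, -, hM, hN, -⟩ := h1
  have : PathConnectedSpace (SH 3) := pc_SH h6 2
  have : PathConnectedSpace VV := pc_orb _
  have : PathConnectedSpace DH := pc_DH
  have : PathConnectedSpace UU := pc_orb _
  have : PathConnectedSpace Bd :=
    isPathConnected_iff_pathConnectedSpace.mp (Metric.isPathConnected_ball one_pos)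
  obtain ⟨eA, -⟩ := h2
  obtain ⟨eM, eN, hMz, hNz, -⟩ := h3
  obtain ⟨eY⟩ := h4
  obtain ⟨eU⟩ := h5
  have : PathConnectedSpace {y : Y2 // y.1 ≠ (0, 1)} := pc_of_homeo eY
  have hAM : PathConnectedSpace ↥AMs := pc_of_homeo eA
  have hBM : PathConnectedSpace ↥BMs := pc_of_homeo eM
  have hAN : PathConnectedSpace ↥ANs := pc_of_homeo eU
  have hBN : PathConnectedSpace ↥BNs := pc_of_homeo eN
  obtain ⟨v⟩ : Nonempty VV := inferInstance
  let z : Bd := ⟨1 / 2, by
    rw [mem_ball_zero_iff]
    norm_num⟩
  have hz : (z : ℂ) ≠ 0 := by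
    show (1 / 2 : ℂ) ≠ 0
    norm_num
  refine ⟨?_, ?_⟩
  · refine pc_union AMs BMs hAM hBM hM (eM.symm (v, z)).1 ?_ (eM.symm (v, z)).2
    obtain ⟨x, hx, hx'⟩ := (eM.symm (v, z)).2
    refine ⟨x, hx, fun h => ?_⟩
    have hmem : mk x ∈ BMs := ⟨x, rfl, hx'⟩
    have e := hMz x hmem
    have h3 : (⟨mk x, hmem⟩ : ↥BMs) = eM.symm (v, z) := Subtype.ext hx.symm
    rw [h3, eM.apply_symm_apply, h] at e
    exact hz e
  · refine pc_union ANs BNs hAN hBN hN (eN.symm (v, z)).1 ?_ (eN.symm (v, z)).2
    obtain ⟨x, hx, hx'⟩ := (eN.symm (v, z)).2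
    refine ⟨x, hx, fun h => ?_⟩
    have hmem : mk x ∈ BNs := ⟨x, rfl, hx'⟩
    have e := hNz x hmem
    have h3 : (⟨mk x, hmem⟩ : ↥BNs) = eN.symm (v, z) := Subtype.ext hx.symm
    rw [h3, eN.apply_symm_apply, h] at e
    exact hz e

end

end Pool.Agent.Helper965_Rud
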