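import Pool.Agent.Helper965_Rud.Stmts2

/-!
JOB sph (MP_89fcdb_gt, owner helper965; disproof of a conjecture of Rudyak).
Setup: git fetch in outputs/live, copy Pool/Agent/Helper965_Rud/*.lean from origin/main (and Pool/Agent/Helper534/LS/*.lean)
to the same paths under /workdir/pool/Pool/Agent/, then `lake build` the modules imported here. Check with `lake env lean <file>`.
Helper965_Rud: Defs, Alg (algebra lemmas: herm_*, sq_*, rm, cm, jm, cp, lc), Basic (XN, XM, compactness), Stmts, StmtsTop, Stmts2 (the
propositions S_...). The hypotheses S_... of the target are proved by other jobs: just use them.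
Return the WHOLE file with the target proved (no sorry, no axiom, no native_decide; keep the name and the statement of the target).
Auxiliary lemmas: before the target, in the namespace sph_aux (open it before the target) or with names starting with sph_ .
Avoid straight double quotes and the words forbidden by RULES.md. If the statement is false or something is missing, say so in the note
(status 'problem') with the reason. The final path of the file is Pool/Agent/Helper965_Rud/P_sph.lean .

PROOF. Van part, induction on n: n = 0 is h5. Step n → n+1: with U, V of h4 for Y × Sp (n+1): Van U (d+n+1), Van V (d+n+1) by homotopy invariance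
(h1 and HE U Y, HE V Y) from Van Y d (Van is monotone in the degree), Van (U ∩ V) (d+n) by h1, HE (U ∩ V) (Y × Sp n) and induction. h2 gives Van (Y × Sp (n+1)) (d+n+1).
Top part, for n ≥ 1 by induction (Nat.le_induction): n = 1 is h6. Step n → n+1 (n ≥ 1): h3 with degree d+n (0 < d+n): for j ≥ d+n > d: HH U j = 0 = HH V j from Van Y d
(through h1: Van U d), Top (U ∩ V) (d+n) by h1 and induction; so Top (Y × Sp (n+1)) (d+n+1).
HE X Y unfolds to Nonempty (ContinuousMap.HomotopyEquiv X Y); its fields are toFun, invFun, left_inv, right_inv.
-/

set_option autoImplicit false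

namespace Pool.Agent.Helper965_Rud

open scoped ComplexConjugate unitInterval
open Pool.Agent.Helper534.LS (HH hmap sub inl inr delta)

noncomputable section

theorem sph_he (h1 : S_hinv) {X Y : Type} [TopologicalSpace X] [TopologicalSpace Y] (e : HE X Y)
    (d : ℕ) : (Van X d → Van Y d) ∧ (Top X d → Top Y d) := by
  obtain ⟨e⟩ := e
  exact h1 X Y e.toFun e.invFun e.left_inv e.right_inv d

theorem sph_van_mono {X : Type} [TopologicalSpace X] {c d : ℕ} (h : c ≤ d) (hX : Van X c) :
    Van X d := fun j hj x => hX j (lt_of_le_of_lt h hj) x

/-- TARGET -/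
theorem sph (h1 : S_hinv) (h2 : S_mvVan) (h3 : S_mvTop) (h4 : S_sphGeo) (h5 : S_sph0)
    (h6 : S_sph1) : S_sph := by
  intro Y _ d n
  constructor
  · intro hY
    induction n with
    | zero => exact h5 Y d hY
    | succ n ih =>
      obtain ⟨U, V, hU, hV, hUV, eU, eV, eI⟩ := h4 Y n
      have vU : Van ↥U (d + n + 1) :=
        sph_van_mono (by omega) ((sph_he h1 eU.symm d).1 hY)
      have vV : Van ↥V (d + n + 1) :=
        sph_van_mono (by omega) ((sph_he h1 eV.symm d).1 hY)
      have vI : Van ↥(U ∩ V) (d + n) := (sph_he h1 eI.symm (d + n)).1 ih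
      exact h2 (Y × Sp (n + 1)) U V hU hV hUV (d + n) vU vV vI
  · intro hY hn
    induction n, hn using Nat.le_induction with
    | base => exact h6 Y d hY
    | succ n hn ih =>
      obtain ⟨U, V, hU, hV, hUV, eU, eV, eI⟩ := h4 Y n
      have vU : Van ↥U d := (sph_he h1 eU.symm d).1 hY.1
      have vV : Van ↥V d := (sph_he h1 eV.symm d).1 hY.1
      have vI : Top ↥(U ∩ V) (d + n) := (sph_he h1 eI.symm (d + n)).2 ih
      exact h3 (Y × Sp (n + 1)) U V hU hV hUV (d + n) (by omega)
        (fun j hj => ⟨fun x => vU j (by omega) x, fun x => vV j (by omega) x⟩) vI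

end

end Pool.Agent.Helper965_Rud
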