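import Pool.Agent.Helper965_Rud.Stmts2
import Pool.Agent.Helper534.LS.P_hmap_comp
import Pool.Agent.Helper534.LS.P_hmap_id
import Pool.Agent.Helper534.LS.P_hh_union

/-!
JOB sph0 (MP_89fcdb_gt, owner helper965; disproof of a conjecture of Rudyak).
Setup: git fetch in outputs/live, copy Pool/Agent/Helper965_Rud/*.lean from origin/main (and Pool/Agent/Helper534/LS/*.lean)
to the same paths under /workdir/pool/Pool/Agent/, then `lake build` the modules imported here. Check with `lake env lean <file>`.
Helper965_Rud: Defs, Alg (algebra lemmas: herm_*, sq_*, rm, cm, jm, cp, lc), Basic (XN, XM, compactness), Stmts, StmtsTop, Stmts2 (the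
propositions S_...). The hypotheses S_... of the target are proved by other jobs: just use them.
Return the WHOLE file with the target proved (no sorry, no axiom, no native_decide; keep the name and the statement of the target).
Auxiliary lemmas: before the target, in the namespace sph0_aux (open it before the target) or with names starting with sph0_ .
Avoid straight double quotes and the words forbidden by RULES.md. If the statement is false or something is missing, say so in the note
(status 'problem') with the reason. The final path of the file is Pool/Agent/Helper965_Rud/P_sph0.lean .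

PROOF. Sp 0 is the unit sphere of EuclideanSpace ℝ (Fin 1): two points, those with coordinate 1 and -1. A = {x : Y × Sp 0 | 0 < x.2 0}, B = {x | x.2 0 < 0}
are open, disjoint and cover, each homeomorphic to Y. For j > d: HH A j = 0 and HH B j = 0: use hmap of the homeomorphism and its inverse with hmap_comp
and hmap_id (from HH Y j = 0). hh_union writes each x : HH (Y × Sp 0) j as hmap (sub A) a + hmap (sub B) b = 0.
-/

set_option autoImplicit false

namespace Pool.Agent.Helper965_Rud

open scoped ComplexConjugate unitInterval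
open Pool.Agent.Helper534.LS (HH hmap sub inl inr delta)

noncomputable section

namespace sph0_aux

/-- vanishing is transported along a map with a left inverse -/
theorem van_of {X Y : Type} [TopologicalSpace X] [TopologicalSpace Y] (f : C(Y, X)) (g : C(X, Y))
    (h : g.comp f = ContinuousMap.id Y) (j : ℕ) (hX : ∀ x : HH X j, x = 0) (y : HH Y j) :
    y = 0 := by
  have h1 : hmap (g.comp f) j y = y := by
    rw [h]; exact Pool.Agent.Helper534.LS.hmap_id j y
  rw [Pool.Agent.Helper534.LS.hmap_comp, hX (hmap f j y), map_zero] at h1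
  exact h1.symm

/-- a point of the sphere is determined by its coordinate -/
theorem sp_ext {p q : Sp 0} (h : p.1 0 = q.1 0) : p = q := by
  apply Subtype.ext
  ext i
  have hi : i = 0 := by
    apply Fin.ext
    have := i.2
    change (i : ℕ) = 0
    omega
  rw [hi]
  exact h

theorem sp_sq (p : Sp 0) : p.1 0 = 1 ∨ p.1 0 = -1 := by
  have h : ‖p.1‖ = 1 := norm_eq_of_mem_sphere p
  rw [EuclideanSpace.norm_eq] at h
  have h0 : (∑ i : Fin (0 + 1), ‖p.1 i‖ ^ 2) = ‖p.1 0‖ ^ 2 :=
    Fin.sum_univ_one (fun i : Fin 1 => ‖p.1 i‖ ^ 2)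
  rw [h0, Real.sqrt_sq (norm_nonneg _)] at h
  exact eq_or_eq_neg_of_abs_eq h

/-- the point with coordinate `s` -/
def pnt (s : ℝ) (hs : |s| = 1) : Sp 0 :=
  ⟨EuclideanSpace.single 0 s, by
    rw [mem_sphere_zero_iff_norm, PiLp.norm_single]
    exact hs⟩

theorem pnt_apply (s : ℝ) (hs : |s| = 1) : (pnt s hs).1 0 = s := by
  simp [pnt]

/-- vanishing for the slice -/
theorem slice (Y : Type) [TopologicalSpace Y] (j : ℕ) (hY : ∀ x : HH Y j, x = 0)
    (A : Set (Y × Sp 0)) (p : Sp 0) (h1 : ∀ x ∈ A, x.2 = p) (h2 : ∀ y, (y, p) ∈ A) (a : HH A j) :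
    a = 0 := by
  refine van_of (⟨fun a => a.1.1, by fun_prop⟩ : C(A, Y))
    (⟨fun y => ⟨(y, p), h2 y⟩, by fun_prop⟩ : C(Y, A)) ?_ j hY a
  ext1 a
  apply Subtype.ext
  exact Prod.ext rfl (h1 a.1 a.2).symm

end sph0_aux

open sph0_aux in
/-- TARGET -/
theorem sph0 : S_sph0 := by
  intro Y _ d hY j hj
  have hc : Continuous fun x : Y × Sp 0 => x.2.1 0 := by fun_prop
  have hA : IsOpen {x : Y × Sp 0 | 0 < x.2.1 0} := isOpen_lt continuous_const hc
  have hB : IsOpen {x : Y × Sp 0 | x.2.1 0 < 0} := isOpen_lt hc continuous_const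
  have hHA : ∀ a : HH {x : Y × Sp 0 | 0 < x.2.1 0} j, a = 0 := by
    refine slice Y j (hY j hj) _ (pnt 1 (by simp)) ?_ ?_
    · intro x hx
      apply sp_ext
      rw [pnt_apply]
      rcases sp_sq x.2 with h | h
      · exact h
      · have hx' : 0 < x.2.1 0 := hx
        rw [h] at hx'
        norm_num at hx'
    · intro y
      change 0 < (pnt 1 (by simp)).1 0
      rw [pnt_apply]
      norm_num
  have hHB : ∀ a : HH {x : Y × Sp 0 | x.2.1 0 < 0} j, a = 0 := by
    refine slice Y j (hY j hj) _ (pnt (-1) (by simp)) ?_ ?_
    · intro x hx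
      apply sp_ext
      rw [pnt_apply]
      rcases sp_sq x.2 with h | h
      · have hx' : x.2.1 0 < 0 := hx
        rw [h] at hx'
        norm_num at hx'
      · exact h
    · intro y
      change (pnt (-1) (by simp)).1 0 < 0
      rw [pnt_apply]
      norm_num
  intro x
  obtain ⟨a, b, hab⟩ := (Pool.Agent.Helper534.LS.hh_union _ _ hA hB (by
    intro x
    rcases sp_sq x.2 with h | h
    · left
      change 0 < x.2.1 0
      rw [h]
      norm_num
    · right
      change x.2.1 0 < 0
      rw [h]
      norm_num) (by
    rintro x ⟨h1, h2⟩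
    exact lt_asymm (show 0 < x.2.1 0 from h1) h2) j).1 x
  rw [hab, hHA a, hHB b, map_zero, map_zero, add_zero]

end

end Pool.Agent.Helper965_Rud
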