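import Pool.Agent.Helper965_Rud.Stmts2
import Pool.Agent.Helper534.LS.P_sig_inj
import Pool.Agent.Helper534.LS.P_par_spec

/-! # `Y × S^1`, top degree -/

set_option autoImplicit false

namespace Pool.Agent.Helper965_Rud

open scoped ComplexConjugate unitInterval
open Pool.Agent.Helper534.LS (HH hmap sub inl inr delta)

noncomputable section

namespace sph1_aux

open Pool.Agent.Helper534.LS

/-- above the top degree of `Y` every class on `Circle × Y` is a cross product -/
theorem eq_sig {Y : Type} [TopologicalSpace Y] {d n : ℕ} (hV : Van Y d) (hn : d ≤ n)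
    (c : HH (Circle × Y) (n + 1)) : c = sig Y n (par Y n c) := by
  have h := par_spec Y n c
  rw [hV (n + 1) (by omega) (hmap (prQ Y) (n + 1) c), map_zero, zero_add] at h
  exact h

/-- products with the circle -/
theorem top_circle {Y : Type} [TopologicalSpace Y] {d : ℕ} (hY : Top Y d) :
    Top (Circle × Y) (d + 1) := by
  obtain ⟨hV, ⟨e⟩⟩ := hY
  constructor
  · intro j hj c
    obtain ⟨n, rfl⟩ : ∃ n, j = n + 1 := ⟨j - 1, by omega⟩
    rw [eq_sig hV (by omega) c, hV n (by omega) (par Y n c), map_zero]
  · have hb : Function.Bijective (sig Y d) := by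
      constructor
      · intro x y hxy
        have h1 : sig Y d (x - y) = 0 := by rw [map_sub, hxy, sub_self]
        exact sub_eq_zero.1 (sig_inj Y d _ h1)
      · intro c
        exact ⟨par Y d c, (eq_sig hV le_rfl c).symm⟩
    exact ⟨(LinearEquiv.ofBijective (sig Y d) hb).symm.trans e⟩

/-- the circle is the unit sphere of the plane -/
def circ : Circle ≃ₜ Sp 1 where
  toFun z := ⟨Complex.orthonormalBasisOneI.repr (z : ℂ), by
    rw [mem_sphere_zero_iff_norm, LinearIsometryEquiv.norm_map]; exact Circle.norm_coe z⟩
  invFun x := ⟨Complex.orthonormalBasisOneI.repr.symm x.1, by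
    have h := x.2
    rw [mem_sphere_zero_iff_norm] at h
    exact mem_sphere_zero_iff_norm.mpr (by rw [LinearIsometryEquiv.norm_map]; exact h)⟩
  left_inv z := by
    apply Subtype.ext
    exact Complex.orthonormalBasisOneI.repr.symm_apply_apply (z : ℂ)
  right_inv x := by
    apply Subtype.ext
    exact Complex.orthonormalBasisOneI.repr.apply_symm_apply x.1
  continuous_toFun := by
    refine Continuous.subtype_mk ?_ _
    exact Complex.orthonormalBasisOneI.repr.continuous.comp continuous_subtype_val
  continuous_invFun := by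
    refine Continuous.subtype_mk ?_ _
    exact Complex.orthonormalBasisOneI.repr.symm.continuous.comp continuous_subtype_val

/-- `Circle × Y` and `Y × S¹` -/
def homeo (Y : Type) [TopologicalSpace Y] : (Circle × Y) ≃ₜ (Y × Sp 1) :=
  (Homeomorph.prodComm Circle Y).trans ((Homeomorph.refl Y).prodCongr circ)

end sph1_aux

open sph1_aux

/-- TARGET -/
theorem sph1 (h1 : S_hinv) : S_sph1 := by
  intro Y _ d hY
  let e : ContinuousMap.HomotopyEquiv (Circle × Y) (Y × Sp 1) := (homeo Y).toHomotopyEquiv
  exact (h1 (Circle × Y) (Y × Sp 1) e.toFun e.invFun e.left_inv e.right_inv (d + 1)).2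
    (top_circle hY)

end

end Pool.Agent.Helper965_Rud
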