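import Pool.Agent.Helper965_Rud.Stmts2

/-!
JOB sphGeo (MP_89fcdb_gt, owner helper965; disproof of a conjecture of Rudyak).
Setup: git fetch in outputs/live, copy Pool/Agent/Helper965_Rud/*.lean from origin/main (and Pool/Agent/Helper534/LS/*.lean)
to the same paths under /workdir/pool/Pool/Agent/, then `lake build` the modules imported here. Check with `lake env lean <file>`.
Helper965_Rud: Defs, Alg (algebra lemmas: herm_*, sq_*, rm, cm, jm, cp, lc), Basic (XN, XM, compactness), Stmts, StmtsTop, Stmts2 (the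
propositions S_...). The hypotheses S_... of the target are proved by other jobs: just use them.
Return the WHOLE file with the target proved (no sorry, no axiom, no native_decide; keep the name and the statement of the target).
Auxiliary lemmas: before the target, in the namespace sphGeo_aux (open it before the target) or with names starting with sphGeo_ .
Avoid straight double quotes and the words forbidden by RULES.md. If the statement is false or something is missing, say so in the note
(status 'problem') with the reason. The final path of the file is Pool/Agent/Helper965_Rud/P_sphGeo.lean .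

PROOF. Sp (n+1) is the unit sphere of EuclideanSpace ℝ (Fin (n+2)). Let U = {x | x.2 (Fin.last _) ≠ 1}, V = {x | x.2 (Fin.last _) ≠ -1}: open, they cover.
HE U Y: maps (y,v) ↦ y and y ↦ (y, s) with s the pole with last coordinate -1; homotopy: ((1-t) v + t s) normalised, which is not zero because
v ≠ -s when v is in U (a segment from v to s passes through 0 only if v = -s). Stay in U: the last coordinate of the normalised vector is 1 only if
the vector is a positive multiple of the north pole -s, and (1-t) v + t s = r(-s) forces v to be a positive multiple of -s, or t = 1. Same for V.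
(Alternative: a punctured sphere is homeomorphic to a Euclidean space by stereographic projection, see stereographic' in Mathlib
(OpenPartialHomeomorph), hence contractible; a product with a contractible space is homotopy equivalent to the other factor.)
HE (U ∩ V) (Y × Sp n): (y,v) ↦ (y, v' / |v'|) where v' = the first n+1 coordinates, not zero in U ∩ V; conversely (y,w) ↦ (y, (w,0)) ; the
composition Sp n → Sp (n+1) → Sp n is the identity, the other one is homotopic to the identity by (v', (1-t) v_last) normalised.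
-/

set_option autoImplicit false

namespace Pool.Agent.Helper965_Rud

open scoped ComplexConjugate unitInterval
open Pool.Agent.Helper534.LS (HH hmap sub inl inr delta)

noncomputable section

namespace sphGeo_aux

variable {E F : Type} [NormedAddCommGroup E] [NormedSpace ℝ E] [NormedAddCommGroup F]
  [NormedSpace ℝ F]

theorem nm_mem (v : E) (h : v ≠ 0) : ‖v‖⁻¹ • v ∈ Metric.sphere (0 : E) 1 := by
  rw [mem_sphere_zero_iff_norm, norm_smul, norm_inv, norm_norm,
    inv_mul_cancel₀ (norm_ne_zero_iff.mpr h)]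

def nm (v : E) (h : v ≠ 0) : Metric.sphere (0 : E) 1 := ⟨‖v‖⁻¹ • v, nm_mem v h⟩

theorem nm_coe (v : E) (h : v ≠ 0) : ((nm v h : Metric.sphere (0 : E) 1) : E) = ‖v‖⁻¹ • v := rfl

theorem continuous_nm {X : Type} [TopologicalSpace X] (w : X → E) (hw : Continuous w)
    (h : ∀ x, w x ≠ 0) : Continuous (fun x => nm (w x) (h x)) := by
  apply Continuous.subtype_mk
  exact ((continuous_norm.comp hw).inv₀ (fun x => norm_ne_zero_iff.mpr (h x))).smul hw

theorem norm_one (v : Metric.sphere (0 : E) 1) : ‖(v : E)‖ = 1 :=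
  mem_sphere_zero_iff_norm.mp v.2

theorem ne_zero (v : Metric.sphere (0 : E) 1) : (v : E) ≠ 0 := by
  intro h
  have := norm_one v
  rw [h, norm_zero] at this
  exact zero_ne_one this

theorem nm_eq_of (w : E) (h : w ≠ 0) (v : Metric.sphere (0 : E) 1) (hv : w = v) : nm w h = v := by
  apply Subtype.ext
  rw [nm_coe, hv, norm_one v, inv_one, one_smul]

theorem key (p v : Metric.sphere (0 : E) 1) (hne : v ≠ p) (t : ℝ) (h0 : 0 ≤ t) (h1 : t ≤ 1)
    (c : ℝ) (hc : 0 ≤ c) : t • (v : E) + (1 - t) • (-(p : E)) ≠ c • (p : E) := by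
  intro h
  have h2 : t • (v : E) = (c + (1 - t)) • (p : E) := by
    rw [add_smul, ← h, smul_neg]
    abel
  have h3 : t = c + (1 - t) := by
    have := congrArg norm h2
    rw [norm_smul, norm_smul, norm_one, norm_one, mul_one, mul_one, Real.norm_of_nonneg h0,
      Real.norm_of_nonneg (by linarith)] at this
    exact this
  have h4 : t • (v : E) = t • (p : E) := by rw [h2, ← h3]
  rcases h0.eq_or_lt with h5 | h5
  · rw [← h5] at h3; linarith
  · exact hne (Subtype.ext (smul_right_injective E h5.ne' h4))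

theorem punct (Y : Type) [TopologicalSpace Y] (p : Metric.sphere (0 : E) 1) :
    HE ↥{x : Y × Metric.sphere (0 : E) 1 | x.2 ≠ p} Y := by
  let X := ↥{x : Y × Metric.sphere (0 : E) 1 | x.2 ≠ p}
  have hnep : (-p : Metric.sphere (0 : E) 1) ≠ p := by
    intro h
    have h1 := congrArg (Subtype.val) h
    have h2 : (-(p : E)) = p := h1
    have h3 : (p : E) = 0 := by
      have : (2 : ℝ) • (p : E) = 0 := by
        rw [two_smul]; nth_rewrite 1 [← h2]; exact neg_add_cancel _
      exact (smul_eq_zero.mp this).resolve_left two_ne_zero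
    exact ne_zero p h3
  let w : unitInterval × X → E := fun z =>
    (z.1 : ℝ) • ((z.2.1.2 : Metric.sphere (0 : E) 1) : E) + (1 - (z.1 : ℝ)) • (-(p : E))
  have hwc : Continuous w := by
    have c1 : Continuous fun z : unitInterval × X => (z.1 : ℝ) :=
      continuous_subtype_val.comp continuous_fst
    have c2 : Continuous fun z : unitInterval × X => ((z.2.1.2 : Metric.sphere (0 : E) 1) : E) :=
      continuous_subtype_val.comp (continuous_snd.comp (continuous_subtype_val.comp continuous_snd))
    exact (c1.smul c2).add ((continuous_const.sub c1).smul continuous_const)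
  have hw0 : ∀ z, w z ≠ 0 := by
    intro z h
    exact key p z.2.1.2 z.2.2 z.1 z.1.2.1 z.1.2.2 0 le_rfl (by rw [zero_smul]; exact h)
  have hwp : ∀ z, nm (w z) (hw0 z) ≠ p := by
    intro z h
    have h1 : ‖w z‖⁻¹ • w z = (p : E) := congrArg Subtype.val h
    have h2 : w z = ‖w z‖ • (p : E) := by
      rw [← h1, smul_smul, mul_inv_cancel₀ (norm_ne_zero_iff.mpr (hw0 z)), one_smul]
    exact key p z.2.1.2 z.2.2 z.1 z.1.2.1 z.1.2.2 _ (norm_nonneg _) h2
  let f : C(X, Y) := ⟨fun x => x.1.1, continuous_fst.comp continuous_subtype_val⟩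
  let g : C(Y, X) := ⟨fun y => ⟨(y, -p), hnep⟩,
    (continuous_id.prodMk continuous_const).subtype_mk _⟩
  let H : ContinuousMap.Homotopy (g.comp f) (ContinuousMap.id X) :=
    { toFun := fun z => ⟨(z.2.1.1, nm (w z) (hw0 z)), hwp z⟩
      continuous_toFun := by
        apply Continuous.subtype_mk
        exact (continuous_fst.comp (continuous_subtype_val.comp continuous_snd)).prodMk
          (continuous_nm w hwc hw0)
      map_zero_left := by
        intro x
        apply Subtype.ext
        refine Prod.ext rfl ?_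
        refine nm_eq_of (w (0, x)) (hw0 _) (-p) ?_
        show ((0 : unitInterval) : ℝ) • _ + (1 - ((0 : unitInterval) : ℝ)) • (-(p : E)) = -(p : E)
        simp
      map_one_left := by
        intro x
        apply Subtype.ext
        refine Prod.ext rfl ?_
        refine nm_eq_of (w (1, x)) (hw0 _) x.1.2 ?_
        show ((1 : unitInterval) : ℝ) • _ + (1 - ((1 : unitInterval) : ℝ)) • (-(p : E)) = _
        simp }
  refine ⟨⟨f, g, ⟨H⟩, ?_⟩⟩
  have : f.comp g = ContinuousMap.id Y := rfl
  rw [this]

theorem equator (Y : Type) [TopologicalSpace Y] (ι : F →ₗᵢ[ℝ] E) (π : E →L[ℝ] F)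
    (hπ : ∀ w, π (ι w) = w) :
    HE ↥{x : Y × Metric.sphere (0 : E) 1 | π (x.2 : E) ≠ 0} (Y × Metric.sphere (0 : F) 1) := by
  let X := ↥{x : Y × Metric.sphere (0 : E) 1 | π (x.2 : E) ≠ 0}
  let w : unitInterval × X → E := fun z =>
    (z.1 : ℝ) • ((z.2.1.2 : Metric.sphere (0 : E) 1) : E)
      + (1 - (z.1 : ℝ)) • ι (π ((z.2.1.2 : Metric.sphere (0 : E) 1) : E))
  have cv : Continuous fun z : unitInterval × X => ((z.2.1.2 : Metric.sphere (0 : E) 1) : E) :=
    continuous_subtype_val.comp (continuous_snd.comp (continuous_subtype_val.comp continuous_snd))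
  have hwc : Continuous w := by
    have c1 : Continuous fun z : unitInterval × X => (z.1 : ℝ) :=
      continuous_subtype_val.comp continuous_fst
    exact (c1.smul cv).add ((continuous_const.sub c1).smul
      (ι.continuous.comp (π.continuous.comp cv)))
  have hπw : ∀ z, π (w z) = π ((z.2.1.2 : Metric.sphere (0 : E) 1) : E) := by
    intro z
    show π ((z.1 : ℝ) • _ + (1 - (z.1 : ℝ)) • ι (π _)) = _
    rw [map_add, map_smul, map_smul, hπ, ← add_smul]
    simp
  have hw0 : ∀ z, w z ≠ 0 := by
    intro z h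
    have := hπw z
    rw [h, map_zero] at this
    exact z.2.2 this.symm
  have hwp : ∀ z, π ((nm (w z) (hw0 z) : Metric.sphere (0 : E) 1) : E) ≠ 0 := by
    intro z h
    rw [nm_coe, map_smul, hπw] at h
    rcases smul_eq_zero.mp h with h1 | h1
    · exact norm_ne_zero_iff.mpr (hw0 z) (inv_eq_zero.mp h1)
    · exact z.2.2 h1
  have cvX : Continuous fun x : X => ((x.1.2 : Metric.sphere (0 : E) 1) : E) :=
    continuous_subtype_val.comp (continuous_snd.comp continuous_subtype_val)
  let f : C(X, Y × Metric.sphere (0 : F) 1) :=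
    ⟨fun x => (x.1.1, nm (π ((x.1.2 : Metric.sphere (0 : E) 1) : E)) x.2),
      (continuous_fst.comp continuous_subtype_val).prodMk
        (continuous_nm _ (π.continuous.comp cvX) _)⟩
  have hι : ∀ u : Metric.sphere (0 : F) 1, ι (u : F) ∈ Metric.sphere (0 : E) 1 := by
    intro u
    rw [mem_sphere_zero_iff_norm, ι.norm_map, norm_one]
  have hg : ∀ y : Y × Metric.sphere (0 : F) 1, π (ι (y.2 : F)) ≠ 0 := by
    intro y
    rw [hπ]; exact ne_zero y.2
  let g : C(Y × Metric.sphere (0 : F) 1, X) :=
    { toFun := fun y => ⟨(y.1, ⟨ι (y.2 : F), hι y.2⟩), hg y⟩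
      continuous_toFun := by
        apply Continuous.subtype_mk
        refine continuous_fst.prodMk ?_
        apply Continuous.subtype_mk
        exact ι.continuous.comp (continuous_subtype_val.comp continuous_snd) }
  let H : ContinuousMap.Homotopy (g.comp f) (ContinuousMap.id X) :=
    { toFun := fun z => ⟨(z.2.1.1, nm (w z) (hw0 z)), hwp z⟩
      continuous_toFun := by
        apply Continuous.subtype_mk
        exact (continuous_fst.comp (continuous_subtype_val.comp continuous_snd)).prodMk
          (continuous_nm w hwc hw0)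
      map_zero_left := by
        intro x
        apply Subtype.ext
        refine Prod.ext rfl ?_
        apply Subtype.ext
        show ‖w (0, x)‖⁻¹ • w (0, x)
          = ι (‖π ((x.1.2 : Metric.sphere (0 : E) 1) : E)‖⁻¹ • π ((x.1.2 : Metric.sphere (0 : E) 1) : E))
        have : w (0, x) = ι (π ((x.1.2 : Metric.sphere (0 : E) 1) : E)) := by
          show ((0 : unitInterval) : ℝ) • _ + (1 - ((0 : unitInterval) : ℝ)) • _ = _
          simp
        rw [this, ι.norm_map, map_smul]
      map_one_left := by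
        intro x
        apply Subtype.ext
        refine Prod.ext rfl ?_
        refine nm_eq_of (w (1, x)) (hw0 _) x.1.2 ?_
        show ((1 : unitInterval) : ℝ) • _ + (1 - ((1 : unitInterval) : ℝ)) • _ = _
        simp }
  refine ⟨⟨f, g, ⟨H⟩, ?_⟩⟩
  have : f.comp g = ContinuousMap.id (Y × Metric.sphere (0 : F) 1) := by
    ext1 y
    refine Prod.ext rfl ?_
    apply Subtype.ext
    show ‖π (ι (y.2 : F))‖⁻¹ • π (ι (y.2 : F)) = (y.2 : F)
    rw [hπ, norm_one, inv_one, one_smul]
  rw [this]

abbrev EE (n : ℕ) : Type := EuclideanSpace ℝ (Fin (n + 1))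

def p0 (n : ℕ) : EE (n + 1) := EuclideanSpace.single (Fin.last (n + 1)) (1 : ℝ)

theorem p0_norm (n : ℕ) : ‖p0 n‖ = 1 := by
  unfold p0
  rw [PiLp.norm_single]
  simp

theorem p0_last (n : ℕ) : p0 n (Fin.last (n + 1)) = 1 := by
  simp [p0]

theorem p0_cast (n : ℕ) (i : Fin (n + 1)) : p0 n i.castSucc = 0 := by
  simp [p0]

def pr (n : ℕ) : EE (n + 1) →ₗ[ℝ] EE n where
  toFun v := WithLp.toLp 2 (fun i => v i.castSucc)
  map_add' a b := by ext i; rfl
  map_smul' a b := by ext i; rfl

theorem pr_apply (n : ℕ) (v : EE (n + 1)) (i : Fin (n + 1)) : pr n v i = v i.castSucc := rfl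

def inj (n : ℕ) : EE n →ₗ[ℝ] EE (n + 1) where
  toFun v := WithLp.toLp 2 (Fin.snoc (fun i => v i) (0 : ℝ))
  map_add' a b := by
    ext i
    refine Fin.lastCases ?_ (fun j => ?_) i
    · show (Fin.snoc (α := fun _ => ℝ) _ (0 : ℝ) : Fin (n + 1 + 1) → ℝ) (Fin.last _) =
        (Fin.snoc (α := fun _ => ℝ) _ (0 : ℝ) : Fin (n + 1 + 1) → ℝ) (Fin.last _) +
        (Fin.snoc (α := fun _ => ℝ) _ (0 : ℝ) : Fin (n + 1 + 1) → ℝ) (Fin.last _)
      rw [Fin.snoc_last, Fin.snoc_last, Fin.snoc_last, add_zero]
    · show (Fin.snoc (α := fun _ => ℝ) (fun i => (a + b) i) (0 : ℝ) : Fin (n + 1 + 1) → ℝ) j.castSucc =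
        (Fin.snoc (α := fun _ => ℝ) (fun i => a i) (0 : ℝ) : Fin (n + 1 + 1) → ℝ) j.castSucc +
        (Fin.snoc (α := fun _ => ℝ) (fun i => b i) (0 : ℝ) : Fin (n + 1 + 1) → ℝ) j.castSucc
      rw [Fin.snoc_castSucc, Fin.snoc_castSucc, Fin.snoc_castSucc]
      rfl
  map_smul' a b := by
    ext i
    refine Fin.lastCases ?_ (fun j => ?_) i
    · show (Fin.snoc (α := fun _ => ℝ) (fun i => (a • b) i) (0 : ℝ) : Fin (n + 1 + 1) → ℝ) (Fin.last _) =
        a * (Fin.snoc (α := fun _ => ℝ) (fun i => b i) (0 : ℝ) : Fin (n + 1 + 1) → ℝ) (Fin.last _)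
      rw [Fin.snoc_last, Fin.snoc_last, mul_zero]
    · show (Fin.snoc (α := fun _ => ℝ) (fun i => (a • b) i) (0 : ℝ) : Fin (n + 1 + 1) → ℝ) j.castSucc =
        a * (Fin.snoc (α := fun _ => ℝ) (fun i => b i) (0 : ℝ) : Fin (n + 1 + 1) → ℝ) j.castSucc
      rw [Fin.snoc_castSucc, Fin.snoc_castSucc]
      rfl

theorem inj_last (n : ℕ) (v : EE n) : inj n v (Fin.last (n + 1)) = 0 := by
  show (Fin.snoc (α := fun _ => ℝ) (fun i => v i) (0 : ℝ) : Fin (n + 1 + 1) → ℝ) (Fin.last _) = 0
  rw [Fin.snoc_last]

theorem inj_cast (n : ℕ) (v : EE n) (j : Fin (n + 1)) : inj n v j.castSucc = v j := by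
  show (Fin.snoc (α := fun _ => ℝ) (fun i => v i) (0 : ℝ) : Fin (n + 1 + 1) → ℝ) j.castSucc = v j
  rw [Fin.snoc_castSucc]

def inji (n : ℕ) : EE n →ₗᵢ[ℝ] EE (n + 1) := ⟨inj n, by
  intro v
  rw [EuclideanSpace.norm_eq, EuclideanSpace.norm_eq, Fin.sum_univ_castSucc, inj_last]
  simp only [inj_cast, norm_zero]
  simp⟩

def prc (n : ℕ) : EE (n + 1) →L[ℝ] EE n := LinearMap.toContinuousLinearMap (pr n)

theorem prc_inji (n : ℕ) (w : EE n) : prc n (inji n w) = w := by
  ext i
  exact inj_cast n w i

theorem prc_p0 (n : ℕ) : prc n (p0 n) = 0 := by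
  ext i
  exact p0_cast n i

def pp (n : ℕ) : Sp (n + 1) := ⟨p0 n, mem_sphere_zero_iff_norm.mpr (p0_norm n)⟩

theorem hker (n : ℕ) (v : Sp (n + 1)) : prc n (v : EE (n + 1)) = 0 ↔ (v = pp n ∨ v = -(pp n)) := by
  constructor
  · intro h
    have h1 : ∀ i : Fin (n + 1), (v : EE (n + 1)) i.castSucc = 0 := by
      intro i
      exact congrArg (fun u : EE n => u i) h
    have h2 : (v : EE (n + 1)) = ((v : EE (n + 1)) (Fin.last (n + 1))) • p0 n := by
      ext i
      refine Fin.lastCases ?_ (fun j => ?_) i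
      · show _ = _ * p0 n (Fin.last (n + 1))
        rw [p0_last, mul_one]
      · show _ = _ * p0 n j.castSucc
        rw [h1 j, p0_cast, mul_zero]
    have h3 : ‖(v : EE (n + 1))‖ = 1 := norm_one v
    rw [h2, norm_smul, p0_norm, mul_one, Real.norm_eq_abs] at h3
    rcases eq_or_eq_neg_of_abs_eq h3 with h4 | h4
    · left
      apply Subtype.ext
      rw [h2, h4, one_smul]
      rfl
    · right
      apply Subtype.ext
      rw [h2, h4, neg_one_smul]
      rfl
  · rintro (h | h)
    · rw [h]; exact prc_p0 n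
    · rw [h]
      show prc n (-(p0 n)) = 0
      rw [map_neg, prc_p0, neg_zero]

end sphGeo_aux

/-- TARGET -/
theorem sphGeo : S_sphGeo := by
  intro Y _ n
  refine ⟨{x | x.2 ≠ sphGeo_aux.pp n}, {x | x.2 ≠ -(sphGeo_aux.pp n)}, ?_, ?_, ?_, ?_, ?_, ?_⟩
  · exact isOpen_ne_fun continuous_snd continuous_const
  · exact isOpen_ne_fun continuous_snd continuous_const
  · intro x
    by_cases h : x.2 = sphGeo_aux.pp n
    · right
      show x.2 ≠ -(sphGeo_aux.pp n)
      rw [h]
      intro h'
      have h1 : (sphGeo_aux.p0 n) = -(sphGeo_aux.p0 n) := congrArg Subtype.val h'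
      have h3 : sphGeo_aux.p0 n = 0 := by
        have : (2 : ℝ) • sphGeo_aux.p0 n = 0 := by
          rw [two_smul]; nth_rewrite 1 [h1]; exact neg_add_cancel _
        exact (smul_eq_zero.mp this).resolve_left two_ne_zero
      exact sphGeo_aux.ne_zero (sphGeo_aux.pp n) h3
    · left; exact h
  · exact sphGeo_aux.punct Y (sphGeo_aux.pp n)
  · exact sphGeo_aux.punct Y (-(sphGeo_aux.pp n))
  · have hset : ({x : Y × Sp (n + 1) | x.2 ≠ sphGeo_aux.pp n} ∩ {x | x.2 ≠ -(sphGeo_aux.pp n)})
        = {x : Y × Sp (n + 1) | sphGeo_aux.prc n (x.2 : sphGeo_aux.EE (n + 1)) ≠ 0} := by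
      ext x
      show (x.2 ≠ _ ∧ x.2 ≠ _) ↔ sphGeo_aux.prc n (x.2 : sphGeo_aux.EE (n + 1)) ≠ 0
      rw [Ne, Ne, Ne, sphGeo_aux.hker, not_or]
    rw [hset]
    exact sphGeo_aux.equator Y (sphGeo_aux.inji n) (sphGeo_aux.prc n) (sphGeo_aux.prc_inji n)

end

end Pool.Agent.Helper965_Rud
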