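import Pool.Agent.Helper965_Rud.Stmts2

/-!
Equivariant Tietze extension.
-/

set_option autoImplicit false

namespace Pool.Agent.Helper965_Rud

open scoped ComplexConjugate unitInterval
open Pool.Agent.Helper534.LS (HH hmap sub inl inr delta)

noncomputable section

/-- TARGET -/
theorem tietzeS : S_tietze := by
  intro X _ _ _ _ m E hE hEq hne K hK φ hφ hφeq
  classical
  -- the sum of the squares
  set S : X → ℝ := fun x => ∑ l, ‖E x l‖ ^ 2 with hS
  have hEk : ∀ k, Continuous fun x => E x k := fun k => (continuous_apply k).comp hE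
  have hScont : Continuous S := by
    refine continuous_finsetSum _ fun l _ => ?_
    exact ((hEk l).norm).pow 2
  have hSpos : ∀ x, 0 < S x := by
    intro x
    obtain ⟨k, hk⟩ := Function.ne_iff.mp (hne x)
    refine Finset.sum_pos' (fun l _ => by positivity) ⟨k, Finset.mem_univ _, ?_⟩
    have : 0 < ‖E x k‖ := norm_pos_iff.mpr (by simpa using hk)
    positivity
  have hEact : ∀ (x : X) (g : Sp1) (k : Fin m), E (act x g) k = E x k * (g : Hq) := by
    intro x g k
    rw [hEq x g]
    rfl
  have hgn : ∀ g : Sp1, ‖(g : Hq)‖ = 1 := fun g => by simp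
  have hgs : ∀ g : Sp1, (g : Hq) * star (g : Hq) = 1 := by
    intro g
    rw [Quaternion.self_mul_star, Quaternion.normSq_eq_norm_mul_self, hgn]
    simp
  have hSact : ∀ (x : X) (g : Sp1), S (act x g) = S x := by
    intro x g
    refine Finset.sum_congr rfl fun l _ => ?_
    rw [hEact, norm_mul, hgn, mul_one]
  -- the coefficient functions
  set f : ↥((mk : X → Orb X) ⁻¹' K) → Fin m → Hq :=
    fun x k => (S x.1)⁻¹ • (φ x * star (E x.1 k)) with hf
  have hfcont : Continuous f := by
    refine continuous_pi fun k => ?_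
    have h1 : Continuous fun x : ↥((mk : X → Orb X) ⁻¹' K) => (S x.1)⁻¹ :=
      (hScont.comp continuous_subtype_val).inv₀ fun x => (hSpos x.1).ne'
    have h2 : Continuous fun x : ↥((mk : X → Orb X) ⁻¹' K) => φ x * star (E x.1 k) :=
      hφ.mul ((hEk k).comp continuous_subtype_val).star
    exact h1.smul h2
  have hfinv : ∀ x y : ↥((mk : X → Orb X) ⁻¹' K), mk x.1 = mk y.1 → f x = f y := by
    intro x y hxy
    obtain ⟨g, hg⟩ := mk_eq_iff.1 hxy
    funext k
    simp only [hf]
    rw [hφeq x y g hg, hg, hSact, hEact, star_mul]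
    congr 1
    calc φ x * star (E x.1 k) = φ x * 1 * star (E x.1 k) := by rw [mul_one]
      _ = φ x * ((g : Hq) * star (g : Hq)) * star (E x.1 k) := by rw [hgs]
      _ = φ x * (g : Hq) * (star (g : Hq) * star (E x.1 k)) := by simp only [mul_assoc]
  -- the quotient map over `K`
  have hq : IsOpenQuotientMap (K.restrictPreimage (mk : X → Orb X)) :=
    isOpenQuotientMap_mk.restrictPreimage K
  set F0 : K → Fin m → Hq := fun y => f (Function.surjInv hq.surjective y) with hF0
  have hF0c : ∀ x, F0 (K.restrictPreimage (mk : X → Orb X) x) = f x := by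
    intro x
    simp only [hF0]
    apply hfinv
    have := Function.surjInv_eq hq.surjective (K.restrictPreimage (mk : X → Orb X) x)
    exact congrArg Subtype.val this
  have hF0cont : Continuous F0 := by
    rw [hq.isQuotientMap.continuous_iff]
    have : F0 ∘ K.restrictPreimage (mk : X → Orb X) = f := funext hF0c
    rw [this]
    exact hfcont
  have : TietzeExtension.{0, 0} (Fin m → Hq) := TietzeExtension.of_tvs ℝ
  obtain ⟨F, hF⟩ := ContinuousMap.exists_restrict_eq hK ⟨F0, hF0cont⟩
  have hFK : ∀ x : ↥((mk : X → Orb X) ⁻¹' K), F (mk x.1) = f x := by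
    intro x
    rw [← hF0c x]
    exact congrArg (fun G : C(K, Fin m → Hq) => G (K.restrictPreimage (mk : X → Orb X) x)) hF
  refine ⟨fun x => ∑ k, F (mk x) k * E x k, ?_, ?_, ?_⟩
  · refine continuous_finsetSum _ fun k _ => ?_
    exact ((continuous_apply k).comp (F.continuous.comp continuous_mk)).mul (hEk k)
  · intro x g
    rw [Finset.sum_mul]
    refine Finset.sum_congr rfl fun k _ => ?_
    rw [mk_act, hEact, mul_assoc]
  · intro x
    show ∑ k, F (mk x.1) k * E x.1 k = φ x
    rw [hFK x]
    simp only [hf]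
    have h1 : ∀ k : Fin m, (S x.1)⁻¹ • (φ x * star (E x.1 k)) * E x.1 k =
        ((S x.1)⁻¹ * ‖E x.1 k‖ ^ 2) • φ x := by
      intro k
      rw [smul_mul_assoc, mul_assoc, Quaternion.star_mul_self, Quaternion.normSq_eq_norm_mul_self,
        ← pow_two, mul_smul, Quaternion.mul_coe_eq_smul]
    rw [Finset.sum_congr rfl (fun k _ => h1 k), ← Finset.sum_smul, ← Finset.mul_sum]
    have h2 : (S x.1)⁻¹ * ∑ i, ‖E x.1 i‖ ^ 2 = 1 := inv_mul_cancel₀ (hSpos x.1).ne'
    rw [h2, one_smul]

end

end Pool.Agent.Helper965_Rud
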