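import Pool.Agent.Helper965_Rud.Stmts2

set_option autoImplicit false

namespace Pool.Agent.Helper965_Rud

open scoped ComplexConjugate unitInterval
open Pool.Agent.Helper534.LS (HH hmap sub inl inr delta)

noncomputable section

namespace toFS_aux

open Filter Topology

/-- euclidean norm -/
def nv (v : Fin 3 → ℝ) : ℝ := Real.sqrt (∑ i, v i ^ 2)

theorem nv_sq (v : Fin 3 → ℝ) : nv v ^ 2 = ∑ i, v i ^ 2 :=
  Real.sq_sqrt (Finset.sum_nonneg fun i _ => sq_nonneg _)

theorem nv_nonneg (v : Fin 3 → ℝ) : 0 ≤ nv v := Real.sqrt_nonneg _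

theorem nv_neg (v : Fin 3 → ℝ) : nv (-v) = nv v := by
  unfold nv
  congr 1
  refine Finset.sum_congr rfl fun i _ => ?_
  simp

theorem nv_zero : nv 0 = 0 := by
  unfold nv
  simp

theorem nv_pos {v : Fin 3 → ℝ} (h : v ≠ 0) : 0 < nv v := by
  rcases (nv_nonneg v).lt_or_eq with h1 | h1
  · exact h1
  · exfalso
    apply h
    have h2 := nv_sq v
    rw [← h1] at h2
    funext i
    have h3 : v i ^ 2 ≤ ∑ i, v i ^ 2 := Finset.single_le_sum (f := fun i => v i ^ 2)
      (fun j _ => sq_nonneg _) (Finset.mem_univ i)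
    have h4 : v i ^ 2 = 0 := le_antisymm (by rw [← h2] at h3; simpa using h3) (sq_nonneg _)
    simpa using h4

theorem continuous_nv : Continuous nv := by
  unfold nv
  fun_prop

/-- the angle -/
def zt (v : Fin 3 → ℝ) : ℂ := ((v 0 / nv v : ℝ) : ℂ) + ((v 1 / nv v : ℝ) : ℂ) * Complex.I

theorem zt_sq (v : Fin 3 → ℝ) : ‖zt v‖ ^ 2 = (v 0 ^ 2 + v 1 ^ 2) / nv v ^ 2 := by
  rw [← Complex.normSq_eq_norm_sq]
  unfold zt
  rw [Complex.normSq_add_mul_I]
  rw [div_pow, div_pow, add_div]

theorem zt_le (v : Fin 3 → ℝ) : ‖zt v‖ ≤ 1 := by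
  rw [← sq_le_one_iff₀ (norm_nonneg _), zt_sq]
  refine div_le_one_of_le₀ ?_ (sq_nonneg _)
  rw [nv_sq, Fin.sum_univ_three]
  linarith [sq_nonneg (v 2)]

theorem zt_one {v : Fin 3 → ℝ} (h : v ≠ 0) (h2 : v 2 = 0) : ‖zt v‖ = 1 := by
  have h3 : ‖zt v‖ ^ 2 = 1 ^ 2 := by
    rw [zt_sq, nv_sq, Fin.sum_univ_three, h2]
    have h4 : v 0 ^ 2 + v 1 ^ 2 ≠ 0 := by
      have := nv_pos h
      have h5 := nv_sq v
      rw [Fin.sum_univ_three, h2] at h5
      intro h6
      have h7 : nv v ^ 2 = 0 := by rw [h5, h6]; norm_num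
      have : 0 < nv v ^ 2 := by positivity
      linarith
    rw [one_pow]
    have e : v 0 ^ 2 + v 1 ^ 2 + (0 : ℝ) ^ 2 = v 0 ^ 2 + v 1 ^ 2 := by ring
    rw [e, div_self h4]
  exact (sq_eq_sq₀ (norm_nonneg _) zero_le_one).1 h3

theorem zt_neg (v : Fin 3 → ℝ) : zt (-v) = -zt v := by
  unfold zt
  rw [nv_neg]
  simp only [Pi.neg_apply, neg_div, Complex.ofReal_neg]
  ring

variable {k : ℕ}

/-- the map to the sphere -/
def sg (x : Sig k) : Sph k :=
  ⟨(((2 * nv x.1.1 : ℝ) : ℂ) * x.1.2.1, fun i => 2 * nv x.1.1 * x.1.2.2 i,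
    ‖x.1.2.1‖ ^ 2 + ∑ i, x.1.2.2 i ^ 2 - ∑ i, x.1.1 i ^ 2), by
    have h := x.2
    have h1 := nv_sq x.1.1
    simp only
    rw [norm_mul, Complex.norm_real, Real.norm_eq_abs, mul_pow, sq_abs]
    have h2 : ∑ i, (2 * nv x.1.1 * x.1.2.2 i) ^ 2 = 4 * nv x.1.1 ^ 2 * ∑ i, x.1.2.2 i ^ 2 := by
      rw [Finset.mul_sum]
      refine Finset.sum_congr rfl fun i _ => ?_
      ring
    rw [h2, ← h1]
    rw [← h1] at h
    generalize nv x.1.1 = n at *
    generalize ‖x.1.2.1‖ = B at *
    generalize ∑ i, x.1.2.2 i ^ 2 = Y at *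
    have h3 : (n ^ 2 + B ^ 2 + Y) ^ 2 = 1 := by rw [h]; norm_num
    linarith [h3]⟩

theorem continuous_sg : Continuous (sg : Sig k → Sph k) := by
  refine Continuous.subtype_mk ?_ _
  have h : Continuous fun p : Sig k => p.1 := continuous_subtype_val
  have h1 : Continuous fun p : Sig k => p.1.1 := continuous_fst.comp h
  have h2 : Continuous fun p : Sig k => p.1.2.1 := continuous_fst.comp (continuous_snd.comp h)
  have h3 : Continuous fun p : Sig k => p.1.2.2 := continuous_snd.comp (continuous_snd.comp h)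
  have h4 : Continuous fun p : Sig k => nv p.1.1 := continuous_nv.comp h1
  refine Continuous.prodMk ?_ (Continuous.prodMk ?_ ?_)
  · exact (Complex.continuous_ofReal.comp (continuous_const.mul h4)).mul h2
  · refine continuous_pi fun i => ?_
    exact (continuous_const.mul h4).mul ((continuous_apply i).comp h3)
  · refine (Continuous.add (h2.norm.pow 2) ?_).sub ?_
    · exact continuous_finsetSum _ fun i _ => ((continuous_apply i).comp h3).pow 2
    · exact continuous_finsetSum _ fun i _ => ((continuous_apply i).comp h1).pow 2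

theorem sg_pole (x : Sig k) (h : x.1.1 = 0) : sg x = pole k := by
  apply Subtype.ext
  have h1 := x.2
  unfold sg pole
  simp only [h, nv_zero]
  rw [h] at h1
  simp only [Pi.zero_apply] at h1 ⊢
  refine Prod.ext ?_ (Prod.ext ?_ ?_)
  · simp
  · funext i
    simp
  · simp only
    simp at h1 ⊢
    linarith

/-- the antipode of the first two coordinates -/
def ng (x : Sig k) : Sig k := ⟨(-x.1.1, -x.1.2.1, x.1.2.2), by
  have h := x.2
  simp only [Pi.neg_apply, norm_neg, neg_sq]
  exact h⟩

theorem continuous_ng : Continuous (ng : Sig k → Sig k) := by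
  refine Continuous.subtype_mk ?_ _
  have h : Continuous fun p : Sig k => p.1 := continuous_subtype_val
  exact (continuous_fst.comp h).neg.prodMk ((continuous_fst.comp (continuous_snd.comp h)).neg.prodMk
    (continuous_snd.comp (continuous_snd.comp h)))

theorem ng_ng (x : Sig k) : ng (ng x) = x := by
  apply Subtype.ext
  unfold ng
  simp

theorem sg_ng1 (x : Sig k) : (sg (ng x)).1.1 = -(sg x).1.1 := by
  unfold sg ng
  simp only [nv_neg, mul_neg]

theorem sg_ng2 (x : Sig k) : (sg (ng x)).1.2 = (sg x).1.2 := by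
  unfold sg ng
  simp only [nv_neg, norm_neg, Pi.neg_apply, neg_sq]

/-- the angle as a point of the disc -/
def zb (x : Sig k) : Metric.closedBall (0 : ℂ) 1 :=
  ⟨zt x.1.1, by rw [mem_closedBall_zero_iff]; exact zt_le _⟩

theorem continuousAt_zb (x : Sig k) (h : x.1.1 ≠ 0) : ContinuousAt (zb : Sig k → _) x := by
  rw [Topology.IsInducing.subtypeVal.continuousAt_iff]
  have h0 : Continuous fun p : Sig k => p.1 := continuous_subtype_val
  have h1 : Continuous fun p : Sig k => p.1.1 := continuous_fst.comp h0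
  have h4 : Continuous fun p : Sig k => nv p.1.1 := continuous_nv.comp h1
  have h5 : nv x.1.1 ≠ 0 := (nv_pos h).ne'
  have e : ∀ i : Fin 3, ContinuousAt (fun p : Sig k => ((p.1.1 i / nv p.1.1 : ℝ) : ℂ)) x :=
    fun i => Complex.continuous_ofReal.continuousAt.comp
      (((continuous_apply i).comp h1).continuousAt.div h4.continuousAt h5)
  exact (e 0).add ((e 1).mul continuousAt_const)

variable (h : Metric.closedBall (0 : ℂ) 1 × Sph k → Sph k)

/-- the map on the part where the third coordinate is nonnegative -/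
def PP (x : Sig k) : Sph k := h (zb x, sg x)

theorem continuous_PP (hc : Continuous h) (hp : ∀ z, h (z, pole k) = pole k) :
    Continuous (PP h) := by
  rw [continuous_iff_continuousAt]
  intro x
  by_cases hx : x.1.1 = 0
  · have hs := sg_pole x hx
    have hPx : PP h x = pole k := by
      unfold PP
      rw [hs, hp]
    unfold ContinuousAt
    rw [hPx]
    intro W hW
    rw [mem_map]
    obtain ⟨W', hW', hWo, hWm⟩ := mem_nhds_iff.1 hW
    have h1 : ∀ᶠ s in 𝓝 (pole k), ∀ z ∈ (Set.univ : Set (Metric.closedBall (0 : ℂ) 1)),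
        h (z, s) ∈ W' := by
      refine IsCompact.eventually_forall_of_forall_eventually isCompact_univ ?_
      intro z _
      have h2 : Continuous (fun q : Sph k × Metric.closedBall (0 : ℂ) 1 => h (q.2, q.1)) :=
        hc.comp (continuous_snd.prodMk continuous_fst)
      have h3 : (fun q : Sph k × Metric.closedBall (0 : ℂ) 1 => h (q.2, q.1)) (pole k, z) ∈ W' := by
        simp only [hp]
        exact hWm
      exact h2.continuousAt.eventually_mem (hWo.mem_nhds h3)
    have h4 : Tendsto sg (𝓝 x) (𝓝 (pole k)) := by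
      rw [← hs]
      exact continuous_sg.continuousAt
    filter_upwards [h4.eventually h1] with y hy
    exact hW' (hy _ (Set.mem_univ _))
  · exact hc.continuousAt.comp ((continuousAt_zb x hx).prodMk continuous_sg.continuousAt)

theorem PP_ng (hp : ∀ z, h (z, pole k) = pole k)
    (hb : ∀ (z : Metric.closedBall (0 : ℂ) 1) (x : Sph k), ‖(z : ℂ)‖ = 1 →
      (h (z, x)).1 = ((z : ℂ) * x.1.1, x.1.2)) (x : Sig k) (h2 : x.1.1 2 = 0) :
    PP h x = PP h (ng x) := by
  by_cases hx : x.1.1 = 0
  · have hx' : (ng x).1.1 = 0 := by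
      show -x.1.1 = 0
      rw [hx, neg_zero]
    unfold PP
    rw [sg_pole x hx, sg_pole _ hx', hp, hp]
  · apply Subtype.ext
    unfold PP
    have e1 : ‖((zb x : Metric.closedBall (0 : ℂ) 1) : ℂ)‖ = 1 := zt_one hx h2
    have e3 : ((zb (ng x) : Metric.closedBall (0 : ℂ) 1) : ℂ) =
        -((zb x : Metric.closedBall (0 : ℂ) 1) : ℂ) := zt_neg x.1.1
    have e2 : ‖((zb (ng x) : Metric.closedBall (0 : ℂ) 1) : ℂ)‖ = 1 := by
      rw [e3, norm_neg, e1]
    rw [hb _ _ e1, hb _ _ e2, e3, sg_ng1, sg_ng2, neg_mul_neg]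

end toFS_aux

open toFS_aux in
/-- TARGET -/
theorem toFS : S_toF := by
  intro k ⟨h, hc, hb, hp⟩
  have hP := continuous_PP h hc hp
  refine ⟨fun x => if 0 ≤ x.1.1 2 then PP h x else PP h (ng x), ?_, ?_, ?_⟩
  · have h0 : Continuous fun p : Sig k => p.1 := continuous_subtype_val
    have h1 : Continuous fun p : Sig k => p.1.1 2 :=
      (continuous_apply 2).comp (continuous_fst.comp h0)
    refine Continuous.if_le hP (hP.comp continuous_ng) continuous_const h1 ?_
    intro x hx
    exact PP_ng h hp hb x hx.symm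
  · intro x y hy
    have hyx : y = ng x := Subtype.ext hy
    have h3 : (ng x).1.1 2 = -(x.1.1 2) := rfl
    rw [hyx]
    simp only [h3]
    rcases lt_trichotomy (x.1.1 2) 0 with h4 | h4 | h4
    · rw [if_pos (by linarith), if_neg (by linarith)]
    · rw [if_pos (by linarith), if_pos (by linarith)]
      exact (PP_ng h hp hb x h4).symm
    · rw [if_neg (by linarith), if_pos (by linarith), ng_ng]
  · intro x h1 h2
    simp only [h2, le_refl, if_true]
    have hV : ∑ i, x.1.1 i ^ 2 = x.1.1 0 ^ 2 := by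
      rw [Fin.sum_univ_three, h1, h2]
      ring
    have hn : nv x.1.1 = |x.1.1 0| := by
      unfold nv
      rw [hV, Real.sqrt_sq_eq_abs]
    by_cases hx : x.1.1 = 0
    · have e : PP h x = pole k := by
        unfold PP
        rw [sg_pole x hx, hp]
      rw [e]
      have h3 := x.2
      rw [hV, hx] at h3
      rw [hx]
      unfold pole
      refine Prod.ext ?_ (Prod.ext ?_ ?_)
      · simp
      · funext i
        simp
      · simp at h3 ⊢
        linarith
    · have e1 : ‖((zb x : Metric.closedBall (0 : ℂ) 1) : ℂ)‖ = 1 := zt_one hx h2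
      have e0 : x.1.1 0 ≠ 0 := by
        intro h3
        apply hx
        funext i
        fin_cases i
        · exact h3
        · exact h1
        · exact h2
      have e2 : ((zb x : Metric.closedBall (0 : ℂ) 1) : ℂ) = ((x.1.1 0 / |x.1.1 0| : ℝ) : ℂ) := by
        show zt x.1.1 = _
        unfold zt
        rw [hn, h1]
        simp
      unfold PP
      rw [hb _ _ e1, e2]
      unfold sg
      simp only
      rw [hn, hV]
      refine Prod.ext ?_ rfl
      simp only
      rw [← mul_assoc, ← Complex.ofReal_mul]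
      have e3 : x.1.1 0 / |x.1.1 0| * (2 * |x.1.1 0|) = 2 * x.1.1 0 := by
        have : |x.1.1 0| ≠ 0 := abs_ne_zero.2 e0
        field_simp
      rw [e3]
      push_cast
      ring

end

end Pool.Agent.Helper965_Rud
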