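import Pool.Agent.Helper965_Rud.Stmts2

/-!
# From an equivariant map to the map `H` (job toHS of helper965, MP_89fcdb_gt)
-/

set_option autoImplicit false

namespace Pool.Agent.Helper965_Rud

open scoped ComplexConjugate unitInterval
open Pool.Agent.Helper534.LS (HH hmap sub inl inr delta)

noncomputable section

namespace toHS_aux

/-- the boundary of the ball -/
def bd (y : S9) : D10 := ⟨y.1, y.2.le⟩

theorem continuous_bd : Continuous bd := Continuous.subtype_mk continuous_subtype_val _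

/-- the model map on the boundary -/
def gg (p : S11 × S9) : Fin 5 → Hq :=
  ![lc p.1.1.2.1 * jj + lc (p.2.1.1 * p.1.1.1), p.1.1.2.2.1, p.1.1.2.2.2, p.2.1.2.1, p.2.1.2.2]

theorem continuous_gg : Continuous gg := by
  have hq : Continuous fun p : S11 × S9 => p.1.1 := continuous_subtype_val.comp continuous_fst
  have hy : Continuous fun p : S11 × S9 => p.2.1 := continuous_subtype_val.comp continuous_snd
  refine continuous_pi fun i => ?_
  fin_cases i
  · have h1 : Continuous fun p : S11 × S9 => lc p.1.1.2.1 :=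
      continuous_lc.comp (continuous_fst.comp (continuous_snd.comp hq))
    have h2 : Continuous fun p : S11 × S9 => lc (p.2.1.1 * p.1.1.1) :=
      continuous_lc.comp ((continuous_fst.comp hy).mul (continuous_fst.comp hq))
    exact (h1.mul continuous_const).add h2
  · exact continuous_fst.comp (continuous_snd.comp (continuous_snd.comp hq))
  · exact continuous_snd.comp (continuous_snd.comp (continuous_snd.comp hq))
  · exact continuous_fst.comp (continuous_snd.comp hy)
  · exact continuous_snd.comp (continuous_snd.comp hy)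

/-- the identification of the target with `ℝ²⁰` -/
def kappa (v : Fin 5 → Hq) : ℂ × ℂ × Hq × Hq × Hq × Hq :=
  (cp (v 0), ⟨(v 0).imJ, (v 0).imK⟩, v 1, v 2, v 3, v 4)

theorem continuous_kappa : Continuous kappa := by
  have h0 : Continuous fun v : Fin 5 → Hq => v 0 := continuous_apply 0
  refine (continuous_cp.comp h0).prodMk (Continuous.prodMk ?_ ((continuous_apply 1).prodMk
    ((continuous_apply 2).prodMk ((continuous_apply 3).prodMk (continuous_apply 4)))))
  have h1 : Continuous fun v : Fin 5 → Hq => ((v 0).imJ : ℂ) + ((v 0).imK : ℂ) * Complex.I :=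
    (Complex.continuous_ofReal.comp (Quaternion.continuous_imJ.comp h0)).add
      ((Complex.continuous_ofReal.comp (Quaternion.continuous_imK.comp h0)).mul continuous_const)
  refine h1.congr fun v => ?_
  apply Complex.ext <;> simp

theorem kappa_ne_zero {v : Fin 5 → Hq} (h : v ≠ 0) : kappa v ≠ 0 := by
  intro h0
  apply h
  simp only [kappa, Prod.mk_eq_zero] at h0
  obtain ⟨h1, h2, h3, h4, h5, h6⟩ := h0
  have h7 : v 0 = 0 := by
    rw [eq_lc_add (v 0), h1, h2]
    simp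
  funext i
  fin_cases i
  · exact h7
  · exact h3
  · exact h4
  · exact h5
  · exact h6

theorem kappa_gg (p : S11 × S9) : kappa (gg p) =
    (p.2.1.1 * p.1.1.1, p.1.1.2.1, p.1.1.2.2.1, p.1.1.2.2.2, p.2.1.2.1, p.2.1.2.2) := by
  have h1 : gg p 0 = lc p.1.1.2.1 * jj + lc (p.2.1.1 * p.1.1.1) := rfl
  have h2 : cp (gg p 0) = p.2.1.1 * p.1.1.1 := by
    rw [h1, cp_add, cp_lc_mul, cp_lc]
    have : cp jj = 0 := by apply Complex.ext <;> rfl
    rw [this, mul_zero, zero_add]
  have h3 : (⟨(gg p 0).imJ, (gg p 0).imK⟩ : ℂ) = p.1.1.2.1 := by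
    rw [h1]
    apply Complex.ext <;> simp
  rw [kappa, h2, h3]
  rfl

theorem gg_ne_zero (p : S11 × S9) (h : p.2.1.1 ≠ 0) : gg p ≠ 0 := by
  intro h0
  have h1 := kappa_gg p
  rw [h0] at h1
  have h2 : kappa 0 = 0 := Prod.ext cp_zero (Prod.ext (by apply Complex.ext <;> rfl) rfl)
  rw [h2] at h1
  have h3 := h1.symm
  simp only [Prod.mk_eq_zero] at h3
  obtain ⟨h4, h5, h6, h7, -, -⟩ := h3
  have h8 : p.1.1.1 = 0 := by
    rcases mul_eq_zero.mp h4 with h | h'
    · exact absurd h (by assumption)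
    · exact h'
  have h9 := p.1.2
  rw [h8, h5, h6, h7] at h9
  simp at h9

end toHS_aux

open toHS_aux

/-- TARGET -/
theorem toHS (h1 : S_T) (h2 : S_ext) : S_toH := by
  rintro hGP ⟨Φ, hΦc, hΦe, hΦn⟩
  obtain ⟨T, hTc, hT⟩ := h1
  obtain ⟨h, hhc, hh0, hh1, hhn⟩ := hGP Φ hΦc hΦe hΦn
  have hTZ : ∀ p : S11 × S9, T (p.1, bd p.2) ∈ ZZ := fun p => (hT (p.1, bd p.2) p.2.2).1
  have hTb : Continuous fun p : S11 × S9 => T (p.1, bd p.2) :=
    hTc.comp (continuous_fst.prodMk (continuous_bd.comp continuous_snd))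
  -- first extension
  obtain ⟨F1, hF1c, hF1⟩ := h2 S11 {v : Fin 5 → Hq // v ≠ 0} (fun p => ⟨Φ (T p), hΦn (T p)⟩)
    (fun p => ⟨h (⟨T (p.1.1, bd p.1.2), hTZ p.1⟩, p.2), hhn _⟩)
    (Continuous.subtype_mk (hΦc.comp hTc) _)
    (Continuous.subtype_mk (hhc.comp ((Continuous.subtype_mk (hTb.comp continuous_fst) _).prodMk
      continuous_snd)) _)
    (fun a y => Subtype.ext (hh0 _))
  have hF1' : ∀ (a : S11) (y : S9), (F1 (a, bd y)).1 = E5 (T (a, bd y)) := by
    intro a y
    have := congrArg Subtype.val (hF1 a y)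
    exact this.trans (hh1 _)
  -- second extension
  have hk : ∀ q : (S11 × S9) × I,
      (1 - (q.2 : ℝ)) • E5 (T (q.1.1, bd q.1.2)) + (q.2 : ℝ) • gg q.1 ≠ 0 := by
    rintro ⟨p, t⟩ h0
    obtain ⟨-, μ, hμ, hE⟩ := hT (p.1, bd p.2) p.2.2
    change μ = cp (p.1.1.2.2.1 * star p.2.1.2.1 + p.1.1.2.2.2 * star p.2.1.2.2) -
      p.2.1.1 * p.1.1.1 at hμ
    change E5 (T (p.1, bd p.2)) = ![lc p.1.1.2.1 * jj - lc μ, p.1.1.2.2.1 - lc μ * p.2.1.2.1,
        p.1.1.2.2.2 - lc μ * p.2.1.2.2, p.2.1.2.1, p.2.1.2.2] at hE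
    simp only at h0
    rw [hE] at h0
    have hc1 : p.2.1.2.1 = 0 := by
      have h3 := congrFun h0 3
      have h4 : (1 - (t : ℝ)) • p.2.1.2.1 + (t : ℝ) • p.2.1.2.1 = 0 := h3
      rwa [← add_smul, sub_add_cancel, one_smul] at h4
    have hc2 : p.2.1.2.2 = 0 := by
      have h3 := congrFun h0 4
      have h4 : (1 - (t : ℝ)) • p.2.1.2.2 + (t : ℝ) • p.2.1.2.2 = 0 := h3
      rwa [← add_smul, sub_add_cancel, one_smul] at h4
    have hz : p.2.1.1 ≠ 0 := by
      intro hz
      have := p.2.2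
      rw [hz, hc1, hc2] at this
      simp at this
    have hμ' : μ = -(p.2.1.1 * p.1.1.1) := by
      rw [hμ, hc1, hc2]
      simp
    have hEg : ![lc p.1.1.2.1 * jj - lc μ, p.1.1.2.2.1 - lc μ * p.2.1.2.1,
        p.1.1.2.2.2 - lc μ * p.2.1.2.2, p.2.1.2.1, p.2.1.2.2] = gg p := by
      rw [gg, hμ', hc1, hc2, lc_neg, sub_neg_eq_add, mul_zero, sub_zero, sub_zero]
    rw [hEg, ← add_smul, sub_add_cancel, one_smul] at h0
    exact gg_ne_zero p hz h0
  have hkc : Continuous fun q : (S11 × S9) × I =>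
      (1 - (q.2 : ℝ)) • E5 (T (q.1.1, bd q.1.2)) + (q.2 : ℝ) • gg q.1 := by
    have ht : Continuous fun q : (S11 × S9) × I => (q.2 : ℝ) :=
      continuous_subtype_val.comp continuous_snd
    exact ((continuous_const.sub ht).smul (continuous_E5.comp (hTb.comp continuous_fst))).add
      (ht.smul (continuous_gg.comp continuous_fst))
  obtain ⟨F, hFc, hF⟩ := h2 S11 {v : Fin 5 → Hq // v ≠ 0} F1
    (fun q => ⟨(1 - (q.2 : ℝ)) • E5 (T (q.1.1, bd q.1.2)) + (q.2 : ℝ) • gg q.1, hk q⟩) hF1c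
    (Continuous.subtype_mk hkc _) (by
      intro a y
      apply Subtype.ext
      change (1 - ((0 : I) : ℝ)) • E5 (T (a, bd y)) + ((0 : I) : ℝ) • gg (a, y) = (F1 (a, bd y)).1
      rw [hF1' a y]
      simp)
  refine ⟨fun p => kappa (F p).1, continuous_kappa.comp (continuous_subtype_val.comp hFc),
    fun p => kappa_ne_zero (F p).2, ?_⟩
  rintro ⟨a, b⟩ hb
  have h3 := congrArg Subtype.val (hF a ⟨b.1, hb⟩)
  change (F (a, b)).1 = (1 - ((1 : I) : ℝ)) • E5 (T (a, bd ⟨b.1, hb⟩)) + ((1 : I) : ℝ) • gg (a, ⟨b.1, hb⟩) at h3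
  have h4 : (F (a, b)).1 = gg (a, ⟨b.1, hb⟩) := by
    rw [h3]
    simp
  change kappa (F (a, b)).1 = _
  rw [h4, kappa_gg]

end

end Pool.Agent.Helper965_Rud
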