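import Pool.Agent.Helper965_Rud.Stmts2

set_option autoImplicit false

namespace Pool.Agent.Helper965_Rud

open scoped ComplexConjugate unitInterval
open Pool.Agent.Helper534.LS (HH hmap sub inl inr delta)

noncomputable section

namespace toNullS_aux

/-- the coordinates `(ζ, q₂, q₃, c₂, c₃)` -/
abbrev W5 : Type := ℂ × Hq × Hq × Hq × Hq

/-- the square of the Euclidean norm -/
def q5 (w : W5) : ℝ := ‖w.1‖ ^ 2 + ‖w.2.1‖ ^ 2 + ‖w.2.2.1‖ ^ 2 + ‖w.2.2.2.1‖ ^ 2 + ‖w.2.2.2.2‖ ^ 2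

/-- real coordinates -/
def L (w : W5) : (Fin 17 → ℝ) × ℝ :=
  (![w.1.re, w.1.im, w.2.1.re, w.2.1.imI, w.2.1.imJ, w.2.1.imK,
    w.2.2.1.re, w.2.2.1.imI, w.2.2.1.imJ, w.2.2.1.imK,
    w.2.2.2.1.re, w.2.2.2.1.imI, w.2.2.2.1.imJ, w.2.2.2.1.imK,
    w.2.2.2.2.re, w.2.2.2.2.imI, w.2.2.2.2.imJ], w.2.2.2.2.imK)

/-- a quaternion -/
def qm (a b c d : ℝ) : Hq := ⟨a, b, c, d⟩

@[simp] lemma qm_re (a b c d : ℝ) : (qm a b c d).re = a := rfl
@[simp] lemma qm_imI (a b c d : ℝ) : (qm a b c d).imI = b := rfl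
@[simp] lemma qm_imJ (a b c d : ℝ) : (qm a b c d).imJ = c := rfl
@[simp] lemma qm_imK (a b c d : ℝ) : (qm a b c d).imK = d := rfl

/-- a complex number -/
def zm (a b : ℝ) : ℂ := ⟨a, b⟩

/-- the inverse -/
def L' (y : (Fin 17 → ℝ) × ℝ) : W5 :=
  (zm (y.1 0) (y.1 1), qm (y.1 2) (y.1 3) (y.1 4) (y.1 5), qm (y.1 6) (y.1 7) (y.1 8) (y.1 9),
    qm (y.1 10) (y.1 11) (y.1 12) (y.1 13), qm (y.1 14) (y.1 15) (y.1 16) y.2)

lemma L_L' (y : (Fin 17 → ℝ) × ℝ) : L (L' y) = y := by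
  refine Prod.ext ?_ rfl
  funext i
  fin_cases i <;> rfl

lemma norm_sq_q (q : Hq) : ‖q‖ ^ 2 = q.re ^ 2 + q.imI ^ 2 + q.imJ ^ 2 + q.imK ^ 2 := by
  rw [pow_two, ← Quaternion.normSq_eq_norm_mul_self, Quaternion.normSq_def']

lemma norm_sq_c (z : ℂ) : ‖z‖ ^ 2 = z.re ^ 2 + z.im ^ 2 := by
  rw [Complex.sq_norm, Complex.normSq_apply, pow_two, pow_two]

lemma q_L (w : W5) : ∑ i, (L w).1 i ^ 2 + (L w).2 ^ 2 = q5 w := by
  unfold q5
  rw [norm_sq_c, norm_sq_q, norm_sq_q, norm_sq_q, norm_sq_q]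
  simp [L, Fin.sum_univ_succ]
  ring

lemma q_L' (y : (Fin 17 → ℝ) × ℝ) : q5 (L' y) = ∑ i, y.1 i ^ 2 + y.2 ^ 2 := by
  rw [← q_L (L' y), L_L']

lemma continuous_qmk {X : Type} [TopologicalSpace X] {a b c d : X → ℝ} (ha : Continuous a)
    (hb : Continuous b) (hc : Continuous c) (hd : Continuous d) :
    Continuous fun x => qm (a x) (b x) (c x) (d x) := by
  have h : (fun x => qm (a x) (b x) (c x) (d x)) = fun x =>
      a x • qm 1 0 0 0 + b x • qm 0 1 0 0 + c x • qm 0 0 1 0 + d x • qm 0 0 0 1 := by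
    funext x
    ext <;> simp
  rw [h]
  exact (((ha.smul continuous_const).add (hb.smul continuous_const)).add
    (hc.smul continuous_const)).add (hd.smul continuous_const)

lemma continuous_cmk {X : Type} [TopologicalSpace X] {a b : X → ℝ} (ha : Continuous a)
    (hb : Continuous b) : Continuous fun x => zm (a x) (b x) := by
  have h : (fun x => zm (a x) (b x)) = fun x => a x • (1 : ℂ) + b x • Complex.I := by
    funext x
    apply Complex.ext <;> simp [zm]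
  rw [h]
  exact (ha.smul continuous_const).add (hb.smul continuous_const)

lemma continuous_L' : Continuous L' := by
  have h1 : ∀ i : Fin 17, Continuous fun y : (Fin 17 → ℝ) × ℝ => y.1 i := fun i =>
    (continuous_apply i).comp continuous_fst
  exact (continuous_cmk (h1 0) (h1 1)).prodMk
    ((continuous_qmk (h1 2) (h1 3) (h1 4) (h1 5)).prodMk
    ((continuous_qmk (h1 6) (h1 7) (h1 8) (h1 9)).prodMk
    ((continuous_qmk (h1 10) (h1 11) (h1 12) (h1 13)).prodMk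
    (continuous_qmk (h1 14) (h1 15) (h1 16) continuous_snd))))

lemma continuous_L : Continuous L := by
  have c1 : Continuous fun w : W5 => w.1 := continuous_fst
  have c2 : Continuous fun w : W5 => w.2.1 := by fun_prop
  have c3 : Continuous fun w : W5 => w.2.2.1 := by fun_prop
  have c4 : Continuous fun w : W5 => w.2.2.2.1 := by fun_prop
  have c5 : Continuous fun w : W5 => w.2.2.2.2 := by fun_prop
  refine Continuous.prodMk (continuous_pi fun i => ?_) (Quaternion.continuous_imK.comp c5)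
  fin_cases i
  · exact Complex.continuous_re.comp c1
  · exact Complex.continuous_im.comp c1
  · exact Quaternion.continuous_re.comp c2
  · exact Quaternion.continuous_imI.comp c2
  · exact Quaternion.continuous_imJ.comp c2
  · exact Quaternion.continuous_imK.comp c2
  · exact Quaternion.continuous_re.comp c3
  · exact Quaternion.continuous_imI.comp c3
  · exact Quaternion.continuous_imJ.comp c3
  · exact Quaternion.continuous_imK.comp c3
  · exact Quaternion.continuous_re.comp c4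
  · exact Quaternion.continuous_imI.comp c4
  · exact Quaternion.continuous_imJ.comp c4
  · exact Quaternion.continuous_imK.comp c4
  · exact Quaternion.continuous_re.comp c5
  · exact Quaternion.continuous_imI.comp c5
  · exact Quaternion.continuous_imJ.comp c5

/-- the ambient space -/
abbrev V6 : Type := ℂ × W5

/-- the square of the Euclidean norm -/
def q6 (v : V6) : ℝ := ‖v.1‖ ^ 2 + q5 v.2

lemma q5_nonneg (w : W5) : 0 ≤ q5 w := by unfold q5; positivity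

lemma q6_nonneg (v : V6) : 0 ≤ q6 v := add_nonneg (by positivity) (q5_nonneg _)

lemma q6_pos {v : V6} (hv : v ≠ 0) : 0 < q6 v := by
  refine lt_of_le_of_ne (q6_nonneg v) fun h => hv ?_
  have h' : ‖v.1‖ ^ 2 + (‖v.2.1‖ ^ 2 + ‖v.2.2.1‖ ^ 2 + ‖v.2.2.2.1‖ ^ 2 + ‖v.2.2.2.2.1‖ ^ 2
      + ‖v.2.2.2.2.2‖ ^ 2) = 0 := h.symm
  have p1 : 0 ≤ ‖v.1‖ ^ 2 := by positivity
  have p2 : 0 ≤ ‖v.2.1‖ ^ 2 := by positivity
  have p3 : 0 ≤ ‖v.2.2.1‖ ^ 2 := by positivity
  have p4 : 0 ≤ ‖v.2.2.2.1‖ ^ 2 := by positivity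
  have p5 : 0 ≤ ‖v.2.2.2.2.1‖ ^ 2 := by positivity
  have p6 : 0 ≤ ‖v.2.2.2.2.2‖ ^ 2 := by positivity
  have key : ∀ a : ℝ, 0 ≤ a ^ 2 → a ^ 2 ≤ 0 → a = 0 := fun a ha h1 =>
    (pow_eq_zero_iff two_ne_zero).1 (le_antisymm h1 ha)
  have e1 : v.1 = 0 := norm_eq_zero.1 (key _ p1 (by linarith))
  have e2 : v.2.1 = 0 := norm_eq_zero.1 (key _ p2 (by linarith))
  have e3 : v.2.2.1 = 0 := norm_eq_zero.1 (key _ p3 (by linarith))
  have e4 : v.2.2.2.1 = 0 := norm_eq_zero.1 (key _ p4 (by linarith))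
  have e5 : v.2.2.2.2.1 = 0 := norm_eq_zero.1 (key _ p5 (by linarith))
  have e6 : v.2.2.2.2.2 = 0 := norm_eq_zero.1 (key _ p6 (by linarith))
  exact Prod.ext e1 (Prod.ext e2 (Prod.ext e3 (Prod.ext e4 (Prod.ext e5 e6))))

lemma q6_smul (r : ℝ) (v : V6) : q6 (r • v) = r ^ 2 * q6 v := by
  simp only [q6, q5, Prod.smul_fst, Prod.smul_snd, norm_smul, Real.norm_eq_abs, mul_pow, sq_abs]
  ring

lemma continuous_q5 : Continuous q5 := by
  unfold q5
  fun_prop

lemma continuous_q6 : Continuous q6 := by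
  unfold q6
  exact (continuous_fst.norm.pow 2).add (continuous_q5.comp continuous_snd)

/-- normalisation -/
def nrm (v : V6) : V6 := (Real.sqrt (q6 v))⁻¹ • v

lemma q6_nrm {v : V6} (hv : v ≠ 0) : q6 (nrm v) = 1 := by
  unfold nrm
  rw [q6_smul, inv_pow, Real.sq_sqrt (q6_nonneg v)]
  exact inv_mul_cancel₀ (q6_pos hv).ne'

lemma nrm_of_one {v : V6} (hv : q6 v = 1) : nrm v = v := by
  unfold nrm
  rw [hv, Real.sqrt_one, inv_one, one_smul]

/-- the part of the square of the norm on `ℂ ⊕ E` -/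
def AA (v : V6) : ℝ := ‖v.1‖ ^ 2 + ‖v.2.1‖ ^ 2 + ‖v.2.2.1‖ ^ 2 + ‖v.2.2.2.1‖ ^ 2

/-- the part of the square of the norm on `F` -/
def FF (v : V6) : ℝ := ‖v.2.2.2.2.1‖ ^ 2 + ‖v.2.2.2.2.2‖ ^ 2

lemma AA_add_FF (v : V6) : AA v + FF v = q6 v := by
  unfold AA FF q6 q5
  ring

lemma continuous_AA : Continuous AA := by
  unfold AA
  fun_prop

lemma continuous_FF : Continuous FF := by
  unfold FF
  fun_prop

lemma FF_nonneg (v : V6) : 0 ≤ FF v := by unfold FF; positivity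

lemma AA_nonneg (v : V6) : 0 ≤ AA v := by unfold AA; positivity

/-- the second formula -/
def g2 (z : ℂ) (v : V6) : V6 := (z * v.1, v.2)

/-- the argument of `H` in the first formula -/
def arg (z : ℂ) (v : V6) : (ℂ × ℂ × Hq × Hq) × (ℂ × Hq × Hq) :=
  (((Real.sqrt (AA v))⁻¹ • v.1, (Real.sqrt (AA v))⁻¹ • v.2.1, (Real.sqrt (AA v))⁻¹ • v.2.2.1,
    (Real.sqrt (AA v))⁻¹ • v.2.2.2.1),
   (z, (Real.sqrt (AA v))⁻¹ • v.2.2.2.2.1, (Real.sqrt (AA v))⁻¹ • v.2.2.2.2.2))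

/-- the domain of `H` -/
def dom : Set ((ℂ × ℂ × Hq × Hq) × (ℂ × Hq × Hq)) :=
  {p | ‖p.1.1‖ ^ 2 + ‖p.1.2.1‖ ^ 2 + ‖p.1.2.2.1‖ ^ 2 + ‖p.1.2.2.2‖ ^ 2 = 1 ∧
    ‖p.2.1‖ ^ 2 + ‖p.2.2.1‖ ^ 2 + ‖p.2.2.2‖ ^ 2 ≤ 1}

lemma half_le {z : ℂ} {v : V6} (hv : q6 v = 1) (h : AA v * ‖z‖ ^ 2 + FF v ≤ AA v) :
    1 / 2 ≤ AA v := by
  have h1 := AA_add_FF v
  rw [hv] at h1
  have h2 : 0 ≤ AA v * ‖z‖ ^ 2 := mul_nonneg (AA_nonneg v) (by positivity)
  linarith

lemma arg_sum1 {z : ℂ} {v : V6} (hA : 0 < AA v) : ‖(arg z v).1.1‖ ^ 2 + ‖(arg z v).1.2.1‖ ^ 2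
    + ‖(arg z v).1.2.2.1‖ ^ 2 + ‖(arg z v).1.2.2.2‖ ^ 2 = 1 := by
  simp only [arg, norm_smul, mul_pow, norm_inv, Real.norm_eq_abs, inv_pow, sq_abs,
    Real.sq_sqrt hA.le]
  rw [← mul_add, ← mul_add, ← mul_add]
  exact inv_mul_cancel₀ hA.ne'

lemma arg_sum2 {z : ℂ} {v : V6} (hA : 0 < AA v) : ‖(arg z v).2.1‖ ^ 2 + ‖(arg z v).2.2.1‖ ^ 2
    + ‖(arg z v).2.2.2‖ ^ 2 = (AA v * ‖z‖ ^ 2 + FF v) / AA v := by
  simp only [arg, norm_smul, mul_pow, norm_inv, Real.norm_eq_abs, inv_pow, sq_abs,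
    Real.sq_sqrt hA.le, FF]
  field_simp
  ring

lemma arg_mem {z : ℂ} {v : V6} (hv : q6 v = 1) (h : AA v * ‖z‖ ^ 2 + FF v ≤ AA v) :
    arg z v ∈ dom := by
  have hA : 0 < AA v := by linarith [half_le hv h]
  refine ⟨arg_sum1 hA, ?_⟩
  rw [arg_sum2 hA]
  exact (div_le_one hA).2 h

end toNullS_aux

open toNullS_aux

/-- TARGET -/
theorem toNullS : S_toNull := by
  classical
  rintro ⟨H, hHc, hH0, hHb⟩
  -- total version of `H`
  let Ht : (ℂ × ℂ × Hq × Hq) × (ℂ × Hq × Hq) → V6 := fun p =>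
    if h : p ∈ dom then H (⟨p.1, h.1⟩, ⟨p.2, h.2⟩) else 0
  have hHt : ∀ p (h : p ∈ dom), Ht p = H (⟨p.1, h.1⟩, ⟨p.2, h.2⟩) := fun p h => dif_pos h
  have hHtc : ContinuousOn Ht dom := by
    rw [continuousOn_iff_continuous_domRestrict]
    have h1 : dom.domRestrict Ht = fun p : dom => H (⟨p.1.1, p.2.1⟩, ⟨p.1.2, p.2.2⟩) := by
      funext p
      exact hHt p.1 p.2
    rw [h1]
    refine hHc.comp (Continuous.prodMk ?_ ?_)
    · exact (continuous_fst.comp continuous_subtype_val).subtype_mk _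
    · exact (continuous_snd.comp continuous_subtype_val).subtype_mk _
  -- the sphere
  let X : Type := Metric.closedBall (0 : ℂ) 1 × Sph 17
  let fr : Sph 17 → V6 := fun x => (x.1.1, L' x.1.2)
  have hfr : ∀ x, q6 (fr x) = 1 := fun x => by
    have h1 := x.2
    change ‖x.1.1‖ ^ 2 + q5 (L' x.1.2) = 1
    rw [q_L', ← add_assoc]
    exact h1
  have hfrc : Continuous fr := (continuous_fst.comp continuous_subtype_val).prodMk
    (continuous_L'.comp (continuous_snd.comp continuous_subtype_val))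
  let f1 : X → V6 := fun p => Real.sqrt (AA (fr p.2)) • Ht (arg p.1 (fr p.2))
  let f2 : X → V6 := fun p => g2 p.1 (fr p.2)
  let lo : X → ℝ := fun p => AA (fr p.2) * ‖(p.1 : ℂ)‖ ^ 2 + FF (fr p.2)
  let hi : X → ℝ := fun p => AA (fr p.2)
  have hzc : Continuous fun p : X => (p.1 : ℂ) := continuous_subtype_val.comp continuous_fst
  have hvc : Continuous fun p : X => fr p.2 := hfrc.comp continuous_snd
  have hhi : Continuous hi := continuous_AA.comp hvc
  have hlo : Continuous lo := (hhi.mul (hzc.norm.pow 2)).add (continuous_FF.comp hvc)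
  have hf2 : Continuous f2 := (hzc.mul (continuous_fst.comp hvc)).prodMk
    (continuous_snd.comp hvc)
  have hf1 : ContinuousOn f1 {p | lo p ≤ hi p} := by
    have hs : Continuous fun p : X => Real.sqrt (AA (fr p.2)) := hhi.sqrt
    have hsi : ContinuousOn (fun p : X => (Real.sqrt (AA (fr p.2)))⁻¹) {p | lo p ≤ hi p} := by
      refine hs.continuousOn.inv₀ ?_
      intro p hp
      have h1 := half_le (hfr p.2) hp
      exact (Real.sqrt_pos.2 (by linarith)).ne'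
    have harg : ContinuousOn (fun p : X => arg p.1 (fr p.2)) {p | lo p ≤ hi p} := by
      have k1 : Continuous fun p : X => (fr p.2).1 := continuous_fst.comp hvc
      have k0 : Continuous fun p : X => (fr p.2).2 := continuous_snd.comp hvc
      have k2 : Continuous fun p : X => (fr p.2).2.1 := continuous_fst.comp k0
      have l2 : Continuous fun p : X => (fr p.2).2.2 := continuous_snd.comp k0
      have k3 : Continuous fun p : X => (fr p.2).2.2.1 := continuous_fst.comp l2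
      have l3 : Continuous fun p : X => (fr p.2).2.2.2 := continuous_snd.comp l2
      have k4 : Continuous fun p : X => (fr p.2).2.2.2.1 := continuous_fst.comp l3
      have l4 : Continuous fun p : X => (fr p.2).2.2.2.2 := continuous_snd.comp l3
      have k5 : Continuous fun p : X => (fr p.2).2.2.2.2.1 := continuous_fst.comp l4
      have k6 : Continuous fun p : X => (fr p.2).2.2.2.2.2 := continuous_snd.comp l4
      exact ((hsi.smul k1.continuousOn).prodMk ((hsi.smul k2.continuousOn).prodMk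
        ((hsi.smul k3.continuousOn).prodMk (hsi.smul k4.continuousOn)))).prodMk
        (hzc.continuousOn.prodMk ((hsi.smul k5.continuousOn).prodMk (hsi.smul k6.continuousOn)))
    exact hs.continuousOn.smul (hHtc.comp harg fun p hp => arg_mem (hfr p.2) hp)
  have hag : ∀ p, lo p = hi p → f1 p = f2 p := by
    intro p hp
    have hle : AA (fr p.2) * ‖(p.1 : ℂ)‖ ^ 2 + FF (fr p.2) ≤ AA (fr p.2) := le_of_eq hp
    have hA : 0 < AA (fr p.2) := by linarith [half_le (hfr p.2) hle]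
    have hm := arg_mem (hfr p.2) hle
    have hb : ‖(arg p.1 (fr p.2)).2.1‖ ^ 2 + ‖(arg p.1 (fr p.2)).2.2.1‖ ^ 2
        + ‖(arg p.1 (fr p.2)).2.2.2‖ ^ 2 = 1 := by
      rw [arg_sum2 hA]
      have h1 : AA (fr p.2) * ‖(p.1 : ℂ)‖ ^ 2 + FF (fr p.2) = AA (fr p.2) := hp
      rw [h1]
      exact div_self hA.ne'
    change Real.sqrt (AA (fr p.2)) • Ht (arg p.1 (fr p.2)) = g2 p.1 (fr p.2)
    rw [hHt _ hm, hHb (⟨(arg p.1 (fr p.2)).1, hm.1⟩, ⟨(arg p.1 (fr p.2)).2, hm.2⟩) hb]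
    have hs0 : Real.sqrt (AA (fr p.2)) ≠ 0 := (Real.sqrt_pos.2 hA).ne'
    simp only [arg, g2, Prod.smul_mk, smul_inv_smul₀ hs0, mul_smul_comm]
  let g : X → V6 := fun p => if lo p ≤ hi p then f1 p else f2 p
  have hg : Continuous g := continuous_if_le hlo hhi hf1 hf2.continuousOn hag
  have hg0 : ∀ p, g p ≠ 0 := by
    intro p
    by_cases hp : lo p ≤ hi p
    · have h1 : g p = f1 p := if_pos hp
      have hle : AA (fr p.2) * ‖(p.1 : ℂ)‖ ^ 2 + FF (fr p.2) ≤ AA (fr p.2) := hp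
      have hA : 0 < AA (fr p.2) := by linarith [half_le (hfr p.2) hle]
      have hm := arg_mem (hfr p.2) hle
      rw [h1]
      change Real.sqrt (AA (fr p.2)) • Ht (arg p.1 (fr p.2)) ≠ 0
      rw [hHt _ hm]
      exact smul_ne_zero (Real.sqrt_pos.2 hA).ne' (hH0 _)
    · have h1 : g p = f2 p := if_neg hp
      rw [h1]
      intro h2
      have h3 : (p.1 : ℂ) * (fr p.2).1 = 0 := congrArg Prod.fst h2
      have h4 : (fr p.2).2 = 0 := congrArg Prod.snd h2
      have hF : FF (fr p.2) = 0 := by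
        unfold FF
        rw [h4]
        simp
      have hA : AA (fr p.2) = ‖(fr p.2).1‖ ^ 2 := by
        unfold AA
        rw [h4]
        simp
      have hA1 : AA (fr p.2) = 1 := by
        have := AA_add_FF (fr p.2)
        rw [hF, hfr, add_zero] at this
        exact this
      apply hp
      change AA (fr p.2) * ‖(p.1 : ℂ)‖ ^ 2 + FF (fr p.2) ≤ AA (fr p.2)
      rw [hA1, hF, one_mul, add_zero]
      have hne : (fr p.2).1 ≠ 0 := by
        intro h5
        rw [h5] at hA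
        rw [hA] at hA1
        simp at hA1
      have hz : (p.1 : ℂ) = 0 := (mul_eq_zero.1 h3).resolve_right hne
      rw [hz]
      simp
  have hto : ∀ v : V6, q6 v = 1 → ‖((v.1, L v.2) : ℂ × (Fin 17 → ℝ) × ℝ).1‖ ^ 2 +
      ∑ i, ((v.1, L v.2) : ℂ × (Fin 17 → ℝ) × ℝ).2.1 i ^ 2 +
      ((v.1, L v.2) : ℂ × (Fin 17 → ℝ) × ℝ).2.2 ^ 2 = 1 := by
    intro v hv
    rw [add_assoc]
    change ‖v.1‖ ^ 2 + (∑ i, (L v.2).1 i ^ 2 + (L v.2).2 ^ 2) = 1
    rw [q_L]
    exact hv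
  refine ⟨fun p => ⟨((nrm (g p)).1, L (nrm (g p)).2), hto _ (q6_nrm (hg0 p))⟩, ?_, ?_, ?_⟩
  · have hn : Continuous fun p : X => nrm (g p) := by
      have hi2 : Continuous fun p : X => (Real.sqrt (q6 (g p)))⁻¹ :=
        ((continuous_q6.comp hg).sqrt).inv₀ fun p => (Real.sqrt_pos.2 (q6_pos (hg0 p))).ne'
      exact hi2.smul hg
    exact ((continuous_fst.comp hn).prodMk (continuous_L.comp (continuous_snd.comp hn))).subtype_mk _
  · intro z x hz
    have hgz : g (z, x) = f2 (z, x) := by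
      by_cases hp : lo (z, x) ≤ hi (z, x)
      · have h1 : g (z, x) = f1 (z, x) := if_pos hp
        rw [h1]
        apply hag
        have h2 : AA (fr x) * ‖(z : ℂ)‖ ^ 2 + FF (fr x) ≤ AA (fr x) := hp
        change AA (fr x) * ‖(z : ℂ)‖ ^ 2 + FF (fr x) = AA (fr x)
        rw [hz] at h2 ⊢
        have h3 := FF_nonneg (fr x)
        linarith
      · exact if_neg hp
    have hq : q6 (f2 (z, x)) = 1 := by
      have h1 := hfr x
      change ‖(z : ℂ) * (fr x).1‖ ^ 2 + q5 (fr x).2 = 1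
      rw [norm_mul, hz, one_mul]
      exact h1
    change ((nrm (g (z, x))).1, L (nrm (g (z, x))).2) = _
    rw [hgz, nrm_of_one hq]
    change ((z : ℂ) * x.1.1, L (L' x.1.2)) = _
    rw [L_L']
  · intro z
    have hA : AA (fr (pole 17)) = 0 := by
      have h1 : fr (pole 17) = ((0 : ℂ), L' ((0 : Fin 17 → ℝ), (1 : ℝ))) := rfl
      rw [h1]
      have h2 : qm 0 0 0 0 = 0 := rfl
      have h3 : zm 0 0 = 0 := rfl
      unfold AA
      simp only [L', Pi.zero_apply, h2, h3, norm_zero]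
      norm_num
    have hF : FF (fr (pole 17)) = 1 := by
      have := AA_add_FF (fr (pole 17))
      rw [hA, hfr, zero_add] at this
      exact this
    have hgz : g (z, pole 17) = f2 (z, pole 17) := by
      refine if_neg ?_
      change ¬ (AA (fr (pole 17)) * ‖(z : ℂ)‖ ^ 2 + FF (fr (pole 17)) ≤ AA (fr (pole 17)))
      rw [hA, hF]
      norm_num
    have hf : f2 (z, pole 17) = fr (pole 17) := by
      change ((z : ℂ) * 0, L' ((0 : Fin 17 → ℝ), (1 : ℝ))) = ((0 : ℂ), L' ((0 : Fin 17 → ℝ), (1 : ℝ)))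
      rw [mul_zero]
    apply Subtype.ext
    change ((nrm (g (z, pole 17))).1, L (nrm (g (z, pole 17))).2) = (pole 17).1
    rw [hgz, hf, nrm_of_one (hfr _)]
    change ((0 : ℂ), L (L' ((0 : Fin 17 → ℝ), (1 : ℝ)))) = ((0 : ℂ), (0 : Fin 17 → ℝ), (1 : ℝ))
    rw [L_L']

end

end Pool.Agent.Helper965_Rud
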