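import Pool.Agent.Helper965_Rud.Stmts2
import Pool.Agent.Helper534.LS.P_hh_contr

/-!
JOB topMN (MP_89fcdb_gt, owner helper965; disproof of a conjecture of Rudyak).
Setup: git fetch in outputs/live, copy Pool/Agent/Helper965_Rud/*.lean from origin/main (and Pool/Agent/Helper534/LS/*.lean)
to the same paths under /workdir/pool/Pool/Agent/, then `lake build` the modules imported here. Check with `lake env lean <file>`.
Helper965_Rud: Defs, Alg (algebra lemmas: herm_*, sq_*, rm, cm, jm, cp, lc), Basic (XN, XM, compactness), Stmts, StmtsTop, Stmts2 (the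
propositions S_...). The hypotheses S_... of the target are proved by other jobs: just use them.
Return the WHOLE file with the target proved (no sorry, no axiom, no native_decide; keep the name and the statement of the target).
Auxiliary lemmas: before the target, in the namespace topMN_aux (open it before the target) or with names starting with topMN_ .
Avoid straight double quotes and the words forbidden by RULES.md. If the statement is false or something is missing, say so in the note
(status 'problem') with the reason. The final path of the file is Pool/Agent/Helper965_Rud/P_topMN.lean .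

PROOF. S_AN: DH is contractible (star shaped at 0), so Van DH 0 (h1 and HE DH Unit, with hh_contr: positive degree homology of a contractible space vanishes), UU = Orb (DH × SH (2+1)): Van UU (0 + 4*2) by h4. Circle ≃ₜ Sp 1; Van (UU × Sp 1) 9 by h3, so Van ANs 9 (h9, h1).
CNs: Van Unit 0 gives Van (Orb (Unit × SH 3)) 8 (h4), hence Van CNs 8 (h10, h1), hence Van CNs 9.
S_topM: h2 with U = AMs, V = BMs, d = 20: for j ≥ 20, HH AMs j = 0 = HH BMs j since Van VV 19 (h8, h6, h1). Top (AMs ∩ BMs) 20 from Top (VV × Sp 1) (19+1) (h3, 0 < 1). So Top MM 21.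
S_topN: h2 with U = ANs, V = BNs, d = 20: HH ANs j = 0 for j > 9, HH BNs j = 0 for j > 19 (h7), Top (ANs ∩ BNs) 20 as before.
-/

set_option autoImplicit false

namespace Pool.Agent.Helper965_Rud

open scoped ComplexConjugate unitInterval
open Pool.Agent.Helper534.LS (HH hmap sub inl inr delta)

noncomputable section

namespace topMN_aux

theorem he_van (h1 : S_hinv) {X Y : Type} [TopologicalSpace X] [TopologicalSpace Y] (h : HE X Y) {d : ℕ}
    (hv : Van Y d) : Van X d := by
  obtain ⟨e⟩ := h
  exact (h1 Y X e.invFun e.toFun e.right_inv e.left_inv d).1 hv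

theorem he_top (h1 : S_hinv) {X Y : Type} [TopologicalSpace X] [TopologicalSpace Y] (h : HE X Y) {d : ℕ}
    (hv : Top Y d) : Top X d := by
  obtain ⟨e⟩ := h
  exact (h1 Y X e.invFun e.toFun e.right_inv e.left_inv d).2 hv

theorem van_contr (X : Type) [TopologicalSpace X] [ContractibleSpace X] : Van X 0 := by
  intro j hj
  obtain ⟨k, rfl⟩ : ∃ k, j = k + 1 := ⟨j - 1, by omega⟩
  exact Pool.Agent.Helper534.LS.hh_contr k

theorem van_mono {X : Type} [TopologicalSpace X] {d d' : ℕ} (h : d ≤ d') (hv : Van X d) : Van X d' :=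
  fun j hj => hv j (lt_of_le_of_lt h hj)

theorem sq_smul_lt {n : ℕ} {v : Fin n → Hq} {b : ℝ} (hb : 0 ≤ b) (hb1 : b ≤ 1) : sq (b • v) ≤ sq v := by
  unfold sq
  refine Finset.sum_le_sum fun i _ => ?_
  rw [Pi.smul_apply, norm_smul, Real.norm_eq_abs, abs_of_nonneg hb]
  refine pow_le_pow_left₀ (mul_nonneg hb (norm_nonneg _)) ?_ 2
  exact mul_le_of_le_one_left (norm_nonneg _) hb1

theorem contr_set : ContractibleSpace ↥{v : Fin 3 → Hq | sq v < 1} := by
  have h0 : (0 : Fin 3 → Hq) ∈ {v : Fin 3 → Hq | sq v < 1} := by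
    change sq (0 : Fin 3 → Hq) < 1
    unfold sq
    simp
  refine StarConvex.contractibleSpace (x := 0) ?_ ⟨0, h0⟩
  intro y hy a b ha hb hab
  change sq (a • (0 : Fin 3 → Hq) + b • y) < 1
  rw [smul_zero, zero_add]
  exact lt_of_le_of_lt (sq_smul_lt hb (by linarith)) hy

theorem contr_DH : ContractibleSpace DH := contr_set

/-- the circle is the standard one dimensional sphere -/
def circ : Circle ≃ₜ Sp 1 where
  toFun z := ⟨Complex.orthonormalBasisOneI.repr (z : ℂ), by
    rw [mem_sphere_zero_iff_norm, LinearIsometryEquiv.norm_map, Circle.norm_coe]⟩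
  invFun w := ⟨Complex.orthonormalBasisOneI.repr.symm w.1, by
    have h : ‖Complex.orthonormalBasisOneI.repr.symm w.1‖ = 1 := by
      rw [LinearIsometryEquiv.norm_map]
      exact mem_sphere_zero_iff_norm.1 w.2
    exact mem_sphere_zero_iff_norm.2 h⟩
  left_inv z := by
    apply Circle.ext
    exact Complex.orthonormalBasisOneI.repr.symm_apply_apply (z : ℂ)
  right_inv w := by
    apply Subtype.ext
    exact Complex.orthonormalBasisOneI.repr.apply_symm_apply w.1
  continuous_toFun := by
    refine Continuous.subtype_mk ?_ _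
    exact Complex.orthonormalBasisOneI.repr.continuous.comp (by fun_prop : Continuous fun z : Circle => (z : ℂ))
  continuous_invFun := by
    refine Continuous.subtype_mk ?_ _
    exact Complex.orthonormalBasisOneI.repr.symm.continuous.comp continuous_subtype_val

end topMN_aux

open topMN_aux in
/-- TARGET -/
theorem topMN (h1 : S_hinv) (h2 : S_mvTop) (h3 : S_sph) (h4 : S_orb) (h5 : S_open) (h6 : S_heM) (h7 : S_heN)
    (h8 : S_topV) (h9 : S_ANh) (h10 : S_CN) : S_topM ∧ S_topN ∧ S_AN := by
  obtain ⟨oA, oB, oAN, oBN, -, cM, cN, -⟩ := h5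
  obtain ⟨a1, a2, a3⟩ := h6
  obtain ⟨b1, b2⟩ := h7
  have hVS : Top (VV × Sp 1) 20 := (h3 VV 19 1).2 h8 one_pos
  have hVV : Van VV 19 := h8.1
  -- the part `A_N`
  have hDH : Van DH 0 := by
    have := contr_DH
    exact van_contr DH
  have hUU : Van UU 8 := (h4 DH 2 0).1 hDH
  have hUS : Van (UU × Sp 1) 9 := (h3 UU 8 1).1 hUU
  have hAN : Van ANs 9 := by
    obtain ⟨e⟩ := h9
    have he : HE ↥ANs (UU × Sp 1) := HE.of_homeo (e.trans ((Homeomorph.refl UU).prodCongr circ))
    exact he_van h1 he hUS
  have hU : Van (Orb (Unit × SH 3)) 8 := (h4 Unit 2 0).1 (van_contr Unit)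
  have hCN : Van CNs 9 := van_mono (by norm_num) (he_van h1 h10 hU)
  refine ⟨?_, ?_, hAN, hCN⟩
  · refine h2 MM AMs BMs oA oB cM 20 (by norm_num) ?_ (he_top h1 a3 hVS)
    intro j hj
    exact ⟨he_van h1 a1 hVV j (by omega), he_van h1 a2 hVV j (by omega)⟩
  · refine h2 NN ANs BNs oAN oBN cN 20 (by norm_num) ?_ (he_top h1 b2 hVS)
    intro j hj
    exact ⟨hAN j (by omega), he_van h1 b1 hVV j (by omega)⟩

end

end Pool.Agent.Helper965_Rud

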