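import Pool.Agent.Helper965_Rud.Stmts2
import Pool.Agent.Helper534.LS.P_hh_contr
import Pool.Agent.Helper534.LS.P_hh_unit0
import Pool.Agent.Helper534.LS.P_aug_exists

/-!
JOB topV (MP_89fcdb_gt, owner helper965; disproof of a conjecture of Rudyak).
Setup: git fetch in outputs/live, copy Pool/Agent/Helper965_Rud/*.lean from origin/main (and Pool/Agent/Helper534/LS/*.lean)
to the same paths under /workdir/pool/Pool/Agent/, then `lake build` the modules imported here. Check with `lake env lean <file>`.
Helper965_Rud: Defs, Alg (algebra lemmas: herm_*, sq_*, rm, cm, jm, cp, lc), Basic (XN, XM, compactness), Stmts, StmtsTop, Stmts2 (the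
propositions S_...). The hypotheses S_... of the target are proved by other jobs: just use them.
Return the WHOLE file with the target proved (no sorry, no axiom, no native_decide; keep the name and the statement of the target).
Auxiliary lemmas: before the target, in the namespace topV_aux (open it before the target) or with names starting with topV_ .
Avoid straight double quotes and the words forbidden by RULES.md. If the statement is false or something is missing, say so in the note
(status 'problem') with the reason. The final path of the file is Pool/Agent/Helper965_Rud/P_topV.lean .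

PROOF. VV = Orb (SH 3 × SH 3) = Orb (Y × SH (2+1)) with Y = SH 3, so by h4 (n = 2, d = 11) it is enough that Top (SH 3) 11. Top Unit 0: HH Unit 0 = Z and HH Unit (n+1) = 0 : hh_contr (Unit is contractible) for positive degrees; in degree 0 every element is m • ptU
(hh_unit0), and m • ptU = 0 implies m = 0 (use the augmentation: see P_aug_exists / ptU in Helper534/LS, or prove directly that HH Unit 0 is free: Cyc and Bdy of a point in degree 0). Then h2 with Y = Unit, d = 0, n = 11 gives Top (Unit × Sp 11) 11, and
SH 3 ≃ₜ Sp 11 (h3 with n = 2: 4*2+3 = 11) ≃ₜ Unit × Sp 11; h1 transports.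
-/

set_option autoImplicit false

namespace Pool.Agent.Helper965_Rud

open scoped ComplexConjugate unitInterval
open Pool.Agent.Helper534.LS (HH hmap sub inl inr delta)

noncomputable section

theorem topV_aux_unit : Top Unit 0 := by
  constructor
  · intro j hj x
    obtain ⟨n, rfl⟩ : ∃ n, j = n + 1 := ⟨j - 1, by omega⟩
    exact Pool.Agent.Helper534.LS.hh_contr n x
  · obtain ⟨a, ha⟩ := Pool.Agent.Helper534.LS.aug_exists Unit
    refine ⟨LinearEquiv.ofBijective a ⟨?_, ?_⟩⟩
    · rw [injective_iff_map_eq_zero]
      intro z hz
      obtain ⟨m, rfl⟩ := Pool.Agent.Helper534.LS.hh_unit0 z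
      obtain ⟨k, hk⟩ := Pool.Agent.Helper534.LS.hh_unit0 (Pool.Agent.Helper534.LS.ptc ())
      have h1 := ha ()
      rw [hk, map_smul, smul_eq_mul] at h1
      have h2 : a Pool.Agent.Helper534.LS.ptU ≠ 0 := by
        intro h
        rw [h, mul_zero] at h1
        exact zero_ne_one h1
      rw [map_smul, smul_eq_mul] at hz
      have h3 : m = 0 := (mul_eq_zero.1 hz).resolve_right h2
      rw [h3, zero_smul]
    · intro m
      refine ⟨m • Pool.Agent.Helper534.LS.ptc (), ?_⟩
      rw [map_smul, ha, smul_eq_mul, mul_one]

theorem topV_aux_homeo (h1 : S_hinv) (X Y : Type) [TopologicalSpace X] [TopologicalSpace Y]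
    (e : X ≃ₜ Y) (d : ℕ) (h : Top X d) : Top Y d :=
  (h1 X Y e.toHomotopyEquiv.toFun e.toHomotopyEquiv.invFun e.toHomotopyEquiv.left_inv
    e.toHomotopyEquiv.right_inv d).2 h

/-- TARGET -/
theorem topV (h1 : S_hinv) (h2 : S_sph) (h3 : S_SH) (h4 : S_orb) : S_topV := by
  have h5 : Top (Unit × Sp 11) 11 := by
    have h6 := (h2 Unit 0 11).2 topV_aux_unit (by norm_num)
    rwa [zero_add] at h6
  obtain ⟨e⟩ := h3 2
  have h7 : Top (SH 3) 11 :=
    topV_aux_homeo h1 (Unit × Sp 11) (SH 3) ((Homeomorph.punitProd (Sp 11)).trans e.symm) 11 h5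
  exact (h4 (SH 3) 2 11).2 h7

end

end Pool.Agent.Helper965_Rud
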