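import Pool.Agent.Helper965_Rud.Stmts2

/-!
JOB trS (MP_89fcdb_gt, owner helper965; disproof of a conjecture of Rudyak).
Setup: git fetch in outputs/live, copy Pool/Agent/Helper965_Rud/*.lean from origin/main (and Pool/Agent/Helper534/LS/*.lean)
to the same paths under /workdir/pool/Pool/Agent/, then `lake build` the modules imported here. Check with `lake env lean <file>`.
Helper965_Rud: Defs, Alg (algebra lemmas: herm_*, sq_*, rm, cm, jm, cp, lc), Basic (XN, XM, compactness), Stmts, StmtsTop, Stmts2 (the
propositions S_...). The hypotheses S_... of the target are proved by other jobs: just use them.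
Return the WHOLE file with the target proved (no sorry, no axiom, no native_decide; keep the name and the statement of the target).
Auxiliary lemmas: before the target, in the namespace trS_aux (open it before the target) or with names starting with trS_ .
Avoid straight double quotes and the words forbidden by RULES.md. If the statement is false or something is missing, say so in the note
(status 'problem') with the reason. The final path of the file is Pool/Agent/Helper965_Rud/P_trS.lean .

PROOF. For x y : X put β x y = ∑ k, star (E y k) * E x k : Hq, continuous in (x,y). β (act x g) y = β x y * g, β x (act y h) = star h * β x y. b x p := ‖β x y‖ for any y with mk y = p (Quotient lift; independent of y since |star h| = 1). Continuity of b on X × Orb X: id × mk : X × X → X × Orb X is an open quotient map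
(IsOpenQuotientMap.prodMap). b x (mk x) = |∑ |E_k x|^2| > 0 if E x ≠ 0.
T x p := if b x p = 0 then x, else act y (β x y / ‖β x y‖) for y = p.out. For any other representative y' = act y h: act (act y h) (star h β/|β|) = act y (h star h β/|β|) = act y (β/|β|), so T x (mk y) = act y (β x y/|β x y|) for every y with β x y ≠ 0. Equivariance: T (act x g) p = act y (β g/|β|) = act (T x p) g; for b = 0 both sides are act x g.
mk (T x p) = mk y = p. Continuity on the open set {b ≠ 0}: the restriction of the open quotient map id × mk to the preimage of the open set {(x,p) | 0 < b x p} is an open quotient map onto it, and (x,y) ↦ act y (β x y/|β x y|) is continuous there.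
(Sp1 = Metric.sphere (0 : Hq) 1 with its group structure; norm_sp1, sp1_mul_star in Defs.)
-/

set_option autoImplicit false

namespace Pool.Agent.Helper965_Rud

open scoped ComplexConjugate unitInterval
open Pool.Agent.Helper534.LS (HH hmap sub inl inr delta)

noncomputable section

namespace trS_aux

open Classical in
/-- the unit quaternion in the direction of `q` -/
def u (q : Hq) : Sp1 := if h : q = 0 then 1 else ⟨‖q‖⁻¹ • q, by
  rw [mem_sphere_zero_iff_norm, norm_smul, norm_inv, norm_norm,
    inv_mul_cancel₀ (norm_ne_zero_iff.2 h)]⟩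

theorem u_coe {q : Hq} (h : q ≠ 0) : (u q : Hq) = ‖q‖⁻¹ • q := by
  unfold u
  rw [dif_neg h]

theorem norm_star_sp1 (g : Sp1) : ‖star (g : Hq)‖ = 1 := by
  rw [norm_star, norm_sp1]

theorem sp1_ne (g : Sp1) : (g : Hq) ≠ 0 := by
  intro h
  have := norm_sp1 g
  rw [h, norm_zero] at this
  exact zero_ne_one this

theorem u_mul (q : Hq) (g : Sp1) (h : q ≠ 0) : u (q * (g : Hq)) = u q * g := by
  apply Subtype.ext
  have h2 : q * (g : Hq) ≠ 0 := mul_ne_zero h (sp1_ne g)
  rw [u_coe h2, Metric.unitSphere.coe_mul, u_coe h, norm_mul, norm_sp1, mul_one, smul_mul_assoc]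

theorem mul_u (q : Hq) (g : Sp1) (h : q ≠ 0) : g * u (star (g : Hq) * q) = u q := by
  apply Subtype.ext
  have h2 : star (g : Hq) * q ≠ 0 := mul_ne_zero (star_ne_zero.2 (sp1_ne g)) h
  rw [Metric.unitSphere.coe_mul, u_coe h2, u_coe h, norm_mul, norm_star_sp1, one_mul,
    mul_smul_comm, ← mul_assoc, sp1_mul_star, one_mul]

theorem continuousAt_u {q : Hq} (h : q ≠ 0) : ContinuousAt u q := by
  rw [Topology.IsInducing.subtypeVal.continuousAt_iff]
  have h1 : ContinuousAt (fun q : Hq => ‖q‖⁻¹ • q) q :=
    (continuousAt_id.norm.inv₀ (norm_ne_zero_iff.2 h)).smul continuousAt_id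
  refine h1.congr ?_
  filter_upwards [isOpen_compl_singleton.mem_nhds h] with p hp
  exact (u_coe hp).symm

section

variable {X : Type} [TopologicalSpace X] [GSp X] {m : ℕ} (E : X → Fin m → Hq)

/-- the pairing -/
def be (x y : X) : Hq := ∑ k, star (E y k) * E x k

omit [GSp X] in
theorem be_cont (hE : Continuous E) : Continuous fun p : X × X => be E p.1 p.2 := by
  unfold be
  refine continuous_finsetSum _ fun k _ => ?_
  exact (continuous_star.comp ((continuous_apply k).comp (hE.comp continuous_snd))).mul
    ((continuous_apply k).comp (hE.comp continuous_fst))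

theorem be_act_left (hE : Eqv E) (x y : X) (g : Sp1) :
    be E (act x g) y = be E x y * (g : Hq) := by
  unfold be
  rw [Finset.sum_mul]
  refine Finset.sum_congr rfl fun k _ => ?_
  rw [hE x g, vm_apply, mul_assoc]

theorem be_act_right (hE : Eqv E) (x y : X) (g : Sp1) :
    be E x (act y g) = star (g : Hq) * be E x y := by
  unfold be
  rw [Finset.mul_sum]
  refine Finset.sum_congr rfl fun k _ => ?_
  rw [hE y g, vm_apply, star_mul, mul_assoc]

/-- a representative -/
def rp (p : Orb X) : X := (mk_surj p).choose

theorem mk_rp (p : Orb X) : mk (rp p) = p := (mk_surj p).choose_spec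

theorem rp_mk (y : X) : ∃ g : Sp1, rp (mk y) = act y g := mk_eq_iff.1 (mk_rp (mk y)).symm

/-- the norm of the pairing -/
def bb (x : X) (p : Orb X) : ℝ := ‖be E x (rp p)‖

theorem bb_mk (hE : Eqv E) (x y : X) : bb E x (mk y) = ‖be E x y‖ := by
  obtain ⟨g, hg⟩ := rp_mk y
  unfold bb
  rw [hg, be_act_right E hE, norm_mul, norm_star_sp1, one_mul]

open Classical in
/-- the transport -/
def TT (x : X) (p : Orb X) : X := if be E x (rp p) = 0 then x else act (rp p) (u (be E x (rp p)))

theorem TT_mk (hE : Eqv E) (x y : X) (h : be E x y ≠ 0) :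
    TT E x (mk y) = act y (u (be E x y)) := by
  obtain ⟨g, hg⟩ := rp_mk y
  unfold TT
  have h2 : be E x (act y g) ≠ 0 := by
    rw [be_act_right E hE]
    exact mul_ne_zero (star_ne_zero.2 (sp1_ne g)) h
  rw [hg, if_neg h2, ← GSp.act_mul, be_act_right E hE, mul_u _ _ h]

theorem oq : IsOpenQuotientMap (Prod.map id mk : X × X → X × Orb X) :=
  IsOpenQuotientMap.id.prodMap isOpenQuotientMap_mk

theorem bb_cont (hE : Continuous E) (hE2 : Eqv E) : Continuous (Function.uncurry (bb E)) := by
  rw [← (oq (X := X)).continuous_comp_iff]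
  have : Function.uncurry (bb E) ∘ (Prod.map id mk : X × X → X × Orb X) =
      fun p => ‖be E p.1 p.2‖ := by
    funext p
    exact bb_mk E hE2 p.1 p.2
  rw [this]
  exact (be_cont E hE).norm

theorem TT_cont (hE : Continuous E) (hE2 : Eqv E) :
    ContinuousOn (Function.uncurry (TT E)) {q | 0 < bb E q.1 q.2} := by
  intro q hq
  obtain ⟨⟨x, y⟩, rfl⟩ := (oq (X := X)).surjective q
  have h0 : be E x y ≠ 0 := by
    have h1 : 0 < bb E x (mk y) := hq
    rw [bb_mk E hE2] at h1
    exact norm_pos_iff.1 h1
  apply ContinuousAt.continuousWithinAt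
  rw [← (oq (X := X)).continuousAt_comp_iff]
  have h2 : ContinuousAt (fun p : X × X => be E p.1 p.2) (x, y) := (be_cont E hE).continuousAt
  have h3 : ContinuousAt (fun p : X × X => act p.2 (u (be E p.1 p.2))) (x, y) := by
    have h4 : ContinuousAt (fun p : X × X => u (be E p.1 p.2)) (x, y) :=
      ContinuousAt.comp (f := fun p : X × X => be E p.1 p.2) (g := u) (x := (x, y))
        (continuousAt_u h0) h2
    exact ContinuousAt.comp (g := fun p : X × Sp1 => act p.1 p.2)
      (f := fun p : X × X => (p.2, u (be E p.1 p.2))) (x := (x, y))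
      (GSp.cont.continuousAt) (continuousAt_snd.prodMk h4)
  refine h3.congr ?_
  have h5 : ∀ᶠ p : X × X in nhds (x, y), be E p.1 p.2 ≠ 0 := h2.eventually_ne h0
  filter_upwards [h5] with p hp
  exact (TT_mk E hE2 p.1 p.2 hp).symm

end

end trS_aux

open trS_aux

/-- TARGET -/
theorem trS : S_tr := by
  intro X _ _ _ _ m E hE hE2
  refine ⟨TT E, bb E, bb_cont E hE hE2, ?_, ?_, ?_, ?_, TT_cont E hE hE2⟩
  · intro x g p
    unfold bb
    rw [be_act_left E hE2, norm_mul, norm_sp1, mul_one]
  · intro x hx
    rw [bb_mk E hE2]
    have h1 : be E x x = ((∑ k, ‖E x k‖ ^ 2 : ℝ) : Hq) := by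
      unfold be
      have h0 : ∀ s : Finset (Fin m), ((∑ k ∈ s, ‖E x k‖ ^ 2 : ℝ) : Hq) =
          ∑ k ∈ s, ((‖E x k‖ ^ 2 : ℝ) : Hq) := by
        intro s
        classical
        induction s using Finset.induction_on with
        | empty => simp
        | insert a s ha ih => rw [Finset.sum_insert ha, Finset.sum_insert ha, ← ih,
            ← Quaternion.coe_add]
      rw [h0]
      refine Finset.sum_congr rfl fun k _ => ?_
      rw [Quaternion.star_mul_self, Quaternion.normSq_eq_norm_mul_self, pow_two]
    rw [h1, Quaternion.norm_coe]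
    obtain ⟨k, hk⟩ : ∃ k, E x k ≠ 0 := by
      by_contra hcon
      push Not at hcon
      exact hx (funext hcon)
    have h2 : 0 < ∑ k, ‖E x k‖ ^ 2 :=
      Finset.sum_pos' (fun i _ => by positivity)
        ⟨k, Finset.mem_univ _, by have := norm_pos_iff.2 hk; positivity⟩
    rw [Real.norm_eq_abs, abs_of_pos h2]
    exact h2
  · intro x g p
    unfold TT
    rw [be_act_left E hE2]
    by_cases h : be E x (rp p) = 0
    · rw [h, zero_mul, if_pos rfl, if_pos rfl]
    · rw [if_neg (mul_ne_zero h (sp1_ne g)), if_neg h, u_mul _ _ h, GSp.act_mul]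
  · intro x p hp
    unfold TT
    have h : be E x (rp p) ≠ 0 := norm_pos_iff.1 hp
    rw [if_neg h, mk_act, mk_rp]

end

end Pool.Agent.Helper965_Rud

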