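import Pool.Agent.Helper965_Rud.Stmts2

/-!
JOB triv2 (MP_89fcdb_gt, owner helper965; disproof of a conjecture of Rudyak).
Setup: git fetch in outputs/live, copy Pool/Agent/Helper965_Rud/*.lean from origin/main (and Pool/Agent/Helper534/LS/*.lean)
to the same paths under /workdir/pool/Pool/Agent/, then `lake build` the modules imported here. Check with `lake env lean <file>`.
Helper965_Rud: Defs, Alg (algebra lemmas: herm_*, sq_*, rm, cm, jm, cp, lc), Basic (XN, XM, compactness), Stmts, StmtsTop, Stmts2 (the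
propositions S_...). The hypotheses S_... of the target are proved by other jobs: just use them.
Return the WHOLE file with the target proved (no sorry, no axiom, no native_decide; keep the name and the statement of the target).
Auxiliary lemmas: before the target, in the namespace triv2_aux (open it before the target) or with names starting with triv2_ .
Avoid straight double quotes and the words forbidden by RULES.md. If the statement is false or something is missing, say so in the note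
(status 'problem') with the reason. The final path of the file is Pool/Agent/Helper965_Rud/P_triv2.lean .

PROOF. BB Y n l is open: it is the image under the open map mk of the open set {x | x.2.1 l ≠ 0} (isOpenMap_mk).
Map e: [y,w] ↦ (act y g, (w_{l.succAbove i} * w_l⁻¹)_i) where g = conj(w_l)/|w_l| = |w_l| w_l⁻¹ in Sp1 (a unit quaternion). Well defined: for (y h, w h) : (w_i h)(w_l h)⁻¹ = w_i w_l⁻¹, and the
unit quaternion becomes h⁻¹ g, act (act y h) (h⁻¹ g) = act y g. Continuous: mk restricted to the open set {w_l ≠ 0} is an open quotient map onto BB (restrict the open map mk to the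
preimage of the open set BB; e.g. IsOpenQuotientMap / IsOpenMap.restrictPreimage + isQuotientMap) and the formula is continuous upstairs.
Inverse: (y,u) ↦ mk (y, w) with w = (1 at l, u_i at l.succAbove i) divided by its norm sqrt(1 + sum |u_i|^2): use Fin.insertNth l 1 u; continuous.
e ∘ inverse: w_l is real positive so g = 1 and w_i w_l⁻¹ = u_i. inverse ∘ e: from (y,w), the vector (1, w_i w_l⁻¹) = w * w_l⁻¹ has norm 1/|w_l|, normalised: w * w_l⁻¹ * |w_l| = w * g. So the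
result is mk (act y g, vm w g) = mk (y,w). The last clause is the formula for e.
-/

set_option autoImplicit false

namespace Pool.Agent.Helper965_Rud

open scoped ComplexConjugate unitInterval
open Pool.Agent.Helper534.LS (HH hmap sub inl inr delta)

noncomputable section

namespace triv2_aux

open Topology

variable {Y : Type} [TopologicalSpace Y] [GSp Y] {n : ℕ}

/-- the unit quaternion `|q| q⁻¹` -/
def un (q : Hq) (hq : q ≠ 0) : Sp1 := ⟨((‖q‖ : ℝ) : Hq) * q⁻¹, by
  have h : ‖q‖ ≠ 0 := norm_ne_zero_iff.2 hq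
  rw [mem_sphere_zero_iff_norm, norm_mul, norm_inv, Quaternion.norm_coe, norm_norm,
    mul_inv_cancel₀ h]⟩

theorem coe_ne {r : ℝ} (h : r ≠ 0) : ((r : ℝ) : Hq) ≠ 0 := by
  intro h0
  apply h
  have h1 : ‖((r : ℝ) : Hq)‖ = 0 := by rw [h0, norm_zero]
  rw [Quaternion.norm_coe] at h1
  exact norm_eq_zero.1 h1

theorem mem_BB (l : Fin (n + 1)) (x : Y × SH (n + 1)) : mk x ∈ BB Y n l ↔ x.2.1 l ≠ 0 := by
  constructor
  · rintro ⟨x', h, hx'⟩
    obtain ⟨g, rfl⟩ := mk_eq_iff.1 h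
    intro h0
    apply hx'
    show x.2.1 l * (g : Hq) = 0
    rw [h0, zero_mul]
  · intro h
    exact ⟨x, rfl, h⟩

/-- the open set upstairs -/
abbrev WW (Y : Type) [TopologicalSpace Y] [GSp Y] (n : ℕ) (l : Fin (n + 1)) : Type :=
  {x : Y × SH (n + 1) // x.2.1 l ≠ 0}

omit [GSp Y] in
theorem cont_coord (l : Fin (n + 1)) : Continuous fun x : Y × SH (n + 1) => x.2.1 l :=
  (continuous_apply l).comp (continuous_subtype_val.comp continuous_snd)

theorem isOpen_BB (l : Fin (n + 1)) : IsOpen (BB Y n l) := by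
  have h : BB Y n l = mk '' {x : Y × SH (n + 1) | x.2.1 l ≠ 0} := by
    ext p
    constructor
    · rintro ⟨x, rfl, hx⟩
      exact ⟨x, hx, rfl⟩
    · rintro ⟨x, hx, rfl⟩
      exact ⟨x, rfl, hx⟩
  rw [h]
  refine isOpenMap_mk _ ?_
  exact isOpen_ne_fun (cont_coord l) continuous_const

/-- the projection -/
def mkW (l : Fin (n + 1)) (x : WW Y n l) : ↥(BB Y n l) := ⟨mk x.1, ⟨x.1, rfl, x.2⟩⟩

theorem mkW_surj (l : Fin (n + 1)) : Function.Surjective (mkW (Y := Y) l) := by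
  rintro ⟨p, x, rfl, hx⟩
  exact ⟨⟨x, hx⟩, rfl⟩

theorem mkW_cont (l : Fin (n + 1)) : Continuous (mkW (Y := Y) l) :=
  Continuous.subtype_mk (continuous_mk.comp continuous_subtype_val) _

theorem mkW_open (l : Fin (n + 1)) : IsOpenMap (mkW (Y := Y) l) := by
  intro U hU
  have h1 : IsOpen ((Subtype.val : WW Y n l → Y × SH (n + 1)) '' U) :=
    (isOpen_ne_fun (cont_coord l) continuous_const).isOpenEmbedding_subtypeVal.isOpenMap U hU
  have h2 := isOpenMap_mk _ h1
  have h3 : mkW l '' U = (Subtype.val : ↥(BB Y n l) → _) ⁻¹' (mk '' (Subtype.val '' U)) := by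
    ext p
    constructor
    · rintro ⟨x, hx, rfl⟩
      exact ⟨x.1, ⟨x, hx, rfl⟩, rfl⟩
    · rintro ⟨_, ⟨x, hx, rfl⟩, h⟩
      exact ⟨x, hx, Subtype.ext h⟩
  rw [h3]
  exact h2.preimage continuous_subtype_val

theorem mkW_quot (l : Fin (n + 1)) : IsQuotientMap (mkW (Y := Y) l) :=
  (mkW_open l).isQuotientMap (mkW_cont l) (mkW_surj l)

/-- the chart upstairs -/
def F (l : Fin (n + 1)) (x : WW Y n l) : Y × (Fin n → Hq) :=
  (act x.1.1 (un (x.1.2.1 l) x.2), fun i => x.1.2.1 (l.succAbove i) * (x.1.2.1 l)⁻¹)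

theorem F_cont (l : Fin (n + 1)) : Continuous (F (Y := Y) l) := by
  have h0 : Continuous fun x : WW Y n l => x.1.2.1 l := (cont_coord l).comp continuous_subtype_val
  have h1 : Continuous fun x : WW Y n l => (x.1.2.1 l)⁻¹ := h0.inv₀ fun x => x.2
  refine Continuous.prodMk ?_ ?_
  · refine GSp.cont.comp ((continuous_fst.comp continuous_subtype_val).prodMk ?_)
    refine Continuous.subtype_mk ?_ _
    exact (Quaternion.continuous_coe.comp h0.norm).mul h1
  · refine continuous_pi fun i => ?_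
    exact ((cont_coord (l.succAbove i)).comp continuous_subtype_val).mul h1

theorem F_inv (l : Fin (n + 1)) (x x' : WW Y n l) (h : mkW l x = mkW l x') : F l x = F l x' := by
  obtain ⟨x, hx⟩ := x
  obtain ⟨x', hx'⟩ := x'
  have h' : mk x = mk x' := congrArg Subtype.val h
  obtain ⟨g, rfl⟩ := mk_eq_iff.1 h'
  have hg : (g : Hq) ≠ 0 := by
    intro h0
    have := norm_sp1 g
    rw [h0, norm_zero] at this
    exact zero_ne_one this
  have e1 : (act x g).2.1 l = x.2.1 l * (g : Hq) := rfl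
  have e2 : (act x g).1 = act x.1 g := rfl
  refine Prod.ext ?_ ?_
  · show act x.1 (un (x.2.1 l) hx) = act (act x g).1 (un ((act x g).2.1 l) hx')
    rw [e2, ← GSp.act_mul]
    congr 1
    apply Subtype.ext
    show ((‖x.2.1 l‖ : ℝ) : Hq) * (x.2.1 l)⁻¹ = (g : Hq) * (((‖(act x g).2.1 l‖ : ℝ) : Hq) * ((act x g).2.1 l)⁻¹)
    rw [e1, norm_mul, norm_sp1, mul_one, mul_inv_rev, ← mul_assoc, ← mul_assoc,
      ← (Quaternion.coe_commutes _ (g : Hq)), mul_assoc _ (g : Hq), mul_inv_cancel₀ hg, mul_one]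
  · funext i
    show x.2.1 (l.succAbove i) * (x.2.1 l)⁻¹ =
      (x.2.1 (l.succAbove i) * (g : Hq)) * (x.2.1 l * (g : Hq))⁻¹
    rw [mul_inv_rev, mul_assoc, ← mul_assoc (g : Hq), mul_inv_cancel₀ hg, one_mul]

/-- the vector `(1, u)` -/
def ins (l : Fin (n + 1)) (u : Fin n → Hq) : Fin (n + 1) → Hq := Fin.insertNth l (1 : Hq) u

theorem ins_self (l : Fin (n + 1)) (u : Fin n → Hq) : ins l u l = 1 := Fin.insertNth_apply_same ..

theorem ins_succ (l : Fin (n + 1)) (u : Fin n → Hq) (i : Fin n) : ins l u (l.succAbove i) = u i :=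
  Fin.insertNth_apply_succAbove ..

theorem ins_pos (l : Fin (n + 1)) (u : Fin n → Hq) : 0 < sq (ins l u) := by
  refine sq_pos fun h => ?_
  have := congrFun h l
  rw [ins_self] at this
  exact one_ne_zero this

/-- the inverse upstairs -/
def G0 (l : Fin (n + 1)) (q : Y × (Fin n → Hq)) : WW Y n l :=
  ⟨(q.1, ⟨rm (Real.sqrt (sq (ins l q.2)))⁻¹ (ins l q.2), by
    rw [sq_rm, inv_pow, Real.sq_sqrt (ins_pos l q.2).le, inv_mul_cancel₀ (ins_pos l q.2).ne']⟩), by
    show (((Real.sqrt (sq (ins l q.2)))⁻¹ : ℝ) : Hq) * ins l q.2 l ≠ 0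
    rw [ins_self, mul_one]
    exact coe_ne (inv_ne_zero (Real.sqrt_pos.2 (ins_pos l q.2)).ne')⟩

theorem G0_cont (l : Fin (n + 1)) : Continuous (G0 (Y := Y) l) := by
  have h0 : Continuous fun q : Y × (Fin n → Hq) => ins l q.2 := by
    unfold ins
    exact Continuous.finInsertNth l continuous_const continuous_snd
  refine Continuous.subtype_mk (continuous_fst.prodMk (Continuous.subtype_mk ?_ _)) _
  refine continuous_rm ?_ h0
  exact ((continuous_sq.comp h0).sqrt).inv₀ fun q => (Real.sqrt_pos.2 (ins_pos l q.2)).ne'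

theorem F_G0 (l : Fin (n + 1)) (q : Y × (Fin n → Hq)) : F l (G0 l q) = q := by
  obtain ⟨y, u⟩ := q
  obtain ⟨r, hr⟩ : ∃ r, r = (Real.sqrt (sq (ins l u)))⁻¹ := ⟨_, rfl⟩
  have hr0 : 0 < r := by rw [hr]; exact inv_pos.2 (Real.sqrt_pos.2 (ins_pos l u))
  have hrH : ((r : ℝ) : Hq) ≠ 0 := coe_ne hr0.ne'
  have e1 : (G0 l (y, u)).1.2.1 l = (r : Hq) := by
    show (((Real.sqrt (sq (ins l u)))⁻¹ : ℝ) : Hq) * ins l u l = (r : Hq)
    rw [ins_self, mul_one, hr]
  have e2 : ∀ i, (G0 l (y, u)).1.2.1 (l.succAbove i) = (r : Hq) * u i := by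
    intro i
    show (((Real.sqrt (sq (ins l u)))⁻¹ : ℝ) : Hq) * ins l u (l.succAbove i) = (r : Hq) * u i
    rw [ins_succ, hr]
  refine Prod.ext ?_ ?_
  · show act y (un ((G0 l (y, u)).1.2.1 l) (G0 l (y, u)).2) = y
    have : un ((G0 l (y, u)).1.2.1 l) (G0 l (y, u)).2 = 1 := by
      apply Subtype.ext
      show ((‖(G0 l (y, u)).1.2.1 l‖ : ℝ) : Hq) * ((G0 l (y, u)).1.2.1 l)⁻¹ = 1
      rw [e1, Quaternion.norm_coe, Real.norm_eq_abs, abs_of_pos hr0, mul_inv_cancel₀ hrH]
    rw [this, GSp.act_one]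
  · funext i
    show (G0 l (y, u)).1.2.1 (l.succAbove i) * ((G0 l (y, u)).1.2.1 l)⁻¹ = u i
    rw [e1, e2, Quaternion.coe_commutes, mul_assoc, mul_inv_cancel₀ hrH, mul_one]

theorem G0_F (l : Fin (n + 1)) (x : WW Y n l) : mkW l (G0 l (F l x)) = mkW l x := by
  obtain ⟨⟨y, w⟩, hx⟩ := x
  have hx' : w.1 l ≠ 0 := hx
  have hn : 0 < ‖w.1 l‖ := norm_pos_iff.2 hx'
  apply Subtype.ext
  show mk (G0 l (F l ⟨(y, w), hx⟩)).1 = mk (y, w)
  rw [mk_eq_iff]
  obtain ⟨u, hu⟩ : ∃ u, u = (F l ⟨(y, w), hx⟩).2 := ⟨_, rfl⟩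
  have e1 : ins l u = fun i => w.1 i * (w.1 l)⁻¹ := by
    rw [hu]
    unfold ins
    rw [Fin.insertNth_eq_iff]
    refine ⟨(mul_inv_cancel₀ hx').symm, rfl⟩
  have e2 : sq (ins l u) = (‖w.1 l‖⁻¹) ^ 2 := by
    rw [e1]
    unfold sq
    have : ∀ i, ‖w.1 i * (w.1 l)⁻¹‖ ^ 2 = ‖w.1 i‖ ^ 2 * (‖w.1 l‖⁻¹) ^ 2 := by
      intro i
      rw [norm_mul, norm_inv, mul_pow]
    rw [Finset.sum_congr rfl fun i _ => this i, ← Finset.sum_mul]
    have h1 : ∑ i, ‖w.1 i‖ ^ 2 = 1 := w.2
    rw [h1, one_mul]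
  have e3 : (Real.sqrt (sq (ins l u)))⁻¹ = ‖w.1 l‖ := by
    rw [e2, Real.sqrt_sq (by positivity), inv_inv]
  have e4 : (G0 l (F l ⟨(y, w), hx⟩)).1 = act (y, w) (un (w.1 l) hx') := by
    refine Prod.ext rfl (Subtype.ext ?_)
    funext i
    show (((Real.sqrt (sq (ins l (F l ⟨(y, w), hx⟩).2)))⁻¹ : ℝ) : Hq) *
      ins l (F l ⟨(y, w), hx⟩).2 i = w.1 i * (((‖w.1 l‖ : ℝ) : Hq) * (w.1 l)⁻¹)
    rw [← hu, e3, e1, ← mul_assoc, ← mul_assoc, Quaternion.coe_commutes]
  rw [e4]
  refine ⟨(un (w.1 l) hx')⁻¹, ?_⟩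
  rw [← GSp.act_mul, mul_inv_cancel, GSp.act_one]

/-- the projection as a continuous map -/
def mkC (l : Fin (n + 1)) : C(WW Y n l, ↥(BB Y n l)) := ⟨mkW l, mkW_cont l⟩

theorem mkC_quot (l : Fin (n + 1)) : IsQuotientMap (mkC (Y := Y) l) := mkW_quot l

theorem FC_fac (l : Fin (n + 1)) :
    Function.FactorsThrough (⟨F l, F_cont l⟩ : C(WW Y n l, Y × (Fin n → Hq))) (mkC l) :=
  fun a b h => F_inv l a b h

/-- the chart -/
def E (l : Fin (n + 1)) : C(↥(BB Y n l), Y × (Fin n → Hq)) :=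
  (mkC_quot (Y := Y) l).lift ⟨F l, F_cont l⟩ (FC_fac l)

theorem E_mkW (l : Fin (n + 1)) (x : WW Y n l) : E l (mkW l x) = F l x := by
  have := (mkC_quot (Y := Y) l).lift_comp ⟨F l, F_cont l⟩ (FC_fac l)
  exact DFunLike.congr_fun this x

end triv2_aux

open triv2_aux

/-- TARGET -/
theorem triv2 : S_triv2 := by
  intro Y _ _ n l
  refine ⟨isOpen_BB l, ⟨⟨⇑(E l), fun q => mkW l (G0 l q), ?_, ?_⟩, ?_, ?_⟩, ?_⟩
  · intro p
    obtain ⟨x, rfl⟩ := mkW_surj l p
    show mkW l (G0 l (E l (mkW l x))) = mkW l x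
    rw [E_mkW, G0_F]
  · intro q
    show E l (mkW l (G0 l q)) = q
    rw [E_mkW, F_G0]
  · exact (E l).continuous
  · exact (mkW_cont l).comp (G0_cont l)
  · intro x h i
    have hx := (mem_BB l x).1 h
    have := E_mkW l ⟨x, hx⟩
    exact congrFun (congrArg Prod.snd this) i

end

end Pool.Agent.Helper965_Rud
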