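import Pool.Agent.Helper965_Rud.P_hinv
import Pool.Agent.Helper965_Rud.P_mvVan
import Pool.Agent.Helper965_Rud.P_mvTop
import Pool.Agent.Helper965_Rud.P_sphGeo
import Pool.Agent.Helper965_Rud.P_sph0
import Pool.Agent.Helper965_Rud.P_sph1
import Pool.Agent.Helper965_Rud.P_sph
import Pool.Agent.Helper965_Rud.P_SH
import Pool.Agent.Helper965_Rud.P_triv2
import Pool.Agent.Helper965_Rud.P_orbV
import Pool.Agent.Helper965_Rud.P_orbUV
import Pool.Agent.Helper965_Rud.P_orb
import Pool.Agent.Helper965_Rud.P_leCalc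
import Pool.Agent.Helper965_Rud.P_leMod
import Pool.Agent.Helper965_Rud.P_leOrb
import Pool.Agent.Helper965_Rud.P_openS
import Pool.Agent.Helper965_Rud.P_AMh
import Pool.Agent.Helper965_Rud.P_BMNh
import Pool.Agent.Helper965_Rud.P_mapsS
import Pool.Agent.Helper965_Rud.P_ANhS
import Pool.Agent.Helper965_Rud.P_CNh
import Pool.Agent.Helper965_Rud.P_Y2h
import Pool.Agent.Helper965_Rud.P_heMN
import Pool.Agent.Helper965_Rud.P_topV
import Pool.Agent.Helper965_Rud.P_pcS
import Pool.Agent.Helper965_Rud.P_leS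
import Pool.Agent.Helper965_Rud.P_topMN
import Pool.Agent.Helper965_Rud.P_degS
import Pool.Agent.Helper965_Rud.P_levels
import Pool.Agent.Helper965_Rud.P_OMh
import Pool.Agent.Helper965_Rud.P_catMh
import Pool.Agent.Helper965_Rud.P_cnS
import Pool.Agent.Helper965_Rud.P_trS
import Pool.Agent.Helper965_Rud.P_parS
import Pool.Agent.Helper965_Rud.P_tietzeS
import Pool.Agent.Helper965_Rud.P_F1S
import Pool.Agent.Helper965_Rud.P_SWS
import Pool.Agent.Helper965_Rud.P_approxS
import Pool.Agent.Helper965_Rud.P_par0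
import Pool.Agent.Helper965_Rud.P_par12
import Pool.Agent.Helper965_Rud.P_par34
import Pool.Agent.Helper965_Rud.P_badS
import Pool.Agent.Helper965_Rud.P_goodS
import Pool.Agent.Helper965_Rud.P_GPS
import Pool.Agent.Helper965_Rud.P_TS
import Pool.Agent.Helper965_Rud.P_extS
import Pool.Agent.Helper965_Rud.P_toHS
import Pool.Agent.Helper965_Rud.P_toNullS
import Pool.Agent.Helper965_Rud.P_toFS
import Pool.Agent.Helper965_Rud.P_asMS
import Pool.Agent.Helper965_Rud.P_asComp
import Pool.Agent.Helper965_Rud.P_asHalf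
import Pool.Agent.Helper965_Rud.P_asSSK
import Pool.Agent.Helper965_Rud.P_asDesc
import Pool.Agent.Helper965_Rud.P_asTop
import Pool.Agent.Helper965_Rud.P_asBaseA
import Pool.Agent.Helper965_Rud.P_asCirc
import Pool.Agent.Helper965_Rud.P_asCaps
import Pool.Agent.Helper965_Rud.P_asBand
import Pool.Agent.Helper965_Rud.P_asBaseB
import Pool.Agent.Helper965_Rud.P_asBase

/-! # Assembly of the parts -/

set_option autoImplicit false

namespace Pool.Agent.Helper965_Rud

theorem fin_sph : S_sph := sph hinv mvVan mvTop sphGeo sph0 (sph1 hinv)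

theorem fin_orb : S_orb := orb hinv mvVan mvTop fin_sph SHsph triv2 orbV (orbUV triv2)

theorem fin_heM : S_heM := (heMN openS AMh BMNh Y2h).1

theorem fin_heN : S_heN := (heMN openS AMh BMNh Y2h).2

theorem fin_topV : S_topV := topV hinv fin_sph SHsph fin_orb

theorem fin_pc : S_pc := pcS openS AMh BMNh Y2h ANhS SHsph

theorem fin_leOrb : S_leOrb := leOrb leCalc leMod triv2

theorem fin_le : S_le := leS leCalc leMod fin_leOrb openS AMh BMNh Y2h ANhS SHsph

theorem fin_top : S_topM ∧ S_topN ∧ S_AN :=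
  topMN hinv mvTop fin_sph fin_orb openS fin_heM fin_heN fin_topV ANhS CNh

theorem fin_deg : S_deg := degS hinv openS fin_heM fin_heN fin_topV fin_top.2.2 BMNh mapsS

theorem fin_catM : S_catM := catMh levels OMh cnS fin_pc

theorem fin_F1 : S_F1 := F1S (parS trS) tietzeS

theorem fin_good : S_good := goodS badS par0 par12 par34

theorem fin_GP : S_GP := GPS (approxS SWS) fin_good

theorem fin_toH : S_toH := toHS TS extS

theorem fin_band : AS.S_band := AS.asBand AS.asCirc

theorem fin_baseB : AS.S_baseB := AS.asBaseB AS.asCaps fin_band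

theorem fin_base : AS.S_base := AS.asBase AS.asMS AS.asComp (AS.asBaseA AS.asMS) fin_baseB

theorem fin_desc : AS.S_desc := AS.asDesc AS.asComp (AS.asHalf AS.asComp)

theorem fin_topF : AS.S_top := AS.asTop AS.asComp (AS.asSSK AS.asMS)

theorem fin_noF : S_noF := AS.noF fin_topF fin_desc fin_base

/-- `cat N ≥ 5` -/
theorem fin_catN : ¬ CatLE 4 NN := not_catLE_N fin_F1 fin_GP fin_toH toNullS toFS fin_noF

end Pool.Agent.Helper965_Rud
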