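import Pool.Agent.Helper965_Rud.ASStmts

/-!
JOB asHalf (MP_89fcdb_gt, owner helper965; disproof of a conjecture of Rudyak; part: Alexander-Spanier cochains mod 2).
Setup: git fetch in outputs/live, copy Pool/Agent/Helper965_Rud/*.lean from origin/main
to the same paths under /workdir/pool/Pool/Agent/, then `lake build Pool.Agent.Helper965_Rud.ASStmts`. Check with `lake env lean <file>`.
Cochains are ALL functions List Ω → ZMod 2 (see ASDefs: d, Sm X ε l = the list l is in X with pairwise distances < ε, Nl X q c = c vanishes on small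
lists of length q in X, Coc, Cob, HV X q = the cohomology of X in length q vanishes, H1, pb f c = fun l => c (l.map f), d_add, d_sub, d_d, d_pb, Nl.add, Nl.sub, Nl.mono, Nl.d,
Cob.add, ..., prism). ASMV: MV.mv_glue. ASSusp: coc_of_two, mv, susp. ASHomot: Homot.acyclic_of_contract (contractible compact sets are acyclic). ASPull: nl_pb, coc_pb, cob_pb, homot
(homotopy invariance), HV.of_retract, cob_of_pb, hv_zero, empty_h1, empty_hv. ASCup: cup r p q x y (cup-(r-1) product of x of length p and y of length q, which has length p+q-r),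
cup_add_l, cup_add_r, cup_pb, d_cup, Nl.cup_left, Nl.cup_right. Coefficients ZMod 2: c + c = 0 (CharTwo.add_self_eq_zero), c - c' = c + c' (CharTwo.sub_eq_add).
The hypotheses S_... of the target are proved by other jobs: just use them.
Return the WHOLE file with the target proved (no sorry, no axiom, no native_decide; keep the name and the statement of the target).
Auxiliary lemmas: before the target, with names starting with asHalf_ .
Avoid straight double quotes and the words forbidden by RULES.md. If the statement is false or something is missing, say so in the note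
(status 'problem') with the reason. The final path of the file is Pool/Agent/Helper965_Rud/P_asHalf.lean .

PROOF. Let j : Fin K be the index k, e = ε times the unit vector e_j (Pi.single j ε). All three sets are compact (closed subsets of the compact sets of h). Use Homot.acyclic_of_contract (it gives HV for every q).
SA: p = (0, e, 0), H t (β,y,τ) = ((1-t) β, (1-t) y + t e, (1-t) τ) divided by N = sqrt((1-t)^2 |β|^2 + ∑ ((1-t) y_i + t e_i)^2 + (1-t)^2 τ^2). N > 0: N^2 ≥ ((1-t) ε y_j + t)^2 with (1-t) ε y_j ≥ 0, so N > 0 for t > 0, and N = 1 for t = 0.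
XA: points (P,y) with P = w wᵀ: the trace tr P = ∑ P i i = ∑ w_i^2. p = (0, e) = rho 0 e. H t (P,y) = ((1-t)^2 P / N^2, ((1-t) y + t e)/N), N = sqrt((1-t)^2 tr P + ∑ ((1-t) y_i + t e_i)^2), which is continuous near the compact set as N > 0 there. For P = w wᵀ this is
rho ((1-t) w/N) (((1-t) y + t e)/N), so H t maps XA to XA and XPA to XPA. H 0 x = x, H 1 x = p.
-/

set_option autoImplicit false

namespace Pool.Agent.Helper965_Rud.AS

open scoped ComplexConjugate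
open Set

noncomputable section

/-- the square of the normalising factor -/
def asHalf_M {K : ℕ} (a : ℝ) (y e : Fin K → ℝ) (t : ℝ) : ℝ :=
  (1 - t) ^ 2 * a + ∑ i, ((1 - t) * y i + t * e i) ^ 2

/-- the normalising factor -/
def asHalf_n {K : ℕ} (a : ℝ) (y e : Fin K → ℝ) (t : ℝ) : ℝ := (Real.sqrt (asHalf_M a y e t))⁻¹

theorem asHalf_pos {K : ℕ} (j : Fin K) {ε : ℝ} (hε : ε = 1 ∨ ε = -1) {a : ℝ} (ha : 0 ≤ a)
    {y : Fin K → ℝ} (hy : a + ∑ i, y i ^ 2 = 1) (hj : 0 ≤ ε * y j) {t : ℝ} (ht : t ∈ Icc (0 : ℝ) 1) :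
    0 < asHalf_M a y (Pi.single j ε) t := by
  obtain ⟨h0, h1⟩ := ht
  rcases h0.eq_or_lt with h | h
  · subst h
    simp only [asHalf_M, sub_zero, one_pow, one_mul, zero_mul, add_zero]
    rw [hy]
    norm_num
  · unfold asHalf_M
    have hs : ((1 - t) * y j + t * (Pi.single j ε : Fin K → ℝ) j) ^ 2 ≤
        ∑ i, ((1 - t) * y i + t * (Pi.single j ε : Fin K → ℝ) i) ^ 2 :=
      Finset.single_le_sum (f := fun i => ((1 - t) * y i + t * (Pi.single j ε : Fin K → ℝ) i) ^ 2)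
        (fun i _ => sq_nonneg _) (Finset.mem_univ j)
    rw [Pi.single_eq_same] at hs
    have he : ε ^ 2 = 1 := by rcases hε with h | h <;> rw [h] <;> norm_num
    have h2 : ((1 - t) * y j + t * ε) ^ 2 = ((1 - t) * y j) ^ 2 + 2 * (t * (1 - t) * (ε * y j)) + t ^ 2 * ε ^ 2 := by
      ring
    rw [he] at h2
    have h3 : 0 ≤ t * (1 - t) * (ε * y j) := mul_nonneg (mul_nonneg h0 (by linarith)) hj
    have h4 : 0 ≤ (1 - t) ^ 2 * a := by positivity
    have h5 : 0 < t ^ 2 := by positivity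
    nlinarith [sq_nonneg ((1 - t) * y j)]

theorem asHalf_n_sq {K : ℕ} {a : ℝ} {y e : Fin K → ℝ} {t : ℝ} (h : 0 < asHalf_M a y e t) :
    asHalf_n a y e t ^ 2 * asHalf_M a y e t = 1 := by
  unfold asHalf_n
  rw [inv_pow, Real.sq_sqrt h.le, inv_mul_cancel₀ h.ne']

theorem asHalf_n_nonneg {K : ℕ} (a : ℝ) (y e : Fin K → ℝ) (t : ℝ) : 0 ≤ asHalf_n a y e t := by
  unfold asHalf_n
  positivity

theorem asHalf_n_zero {K : ℕ} {a : ℝ} {y : Fin K → ℝ} (e : Fin K → ℝ) (hy : a + ∑ i, y i ^ 2 = 1) :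
    asHalf_n a y e 0 = 1 := by
  simp only [asHalf_n, asHalf_M, sub_zero, one_pow, one_mul, zero_mul, add_zero]
  rw [hy]
  simp

theorem asHalf_n_one {K : ℕ} (a : ℝ) (y : Fin K → ℝ) (j : Fin K) {ε : ℝ} (hε : ε = 1 ∨ ε = -1) :
    asHalf_n a y (Pi.single j ε) 1 = 1 := by
  have he : ε ^ 2 = 1 := by rcases hε with h | h <;> rw [h] <;> norm_num
  have h : ∑ i, ((Pi.single j ε : Fin K → ℝ) i) ^ 2 = ε ^ 2 := by
    rw [Finset.sum_eq_single j]
    · rw [Pi.single_eq_same]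
    · intro i _ hi
      rw [Pi.single_eq_of_ne hi]
      norm_num
    · intro h; exact absurd (Finset.mem_univ j) h
  simp only [asHalf_n, asHalf_M, sub_self, zero_mul, zero_add, one_mul, ne_eq, OfNat.ofNat_ne_zero,
    not_false_eq_true, zero_pow]
  rw [h, he]
  simp

/-- the vector part -/
def asHalf_v {K : ℕ} (n : ℝ) (y e : Fin K → ℝ) (t : ℝ) : Fin K → ℝ :=
  fun i => n * ((1 - t) * y i + t * e i)

theorem asHalf_v_supp {K k : ℕ} {j : Fin K} (hj : (j : ℕ) = k) (ε n : ℝ) {y : Fin K → ℝ}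
    (hy : ∀ i : Fin K, k + 1 ≤ (i : ℕ) → y i = 0) (t : ℝ) (i : Fin K) (hi : k + 1 ≤ (i : ℕ)) :
    asHalf_v n y (Pi.single j ε) t i = 0 := by
  unfold asHalf_v
  have hne : i ≠ j := by
    intro h
    rw [h] at hi
    omega
  rw [hy i hi, Pi.single_eq_of_ne hne]
  ring

theorem asHalf_v_sign {K k : ℕ} {j : Fin K} (hj : (j : ℕ) = k) {ε n : ℝ} (hε : ε = 1 ∨ ε = -1)
    (hn : 0 ≤ n)
    {y : Fin K → ℝ} (hy : ∀ i : Fin K, (i : ℕ) = k → 0 ≤ ε * y i) {t : ℝ} (ht : t ∈ Icc (0 : ℝ) 1)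
    (i : Fin K) (hi : (i : ℕ) = k) :
    0 ≤ ε * asHalf_v n y (Pi.single j ε) t i := by
  unfold asHalf_v
  have he : ε * ε = 1 := by rcases hε with h | h <;> rw [h] <;> norm_num
  have hie : i = j := Fin.ext (hi.trans hj.symm)
  have h1 := hy i hi
  have h2 : (Pi.single j ε : Fin K → ℝ) i = ε := by
    rw [hie, Pi.single_eq_same]
  rw [h2]
  have h3 : ε * (n * ((1 - t) * y i + t * ε)) = n * ((1 - t) * (ε * y i) + t * (ε * ε)) := by ring
  rw [h3, he]
  have h4 : 0 ≤ 1 - t := by linarith [ht.2]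
  have h5 := ht.1
  positivity

theorem asHalf_v_sum {K : ℕ} (n a : ℝ) (y e : Fin K → ℝ) (t : ℝ) :
    n ^ 2 * ((1 - t) ^ 2 * a) + ∑ i, asHalf_v n y e t i ^ 2 = n ^ 2 * asHalf_M a y e t := by
  unfold asHalf_v asHalf_M
  simp only [mul_pow]
  rw [← Finset.mul_sum, mul_add]

theorem asHalf_single_sum {K : ℕ} (j : Fin K) {ε : ℝ} (hε : ε = 1 ∨ ε = -1) :
    ∑ i, ((Pi.single j ε : Fin K → ℝ) i) ^ 2 = 1 := by
  have he : ε ^ 2 = 1 := by rcases hε with h | h <;> rw [h] <;> norm_num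
  rw [Finset.sum_eq_single j]
  · rw [Pi.single_eq_same, he]
  · intro i _ hi
    rw [Pi.single_eq_of_ne hi]
    norm_num
  · intro h; exact absurd (Finset.mem_univ j) h

theorem asHalf_single_supp {K k : ℕ} {j : Fin K} (hj : (j : ℕ) = k) (ε : ℝ) (i : Fin K)
    (hi : k + 1 ≤ (i : ℕ)) : (Pi.single j ε : Fin K → ℝ) i = 0 := by
  have hne : i ≠ j := by
    intro h
    rw [h] at hi
    omega
  rw [Pi.single_eq_of_ne hne]

theorem asHalf_single_sign {K k : ℕ} {j : Fin K} (hj : (j : ℕ) = k) {ε : ℝ} (hε : ε = 1 ∨ ε = -1)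
    (i : Fin K) (hi : (i : ℕ) = k) : 0 ≤ ε * (Pi.single j ε : Fin K → ℝ) i := by
  have he : ε * ε = 1 := by rcases hε with h | h <;> rw [h] <;> norm_num
  have hie : i = j := Fin.ext (hi.trans hj.symm)
  rw [hie, Pi.single_eq_same, he]
  norm_num

theorem asHalf_v_zero {K : ℕ} (y e : Fin K → ℝ) : asHalf_v 1 y e 0 = y := by
  funext i
  simp [asHalf_v]

theorem asHalf_v_one {K : ℕ} (y e : Fin K → ℝ) : asHalf_v 1 y e 1 = e := by
  funext i
  simp [asHalf_v]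

/-- the contraction of the half spheres -/
def asHalf_HS {K : ℕ} (e : Fin K → ℝ) (t : ℝ) (x : ES K) : ES K :=
  ((asHalf_n (‖x.1‖ ^ 2 + x.2.2 ^ 2) x.2.1 e t * (1 - t)) • x.1,
    asHalf_v (asHalf_n (‖x.1‖ ^ 2 + x.2.2 ^ 2) x.2.1 e t) x.2.1 e t,
    (asHalf_n (‖x.1‖ ^ 2 + x.2.2 ^ 2) x.2.1 e t * (1 - t)) * x.2.2)

/-- the contraction of the halves of the quotients -/
def asHalf_HX {K : ℕ} (e : Fin K → ℝ) (t : ℝ) (x : EX K) : EX K :=
  (fun i j => (asHalf_n (∑ i, x.1 i i) x.2 e t * (1 - t)) ^ 2 * x.1 i j,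
    asHalf_v (asHalf_n (∑ i, x.1 i i) x.2 e t) x.2 e t)

theorem asHalf_HX_rho {K : ℕ} (e : Fin K → ℝ) (t : ℝ) (w : Fin 5 → ℝ) (y : Fin K → ℝ) :
    asHalf_HX e t (rho w y) = rho (fun i => asHalf_n (∑ i, w i ^ 2) y e t * (1 - t) * w i)
      (asHalf_v (asHalf_n (∑ i, w i ^ 2) y e t) y e t) := by
  have h : ∑ i, w i * w i = ∑ i, w i ^ 2 := Finset.sum_congr rfl fun i _ => (pow_two (w i)).symm
  unfold asHalf_HX rho
  simp only [h]
  refine Prod.ext ?_ rfl
  funext i j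
  ring

theorem asHalf_closed {K k : ℕ} {E : Type} [TopologicalSpace E] (ε : ℝ) (f : E → (Fin K → ℝ))
    (hf : Continuous f) : IsClosed {x : E | ∀ i : Fin K, (i : ℕ) = k → 0 ≤ ε * f x i} := by
  have : {x : E | ∀ i : Fin K, (i : ℕ) = k → 0 ≤ ε * f x i} =
      ⋂ (i : Fin K) (_ : (i : ℕ) = k), {x : E | 0 ≤ ε * f x i} := by
    ext x
    simp
  rw [this]
  refine isClosed_iInter fun i => isClosed_iInter fun _ => ?_
  exact isClosed_le continuous_const (continuous_const.mul ((continuous_apply i).comp hf))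

theorem asHalf_SA (K k : ℕ) (hk : k + 1 ≤ K) (ε : ℝ) (hε : ε = 1 ∨ ε = -1)
    (hc : IsCompact (SS K (k + 1))) (q : ℕ) : HV (SA K k ε) q := by
  obtain ⟨j, hj⟩ : ∃ j : Fin K, (j : ℕ) = k := ⟨⟨k, by omega⟩, rfl⟩
  have hSS : ∀ x : ES K, x ∈ SS K (k + 1) → (‖x.1‖ ^ 2 + x.2.2 ^ 2) + ∑ i, x.2.1 i ^ 2 = 1 := by
    intro x hx
    linarith [hx.1]
  have hpos : ∀ x ∈ SA K k ε, ∀ t ∈ Icc (0 : ℝ) 1,
      0 < asHalf_M (‖x.1‖ ^ 2 + x.2.2 ^ 2) x.2.1 (Pi.single j ε) t := by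
    intro x hx t ht
    exact asHalf_pos j hε (by positivity) (hSS x hx.1) (hx.2 j hj) ht
  refine Homot.acyclic_of_contract (SA K k ε) ?_ (0, Pi.single j ε, 0) (asHalf_HS (Pi.single j ε))
    ?_ ?_ ?_ ?_ ?_ q
  · exact hc.inter_right (asHalf_closed ε (fun x : ES K => x.2.1) (by fun_prop))
  · have hM : Continuous (fun z : ℝ × ES K => asHalf_M (‖z.2.1‖ ^ 2 + z.2.2.2 ^ 2) z.2.2.1
        (Pi.single j ε) z.1) := by
      unfold asHalf_M
      fun_prop
    have hn : ContinuousOn (fun z : ℝ × ES K => asHalf_n (‖z.2.1‖ ^ 2 + z.2.2.2 ^ 2) z.2.2.1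
        (Pi.single j ε) z.1) (Icc 0 1 ×ˢ SA K k ε) := by
      unfold asHalf_n
      refine ContinuousOn.inv₀ (Real.continuous_sqrt.comp hM).continuousOn ?_
      rintro ⟨t, x⟩ ⟨ht, hx⟩
      exact (Real.sqrt_pos.2 (hpos x hx t ht)).ne'
    unfold asHalf_HS asHalf_v
    refine ContinuousOn.prodMk ?_ (ContinuousOn.prodMk ?_ ?_)
    · fun_prop
    · refine continuousOn_pi.2 fun i => ?_
      fun_prop
    · fun_prop
  · intro t ht x hx
    have hn := asHalf_n_sq (hpos x hx t ht)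
    have hn0 := asHalf_n_nonneg (‖x.1‖ ^ 2 + x.2.2 ^ 2) x.2.1 (Pi.single j ε) t
    refine ⟨⟨?_, ?_⟩, ?_⟩
    · have h1 := asHalf_v_sum (asHalf_n (‖x.1‖ ^ 2 + x.2.2 ^ 2) x.2.1 (Pi.single j ε) t)
        (‖x.1‖ ^ 2 + x.2.2 ^ 2) x.2.1 (Pi.single j ε) t
      rw [hn] at h1
      simp only [asHalf_HS]
      rw [norm_smul, mul_pow, Real.norm_eq_abs, sq_abs]
      linear_combination h1
    · intro i hi
      exact asHalf_v_supp hj ε _ hx.1.2 t i hi
    · intro i hi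
      exact asHalf_v_sign hj hε hn0 hx.2 ht i hi
  · intro x hx
    unfold asHalf_HS
    rw [asHalf_n_zero _ (hSS x hx.1), asHalf_v_zero]
    simp
  · intro x hx
    unfold asHalf_HS
    rw [asHalf_n_one _ _ j hε, asHalf_v_one]
    simp
  · refine ⟨⟨?_, fun i hi => asHalf_single_supp hj ε i hi⟩, fun i hi => asHalf_single_sign hj hε i hi⟩
    simp only [norm_zero]
    rw [asHalf_single_sum j hε]
    norm_num

theorem asHalf_tr {K : ℕ} (w : Fin 5 → ℝ) (y : Fin K → ℝ) :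
    ∑ i, (rho w y).1 i i = ∑ i, w i ^ 2 :=
  Finset.sum_congr rfl fun i _ => (pow_two (w i)).symm

theorem asHalf_X (K k : ℕ) (hk : k + 1 ≤ K) (ε : ℝ) (hε : ε = 1 ∨ ε = -1) (R : (Fin 5 → ℝ) → Prop)
    (hR0 : R 0) (hR : ∀ w, R w → ∀ c : ℝ, R (fun i => c * w i)) (Y : Set (EX K))
    (hY : Y = {x | ∃ (w : Fin 5 → ℝ) (y : Fin K → ℝ), x = rho w y ∧
      ∑ i, w i ^ 2 + ∑ i, y i ^ 2 = 1 ∧ (∀ i : Fin K, k + 1 ≤ (i : ℕ) → y i = 0) ∧ R w})
    (hc : IsCompact Y) (q : ℕ) :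
    HV ({x | x ∈ Y ∧ ∀ i : Fin K, (i : ℕ) = k → 0 ≤ ε * x.2 i}) q := by
  obtain ⟨j, hj⟩ : ∃ j : Fin K, (j : ℕ) = k := ⟨⟨k, by omega⟩, rfl⟩
  have hpos : ∀ x ∈ {x | x ∈ Y ∧ ∀ i : Fin K, (i : ℕ) = k → 0 ≤ ε * x.2 i}, ∀ t ∈ Icc (0 : ℝ) 1,
      0 < asHalf_M (∑ i, x.1 i i) x.2 (Pi.single j ε) t := by
    rintro x ⟨hx, hx2⟩ t ht
    rw [hY] at hx
    obtain ⟨w, y, rfl, h1, h2, h3⟩ := hx
    rw [asHalf_tr]
    exact asHalf_pos j hε (by positivity) h1 (hx2 j hj) ht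
  refine Homot.acyclic_of_contract _ ?_ (rho 0 (Pi.single j ε)) (asHalf_HX (Pi.single j ε))
    ?_ ?_ ?_ ?_ ?_ q
  · exact hc.inter_right (asHalf_closed ε (fun x : EX K => x.2) (by fun_prop))
  · have hM : Continuous (fun z : ℝ × EX K => asHalf_M (∑ i, z.2.1 i i) z.2.2
        (Pi.single j ε) z.1) := by
      unfold asHalf_M
      fun_prop
    have hn : ContinuousOn (fun z : ℝ × EX K => asHalf_n (∑ i, z.2.1 i i) z.2.2
        (Pi.single j ε) z.1) (Icc 0 1 ×ˢ {x | x ∈ Y ∧ ∀ i : Fin K, (i : ℕ) = k → 0 ≤ ε * x.2 i}) := by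
      unfold asHalf_n
      refine ContinuousOn.inv₀ (Real.continuous_sqrt.comp hM).continuousOn ?_
      rintro ⟨t, x⟩ ⟨ht, hx⟩
      exact (Real.sqrt_pos.2 (hpos x hx t ht)).ne'
    unfold asHalf_HX asHalf_v
    refine ContinuousOn.prodMk ?_ ?_
    · refine continuousOn_pi.2 fun i => continuousOn_pi.2 fun i' => ?_
      fun_prop
    · refine continuousOn_pi.2 fun i => ?_
      fun_prop
  · intro t ht x hx
    have hM := hpos x hx t ht
    obtain ⟨hx1, hx2⟩ := hx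
    rw [hY] at hx1
    obtain ⟨w, y, rfl, h1, h2, h3⟩ := hx1
    rw [asHalf_tr] at hM
    have hM' : 0 < asHalf_M (∑ i, w i ^ 2) y (Pi.single j ε) t := hM
    have hn := asHalf_n_sq hM'
    have hn0 := asHalf_n_nonneg (∑ i, w i ^ 2) y (Pi.single j ε) t
    rw [asHalf_HX_rho]
    refine ⟨?_, fun i hi => asHalf_v_sign hj hε hn0 hx2 ht i hi⟩
    rw [hY]
    refine ⟨_, _, rfl, ?_, fun i hi => asHalf_v_supp hj ε _ h2 t i hi, hR w h3 _⟩
    have h4 := asHalf_v_sum (asHalf_n (∑ i, w i ^ 2) y (Pi.single j ε) t)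
        (∑ i, w i ^ 2) y (Pi.single j ε) t
    rw [hn] at h4
    simp only [mul_pow]
    rw [← Finset.mul_sum]
    linear_combination h4
  · rintro x ⟨hx, hx2⟩
    rw [hY] at hx
    obtain ⟨w, y, rfl, h1, h2, h3⟩ := hx
    rw [asHalf_HX_rho, asHalf_n_zero _ h1, asHalf_v_zero]
    congr 1
    funext i
    ring
  · rintro x ⟨hx, hx2⟩
    rw [hY] at hx
    obtain ⟨w, y, rfl, h1, h2, h3⟩ := hx
    rw [asHalf_HX_rho, asHalf_n_one _ _ j hε, asHalf_v_one]
    congr 1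
    funext i
    simp
  · refine ⟨?_, fun i hi => asHalf_single_sign hj hε i hi⟩
    rw [hY]
    refine ⟨_, _, rfl, ?_, fun i hi => asHalf_single_supp hj ε i hi, hR0⟩
    rw [asHalf_single_sum j hε]
    simp

/-- TARGET -/
theorem asHalf (h : S_comp) : S_half := by
  intro K k hk ε hε q
  obtain ⟨h1, h2, h3⟩ := h K (k + 1)
  refine ⟨?_, ?_, asHalf_SA K k hk ε hε h3 q⟩
  · refine asHalf_X K k hk ε hε (fun _ => True) trivial (fun _ _ _ => trivial) (XX K (k + 1)) ?_ h1 q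
    simp [XX]
  · refine asHalf_X K k hk ε hε (fun w => w 1 = 0 ∧ w 2 = 0) ⟨rfl, rfl⟩ ?_ (XP K (k + 1)) rfl h2 q
    rintro w ⟨hw1, hw2⟩ c
    exact ⟨by simp [hw1], by simp [hw2]⟩

end

end Pool.Agent.Helper965_Rud.AS
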