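import Pool.Agent.Helper965_Rud.Stmts2
import Pool.Agent.Helper534.LS.P_hmap_comp
import Pool.Agent.Helper534.LS.P_hmap_id
import Pool.Agent.Helper534.LS.P_hmap_homotopic

/-!
JOB hinv (MP_89fcdb_gt, owner helper965; disproof of a conjecture of Rudyak).
Setup: git fetch in outputs/live, copy Pool/Agent/Helper965_Rud/*.lean from origin/main (and Pool/Agent/Helper534/LS/*.lean)
to the same paths under /workdir/pool/Pool/Agent/, then `lake build` the modules imported here. Check with `lake env lean <file>`.
Helper965_Rud: Defs, Alg (algebra lemmas: herm_*, sq_*, rm, cm, jm, cp, lc), Basic (XN, XM, compactness), Stmts, StmtsTop, Stmts2 (the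
propositions S_...). The hypotheses S_... of the target are proved by other jobs: just use them.
Return the WHOLE file with the target proved (no sorry, no axiom, no native_decide; keep the name and the statement of the target).
Auxiliary lemmas: before the target, in the namespace hinv_aux (open it before the target) or with names starting with hinv_ .
Avoid straight double quotes and the words forbidden by RULES.md. If the statement is false or something is missing, say so in the note
(status 'problem') with the reason. The final path of the file is Pool/Agent/Helper965_Rud/P_hinv.lean .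

PROOF. For f : C(X,Y), g : C(Y,X) inverse up to homotopy: hmap g d (hmap f d x) = x and hmap f d (hmap g d y) = y by hmap_comp,
hmap_homotopic (it says: homotopic maps have equal hmap) and hmap_id. So hmap f j is a linear equivalence HH X j = HH Y j for all j. Van and Top
transport (Top: compose the equivalence HH X d = Z with the inverse).
-/

set_option autoImplicit false

namespace Pool.Agent.Helper965_Rud

open scoped ComplexConjugate unitInterval
open Pool.Agent.Helper534.LS (HH hmap sub inl inr delta)

noncomputable section

/-- TARGET -/
theorem hinv : S_hinv := by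
  intro X Y _ _ f g hgf hfg d
  have h1 : ∀ (j : ℕ) (x : HH X j), hmap g j (hmap f j x) = x := by
    intro j x
    rw [← Pool.Agent.Helper534.LS.hmap_comp, Pool.Agent.Helper534.LS.hmap_homotopic _ _ hgf,
      Pool.Agent.Helper534.LS.hmap_id]
  have h2 : ∀ (j : ℕ) (y : HH Y j), hmap f j (hmap g j y) = y := by
    intro j y
    rw [← Pool.Agent.Helper534.LS.hmap_comp, Pool.Agent.Helper534.LS.hmap_homotopic _ _ hfg,
      Pool.Agent.Helper534.LS.hmap_id]
  have hV : Van X d → Van Y d := by
    intro h j hj y
    rw [← h2 j y, h j hj (hmap g j y), map_zero]
  refine ⟨hV, ?_⟩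
  rintro ⟨hX, ⟨e⟩⟩
  refine ⟨hV hX, ?_⟩
  have e2 : HH Y d ≃ₗ[ℤ] HH X d :=
    { hmap g d with
      invFun := hmap f d
      left_inv := h2 d
      right_inv := h1 d }
  exact ⟨e2.trans e⟩

end

end Pool.Agent.Helper965_Rud
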