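import Pool.Agent.Helper965_Rud.Stmts2

/-!
JOB leCalc (MP_89fcdb_gt, owner helper965; disproof of a conjecture of Rudyak): calculus of locally Euclidean spaces.
-/

set_option autoImplicit false

namespace Pool.Agent.Helper965_Rud

open scoped ComplexConjugate unitInterval
open Pool.Agent.Helper534.LS (HH hmap sub inl inr delta)

noncomputable section

theorem leCalc_iff (n : ℕ) (X : Type) [TopologicalSpace X] : LocEuc n X ↔
    ∀ x : X, ∃ V : Set (EuclideanSpace ℝ (Fin n)), IsOpen V ∧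
      ∃ f : V → X, Topology.IsOpenEmbedding f ∧ x ∈ Set.range f := by
  constructor
  · intro h x
    obtain ⟨U, hU, hxU, V, hV, ⟨e⟩⟩ := h x
    refine ⟨V, hV, fun v => (e.symm v : X), ?_, ?_⟩
    · exact hU.isOpenEmbedding_subtypeVal.comp e.symm.isOpenEmbedding
    · exact ⟨e ⟨x, hxU⟩, by simp⟩
  · intro h x
    obtain ⟨V, hV, f, hf, hx⟩ := h x
    exact ⟨Set.range f, hf.isOpen_range, hx, V, hV, ⟨hf.isEmbedding.toHomeomorph.symm⟩⟩

theorem leCalc_incl {Z : Type} [TopologicalSpace Z] {V W : Set Z} (hW : IsOpen W)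
    (hV : IsOpen V) (h : W ⊆ V) : Topology.IsOpenEmbedding (Set.inclusion h) := by
  refine Topology.IsOpenEmbedding.of_comp _ hV.isOpenEmbedding_subtypeVal ?_
  exact hW.isOpenEmbedding_subtypeVal

/-- TARGET -/
theorem leCalc : S_leCalc := by
  refine ⟨?_, ?_, ?_, ?_⟩
  · intro n X Y _ _ ⟨φ⟩ h
    rw [leCalc_iff] at h ⊢
    intro y
    obtain ⟨V, hV, f, hf, v, hv⟩ := h (φ.symm y)
    refine ⟨V, hV, fun v => φ (f v), φ.isOpenEmbedding.comp hf, v, ?_⟩
    simp only [hv, Homeomorph.apply_symm_apply]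
  · intro n X _ U hU h
    rw [leCalc_iff] at h ⊢
    intro x
    obtain ⟨V, hV, f, hf, v, hv⟩ := h x.1
    have hWo : IsOpen (Subtype.val '' (f ⁻¹' U) : Set (EuclideanSpace ℝ (Fin n))) :=
      hV.isOpenEmbedding_subtypeVal.isOpenMap _ (hU.preimage hf.continuous)
    have hsub : (Subtype.val '' (f ⁻¹' U) : Set (EuclideanSpace ℝ (Fin n))) ⊆ V := by
      rintro _ ⟨w, _, rfl⟩
      exact w.2
    have hmem : ∀ w : (Subtype.val '' (f ⁻¹' U) : Set (EuclideanSpace ℝ (Fin n))),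
        f (Set.inclusion hsub w) ∈ U := by
      rintro ⟨_, ⟨w, hw, rfl⟩⟩
      exact hw
    refine ⟨_, hWo, fun w => ⟨f (Set.inclusion hsub w), hmem w⟩, ?_, ?_⟩
    · refine Topology.IsOpenEmbedding.of_comp _ hU.isOpenEmbedding_subtypeVal ?_
      exact hf.comp (leCalc_incl hWo hV hsub)
    · refine ⟨⟨v.1, ⟨v, ?_, rfl⟩⟩, ?_⟩
      · show f v ∈ U
        rw [hv]
        exact x.2
      · apply Subtype.ext
        exact hv
  · intro n X _ h
    rw [leCalc_iff]
    intro x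
    obtain ⟨U, hU, hx, hL⟩ := h x
    rw [leCalc_iff] at hL
    obtain ⟨V, hV, f, hf, v, hv⟩ := hL ⟨x, hx⟩
    refine ⟨V, hV, fun v => (f v : X), hU.isOpenEmbedding_subtypeVal.comp hf, v, ?_⟩
    simp only [hv]
  · intro m n X Y _ _ hX hY
    rw [leCalc_iff] at hX hY ⊢
    rintro ⟨x, y⟩
    obtain ⟨V, hV, f, hf, v, hv⟩ := hX x
    obtain ⟨W, hW, g, hg, w, hw⟩ := hY y
    have hdim : Module.finrank ℝ (EuclideanSpace ℝ (Fin (m + n))) =
        Module.finrank ℝ (EuclideanSpace ℝ (Fin m) × EuclideanSpace ℝ (Fin n)) := by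
      rw [Module.finrank_prod, finrank_euclideanSpace_fin, finrank_euclideanSpace_fin,
        finrank_euclideanSpace_fin]
    let e : EuclideanSpace ℝ (Fin (m + n)) ≃L[ℝ] EuclideanSpace ℝ (Fin m) × EuclideanSpace ℝ (Fin n) :=
      ContinuousLinearEquiv.ofFinrankEq hdim
    have hZ : IsOpen (e ⁻¹' (V ×ˢ W)) := (hV.prod hW).preimage e.continuous
    let h : (e ⁻¹' (V ×ˢ W) : Set (EuclideanSpace ℝ (Fin (m + n)))) → V × W :=
      fun z => (⟨(e z.1).1, z.2.1⟩, ⟨(e z.1).2, z.2.2⟩)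
    have hh : Topology.IsOpenEmbedding h := by
      refine Topology.IsOpenEmbedding.of_comp _
        (hV.isOpenEmbedding_subtypeVal.prodMap hW.isOpenEmbedding_subtypeVal) ?_
      exact e.toHomeomorph.isOpenEmbedding.comp hZ.isOpenEmbedding_subtypeVal
    refine ⟨_, hZ, fun z => Prod.map f g (h z), (hf.prodMap hg).comp hh, ?_⟩
    refine ⟨⟨e.symm (v.1, w.1), ?_⟩, ?_⟩
    · show e (e.symm (v.1, w.1)) ∈ V ×ˢ W
      rw [ContinuousLinearEquiv.apply_symm_apply]
      exact ⟨v.2, w.2⟩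
    · have : h ⟨e.symm (v.1, w.1), by
          show e (e.symm (v.1, w.1)) ∈ V ×ˢ W
          rw [ContinuousLinearEquiv.apply_symm_apply]
          exact ⟨v.2, w.2⟩⟩ = (v, w) := by
        refine Prod.ext (Subtype.ext ?_) (Subtype.ext ?_)
        · show (e (e.symm (v.1, w.1))).1 = v.1
          rw [ContinuousLinearEquiv.apply_symm_apply]
        · show (e (e.symm (v.1, w.1))).2 = w.1
          rw [ContinuousLinearEquiv.apply_symm_apply]
      show Prod.map f g (h _) = (x, y)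
      rw [this, Prod.map_apply, hv, hw]

end

end Pool.Agent.Helper965_Rud
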