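import Pool.Agent.Helper965_Rud.Stmts2

/-!
JOB leS (MP_89fcdb_gt, owner helper965; disproof of a conjecture of Rudyak).
Setup: git fetch in outputs/live, copy Pool/Agent/Helper965_Rud/*.lean from origin/main (and Pool/Agent/Helper534/LS/*.lean)
to the same paths under /workdir/pool/Pool/Agent/, then `lake build` the modules imported here. Check with `lake env lean <file>`.
Helper965_Rud: Defs, Alg (algebra lemmas: herm_*, sq_*, rm, cm, jm, cp, lc), Basic (XN, XM, compactness), Stmts, StmtsTop, Stmts2 (the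
propositions S_...). The hypotheses S_... of the target are proved by other jobs: just use them.
Return the WHOLE file with the target proved (no sorry, no axiom, no native_decide; keep the name and the statement of the target).
Auxiliary lemmas: before the target, in the namespace leS_aux (open it before the target) or with names starting with leS_ .
Avoid straight double quotes and the words forbidden by RULES.md. If the statement is false or something is missing, say so in the note
(status 'problem') with the reason. The final path of the file is Pool/Agent/Helper965_Rud/P_leS.lean .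

PROOF. SH 3 ≃ₜ Sp 11 (h9, n = 2) is LocEuc 11. VV = Orb (SH 3 × SH (2+1)) is LocEuc (11 + 4*2) = LocEuc 19 (h3). DH is homeomorphic to (equal as a subtype to) the open subset {v | sq v < 1} of Fin 3 → Hq, LocEuc 12 (h1, h2; continuous_sq). UU = Orb (DH × SH 3) is LocEuc (12 + 8) = LocEuc 20.
AMs ≃ₜ VV × ℂ : LocEuc 21. BMs, BNs ≃ₜ VV × Bd : LocEuc 21 (Bd open in ℂ). ANs ≃ₜ UU × Circle : LocEuc 21. MM = AMs ∪ BMs, NN = ANs ∪ BNs with all pieces open (h4): conclude with the covering clause of h1.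
-/

set_option autoImplicit false

namespace Pool.Agent.Helper965_Rud

open scoped ComplexConjugate unitInterval
open Pool.Agent.Helper534.LS (HH hmap sub inl inr delta)

noncomputable section

/-- TARGET -/
theorem leS (h1 : S_leCalc) (h2 : S_leMod) (h3 : S_leOrb) (h4 : S_open) (h5 : S_AM) (h6 : S_BMN)
    (h7 : S_Y2) (h8 : S_ANh) (h9 : S_SH) : S_le := by
  obtain ⟨chom, copn, ccov, cprod⟩ := h1
  obtain ⟨mH, mC, mS, mCi⟩ := h2
  obtain ⟨oAM, oBM, oAN, oBN, -, covM, covN, -⟩ := h4
  obtain ⟨eSH⟩ := h9 2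
  have lSH : LocEuc 11 (SH 3) := chom 11 (Sp 11) (SH 3) ⟨eSH.symm⟩ (mS 11)
  have lVV : LocEuc 19 VV := h3 (SH 3) 11 2 lSH
  have lDH : LocEuc 12 DH := by
    have ho : IsOpen {v : Fin 3 → Hq | sq v < 1} := isOpen_lt continuous_sq continuous_const
    have h := copn 12 (Fin 3 → Hq) {v : Fin 3 → Hq | sq v < 1} ho (mH 3)
    exact h
  have lUU : LocEuc 20 UU := h3 DH 12 2 lDH
  have lBd : LocEuc 2 Bd := copn 2 ℂ (Metric.ball 0 1) Metric.isOpen_ball mC
  have lVB : LocEuc 21 (VV × Bd) := cprod 19 2 VV Bd lVV lBd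
  have lAM : LocEuc 21 ↥AMs := by
    obtain ⟨e, -⟩ := h5
    obtain ⟨e7⟩ := h7
    have l7 : LocEuc 2 {y : Y2 // y.1 ≠ (0, 1)} := chom 2 ℂ _ ⟨e7.symm⟩ mC
    exact chom 21 _ _ ⟨e.symm⟩ (cprod 19 2 VV _ lVV l7)
  obtain ⟨eM, eN, -⟩ := h6
  have lBM : LocEuc 21 ↥BMs := chom 21 _ _ ⟨eM.symm⟩ lVB
  have lBN : LocEuc 21 ↥BNs := chom 21 _ _ ⟨eN.symm⟩ lVB
  have lAN : LocEuc 21 ↥ANs := by
    obtain ⟨e8⟩ := h8
    exact chom 21 _ _ ⟨e8.symm⟩ (cprod 20 1 UU Circle lUU mCi)
  refine ⟨ccov 21 MM fun x => ?_, ccov 21 NN fun x => ?_⟩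
  · rcases covM x with h | h
    · exact ⟨AMs, oAM, h, lAM⟩
    · exact ⟨BMs, oBM, h, lBM⟩
  · rcases covN x with h | h
    · exact ⟨ANs, oAN, h, lAN⟩
    · exact ⟨BNs, oBN, h, lBN⟩

end

end Pool.Agent.Helper965_Rud
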