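import Pool.Agent.Helper965_Rud.Stmts2

/-!
JOB par0 (MP_89fcdb_gt, owner helper965; disproof of a conjecture of Rudyak).
Setup: git fetch in outputs/live, copy Pool/Agent/Helper965_Rud/*.lean from origin/main (and Pool/Agent/Helper534/LS/*.lean)
to the same paths under /workdir/pool/Pool/Agent/, then `lake build` the modules imported here. Check with `lake env lean <file>`.
Helper965_Rud: Defs, Alg (algebra lemmas: herm_*, sq_*, rm, cm, jm, cp, lc), Basic (XN, XM, compactness), Stmts, StmtsTop, Stmts2 (the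
propositions S_...). The hypotheses S_... of the target are proved by other jobs: just use them.
Return the WHOLE file with the target proved (no sorry, no axiom, no native_decide; keep the name and the statement of the target).
Auxiliary lemmas: before the target, in the namespace par0_aux (open it before the target) or with names starting with par0_ .
Avoid straight double quotes and the words forbidden by RULES.md. If the statement is false or something is missing, say so in the note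
(status 'problem') with the reason. The final path of the file is Pool/Agent/Helper965_Rud/P_par0.lean .

PROOF. Parameters: θ ↔ (a₁, a₂, c₁, c₂ : Hq) and z : ℂ, total real dimension 18: use a continuous linear equivalence L between EuclideanSpace ℝ (Fin 18) and (Fin 4 → Hq) × ℂ (ContinuousLinearEquiv.ofFinrankEq, finrank 4*4+2 = 18, Quaternion.finrank_eq_four). s = the θ with z ≠ 0.
Unnormalised: a = (1, a₁, a₂), c = (0, c₁, c₂), b = -(herm a c)/(conj z), where herm a c = cp(a₁ star c₁ + a₂ star c₂) (the term 1 * star 0 vanishes). P θ = ((a/n, b/n), (c/m, z/m)) with n = sqrt(sq a + |b|^2) ≥ 1, m = sqrt(sq c + |z|^2) > 0. P is C^1 at all θ in s: conj, cp, star, norm squared are smooth, division by conj z ≠ 0, sqrt away from 0. E5a (P θ) 0 = 1/n ≠ 0.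
Covering: given x = ((a,b),(c,z)) in XN with c₀ = 0, a₀ ≠ 0, z ≠ 0: let g = star a₀/|a₀| in Sp1, so a₀ g = |a₀| > 0. Take θ ↔ (a₁ g/|a₀|, a₂ g/|a₀|, c₁ g, c₂ g; z). Then the unnormalised first vector is (a g, b)/|a₀| (b is determined by the frame condition herm a c + b conj z = 0 and z ≠ 0), normalised it gives (a g, b) as this is a unit vector; the second is (c g, z),
a unit vector. So P θ = aN x.1 g.
-/

set_option autoImplicit false

namespace Pool.Agent.Helper965_Rud

open scoped ComplexConjugate unitInterval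
open Pool.Agent.Helper534.LS (HH hmap sub inl inr delta)

noncomputable section

namespace par0_aux

/-- parameters -/
abbrev WW : Type := (Fin 4 → Hq) × ℂ

def uA (w : WW) : Fin 3 → Hq := ![1, w.1 0, w.1 1]
def uC (w : WW) : Fin 3 → Hq := ![0, w.1 2, w.1 3]
def uB (w : WW) : ℂ := -(herm (uA w) (uC w)) * (conj w.2)⁻¹
def nA (w : WW) : ℝ := Real.sqrt (sq (uA w) + ‖uB w‖ ^ 2)
def nC (w : WW) : ℝ := Real.sqrt (sq (uC w) + ‖w.2‖ ^ 2)
def P0 (w : WW) : AN :=
  (((nA w)⁻¹ • uA w, (nA w)⁻¹ • uB w), ((nC w)⁻¹ • uC w, (nC w)⁻¹ • w.2))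

def cpL : Hq →ₗ[ℝ] ℂ where
  toFun := cp
  map_add' := cp_add
  map_smul' := fun r q => by apply Complex.ext <;> simp

def stL : Hq →ₗ[ℝ] Hq where
  toFun := star
  map_add' := star_add
  map_smul' := fun r q => by simp

theorem cd_cp : ContDiff ℝ 1 cp := (LinearMap.toContinuousLinearMap cpL).contDiff

theorem cd_star : ContDiff ℝ 1 (star : Hq → Hq) := (LinearMap.toContinuousLinearMap stL).contDiff

theorem cd_herm {E : Type} [NormedAddCommGroup E] [NormedSpace ℝ E] {v w : E → Fin 3 → Hq} {x : E}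
    (hv : ContDiffAt ℝ 1 v x) (hw : ContDiffAt ℝ 1 w x) :
    ContDiffAt ℝ 1 (fun y => herm (v y) (w y)) x := by
  unfold herm
  refine cd_cp.contDiffAt.comp x (ContDiffAt.sum fun i _ => ?_)
  exact (contDiffAt_pi.1 hv i).mul (cd_star.contDiffAt.comp x (contDiffAt_pi.1 hw i))

theorem cd_sq {E : Type} [NormedAddCommGroup E] [NormedSpace ℝ E] {v : E → Fin 3 → Hq} {x : E}
    (hv : ContDiffAt ℝ 1 v x) : ContDiffAt ℝ 1 (fun y => sq (v y)) x := by
  unfold sq
  exact ContDiffAt.sum fun i _ => (contDiffAt_pi.1 hv i).norm_sq ℝ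

theorem cd_coord (i : Fin 4) : ContDiff ℝ 1 (fun w : WW => w.1 i) :=
  (contDiff_apply ℝ Hq i).comp contDiff_fst

theorem cd_uA : ContDiff ℝ 1 uA := by
  unfold uA
  rw [contDiff_pi]
  intro i
  fin_cases i
  · exact contDiff_const
  · exact cd_coord 0
  · exact cd_coord 1

theorem cd_uC : ContDiff ℝ 1 uC := by
  unfold uC
  rw [contDiff_pi]
  intro i
  fin_cases i
  · exact contDiff_const
  · exact cd_coord 2
  · exact cd_coord 3

theorem cd_uB (w : WW) (hw : w.2 ≠ 0) : ContDiffAt ℝ 1 uB w := by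
  unfold uB
  refine ContDiffAt.mul (cd_herm cd_uA.contDiffAt cd_uC.contDiffAt).neg ?_
  refine ContDiffAt.inv ?_ ?_
  · exact (Complex.conjCLE.contDiff.comp contDiff_snd).contDiffAt
  · simpa using hw

theorem sq_uA (w : WW) : 1 ≤ sq (uA w) := by
  unfold sq uA
  rw [Fin.sum_univ_three]
  simp only [Matrix.cons_val_zero, norm_one, one_pow]
  have h1 : 0 ≤ ‖(![1, w.1 0, w.1 1] : Fin 3 → Hq) 1‖ ^ 2 := by positivity
  have h2 : 0 ≤ ‖(![1, w.1 0, w.1 1] : Fin 3 → Hq) 2‖ ^ 2 := by positivity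
  linarith

theorem nA_pos' (w : WW) : 0 < sq (uA w) + ‖uB w‖ ^ 2 := by
  have := sq_uA w
  positivity

theorem nC_pos' (w : WW) (hw : w.2 ≠ 0) : 0 < sq (uC w) + ‖w.2‖ ^ 2 := by
  have h1 := sq_nonneg' (uC w)
  have h2 : 0 < ‖w.2‖ := norm_pos_iff.2 hw
  positivity

theorem nA_pos (w : WW) : 0 < nA w := Real.sqrt_pos.2 (nA_pos' w)
theorem nC_pos (w : WW) (hw : w.2 ≠ 0) : 0 < nC w := Real.sqrt_pos.2 (nC_pos' w hw)

theorem cd_nA (w : WW) (hw : w.2 ≠ 0) : ContDiffAt ℝ 1 (fun w => (nA w)⁻¹) w := by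
  refine ContDiffAt.inv ?_ (nA_pos w).ne'
  unfold nA
  refine ContDiffAt.sqrt ?_ (nA_pos' w).ne'
  exact (cd_sq cd_uA.contDiffAt).add ((cd_uB w hw).norm_sq ℝ)

theorem cd_nC (w : WW) (hw : w.2 ≠ 0) : ContDiffAt ℝ 1 (fun w => (nC w)⁻¹) w := by
  refine ContDiffAt.inv ?_ (nC_pos w hw).ne'
  unfold nC
  refine ContDiffAt.sqrt ?_ (nC_pos' w hw).ne'
  exact (cd_sq cd_uC.contDiffAt).add (contDiff_snd.contDiffAt.norm_sq ℝ)

theorem cd_P0 (w : WW) (hw : w.2 ≠ 0) : ContDiffAt ℝ 1 P0 w := by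
  unfold P0
  exact (((cd_nA w hw).smul cd_uA.contDiffAt).prodMk ((cd_nA w hw).smul (cd_uB w hw))).prodMk
    (((cd_nC w hw).smul cd_uC.contDiffAt).prodMk ((cd_nC w hw).smul contDiff_snd.contDiffAt))

theorem finrank_WW : Module.finrank ℝ (EuclideanSpace ℝ (Fin 18)) = Module.finrank ℝ WW := by
  rw [finrank_euclideanSpace, Module.finrank_prod, Module.finrank_pi_fintype]
  simp [Quaternion.finrank_eq_four]

/-- coordinates -/
def Lq : EuclideanSpace ℝ (Fin 18) ≃L[ℝ] WW := ContinuousLinearEquiv.ofFinrankEq finrank_WW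

/-- the rotation -/
def gq (q : Hq) (hq : q ≠ 0) : Sp1 := ⟨‖q‖⁻¹ • star q, by
  rw [mem_sphere_zero_iff_norm, norm_smul, norm_inv, norm_norm, norm_star]
  exact inv_mul_cancel₀ (norm_ne_zero_iff.2 hq)⟩

theorem mul_gq (q : Hq) (hq : q ≠ 0) : q * (gq q hq : Hq) = ((‖q‖ : ℝ) : Hq) := by
  show q * (‖q‖⁻¹ • star q) = _
  rw [mul_smul_comm, Quaternion.self_mul_star, Quaternion.normSq_eq_norm_mul_self]
  have h : ‖q‖ ≠ 0 := norm_ne_zero_iff.2 hq
  rw [← Quaternion.coe_smul, smul_eq_mul, ← mul_assoc, inv_mul_cancel₀ h, one_mul]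

theorem sq_smul (r : ℝ) (v : Fin 3 → Hq) : sq (r • v) = r ^ 2 * sq v := by
  unfold sq
  rw [Finset.mul_sum]
  refine Finset.sum_congr rfl fun i _ => ?_
  rw [Pi.smul_apply, norm_smul, mul_pow, Real.norm_eq_abs, sq_abs]

theorem herm_smul (r : ℝ) (v w : Fin 3 → Hq) : herm (r • v) w = (r : ℂ) * herm v w := by
  have : r • v = rm r v := by
    funext i
    rw [Pi.smul_apply, rm_apply, Quaternion.coe_mul_eq_smul]
  rw [this, herm_rm_left]

end par0_aux

open par0_aux

/-- TARGET -/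
theorem par0 : S_par0 := by
  refine ⟨fun θ => P0 (Lq θ), {θ | (Lq θ).2 ≠ 0}, ?_, ?_⟩
  · intro θ hθ
    refine ⟨?_, ?_⟩
    · exact (cd_P0 (Lq θ) hθ).comp θ Lq.contDiff.contDiffAt
    · have h1 : E5a (P0 (Lq θ)) 0 = (nA (Lq θ))⁻¹ • (1 : Hq) := rfl
      rw [h1]
      exact smul_ne_zero (inv_ne_zero (nA_pos _).ne') one_ne_zero
  · rintro ⟨⟨⟨a, b⟩, ⟨c, z⟩⟩, hf⟩ ⟨hx0, hx1, hx2⟩
    obtain ⟨f1, f2, f3⟩ := hf
    simp only at f1 f2 f3
    have hc0 : c 0 = 0 := hx0
    have ha0 : a 0 ≠ 0 := hx1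
    have hz : z ≠ 0 := hx2
    obtain ⟨g, hg⟩ : ∃ g : Sp1, a 0 * (g : Hq) = ((‖a 0‖ : ℝ) : Hq) := ⟨gq (a 0) ha0, mul_gq _ _⟩
    have hρ : 0 < ‖a 0‖ := norm_pos_iff.2 ha0
    obtain ⟨ρ, hρd⟩ : ∃ ρ, ρ = ‖a 0‖ := ⟨_, rfl⟩
    rw [← hρd] at hg hρ
    obtain ⟨w, hw⟩ : ∃ w : WW, w = (![ρ⁻¹ • (a 1 * (g : Hq)), ρ⁻¹ • (a 2 * (g : Hq)),
      c 1 * (g : Hq), c 2 * (g : Hq)], z) := ⟨_, rfl⟩
    refine ⟨g, Lq.symm w, ?_, ?_⟩
    · show (Lq (Lq.symm w)).2 ≠ 0
      rw [ContinuousLinearEquiv.apply_symm_apply, hw]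
      exact hz
    · show P0 (Lq (Lq.symm w)) = ((vm a g, b), (vm c g, z))
      rw [ContinuousLinearEquiv.apply_symm_apply]
      have hw2 : w.2 = z := by rw [hw]
      have eA : uA w = ρ⁻¹ • vm a g := by
        rw [hw]
        funext i
        fin_cases i
        · show (1 : Hq) = ρ⁻¹ • (a 0 * (g : Hq))
          rw [hg, ← Quaternion.coe_smul, smul_eq_mul, inv_mul_cancel₀ hρ.ne']
          rfl
        · rfl
        · rfl
      have eC : uC w = vm c g := by
        rw [hw]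
        funext i
        fin_cases i
        · show (0 : Hq) = c 0 * (g : Hq)
          rw [hc0, zero_mul]
        · rfl
        · rfl
      have hcz : conj z ≠ 0 := by simpa using hz
      have eB : uB w = ρ⁻¹ • b := by
        unfold uB
        rw [eA, eC, herm_smul, herm_vm, hw2]
        have h1 : herm a c = -(b * conj z) := by linear_combination f3
        rw [h1, Complex.real_smul]
        field_simp
      have hnA : nA w = ρ⁻¹ := by
        unfold nA
        rw [eA, eB, sq_smul, sq_vm, norm_smul, mul_pow, Real.norm_eq_abs, sq_abs, ← mul_add, f1,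
          mul_one]
        exact Real.sqrt_sq (by positivity)
      have hnC : nC w = 1 := by
        unfold nC
        rw [eC, hw2, sq_vm, f2, Real.sqrt_one]
      unfold P0
      rw [hnA, hnC, eA, eB, eC, hw2, inv_inv, inv_one, one_smul, one_smul, smul_smul, smul_smul,
        mul_inv_cancel₀ hρ.ne', one_smul, one_smul]

end

end Pool.Agent.Helper965_Rud
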