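import Pool.Agent.Helper965_Rud.Stmts
import Pool.Agent.Helper534.LS.Defs

/-! # Statements of the parts about manifold structure, homology and degree

Each `S_...` is a proposition to be proved in its own file. -/

set_option autoImplicit false

namespace Pool.Agent.Helper965_Rud

open scoped ComplexConjugate unitInterval
open Pool.Agent.Helper534.LS (HH hmap sub inl inr)

noncomputable section

/-- the one point space with the trivial action -/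
instance : GSp Unit where
  act _ _ := ()
  act_one _ := rfl
  act_mul _ _ _ := rfl
  cont := continuous_const

/-- integral homology vanishes above degree `d` -/
def Van (X : Type) [TopologicalSpace X] (d : ℕ) : Prop := ∀ j, d < j → ∀ x : HH X j, x = 0

/-- integral homology vanishes above degree `d` and is infinite cyclic in degree `d` -/
def Top (X : Type) [TopologicalSpace X] (d : ℕ) : Prop := Van X d ∧ Nonempty (HH X d ≃ₗ[ℤ] ℤ)

/-- the standard sphere -/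
abbrev Sp (n : ℕ) : Type := Metric.sphere (0 : EuclideanSpace ℝ (Fin (n + 1))) 1

/-! ## Generalities -/

/-- homotopy invariance -/
def S_hinv : Prop := ∀ (X Y : Type) [TopologicalSpace X] [TopologicalSpace Y] (f : C(X, Y))
  (g : C(Y, X)), (g.comp f).Homotopic (ContinuousMap.id X) →
  (f.comp g).Homotopic (ContinuousMap.id Y) → ∀ d, (Van X d → Van Y d) ∧ (Top X d → Top Y d)

/-- Mayer-Vietoris, upper bound -/
def S_mvVan : Prop := ∀ (X : Type) [TopologicalSpace X] (U V : Set X), IsOpen U → IsOpen V →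
  (∀ x, x ∈ U ∨ x ∈ V) → ∀ d, Van U (d + 1) → Van V (d + 1) → Van ↥(U ∩ V) d → Van X (d + 1)

/-- Mayer-Vietoris, top degree -/
def S_mvTop : Prop := ∀ (X : Type) [TopologicalSpace X] (U V : Set X), IsOpen U → IsOpen V →
  (∀ x, x ∈ U ∨ x ∈ V) → ∀ d, 0 < d → (∀ j, d ≤ j → (∀ x : HH U j, x = 0) ∧ ∀ x : HH V j, x = 0) →
  Top ↥(U ∩ V) d → Top X (d + 1)

/-- products with spheres -/
def S_sph : Prop := ∀ (Y : Type) [TopologicalSpace Y] (d n : ℕ), (Van Y d → Van (Y × Sp n) (d + n)) ∧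
  (Top Y d → 0 < n → Top (Y × Sp n) (d + n))

/-- the sphere of `ℍ^{n+1}` is a sphere -/
def S_SH : Prop := ∀ n, Nonempty (SH (n + 1) ≃ₜ Sp (4 * n + 3))

/-- the part `w_l ≠ 0` of `(Y × S(ℍ^{n+1})) / G` -/
def BB (Y : Type) [TopologicalSpace Y] [GSp Y] (n : ℕ) (l : Fin (n + 1)) :
    Set (Orb (Y × SH (n + 1))) := {p | ∃ x : Y × SH (n + 1), p = mk x ∧ x.2.1 l ≠ 0}

/-- the affine charts -/
def S_triv : Prop := ∀ (Y : Type) [TopologicalSpace Y] [GSp Y] (n : ℕ) (l : Fin (n + 1)),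
  IsOpen (BB Y n l) ∧ Nonempty (↥(BB Y n l) ≃ₜ Y × (Fin n → Hq))

/-- homology of `(Y × S(ℍ^{n+1})) / G` -/
def S_orb : Prop := ∀ (Y : Type) [TopologicalSpace Y] [GSp Y] (n d : ℕ),
  (Van Y d → Van (Orb (Y × SH (n + 1))) (d + 4 * n)) ∧
  (Top Y d → Top (Orb (Y × SH (n + 1))) (d + 4 * n))

/-! ## The pieces of `M` and `N` -/

/-- the closed `19`-manifold `V` -/
abbrev VV : Type := Orb (SH 3 × SH 3)

/-- the open unit disc -/
abbrev Bd : Type := Metric.ball (0 : ℂ) 1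

/-- the two-sphere, coordinates `(z, s)` -/
def Y2 : Type := {y : ℂ × ℝ // ‖y.1‖ ^ 2 + y.2 ^ 2 = 1}

instance : TopologicalSpace Y2 := instTopologicalSpaceSubtype

/-- the part `y ≠ north pole` of `M` -/
def AMs : Set MM := {p | ∃ x : XM, p = mk x ∧ x.1.2.1 ≠ (0, 1)}
/-- the part `s > 0` of `M` -/
def BMs : Set MM := {p | ∃ x : XM, p = mk x ∧ 0 < x.1.2.1.2}
/-- the part `z ≠ 0` of `N` -/
def ANs : Set NN := {p | ∃ x : XN, p = mk x ∧ x.1.2.2 ≠ 0}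
/-- the part `c ≠ 0` of `N` -/
def BNs : Set NN := {p | ∃ x : XN, p = mk x ∧ x.1.2.1 ≠ 0}
/-- the part `z ≠ 0` or `Re ⟨c, j a⟩ > 0` of `N` -/
def CNs : Set NN := {p | ∃ x : XN, p = mk x ∧
  (x.1.2.2 ≠ 0 ∨ 0 < (herm x.1.2.1 (jm x.1.1.1)).re)}

/-- the pieces are open and cover -/
def S_open : Prop := IsOpen AMs ∧ IsOpen BMs ∧ IsOpen ANs ∧ IsOpen BNs ∧ IsOpen CNs ∧
  (∀ p, p ∈ AMs ∨ p ∈ BMs) ∧ (∀ p, p ∈ ANs ∨ p ∈ BNs) ∧ ANs ⊆ CNs

/-- `A_M = V × (S² - north pole)` -/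
def S_AM : Prop := ∃ e : ↥AMs ≃ₜ VV × {y : Y2 // y.1 ≠ (0, 1)},
  ∀ (x : XM) (h : mk x ∈ AMs), (e ⟨mk x, h⟩).2.1.1 = x.1.2.1

/-- `B_M = V × disc = B_N`, compatibly with the map `fM` -/
def S_BMN : Prop := ∃ (eM : ↥BMs ≃ₜ VV × Bd) (eN : ↥BNs ≃ₜ VV × Bd),
  (∀ (x : XM) (h : mk x ∈ BMs), ((eM ⟨mk x, h⟩).2 : ℂ) = x.1.2.1.1) ∧
  (∀ (x : XN) (h : mk x ∈ BNs), ((eN ⟨mk x, h⟩).2 : ℂ) = x.1.2.2) ∧
  ∀ p : ↥BMs, ∃ h : fM p.1 ∈ BNs, eN ⟨fM p.1, h⟩ = eM p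

/-- `fM` maps `A_M` into `C_N` and `B_M ∩ A_M` into `B_N ∩ A_N` -/
def S_maps : Prop := (∀ p ∈ AMs, fM p ∈ CNs) ∧ ∀ p ∈ AMs ∩ BMs, fM p ∈ ANs ∩ BNs

/-- `M` and `N` are path connected and locally Euclidean of dimension `21` -/
def S_mfd : Prop := LocEuc 21 MM ∧ LocEuc 21 NN ∧ PathConnectedSpace MM ∧ PathConnectedSpace NN

/-- `H_21(M) = ℤ` -/
def S_topM : Prop := Top MM 21

/-- `H_21(N) = ℤ` -/
def S_topN : Prop := Top NN 21

/-- `H_j(A_N) = 0` and `H_j(C_N) = 0` for `j > 9` -/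
def S_AN : Prop := Van ANs 9 ∧ Van CNs 9

/-- the map of degree one -/
def S_deg : Prop := Function.Bijective (hmap fM 21)

end

end Pool.Agent.Helper965_Rud
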